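import Pool.Agent.Y842.CX.Sep

/-! # Continuous class functions on a compact group are limits of combinations of characters -/

set_option autoImplicit false

namespace Pool.Agent.Q255.SG.CG

open MeasureTheory Matrix Filter Topology
open scoped ComplexConjugate Kronecker

variable {G : Type} [Group G] [TopologicalSpace G]

/-- a coefficient of a continuous unitary representation -/
def Co (f : G → ℂ) : Prop := ∃ (ι : Type) (_ : Fintype ι) (_ : DecidableEq ι)
  (ρ : G →* Matrix ι ι ℂ) (A : Matrix ι ι ℂ), Continuous ρ ∧ (∀ g, (ρ g)ᴴ * ρ g = 1) ∧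
    ∀ g, f g = (A * ρ g).trace

/-- the trace of a continuous unitary representation -/
def Ct (f : G → ℂ) : Prop := ∃ (n : ℕ) (ρ : G →* Matrix.unitaryGroup (Fin n) ℂ),
  Continuous ρ ∧ ∀ g, f g = (ρ g : Matrix (Fin n) (Fin n) ℂ).trace

theorem co_const (c : ℂ) : Co (fun _ : G => c) := by
  refine ⟨Unit, inferInstance, inferInstance, 1, fun _ _ => c, continuous_const, fun g => ?_,
    fun g => ?_⟩
  · simp
  · simp [Matrix.trace]

theorem co_add {f g : G → ℂ} (hf : Co f) (hg : Co g) : Co (fun x => f x + g x) := by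
  obtain ⟨ι, _, _, ρ, A, h1, h2, h3⟩ := hf
  obtain ⟨κ, _, _, σ, B, k1, k2, k3⟩ := hg
  refine ⟨ι ⊕ κ, inferInstance, inferInstance,
    { toFun := fun x => fromBlocks (ρ x) 0 0 (σ x)
      map_one' := by simp
      map_mul' := fun x y => by simp [fromBlocks_multiply] },
    fromBlocks A 0 0 B, ?_, fun x => ?_, fun x => ?_⟩
  · exact Continuous.matrix_fromBlocks h1 continuous_const continuous_const k1
  · simp [fromBlocks_conjTranspose, fromBlocks_multiply, h2, k2]
  · simp [fromBlocks_multiply, h3, k3, Matrix.trace, Fintype.sum_sum_type]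

theorem co_mul {f g : G → ℂ} (hf : Co f) (hg : Co g) : Co (fun x => f x * g x) := by
  obtain ⟨ι, _, _, ρ, A, h1, h2, h3⟩ := hf
  obtain ⟨κ, _, _, σ, B, k1, k2, k3⟩ := hg
  refine ⟨ι × κ, inferInstance, inferInstance,
    { toFun := fun x => ρ x ⊗ₖ σ x
      map_one' := by simp
      map_mul' := fun x y => by rw [map_mul, map_mul, Matrix.mul_kronecker_mul] },
    A ⊗ₖ B, ?_, fun x => ?_, fun x => ?_⟩
  · refine continuous_matrix fun i j => ?_
    exact (h1.matrix_elem i.1 j.1).mul (k1.matrix_elem i.2 j.2)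
  · show (ρ x ⊗ₖ σ x)ᴴ * (ρ x ⊗ₖ σ x) = 1
    rw [Matrix.conjTranspose_kronecker, ← Matrix.mul_kronecker_mul, h2, k2,
      Matrix.one_kronecker_one]
  · show f x * g x = (A ⊗ₖ B * (ρ x ⊗ₖ σ x)).trace
    rw [← Matrix.mul_kronecker_mul, Matrix.trace_kronecker, ← h3, ← k3]

theorem co_star {f : G → ℂ} (hf : Co f) : Co (fun x => conj (f x)) := by
  obtain ⟨ι, _, _, ρ, A, h1, h2, h3⟩ := hf
  refine ⟨ι, inferInstance, inferInstance,
    ((starRingEnd ℂ).mapMatrix : Matrix ι ι ℂ →+* Matrix ι ι ℂ).toMonoidHom.comp ρ,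
    (starRingEnd ℂ).mapMatrix A, ?_, fun x => ?_, fun x => ?_⟩
  · refine continuous_matrix fun i j => ?_
    exact Complex.continuous_conj.comp (h1.matrix_elem i j)
  · have e1 : (((starRingEnd ℂ).mapMatrix : Matrix ι ι ℂ →+* Matrix ι ι ℂ) (ρ x))ᴴ =
        ((starRingEnd ℂ).mapMatrix : Matrix ι ι ℂ →+* Matrix ι ι ℂ) (ρ x)ᴴ := by
      ext i j
      simp [Matrix.conjTranspose_apply]
    show (((starRingEnd ℂ).mapMatrix : Matrix ι ι ℂ →+* Matrix ι ι ℂ) (ρ x))ᴴ *
      (starRingEnd ℂ).mapMatrix (ρ x) = 1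
    rw [e1, ← map_mul, h2, map_one]
  · show conj (f x) = ((starRingEnd ℂ).mapMatrix A *
      (starRingEnd ℂ).mapMatrix (ρ x)).trace
    rw [← map_mul, h3]
    unfold Matrix.trace
    rw [map_sum]
    rfl

/-- the algebra of coefficients -/
noncomputable def coAlg (G : Type) [Group G] [TopologicalSpace G] [CompactSpace G] :
    StarSubalgebra ℂ C(G, ℂ) where
  carrier := {f | Co (f : G → ℂ)}
  mul_mem' hf hg := co_mul hf hg
  one_mem' := co_const 1
  add_mem' hf hg := co_add hf hg
  zero_mem' := co_const 0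
  algebraMap_mem' r := co_const r
  star_mem' hf := co_star hf

theorem coAlg_dense [IsTopologicalGroup G] [CompactSpace G] [T2Space G] (f : C(G, ℂ)) {ε : ℝ}
    (hε : 0 < ε) : ∃ h : C(G, ℂ), Co (h : G → ℂ) ∧ ∀ x, ‖f x - h x‖ < ε := by
  have hsep : (coAlg G).toSubalgebra.SeparatesPoints := by
    intro a b hab
    obtain ⟨r, ρ, hρ, hne⟩ := Pool.Agent.Y842.CX.separated_of_compact G a b hab
    have h1 : ∃ i j, (ρ a : Matrix (Fin r) (Fin r) ℂ) i j ≠ (ρ b : Matrix (Fin r) (Fin r) ℂ) i j := by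
      by_contra hcon
      push Not at hcon
      exact hne (Subtype.ext (Matrix.ext hcon))
    obtain ⟨i, j, hij⟩ := h1
    have hcont : Continuous fun x => (ρ x : Matrix (Fin r) (Fin r) ℂ) :=
      continuous_subtype_val.comp hρ
    refine ⟨fun x => (ρ x : Matrix (Fin r) (Fin r) ℂ) i j, ⟨⟨fun x =>
      (ρ x : Matrix (Fin r) (Fin r) ℂ) i j, hcont.matrix_elem i j⟩, ?_, rfl⟩, hij⟩
    refine ⟨Fin r, inferInstance, inferInstance,
      (Matrix.unitaryGroup (Fin r) ℂ).subtype.comp ρ, Matrix.single j i 1, hcont, fun x => ?_,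
      fun x => ?_⟩
    · have := Matrix.mem_unitaryGroup_iff'.1 (ρ x).2
      rwa [Matrix.star_eq_conjTranspose] at this
    · show (ρ x : Matrix (Fin r) (Fin r) ℂ) i j =
        (Matrix.single j i 1 * (ρ x : Matrix (Fin r) (Fin r) ℂ)).trace
      rw [Matrix.trace_single_mul]
      simp
  have h1 := ContinuousMap.starSubalgebra_topologicalClosure_eq_top_of_separatesPoints
    (coAlg G) hsep
  have h2 : f ∈ (coAlg G).topologicalClosure := by
    rw [h1]
    trivial
  have h3 : f ∈ closure ((coAlg G : StarSubalgebra ℂ C(G, ℂ)) : Set C(G, ℂ)) := h2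
  rw [Metric.mem_closure_iff] at h3
  obtain ⟨h, hh, hd⟩ := h3 ε hε
  refine ⟨h, hh, fun x => ?_⟩
  rw [← dist_eq_norm]
  exact (ContinuousMap.dist_apply_le_dist x).trans_lt hd

/-- reindexing -/
theorem ct_of {ι : Type} [Fintype ι] [DecidableEq ι] (ρ : G →* Matrix ι ι ℂ) (hρ : Continuous ρ)
    (hu : ∀ g, (ρ g)ᴴ * ρ g = 1) : Ct (fun g => (ρ g).trace) := by
  let e : ι ≃ Fin (Fintype.card ι) := Fintype.equivFin ι
  have hmem : ∀ g, (ρ g).submatrix e.symm e.symm ∈
      Matrix.unitaryGroup (Fin (Fintype.card ι)) ℂ := by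
    intro g
    rw [Matrix.mem_unitaryGroup_iff', Matrix.star_eq_conjTranspose, Matrix.conjTranspose_submatrix,
      Matrix.submatrix_mul_equiv, hu]
    exact Matrix.submatrix_one_equiv e.symm
  refine ⟨Fintype.card ι,
    { toFun := fun g => ⟨(ρ g).submatrix e.symm e.symm, hmem g⟩
      map_one' := by
        apply Subtype.ext
        show (ρ 1).submatrix e.symm e.symm = 1
        rw [map_one]
        exact Matrix.submatrix_one_equiv e.symm
      map_mul' := fun g h => by
        apply Subtype.ext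
        show (ρ (g * h)).submatrix e.symm e.symm =
          (ρ g).submatrix e.symm e.symm * (ρ h).submatrix e.symm e.symm
        rw [map_mul, Matrix.submatrix_mul_equiv] }, ?_, fun g => ?_⟩
  · exact Continuous.subtype_mk (hρ.matrix_submatrix _ _) _
  · show (ρ g).trace = ((ρ g).submatrix e.symm e.symm).trace
    unfold Matrix.trace
    simp only [Matrix.diag_apply, Matrix.submatrix_apply]
    exact (Equiv.sum_comp e.symm fun i => ρ g i i).symm

/-- the space spanned by the characters -/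
noncomputable def CS (G : Type) [Group G] [TopologicalSpace G] : Submodule ℂ (G → ℂ) :=
  Submodule.span ℂ {f | Ct f}

theorem sum_sub_eq {ι : Type} [Fintype ι] (p : ι → Prop) [DecidablePred p]
    (f : ι → ℂ) (hf : ∀ k, ¬ p k → f k = 0) : ∑ k : {i // p i}, f k = ∑ k, f k := by
  rw [← Finset.sum_filter_add_sum_filter_not Finset.univ p f,
    Finset.sum_eq_zero (s := Finset.univ.filter fun k => ¬ p k) fun k hk =>
      hf k (Finset.mem_filter.1 hk).2, add_zero]
  exact (Finset.sum_subtype (Finset.univ.filter p) (by simp) f).symm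

section
variable {ι : Type} [Fintype ι] [DecidableEq ι]

theorem herm (ρ : G →* Matrix ι ι ℂ) (hρ : Continuous ρ) (hu : ∀ g, (ρ g)ᴴ * ρ g = 1)
    (H : Matrix ι ι ℂ) (hH : H.IsHermitian) (hc : ∀ g, H * ρ g = ρ g * H) :
    (fun g => (H * ρ g).trace) ∈ CS G := by
  classical
  set U : Matrix.unitaryGroup ι ℂ := hH.eigenvectorUnitary with hU
  set lam : ι → ℝ := hH.eigenvalues with hlam
  have hUU : (U : Matrix ι ι ℂ)ᴴ * (U : Matrix ι ι ℂ) = 1 := by
    have := Matrix.mem_unitaryGroup_iff'.1 U.2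
    rwa [Matrix.star_eq_conjTranspose] at this
  have hUU' : (U : Matrix ι ι ℂ) * (U : Matrix ι ι ℂ)ᴴ = 1 := by
    have := Matrix.mem_unitaryGroup_iff.1 U.2
    rwa [Matrix.star_eq_conjTranspose] at this
  set Dg : Matrix ι ι ℂ := Matrix.diagonal fun i => ((lam i : ℝ) : ℂ) with hDg
  have hspec : H = (U : Matrix ι ι ℂ) * Dg * (U : Matrix ι ι ℂ)ᴴ := by
    have := hH.spectral_theorem
    rw [Unitary.conjStarAlgAut_apply, Matrix.star_eq_conjTranspose] at this
    exact this
  -- the conjugated representation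
  set σ : G → Matrix ι ι ℂ := fun g => (U : Matrix ι ι ℂ)ᴴ * ρ g * (U : Matrix ι ι ℂ) with hσ
  have hσ1 : σ 1 = 1 := by simp only [hσ, map_one, mul_one, hUU]
  have hσm : ∀ g h, σ (g * h) = σ g * σ h := by
    intro g h
    simp only [hσ, map_mul]
    calc (U : Matrix ι ι ℂ)ᴴ * (ρ g * ρ h) * (U : Matrix ι ι ℂ)
        = (U : Matrix ι ι ℂ)ᴴ * ρ g * 1 * ρ h * (U : Matrix ι ι ℂ) := by noncomm_ring
      _ = (U : Matrix ι ι ℂ)ᴴ * ρ g * ((U : Matrix ι ι ℂ) * (U : Matrix ι ι ℂ)ᴴ) * ρ h *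
          (U : Matrix ι ι ℂ) := by rw [hUU']
      _ = _ := by noncomm_ring
  have hσu : ∀ g, (σ g)ᴴ * σ g = 1 := by
    intro g
    simp only [hσ, Matrix.conjTranspose_mul, Matrix.conjTranspose_conjTranspose]
    calc (U : Matrix ι ι ℂ)ᴴ * ((ρ g)ᴴ * (U : Matrix ι ι ℂ)) *
          ((U : Matrix ι ι ℂ)ᴴ * ρ g * (U : Matrix ι ι ℂ))
        = (U : Matrix ι ι ℂ)ᴴ * (ρ g)ᴴ * ((U : Matrix ι ι ℂ) * (U : Matrix ι ι ℂ)ᴴ) * ρ g *
          (U : Matrix ι ι ℂ) := by noncomm_ring
      _ = (U : Matrix ι ι ℂ)ᴴ * ((ρ g)ᴴ * ρ g) * (U : Matrix ι ι ℂ) := by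
          rw [hUU', mul_one]
          noncomm_ring
      _ = 1 := by rw [hu, mul_one, hUU]
  have hσD : ∀ g, Dg * σ g = σ g * Dg := by
    intro g
    have h1 : Dg = (U : Matrix ι ι ℂ)ᴴ * H * (U : Matrix ι ι ℂ) := by
      rw [hspec]
      calc Dg = 1 * Dg * 1 := by noncomm_ring
        _ = ((U : Matrix ι ι ℂ)ᴴ * (U : Matrix ι ι ℂ)) * Dg *
            ((U : Matrix ι ι ℂ)ᴴ * (U : Matrix ι ι ℂ)) := by rw [hUU]
        _ = _ := by noncomm_ring
    calc Dg * σ g = (U : Matrix ι ι ℂ)ᴴ * H * ((U : Matrix ι ι ℂ) * (U : Matrix ι ι ℂ)ᴴ) * ρ g *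
          (U : Matrix ι ι ℂ) := by
          rw [h1]
          simp only [hσ]
          noncomm_ring
      _ = (U : Matrix ι ι ℂ)ᴴ * (H * ρ g) * (U : Matrix ι ι ℂ) := by
          rw [hUU', mul_one]
          noncomm_ring
      _ = (U : Matrix ι ι ℂ)ᴴ * (ρ g * H) * (U : Matrix ι ι ℂ) := by rw [hc]
      _ = (U : Matrix ι ι ℂ)ᴴ * ρ g * ((U : Matrix ι ι ℂ) * (U : Matrix ι ι ℂ)ᴴ) * H *
          (U : Matrix ι ι ℂ) := by
          rw [hUU', mul_one]
          noncomm_ring
      _ = σ g * Dg := by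
          rw [h1]
          simp only [hσ]
          noncomm_ring
  have hzero : ∀ g i j, lam i ≠ lam j → σ g i j = 0 := by
    intro g i j hij
    have h1 := congrFun (congrFun (hσD g) i) j
    rw [hDg, Matrix.diagonal_mul, Matrix.mul_diagonal] at h1
    have h2 : (((lam i : ℝ) : ℂ) - ((lam j : ℝ) : ℂ)) * σ g i j = 0 := by
      rw [sub_mul, h1]
      ring
    rcases mul_eq_zero.1 h2 with h3 | h3
    · exact absurd (by exact_mod_cast sub_eq_zero.1 h3) hij
    · exact h3
  have hσc : Continuous σ := by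
    exact (continuous_const.mul hρ).mul continuous_const
  -- the blocks
  have hblock : ∀ s : ℝ, Ct (fun g => ((σ g).submatrix (Subtype.val : {i // lam i = s} → ι)
      Subtype.val).trace) := by
    intro s
    refine ct_of
      { toFun := fun g => (σ g).submatrix (Subtype.val : {i // lam i = s} → ι) Subtype.val
        map_one' := by
          rw [hσ1]
          exact Matrix.submatrix_one _ Subtype.val_injective
        map_mul' := fun g h => by
          ext i j
          rw [hσm]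
          simp only [Matrix.submatrix_apply, Matrix.mul_apply]
          refine (sum_sub_eq (fun k => lam k = s) (fun k => σ g i k * σ h k j)
            fun k hk => ?_).symm
          rw [hzero g i k (fun h0 => hk (h0 ▸ i.2)), zero_mul] } ?_ ?_
    · exact hσc.matrix_submatrix _ _
    · intro g
      show ((σ g).submatrix (Subtype.val : {i // lam i = s} → ι) Subtype.val)ᴴ *
        (σ g).submatrix (Subtype.val : {i // lam i = s} → ι) Subtype.val = 1
      ext i j
      rw [Matrix.conjTranspose_submatrix]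
      simp only [Matrix.submatrix_apply, Matrix.mul_apply]
      rw [sum_sub_eq (fun k => lam k = s) (fun k => (σ g)ᴴ i k * σ g k j) fun k hk => by
        rw [hzero g k j (fun h0 => hk (h0.trans j.2)), mul_zero]]
      rw [← Matrix.mul_apply, hσu]
      simp only [Matrix.one_apply, Subtype.ext_iff]
  have hfin : (fun g => (H * ρ g).trace) = ∑ s ∈ Finset.univ.image lam, ((s : ℝ) : ℂ) •
      (fun g => ((σ g).submatrix (Subtype.val : {i // lam i = s} → ι)
        Subtype.val).trace) := by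
    funext g
    rw [Finset.sum_apply]
    simp only [Pi.smul_apply, smul_eq_mul]
    have h1 : (H * ρ g).trace = ∑ i, ((lam i : ℝ) : ℂ) * σ g i i := by
      have h2 : (H * ρ g).trace = (Dg * σ g).trace := by
        rw [hspec]
        simp only [hσ]
        rw [show (U : Matrix ι ι ℂ) * Dg * (U : Matrix ι ι ℂ)ᴴ * ρ g =
          (U : Matrix ι ι ℂ) * (Dg * (U : Matrix ι ι ℂ)ᴴ * ρ g) by noncomm_ring,
          Matrix.trace_mul_comm]
        congr 1
        noncomm_ring
      rw [h2]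
      unfold Matrix.trace
      simp only [Matrix.diag_apply, hDg, Matrix.diagonal_mul]
    rw [h1, ← Finset.sum_fiberwise_of_maps_to (t := Finset.univ.image lam) (g := lam)
      (fun i _ => Finset.mem_image_of_mem _ (Finset.mem_univ i))]
    refine Finset.sum_congr rfl fun s _ => ?_
    unfold Matrix.trace
    simp only [Matrix.diag_apply, Matrix.submatrix_apply]
    rw [Finset.mul_sum, ← Finset.sum_subtype (p := fun i => lam i = s)
      (Finset.univ.filter fun i => lam i = s) (by simp) (fun i => ((s : ℝ) : ℂ) * σ g i i)]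
    refine Finset.sum_congr rfl fun i hi => ?_
    rw [(Finset.mem_filter.1 hi).2]
  rw [hfin]
  exact Submodule.sum_mem _ fun s _ => Submodule.smul_mem _ _ (Submodule.subset_span (hblock s))

theorem unit_right (ρ : G →* Matrix ι ι ℂ) (hu : ∀ g, (ρ g)ᴴ * ρ g = 1) (g : G) :
    (ρ g)ᴴ = ρ g⁻¹ := by
  have h1 : ρ g * ρ g⁻¹ = 1 := by rw [← map_mul, mul_inv_cancel, map_one]
  calc (ρ g)ᴴ = (ρ g)ᴴ * (ρ g * ρ g⁻¹) := by rw [h1, mul_one]
    _ = ((ρ g)ᴴ * ρ g) * ρ g⁻¹ := by rw [mul_assoc]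
    _ = _ := by rw [hu, one_mul]

theorem comm (ρ : G →* Matrix ι ι ℂ) (hρ : Continuous ρ) (hu : ∀ g, (ρ g)ᴴ * ρ g = 1)
    (C : Matrix ι ι ℂ) (hc : ∀ g, C * ρ g = ρ g * C) :
    (fun g => (C * ρ g).trace) ∈ CS G := by
  have hc' : ∀ g, Cᴴ * ρ g = ρ g * Cᴴ := by
    intro g
    have h1 := congrArg Matrix.conjTranspose (hc g⁻¹)
    rw [Matrix.conjTranspose_mul, Matrix.conjTranspose_mul, unit_right ρ hu, inv_inv] at h1
    exact h1.symm
  have h1 := herm ρ hρ hu (C + Cᴴ) (by
    unfold Matrix.IsHermitian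
    rw [Matrix.conjTranspose_add, Matrix.conjTranspose_conjTranspose, add_comm])
    (fun g => by rw [add_mul, mul_add, hc, hc'])
  have h2 := herm ρ hρ hu (Complex.I • (C - Cᴴ)) (by
    unfold Matrix.IsHermitian
    rw [Matrix.conjTranspose_smul, Matrix.conjTranspose_sub, Matrix.conjTranspose_conjTranspose]
    simp only [Complex.star_def, Complex.conj_I]
    rw [neg_smul, ← smul_neg, neg_sub])
    (fun g => by rw [smul_mul_assoc, mul_smul_comm, sub_mul, mul_sub, hc, hc'])
  have h3 : (fun g => (C * ρ g).trace) = (1 / 2 : ℂ) • (fun g => ((C + Cᴴ) * ρ g).trace) +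
      (-Complex.I / 2) • fun g => ((Complex.I • (C - Cᴴ)) * ρ g).trace := by
    funext g
    simp only [Pi.add_apply, Pi.smul_apply, smul_eq_mul, add_mul, sub_mul, smul_mul_assoc,
      Matrix.trace_add, Matrix.trace_sub, Matrix.trace_smul]
    linear_combination (1 / 2 * ((C * ρ g).trace - (Cᴴ * ρ g).trace)) * Complex.I_mul_I
  rw [h3]
  exact Submodule.add_mem _ (Submodule.smul_mem _ _ h1) (Submodule.smul_mem _ _ h2)

end

/-! ### Averages -/

variable [IsTopologicalGroup G] [CompactSpace G] [T2Space G] [MeasurableSpace G] [BorelSpace G]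
  (μ : Measure G) [IsProbabilityMeasure μ] [μ.IsMulLeftInvariant]

omit [T2Space G] [IsTopologicalGroup G] [μ.IsMulLeftInvariant] in
theorem int_cont {f : G → ℂ} (hf : Continuous f) : Integrable f μ :=
  hf.integrable_of_hasCompactSupport (HasCompactSupport.of_compactSpace f)

include μ in
/-- Every continuous class function is a uniform limit of combinations of characters. -/
theorem class_dense {f : G → ℂ} (hf : Continuous f) (hcl : ∀ x g, f (g⁻¹ * x * g) = f x) {ε : ℝ}
    (hε : 0 < ε) : ∃ h ∈ CS G, Continuous h ∧ ∀ x, ‖f x - h x‖ ≤ ε := by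
  obtain ⟨h, ⟨ι, _, _, ρ, A, hρ, hu, hh⟩, hd⟩ := coAlg_dense ⟨f, hf⟩ hε
  have hρi : ∀ i j, Continuous fun g => ρ g i j := fun i j => hρ.matrix_elem i j
  have hρh : Continuous fun g => (ρ g)ᴴ := hρ.matrix_conjTranspose
  set P : G → Matrix ι ι ℂ := fun g => ρ g * A * (ρ g)ᴴ with hP
  have hPc : Continuous P := (hρ.mul continuous_const).mul hρh
  have hPi : ∀ i j, Integrable (fun g => P g i j) μ := fun i j =>
    int_cont μ (hPc.matrix_elem i j)
  set C : Matrix ι ι ℂ := fun i j => ∫ g, P g i j ∂μ with hC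
  have hleft : ∀ (y : G) (i j : ι), (ρ y * C) i j = ∫ g, (ρ y * P g) i j ∂μ := by
    intro y i j
    simp only [Matrix.mul_apply, hC]
    rw [integral_finset_sum _ fun k _ => (hPi k j).const_mul _]
    refine Finset.sum_congr rfl fun k _ => ?_
    rw [integral_const_mul]
  have hright : ∀ (y : G) (i j : ι), (C * ρ y) i j = ∫ g, (P g * ρ y) i j ∂μ := by
    intro y i j
    simp only [Matrix.mul_apply, hC]
    rw [integral_finset_sum _ fun k _ => (hPi i k).mul_const _]
    refine Finset.sum_congr rfl fun k _ => ?_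
    rw [integral_mul_const]
  have hcomm : ∀ y, C * ρ y = ρ y * C := by
    intro y
    ext i j
    rw [hleft, hright, ← integral_mul_left_eq_self (fun g => (P g * ρ y) i j) y]
    refine integral_congr_ae (Eventually.of_forall fun g => ?_)
    simp only [hP]
    have e1 : ρ (y * g) * A * (ρ (y * g))ᴴ * ρ y = ρ y * (ρ g * A * (ρ g)ᴴ) := by
      rw [map_mul, Matrix.conjTranspose_mul]
      calc ρ y * ρ g * A * ((ρ g)ᴴ * (ρ y)ᴴ) * ρ y
          = ρ y * (ρ g * A * (ρ g)ᴴ) * ((ρ y)ᴴ * ρ y) := by noncomm_ring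
        _ = _ := by rw [hu, mul_one]
    rw [e1]
  refine ⟨fun x => (C * ρ x).trace, comm ρ hρ hu C hcomm,
    (continuous_const.mul hρ).matrix_trace, fun x => ?_⟩
  have hint : (C * ρ x).trace = ∫ g, h (g⁻¹ * x * g) ∂μ := by
    have e1 : (C * ρ x).trace = ∫ g, (P g * ρ x).trace ∂μ := by
      unfold Matrix.trace
      simp only [Matrix.diag_apply, hright]
      rw [integral_finset_sum]
      intro i _
      exact int_cont μ ((hPc.mul continuous_const).matrix_elem i i)
    rw [e1]
    refine integral_congr_ae (Eventually.of_forall fun g => ?_)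
    simp only [hP]
    have e2 : h (g⁻¹ * x * g) = (A * ρ (g⁻¹ * x * g)).trace := hh _
    rw [e2, map_mul, map_mul, ← unit_right ρ hu]
    rw [show ρ g * A * (ρ g)ᴴ * ρ x = ρ g * (A * (ρ g)ᴴ * ρ x) by noncomm_ring,
      Matrix.trace_mul_comm]
    congr 1
    noncomm_ring
  have hconj : Continuous fun g : G => g⁻¹ * x * g := by fun_prop
  have hf' : f x = ∫ g, f (g⁻¹ * x * g) ∂μ := by
    simp only [hcl]
    simp
  show ‖f x - (C * ρ x).trace‖ ≤ ε
  have i1 : Integrable (fun g => f (g⁻¹ * x * g)) μ := int_cont μ (hf.comp hconj)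
  have i2 : Integrable (fun g => h (g⁻¹ * x * g)) μ := int_cont μ (h.continuous.comp hconj)
  rw [hint, hf', ← integral_sub i1 i2]
  refine (norm_integral_le_of_norm_le_const (C := ε) (Eventually.of_forall fun g =>
    (hd _).le)).trans ?_
  simp

/-- Convergence of averages on characters and on class functions. -/
theorem weyl (A : ℕ → (G → ℂ) → ℂ) (hadd : ∀ n f g, A n (f + g) = A n f + A n g)
    (hsmul : ∀ n (c : ℂ) f, A n (c • f) = c * A n f) (hb : ∀ n f (B : ℝ), 0 ≤ B →
      (∀ x, ‖f x‖ ≤ B) → ‖A n f‖ ≤ B)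
    (h : ∀ f, Ct f → Tendsto (fun n => A n f) atTop (𝓝 (∫ g, f g ∂μ))) {f : G → ℂ}
    (hf : Continuous f) (hcl : ∀ x g, f (g⁻¹ * x * g) = f x) :
    Tendsto (fun n => A n f) atTop (𝓝 (∫ g, f g ∂μ)) := by
  have hCt : ∀ f : G → ℂ, Ct f → Continuous f := by
    rintro f ⟨n, ρ, hρ, hfρ⟩
    have : f = fun g => (ρ g : Matrix (Fin n) (Fin n) ℂ).trace := funext hfρ
    rw [this]
    exact (continuous_subtype_val.comp hρ).matrix_trace
  have hspan : ∀ f ∈ CS G, Continuous f ∧
      Tendsto (fun n => A n f) atTop (𝓝 (∫ g, f g ∂μ)) := by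
    intro f hf
    induction hf using Submodule.span_induction with
    | mem f hf => exact ⟨hCt f hf, h f hf⟩
    | zero =>
      refine ⟨continuous_const, ?_⟩
      have h0 : ∀ n, A n 0 = 0 := by
        intro n
        have := hsmul n 0 0
        rwa [zero_smul, zero_mul] at this
      simp only [h0]
      simp
    | add f g _ _ hf hg =>
      refine ⟨hf.1.add hg.1, ?_⟩
      simp only [hadd]
      have := hf.2.add hg.2
      rwa [← integral_add (int_cont μ hf.1) (int_cont μ hg.1)] at this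
    | smul c f _ hf =>
      refine ⟨hf.1.const_smul c, ?_⟩
      simp only [hsmul]
      have := hf.2.const_mul c
      rwa [← integral_const_mul] at this
  rw [Metric.tendsto_nhds]
  intro ε hε
  obtain ⟨k, hk, hkc, hd⟩ := class_dense μ hf hcl (show 0 < ε / 4 by linarith)
  have h1 := (Metric.tendsto_nhds.1 (hspan k hk).2) (ε / 4) (by linarith)
  filter_upwards [h1] with n hn
  rw [dist_eq_norm] at hn ⊢
  have e1 : A n f - A n k = A n (f - k) := by
    rw [sub_eq_add_neg, sub_eq_add_neg, hadd, show -k = (-1 : ℂ) • k by simp, hsmul]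
    ring
  have e2 : ‖A n f - A n k‖ ≤ ε / 4 := by
    rw [e1]
    exact hb n _ _ (by linarith) hd
  have e3 : ‖∫ g, k g ∂μ - ∫ g, f g ∂μ‖ ≤ ε / 4 := by
    rw [norm_sub_rev, ← integral_sub (int_cont μ hf) (int_cont μ hkc)]
    refine (norm_integral_le_of_norm_le_const (C := ε / 4) (Eventually.of_forall hd)).trans ?_
    simp
  have e4 : A n f - ∫ g, f g ∂μ = (A n f - A n k) + (A n k - ∫ g, k g ∂μ) +
      (∫ g, k g ∂μ - ∫ g, f g ∂μ) := by ring
  rw [e4]
  refine (norm_add₃_le).trans_lt ?_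
  linarith

end Pool.Agent.Q255.SG.CG
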