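import Pool.Agent.Q255.SG.LA
import Pool.Agent.Q255.SG.CG

/-! # Classes in a compact group attached to the primes of a number field -/

set_option autoImplicit false

namespace Pool.Agent.Q255.SG.GK

open NumberField IsDedekindDomain Pool.Agent.H921R2.TatePole MeasureTheory Filter Topology
  Pool.Agent.Q255.SG
open scoped ComplexOrder

section
variable {F : Type} [Field F] [NumberField F]

/-- the primes outside `S` of norm at most `x` -/
noncomputable def GF (S : Set (HeightOneSpectrum (𝓞 F))) (x : ℕ) :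
    Finset (HeightOneSpectrum (𝓞 F)) := by
  classical
  exact (VF F (x + 1)).filter (fun v => v ∉ S)

theorem mem_GF {S : Set (HeightOneSpectrum (𝓞 F))} {x : ℕ} {v : HeightOneSpectrum (𝓞 F)} :
    v ∈ GF S x ↔ nm v ≤ x ∧ v ∉ S := by
  classical
  unfold GF
  rw [Finset.mem_filter, mem_VF, Nat.lt_succ_iff]

/-- the mean over the primes outside `S` of norm at most `x` -/
noncomputable def gmean (S : Set (HeightOneSpectrum (𝓞 F))) (f : HeightOneSpectrum (𝓞 F) → ℂ)
    (x : ℕ) : ℂ := (∑ v ∈ GF S x, f v) / ((GF S x).card : ℂ)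

open Classical in
/-- extension by zero -/
noncomputable def ext0 (S : Set (HeightOneSpectrum (𝓞 F))) (f : HeightOneSpectrum (𝓞 F) → ℂ)
    (v : HeightOneSpectrum (𝓞 F)) : ℂ := if v ∈ S then 0 else f v

theorem sum_ext0 (S : Set (HeightOneSpectrum (𝓞 F))) (f : HeightOneSpectrum (𝓞 F) → ℂ) (x : ℕ) :
    ∑ v ∈ VF F (x + 1), ext0 S f v = ∑ v ∈ GF S x, f v := by
  classical
  unfold GF ext0
  rw [Finset.sum_filter]
  refine Finset.sum_congr rfl fun v _ => ?_
  by_cases h : v ∈ S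
  · rw [if_pos h, if_neg (not_not.2 h)]
  · rw [if_neg h, if_pos h]

theorem card_VF_tendsto : Tendsto (fun x : ℕ => ((VF F x).card : ℝ)) atTop atTop := by
  have h1 : Tendsto (fun x : ℕ => ((VF F x).card : ℝ) / ((Nat.primesBelow x).card : ℝ)) atTop
      (𝓝 1) := by
    have h2 := (Complex.continuous_re.tendsto _).comp (card_ratio (K := F))
    rw [Complex.one_re] at h2
    refine h2.congr fun x => ?_
    simp only [Function.comp]
    rw [← Complex.ofReal_natCast, ← Complex.ofReal_natCast, ← Complex.ofReal_div,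
      Complex.ofReal_re]
  have h2 : Tendsto (fun x : ℕ => ((Nat.primesBelow x).card : ℝ)) atTop atTop := by
    have h3 : Tendsto (fun x : ℕ => (Nat.primesBelow x).card) atTop atTop := by
      have h4 : (fun x : ℕ => (Nat.primesBelow x).card) = Nat.primeCounting' := by
        funext x
        rw [Nat.primesBelow, Nat.primeCounting', Nat.count_eq_card_filter_range]
      rw [h4]
      exact Nat.tendsto_primeCounting'
    exact tendsto_natCast_atTop_atTop.comp h3
  have h3 := h1.pos_mul_atTop one_pos h2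
  refine h3.congr' ?_
  filter_upwards [eventually_ge_atTop 3] with x hx
  have hc : ((Nat.primesBelow x).card : ℝ) ≠ 0 := by exact_mod_cast (card_pos_pb hx).ne'
  field_simp

theorem card_ratio' {S : Set (HeightOneSpectrum (𝓞 F))} (hS : S.Finite) :
    Tendsto (fun x : ℕ => ((VF F (x + 1)).card : ℂ) / ((GF S x).card : ℂ)) atTop (𝓝 1) := by
  classical
  have h0 : Tendsto (fun x : ℕ => ((VF F (x + 1)).card : ℝ)) atTop atTop :=
    card_VF_tendsto.comp (tendsto_add_atTop_nat 1)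
  have hle : ∀ x, (GF S x).card ≤ (VF F (x + 1)).card := fun x => by
    unfold GF
    exact Finset.card_filter_le _ _
  have hge : ∀ x, (VF F (x + 1)).card ≤ (GF S x).card + hS.toFinset.card := by
    intro x
    have h1 := Finset.card_filter_add_card_filter_not (s := VF F (x + 1)) (fun v => v ∉ S)
    have h2 : ((VF F (x + 1)).filter (fun v => ¬ v ∉ S)).card ≤ hS.toFinset.card := by
      refine Finset.card_le_card fun v hv => ?_
      rw [Finset.mem_filter, not_not] at hv
      simpa using hv.2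
    unfold GF
    omega
  have h1 : Tendsto (fun x : ℕ => ((GF S x).card : ℝ) / ((VF F (x + 1)).card : ℝ)) atTop
      (𝓝 1) := by
    have h2 : Tendsto (fun x : ℕ => 1 - (hS.toFinset.card : ℝ) / ((VF F (x + 1)).card : ℝ)) atTop
        (𝓝 1) := by
      have := (tendsto_const_nhds (x := (hS.toFinset.card : ℝ))).div_atTop h0
      simpa using this.const_sub 1
    refine tendsto_of_tendsto_of_tendsto_of_le_of_le' h2 tendsto_const_nhds ?_ ?_
    · filter_upwards [h0.eventually_gt_atTop 0] with x hx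
      rw [le_div_iff₀ hx, sub_mul, one_mul, div_mul_cancel₀ _ hx.ne']
      have := hge x
      have h3 : ((VF F (x + 1)).card : ℝ) ≤ (GF S x).card + hS.toFinset.card := by
        exact_mod_cast this
      linarith
    · filter_upwards [h0.eventually_gt_atTop 0] with x hx
      rw [div_le_one hx]
      exact_mod_cast hle x
  have h2 := (Complex.continuous_ofReal.tendsto _).comp (h1.inv₀ one_ne_zero)
  rw [inv_one, Complex.ofReal_one] at h2
  refine h2.congr fun x => ?_
  simp only [Function.comp]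
  push_cast
  rw [inv_div]

theorem gmean_sub {S : Set (HeightOneSpectrum (𝓞 F))} (hS : S.Finite)
    {f : HeightOneSpectrum (𝓞 F) → ℂ} {B : ℝ} (hB : 0 ≤ B) (hf : ∀ v, ‖f v‖ ≤ B) :
    Tendsto (fun x : ℕ => gmean S f x - kav (ext0 S f) (x + 1)) atTop (𝓝 0) := by
  classical
  have h1 := card_ratio' hS
  have hz : ∀ v, ‖ext0 S f v‖ ≤ B := by
    intro v
    unfold ext0
    split_ifs
    · rw [norm_zero]
      exact hB
    · exact hf v
  have hk : ∀ x, ‖kav (ext0 S f) x‖ ≤ B := by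
    intro x
    unfold kav
    rw [norm_div, Complex.norm_natCast]
    rcases Nat.eq_zero_or_pos (VF F x).card with h | h
    · rw [h]
      simp [hB]
    · rw [div_le_iff₀ (by exact_mod_cast h)]
      refine (norm_sum_le_of_le (n := fun _ => B) _ fun v _ => hz v).trans ?_
      rw [Finset.sum_const, nsmul_eq_mul, mul_comm]
  rw [tendsto_zero_iff_norm_tendsto_zero]
  have h2 : Tendsto (fun x : ℕ => ‖((VF F (x + 1)).card : ℂ) / ((GF S x).card : ℂ) - 1‖ * B)
      atTop (𝓝 0) := by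
    simpa using ((h1.sub_const 1).norm).mul_const B
  have h0 : Tendsto (fun x : ℕ => ((VF F (x + 1)).card : ℝ)) atTop atTop :=
    card_VF_tendsto.comp (tendsto_add_atTop_nat 1)
  refine squeeze_zero' (Eventually.of_forall fun x => norm_nonneg _) ?_ h2
  filter_upwards [h0.eventually_gt_atTop 0] with x hx
  have hx' : ((VF F (x + 1)).card : ℂ) ≠ 0 := by
    exact_mod_cast hx.ne'
  have e1 : gmean S f x - kav (ext0 S f) (x + 1) =
      (((VF F (x + 1)).card : ℂ) / ((GF S x).card : ℂ) - 1) * kav (ext0 S f) (x + 1) := by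
    unfold gmean kav
    rw [sum_ext0]
    field_simp
  rw [e1, norm_mul]
  exact mul_le_mul_of_nonneg_left (hk _) (norm_nonneg _)

theorem gmean_iff {S : Set (HeightOneSpectrum (𝓞 F))} (hS : S.Finite)
    {f : HeightOneSpectrum (𝓞 F) → ℂ} {B : ℝ} (hB : 0 ≤ B) (hf : ∀ v, ‖f v‖ ≤ B) {ρ : ℂ} :
    Tendsto (gmean S f) atTop (𝓝 ρ) ↔ Tendsto (kav (ext0 S f)) atTop (𝓝 ρ) := by
  have h := gmean_sub hS hB hf
  rw [← tendsto_add_atTop_iff_nat (f := kav (ext0 S f)) 1]
  constructor
  · intro h1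
    have := h1.sub h
    rw [sub_zero] at this
    refine this.congr fun x => ?_
    ring
  · intro h1
    have := h1.add h
    rw [add_zero] at this
    refine this.congr fun x => ?_
    ring

end

/-! ### Representations -/

variable {G : Type} [Group G] {F : Type} [Field F] [NumberField F] {n : ℕ}

/-- the eigenvalues -/
theorem exists_roots {m : ℕ} (M : Matrix (Fin m) (Fin m) ℂ) : ∃ α : Fin m → ℂ,
    (∀ j, α j ∈ spectrum ℂ M) ∧ (∀ z : ℂ, (1 - z • M).det = ∏ j, (1 - α j * z)) ∧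
    M.trace = ∑ j, α j := by
  have hs : M.charpoly.Splits := IsAlgClosed.splits _
  have hc : M.charpoly.roots.card = m := by
    rw [← hs.natDegree_eq_card_roots, Matrix.charpoly_natDegree_eq_dim, Fintype.card_fin]
  obtain ⟨l, hl⟩ : ∃ l : List ℂ, (l : Multiset ℂ) = M.charpoly.roots :=
    ⟨M.charpoly.roots.toList, Multiset.coe_toList _⟩
  have hlm : l.length = m := by
    rw [← Multiset.coe_card, hl, hc]
  subst hlm
  refine ⟨fun j => l.get j, fun j => ?_, fun z => ?_, ?_⟩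
  · rw [Matrix.mem_spectrum_iff_isRoot_charpoly]
    have h1 : l.get j ∈ M.charpoly.roots := by
      rw [← hl]
      exact List.get_mem l j
    exact (Polynomial.mem_roots'.1 h1).2
  · have hp : M.charpoly = (M.charpoly.roots.map fun a => Polynomial.X - Polynomial.C a).prod :=
      hs.eq_prod_roots_of_monic (Matrix.charpoly_monic M)
    have h2 : ∀ x : ℂ, M.charpoly.eval x = ∏ j, (x - l.get j) := by
      intro x
      rw [hp, ← hl, Multiset.map_coe, Multiset.prod_coe, Polynomial.eval_list_prod, List.map_map]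
      have : (List.map ((Polynomial.eval x) ∘ fun a => Polynomial.X - Polynomial.C a) l) =
          List.map (fun a => x - a) l := by
        refine List.map_congr_left fun a _ => ?_
        simp
      rw [this, ← List.prod_ofFn]
      congr 1
      exact (List.ofFn_getElem_eq_map l (fun a => x - a)).symm
    rcases eq_or_ne z 0 with hz | hz
    · subst hz
      simp
    · have h3 : (1 - z • M) = z • (Matrix.scalar (Fin l.length) z⁻¹ - M) := by
        have e1 : (Matrix.scalar (Fin l.length) z⁻¹ : Matrix (Fin l.length) (Fin l.length) ℂ) =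
            z⁻¹ • 1 := by
          rw [Matrix.scalar_apply, Matrix.smul_one_eq_diagonal]
        rw [e1, smul_sub, smul_smul, mul_inv_cancel₀ hz, one_smul]
      rw [h3, Matrix.det_smul, Fintype.card_fin, ← Matrix.eval_charpoly, h2, ← Fin.prod_const,
        ← Finset.prod_mul_distrib]
      refine Finset.prod_congr rfl fun j _ => ?_
      field_simp
  · rw [Matrix.trace_eq_sum_roots_charpoly, ← hl, Multiset.sum_coe, ← List.sum_ofFn]
    congr 1
    exact List.ofFn_getElem.symm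

/-- the eigenvalues of a unitary matrix -/
theorem norm_spec (U : Matrix.unitaryGroup (Fin n) ℂ) {z : ℂ}
    (hz : z ∈ spectrum ℂ (U : Matrix (Fin n) (Fin n) ℂ)) : ‖z‖ = 1 := by
  rw [Matrix.mem_spectrum_iff_isRoot_charpoly] at hz
  have h1 : Module.End.HasEigenvalue (Matrix.toLin' (U : Matrix (Fin n) (Fin n) ℂ)) z := by
    rw [Module.End.hasEigenvalue_iff_isRoot_charpoly, Matrix.charpoly_toLin']
    exact hz
  obtain ⟨v, hv⟩ := h1.exists_hasEigenvector
  have h2 : (U : Matrix (Fin n) (Fin n) ℂ).mulVec v = z • v := by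
    have := hv.apply_eq_smul
    rwa [Matrix.toLin'_apply] at this
  have hv0 : v ≠ 0 := hv.2
  have h3 : star ((U : Matrix (Fin n) (Fin n) ℂ).mulVec v) ⬝ᵥ
      ((U : Matrix (Fin n) (Fin n) ℂ).mulVec v) = star v ⬝ᵥ v := by
    rw [Matrix.star_mulVec, ← Matrix.dotProduct_mulVec, Matrix.mulVec_mulVec,
      ← Matrix.star_eq_conjTranspose, Matrix.mem_unitaryGroup_iff'.1 U.2, Matrix.one_mulVec]
  rw [h2, star_smul, smul_dotProduct, dotProduct_smul, smul_eq_mul, smul_eq_mul, ← mul_assoc] at h3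
  have h4 : star v ⬝ᵥ v ≠ 0 := by
    rw [Ne, dotProduct_star_self_eq_zero]
    exact hv0
  have h5 : star z * z = 1 := mul_right_cancel₀ h4 (by rw [h3, one_mul])
  have h6 : ‖z‖ * ‖z‖ = 1 := by
    have := congrArg norm h5
    rwa [norm_mul, norm_star, norm_one] at this
  nlinarith [norm_nonneg z]

open Classical in
/-- `∏_{v ∉ S} det(1 - M_v Nv^{-s})⁻¹` -/
noncomputable def LM (S : Set (HeightOneSpectrum (𝓞 F)))
    (M : HeightOneSpectrum (𝓞 F) → Matrix (Fin n) (Fin n) ℂ) (s : ℂ) : ℂ :=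
  ∏' v : HeightOneSpectrum (𝓞 F), if v ∈ S then 1 else
    ((1 - ((Ideal.absNorm v.asIdeal : ℂ) ^ (-s)) • M v).det)⁻¹

/-- the eigenvalues for `v ∉ S`, and `0` for `v ∈ S` -/
theorem exists_alpha {S : Set (HeightOneSpectrum (𝓞 F))}
    {M : HeightOneSpectrum (𝓞 F) → Matrix (Fin n) (Fin n) ℂ} {w : ℝ}
    (h : ∀ v, v ∉ S → ∀ z ∈ spectrum ℂ (M v), ‖z‖ ≤ (nm v : ℝ) ^ (w / 2)) :
    ∃ α : HeightOneSpectrum (𝓞 F) → Fin n → ℂ, BdK w α ∧ LM S M = LK α ∧
      ntrK w α = ext0 S fun v => (((nm v : ℝ) ^ (-(w / 2)) : ℝ) : ℂ) * (M v).trace := by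
  classical
  choose β h1 h2 h3 using fun v : HeightOneSpectrum (𝓞 F) => exists_roots (M v)
  refine ⟨fun v j => if v ∈ S then 0 else β v j, fun v j => ?_, ?_, ?_⟩
  · by_cases hS : v ∈ S
    · simp only [if_pos hS, norm_zero]
      positivity
    · simp only [if_neg hS]
      exact h v hS _ (h1 v j)
  · funext s
    unfold LM LK
    refine tprod_congr fun v => ?_
    by_cases hS : v ∈ S
    · simp only [if_pos hS, zero_mul, sub_zero, Finset.prod_const_one, inv_one]
    · simp only [if_neg hS]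
      rw [h2]
      rfl
  · funext v
    unfold ntrK ext0
    by_cases hS : v ∈ S
    · simp only [if_pos hS, zero_mul, Finset.sum_const_zero]
    · simp only [if_neg hS]
      rw [← Finset.sum_mul, h3, mul_comm]

theorem norm_trace_le (U : Matrix.unitaryGroup (Fin n) ℂ) :
    ‖(U : Matrix (Fin n) (Fin n) ℂ).trace‖ ≤ n := by
  obtain ⟨α, h1, _, h3⟩ := exists_roots (U : Matrix (Fin n) (Fin n) ℂ)
  rw [h3]
  refine (norm_sum_le_of_le (n := fun _ => (1 : ℝ)) _ fun j _ => (norm_spec U (h1 j)).le).trans ?_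
  simp

variable {S : Set (HeightOneSpectrum (𝓞 F))} {U : HeightOneSpectrum (𝓞 F) →
  Matrix.unitaryGroup (Fin n) ℂ}

/-- the `L`-function of a family of unitary matrices -/
noncomputable def LU (S : Set (HeightOneSpectrum (𝓞 F)))
    (U : HeightOneSpectrum (𝓞 F) → Matrix.unitaryGroup (Fin n) ℂ) (s : ℂ) : ℂ :=
  LM S (fun v => (U v : Matrix (Fin n) (Fin n) ℂ)) s

/-- the trace -/
noncomputable def tU (U : HeightOneSpectrum (𝓞 F) → Matrix.unitaryGroup (Fin n) ℂ)
    (v : HeightOneSpectrum (𝓞 F)) : ℂ := (U v : Matrix (Fin n) (Fin n) ℂ).trace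

theorem exists_alphaU (S : Set (HeightOneSpectrum (𝓞 F)))
    (U : HeightOneSpectrum (𝓞 F) → Matrix.unitaryGroup (Fin n) ℂ) :
    ∃ α : HeightOneSpectrum (𝓞 F) → Fin n → ℂ, BdK 0 α ∧ LU S U = LK α ∧
      ntrK 0 α = ext0 S (tU U) := by
  obtain ⟨α, h1, h2, h3⟩ := exists_alpha (S := S) (w := 0)
    (M := fun v => (U v : Matrix (Fin n) (Fin n) ℂ)) (fun v _ z hz => by
      rw [norm_spec (U v) hz]
      simp)
  refine ⟨α, h1, h2, h3.trans ?_⟩
  unfold tU
  simp

theorem u_bdry (S : Set (HeightOneSpectrum (𝓞 F)))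
    (U : HeightOneSpectrum (𝓞 F) → Matrix.unitaryGroup (Fin n) ℂ) :
    ∃ l : ℝ → ℂ, AngBd 0 (LU S U) l := by
  obtain ⟨α, h1, h2, _⟩ := exists_alphaU S U
  obtain ⟨β, hβ, hA⟩ := kq h1
  have hA' : Assoc α β := hA
  rw [h2]
  exact angBd_exists hβ fun s hs => LK_eq h1 hA' s hs

theorem u_int (S : Set (HeightOneSpectrum (𝓞 F)))
    (U : HeightOneSpectrum (𝓞 F) → Matrix.unitaryGroup (Fin n) ℂ) {l : ℝ → ℂ}
    (hl : AngBd 0 (LU S U) l) {φ : ℝ → ℂ} (hφ : Tst φ) (x : ℝ) :
    Integrable (fun t => ((Real.log ‖l t‖ : ℝ) : ℂ) *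
      (φ t * Complex.exp (Complex.I * x * t))) := by
  obtain ⟨α, h1, h2, _⟩ := exists_alphaU S U
  obtain ⟨β, hβ, hA⟩ := kq h1
  have hA' : Assoc α β := hA
  rw [h2] at hl
  obtain ⟨T, hT, hLim⟩ := Lim_of_angBd hβ (fun s hs => LK_eq h1 hA' s hs) hl
  exact (II_tendsto _ hT hLim hφ x).1

theorem u_iff (hS : S.Finite) {l : ℝ → ℂ} (hl : AngBd 0 (LU S U) l) (ρ : ℂ) :
    Tendsto (gmean S (tU U)) atTop (𝓝 ρ) ↔ Edge l ρ := by
  obtain ⟨α, h1, h2, h3⟩ := exists_alphaU S U
  rw [h2] at hl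
  rw [gmean_iff (f := tU U) hS (Nat.cast_nonneg n) (fun v => norm_trace_le (U v)), ← h3,
    k_tauber h1 hl]

theorem u_window : ∃ C : ℝ, 0 < C ∧ ∀ (F : Type) [Field F] [NumberField F] (n : ℕ)
    (S : Set (HeightOneSpectrum (𝓞 F))), S.Finite →
    ∀ (U : HeightOneSpectrum (𝓞 F) → Matrix.unitaryGroup (Fin n) ℂ) (l : ℝ → ℂ),
    AngBd 0 (LU S U) l → ∀ (ρ : ℂ) (lam : ℝ), 0 < lam →
    (∀ φ : ℝ → ℂ, Tst φ → (∀ t ∈ tsupport φ, |t| < lam) →
      Tendsto (fun x : ℝ => (x : ℂ) * II l φ x) atTop (𝓝 (Real.pi * ρ * φ 0))) →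
    ∀ ε : ℝ, 0 < ε → ∀ᶠ x : ℕ in atTop,
      ‖gmean S (tU U) x - ρ‖ ≤ C * (n * Module.finrank ℚ F) / lam + ε := by
  obtain ⟨C, hC, h⟩ := k_window'
  refine ⟨C, hC, fun F _ _ n S hS U l hl ρ lam hlam hc ε hε => ?_⟩
  obtain ⟨α, h1, h2, h3⟩ := exists_alphaU S U
  rw [h2] at hl
  have h4 := (h F n 0 α h1 l hl ρ lam hlam hc (ε / 2) (by linarith)).1
  rw [h3] at h4
  have h5 := (Metric.tendsto_nhds.1 (gmean_sub (f := tU U) hS (Nat.cast_nonneg n)
    (fun v => norm_trace_le (U v)))) (ε / 2) (by linarith)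
  have h6 := (tendsto_add_atTop_nat 1).eventually h4
  filter_upwards [h5, h6] with x g1 g2
  rw [dist_zero_right] at g1
  have e1 : gmean S (tU U) x - ρ = (gmean S (tU U) x - kav (ext0 S (tU U)) (x + 1)) +
      (kav (ext0 S (tU U)) (x + 1) - ρ) := by ring
  rw [e1]
  refine (norm_add_le _ _).trans ?_
  linarith

/-! ### Groups -/

variable [TopologicalSpace G] [IsTopologicalGroup G] [CompactSpace G] [T2Space G]
  [MeasurableSpace G] [BorelSpace G] (μ : Measure G) [IsProbabilityMeasure μ]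
  [μ.IsMulLeftInvariant]

theorem g_weyl (S : Set (HeightOneSpectrum (𝓞 F))) (s : HeightOneSpectrum (𝓞 F) → G)
    (h : ∀ (n : ℕ) (τ : G →* Matrix.unitaryGroup (Fin n) ℂ), Continuous τ →
      Tendsto (gmean S fun v => (τ (s v) : Matrix (Fin n) (Fin n) ℂ).trace) atTop
        (𝓝 (∫ g, (τ g : Matrix (Fin n) (Fin n) ℂ).trace ∂μ))) {f : G → ℂ} (hf : Continuous f)
    (hcl : ∀ x g, f (g⁻¹ * x * g) = f x) :
    Tendsto (gmean S fun v => f (s v)) atTop (𝓝 (∫ g, f g ∂μ)) := by
  refine CG.weyl μ (A := fun x f => gmean S (fun v => f (s v)) x) ?_ ?_ ?_ ?_ hf hcl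
  · intro x f g
    unfold gmean
    simp only [Pi.add_apply, Finset.sum_add_distrib, add_div]
  · intro x c f
    unfold gmean
    simp only [Pi.smul_apply, smul_eq_mul, ← Finset.mul_sum, mul_div_assoc]
  · intro x f B hB hfB
    unfold gmean
    rw [norm_div, Complex.norm_natCast]
    rcases Nat.eq_zero_or_pos (GF S x).card with h0 | h0
    · rw [h0]
      simp [hB]
    · rw [div_le_iff₀ (by exact_mod_cast h0)]
      refine (norm_sum_le_of_le (n := fun _ => B) _ fun v _ => hfB _).trans ?_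
      rw [Finset.sum_const, nsmul_eq_mul, mul_comm]
  · rintro f ⟨n, τ, hτ, hfτ⟩
    have := h n τ hτ
    simp only [hfτ]
    exact this

/-- a trace is a class function -/
theorem trace_conj {n : ℕ} (τ : G →* Matrix.unitaryGroup (Fin n) ℂ) (x g : G) :
    (τ (g⁻¹ * x * g) : Matrix (Fin n) (Fin n) ℂ).trace =
      (τ x : Matrix (Fin n) (Fin n) ℂ).trace := by
  rw [map_mul, map_mul]
  have e1 : ((τ g⁻¹ * τ x * τ g : Matrix.unitaryGroup (Fin n) ℂ) : Matrix (Fin n) (Fin n) ℂ) =
      (τ g⁻¹ : Matrix (Fin n) (Fin n) ℂ) * ((τ x : Matrix (Fin n) (Fin n) ℂ) *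
        (τ g : Matrix (Fin n) (Fin n) ℂ)) := by
    rw [← mul_assoc]
    rfl
  rw [e1, Matrix.trace_mul_comm, mul_assoc]
  have e2 : (τ g : Matrix (Fin n) (Fin n) ℂ) * (τ g⁻¹ : Matrix (Fin n) (Fin n) ℂ) = 1 := by
    have : τ g * τ g⁻¹ = 1 := by rw [← map_mul, mul_inv_cancel, map_one]
    have := congrArg (fun u : Matrix.unitaryGroup (Fin n) ℂ => (u : Matrix (Fin n) (Fin n) ℂ)) this
    exact this
  rw [e2, mul_one]

end Pool.Agent.Q255.SG.GK
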