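import Pool.Agent.Q255.SG.Main

/-! # The theorems for data over the prime numbers -/

set_option autoImplicit false

namespace Pool.Agent.Q255.SG

open Finset MeasureTheory Filter Topology Pool.Agent.Q255.SA

/-- data over the prime numbers -/
structure AD (κ M : ℝ) where
  c : ℕ → ℂ
  H : ℕ → ℝ → ℂ
  hκ : 0 ≤ κ
  hM : 0 ≤ M
  hc : ∀ k, k.Prime → ‖c k‖ ≤ κ
  hc0 : ∀ k, ¬ k.Prime → c k = 0
  hcont : ∀ x, Continuous (H x)
  hb : ∀ x t, ‖H x t‖ ≤ M
  hd : ∀ x z t, 1 ≤ x → x ≤ z → ‖H z t - H x t‖ ≤ M * (x : ℝ) ^ (-(1 / 8) : ℝ)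

variable {κ M : ℝ}

/-- the logarithm of the partial product -/
noncomputable def AL (D : AD κ M) (x : ℕ) (t : ℝ) : ℂ := CS D.c 0 x t + D.H x t

/-- the partial product -/
noncomputable def AP (D : AD κ M) (x : ℕ) (t : ℝ) : ℂ := Complex.exp (AL D x t)

theorem AL_continuous (D : AD κ M) (x : ℕ) : Continuous (AL D x) :=
  (CS_continuous D.c 0 x).add (D.hcont x)

theorem AP_continuous (D : AD κ M) (x : ℕ) : Continuous (AP D x) := by
  have := AL_continuous D x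
  unfold AP
  fun_prop

theorem AP_ne (D : AD κ M) (x : ℕ) (τ : ℝ) : AP D x τ ≠ 0 := Complex.exp_ne_zero _

theorem log_AP (D : AD κ M) (x : ℕ) (τ : ℝ) : Real.log ‖AP D x τ‖ = (AL D x τ).re := by
  unfold AP
  rw [Complex.norm_exp, Real.log_exp]

theorem AP_pow (D : AD κ M) (x : ℕ) (τ r : ℝ) :
    ‖AP D x τ‖ ^ r = pv (fun k => r * D.c k) (fun y t => r * D.H y t) x τ := by
  unfold pv AP AL
  rw [Complex.norm_exp, Complex.norm_exp, ← Real.exp_mul]
  congr 1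
  have e1 : CS (fun k => (r : ℂ) * D.c k) 0 x τ = r * CS D.c 0 x τ := by
    unfold CS
    rw [Finset.mul_sum]
    refine Finset.sum_congr rfl fun k _ => ?_
    ring
  rw [e1, ← mul_add, Complex.re_ofReal_mul, mul_comm]

theorem AP_pow_continuous (D : AD κ M) (x : ℕ) (r : ℝ) : Continuous fun τ => ‖AP D x τ‖ ^ r :=
  (AP_continuous D x).norm.rpow_const fun τ => Or.inl (norm_ne_zero_iff.2 (AP_ne D x τ))

theorem ad_approx {κ M r0 : ℝ} (hκ : 0 ≤ κ) (hM : 0 ≤ M) (h0 : 0 ≤ r0)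
    (h1 : 2 * κ * r0 < 1) : ∃ C : ℝ, 0 < C ∧ ∀ (D : AD κ M) (T : Set ℝ), volume T = 0 →
    ∀ l : ℝ → ℂ, Lim (AP D) T l → ∀ r : ℝ, |r| ≤ r0 → ∀ x : ℕ, 3 ≤ x → ∀ a : ℝ,
      ∫⁻ t in Set.Icc a (a + 1), ENNReal.ofReal ((‖l t‖ ^ r - ‖AP D x t‖ ^ r) ^ 2) ≤
        ENNReal.ofReal (C * (Real.log x) ^ (-(1 - 2 * κ * r0))) := by
  obtain ⟨C, hC, hcore⟩ := core (κ := κ * r0) (M := r0 * M) (by positivity) (by linarith)
    (by positivity)
  refine ⟨C, hC, fun D T hT l hl r hr x hx a => ?_⟩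
  have hrr : ‖(r : ℂ)‖ ≤ r0 := by rwa [Complex.norm_real, Real.norm_eq_abs]
  have e2 : (1 - 2 * (κ * r0)) = 1 - 2 * κ * r0 := by ring
  have key : ∀ z, x ≤ z → ∫ t in a..(a + 1), (‖AP D z t‖ ^ r - ‖AP D x t‖ ^ r) ^ 2 ≤
      C * (Real.log x) ^ (-(1 - 2 * κ * r0)) := by
    intro z hz
    have h2 := hcore (fun k => r * D.c k) (fun k hk => by
      rw [norm_mul, mul_comm κ]
      exact mul_le_mul hrr (D.hc k hk) (norm_nonneg _) h0) (fun k hk => by
      rw [D.hc0 k hk, mul_zero]) (fun y t => r * D.H y t)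
      (fun y => continuous_const.mul (D.hcont y)) (fun y t => by
        rw [norm_mul]
        exact mul_le_mul hrr (D.hb y t) (norm_nonneg _) h0)
      (fun y z t hy hyz => by
        rw [← mul_sub, norm_mul, mul_assoc]
        exact mul_le_mul hrr (D.hd y z t (by omega) hyz) (norm_nonneg _) h0) x z a hx hz
    rw [e2] at h2
    simp_rw [← AP_pow] at h2
    exact h2
  exact fatou (f := fun z t => ‖AP D z t‖ ^ r) (fun z => AP_pow_continuous D z r) hT
    (fun t ht => (hl t ht).2.norm.rpow_const (Or.inl (norm_ne_zero_iff.2 (hl t ht).1)))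
    (AP_pow_continuous D x r) key

theorem ad_int {κ M q0 : ℝ} (hκ : 0 ≤ κ) (hM : 0 ≤ M) (h0 : 0 ≤ q0)
    (h1 : κ * q0 < 1) : ∃ C : ℝ, 0 < C ∧ ∀ (D : AD κ M) (T : Set ℝ), volume T = 0 →
    ∀ l : ℝ → ℂ, Lim (AP D) T l → ∀ q : ℝ, |q| ≤ q0 → ∀ a : ℝ,
      ∫⁻ t in Set.Icc a (a + 1), ENNReal.ofReal (‖l t‖ ^ q) ≤ ENNReal.ofReal C := by
  obtain ⟨C, hC, hcore⟩ := core_bd (κ := κ * (q0 / 2)) (M := q0 / 2 * M) (by positivity)
    (by linarith)
  refine ⟨C, hC, fun D T hT l hl q hq a => ?_⟩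
  have hq2 : |q / 2| ≤ q0 / 2 := by
    rw [abs_div, abs_two]
    linarith
  have hrr : ‖((q / 2 : ℝ) : ℂ)‖ ≤ q0 / 2 := by rwa [Complex.norm_real, Real.norm_eq_abs]
  have hsq : ∀ u : ℝ, 0 < u → (u ^ (q / 2)) ^ 2 = u ^ q := by
    intro u hu
    rw [← Real.rpow_natCast, ← Real.rpow_mul hu.le]
    congr 1
    push_cast
    ring
  have key : ∀ z, 3 ≤ z → ∫ t in a..(a + 1), (‖AP D z t‖ ^ (q / 2) - 0) ^ 2 ≤ C := by
    intro z hz
    have h2 := hcore (fun k => ((q / 2 : ℝ) : ℂ) * D.c k) (fun k hk => by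
      rw [norm_mul, mul_comm κ]
      exact mul_le_mul hrr (D.hc k hk) (norm_nonneg _) (by linarith)) (fun k hk => by
      rw [D.hc0 k hk, mul_zero]) (fun y t => ((q / 2 : ℝ) : ℂ) * D.H y t)
      (fun y => continuous_const.mul (D.hcont y)) (fun y t => by
        rw [norm_mul]
        exact mul_le_mul hrr (D.hb y t) (norm_nonneg _) (by linarith)) z a hz
    simp_rw [← AP_pow] at h2
    simp_rw [sub_zero]
    exact h2
  have h3 := fatou (f := fun z t => ‖AP D z t‖ ^ (q / 2)) (g := fun t => ‖l t‖ ^ (q / 2))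
    (h := fun _ => 0) (fun z => AP_pow_continuous D z (q / 2)) hT
    (fun t ht => (hl t ht).2.norm.rpow_const (Or.inl (norm_ne_zero_iff.2 (hl t ht).1)))
    continuous_const key
  refine le_trans (le_of_eq ?_) h3
  refine lintegral_congr_ae ?_
  filter_upwards [ae_restrict_of_ae (ae_not hT)] with t ht
  rw [sub_zero, hsq _ (norm_pos_iff.2 (hl t ht).1)]

theorem ad_log_key {κ M : ℝ} (hκ : 0 ≤ κ) (hM : 0 ≤ M) : ∃ C : ℝ, 0 < C ∧
    ∀ (D : AD κ M) (x z : ℕ), 3 ≤ x → x ≤ z → ∀ a : ℝ,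
      ∫ t in a..(a + 1), ((AL D z t).re - (AL D x t).re) ^ 2 ≤ C / Real.log x := by
  obtain ⟨C1, hC1, htail⟩ := tail_CS
  refine ⟨2 * (C1 * κ ^ 2) + 2 * (M ^ 2 * 4) + 1, by positivity, fun D x z hx hz a => ?_⟩
  have hx3 : (3 : ℝ) ≤ x := by exact_mod_cast hx
  have hx0 : (0 : ℝ) < x := by linarith
  have hlx : 0 < Real.log x := Real.log_pos (by linarith)
  have hx4 : (x : ℝ) ^ (-(1 / 4) : ℝ) ≤ 4 / Real.log x := by
    have := x_small (κ := 0) hx le_rfl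
    rw [mul_zero, sub_zero, Real.rpow_neg_one, ← div_eq_mul_inv] at this
    exact this
  have c1 := AL_continuous D z
  have c2 := AL_continuous D x
  have c3 := CS_continuous D.c x z
  have hpt : ∀ t : ℝ, ((AL D z t).re - (AL D x t).re) ^ 2 ≤
      2 * ‖CS D.c x z t‖ ^ 2 + 2 * (M ^ 2 * (x : ℝ) ^ (-(1 / 4) : ℝ)) := by
    intro t
    have e1 : AL D z t - AL D x t = CS D.c x z t + (D.H z t - D.H x t) := by
      unfold AL
      rw [← CS_add D.c t (Nat.zero_le x) hz]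
      ring
    have h3 := D.hd x z t (by omega) hz
    have h4 : |(AL D z t).re - (AL D x t).re| ≤ ‖CS D.c x z t‖ +
        M * (x : ℝ) ^ (-(1 / 8) : ℝ) := by
      rw [← Complex.sub_re]
      refine (Complex.abs_re_le_norm _).trans ?_
      rw [e1]
      exact (norm_add_le _ _).trans (add_le_add le_rfl h3)
    have h5 : (M * (x : ℝ) ^ (-(1 / 8) : ℝ)) ^ 2 = M ^ 2 * (x : ℝ) ^ (-(1 / 4) : ℝ) := by
      rw [mul_pow, ← Real.rpow_natCast ((x : ℝ) ^ (-(1 / 8) : ℝ)), ← Real.rpow_mul hx0.le]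
      congr 2
      norm_num
    rw [← h5, ← sq_abs]
    have h6 := pow_le_pow_left₀ (abs_nonneg _) h4 2
    nlinarith [sq_nonneg (‖CS D.c x z t‖ - M * (x : ℝ) ^ (-(1 / 8) : ℝ))]
  have h2 : ∫ t in a..(a + 1), ((AL D z t).re - (AL D x t).re) ^ 2 ≤
      ∫ t in a..(a + 1), (2 * ‖CS D.c x z t‖ ^ 2 +
        2 * (M ^ 2 * (x : ℝ) ^ (-(1 / 4) : ℝ))) := by
    refine intervalIntegral.integral_mono_on (by linarith) ?_ ?_ fun t _ => hpt t
    · apply Continuous.intervalIntegrable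
      have h7 := Complex.continuous_re.comp c1
      have h8 := Complex.continuous_re.comp c2
      exact (h7.sub h8).pow 2
    · apply Continuous.intervalIntegrable
      fun_prop
  refine h2.trans ?_
  rw [intervalIntegral.integral_add (by apply Continuous.intervalIntegrable; fun_prop)
    (by apply Continuous.intervalIntegrable; fun_prop), intervalIntegral.integral_const_mul,
    intervalIntegral.integral_const]
  have h3 := htail κ D.c hκ D.hc D.hc0 x z a hx hz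
  have e3 : a + 1 - a = 1 := by ring
  rw [e3, one_smul]
  have h4 : M ^ 2 * (x : ℝ) ^ (-(1 / 4) : ℝ) ≤ M ^ 2 * (4 / Real.log x) := by gcongr
  have h5 : (2 * (C1 * κ ^ 2) + 2 * (M ^ 2 * 4) + 1) / Real.log x =
      2 * (C1 * κ ^ 2 / Real.log x) + 2 * (M ^ 2 * (4 / Real.log x)) + 1 / Real.log x := by
    ring
  have h6 : 0 < 1 / Real.log x := by positivity
  rw [h5]
  linarith

theorem ad_log {κ M : ℝ} (hκ : 0 ≤ κ) (hM : 0 ≤ M) : ∃ C : ℝ, 0 < C ∧
    ∀ (D : AD κ M) (T : Set ℝ), volume T = 0 → ∀ l : ℝ → ℂ, Lim (AP D) T l →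
    ∀ x : ℕ, 3 ≤ x → ∀ a : ℝ,
      ∫⁻ t in Set.Icc a (a + 1), ENNReal.ofReal ((Real.log ‖l t‖ - Real.log ‖AP D x t‖) ^ 2) ≤
        ENNReal.ofReal (C / Real.log x) := by
  obtain ⟨C, hC, h⟩ := ad_log_key hκ hM
  refine ⟨C, hC, fun D T hT l hl x hx a => ?_⟩
  have h9 := fatou (f := fun z t => (AL D z t).re) (g := fun t => Real.log ‖l t‖)
    (h := fun t => (AL D x t).re) (fun z => Complex.continuous_re.comp (AL_continuous D z)) hT
    (fun t ht => by
      have h7 := ((hl t ht).2.norm.log (norm_ne_zero_iff.2 (hl t ht).1))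
      simp_rw [log_AP] at h7
      exact h7) (Complex.continuous_re.comp (AL_continuous D x)) (fun z hz => h D x z hx hz a)
  simp_rw [log_AP]
  exact h9

end Pool.Agent.Q255.SG
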