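import Pool.Agent.Q255.SG.MC4
import Mathlib.NumberTheory.LSeries.RiemannZeta
import Mathlib.NumberTheory.LSeries.Nonvanishing

/-! # Bessel's inequality for the orders on the edge -/

set_option autoImplicit false

namespace Pool.Agent.Q255.SG

open Finset MeasureTheory Filter Topology Pool.Agent.Q255.SA Pool.Agent.TH109.CG ProbabilityTheory

/-- the exponential `n^{-(1+h+it)}` -/
noncomputable def zt (h t : ℝ) (n : ℕ) : ℂ := (n : ℂ) ^ (-(((1 + h : ℝ) : ℂ) + (t : ℂ) * Complex.I))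

theorem norm_zt (h t : ℝ) {n : ℕ} (hn : 0 < n) : ‖zt h t n‖ = (n : ℝ) ^ (-(1 + h)) := by
  unfold zt
  rw [Complex.norm_natCast_cpow_of_pos hn]
  simp

theorem zt_sum {h : ℝ} (hh : 0 < h) : Summable fun n : ℕ => (n : ℝ) ^ (-(1 + h)) :=
  Real.summable_nat_rpow.2 (by linarith)

/-- the sum over the primes -/
noncomputable def PZ (h t : ℝ) : ℂ := ∑' n : ℕ, if n.Prime then zt h t n else 0

theorem PZ_summable {h : ℝ} (hh : 0 < h) (t : ℝ) {b : ℕ → ℂ} {B : ℝ} (hb : ∀ n, ‖b n‖ ≤ B)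
    (hb0 : ∀ n : ℕ, ¬ n.Prime → b n = 0) : Summable fun n : ℕ => b n * zt h t n := by
  have hB : 0 ≤ B := (norm_nonneg _).trans (hb 0)
  refine Summable.of_norm_bounded ((zt_sum hh).mul_left B) fun n => ?_
  by_cases hn : n.Prime
  · rw [norm_mul, norm_zt h t hn.pos]
    gcongr
    exact hb n
  · rw [hb0 n hn, zero_mul, norm_zero]
    positivity

theorem zeta_eq {s : ℂ} (hs : 1 < s.re) : LF (fun (_ : ℕ) (_ : Fin 1) => (1 : ℂ)) 0 s = riemannZeta s := by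
  rw [← riemannZeta_eulerProduct_tprod hs]
  unfold LF tw
  refine tprod_congr fun p => ?_
  simp

theorem Bd_one : Bd 0 (fun (_ : ℕ) (_ : Fin 1) => (1 : ℂ)) := by
  intro p hp j
  simp

theorem SS_one (h t : ℝ) : SS (fun (_ : ℕ) (_ : Fin 1) => (1 : ℂ)) (sh 0 h t) 0 = PZ h t := by
  unfold SS PZ
  refine tsum_congr fun n => ?_
  unfold av zt sh
  split_ifs with hn
  · simp
  · simp

theorem PZ_log {h : ℝ} (hh : 0 < h) (t : ℝ) :
    |Real.log ‖riemannZeta (((1 + h : ℝ) : ℂ) + (t : ℂ) * Complex.I)‖ - (PZ h t).re| ≤ CR 1 := by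
  have h1 := (log_LF (w := 0) Bd_one 0 (s := sh 0 h t) (by rw [sh_re]; linarith)).2
  have e1 : sh 0 h t = ((1 + h : ℝ) : ℂ) + (t : ℂ) * Complex.I := by
    unfold sh
    norm_num
  rw [SS_one, zeta_eq (by rw [sh_re]; linarith), e1] at h1
  exact h1

theorem PZ_zero : ∃ C : ℝ, ∃ δ : ℝ, 0 < δ ∧ ∀ h : ℝ, 0 < h → h < δ →
    |(PZ h 0).re - Real.log (1 / h)| ≤ C := by
  have h1 : Tendsto (fun h : ℝ => ‖(h : ℂ) * riemannZeta ((1 + h : ℝ) : ℂ)‖) (𝓝[>] 0) (𝓝 1) := by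
    have h2 := riemannZeta_residue_one
    have h3 : Tendsto (fun h : ℝ => ((1 + h : ℝ) : ℂ)) (𝓝[>] 0) (𝓝[≠] 1) := by
      refine tendsto_nhdsWithin_iff.2 ⟨?_, ?_⟩
      · have : Continuous fun h : ℝ => ((1 + h : ℝ) : ℂ) := by fun_prop
        have h3 := (this.tendsto 0).mono_left (nhdsWithin_le_nhds (s := Set.Ioi 0))
        simpa using h3
      · filter_upwards [self_mem_nhdsWithin] with h hh
        have : (0 : ℝ) < h := hh
        simp only [Set.mem_compl_iff, Set.mem_singleton_iff]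
        intro h4
        have h5 : (1 + h : ℝ) = 1 := by exact_mod_cast h4
        linarith
    have h4 := (h2.comp h3).norm
    simp only [norm_one] at h4
    refine h4.congr fun h => ?_
    simp
  have h2 : ∀ᶠ h : ℝ in 𝓝[>] 0, (1 / 2 : ℝ) < ‖(h : ℂ) * riemannZeta ((1 + h : ℝ) : ℂ)‖ ∧
      ‖(h : ℂ) * riemannZeta ((1 + h : ℝ) : ℂ)‖ < 2 :=
    (h1.eventually_const_lt (by norm_num)).and (h1.eventually_lt_const (by norm_num))
  obtain ⟨δ, hδ, hb⟩ := mem_nhdsGT_iff_exists_Ioo_subset.1 h2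
  refine ⟨CR 1 + Real.log 2, δ, hδ, fun h h0 hlt => ?_⟩
  obtain ⟨a1, a2⟩ := hb ⟨h0, hlt⟩
  rw [norm_mul, Complex.norm_real, Real.norm_of_nonneg h0.le] at a1 a2
  have h3 := PZ_log h0 0
  simp only [Complex.ofReal_zero, zero_mul, add_zero] at h3
  have hz : 0 < ‖riemannZeta ((1 + h : ℝ) : ℂ)‖ := by
    by_contra hneg
    have := norm_nonneg (riemannZeta ((1 + h : ℝ) : ℂ))
    have : ‖riemannZeta ((1 + h : ℝ) : ℂ)‖ = 0 := le_antisymm (not_lt.1 hneg) this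
    rw [this] at a1
    norm_num at a1
  have b1 := Real.log_lt_log (by norm_num) a1
  have b2 := Real.log_lt_log (by positivity) a2
  rw [Real.log_mul h0.ne' hz.ne'] at b1 b2
  have b3 : Real.log (1 / 2) = -Real.log 2 := by rw [one_div, Real.log_inv]
  rw [b3] at b1
  rw [one_div, Real.log_inv]
  rw [abs_le] at h3 ⊢
  constructor <;> linarith [h3.1, h3.2]

theorem PZ_ne {t : ℝ} (ht : t ≠ 0) : ∃ C : ℝ, ∃ δ : ℝ, 0 < δ ∧ ∀ h : ℝ, 0 < h → h < δ →
    |(PZ h t).re| ≤ C := by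
  have hne : riemannZeta (1 + (t : ℂ) * Complex.I) ≠ 0 :=
    riemannZeta_ne_zero_of_one_le_re (by simp)
  have h1' : (1 + (t : ℂ) * Complex.I) ≠ 1 := by
    intro h
    have := congrArg Complex.im h
    simp at this
    exact ht this
  have h1 : Tendsto (fun h : ℝ => Real.log ‖riemannZeta (((1 + h : ℝ) : ℂ) + (t : ℂ) * Complex.I)‖)
      (𝓝[>] 0) (𝓝 (Real.log ‖riemannZeta (1 + (t : ℂ) * Complex.I)‖)) := by
    have h2 : Tendsto (fun h : ℝ => ((1 + h : ℝ) : ℂ) + (t : ℂ) * Complex.I) (𝓝[>] 0)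
        (𝓝 (1 + (t : ℂ) * Complex.I)) := by
      have : Continuous fun h : ℝ => ((1 + h : ℝ) : ℂ) + (t : ℂ) * Complex.I := by fun_prop
      have h3 := (this.tendsto 0).mono_left (nhdsWithin_le_nhds (s := Set.Ioi 0))
      simpa using h3
    exact (((differentiableAt_riemannZeta h1').continuousAt.tendsto.comp h2).norm).log
      (norm_pos_iff.2 hne).ne'
  set c : ℝ := Real.log ‖riemannZeta (1 + (t : ℂ) * Complex.I)‖ with hc
  have h2 : ∀ᶠ h : ℝ in 𝓝[>] 0, c - 1 <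
      Real.log ‖riemannZeta (((1 + h : ℝ) : ℂ) + (t : ℂ) * Complex.I)‖ ∧
      Real.log ‖riemannZeta (((1 + h : ℝ) : ℂ) + (t : ℂ) * Complex.I)‖ < c + 1 :=
    (h1.eventually_const_lt (by linarith)).and (h1.eventually_lt_const (by linarith))
  obtain ⟨δ, hδ, hb⟩ := mem_nhdsGT_iff_exists_Ioo_subset.1 h2
  refine ⟨CR 1 + (|c| + 1), δ, hδ, fun h h0 hlt => ?_⟩
  obtain ⟨a1, a2⟩ := hb ⟨h0, hlt⟩
  have h3 := abs_le.1 (PZ_log h0 t)
  have h4 := neg_abs_le c
  have h5 := le_abs_self c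
  rw [abs_le]
  constructor <;> linarith [h3.1, h3.2]

/-- the unimodular part -/
noncomputable def uu (t : ℝ) (n : ℕ) : ℂ := Complex.exp (((-(t * Real.log n) : ℝ) : ℂ) * Complex.I)

theorem norm_uu (t : ℝ) (n : ℕ) : ‖uu t n‖ = 1 := Complex.norm_exp_ofReal_mul_I _

theorem zt_eq (h t : ℝ) {n : ℕ} (hn : 0 < n) :
    zt h t n = (((n : ℝ) ^ (-(1 + h)) : ℝ) : ℂ) * uu t n := by
  have hn0 : (n : ℂ) ≠ 0 := by exact_mod_cast hn.ne'
  have hn1 : (0 : ℝ) < n := by exact_mod_cast hn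
  unfold zt uu
  rw [neg_add, Complex.cpow_add _ _ hn0]
  congr 1
  · rw [Complex.ofReal_cpow hn1.le]
    push_cast
    rfl
  · rw [Complex.cpow_def_of_ne_zero hn0, ← Complex.natCast_log]
    congr 1
    push_cast
    ring

theorem uu_sub (t s : ℝ) (n : ℕ) : uu (t - s) n = uu t n * (starRingEnd ℂ) (uu s n) := by
  unfold uu
  rw [← Complex.exp_conj, ← Complex.exp_add]
  congr 1
  rw [map_mul, Complex.conj_ofReal, Complex.conj_I]
  push_cast
  ring

theorem norm_sum_uu {τ : Type} [Fintype τ] (t κ : τ → ℝ) (n : ℕ) :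
    ‖∑ j, (κ j : ℂ) * uu (t j) n‖ ^ 2 = ∑ j, ∑ k, κ j * κ k * (uu (t j - t k) n).re := by
  rw [← Complex.normSq_eq_norm_sq, ← Complex.ofReal_re (Complex.normSq _), Complex.normSq_eq_conj_mul_self,
    mul_comm, map_sum, Finset.sum_mul_sum, Complex.re_sum]
  refine Finset.sum_congr rfl fun j _ => ?_
  rw [Complex.re_sum]
  refine Finset.sum_congr rfl fun k _ => ?_
  rw [uu_sub, map_mul, Complex.conj_ofReal, ← Complex.re_ofReal_mul]
  push_cast
  ring_nf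

theorem PZ_hasSum {h : ℝ} (hh : 0 < h) (t : ℝ) :
    HasSum (fun n : ℕ => if n.Prime then zt h t n else 0) (PZ h t) := by
  have h1 := PZ_summable hh t (b := fun n : ℕ => if n.Prime then (1 : ℂ) else 0) (B := 1)
    (fun n => by split_ifs <;> simp) (fun n hn => if_neg hn)
  have h2 : Summable fun n : ℕ => if n.Prime then zt h t n else 0 := by
    refine h1.congr fun n => ?_
    split_ifs <;> simp
  exact h2.hasSum

theorem sum_cc {τ : Type} [Fintype τ] (t κ : τ → ℝ) {h : ℝ} (hh : 0 < h) :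
    HasSum (fun n : ℕ => if n.Prime then
      ‖∑ j, (κ j : ℂ) * uu (t j) n‖ ^ 2 * (n : ℝ) ^ (-(1 + h)) else 0)
      (∑ j, ∑ k, κ j * κ k * (PZ h (t j - t k)).re) := by
  have h1 : HasSum (fun n : ℕ => ∑ j, ∑ k, κ j * κ k *
      (if n.Prime then zt h (t j - t k) n else 0).re)
      (∑ j, ∑ k, κ j * κ k * (PZ h (t j - t k)).re) := by
    refine hasSum_sum fun j _ => hasSum_sum fun k _ => ?_
    exact (Complex.hasSum_re (PZ_hasSum hh (t j - t k))).mul_left _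
  convert h1 using 1
  funext n
  split_ifs with hn
  · rw [norm_sum_uu, Finset.sum_mul]
    refine Finset.sum_congr rfl fun j _ => ?_
    rw [Finset.sum_mul]
    refine Finset.sum_congr rfl fun k _ => ?_
    rw [zt_eq h _ hn.pos, Complex.re_ofReal_mul]
    ring
  · simp

/-- **Bessel's inequality**: correlations with `n^{-it_j}` of a sequence on the primes. -/
theorem bessel {τ : Type} [Fintype τ] {t : τ → ℝ} (ht : Function.Injective t) (κ : τ → ℝ)
    {b : ℕ → ℂ} {B : ℝ} (hb : ∀ n, ‖b n‖ ≤ B) (hb0 : ∀ n : ℕ, ¬ n.Prime → b n = 0)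
    (h : ∀ j, ∃ C : ℝ, ∃ δ : ℝ, 0 < δ ∧ ∀ h : ℝ, 0 < h → h < δ →
      |(∑' n, b n * zt h (t j) n).re + κ j * Real.log (1 / h)| ≤ C) :
    ∃ C : ℝ, ∃ δ : ℝ, 0 < δ ∧ ∀ h : ℝ, 0 < h → h < δ →
      (∑ j, κ j ^ 2) * Real.log (1 / h) ≤ ∑' n, ‖b n‖ ^ 2 * (n : ℝ) ^ (-(1 + h)) + C := by
  classical
  choose C1 δ1 hδ1 h1 using h
  -- the cross terms
  have hc : ∀ j k : τ, ∃ C : ℝ, ∃ δ : ℝ, 0 < δ ∧ ∀ h : ℝ, 0 < h → h < δ →
      |(PZ h (t j - t k)).re - (if j = k then Real.log (1 / h) else 0)| ≤ C := by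
    intro j k
    by_cases hjk : j = k
    · subst hjk
      obtain ⟨C, δ, hδ, hC⟩ := PZ_zero
      refine ⟨C, δ, hδ, fun h h0 hlt => ?_⟩
      rw [if_pos rfl, sub_self]
      exact hC h h0 hlt
    · obtain ⟨C, δ, hδ, hC⟩ := PZ_ne (t := t j - t k) (sub_ne_zero.2 fun h => hjk (ht h))
      refine ⟨C, δ, hδ, fun h h0 hlt => ?_⟩
      rw [if_neg hjk, sub_zero]
      exact hC h h0 hlt
  choose C2 δ2 hδ2 h2 using hc
  -- a common δ
  have hev : ∀ᶠ h : ℝ in 𝓝[>] 0, 0 < h ∧ (∀ j, h < δ1 j) ∧ ∀ j k, h < δ2 j k := by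
    refine (eventually_mem_nhdsWithin).and ((Filter.eventually_all.2 fun j => ?_).and
      (Filter.eventually_all.2 fun j => Filter.eventually_all.2 fun k => ?_))
    · exact nhdsWithin_le_nhds (eventually_lt_nhds (hδ1 j))
    · exact nhdsWithin_le_nhds (eventually_lt_nhds (hδ2 j k))
  obtain ⟨δ, hδ, hsub⟩ := mem_nhdsGT_iff_exists_Ioo_subset.1 hev
  refine ⟨2 * (∑ j, |κ j| * C1 j) + ∑ j, ∑ k, |κ j * κ k| * C2 j k, δ, hδ, fun h h0 hlt => ?_⟩
  obtain ⟨-, hlt1, hlt2⟩ := hsub ⟨h0, hlt⟩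
  set ℓ : ℝ := Real.log (1 / h) with hℓ
  set Z : τ → ℂ := fun j => ∑' n, b n * zt h (t j) n with hZ
  -- (a)
  have ha : (∑ j, κ j ^ 2) * ℓ - ∑ j, |κ j| * C1 j ≤ -∑ j, κ j * (Z j).re := by
    rw [Finset.sum_mul, ← Finset.sum_sub_distrib, ← Finset.sum_neg_distrib]
    refine Finset.sum_le_sum fun j _ => ?_
    have e1 := h1 j h h0 (hlt1 j)
    have e2 : κ j * ((Z j).re + κ j * ℓ) ≤ |κ j| * C1 j := by
      refine (le_abs_self _).trans ?_
      rw [abs_mul]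
      exact mul_le_mul_of_nonneg_left e1 (abs_nonneg _)
    linarith [e2, show κ j * ((Z j).re + κ j * ℓ) = κ j * (Z j).re + κ j ^ 2 * ℓ by ring]
  -- (b)
  have hbs : Summable fun n : ℕ => ‖b n‖ ^ 2 * (n : ℝ) ^ (-(1 + h)) := by
    have hB : 0 ≤ B := (norm_nonneg _).trans (hb 0)
    refine Summable.of_nonneg_of_le (fun n => by positivity) (fun n => ?_)
      ((zt_sum h0).mul_left (B ^ 2))
    gcongr
    exact hb n
  have hcs := sum_cc t κ h0
  have hz : HasSum (fun n : ℕ => -∑ j, κ j * (b n * zt h (t j) n).re)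
      (-∑ j, κ j * (Z j).re) := by
    refine (hasSum_sum fun j _ => ?_).neg
    exact (Complex.hasSum_re (PZ_summable h0 (t j) hb hb0).hasSum).mul_left _
  have hle : -∑ j, κ j * (Z j).re ≤ 1 / 2 * ∑' n, ‖b n‖ ^ 2 * (n : ℝ) ^ (-(1 + h)) +
      1 / 2 * ∑ j, ∑ k, κ j * κ k * (PZ h (t j - t k)).re := by
    refine hasSum_le (fun n => ?_) hz ((hbs.hasSum.mul_left (1 / 2)).add (hcs.mul_left (1 / 2)))
    by_cases hn : n.Prime
    · simp only [if_pos hn]
      set c : ℂ := ∑ j, (κ j : ℂ) * uu (t j) n with hcdef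
      set r : ℝ := (n : ℝ) ^ (-(1 + h)) with hr
      have hr0 : 0 ≤ r := by positivity
      have e1 : ∑ j, κ j * (b n * zt h (t j) n).re = r * (b n * c).re := by
        rw [hcdef, Finset.mul_sum, Complex.re_sum, Finset.mul_sum]
        refine Finset.sum_congr rfl fun j _ => ?_
        rw [zt_eq h _ hn.pos, ← Complex.re_ofReal_mul, ← Complex.re_ofReal_mul]
        congr 1
        ring
      rw [e1]
      have e2 : -(b n * c).re ≤ ‖b n‖ * ‖c‖ := by
        rw [← norm_mul]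
        exact (neg_le_abs _).trans (Complex.abs_re_le_norm _)
      have e3 : ‖b n‖ * ‖c‖ ≤ 1 / 2 * ‖b n‖ ^ 2 + 1 / 2 * ‖c‖ ^ 2 := by
        nlinarith [sq_nonneg (‖b n‖ - ‖c‖)]
      nlinarith [mul_le_mul_of_nonneg_left (e2.trans e3) hr0]
    · simp only [if_neg hn, hb0 n hn]
      simp
  -- (c)
  have hcc : ∑ j, ∑ k, κ j * κ k * (PZ h (t j - t k)).re ≤
      (∑ j, κ j ^ 2) * ℓ + ∑ j, ∑ k, |κ j * κ k| * C2 j k := by
    have e0 : (∑ j, κ j ^ 2) * ℓ = ∑ j, ∑ k, κ j * κ k * (if j = k then ℓ else 0) := by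
      rw [Finset.sum_mul]
      refine Finset.sum_congr rfl fun j _ => ?_
      simp only [mul_ite, mul_zero, Finset.sum_ite_eq, Finset.mem_univ, if_true]
      ring
    rw [e0, ← Finset.sum_add_distrib]
    refine Finset.sum_le_sum fun j _ => ?_
    rw [← Finset.sum_add_distrib]
    refine Finset.sum_le_sum fun k _ => ?_
    have e1 := h2 j k h h0 (hlt2 j k)
    have e2 : κ j * κ k * ((PZ h (t j - t k)).re - (if j = k then ℓ else 0)) ≤
        |κ j * κ k| * C2 j k := by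
      refine (le_abs_self _).trans ?_
      rw [abs_mul]
      exact mul_le_mul_of_nonneg_left e1 (abs_nonneg _)
    linarith [e2, show κ j * κ k * ((PZ h (t j - t k)).re - (if j = k then ℓ else 0)) =
      κ j * κ k * (PZ h (t j - t k)).re - κ j * κ k * (if j = k then ℓ else 0) by ring]
  linarith

end Pool.Agent.Q255.SG
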