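import Pool.Agent.Q255.SG.Hull2

/-! # Equidistribution of the translates in the hull -/

set_option autoImplicit false

namespace Pool.Agent.Q255.SG

open Finset MeasureTheory Filter Topology Pool.Agent.Q255.SA Pool.Agent.TH109.CG Polynomial

variable {N : ℕ} {w : ℝ}

theorem PP1_eval (β : Fin N → ℂ) (z : ℂ) : (PP1 β).eval z = ∏ j, (1 - β j * z) := by
  unfold PP1
  rw [eval_prod]
  refine Finset.prod_congr rfl fun j _ => ?_
  simp

theorem RP_of_PP1 {α : ℕ → Fin N → ℂ} (hα : Bd w α) {θ θ' : ℕ → UnitAddCircle}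
    (h : ∀ p : ℕ, p.Prime → PP1 (tw α θ p) = PP1 (tw α θ' p)) (x : ℕ) (t : ℝ) :
    RP w α x (θ + li t) = RP w α x (θ' + li t) := by
  rw [← AP_tw hα, ← AP_tw hα, ← q_partial, ← q_partial]
  refine Finset.prod_congr rfl fun p hp => ?_
  rw [← PP1_eval, ← PP1_eval, h p (Nat.prime_of_mem_primesBelow hp)]

theorem Hl_of_PP1 {α : ℕ → Fin N → ℂ} (hα : Bd w α) {θ θ' : ℕ → UnitAddCircle}
    (h : ∀ p : ℕ, p.Prime → PP1 (tw α θ p) = PP1 (tw α θ' p)) {l : ℝ → ℂ} (hl : Hl w α θ l) :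
    Hl w α θ' l := by
  obtain ⟨T, hT, hl⟩ := hl
  refine ⟨T, hT, fun t ht => ⟨(hl t ht).1, (hl t ht).2.congr fun x => ?_⟩⟩
  exact RP_of_PP1 hα h x t

variable {ι : Type} {n : ι → ℕ} {ws : ι → ℝ} {αs : (i : ι) → ℕ → Fin (n i) → ℂ}

/-- **Equidistribution of the vertical translates in the hull.** -/
theorem hull_equi (hα : ∀ i, Bd (ws i) (αs i)) {l : (ℕ → UnitAddCircle) → ι → ℝ → ℂ}
    (hl : ∀ θ i, Hl (ws i) (αs i) θ (l θ i)) {Φ : (ι → ℝ → ℂ) → ℝ}
    (hΦ : ∀ ε : ℝ, 0 < ε → ∃ (J : Finset ι) (δ : ℝ), 0 < δ ∧ ∀ f g : ι → ℝ → ℂ,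
      (∀ i, AEMeasurable (f i)) → (∀ i, AEMeasurable (g i)) →
      (∀ i ∈ J, gap (f i) (g i) ≤ ENNReal.ofReal δ) → |Φ f - Φ g| ≤ ε) {ε : ℝ} (hε : 0 < ε) :
    Continuous (fun θ => Φ (l θ)) ∧ (Continuous fun τ : ℝ => Φ fun i t => l 0 i (t + τ)) ∧
    ∃ T0 : ℝ, 0 < T0 ∧ ∀ a T : ℝ, T0 ≤ T →
      |T⁻¹ * (∫ τ in a..(a + T), Φ fun i t => l 0 i (t + τ)) - ∫ θ, Φ (l θ) ∂Pr| ≤ ε := by
  classical
  have meas : ∀ θ i, AEMeasurable (l θ i) := fun θ i => Hl_aemeas (hα i) (hl θ i)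
  -- continuity
  have hG : Continuous fun θ => Φ (l θ) := by
    rw [continuous_iff_continuousAt]
    intro θ
    unfold ContinuousAt
    rw [Metric.tendsto_nhds]
    intro η hη
    obtain ⟨J, δ, hδ, h⟩ := hΦ (η / 2) (by positivity)
    have h1 : ∀ᶠ δ' in 𝓝 (0 : ℕ → UnitAddCircle), ∀ i ∈ J,
        ∀ (θ : ℕ → UnitAddCircle) (l l' : ℝ → ℂ),
        Hl (ws i) (αs i) θ l → Hl (ws i) (αs i) (θ + δ') l' → gap l' l ≤ ENNReal.ofReal δ :=
      (Filter.eventually_all_finset J).2 fun i _ => hull_cont (hα i) hδ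
    have h2 : Tendsto (fun θ' : ℕ → UnitAddCircle => θ' - θ) (𝓝 θ) (𝓝 0) := by
      have : Continuous fun θ' : ℕ → UnitAddCircle => θ' - θ := continuous_id.sub continuous_const
      have h3 := this.tendsto θ
      rwa [sub_self] at h3
    filter_upwards [h2.eventually h1] with θ' hθ'
    rw [Real.dist_eq]
    refine lt_of_le_of_lt (h (l θ') (l θ) (meas θ') (meas θ) fun i hi => ?_) (by linarith)
    refine hθ' i hi θ (l θ i) (l θ' i) (hl θ i) ?_
    rw [add_sub_cancel]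
    exact hl θ' i
  -- the translates
  have hli : ∀ τ : ℝ, (Φ fun i t => l 0 i (t + τ)) = Φ (l (li τ)) := by
    intro τ
    have h1 : ∀ i, Hl (ws i) (αs i) (li τ) (fun t => l 0 i (t + τ)) := by
      intro i
      have := Hl_shift (hl 0 i) τ
      rwa [zero_add] at this
    have h2 : ∀ η : ℝ, 0 < η → |(Φ fun i t => l 0 i (t + τ)) - Φ (l (li τ))| ≤ 0 + η := by
      intro η hη
      obtain ⟨J, δ, hδ, h⟩ := hΦ η hη
      rw [zero_add]
      refine h _ _ (fun i => Hl_aemeas (hα i) (h1 i)) (meas _) fun i _ => ?_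
      rw [gap_ae (Hl_unique (h1 i) (hl (li τ) i)) (ae_eq_refl _), gap_self]
      exact zero_le'
    have h3 := abs_nonpos_iff.1 (le_of_forall_pos_le_add h2)
    linarith
  have hlic : Continuous (li : ℝ → ℕ → UnitAddCircle) := by
    refine continuous_pi fun p => ?_
    unfold li
    exact (AddCircle.continuous_mk' (1 : ℝ)).comp (continuous_id.mul continuous_const)
  refine ⟨hG, ?_, ?_⟩
  · simp_rw [hli]
    exact hG.comp hlic
  -- approximation
  obtain ⟨J, δ, hδ, hδ2⟩ := hΦ (ε / 3) (by positivity)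
  have h1 : ∀ i, ∃ x : ℕ, ∀ (θ : ℕ → UnitAddCircle) (l : ℝ → ℂ),
      Hl (ws i) (αs i) θ l → gap l (fun t => RP (ws i) (αs i) x (θ + li t)) ≤
        ENNReal.ofReal δ := by
    intro i
    obtain ⟨x, _, h⟩ := hull_approx (n i) hδ
    exact ⟨x, h (ws i) (αs i) (hα i)⟩
  choose x hx using h1
  obtain ⟨X, hX⟩ : ∃ X : ℕ, ∀ i ∈ J, x i ≤ X := by
    refine ⟨∑ i ∈ J, x i, fun i hi => ?_⟩
    exact Finset.single_le_sum (f := x) (fun _ _ => Nat.zero_le _) hi
  set u : (ℕ → UnitAddCircle) → ι → ℝ → ℂ := fun θ i t =>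
    if i ∈ J then RP (ws i) (αs i) (x i) (θ + li t) else 0 with hu
  set G1 : (ℕ → UnitAddCircle) → ℝ := fun θ => Φ (u θ) with hG1
  have mG1 : ∀ θ i, AEMeasurable (u θ i) := by
    intro θ i
    by_cases hi : i ∈ J
    · have : u θ i = fun t : ℝ => RP (ws i) (αs i) (x i) (θ + li t) := by
        funext t
        rw [hu]
        simp only [if_pos hi]
      rw [this]
      exact RP_aemeas (hα i) (x i) θ
    · have : u θ i = fun t : ℝ => 0 := by
        funext t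
        rw [hu]
        simp only [if_neg hi]
      rw [this]
      exact aemeasurable_const
  have hGG : ∀ θ, |Φ (l θ) - G1 θ| ≤ ε / 3 := by
    intro θ
    refine hδ2 _ _ (meas θ) (mG1 θ) fun i hi => ?_
    have : u θ i = fun t : ℝ => RP (ws i) (αs i) (x i) (θ + li t) := by
      funext t
      rw [hu]
      simp only [if_pos hi]
    rw [this]
    exact hx i θ _ (hl θ i)
  have hG1c : Continuous G1 := by
    rw [continuous_iff_continuousAt]
    intro θ
    unfold ContinuousAt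
    rw [Metric.tendsto_nhds]
    intro η hη
    obtain ⟨J', δ, hδ, h⟩ := hΦ (η / 2) (by positivity)
    have h1 : ∀ᶠ δ' in 𝓝 (0 : ℕ → UnitAddCircle), ∀ i ∈ J', ∀ (θ : ℕ → UnitAddCircle),
        ‖RP (ws i) (αs i) (x i) (θ + δ') - RP (ws i) (αs i) (x i) θ‖ ≤ δ :=
      (Filter.eventually_all_finset J').2 fun i _ => RP_unif (hα i) (x i) hδ
    have h2 : Tendsto (fun θ' : ℕ → UnitAddCircle => θ' - θ) (𝓝 θ) (𝓝 0) := by
      have : Continuous fun θ' : ℕ → UnitAddCircle => θ' - θ := continuous_id.sub continuous_const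
      have h3 := this.tendsto θ
      rwa [sub_self] at h3
    filter_upwards [h2.eventually h1] with θ' hθ'
    rw [Real.dist_eq]
    refine lt_of_le_of_lt (h _ _ (mG1 θ') (mG1 θ) fun i hi => ?_) (by linarith)
    refine gap_le_of_sup fun t => ?_
    by_cases hiJ : i ∈ J
    · simp only [hu, if_pos hiJ]
      have e : θ' + li t = θ + li t + (θ' - θ) := by abel
      rw [e]
      exact hθ' i hi _
    · simp only [hu, if_neg hiJ, sub_zero, norm_zero]
      exact hδ.le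
  have hdep : ∀ θ θ' : ℕ → UnitAddCircle, (∀ p ∈ Nat.primesBelow X, θ p = θ' p) →
      G1 θ = G1 θ' := by
    intro θ θ' h
    rw [hG1]
    dsimp only
    congr 1
    funext i t
    by_cases hiJ : i ∈ J
    · simp only [hu, if_pos hiJ]
      unfold RP
      rw [RL_dep (αs i) (hX i hiJ) (θ := θ + li t) (θ' := θ' + li t)]
      intro p hp
      rw [Pi.add_apply, Pi.add_apply, h p hp]
    · simp only [hu, if_neg hiJ]
  obtain ⟨T0, hT0, hw⟩ := weyl_param (K := Unit) (G := fun z => G1 z.2)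
    (hG1c.comp continuous_snd) (Nat.primesBelow X) (primesBelow_prime X)
    (fun _ θ θ' h => hdep θ θ' h) (ε := ε / 3) (by positivity)
  refine ⟨T0, hT0, fun a T hT => ?_⟩
  have hT1 : 0 < T := by linarith
  have h2 := hw () T hT a
  unfold avg at h2
  simp only [smul_eq_mul] at h2
  simp_rw [hli]
  have c1 : Continuous fun τ : ℝ => Φ (l (li τ)) := hG.comp hlic
  have c2 : Continuous fun τ : ℝ => G1 (li τ) := hG1c.comp hlic
  have h3 : |T⁻¹ * (∫ τ in a..(a + T), Φ (l (li τ))) - T⁻¹ * ∫ τ in a..(a + T), G1 (li τ)| ≤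
      ε / 3 := by
    rw [← mul_sub, ← intervalIntegral.integral_sub (c1.intervalIntegrable _ _)
      (c2.intervalIntegrable _ _), abs_mul, abs_of_pos (by positivity : 0 < T⁻¹)]
    have h4 := intervalIntegral.norm_integral_le_of_norm_le_const (a := a) (b := a + T)
      (f := fun τ => Φ (l (li τ)) - G1 (li τ)) (C := ε / 3) (fun τ _ => hGG (li τ))
    have e : a + T - a = T := by ring
    rw [e, abs_of_pos hT1, Real.norm_eq_abs] at h4
    calc T⁻¹ * |∫ τ in a..(a + T), (Φ (l (li τ)) - G1 (li τ))| ≤ T⁻¹ * (ε / 3 * T) := by gcongr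
      _ = ε / 3 := by field_simp
  have h4 : |∫ θ, Φ (l θ) ∂Pr - ∫ θ, G1 θ ∂Pr| ≤ ε / 3 := by
    rw [← integral_sub (cont_int hG) (cont_int hG1c)]
    have h5 := norm_integral_le_of_norm_le_const (μ := Pr) (f := fun θ => Φ (l θ) - G1 θ)
      (C := ε / 3) (Eventually.of_forall fun θ => hGG θ)
    rw [Real.norm_eq_abs] at h5
    refine h5.trans (le_of_eq ?_)
    simp
  have e : T⁻¹ * (∫ τ in a..(a + T), Φ (l (li τ))) - ∫ θ, Φ (l θ) ∂Pr =
      (T⁻¹ * (∫ τ in a..(a + T), Φ (l (li τ))) - T⁻¹ * ∫ τ in a..(a + T), G1 (li τ)) +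
      (T⁻¹ * (∫ τ in a..(a + T), G1 (li τ)) - ∫ θ, G1 θ ∂Pr) -
      (∫ θ, Φ (l θ) ∂Pr - ∫ θ, G1 θ ∂Pr) := by ring
  rw [e]
  refine (abs_sub _ _).trans ?_
  refine (add_le_add (abs_add_le _ _) le_rfl).trans ?_
  linarith

end Pool.Agent.Q255.SG
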