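import Pool.Agent.Q255.SG.QK

/-! # Products of real powers of several L-functions near a point of the edge -/

set_option autoImplicit false

namespace Pool.Agent.Q255.SG

open NumberField IsDedekindDomain Finset Pool.Agent.H921R2.TatePole
  Pool.Agent.W350.EdgeEC Pool.Agent.W350.EdgeNF Pool.Agent.W350.EdgeV MeasureTheory Filter Topology
  Pool.Agent.Q255.SA

variable {K : Type} [Field K] [NumberField K] {ι : Type} [Fintype ι] {n : ι → ℕ} {ws : ι → ℝ}
  {αs : (i : ι) → HeightOneSpectrum (𝓞 K) → Fin (n i) → ℂ}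

/-- the primitive of the combination of the logarithms -/
noncomputable def GG (ws : ι → ℝ) (αs : (i : ι) → HeightOneSpectrum (𝓞 K) → Fin (n i) → ℂ)
    (x : ι → ℝ) (z : ℂ) : ℂ := ∑ i, (x i : ℂ) * PG (ws i) (αs i) z

/-- the combination of the logarithms -/
noncomputable def LL (ws : ι → ℝ) (αs : (i : ι) → HeightOneSpectrum (𝓞 K) → Fin (n i) → ℂ)
    (x : ι → ℝ) (z : ℂ) : ℂ := ∑ i, (x i : ℂ) * deriv (PG (ws i) (αs i)) z

theorem GG_deriv (hα : ∀ i, BdK (ws i) (αs i)) (x : ι → ℝ) {z : ℂ} (hz : 0 < z.re) :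
    HasDerivAt (GG ws αs x) (LL ws αs x z) z := by
  unfold GG LL
  exact HasDerivAt.fun_sum fun i _ => (PG_deriv (hα i) hz).const_mul _

theorem GG_continuousOn (hα : ∀ i, BdK (ws i) (αs i)) (x : ι → ℝ) :
    ContinuousOn (GG ws αs x) {z | 0 ≤ z.re} := by
  unfold GG
  exact continuousOn_finset_sum _ fun i _ => continuousOn_const.mul (PG_continuousOn (hα i))

/-- the boundary functions -/
def Bdy (ws : ι → ℝ) (αs : (i : ι) → HeightOneSpectrum (𝓞 K) → Fin (n i) → ℂ)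
    (hα : ∀ i, BdK (ws i) (αs i)) (l : ι → ℝ → ℂ) : Prop :=
  ∀ i, ∃ T : Set ℝ, volume T = 0 ∧ Lim (PP (sysLD (ws i) (αs i) (hα i))) T (l i)

/-- regular behaviour of the combination of the logarithms of the moduli -/
def Reg (l : ι → ℝ → ℂ) (x : ι → ℝ) (t0 κ : ℝ) : Prop :=
  ∃ ψ : ℝ → ℝ, AnalyticAt ℝ ψ t0 ∧ ∃ δ : ℝ, 0 < δ ∧ ∀ᵐ t : ℝ, |t - t0| < δ →
    ∑ i, x i * Real.log ‖l i t‖ = κ * Real.log |t - t0| + ψ t

/-- regular behaviour of the product -/
def RegL (L : ℂ → ℂ) (t0 κ : ℝ) : Prop :=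
  ∃ F : ℂ → ℂ, AnalyticAt ℂ F ((t0 : ℂ) * Complex.I) ∧ F ((t0 : ℂ) * Complex.I) ≠ 0 ∧
    ∃ δ : ℝ, 0 < δ ∧ ∀ z : ℂ, 0 < z.re → ‖z - (t0 : ℂ) * Complex.I‖ < δ →
      Complex.exp (L z) = (z - (t0 : ℂ) * Complex.I) ^ (κ : ℂ) * F z

theorem fwdm (hα : ∀ i, BdK (ws i) (αs i)) {l : ι → ℝ → ℂ} (hl : Bdy ws αs hα l) {x : ι → ℝ}
    {t0 κ : ℝ} (h : Reg l x t0 κ) : RegL (LL ws αs x) t0 κ := by
  obtain ⟨ψ, hψ, δ, hδ, h⟩ := h
  choose T hT hlim using hl
  set g : ℂ → ℂ := fun ζ => Complex.I * GG ws αs x ((t0 : ℂ) * Complex.I - Complex.I * ζ) with hg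
  have hre : ∀ ζ : ℂ, ((t0 : ℂ) * Complex.I - Complex.I * ζ).re = ζ.im := by
    intro ζ
    simp
  have hc : ContinuousOn g {ζ | ‖ζ‖ < δ ∧ 0 ≤ ζ.im} := by
    refine continuousOn_const.mul ((GG_continuousOn hα x).comp (by fun_prop) fun ζ hζ => ?_)
    show 0 ≤ ((t0 : ℂ) * Complex.I - Complex.I * ζ).re
    rw [hre]
    exact hζ.2
  have hder : ∀ ζ : ℂ, 0 < ζ.im →
      HasDerivAt g (LL ws αs x ((t0 : ℂ) * Complex.I - Complex.I * ζ)) ζ := by
    intro ζ hζ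
    have h1 : HasDerivAt (fun ζ : ℂ => (t0 : ℂ) * Complex.I - Complex.I * ζ) (-Complex.I) ζ := by
      have := ((hasDerivAt_id ζ).const_mul Complex.I).const_sub ((t0 : ℂ) * Complex.I)
      simpa using this
    have h2 := ((GG_deriv hα x (z := (t0 : ℂ) * Complex.I - Complex.I * ζ)
      (by rw [hre]; exact hζ)).comp ζ h1).const_mul Complex.I
    refine h2.congr_deriv ?_
    ring_nf
    rw [Complex.I_sq]
    ring
  have hd : DifferentiableOn ℂ g {ζ | ‖ζ‖ < δ ∧ 0 < ζ.im} := fun ζ hζ =>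
    (hder ζ hζ.2).differentiableAt.differentiableWithinAt
  have hψ' : AnalyticAt ℝ (fun v => ψ (t0 - v)) 0 := by
    have h1 : AnalyticAt ℝ (fun v : ℝ => t0 - v) 0 := analyticAt_const.sub analyticAt_id
    exact AnalyticAt.comp' (by simpa using hψ) h1
  have hint : ∀ i (y y' : ℝ), IntervalIntegrable (fun t => Real.log ‖l i t‖) volume y y' :=
    fun i y y' => (line_l (hα i) (hT i) (hlim i) y y').1
  have hlineG : ∀ y y' : ℝ, (GG ws αs x (y' * Complex.I) - GG ws αs x (y * Complex.I)).im =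
      ∫ t in y..y', ∑ i, x i * Real.log ‖l i t‖ := by
    intro y y'
    unfold GG
    rw [← Finset.sum_sub_distrib, Complex.im_sum,
      intervalIntegral.integral_finset_sum fun i _ => (hint i y y').const_mul _]
    refine Finset.sum_congr rfl fun i _ => ?_
    rw [← mul_sub, Complex.im_ofReal_mul, (line_l (hα i) (hT i) (hlim i) y y').2,
      intervalIntegral.integral_const_mul]
  have hline : ∀ u : ℝ, |u| < δ → (g u).re - (g 0).re =
      ∫ v in (0 : ℝ)..u, (κ * Real.log v + ψ (t0 - v)) := by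
    intro u hu
    have e1 : (g u).re - (g 0).re =
        -(GG ws αs x (((t0 - u : ℝ) : ℂ) * Complex.I) -
          GG ws αs x ((t0 : ℂ) * Complex.I)).im := by
      simp only [hg, Complex.mul_re, Complex.I_re, Complex.I_im, zero_mul, zero_sub, one_mul,
        mul_zero, sub_zero, Complex.sub_im, Complex.ofReal_sub]
      rw [mul_comm Complex.I (u : ℂ), ← sub_mul]
      ring
    rw [e1, hlineG t0 (t0 - u), ← intervalIntegral.integral_symm]
    have e2 : ∫ v in (0 : ℝ)..u, (κ * Real.log v + ψ (t0 - v)) =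
        ∫ t in (t0 - u)..t0, (κ * Real.log (t0 - t) + ψ t) := by
      have := intervalIntegral.integral_comp_sub_left
        (fun t => κ * Real.log (t0 - t) + ψ t) t0 (a := 0) (b := u)
      simpa using this
    rw [e2]
    refine intervalIntegral.integral_congr_ae ?_
    filter_upwards [h] with t ht hmem
    have htd : |t - t0| < δ := by
      have h1 := Set.abs_sub_right_of_mem_uIcc (Set.uIoc_subset_uIcc hmem)
      have h2 : t0 - (t0 - u) = u := by ring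
      rw [h2] at h1
      rw [abs_sub_comm]
      exact h1.trans_lt hu
    rw [ht htd, ← Real.log_abs (t0 - t), abs_sub_comm]
  obtain ⟨δ', hδ', H, hH, hH2⟩ := reflect hδ hc hd κ hψ' hline
  refine ⟨fun s => Complex.exp (κ * (Real.pi / 2 * Complex.I) +
    H (Complex.I * (s - (t0 : ℂ) * Complex.I))),
    ?_, Complex.exp_ne_zero _, δ', hδ', fun s hs hsd => ?_⟩
  · have h1 : AnalyticAt ℂ H 0 := hH.analyticAt (Metric.ball_mem_nhds 0 hδ')
    have h2 : AnalyticAt ℂ (fun s : ℂ => Complex.I * (s - (t0 : ℂ) * Complex.I))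
        ((t0 : ℂ) * Complex.I) :=
      analyticAt_const.mul (analyticAt_id.sub analyticAt_const)
    have h3 : AnalyticAt ℂ (fun s : ℂ => H (Complex.I * (s - (t0 : ℂ) * Complex.I)))
        ((t0 : ℂ) * Complex.I) :=
      AnalyticAt.comp' (by simpa using h1) h2
    exact (analyticAt_const.add h3).cexp
  · set ζ : ℂ := Complex.I * (s - (t0 : ℂ) * Complex.I) with hζ
    have him : 0 < ζ.im := by
      rw [hζ, Complex.I_mul_im, Complex.sub_re]
      simpa using hs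
    have hn : ‖ζ‖ < δ' := by
      rw [hζ, norm_mul, Complex.norm_I, one_mul]
      exact hsd
    have hu : 0 < (s - (t0 : ℂ) * Complex.I).re := by
      rw [Complex.sub_re]
      simpa using hs
    have hne : s - (t0 : ℂ) * Complex.I ≠ 0 := by
      intro h0
      rw [h0] at hu
      simp at hu
    have e1 : s = (t0 : ℂ) * Complex.I - Complex.I * ζ := by
      rw [hζ, ← mul_assoc, Complex.I_mul_I]
      ring
    have e2 : LL ws αs x s = deriv g ζ := by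
      rw [(hder ζ him).deriv, ← e1]
    rw [e2, hH2 ζ hn him, hζ, log_I_mul hu, Complex.cpow_def_of_ne_zero hne, ← Complex.exp_add]
    congr 1
    ring


/-- the same in terms of the absolute values of the L-functions; `Lz i z` is the value at the point
`z` over the edge -/
def RegN (Lz : ι → ℂ → ℂ) (x : ι → ℝ) (t0 κ : ℝ) : Prop :=
  ∃ F : ℂ → ℂ, AnalyticAt ℂ F ((t0 : ℂ) * Complex.I) ∧ F ((t0 : ℂ) * Complex.I) ≠ 0 ∧
    ∃ δ : ℝ, 0 < δ ∧ ∀ z : ℂ, 0 < z.re → ‖z - (t0 : ℂ) * Complex.I‖ < δ →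
      ∏ i, ‖Lz i z‖ ^ x i = ‖z - (t0 : ℂ) * Complex.I‖ ^ κ * ‖F z‖

theorem norm_exp_LL (x : ι → ℝ) (z : ℂ) :
    ‖Complex.exp (LL ws αs x z)‖ = ∏ i, ‖Complex.exp (deriv (PG (ws i) (αs i)) z)‖ ^ x i := by
  rw [Complex.norm_exp]
  unfold LL
  rw [Complex.re_sum, Real.exp_sum]
  refine Finset.prod_congr rfl fun i _ => ?_
  rw [Complex.re_ofReal_mul, Complex.norm_exp, ← Real.exp_mul, mul_comm]

theorem regN_of_regL {Lz : ι → ℂ → ℂ}
    (hL : ∀ i (z : ℂ), 0 < z.re → Lz i z = Complex.exp (deriv (PG (ws i) (αs i)) z)) {x : ι → ℝ}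
    {t0 κ : ℝ} (h : RegL (LL ws αs x) t0 κ) : RegN Lz x t0 κ := by
  obtain ⟨F, h1, h2, δ, hδ, h3⟩ := h
  refine ⟨F, h1, h2, δ, hδ, fun z hz hzd => ?_⟩
  have h4 : ∏ i, ‖Lz i z‖ ^ x i = ∏ i, ‖Complex.exp (deriv (PG (ws i) (αs i)) z)‖ ^ x i :=
    Finset.prod_congr rfl fun i _ => by rw [hL i z hz]
  rw [h4, ← norm_exp_LL, h3 z hz hzd, norm_mul, Complex.norm_cpow_real]

/-- horizontal limits -/
def HorLz (Lz : ι → ℂ → ℂ) (l : ι → ℝ → ℂ) : Prop :=
  ∀ i, ∃ T : Set ℝ, volume T = 0 ∧ ∀ t ∉ T, l i t ≠ 0 ∧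
    Tendsto (fun ε : ℝ => Lz i ((t : ℂ) * Complex.I + ε)) (𝓝[>] 0) (𝓝 (l i t))

theorem bwdm {Lz : ι → ℂ → ℂ} {l : ι → ℝ → ℂ} (hl : HorLz Lz l) {x : ι → ℝ} {t0 κ : ℝ}
    (h : RegN Lz x t0 κ) : Reg l x t0 κ := by
  obtain ⟨F, hF, hF0, δ, hδ, h⟩ := h
  choose T hT hlim using hl
  set pt : ℝ → ℂ := fun t => (t : ℂ) * Complex.I with hpt
  have hcont : Continuous pt := by
    rw [hpt]
    fun_prop
  have hFt : AnalyticAt ℝ (fun t : ℝ => F (pt t)) t0 := by
    have h1 : AnalyticAt ℝ pt t0 := by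
      have h2 : AnalyticAt ℝ (fun t : ℝ => (t : ℂ)) t0 := Complex.ofRealCLM.analyticAt t0
      exact h2.mul analyticAt_const
    exact AnalyticAt.comp' hF.restrictScalars h1
  have hsq : AnalyticAt ℝ (fun t : ℝ => (F (pt t)).re ^ 2 + (F (pt t)).im ^ 2) t0 := by
    have h1 : AnalyticAt ℝ (fun t : ℝ => (F (pt t)).re) t0 :=
      AnalyticAt.comp' (Complex.reCLM.analyticAt _) hFt
    have h2 : AnalyticAt ℝ (fun t : ℝ => (F (pt t)).im) t0 :=
      AnalyticAt.comp' (Complex.imCLM.analyticAt _) hFt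
    exact (h1.pow 2).add (h2.pow 2)
  have hnorm : ∀ t : ℝ, (F (pt t)).re ^ 2 + (F (pt t)).im ^ 2 = ‖F (pt t)‖ ^ 2 := by
    intro t
    rw [← Complex.normSq_eq_norm_sq, Complex.normSq_apply]
    ring
  have hpos : 0 < (F (pt t0)).re ^ 2 + (F (pt t0)).im ^ 2 := by
    rw [hnorm]
    have := norm_pos_iff.2 hF0
    positivity
  refine ⟨fun t => 1 / 2 * Real.log ((F (pt t)).re ^ 2 + (F (pt t)).im ^ 2),
    analyticAt_const.mul (hsq.log hpos), ?_⟩
  have h1 : ∀ᶠ s in 𝓝 (pt t0), ContinuousAt F s ∧ F s ≠ 0 ∧ ‖s - pt t0‖ < δ := by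
    have e1 : ∀ᶠ s in 𝓝 (pt t0), ContinuousAt F s :=
      hF.eventually_analyticAt.mono fun s hs => hs.continuousAt
    have e2 : ∀ᶠ s in 𝓝 (pt t0), F s ≠ 0 := hF.continuousAt.eventually_ne hF0
    have e3 : ∀ᶠ s in 𝓝 (pt t0), ‖s - pt t0‖ < δ := by
      have : Metric.ball (pt t0) δ ∈ 𝓝 (pt t0) := Metric.ball_mem_nhds _ hδ
      filter_upwards [this] with s hs
      rwa [mem_ball_iff_norm] at hs
    filter_upwards [e1, e2, e3] with s a b c using ⟨a, b, c⟩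
  obtain ⟨δ', hδ', hball⟩ := Metric.eventually_nhds_iff.1 (hcont.continuousAt.eventually h1)
  refine ⟨δ', hδ', ?_⟩
  have hne : ∀ᵐ t : ℝ, t ≠ t0 := by
    have : volume ({t0} : Set ℝ) = 0 := measure_singleton t0
    filter_upwards [ae_not this] with t ht using ht
  have hall : ∀ᵐ t : ℝ, ∀ i, t ∉ T i := ae_all_iff.2 fun i => ae_not (hT i)
  filter_upwards [hall, hne] with t htT htne htd
  obtain ⟨a1, a2, a3⟩ := hball (y := t) (by rw [Real.dist_eq]; exact htd)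
  have hlin : pt t - pt t0 = ((t - t0 : ℝ) : ℂ) * Complex.I := by
    rw [hpt]
    push_cast
    ring
  have hev : ∀ᶠ ε : ℝ in 𝓝[>] 0, ∏ i, ‖Lz i (pt t + ε)‖ ^ x i =
      ‖pt t + ε - pt t0‖ ^ κ * ‖F (pt t + ε)‖ := by
    have c1 : Continuous fun ε : ℝ => ‖pt t + ε - pt t0‖ := by fun_prop
    have c2 : ∀ᶠ ε : ℝ in 𝓝[>] 0, ‖pt t + ε - pt t0‖ < δ := by
      refine ((c1.tendsto 0).eventually_lt_const ?_).filter_mono nhdsWithin_le_nhds
      simpa using a3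
    filter_upwards [c2, self_mem_nhdsWithin] with ε h2 h3
    refine h _ ?_ h2
    have : (0 : ℝ) < ε := h3
    simpa [hpt] using this
  have b0 : Tendsto (fun ε : ℝ => pt t + (ε : ℂ)) (𝓝[>] 0) (𝓝 (pt t)) := by
    have : Continuous fun ε : ℝ => pt t + (ε : ℂ) := by fun_prop
    have h3 := (this.tendsto 0).mono_left (nhdsWithin_le_nhds (s := Set.Ioi 0))
    simpa using h3
  have hdist : 0 < ‖pt t - pt t0‖ := by
    rw [hlin, norm_mul, Complex.norm_I, mul_one, Complex.norm_real, Real.norm_eq_abs]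
    exact abs_pos.2 (sub_ne_zero.2 htne)
  have hlim2 : Tendsto (fun ε : ℝ => ‖pt t + ε - pt t0‖ ^ κ * ‖F (pt t + ε)‖) (𝓝[>] 0)
      (𝓝 (‖pt t - pt t0‖ ^ κ * ‖F (pt t)‖)) := by
    have b1 : Tendsto (fun ε : ℝ => ‖pt t + ε - pt t0‖) (𝓝[>] 0) (𝓝 ‖pt t - pt t0‖) :=
      (b0.sub_const _).norm
    exact (b1.rpow_const (Or.inl hdist.ne')).mul (a1.tendsto.comp b0).norm
  have hlim1 : Tendsto (fun ε : ℝ => ∏ i, ‖Lz i (pt t + ε)‖ ^ x i) (𝓝[>] 0)
      (𝓝 (∏ i, ‖l i t‖ ^ x i)) :=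
    tendsto_finset_prod _ fun i _ => ((hlim i t (htT i)).2.norm).rpow_const
      (Or.inl (norm_pos_iff.2 (hlim i t (htT i)).1).ne')
  have hfin : ∏ i, ‖l i t‖ ^ x i = ‖pt t - pt t0‖ ^ κ * ‖F (pt t)‖ :=
    tendsto_nhds_unique (hlim1.congr' hev) hlim2
  have hFp : 0 < ‖F (pt t)‖ := norm_pos_iff.2 a2
  have h5 := congrArg Real.log hfin
  rw [Real.log_prod (fun i _ => (Real.rpow_pos_of_pos
      (norm_pos_iff.2 (hlim i t (htT i)).1) _).ne'), Real.log_mul
      (Real.rpow_pos_of_pos hdist _).ne' hFp.ne', Real.log_rpow hdist, hlin, norm_mul,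
      Complex.norm_I, mul_one, Complex.norm_real, Real.norm_eq_abs] at h5
  rw [hnorm, Real.log_pow]
  push_cast
  rw [← mul_assoc, one_div, inv_mul_cancel₀ (by norm_num), one_mul, ← h5]
  refine Finset.sum_congr rfl fun i _ => ?_
  rw [Real.log_rpow (norm_pos_iff.2 (hlim i t (htT i)).1)]

theorem Reg.lin {l : ι → ℝ → ℂ} {x y : ι → ℝ} {t0 κ μ : ℝ} (hx : Reg l x t0 κ)
    (hy : Reg l y t0 μ) (a b : ℝ) : Reg l (fun i => a * x i + b * y i) t0 (a * κ + b * μ) := by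
  obtain ⟨ψ, h1, δ, hδ, h2⟩ := hx
  obtain ⟨φ, g1, η, hη, g2⟩ := hy
  refine ⟨fun t => a * ψ t + b * φ t, (analyticAt_const.mul h1).add (analyticAt_const.mul g1),
    min δ η, lt_min hδ hη, ?_⟩
  filter_upwards [h2, g2] with t e1 e2 ht
  have e3 := e1 (ht.trans_le (min_le_left _ _))
  have e4 := e2 (ht.trans_le (min_le_right _ _))
  have e5 : ∑ i, (a * x i + b * y i) * Real.log ‖l i t‖ =
      a * ∑ i, x i * Real.log ‖l i t‖ + b * ∑ i, y i * Real.log ‖l i t‖ := by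
    rw [Finset.mul_sum, Finset.mul_sum, ← Finset.sum_add_distrib]
    refine Finset.sum_congr rfl fun i _ => ?_
    ring
  rw [e5, e3, e4]
  ring

theorem Reg.unique {l : ι → ℝ → ℂ} {x : ι → ℝ} {t0 κ μ : ℝ} (h1 : Reg l x t0 κ)
    (h2 : Reg l x t0 μ) : κ = μ := by
  obtain ⟨ψ, a1, δ, hδ, a2⟩ := h1
  obtain ⟨φ, b1, η, hη, b2⟩ := h2
  by_contra hne
  have hpos : 0 < |κ - μ| := abs_pos.2 (sub_ne_zero.2 hne)
  have hc : ContinuousAt (fun t => φ t - ψ t) t0 := b1.continuousAt.sub a1.continuousAt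
  set D : ℝ := |φ t0 - ψ t0| with hD
  have hev : ∀ᶠ t in 𝓝 t0, |φ t - ψ t| < D + 1 :=
    hc.abs.eventually_lt_const (by rw [hD]; linarith)
  obtain ⟨ε, hε, hb⟩ := Metric.eventually_nhds_iff.1 hev
  set e : ℝ := min (min δ η) (min ε (Real.exp (-(D + 2) / |κ - μ|))) with he
  have he0 : 0 < e := lt_min (lt_min hδ hη) (lt_min hε (Real.exp_pos _))
  obtain ⟨t, ht1, ht2, ht3, ht4⟩ := exists_of_ae (a2.and b2) (a := t0) (b := t0 + e) (by linarith)
  have habs : |t - t0| < e := by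
    rw [abs_of_pos (by linarith)]
    linarith
  have c1 := ht3 (habs.trans_le ((min_le_left _ _).trans (min_le_left _ _)))
  have c2 := ht4 (habs.trans_le ((min_le_left _ _).trans (min_le_right _ _)))
  have c3 := hb (y := t) (by
    rw [Real.dist_eq]
    exact habs.trans_le ((min_le_right _ _).trans (min_le_left _ _)))
  have c4 : |t - t0| < Real.exp (-(D + 2) / |κ - μ|) :=
    habs.trans_le ((min_le_right _ _).trans (min_le_right _ _))
  have h0 : 0 < |t - t0| := by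
    rw [abs_of_pos (by linarith)]
    linarith
  have c5 : Real.log |t - t0| < -(D + 2) / |κ - μ| := by
    rw [Real.log_lt_iff_lt_exp h0]
    exact c4
  rw [lt_div_iff₀ hpos] at c5
  have c6 : (κ - μ) * Real.log |t - t0| = φ t - ψ t := by
    rw [c1] at c2
    linarith
  set y : ℝ := Real.log |t - t0| with hy
  have c7 : |κ - μ| * |y| < D + 1 := by
    rw [← abs_mul, c6]
    exact c3
  have c8 := neg_abs_le y
  nlinarith

end Pool.Agent.Q255.SG
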