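import Pool.Agent.Q255.SG.Bessel
import Pool.Agent.Q255.SG.Multi
import Pool.Agent.Q255.SG.Hull3

/-! # Orders on the edge over the rationals -/

set_option autoImplicit false

namespace Pool.Agent.Q255.SG

open NumberField IsDedekindDomain Finset Pool.Agent.H921R2.TatePole
  Pool.Agent.W350.EdgeEC Pool.Agent.W350.EdgeNF Pool.Agent.W350.EdgeV MeasureTheory Filter Topology
  Pool.Agent.Q255.SA

variable {ι : Type} [Fintype ι] {n : ι → ℕ} {ws : ι → ℝ} {αs : (i : ι) → ℕ → Fin (n i) → ℂ}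

/-- the functions at the points over the edge -/
noncomputable def Lz (ws : ι → ℝ) (αs : (i : ι) → ℕ → Fin (n i) → ℂ) (i : ι) (z : ℂ) : ℂ :=
  LF (αs i) 0 (((ws i / 2 + 1 : ℝ) : ℂ) + z)

theorem tw_zero {N : ℕ} (α : ℕ → Fin N → ℂ) (p : ℕ) (j : Fin N) : tw α 0 p j = α p j := by
  unfold tw
  simp

theorem Lz_exp (hα : ∀ i, Bd (ws i) (αs i)) (i : ι) {z : ℂ} (hz : 0 < z.re) :
    Lz ws αs i z = Complex.exp (deriv (PG (ws i) (qk (αs i))) z) := by
  have h1 := isL_tprod (BdK_qk (hα i)) (((ws i / 2 + 1 : ℝ) : ℂ) + z) (by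
    rw [Complex.add_re, Complex.ofReal_re]
    linarith)
  rw [add_sub_cancel_left] at h1
  rw [← h1]
  simp only []
  rw [tprod_qk]
  unfold Lz LF
  simp only [tw_zero]

theorem bdy_of (hα : ∀ i, Bd (ws i) (αs i)) {l : ι → ℝ → ℂ}
    (hl : ∀ i, Hl (ws i) (αs i) 0 (l i)) :
    Bdy ws (fun i => qk (αs i)) (fun i => BdK_qk (hα i)) l := by
  intro i
  obtain ⟨T, hT, h⟩ := hl i
  refine ⟨T, hT, fun t ht => ?_⟩
  obtain ⟨h1, h2⟩ := h t ht
  refine ⟨h1, h2.congr fun x => ?_⟩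
  rw [PP_qk (hα i), ← RP_li (hα i), zero_add]

theorem regN_of_reg (hα : ∀ i, Bd (ws i) (αs i)) {l : ι → ℝ → ℂ}
    (hl : ∀ i, Hl (ws i) (αs i) 0 (l i)) {x : ι → ℝ} {t0 κ : ℝ} (h : Reg l x t0 κ) :
    RegN (Lz ws αs) x t0 κ :=
  regN_of_regL (fun i _ hz => Lz_exp hα i hz) (fwdm (fun i => BdK_qk (hα i)) (bdy_of hα hl) h)

theorem reg_iff (hα : ∀ i, Bd (ws i) (αs i)) {l : ι → ℝ → ℂ}
    (hl : ∀ i, Hl (ws i) (αs i) 0 (l i)) (hor : HorLz (Lz ws αs) l) {x : ι → ℝ} {t0 κ : ℝ} :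
    Reg l x t0 κ ↔ RegN (Lz ws αs) x t0 κ :=
  ⟨regN_of_reg hα hl, bwdm hor⟩

/-! ## Integral exponents -/

/-- the product of the integral powers -/
noncomputable def prodz (ws : ι → ℝ) (αs : (i : ι) → ℕ → Fin (n i) → ℂ) (x : ι → ℤ) (z : ℂ) : ℂ :=
  ∏ i, Lz ws αs i z ^ x i

theorem prodz_exp (hα : ∀ i, Bd (ws i) (αs i)) (x : ι → ℤ) {z : ℂ} (hz : 0 < z.re) :
    prodz ws αs x z = Complex.exp (LL ws (fun i => qk (αs i)) (fun i => (x i : ℝ)) z) := by
  unfold prodz LL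
  rw [Complex.exp_sum]
  refine Finset.prod_congr rfl fun i _ => ?_
  rw [Lz_exp hα i hz, ← Complex.exp_int_mul]
  push_cast
  rfl

theorem cont_of_reg (hα : ∀ i, Bd (ws i) (αs i)) {l : ι → ℝ → ℂ}
    (hl : ∀ i, Hl (ws i) (αs i) 0 (l i)) {x : ι → ℤ} {t0 : ℝ} {m : ℤ}
    (h : Reg l (fun i => (x i : ℝ)) t0 m) :
    ∃ F : ℂ → ℂ, ContAt (prodz ws αs x) ((t0 : ℂ) * Complex.I) F ∧
      meromorphicOrderAt F ((t0 : ℂ) * Complex.I) = m := by
  obtain ⟨F, hF1, hF2, δ', hδ', hF3⟩ := fwdm (fun i => BdK_qk (hα i)) (bdy_of hα hl) h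
  set z0 : ℂ := (t0 : ℂ) * Complex.I with hz0
  have hre : z0.re = 0 := by simp [hz0]
  have hmer : MeromorphicAt (fun s : ℂ => (s - z0) ^ m * F s) z0 :=
    (((MeromorphicAt.id _).sub (MeromorphicAt.const _ _)).zpow m).mul hF1.meromorphicAt
  refine ⟨fun s => (s - z0) ^ m * F s, ⟨hmer, δ', hδ', fun s hs hsd => ?_⟩, ?_⟩
  · rw [hre] at hs
    rw [prodz_exp hα x hs, hF3 s hs hsd, cpow_int]
  · refine (meromorphicOrderAt_eq_int_iff hmer).2 ⟨F, hF1, hF2, ?_⟩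
    exact Filter.Eventually.of_forall fun t => rfl

theorem reg_of_cont (hα : ∀ i, Bd (ws i) (αs i)) {l : ι → ℝ → ℂ}
    (hor : HorLz (Lz ws αs) l) {x : ι → ℤ} {t0 : ℝ} {F : ℂ → ℂ}
    (hF : ContAt (prodz ws αs x) ((t0 : ℂ) * Complex.I) F) :
    ∃ m : ℤ, meromorphicOrderAt F ((t0 : ℂ) * Complex.I) = m ∧
      Reg l (fun i => (x i : ℝ)) t0 m := by
  obtain ⟨hF1, δ, hδ, hF2⟩ := hF
  set z0 : ℂ := (t0 : ℂ) * Complex.I with hz0
  have hre : z0.re = 0 := by simp [hz0]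
  rw [hre] at hF2
  have hm : meromorphicOrderAt F z0 ≠ ⊤ := by
    intro htop
    rw [meromorphicOrderAt_eq_top_iff] at htop
    rw [eventually_nhdsWithin_iff] at htop
    obtain ⟨η, hη, hb⟩ := Metric.eventually_nhds_iff.1 htop
    set ε : ℝ := min δ η / 2 with hε
    have hε0 : 0 < ε := by positivity
    have hεδ : ε < δ := lt_of_lt_of_le (half_lt_self (by positivity)) (min_le_left _ _)
    have hεη : ε < η := lt_of_lt_of_le (half_lt_self (by positivity)) (min_le_right _ _)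
    have hn : ‖z0 + (ε : ℂ) - z0‖ = ε := by
      rw [add_sub_cancel_left, Complex.norm_real, Real.norm_of_nonneg hε0.le]
    have hre' : 0 < (z0 + (ε : ℂ)).re := by
      rw [Complex.add_re, hre, Complex.ofReal_re]
      linarith
    have h1 := hF2 (z0 + ε) hre' (by rw [hn]; exact hεδ)
    have h2 := hb (y := z0 + ε) (by rw [dist_eq_norm, hn]; exact hεη) (by
      simp only [Set.mem_compl_iff, Set.mem_singleton_iff]
      intro h3
      rw [h3, sub_self, norm_zero] at hn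
      linarith)
    rw [h2, prodz_exp hα x hre'] at h1
    exact Complex.exp_ne_zero _ h1
  obtain ⟨m, hm2⟩ := WithTop.ne_top_iff_exists.1 hm
  refine ⟨m, hm2.symm, bwdm hor ?_⟩
  obtain ⟨g, hg1, hg2, hg3⟩ := (meromorphicOrderAt_eq_int_iff hF1).1 hm2.symm
  rw [eventually_nhdsWithin_iff] at hg3
  obtain ⟨η, hη, hb⟩ := Metric.eventually_nhds_iff.1 hg3
  have hmin : 0 < min δ η := lt_min hδ hη
  refine ⟨g, hg1, hg2, min δ η, hmin, fun z hz hzd => ?_⟩
  have e1 : ∏ i, ‖Lz ws αs i z‖ ^ ((x i : ℤ) : ℝ) = ‖prodz ws αs x z‖ := by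
    unfold prodz
    rw [norm_prod]
    refine Finset.prod_congr rfl fun i _ => ?_
    rw [norm_zpow, Real.rpow_intCast]
  have e2 : F z = (z - z0) ^ m • g z := by
    refine hb (by rw [dist_eq_norm]; exact hzd.trans_le (min_le_right _ _)) ?_
    simp only [Set.mem_compl_iff, Set.mem_singleton_iff]
    rintro rfl
    rw [hre] at hz
    exact lt_irrefl _ hz
  rw [e1, hF2 z hz (hzd.trans_le (min_le_left _ _)), e2, smul_eq_mul, norm_mul, norm_zpow,
    Real.rpow_intCast]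

/-! ## Bessel's inequality -/

/-- the coefficients of the combination -/
noncomputable def cb (ws : ι → ℝ) (αs : (i : ι) → ℕ → Fin (n i) → ℂ) (x : ι → ℝ) (p : ℕ) : ℂ :=
  if p.Prime then ∑ i, (x i : ℂ) * ((∑ j, αs i p j) * (((p : ℝ) ^ (-(ws i / 2)) : ℝ) : ℂ)) else 0

theorem norm_cb (hα : ∀ i, Bd (ws i) (αs i)) (x : ι → ℝ) (p : ℕ) :
    ‖cb ws αs x p‖ ≤ ∑ i, |x i| * n i := by
  unfold cb
  split_ifs with hp
  · have h0 : (0 : ℝ) < p := by exact_mod_cast hp.pos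
    refine norm_sum_le_of_le _ fun i _ => ?_
    rw [norm_mul, Complex.norm_real, Real.norm_eq_abs, norm_mul, Complex.norm_real,
      Real.norm_of_nonneg (by positivity)]
    refine mul_le_mul_of_nonneg_left ?_ (abs_nonneg _)
    calc ‖∑ j, αs i p j‖ * (p : ℝ) ^ (-(ws i / 2)) ≤
        (∑ _j : Fin (n i), (p : ℝ) ^ (ws i / 2)) * (p : ℝ) ^ (-(ws i / 2)) := by
          gcongr
          exact norm_sum_le_of_le _ fun j _ => hα i p hp j
      _ = n i := by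
          rw [Finset.sum_const, Finset.card_univ, Fintype.card_fin, nsmul_eq_mul, mul_assoc,
            ← Real.rpow_add h0]
          simp
  · rw [norm_zero]
    positivity

theorem cb_zero (x : ι → ℝ) {p : ℕ} (hp : ¬ p.Prime) : cb ws αs x p = 0 := if_neg hp

theorem SS_comb (hα : ∀ i, Bd (ws i) (αs i)) (x : ι → ℝ) {h : ℝ} (hh : 0 < h) (t : ℝ) :
    ∑ i, x i * (SS (αs i) (sh (ws i) h t) 0).re = (∑' p, cb ws αs x p * zt h t p).re := by
  have h1 : ∀ i, HasSum (fun p : ℕ => (x i : ℂ) * av (αs i) (sh (ws i) h t) p)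
      ((x i : ℂ) * SS (αs i) (sh (ws i) h t) 0) := by
    intro i
    have h2 := (LF_exp (hα i) 0 (s := sh (ws i) h t) (by rw [sh_re]; linarith)).1
    have h3 : SS (αs i) (sh (ws i) h t) 0 = ∑' p : ℕ, av (αs i) (sh (ws i) h t) p := by
      unfold SS
      simp
    rw [h3]
    refine Summable.hasSum (Summable.congr h2 fun p => ?_) |>.mul_left _
    simp
  have h2 := hasSum_sum (s := Finset.univ) fun i _ => h1 i
  have h3 : ∀ p : ℕ, ∑ i, (x i : ℂ) * av (αs i) (sh (ws i) h t) p =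
      cb ws αs x p * zt h t p := by
    intro p
    unfold cb av
    by_cases hp : p.Prime
    · simp only [if_pos hp]
      rw [Finset.sum_mul]
      refine Finset.sum_congr rfl fun i _ => ?_
      have hp0 : (p : ℂ) ≠ 0 := by exact_mod_cast hp.ne_zero
      have hp1 : (0 : ℝ) ≤ p := Nat.cast_nonneg p
      have e1 : (p : ℂ) ^ (-sh (ws i) h t) =
          (((p : ℝ) ^ (-(ws i / 2)) : ℝ) : ℂ) * zt h t p := by
        unfold zt
        rw [Complex.ofReal_cpow hp1, Complex.ofReal_natCast, ← Complex.cpow_add _ _ hp0]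
        congr 1
        unfold sh
        push_cast
        ring
      rw [e1]
      ring
    · simp only [if_neg hp]
      simp
  simp only [h3] at h2
  rw [h2.tsum_eq, Complex.re_sum]
  refine Finset.sum_congr rfl fun i _ => ?_
  rw [Complex.re_ofReal_mul]

theorem corr_of_reg (hα : ∀ i, Bd (ws i) (αs i)) {x : ι → ℝ} {t0 κ : ℝ}
    (h : RegN (Lz ws αs) x t0 κ) : ∃ C : ℝ, ∃ δ : ℝ, 0 < δ ∧ ∀ h : ℝ, 0 < h → h < δ →
      |(∑' p, cb ws αs x p * zt h t0 p).re + κ * Real.log (1 / h)| ≤ C := by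
  obtain ⟨F, hF1, hF2, δ, hδ, h⟩ := h
  set z0 : ℂ := (t0 : ℂ) * Complex.I with hz0
  have hre : z0.re = 0 := by simp [hz0]
  have hlim : Tendsto (fun h : ℝ => Real.log ‖F (z0 + h)‖) (𝓝[>] 0) (𝓝 (Real.log ‖F z0‖)) := by
    have b0 : Tendsto (fun ε : ℝ => z0 + (ε : ℂ)) (𝓝[>] 0) (𝓝 z0) := by
      have : Continuous fun ε : ℝ => z0 + (ε : ℂ) := by fun_prop
      have h3 := (this.tendsto 0).mono_left (nhdsWithin_le_nhds (s := Set.Ioi 0))
      simpa using h3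
    exact ((hF1.continuousAt.tendsto.comp b0).norm).log (norm_pos_iff.2 hF2).ne'
  set c : ℝ := Real.log ‖F z0‖ with hc
  have hne : ∀ᶠ h : ℝ in 𝓝[>] 0, F (z0 + (h : ℂ)) ≠ 0 := by
    have b0 : Tendsto (fun ε : ℝ => z0 + (ε : ℂ)) (𝓝[>] 0) (𝓝 z0) := by
      have : Continuous fun ε : ℝ => z0 + (ε : ℂ) := by fun_prop
      have h3 := (this.tendsto 0).mono_left (nhdsWithin_le_nhds (s := Set.Ioi 0))
      simpa using h3
    exact (hF1.continuousAt.tendsto.comp b0).eventually_ne hF2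
  have h2 : ∀ᶠ h : ℝ in 𝓝[>] 0, F (z0 + (h : ℂ)) ≠ 0 ∧ c - 1 < Real.log ‖F (z0 + h)‖ ∧
      Real.log ‖F (z0 + h)‖ < c + 1 :=
    hne.and ((hlim.eventually_const_lt (by linarith)).and
      (hlim.eventually_lt_const (by linarith)))
  obtain ⟨δ', hδ', hb⟩ := mem_nhdsGT_iff_exists_Ioo_subset.1 h2
  refine ⟨(∑ i, |x i| * CR (n i)) + (|c| + 1), min δ δ', lt_min hδ hδ', fun h' h0 hlt => ?_⟩
  obtain ⟨a0, a1, a2⟩ := hb ⟨h0, hlt.trans_le (min_le_right _ _)⟩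
  have hn : ‖z0 + (h' : ℂ) - z0‖ = h' := by
    rw [add_sub_cancel_left, Complex.norm_real, Real.norm_of_nonneg h0.le]
  have e1 := h (z0 + h') (by rw [Complex.add_re, hre, Complex.ofReal_re]; linarith)
    (by rw [hn]; exact hlt.trans_le (min_le_left _ _))
  rw [hn] at e1
  have esh : ∀ i, Lz ws αs i (z0 + h') = LF (αs i) 0 (sh (ws i) h' t0) := by
    intro i
    unfold Lz sh
    congr 1
    rw [hz0]
    push_cast
    ring
  have hs : ∀ i, ws i / 2 + 1 < (sh (ws i) h' t0).re := fun i => by rw [sh_re]; linarith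
  have hlog := fun i => log_LF (hα i) 0 (hs i)
  have e2 := congrArg Real.log e1
  rw [Real.log_mul (Real.rpow_pos_of_pos h0 _).ne' (norm_pos_iff.2 a0).ne', Real.log_rpow h0,
    Real.log_prod (fun i _ => (Real.rpow_pos_of_pos (norm_pos_iff.2 (by
      rw [esh]; exact (hlog i).1)) _).ne')] at e2
  have e3 : ∑ i, Real.log (‖Lz ws αs i (z0 + h')‖ ^ x i) =
      ∑ i, x i * Real.log ‖LF (αs i) 0 (sh (ws i) h' t0)‖ := by
    refine Finset.sum_congr rfl fun i _ => ?_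
    rw [Real.log_rpow (norm_pos_iff.2 (by rw [esh]; exact (hlog i).1)), esh]
  rw [e3] at e2
  have e4 : |∑ i, x i * Real.log ‖LF (αs i) 0 (sh (ws i) h' t0)‖ -
      ∑ i, x i * (SS (αs i) (sh (ws i) h' t0) 0).re| ≤ ∑ i, |x i| * CR (n i) := by
    rw [← Finset.sum_sub_distrib]
    refine (Finset.abs_sum_le_sum_abs _ _).trans (Finset.sum_le_sum fun i _ => ?_)
    rw [← mul_sub, abs_mul]
    exact mul_le_mul_of_nonneg_left (hlog i).2 (abs_nonneg _)
  rw [SS_comb hα x h0, e2] at e4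
  rw [one_div, Real.log_inv]
  have h4 := neg_abs_le c
  have h5 := le_abs_self c
  rw [abs_le] at e4 ⊢
  constructor <;> linarith [e4.1, e4.2]


theorem sum_cb_le (hα : ∀ i, Bd (ws i) (αs i)) (x : ι → ℝ) {h : ℝ} (hh : 0 < h) :
    ∑' p, ‖cb ws αs x p‖ ^ 2 * (p : ℝ) ^ (-(1 + h)) ≤
      (∑ i, |x i| * n i) ^ 2 * (PZ h 0).re := by
  have h1 := (Complex.hasSum_re (PZ_hasSum hh 0)).mul_left ((∑ i, |x i| * (n i : ℝ)) ^ 2)
  have h2 : ∀ p : ℕ, ‖cb ws αs x p‖ ^ 2 * (p : ℝ) ^ (-(1 + h)) ≤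
      (∑ i, |x i| * (n i : ℝ)) ^ 2 * (if p.Prime then zt h 0 p else 0).re := by
    intro p
    by_cases hp : p.Prime
    · rw [if_pos hp]
      have e1 : (zt h 0 p).re = (p : ℝ) ^ (-(1 + h)) := by
        rw [zt_eq h 0 hp.pos, Complex.re_ofReal_mul]
        unfold uu
        simp
      rw [e1]
      gcongr
      exact norm_cb hα x p
    · rw [cb_zero x hp, if_neg hp]
      simp
  have h3 : Summable fun p : ℕ => ‖cb ws αs x p‖ ^ 2 * (p : ℝ) ^ (-(1 + h)) :=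
    Summable.of_nonneg_of_le (fun p => by positivity) h2 h1.summable
  exact hasSum_le h2 h3.hasSum h1

theorem bessel_reg (hα : ∀ i, Bd (ws i) (αs i)) {τ : Type} [Fintype τ] {t : τ → ℝ}
    (ht : Function.Injective t) (κ : τ → ℝ) {x : ι → ℝ}
    (h : ∀ j, RegN (Lz ws αs) x (t j) (κ j)) :
    (∃ C : ℝ, ∀ h : ℝ, 0 < h → h ≤ 1 → (∑ j, κ j ^ 2) * Real.log (1 / h) ≤
      ∑' p, ‖cb ws αs x p‖ ^ 2 * (p : ℝ) ^ (-(1 + h)) + C) ∧
    ∑ j, κ j ^ 2 ≤ (∑ i, |x i| * n i) ^ 2 := by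
  obtain ⟨C, δ, hδ, hC⟩ := bessel ht κ (norm_cb hα x) (fun p hp => cb_zero x hp)
    fun j => corr_of_reg hα (h j)
  have hA : 0 ≤ ∑ j, κ j ^ 2 := Finset.sum_nonneg fun j _ => sq_nonneg _
  constructor
  · refine ⟨|C| + (∑ j, κ j ^ 2) * |Real.log (1 / δ)|, fun h' h0 h1 => ?_⟩
    have hS : 0 ≤ ∑' p, ‖cb ws αs x p‖ ^ 2 * (p : ℝ) ^ (-(1 + h')) :=
      tsum_nonneg fun p => by positivity
    rcases lt_or_ge h' δ with hlt | hge
    · have := hC h' h0 hlt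
      have e1 := le_abs_self C
      have e2 : 0 ≤ (∑ j, κ j ^ 2) * |Real.log (1 / δ)| := by positivity
      linarith
    · have e1 : Real.log (1 / h') ≤ |Real.log (1 / δ)| := by
        refine le_trans ?_ (le_abs_self _)
        exact Real.log_le_log (by positivity) (one_div_le_one_div_of_le hδ hge)
      have e2 := mul_le_mul_of_nonneg_left e1 hA
      have e3 := abs_nonneg C
      linarith
  · by_contra hlt
    rw [not_le] at hlt
    obtain ⟨C0, δ0, hδ0, hC0⟩ := PZ_zero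
    set A : ℝ := ∑ j, κ j ^ 2 with hAdef
    set M : ℝ := (∑ i, |x i| * (n i : ℝ)) ^ 2 with hM
    have hM0 : 0 ≤ M := sq_nonneg _
    have key : ∀ h' : ℝ, 0 < h' → h' < δ → h' < δ0 →
        (A - M) * Real.log (1 / h') ≤ M * C0 + C := by
      intro h' h0 h1 h2
      have e1 := hC h' h0 h1
      have e2 := sum_cb_le hα x h0
      have e3 := (abs_le.1 (hC0 h' h0 h2)).2
      have e4 := mul_le_mul_of_nonneg_left e3 hM0
      nlinarith
    have hlim : Tendsto (fun h : ℝ => (A - M) * Real.log (1 / h)) (𝓝[>] 0) atTop := by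
      refine Tendsto.const_mul_atTop (by linarith) ?_
      have : Tendsto (fun h : ℝ => 1 / h) (𝓝[>] 0) atTop := by
        simpa using tendsto_inv_nhdsGT_zero (𝕜 := ℝ)
      exact Real.tendsto_log_atTop.comp this
    have hev1 : ∀ᶠ h' : ℝ in 𝓝[>] 0, h' < δ := nhdsWithin_le_nhds (eventually_lt_nhds hδ)
    have hev2 : ∀ᶠ h' : ℝ in 𝓝[>] 0, h' < δ0 := nhdsWithin_le_nhds (eventually_lt_nhds hδ0)
    have hev : ∀ᶠ h' : ℝ in 𝓝[>] 0, M * C0 + C < (A - M) * Real.log (1 / h') ∧ 0 < h' ∧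
        h' < δ ∧ h' < δ0 :=
      (hlim.eventually_gt_atTop _).and ((eventually_mem_nhdsWithin).and (hev1.and hev2))
    obtain ⟨h', a1, a2, a3, a4⟩ := hev.exists
    exact absurd (key h' a2 a3 a4) (not_le.2 a1)

end Pool.Agent.Q255.SG
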