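import Pool.Agent.Q255.SG.Rand

/-! # The Bohr-Jessen law on the edge -/

set_option autoImplicit false

namespace Pool.Agent.Q255.SG

open Finset MeasureTheory Filter Topology Pool.Agent.Q255.SA Pool.Agent.TH109.CG

/-- Uniform bounds for the powers of the partial products. -/
theorem ap_int {κ M q0 : ℝ} (hκ : 0 ≤ κ) (hM : 0 ≤ M) (h0 : 0 ≤ q0)
    (h1 : κ * q0 < 1) : ∃ C : ℝ, 0 < C ∧ ∀ (D : AD κ M) (q : ℝ), |q| ≤ q0 → ∀ z : ℕ, 3 ≤ z →
      ∀ a : ℝ, ∫ t in a..(a + 1), ‖AP D z t‖ ^ q ≤ C := by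
  obtain ⟨C, hC, hcore⟩ := core_bd (κ := κ * (q0 / 2)) (M := q0 / 2 * M) (by positivity)
    (by linarith)
  refine ⟨C, hC, fun D q hq z hz a => ?_⟩
  have hq2 : |q / 2| ≤ q0 / 2 := by
    rw [abs_div, abs_two]
    linarith
  have hrr : ‖((q / 2 : ℝ) : ℂ)‖ ≤ q0 / 2 := by rwa [Complex.norm_real, Real.norm_eq_abs]
  have hsq : ∀ u : ℝ, 0 < u → (u ^ (q / 2)) ^ 2 = u ^ q := by
    intro u hu
    rw [← Real.rpow_natCast, ← Real.rpow_mul hu.le]
    congr 1
    push_cast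
    ring
  have h2 := hcore (fun k => ((q / 2 : ℝ) : ℂ) * D.c k) (fun k hk => by
    rw [norm_mul, mul_comm κ]
    exact mul_le_mul hrr (D.hc k hk) (norm_nonneg _) (by linarith)) (fun k hk => by
    rw [D.hc0 k hk, mul_zero]) (fun y t => ((q / 2 : ℝ) : ℂ) * D.H y t)
    (fun y => continuous_const.mul (D.hcont y)) (fun y t => by
      rw [norm_mul]
      exact mul_le_mul hrr (D.hb y t) (norm_nonneg _) (by linarith)) z a hz
  simp_rw [← AP_pow] at h2
  have e : ∀ t, (‖AP D z t‖ ^ (q / 2)) ^ 2 = ‖AP D z t‖ ^ q := fun t =>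
    hsq _ (norm_pos_iff.2 (AP_ne D z t))
  simp only [e] at h2
  exact h2

/-- Mean square of the tails of the logarithm. -/
theorem al_key {κ M : ℝ} (hκ : 0 ≤ κ) (hM : 0 ≤ M) : ∃ C : ℝ, 0 < C ∧
    ∀ (D : AD κ M) (x z : ℕ), 3 ≤ x → x ≤ z → ∀ a : ℝ,
      ∫ t in a..(a + 1), ‖AL D z t - AL D x t‖ ^ 2 ≤ C / Real.log x := by
  obtain ⟨C1, hC1, htail⟩ := tail_CS
  refine ⟨2 * (C1 * κ ^ 2) + 2 * (M ^ 2 * 4) + 1, by positivity, fun D x z hx hz a => ?_⟩
  have hx3 : (3 : ℝ) ≤ x := by exact_mod_cast hx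
  have hx0 : (0 : ℝ) < x := by linarith
  have hlx : 0 < Real.log x := Real.log_pos (by linarith)
  have hx4 : (x : ℝ) ^ (-(1 / 4) : ℝ) ≤ 4 / Real.log x := by
    have := x_small (κ := 0) hx le_rfl
    rw [mul_zero, sub_zero, Real.rpow_neg_one, ← div_eq_mul_inv] at this
    exact this
  have c1 := AL_continuous D z
  have c2 := AL_continuous D x
  have c3 := CS_continuous D.c x z
  have hpt : ∀ t : ℝ, ‖AL D z t - AL D x t‖ ^ 2 ≤
      2 * ‖CS D.c x z t‖ ^ 2 + 2 * (M ^ 2 * (x : ℝ) ^ (-(1 / 4) : ℝ)) := by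
    intro t
    have e1 : AL D z t - AL D x t = CS D.c x z t + (D.H z t - D.H x t) := by
      unfold AL
      rw [← CS_add D.c t (Nat.zero_le x) hz]
      ring
    have h3 := D.hd x z t (by omega) hz
    have h4 : ‖AL D z t - AL D x t‖ ≤ ‖CS D.c x z t‖ + M * (x : ℝ) ^ (-(1 / 8) : ℝ) := by
      rw [e1]
      exact (norm_add_le _ _).trans (add_le_add le_rfl h3)
    have h5 : (M * (x : ℝ) ^ (-(1 / 8) : ℝ)) ^ 2 = M ^ 2 * (x : ℝ) ^ (-(1 / 4) : ℝ) := by
      rw [mul_pow, ← Real.rpow_natCast ((x : ℝ) ^ (-(1 / 8) : ℝ)), ← Real.rpow_mul hx0.le]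
      congr 2
      norm_num
    rw [← h5]
    have h6 := pow_le_pow_left₀ (norm_nonneg _) h4 2
    nlinarith [sq_nonneg (‖CS D.c x z t‖ - M * (x : ℝ) ^ (-(1 / 8) : ℝ))]
  have h2 : ∫ t in a..(a + 1), ‖AL D z t - AL D x t‖ ^ 2 ≤
      ∫ t in a..(a + 1), (2 * ‖CS D.c x z t‖ ^ 2 +
        2 * (M ^ 2 * (x : ℝ) ^ (-(1 / 4) : ℝ))) := by
    refine intervalIntegral.integral_mono_on (by linarith) ?_ ?_ fun t _ => hpt t
    · apply Continuous.intervalIntegrable
      exact (c1.sub c2).norm.pow 2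
    · apply Continuous.intervalIntegrable
      fun_prop
  refine h2.trans ?_
  rw [intervalIntegral.integral_add (by apply Continuous.intervalIntegrable; fun_prop)
    (by apply Continuous.intervalIntegrable; fun_prop), intervalIntegral.integral_const_mul,
    intervalIntegral.integral_const]
  have h3 := htail κ D.c hκ D.hc D.hc0 x z a hx hz
  have e3 : a + 1 - a = 1 := by ring
  rw [e3, one_smul]
  have h4 : M ^ 2 * (x : ℝ) ^ (-(1 / 4) : ℝ) ≤ M ^ 2 * (4 / Real.log x) := by gcongr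
  have h5 : (2 * (C1 * κ ^ 2) + 2 * (M ^ 2 * 4) + 1) / Real.log x =
      2 * (C1 * κ ^ 2 / Real.log x) + 2 * (M ^ 2 * (4 / Real.log x)) + 1 / Real.log x := by
    ring
  have h6 : 0 < 1 / Real.log x := by positivity
  rw [h5]
  linarith

theorem dd_cont {P Q : ℝ → ℂ} (hP : Continuous P) (hQ : Continuous Q) (hQ0 : ∀ t, Q t ≠ 0) :
    Continuous fun t => dd (P t) (Q t) := by
  unfold dd
  exact continuous_const.min ((hP.div hQ hQ0).sub continuous_const).norm

/-- Distance of the partial products in the mean. -/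
theorem dd_key {κ M : ℝ} (hκ : 0 ≤ κ) (hM : 0 ≤ M) : ∃ C : ℝ, 0 < C ∧
    ∀ (D : AD κ M) (x z : ℕ), 3 ≤ x → x ≤ z → ∀ a : ℝ,
      ∫ t in a..(a + 1), dd (AP D z t) (AP D x t) ^ 2 ≤ C / Real.log x := by
  obtain ⟨C, hC, h⟩ := al_key hκ hM
  refine ⟨4 * C, by positivity, fun D x z hx hz a => ?_⟩
  have c1 := AL_continuous D z
  have c2 := AL_continuous D x
  have h2 : ∫ t in a..(a + 1), dd (AP D z t) (AP D x t) ^ 2 ≤
      ∫ t in a..(a + 1), 4 * ‖AL D z t - AL D x t‖ ^ 2 := by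
    refine intervalIntegral.integral_mono_on (by linarith) ?_ ?_ fun t _ => ?_
    · apply Continuous.intervalIntegrable
      exact (dd_cont (AP_continuous D z) (AP_continuous D x) (AP_ne D x)).pow 2
    · apply Continuous.intervalIntegrable
      exact continuous_const.mul ((c1.sub c2).norm.pow 2)
    · have h3 := dd_exp (AL D z t) (AL D x t)
      have h4 := pow_le_pow_left₀ (dd_nonneg _ _) h3 2
      unfold AP
      calc _ ≤ _ := h4
        _ = _ := by ring
  rw [intervalIntegral.integral_const_mul] at h2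
  have := h D x z hx hz a
  calc _ ≤ _ := h2
    _ ≤ 4 * (C / Real.log x) := by gcongr
    _ = _ := by ring

/-- Distance of the boundary function from the partial products in the mean. -/
theorem dd_lim {κ M : ℝ} (hκ : 0 ≤ κ) (hM : 0 ≤ M) : ∃ C : ℝ, 0 < C ∧
    ∀ (D : AD κ M) (T : Set ℝ), volume T = 0 → ∀ l : ℝ → ℂ, Lim (AP D) T l →
    ∀ x : ℕ, 3 ≤ x → ∀ a : ℝ,
      ∫⁻ t in Set.Icc a (a + 1), ENNReal.ofReal (dd (l t) (AP D x t) ^ 2) ≤
        ENNReal.ofReal (C / Real.log x) := by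
  obtain ⟨C, hC, h⟩ := dd_key hκ hM
  refine ⟨C, hC, fun D T hT l hl x hx a => ?_⟩
  have h9 := fatou (f := fun z t => dd (AP D z t) (AP D x t))
    (g := fun t => dd (l t) (AP D x t)) (h := fun _ => 0)
    (fun z => dd_cont (AP_continuous D z) (AP_continuous D x) (AP_ne D x)) hT
    (fun t ht => by
      unfold dd
      refine Tendsto.min tendsto_const_nhds (Tendsto.norm ?_)
      exact ((hl t ht).2.div_const _).sub_const 1) continuous_const
    (fun z hz => by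
      simp only [sub_zero]
      exact h D x z hx hz a)
  simpa using h9

variable {N : ℕ} {w : ℝ}

theorem primesBelow_prime (x : ℕ) : ∀ p ∈ Nat.primesBelow x, p.Prime := fun _ hp =>
  Nat.prime_of_mem_primesBelow hp

/-- The moments of the random partial products. -/
theorem rp_int (N : ℕ) {q0 : ℝ} (h0 : 0 ≤ q0) (h1 : (N : ℝ) * q0 < 1) : ∃ C : ℝ, 0 < C ∧
    ∀ (w : ℝ) (α : ℕ → Fin N → ℂ), Bd w α → ∀ (q : ℝ), |q| ≤ q0 → ∀ z : ℕ, 3 ≤ z →
      ∫ θ, ‖RP w α z θ‖ ^ q ∂Pr ≤ C := by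
  obtain ⟨C, hC, h⟩ := ap_int (κ := N) (M := N * S0) (Nat.cast_nonneg N)
    (mul_nonneg (Nat.cast_nonneg N) S0_nonneg) h0 h1
  refine ⟨C, hC, fun w α hα q hq z hz => ?_⟩
  refine transfer (G := fun θ => ‖RP w α z θ‖ ^ q)
    ((RP_continuous hα z).norm.rpow_const fun θ => Or.inl (norm_ne_zero_iff.2 (RP_ne α z θ)))
    (Nat.primesBelow z) (primesBelow_prime z) (fun θ θ' hθ => ?_) ?_ fun a => ?_
  · unfold RP
    rw [RL_dep α le_rfl hθ]
  · simp only [RP_li hα]
    exact AP_pow_continuous _ z q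
  · simp only [RP_li hα]
    exact h _ q hq z hz a

/-- The logarithms of the random partial products are a Cauchy sequence. -/
theorem rl_key (N : ℕ) : ∃ C : ℝ, 0 < C ∧
    ∀ (w : ℝ) (α : ℕ → Fin N → ℂ), Bd w α → ∀ (x z : ℕ), 3 ≤ x → x ≤ z →
      ∫ θ, ‖RL w α z θ - RL w α x θ‖ ^ 2 ∂Pr ≤ C / Real.log x := by
  obtain ⟨C, hC, h⟩ := al_key (κ := N) (M := N * S0) (Nat.cast_nonneg N)
    (mul_nonneg (Nat.cast_nonneg N) S0_nonneg)
  refine ⟨C, hC, fun w α hα x z hx hz => ?_⟩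
  refine transfer (G := fun θ => ‖RL w α z θ - RL w α x θ‖ ^ 2)
    (((RL_continuous hα z).sub (RL_continuous hα x)).norm.pow 2)
    (Nat.primesBelow z) (primesBelow_prime z) (fun θ θ' hθ => ?_) ?_ fun a => ?_
  · show ‖RL w α z θ - RL w α x θ‖ ^ 2 = ‖RL w α z θ' - RL w α x θ'‖ ^ 2
    rw [RL_dep α le_rfl hθ, RL_dep α hz hθ]
  · simp only [RL_li hα]
    exact ((AL_continuous _ z).sub (AL_continuous _ x)).norm.pow 2
  · simp only [RL_li hα]
    exact h _ x z hx hz a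

theorem RL_memLp {α : ℕ → Fin N → ℂ} (hα : Bd w α) (x : ℕ) : MemLp (RL w α x) 2 Pr := by
  obtain ⟨C, hC⟩ := isCompact_univ.exists_bound_of_continuousOn (RL_continuous hα x).continuousOn
  exact MemLp.of_bound (RL_continuous hα x).aestronglyMeasurable C
    (Eventually.of_forall fun θ => hC θ (Set.mem_univ _))

/-- The logarithm of the random Euler product. -/
theorem exists_log {α : ℕ → Fin N → ℂ} (hα : Bd w α) : ∃ Λ : (ℕ → UnitAddCircle) → ℂ,
    Measurable Λ ∧ TendstoInMeasure Pr (fun x => RL w α x) atTop Λ := by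
  obtain ⟨C, hC, h⟩ := rl_key N
  have hn : ∀ x z : ℕ, 3 ≤ x → x ≤ z → eLpNorm (RL w α z - RL w α x) 2 Pr ≤
      ENNReal.ofReal (Real.sqrt (C / Real.log x)) := by
    intro x z hx hz
    rw [MemLp.eLpNorm_eq_integral_rpow_norm (by norm_num) (by norm_num)
      ((RL_memLp hα z).sub (RL_memLp hα x))]
    refine ENNReal.ofReal_le_ofReal ?_
    have e1 : ((2 : ENNReal)).toReal = 2 := by norm_num
    rw [e1, Real.sqrt_eq_rpow, show ((2 : ℝ))⁻¹ = 1 / 2 by norm_num]
    refine Real.rpow_le_rpow (integral_nonneg fun θ => by positivity) ?_ (by norm_num)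
    have h2 := h w α hα x z hx hz
    refine le_trans (le_of_eq ?_) h2
    refine integral_congr_ae (Eventually.of_forall fun θ => ?_)
    simp only [Pi.sub_apply]
    norm_cast
  have hcau : CauchySeq fun x => (RL_memLp hα x).toLp := by
    rw [Metric.cauchySeq_iff']
    intro ε hε
    have h2 : Tendsto (fun x : ℕ => Real.sqrt (C / Real.log x)) atTop (𝓝 0) := by
      have h3 : Tendsto (fun x : ℕ => C / Real.log x) atTop (𝓝 0) :=
        tendsto_const_nhds.div_atTop (Real.tendsto_log_atTop.comp tendsto_natCast_atTop_atTop)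
      have h4 := (Real.continuous_sqrt.tendsto 0).comp h3
      rwa [Real.sqrt_zero] at h4
    obtain ⟨X, hX⟩ := ((h2.eventually_lt_const hε).and (eventually_ge_atTop 3)).exists
    refine ⟨X, fun n hn' => ?_⟩
    rw [dist_eq_norm, ← MemLp.toLp_sub, Lp.norm_toLp]
    refine lt_of_le_of_lt ?_ hX.1
    exact ENNReal.toReal_le_of_le_ofReal (Real.sqrt_nonneg _) (hn X n hX.2 hn')
  obtain ⟨L, hL⟩ := cauchySeq_tendsto_of_complete hcau
  have h3 := tendstoInMeasure_of_tendsto_Lp hL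
  exact ⟨L, (Lp.stronglyMeasurable L).measurable,
    h3.congr (fun x => (RL_memLp hα x).coeFn_toLp) (EventuallyEq.refl _ _)⟩

/-- The random Euler product. -/
theorem exists_prod {α : ℕ → Fin N → ℂ} (hα : Bd w α) : ∃ L : (ℕ → UnitAddCircle) → ℂ,
    Measurable L ∧ (∀ θ, L θ ≠ 0) ∧ TendstoInMeasure Pr (fun x => RP w α x) atTop L := by
  obtain ⟨Λ, hΛ, h⟩ := exists_log hα
  refine ⟨fun θ => Complex.exp (Λ θ), Complex.measurable_exp.comp hΛ,
    fun θ => Complex.exp_ne_zero _, ?_⟩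
  rw [exists_seq_tendstoInMeasure_atTop_iff
    (fun n => (RP_continuous hα n).aestronglyMeasurable)]
  intro ns hns
  rw [exists_seq_tendstoInMeasure_atTop_iff
    (fun n => (RL_continuous hα n).aestronglyMeasurable)] at h
  obtain ⟨ns', hns', h'⟩ := h ns hns
  refine ⟨ns', hns', ?_⟩
  filter_upwards [h'] with θ hθ
  exact (Complex.continuous_exp.tendsto _).comp hθ

/-- Fatou's lemma on the probability space. -/
theorem fatouP {f : ℕ → (ℕ → UnitAddCircle) → ℝ} {g : (ℕ → UnitAddCircle) → ℝ}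
    (hf : ∀ n, Continuous (f n)) (hf0 : ∀ n θ, 0 ≤ f n θ) {B : ℝ}
    (hB : ∀ᶠ n in atTop, ∫ θ, f n θ ∂Pr ≤ B)
    (h : ∀ᵐ θ ∂Pr, Tendsto (fun n => f n θ) atTop (𝓝 (g θ))) :
    ∫⁻ θ, ENNReal.ofReal (g θ) ∂Pr ≤ ENNReal.ofReal B := by
  have h1 : ∫⁻ θ, ENNReal.ofReal (g θ) ∂Pr =
      ∫⁻ θ, liminf (fun n => ENNReal.ofReal (f n θ)) atTop ∂Pr := by
    refine lintegral_congr_ae ?_
    filter_upwards [h] with θ hθ
    exact ((ENNReal.tendsto_ofReal hθ).liminf_eq).symm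
  rw [h1]
  refine (lintegral_liminf_le fun n => (hf n).measurable.ennreal_ofReal).trans ?_
  refine liminf_le_of_frequently_le' (Eventually.frequently ?_)
  filter_upwards [hB] with n hn
  have hint : Integrable (f n) Pr := by
    obtain ⟨C, hC⟩ := isCompact_univ.exists_bound_of_continuousOn (hf n).continuousOn
    exact (MemLp.of_bound (p := 1) (hf n).aestronglyMeasurable C
      (Eventually.of_forall fun θ => hC θ (Set.mem_univ _))).integrable le_rfl
  rw [← ofReal_integral_eq_lintegral_ofReal hint (Eventually.of_forall (hf0 n))]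
  exact ENNReal.ofReal_le_ofReal hn

end Pool.Agent.Q255.SG
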