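import Pool.Agent.Q255.SG.Bohr

/-! # The Bohr-Jessen law on the edge: the theorem for systems of eigenvalues -/

set_option autoImplicit false

namespace Pool.Agent.Q255.SG

open Finset MeasureTheory Filter Topology Pool.Agent.Q255.SA Pool.Agent.TH109.CG

variable {N : ℕ} {w : ℝ}

theorem cont_int {f : (ℕ → UnitAddCircle) → ℝ} (hf : Continuous f) : Integrable f Pr := by
  obtain ⟨C, hC⟩ := isCompact_univ.exists_bound_of_continuousOn hf.continuousOn
  exact (MemLp.of_bound (p := 1) hf.aestronglyMeasurable C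
    (Eventually.of_forall fun θ => hC θ (Set.mem_univ _))).integrable le_rfl

theorem RP_pow_cont {α : ℕ → Fin N → ℂ} (hα : Bd w α) (x : ℕ) (q : ℝ) :
    Continuous fun θ => ‖RP w α x θ‖ ^ q :=
  (RP_continuous hα x).norm.rpow_const fun θ => Or.inl (norm_ne_zero_iff.2 (RP_ne α x θ))

theorem gr_RP_cont {α : ℕ → Fin N → ℂ} (hα : Bd w α) (x : ℕ) (q : ℝ) :
    Continuous fun θ => gr q (RP w α x θ) :=
  (RP_pow_cont hα x q).add (RP_pow_cont hα x (-q))

theorem gr_rp (N : ℕ) {q : ℝ} (h0 : 0 ≤ q) (h1 : (N : ℝ) * q < 1) : ∃ C : ℝ, 0 < C ∧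
    ∀ (w : ℝ) (α : ℕ → Fin N → ℂ), Bd w α → ∀ z : ℕ, 3 ≤ z →
      ∫ θ, gr q (RP w α z θ) ∂Pr ≤ C := by
  obtain ⟨C, hC, h⟩ := rp_int N h0 h1
  refine ⟨2 * C, by positivity, fun w α hα z hz => ?_⟩
  unfold gr
  rw [integral_add (cont_int (RP_pow_cont hα z q)) (cont_int (RP_pow_cont hα z (-q)))]
  have h2 := h w α hα q (by rw [abs_of_nonneg h0]) z hz
  have h3 := h w α hα (-q) (by rw [abs_neg, abs_of_nonneg h0]) z hz
  linarith

theorem dd_RP_cont {α : ℕ → Fin N → ℂ} (hα : Bd w α) (z x : ℕ) :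
    Continuous fun θ => dd (RP w α z θ) (RP w α x θ) ^ 2 := by
  unfold dd
  exact (continuous_const.min (((RP_continuous hα z).div (RP_continuous hα x)
    (RP_ne α x)).sub continuous_const).norm).pow 2

theorem dd_rp (N : ℕ) : ∃ C : ℝ, 0 < C ∧
    ∀ (w : ℝ) (α : ℕ → Fin N → ℂ), Bd w α → ∀ x z : ℕ, 3 ≤ x → x ≤ z →
      ∫ θ, dd (RP w α z θ) (RP w α x θ) ^ 2 ∂Pr ≤ C / Real.log x := by
  obtain ⟨C, hC, h⟩ := rl_key N
  refine ⟨4 * C, by positivity, fun w α hα x z hx hz => ?_⟩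
  have h2 : ∫ θ, dd (RP w α z θ) (RP w α x θ) ^ 2 ∂Pr ≤
      ∫ θ, 4 * ‖RL w α z θ - RL w α x θ‖ ^ 2 ∂Pr := by
    refine integral_mono (cont_int (dd_RP_cont hα z x)) (cont_int (continuous_const.mul
      (((RL_continuous hα z).sub (RL_continuous hα x)).norm.pow 2))) fun θ => ?_
    have h3 := dd_exp (RL w α z θ) (RL w α x θ)
    have h4 := pow_le_pow_left₀ (dd_nonneg _ _) h3 2
    show dd (Complex.exp (RL w α z θ)) (Complex.exp (RL w α x θ)) ^ 2 ≤ _
    calc _ ≤ _ := h4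
      _ = _ := by ring
  rw [integral_const_mul] at h2
  have := h w α hα x z hx hz
  calc _ ≤ _ := h2
    _ ≤ 4 * (C / Real.log x) := by gcongr
    _ = _ := by ring

/-- Every limit in measure of the random partial products. -/
theorem lim_rp {α : ℕ → Fin N → ℂ} (hα : Bd w α) {L : (ℕ → UnitAddCircle) → ℂ}
    (hL : TendstoInMeasure Pr (fun x => RP w α x) atTop L) :
    AEMeasurable L Pr ∧ (∀ᵐ θ ∂Pr, L θ ≠ 0) ∧ ∃ ns : ℕ → ℕ, StrictMono ns ∧
      ∀ᵐ θ ∂Pr, Tendsto (fun i => RP w α (ns i) θ) atTop (𝓝 (L θ)) := by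
  obtain ⟨L', hL'm, hL'0, hL'⟩ := exists_prod hα
  have h1 := tendstoInMeasure_ae_unique hL hL'
  obtain ⟨ns, hns, h2⟩ := hL.exists_seq_tendsto_ae
  refine ⟨⟨L', hL'm, h1⟩, ?_, ns, hns, h2⟩
  filter_upwards [h1] with θ hθ
  rw [hθ]
  exact hL'0 θ

theorem gr_tendsto {q : ℝ} {u : ℕ → ℂ} {z : ℂ} (hz : z ≠ 0) (h : Tendsto u atTop (𝓝 z)) :
    Tendsto (fun n => gr q (u n)) atTop (𝓝 (gr q z)) := by
  unfold gr
  have hn : ‖z‖ ≠ 0 := norm_ne_zero_iff.2 hz
  exact (h.norm.rpow_const (Or.inl hn)).add (h.norm.rpow_const (Or.inl hn))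

theorem gr_lim (N : ℕ) {q : ℝ} (h0 : 0 ≤ q) (h1 : (N : ℝ) * q < 1) : ∃ C : ℝ, 0 < C ∧
    ∀ (w : ℝ) (α : ℕ → Fin N → ℂ), Bd w α → (∀ z : ℕ, 3 ≤ z →
      ∫⁻ θ, ENNReal.ofReal (gr q (RP w α z θ)) ∂Pr ≤ ENNReal.ofReal C) ∧
      ∀ L : (ℕ → UnitAddCircle) → ℂ, TendstoInMeasure Pr (fun x => RP w α x) atTop L →
      ∫⁻ θ, ENNReal.ofReal (gr q (L θ)) ∂Pr ≤ ENNReal.ofReal C := by
  obtain ⟨C, hC, h⟩ := gr_rp N h0 h1
  refine ⟨C, hC, fun w α hα => ⟨fun z hz => ?_, fun L hL => ?_⟩⟩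
  · rw [← ofReal_integral_eq_lintegral_ofReal (cont_int (gr_RP_cont hα z q))
      (Eventually.of_forall fun θ => gr_nonneg _ _)]
    exact ENNReal.ofReal_le_ofReal (h w α hα z hz)
  · obtain ⟨_, h3, ns, hns, h4⟩ := lim_rp hα hL
    refine fatouP (f := fun n θ => gr q (RP w α (ns n) θ)) (fun n => gr_RP_cont hα (ns n) q)
      (fun n θ => gr_nonneg _ _) ?_ ?_
    · filter_upwards [eventually_ge_atTop 3] with n hn
      exact h w α hα (ns n) (hn.trans (hns.id_le n))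
    · filter_upwards [h3, h4] with θ hθ hθ'
      exact gr_tendsto hθ hθ'

theorem dd_limP (N : ℕ) : ∃ C : ℝ, 0 < C ∧
    ∀ (w : ℝ) (α : ℕ → Fin N → ℂ), Bd w α →
      ∀ L : (ℕ → UnitAddCircle) → ℂ, TendstoInMeasure Pr (fun x => RP w α x) atTop L →
      ∀ x : ℕ, 3 ≤ x → ∫⁻ θ, ENNReal.ofReal (dd (L θ) (RP w α x θ) ^ 2) ∂Pr ≤
        ENNReal.ofReal (C / Real.log x) := by
  obtain ⟨C, hC, h⟩ := dd_rp N
  refine ⟨C, hC, fun w α hα L hL x hx => ?_⟩
  obtain ⟨_, h3, ns, hns, h4⟩ := lim_rp hα hL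
  refine fatouP (f := fun n θ => dd (RP w α (ns n) θ) (RP w α x θ) ^ 2)
    (fun n => dd_RP_cont hα (ns n) x) (fun n θ => by positivity) ?_ ?_
  · filter_upwards [eventually_ge_atTop x] with n hn
    exact h w α hα x (ns n) hx (hn.trans (hns.id_le n))
  · filter_upwards [h4] with θ hθ
    unfold dd
    exact (Tendsto.min tendsto_const_nhds (((hθ.div_const _).sub_const 1).norm)).pow 2

theorem avg_eq {f : ℝ → ℝ} {a τ : ℝ} (hτ : 0 < τ) :
    avg f a τ = τ⁻¹ * ∫ t in Set.Icc a (a + τ), f t := by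
  unfold avg
  rw [smul_eq_mul, intervalIntegral.integral_of_le (by linarith), integral_Icc_eq_integral_Ioc]

/-- **The Bohr-Jessen law on the edge**, uniformly in all systems of rank `N`. -/
theorem bohr_jessen (N : ℕ) {q : ℝ} (hq0 : 0 ≤ q) (hqN : q * N < 1) {f : ℂ → ℝ}
    (hf : ContinuousOn f {0}ᶜ) (hg : ∀ z, z ≠ 0 → |f z| ≤ gr q z) {ε : ℝ} (hε : 0 < ε) :
    ∃ T0 : ℝ, 0 < T0 ∧ ∀ (w : ℝ) (α : ℕ → Fin N → ℂ) (hα : Bd w α) (T : Set ℝ), volume T = 0 →
      ∀ l : ℝ → ℂ, Lim (AP (qAD w α hα)) T l → ∀ L : (ℕ → UnitAddCircle) → ℂ,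
      TendstoInMeasure Pr (fun x => RP w α x) atTop L →
      Integrable (fun θ => f (L θ)) Pr ∧ ∀ a τ : ℝ, T0 ≤ τ →
        IntervalIntegrable (fun t => f (l t)) volume a (a + τ) ∧
        |τ⁻¹ * (∫ t in a..(a + τ), f (l t)) - ∫ θ, f (L θ) ∂Pr| ≤ ε := by
  have hN0 : (0 : ℝ) ≤ N := Nat.cast_nonneg N
  -- a larger exponent
  obtain ⟨q', hqq, hq'N⟩ : ∃ q' : ℝ, q < q' ∧ (N : ℝ) * q' < 1 := by
    have h1 : 0 < 1 - q * N := by linarith
    refine ⟨q + (1 - q * N) / (2 * (N + 1)), by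
      have : 0 < (1 - q * N) / (2 * ((N : ℝ) + 1)) := by positivity
      linarith, ?_⟩
    have h2 : (N : ℝ) * ((1 - q * N) / (2 * (N + 1))) ≤ (1 - q * N) / 2 := by
      rw [mul_div_assoc', div_le_div_iff₀ (by positivity) (by norm_num)]
      nlinarith
    nlinarith
  have hq' : 0 ≤ q' := hq0.trans hqq.le
  obtain ⟨C1, hC1, hint⟩ := ad_int (κ := N) (M := N * S0) (q0 := q') hN0
    (mul_nonneg hN0 S0_nonneg) hq' hq'N
  obtain ⟨C2, hC2, hap⟩ := ap_int (κ := N) (M := N * S0) (q0 := q') hN0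
    (mul_nonneg hN0 S0_nonneg) hq' hq'N
  obtain ⟨C3, hC3, hddl⟩ := dd_lim (κ := N) (M := N * S0) hN0 (mul_nonneg hN0 S0_nonneg)
  obtain ⟨C4, hC4, hgr⟩ := gr_lim N hq' hq'N
  obtain ⟨C5, hC5, hddP⟩ := dd_limP N
  -- one constant
  set A := 2 * C1 + 2 * C2 + C4 with hA
  set B := C3 + C5 with hB
  have hA0 : 0 < A := by positivity
  have hB0 : 0 < B := by positivity
  set ε1 := ε / (12 * A) with hε1
  have hε10 : 0 < ε1 := by positivity
  obtain ⟨C, hC, hpt⟩ := pt_ineq hq0 hqq hf hg hε10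
  obtain ⟨x, hx3, hx⟩ : ∃ x : ℕ, 3 ≤ x ∧ 2 * C * (B / Real.log x) ≤ ε / 12 := by
    have h1 : Tendsto (fun x : ℕ => 2 * C * (B / Real.log x)) atTop (𝓝 (2 * C * 0)) :=
      (tendsto_const_nhds.div_atTop (Real.tendsto_log_atTop.comp
        tendsto_natCast_atTop_atTop)).const_mul _
    rw [mul_zero] at h1
    obtain ⟨x, h2, h3⟩ := ((h1.eventually_le_const (show 0 < ε / 12 by positivity)).and
      (eventually_ge_atTop 3)).exists
    exact ⟨x, h3, h2⟩
  have hlx : 0 < Real.log x := Real.log_pos (by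
    have : (3 : ℝ) ≤ x := by exact_mod_cast hx3
    linarith)
  obtain ⟨T1, hT1, hweyl⟩ := weyl_param (K := Kd N) (G := fun z => f (GP x z.1 z.2))
    (hf.comp_continuous (GP_continuous x) fun z => GP_ne x z.1 z.2) (Nat.primesBelow x)
    (primesBelow_prime x) (fun k θ θ' h => by
      show f (GP x k θ) = f (GP x k θ')
      rw [GP_dep k h]) (show 0 < ε / 6 by positivity)
  refine ⟨max T1 1, by positivity, fun w α hα T hT l hl L hL => ?_⟩
  have hnt : ∀ᵐ t ∂(volume : Measure ℝ), l t ≠ 0 := by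
    filter_upwards [ae_not hT] with t ht
    exact (hl t ht).1
  have hlm := lim_aemeas (AP_continuous (qAD w α hα)) hT hl
  obtain ⟨hLm, hL0, _⟩ := lim_rp hα hL
  have hgrL : ∫⁻ θ, ENNReal.ofReal (gr q' (L θ)) ∂Pr ≤ ENNReal.ofReal A :=
    ((hgr w α hα).2 L hL).trans (ENNReal.ofReal_le_ofReal (by linarith))
  have hgrx : ∫⁻ θ, ENNReal.ofReal (gr q' (RP w α x θ)) ∂Pr ≤ ENNReal.ofReal A :=
    ((hgr w α hα).1 x hx3).trans (ENNReal.ofReal_le_ofReal (by linarith))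
  have hP := law_diff hq0 hqq hε10.le hC.le hf hg hpt hLm hL0
    (RP_continuous hα x).measurable.aemeasurable (Eventually.of_forall (RP_ne α x)) hA0.le
    (B := B / Real.log x) (by positivity) hgrL hgrx
    ((hddP w α hα L hL x hx3).trans (ENNReal.ofReal_le_ofReal (by
      gcongr
      linarith)))
  refine ⟨test_integrable hq0 hqq hf hg hLm hL0 hgrL, fun a τ hτ => ?_⟩
  have hτ1 : 1 ≤ τ := (le_max_right _ _).trans hτ
  have hτ0 : 0 < τ := by linarith
  have hτT : T1 ≤ τ := (le_max_left _ _).trans hτ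
  set μ : Measure ℝ := volume.restrict (Set.Icc a (a + τ)) with hμ
  -- the bounds on the window
  have hwin : ∀ (F : ℝ → ℝ) (B' : ℝ), 0 ≤ B' → (∀ b, ∫⁻ t in Set.Icc b (b + 1),
      ENNReal.ofReal (F t) ≤ ENNReal.ofReal B') →
      ∫⁻ t, ENNReal.ofReal (F t) ∂μ ≤ ENNReal.ofReal (2 * τ * B') := by
    intro F B' hB' h
    refine (cover h a hτ1).trans (le_of_eq ?_)
    rw [← ENNReal.ofReal_mul (by positivity)]
  have hgrl : ∫⁻ t, ENNReal.ofReal (gr q' (l t)) ∂μ ≤ ENNReal.ofReal (2 * τ * A) := by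
    refine (hwin (fun t => gr q' (l t)) (2 * C1) (by positivity) fun b => ?_).trans
      (ENNReal.ofReal_le_ofReal (by gcongr; linarith))
    have h1 := hint (qAD w α hα) T hT l hl q' (by rw [abs_of_nonneg hq']) b
    have h2 := hint (qAD w α hα) T hT l hl (-q') (by rw [abs_neg, abs_of_nonneg hq']) b
    unfold gr
    have h3 : ∫⁻ t in Set.Icc b (b + 1), ENNReal.ofReal (‖l t‖ ^ q' + ‖l t‖ ^ (-q')) =
        (∫⁻ t in Set.Icc b (b + 1), ENNReal.ofReal (‖l t‖ ^ q')) +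
        ∫⁻ t in Set.Icc b (b + 1), ENNReal.ofReal (‖l t‖ ^ (-q')) := by
      rw [← lintegral_add_left']
      · refine lintegral_congr fun t => ?_
        rw [ENNReal.ofReal_add (by positivity) (by positivity)]
      · exact (hlm.restrict.norm.pow_const q').ennreal_ofReal
    rw [h3, two_mul, ENNReal.ofReal_add hC1.le hC1.le]
    exact add_le_add h1 h2
  have hgrAP : ∫⁻ t, ENNReal.ofReal (gr q' (AP (qAD w α hα) x t)) ∂μ ≤
      ENNReal.ofReal (2 * τ * A) := by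
    refine (hwin (fun t => gr q' (AP (qAD w α hα) x t)) (2 * C2) (by positivity) fun b => ?_).trans
      (ENNReal.ofReal_le_ofReal (by gcongr; linarith))
    have c1 := AP_pow_continuous (qAD w α hα) x q'
    have c2 := AP_pow_continuous (qAD w α hα) x (-q')
    have c3 : Continuous fun t => gr q' (AP (qAD w α hα) x t) := c1.add c2
    rw [← ofReal_integral_eq_lintegral_ofReal
      (c3.continuousOn.integrableOn_compact isCompact_Icc)
      (Eventually.of_forall fun t => gr_nonneg _ _)]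
    refine ENNReal.ofReal_le_ofReal ?_
    rw [integral_Icc_eq_integral_Ioc, ← intervalIntegral.integral_of_le (by linarith)]
    unfold gr
    rw [intervalIntegral.integral_add (c1.intervalIntegrable _ _) (c2.intervalIntegrable _ _)]
    have h1 := hap (qAD w α hα) q' (by rw [abs_of_nonneg hq']) x hx3 b
    have h2 := hap (qAD w α hα) (-q') (by rw [abs_neg, abs_of_nonneg hq']) x hx3 b
    linarith
  have hddw : ∫⁻ t, ENNReal.ofReal (dd (l t) (AP (qAD w α hα) x t) ^ 2) ∂μ ≤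
      ENNReal.ofReal (2 * τ * (B / Real.log x)) := by
    refine (hwin (fun t => dd (l t) (AP (qAD w α hα) x t) ^ 2) (C3 / Real.log x)
      (by positivity) fun b => hddl (qAD w α hα) T hT l hl x hx3 b).trans
      (ENNReal.ofReal_le_ofReal (by gcongr; linarith))
  have hW := law_diff hq0 hqq hε10.le hC.le hf hg hpt (μ := μ) hlm.restrict
    (ae_restrict_of_ae hnt) (AP_continuous (qAD w α hα) x).measurable.aemeasurable
    (Eventually.of_forall (AP_ne (qAD w α hα) x)) (A := 2 * τ * A) (by positivity)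
    (B := 2 * τ * (B / Real.log x)) (by positivity) hgrl hgrAP hddw
  have hi := test_integrable hq0 hqq hf hg (μ := μ) hlm.restrict (ae_restrict_of_ae hnt) hgrl
  refine ⟨?_, ?_⟩
  · rw [intervalIntegrable_iff_integrableOn_Icc_of_le (by linarith)]
    exact hi
  · have h1 := hweyl (toK w α hα) τ hτT a
    simp only [GP_toK hα, RP_li hα] at h1
    rw [avg_eq hτ0] at h1
    rw [intervalIntegral.integral_of_le (by linarith), ← integral_Icc_eq_integral_Ioc]
    have h2 : |τ⁻¹ * (∫ t in Set.Icc a (a + τ), f (l t)) -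
        τ⁻¹ * ∫ t in Set.Icc a (a + τ), f (AP (qAD w α hα) x t)| ≤
        ε1 * (4 * A) + 2 * C * (B / Real.log x) := by
      rw [← mul_sub, abs_mul, abs_of_pos (inv_pos.2 hτ0)]
      calc τ⁻¹ * |(∫ t in Set.Icc a (a + τ), f (l t)) -
            ∫ t in Set.Icc a (a + τ), f (AP (qAD w α hα) x t)| ≤
            τ⁻¹ * (ε1 * (2 * (2 * τ * A)) + C * (2 * τ * (B / Real.log x))) := by gcongr
        _ = _ := by
            field_simp
            ring
    have h3 : ε1 * (4 * A) = ε / 3 := by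
      rw [hε1]
      field_simp
      norm_num
    have h4 : ε1 * (2 * A) = ε / 6 := by
      rw [hε1]
      field_simp
      norm_num
    have h5 : C * (B / Real.log x) ≤ ε / 12 := by
      have : 0 ≤ C * (B / Real.log x) := by positivity
      linarith
    rw [abs_sub_comm] at hP
    have e : τ⁻¹ * (∫ t in Set.Icc a (a + τ), f (l t)) - ∫ θ, f (L θ) ∂Pr =
        (τ⁻¹ * (∫ t in Set.Icc a (a + τ), f (l t)) -
          τ⁻¹ * ∫ t in Set.Icc a (a + τ), f (AP (qAD w α hα) x t)) +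
        (τ⁻¹ * (∫ t in Set.Icc a (a + τ), f (AP (qAD w α hα) x t)) -
          ∫ θ, f (RP w α x θ) ∂Pr) + (∫ θ, f (RP w α x θ) ∂Pr - ∫ θ, f (L θ) ∂Pr) := by ring
    rw [e]
    refine (abs_add_three _ _ _).trans ?_
    linarith

end Pool.Agent.Q255.SG
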