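import Pool.Agent.Q255.SG.PLog
import Pool.Agent.Q255.SA.Muck

/-! # The primes beyond `e^{1/δ}` in `∑ p^{-1-δ}` -/

set_option autoImplicit false

namespace Pool.Agent.Q255.SG

open NumberField IsDedekindDomain Finset Pool.Agent.H921R2.TatePole
  Pool.Agent.W350.EdgeNF Pool.Agent.W350.EdgeV Pool.Agent.Q255.SA

theorem big_tail : ∃ C : ℝ, 0 < C ∧ ∀ δ : ℝ, 0 < δ → δ ≤ 1 → ∀ z : ℕ,
    ∑ p ∈ Ico ⌈Real.exp (1 / δ)⌉₊ z, (if p.Prime then (p : ℝ) ^ (-1 - δ) else 0) ≤ C := by
  obtain ⟨C, hC, h⟩ := mert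
  set c : ℝ := Real.log 3 + 2 * C with hc
  have hl3 : 0 < Real.log 3 := Real.log_pos (by norm_num)
  have hc0 : 0 < c := by positivity
  refine ⟨2 * c, by positivity, fun δ hδ hδ1 z => ?_⟩
  set X : ℕ → ℕ := fun k => ⌈Real.exp (2 ^ k / δ)⌉₊ with hX
  set f : ℕ → ℝ := fun p => if p.Prime then (p : ℝ) ^ (-1 - δ) else 0 with hf
  have hf0 : ∀ p, 0 ≤ f p := by
    intro p
    simp only [hf]
    split_ifs
    · positivity
    · exact le_rfl
  have hdiv : ∀ k : ℕ, (1 : ℝ) ≤ 2 ^ k / δ := by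
    intro k
    rw [le_div_iff₀ hδ, one_mul]
    exact hδ1.trans (one_le_pow₀ (by norm_num))
  have hX3 : ∀ k, 3 ≤ X k := by
    intro k
    have h1 : Real.exp 1 ≤ Real.exp (2 ^ k / δ) := Real.exp_le_exp.2 (hdiv k)
    have h2 := Real.exp_one_gt_d9
    have h3 : (2 : ℝ) < (X k : ℝ) := by
      have := Nat.le_ceil (Real.exp (2 ^ k / δ))
      simp only [hX]
      linarith
    exact_mod_cast h3
  have hXlo : ∀ k, 2 ^ k / δ ≤ Real.log (X k) := by
    intro k
    rw [Real.le_log_iff_exp_le (by have := hX3 k; exact_mod_cast (by omega : 0 < X k))]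
    exact Nat.le_ceil _
  have hXhi : ∀ k, Real.log (X k) ≤ 2 ^ k / δ + 1 := by
    intro k
    have h6 : (X k : ℝ) ≤ Real.exp (2 ^ k / δ + 1) := by
      have h7 := (Nat.ceil_lt_add_one (Real.exp_pos (2 ^ k / δ)).le).le
      have h9 : Real.exp 1 ≤ Real.exp (2 ^ k / δ) := Real.exp_le_exp.2 (hdiv k)
      have he := Real.exp_one_gt_d9
      rw [Real.exp_add]
      simp only [hX]
      nlinarith
    have := Real.log_le_log (by have := hX3 k; exact_mod_cast (by omega : 0 < X k)) h6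
    rwa [Real.log_exp] at this
  have hmono : ∀ k, X k ≤ X (k + 1) := by
    intro k
    refine Nat.ceil_le_ceil (Real.exp_le_exp.2 ?_)
    gcongr
    · norm_num
    · omega
  have hblock : ∀ k, ∑ p ∈ Ico (X k) (X (k + 1)), f p ≤ c / 2 ^ k := by
    intro k
    have hx0 : (0 : ℝ) < X k := by
      have := hX3 k
      exact_mod_cast (by omega : 0 < X k)
    have h1 : ∑ p ∈ Ico (X k) (X (k + 1)), f p ≤ RS (X k) (X (k + 1)) * (X k : ℝ) ^ (-δ) := by
      unfold RS
      rw [Finset.sum_mul]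
      refine Finset.sum_le_sum fun p hp => ?_
      simp only [hf]
      split_ifs with hpp
      · have hxp : (X k : ℝ) ≤ p := by exact_mod_cast (Finset.mem_Ico.1 hp).1
        have hp0 : (0 : ℝ) < p := by linarith
        rw [sub_eq_add_neg, Real.rpow_add hp0, Real.rpow_neg_one, one_div]
        refine mul_le_mul_of_nonneg_left ?_ (by positivity)
        exact Real.rpow_le_rpow_of_nonpos hx0 hxp (by linarith)
      · rw [zero_mul]
    have h2 : RS (X k) (X (k + 1)) ≤ c := by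
      have e1 := RS_add (x := 0) (Nat.zero_le (X k)) (hmono k)
      have e2 := (abs_le.1 (h (X k) (hX3 k))).1
      have e3 := (abs_le.1 (h (X (k + 1)) (hX3 (k + 1)))).2
      have e4 : Real.log (Real.log (X (k + 1))) ≤ Real.log 3 + Real.log (Real.log (X k)) := by
        have hp1 : 0 < Real.log (X k) := lt_of_lt_of_le (by linarith [hdiv k]) (hXlo k)
        have hp2 : 0 < Real.log (X (k + 1)) :=
          lt_of_lt_of_le (by linarith [hdiv (k + 1)]) (hXlo (k + 1))
        rw [← Real.log_mul (by norm_num) hp1.ne']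
        refine Real.log_le_log hp2 ((hXhi (k + 1)).trans ?_)
        have e5 : (2 : ℝ) ^ (k + 1) / δ = 2 * (2 ^ k / δ) := by ring
        rw [e5]
        linarith [hXlo k, hdiv k]
      linarith
    have h3 : (X k : ℝ) ^ (-δ) ≤ 1 / 2 ^ k := by
      rw [Real.rpow_def_of_pos hx0]
      have e1 : Real.log (X k) * -δ ≤ -(2 ^ k : ℝ) := by
        have := hXlo k
        rw [div_le_iff₀ hδ] at this
        linarith
      have e2 : Real.exp (Real.log (X k) * -δ) ≤ Real.exp (-(2 ^ k : ℝ)) := Real.exp_le_exp.2 e1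
      refine e2.trans ?_
      rw [Real.exp_neg, one_div]
      refine inv_anti₀ (by positivity) ?_
      have e3 := Real.add_one_le_exp (2 ^ k : ℝ)
      linarith
    have hR : 0 ≤ RS (X k) (X (k + 1)) := RS_nonneg _ _
    calc ∑ p ∈ Ico (X k) (X (k + 1)), f p ≤ RS (X k) (X (k + 1)) * (X k : ℝ) ^ (-δ) := h1
      _ ≤ c * (1 / 2 ^ k) := mul_le_mul h2 h3 (by positivity) hc0.le
      _ = c / 2 ^ k := by ring
  have hX00 : X 0 = ⌈Real.exp (1 / δ)⌉₊ := by simp [hX]
  have hmono' : Monotone X := monotone_nat_of_le_succ hmono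
  have hstep : ∀ m : ℕ, ∑ p ∈ Ico (X 0) (X m), f p ≤ 2 * c - 2 * c / 2 ^ m := by
    intro m
    induction m with
    | zero => simp
    | succ m ih =>
      rw [← Finset.sum_Ico_consecutive _ (hmono' (Nat.zero_le m)) (hmono m)]
      have h1 := hblock m
      have h5 : 2 * c / 2 ^ m = 2 * c / 2 ^ (m + 1) + c / 2 ^ m := by
        rw [pow_succ]
        field_simp
        ring
      linarith
  rw [← hX00]
  have hz : z ≤ X z := by
    have h1 : (z : ℝ) ≤ Real.exp (2 ^ z / δ) := by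
      have e1 : (z : ℝ) ≤ 2 ^ z := by exact_mod_cast (Nat.lt_two_pow_self (n := z)).le
      have e2 : (2 : ℝ) ^ z ≤ 2 ^ z / δ := by
        rw [le_div_iff₀ hδ]
        have : (0 : ℝ) < 2 ^ z := by positivity
        nlinarith
      have e3 := Real.add_one_le_exp (2 ^ z / δ : ℝ)
      linarith
    have h2 : (z : ℝ) ≤ (X z : ℝ) := h1.trans (Nat.le_ceil _)
    exact_mod_cast h2
  calc ∑ p ∈ Ico (X 0) z, f p ≤ ∑ p ∈ Ico (X 0) (X z), f p :=
        Finset.sum_le_sum_of_subset_of_nonneg (Finset.Ico_subset_Ico_right hz) fun p _ _ => hf0 p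
    _ ≤ 2 * c - 2 * c / 2 ^ z := hstep z
    _ ≤ 2 * c := by
        have : 0 ≤ 2 * c / 2 ^ z := by positivity
        linarith

variable {K : Type} [Field K] [NumberField K]

theorem sum_over_below {u : ℕ → ℝ} (hu : ∀ n, 0 ≤ u n) (hs : Summable u)
    (G : Finset (HeightOneSpectrum (𝓞 K))) :
    ∑ v ∈ G, u (below v : ℕ) ≤ Module.finrank ℚ K * ∑' n, u n := by
  classical
  rw [← Finset.sum_fiberwise_of_maps_to (s := G) (t := G.image fun v => (below v : ℕ))
    (g := fun v => (below v : ℕ)) (fun v hv => Finset.mem_image_of_mem _ hv)]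
  have h1 : ∀ p ∈ G.image fun v => (below v : ℕ),
      ∑ v ∈ G with (below v : ℕ) = p, u (below v : ℕ) ≤ Module.finrank ℚ K * u p := by
    intro p hp
    obtain ⟨v, hv, rfl⟩ := Finset.mem_image.1 hp
    have h2 : ∀ v' ∈ G.filter (fun v' => (below v' : ℕ) = (below v : ℕ)),
        u (below v' : ℕ) = u (below v : ℕ) := by
      intro v' hv'
      rw [(Finset.mem_filter.1 hv').2]
    rw [Finset.sum_congr rfl h2, Finset.sum_const, nsmul_eq_mul]
    refine mul_le_mul_of_nonneg_right ?_ (hu _)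
    exact_mod_cast card_above (below v) _ fun v' hv' => Subtype.ext (Finset.mem_filter.1 hv').2
  refine (Finset.sum_le_sum h1).trans ?_
  rw [← Finset.mul_sum]
  refine mul_le_mul_of_nonneg_left ?_ (by positivity)
  exact hs.sum_le_tsum _ fun n _ => hu n

end Pool.Agent.Q255.SG
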