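import Pool.Agent.Q255.SG.Contn
import Pool.Agent.Q255.SG.Tail1

/-! # The centre: the value of the `L`-function at distance `δ` from the edge -/

set_option autoImplicit false

namespace Pool.Agent.Q255.SG

open NumberField IsDedekindDomain Finset Pool.Agent.H921R2.TatePole
  Pool.Agent.W350.EdgeEC Pool.Agent.W350.EdgeNF Pool.Agent.W350.EdgeV MeasureTheory Filter Topology
  Pool.Agent.Q255.SA

theorem log_quad {b : ℂ} (hb : ‖b‖ ≤ 1 / 2) : ‖-Complex.log (1 - b) - b‖ ≤ ‖b‖ ^ 2 := by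
  have h1 := Complex.norm_log_one_sub_inv_sub_self_le (z := b) (by linarith)
  have hne : 1 - b ≠ 0 := by
    intro h
    have : b = 1 := by linear_combination -h
    rw [this, norm_one] at hb
    norm_num at hb
  have h2 : Complex.log (1 - b)⁻¹ = -Complex.log (1 - b) := by
    rw [Complex.log_inv]
    intro h
    have h3 : (1 - b).re < 0 := by
      have h4 := Complex.arg_eq_pi_iff.1 h
      exact h4.1
    have h5 := Complex.re_le_norm b
    rw [Complex.sub_re, Complex.one_re] at h3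
    linarith
  rw [h2] at h1
  refine h1.trans ?_
  have h3 : 0 < 1 - ‖b‖ := by linarith
  rw [div_le_iff₀ (by norm_num)]
  have h4 : (1 - ‖b‖)⁻¹ ≤ 2 := by
    rw [inv_le_comm₀ h3 (by norm_num)]
    linarith
  nlinarith [sq_nonneg ‖b‖]

/-- `Re ∑_{p < e^{1/δ}} c_p p^{-1-ia}` -/
noncomputable def mD {K : Type} [Field K] [NumberField K] {B A : ℝ} (D : LD K B A) (δ a : ℝ) : ℝ :=
  (CS (cK D) 0 ⌈Real.exp (1 / δ)⌉₊ a).re

variable {K : Type} [Field K] [NumberField K] {N : ℕ} {w : ℝ}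

theorem bz_shift (a : ℂ) (v : HeightOneSpectrum (𝓞 K)) (δ t : ℝ) :
    bz w a v ((δ : ℂ) + (t : ℂ) * Complex.I) = btk w a v t * (((nm v : ℝ) ^ (-δ) : ℝ) : ℂ) := by
  have h0 : (nm v : ℂ) ≠ 0 := nmC_ne v
  have h1 : (((nm v : ℝ) ^ (-δ) : ℝ) : ℂ) = (nm v : ℂ) ^ (-(δ : ℂ)) := by
    rw [Complex.ofReal_cpow (nm_pos v).le]
    push_cast
    rfl
  unfold bz btk
  rw [h1, mul_assoc, ← Complex.cpow_add _ _ h0]
  congr 2
  unfold epw
  ring

theorem ft_sys {α : HeightOneSpectrum (𝓞 K) → Fin N → ℂ} (hα : BdK w α)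
    (v : HeightOneSpectrum (𝓞 K)) (t : ℝ) : ft (sysLD w α hα) v t = ∑ j, btk w (α v j) v t := by
  unfold ft sysLD
  simp only []
  rw [Finset.sum_mul]
  refine Finset.sum_congr rfl fun j _ => ?_
  unfold btk
  rw [cpow_epw]
  ring

theorem one_sub_rpow_le {q δ : ℝ} (hq : 1 ≤ q) (hδ : 0 ≤ δ) :
    0 ≤ 1 - q ^ (-δ) ∧ 1 - q ^ (-δ) ≤ δ * Real.log q := by
  have hq0 : 0 < q := by linarith
  constructor
  · have := Real.rpow_le_one_of_one_le_of_nonpos hq (by linarith : -δ ≤ 0)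
    linarith
  · rw [Real.rpow_def_of_pos hq0]
    have := Real.add_one_le_exp (Real.log q * -δ)
    linarith

/-- the majorant -/
noncomputable def uu1 (δ : ℝ) (n : ℕ) : ℝ :=
  2 * (n : ℝ) ^ (-2 : ℝ) +
    ((if n < ⌈Real.exp (1 / δ)⌉₊ then δ * (if n.Prime then Real.log n / (n : ℝ) else 0) else 0) +
      if ⌈Real.exp (1 / δ)⌉₊ ≤ n then (if n.Prime then (n : ℝ) ^ (-1 - δ) else 0) else 0)

theorem uu1_nonneg {δ : ℝ} (hδ : 0 ≤ δ) (n : ℕ) : 0 ≤ uu1 δ n := by
  unfold uu1
  have h1 : 0 ≤ Real.log (n : ℝ) := Real.log_natCast_nonneg n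
  have h2 : 0 ≤ (if n < ⌈Real.exp (1 / δ)⌉₊ then
      δ * (if n.Prime then Real.log n / (n : ℝ) else 0) else 0) := by
    split_ifs <;> positivity
  have h3 : 0 ≤ (if ⌈Real.exp (1 / δ)⌉₊ ≤ n then
      (if n.Prime then (n : ℝ) ^ (-1 - δ) else 0) else 0) := by
    split_ifs <;> positivity
  positivity

theorem uu1_sum : ∃ C : ℝ, 0 < C ∧ ∀ δ : ℝ, 0 < δ → δ ≤ 1 →
    Summable (uu1 δ) ∧ ∑' n, uu1 δ n ≤ C := by
  obtain ⟨C1, hC1, h1⟩ := logsum
  obtain ⟨C2, hC2, h2⟩ := big_tail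
  have hs : Summable fun n : ℕ => (n : ℝ) ^ (-2 : ℝ) := by
    rw [Real.summable_nat_rpow]
    norm_num
  have hs0 : 0 ≤ ∑' n : ℕ, (n : ℝ) ^ (-2 : ℝ) := tsum_nonneg fun n => by positivity
  refine ⟨2 * ∑' n : ℕ, (n : ℝ) ^ (-2 : ℝ) + (2 + C1 + C2), by positivity, fun δ hδ hδ1 => ?_⟩
  have hb : ∀ z : ℕ, ∑ n ∈ range z, uu1 δ n ≤
      2 * ∑' n : ℕ, (n : ℝ) ^ (-2 : ℝ) + (2 + C1 + C2) := by
    intro z
    obtain ⟨hx3, hx1, hx2⟩ := cutd hδ hδ1
    set X := ⌈Real.exp (1 / δ)⌉₊ with hX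
    have e1 : ∑ n ∈ range z, (n : ℝ) ^ (-2 : ℝ) ≤ ∑' n : ℕ, (n : ℝ) ^ (-2 : ℝ) :=
      hs.sum_le_tsum _ fun n _ => by positivity
    have e2 : ∑ n ∈ range z, (if n < X then
        δ * (if n.Prime then Real.log n / (n : ℝ) else 0) else 0) ≤ 2 + C1 := by
      have hnn : ∀ n : ℕ, 0 ≤ (if n.Prime then Real.log n / (n : ℝ) else 0) := by
        intro n
        have : 0 ≤ Real.log (n : ℝ) := Real.log_natCast_nonneg n
        split_ifs <;> positivity
      calc ∑ n ∈ range z, (if n < X then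
          δ * (if n.Prime then Real.log n / (n : ℝ) else 0) else 0)
          = ∑ n ∈ (range z).filter (fun n => n < X),
            δ * (if n.Prime then Real.log n / (n : ℝ) else 0) := (Finset.sum_filter _ _).symm
        _ ≤ ∑ n ∈ Ico 0 X, δ * (if n.Prime then Real.log n / (n : ℝ) else 0) := by
            refine Finset.sum_le_sum_of_subset_of_nonneg (fun n hn => ?_) fun n _ _ =>
              mul_nonneg hδ.le (hnn n)
            rw [Finset.mem_filter] at hn
            exact Finset.mem_Ico.2 ⟨Nat.zero_le _, hn.2⟩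
        _ = δ * ∑ n ∈ Ico 0 X, (if n.Prime then Real.log n / (n : ℝ) else 0) := by
            rw [Finset.mul_sum]
        _ ≤ δ * (Real.log X + C1) := by
            gcongr
            exact h1 X (by omega)
        _ ≤ δ * (1 / δ + 1 + C1) := by gcongr
        _ = 1 + δ * (1 + C1) := by field_simp; ring
        _ ≤ 1 + 1 * (1 + C1) := by gcongr
        _ = 2 + C1 := by ring
    have e3 : ∑ n ∈ range z, (if X ≤ n then (if n.Prime then (n : ℝ) ^ (-1 - δ) else 0) else 0) ≤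
        C2 := by
      refine le_trans (le_of_eq ?_) (h2 δ hδ hδ1 z)
      rw [← Finset.sum_filter]
      refine Finset.sum_congr ?_ fun _ _ => rfl
      ext n
      simp only [Finset.mem_filter, Finset.mem_range, Finset.mem_Ico]
      tauto
    unfold uu1
    rw [Finset.sum_add_distrib, Finset.sum_add_distrib, ← Finset.mul_sum]
    linarith
  have hsu := summable_of_sum_range_le (uu1_nonneg hδ.le) hb
  exact ⟨hsu, Real.tsum_le_of_sum_range_le (uu1_nonneg hδ.le) hb⟩

theorem diff_bound {α : HeightOneSpectrum (𝓞 K) → Fin N → ℂ} (hα : BdK w α)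
    (v : HeightOneSpectrum (𝓞 K)) {δ : ℝ} (hδ : 0 < δ) (t : ℝ) :
    ‖fz w α v ((δ : ℂ) + (t : ℂ) * Complex.I) -
      (if nm v < ⌈Real.exp (1 / δ)⌉₊ then gv (sysLD w α hα) v t else 0)‖ ≤
      N * uu1 δ (below v : ℕ) := by
  set X := ⌈Real.exp (1 / δ)⌉₊ with hX
  set z : ℂ := (δ : ℂ) + (t : ℂ) * Complex.I with hz
  set D := sysLD w α hα with hD
  have hzre : z.re = δ := by simp [hz]
  have hq0 : (0 : ℝ) < nm v := nm_pos v
  have hp2 : 2 ≤ (below v : ℕ) := (below v).2.two_le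
  have hp0 : (0 : ℝ) < ((below v : ℕ) : ℝ) := by exact_mod_cast (below v).2.pos
  have hp1 : (1 : ℝ) ≤ ((below v : ℕ) : ℝ) := by exact_mod_cast (by omega : 1 ≤ (below v : ℕ))
  have hpn : ((below v : ℕ) : ℝ) ≤ nm v := by exact_mod_cast below_le_nm v
  have hN0 : (0 : ℝ) ≤ N := Nat.cast_nonneg N
  have hr : ∀ x : ℝ, ((x : ℝ)) ^ (-2 : ℝ) = 1 / x ^ 2 := by
    intro x
    rw [show (-2 : ℝ) = ((-2 : ℤ) : ℝ) by norm_num, Real.rpow_intCast, zpow_neg, one_div]
    norm_cast
  -- the quadratic part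
  have h1 : ‖fz w α v z - ft D v t * (((nm v : ℝ) ^ (-δ) : ℝ) : ℂ)‖ ≤
      N * (((below v : ℕ) : ℝ)) ^ (-2 : ℝ) := by
    have e1 : fz w α v z - ft D v t * (((nm v : ℝ) ^ (-δ) : ℝ) : ℂ) =
        ∑ j, (-Complex.log (1 - bz w (α v j) v z) - bz w (α v j) v z) := by
      unfold fz
      rw [ft_sys hα, Finset.sum_mul, ← Finset.sum_sub_distrib]
      refine Finset.sum_congr rfl fun j _ => ?_
      rw [hz, bz_shift]
    rw [e1]
    refine (norm_sum_le_of_le (n := fun _ => (((below v : ℕ) : ℝ)) ^ (-2 : ℝ)) _ fun j _ => ?_).trans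
      (by rw [Finset.sum_const, Finset.card_univ, Fintype.card_fin, nsmul_eq_mul])
    have hb := norm_bz (w := w) (hα v j) (z := z) (by rw [hzre]; exact hδ.le)
    refine (log_quad hb.2).trans ?_
    rw [hr]
    calc ‖bz w (α v j) v z‖ ^ 2 ≤ (1 / (nm v : ℝ)) ^ 2 := by
          gcongr
          exact hb.1
      _ = 1 / (nm v : ℝ) ^ 2 := by rw [div_pow, one_pow]
      _ ≤ 1 / ((below v : ℕ) : ℝ) ^ 2 := by gcongr
  -- the linear part
  have hft : ‖ft D v t‖ ≤ N * (1 / (nm v : ℝ)) := norm_ft D v t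
  have hqδ : 0 < (nm v : ℝ) ^ (-δ) := Real.rpow_pos_of_pos hq0 _
  have hqδ1 : (nm v : ℝ) ^ (-δ) ≤ 1 :=
    Real.rpow_le_one_of_one_le_of_nonpos (hp1.trans hpn) (by linarith)
  have h2 : ‖ft D v t * (((nm v : ℝ) ^ (-δ) : ℝ) : ℂ) -
      (if nm v < X then gv D v t else 0)‖ ≤
      N * ((((below v : ℕ) : ℝ)) ^ (-2 : ℝ) +
    ((if (below v : ℕ) < X then δ * (if (below v : ℕ).Prime then
        Real.log (below v : ℕ) / ((below v : ℕ) : ℝ) else 0) else 0) +
      if X ≤ (below v : ℕ) then (if (below v : ℕ).Prime then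
        ((below v : ℕ) : ℝ) ^ (-1 - δ) else 0) else 0)) := by
    have hlog : 0 ≤ Real.log ((below v : ℕ) : ℝ) := Real.log_natCast_nonneg _
    by_cases hpr : (nm v).Prime
    · have hbn : (below v : ℕ) = nm v := by
        show (Ideal.absNorm v.asIdeal).minFac = nm v
        have h2 : Ideal.absNorm v.asIdeal = nm v := rfl
        rw [h2, hpr.minFac_eq]
      rw [hbn, if_pos hpr, if_pos hpr]
      have hgv : gv D v t = ft D v t := by
        unfold gv
        rw [if_pos hpr]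
      by_cases hX1 : nm v < X
      · rw [if_pos hX1, if_pos hX1, if_neg (by omega), hgv]
        have e : ft D v t * (((nm v : ℝ) ^ (-δ) : ℝ) : ℂ) - ft D v t =
            -(ft D v t * ((1 - (nm v : ℝ) ^ (-δ) : ℝ) : ℂ)) := by
          push_cast
          ring
        obtain ⟨g1, g2⟩ := one_sub_rpow_le (q := nm v) (hp1.trans hpn) hδ.le
        rw [e, norm_neg, norm_mul, Complex.norm_real, Real.norm_of_nonneg g1]
        calc ‖ft D v t‖ * (1 - (nm v : ℝ) ^ (-δ)) ≤
            (N * (1 / (nm v : ℝ))) * (δ * Real.log (nm v)) := by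
              refine mul_le_mul hft g2 g1 (by positivity)
          _ = N * (δ * (Real.log (nm v) / (nm v : ℝ))) := by ring
          _ ≤ _ := by
              refine mul_le_mul_of_nonneg_left ?_ hN0
              have : 0 ≤ (nm v : ℝ) ^ (-2 : ℝ) := by positivity
              linarith
      · rw [if_neg hX1, if_neg hX1, if_pos (by omega), sub_zero, norm_mul, Complex.norm_real,
          Real.norm_of_nonneg hqδ.le]
        calc ‖ft D v t‖ * (nm v : ℝ) ^ (-δ) ≤ (N * (1 / (nm v : ℝ))) * (nm v : ℝ) ^ (-δ) := by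
              gcongr
          _ = N * (nm v : ℝ) ^ (-1 - δ) := by
              rw [sub_eq_add_neg, Real.rpow_add hq0, Real.rpow_neg_one, one_div]
              ring
          _ ≤ _ := by
              refine mul_le_mul_of_nonneg_left ?_ hN0
              have : 0 ≤ (nm v : ℝ) ^ (-2 : ℝ) := by positivity
              linarith
    · have hgv : gv D v t = 0 := by
        unfold gv
        rw [if_neg hpr]
      have e : ft D v t * (((nm v : ℝ) ^ (-δ) : ℝ) : ℂ) -
          (if nm v < X then gv D v t else 0) =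
          ft D v t * (((nm v : ℝ) ^ (-δ) : ℝ) : ℂ) := by
        rw [hgv]
        simp
      rw [e, norm_mul, Complex.norm_real, Real.norm_of_nonneg hqδ.le]
      have hsq : ((below v : ℕ) : ℝ) ^ 2 ≤ nm v := by
        obtain ⟨g1, _, _⟩ := nm_eq v
        have g3 : 2 ≤ deg v := by
          obtain ⟨_, g2, _⟩ := nm_eq v
          by_contra h4
          have h5 : deg v = 1 := by omega
          rw [h5, pow_one] at g1
          exact hpr (by rw [g1]; exact (below v).2)
        rw [g1]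
        have : (below v : ℕ) ^ 2 ≤ (below v : ℕ) ^ deg v := Nat.pow_le_pow_right (below v).2.pos g3
        exact_mod_cast this
      have hnn : 0 ≤ ((if (below v : ℕ) < X then δ * (if (below v : ℕ).Prime then
          Real.log (below v : ℕ) / ((below v : ℕ) : ℝ) else 0) else 0) +
          if X ≤ (below v : ℕ) then (if (below v : ℕ).Prime then
          ((below v : ℕ) : ℝ) ^ (-1 - δ) else 0) else 0) := by
        have a1 : 0 ≤ (if (below v : ℕ) < X then δ * (if (below v : ℕ).Prime then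
          Real.log (below v : ℕ) / ((below v : ℕ) : ℝ) else 0) else 0) := by
          split_ifs <;> positivity
        have a2 : 0 ≤ (if X ≤ (below v : ℕ) then (if (below v : ℕ).Prime then
          ((below v : ℕ) : ℝ) ^ (-1 - δ) else 0) else 0) := by
          split_ifs <;> positivity
        linarith
      calc ‖ft D v t‖ * (nm v : ℝ) ^ (-δ) ≤ (N * (1 / (nm v : ℝ))) * 1 := by gcongr
        _ = N * (1 / (nm v : ℝ)) := mul_one _
        _ ≤ N * (1 / ((below v : ℕ) : ℝ) ^ 2) := by gcongr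
        _ ≤ _ := by
            rw [← hr]
            exact mul_le_mul_of_nonneg_left (by linarith) hN0
  have h3 : fz w α v z - (if nm v < X then gv D v t else 0) =
      (fz w α v z - ft D v t * (((nm v : ℝ) ^ (-δ) : ℝ) : ℂ)) +
      (ft D v t * (((nm v : ℝ) ^ (-δ) : ℝ) : ℂ) - (if nm v < X then gv D v t else 0)) := by
    ring
  rw [h3]
  refine (norm_add_le _ _).trans ((add_le_add h1 h2).trans (le_of_eq ?_))
  unfold uu1
  ring

/-- the value of the logarithm of the modulus at distance `δ` from the edge -/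
theorem center (d N : ℕ) : ∃ C : ℝ, 0 < C ∧ ∀ (K : Type) [Field K] [NumberField K],
    Module.finrank ℚ K ≤ d → ∀ (w : ℝ) (α : HeightOneSpectrum (𝓞 K) → Fin N → ℂ)
    (hα : BdK w α) (δ t : ℝ), 0 < δ → δ ≤ 1 →
      |(deriv (PG w α) ((δ : ℂ) + (t : ℂ) * Complex.I)).re - mD (sysLD w α hα) δ t| ≤ C := by
  obtain ⟨C, hC, h⟩ := uu1_sum
  refine ⟨N * (d * C) + 1, by positivity, fun K _ _ hK w α hα δ t hδ hδ1 => ?_⟩
  obtain ⟨hs, hs2⟩ := h δ hδ hδ1
  set z : ℂ := (δ : ℂ) + (t : ℂ) * Complex.I with hz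
  have hzre : 0 < z.re := by simp [hz, hδ]
  have h1 := fz_hasSum hα hzre
  set X := ⌈Real.exp (1 / δ)⌉₊ with hX
  classical
  have h2 : HasSum (fun v => if nm v < X then gv (sysLD w α hα) v t else 0)
      (∑ v ∈ FV nm hfin X, gv (sysLD w α hα) v t) := by
    have e : ∑ v ∈ FV nm hfin X, gv (sysLD w α hα) v t = ∑ v ∈ FV nm hfin X,
        (if nm v < X then gv (sysLD w α hα) v t else 0) :=
      Finset.sum_congr rfl fun v hv => by rw [if_pos (mem_FV.1 hv)]
    rw [e]
    exact hasSum_sum_of_ne_finset_zero fun v hv => if_neg fun h => hv (mem_FV.2 h)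
  have h3 := h1.sub h2
  have hsum : Summable fun v : HeightOneSpectrum (𝓞 K) => uu1 δ (below v : ℕ) :=
    summable_of_sum_le (fun v => uu1_nonneg hδ.le _)
      (fun G => sum_over_below (uu1_nonneg hδ.le) hs G)
  have htsum : ∑' v : HeightOneSpectrum (𝓞 K), uu1 δ (below v : ℕ) ≤
      Module.finrank ℚ K * ∑' n, uu1 δ n :=
    hsum.tsum_le_of_sum_le fun G => sum_over_below (uu1_nonneg hδ.le) hs G
  have h4 : ‖deriv (PG w α) z - ∑ v ∈ FV nm hfin X, gv (sysLD w α hα) v t‖ ≤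
      N * ∑' v : HeightOneSpectrum (𝓞 K), uu1 δ (below v : ℕ) := by
    rw [← h3.tsum_eq]
    refine tsum_of_norm_bounded (hsum.hasSum.mul_left (N : ℝ)) fun v => ?_
    exact diff_bound hα v hδ t
  have h5 : mD (sysLD w α hα) δ t = (∑ v ∈ FV nm hfin X, gv (sysLD w α hα) v t).re := by
    unfold mD
    rw [sum_gv]
  rw [h5, ← Complex.sub_re]
  refine (Complex.abs_re_le_norm _).trans (h4.trans ?_)
  have hdK : (Module.finrank ℚ K : ℝ) ≤ d := by exact_mod_cast hK
  have e1 : (Module.finrank ℚ K : ℝ) * ∑' n, uu1 δ n ≤ d * C := by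
    refine mul_le_mul hdK hs2 (tsum_nonneg (uu1_nonneg hδ.le)) (by positivity)
  have e2 : (N : ℝ) * ∑' v : HeightOneSpectrum (𝓞 K), uu1 δ (below v : ℕ) ≤ N * (d * C) := by
    gcongr
    exact htsum.trans e1
  linarith

end Pool.Agent.Q255.SG
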