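import Pool.Agent.Q255.SG.QSys
import Pool.Agent.W350.Edge6

/-! # Existence of boundary values for systems over the rational numbers -/

set_option autoImplicit false

namespace Pool.Agent.Q255.SG

open Finset MeasureTheory Filter Topology Pool.Agent.Q255.SA Pool.Agent.W350.Edge

variable {N : ℕ} {w : ℝ}

/-- power sums -/
noncomputable def tq (α : ℕ → Fin N → ℂ) (p m : ℕ) : ℂ := ∑ j, α p j ^ m

theorem WB_tq {α : ℕ → Fin N → ℂ} (hα : Bd w α) : WB (tq α) w ∅ N := by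
  intro p hp _ m
  unfold tq
  refine (norm_sum_le_of_le (n := fun _ => ((p : ℝ) ^ (w / 2)) ^ (m + 1)) _ fun j _ => ?_).trans ?_
  · rw [norm_pow]
    exact pow_le_pow_left₀ (norm_nonneg _) (hα p hp j) _
  · rw [Finset.sum_const, Finset.card_univ, Fintype.card_fin, nsmul_eq_mul]

theorem norm_bs {a : ℂ} {p : ℕ} (hp : 2 ≤ p) (ha : ‖a‖ ≤ (p : ℝ) ^ (w / 2)) {s : ℂ}
    (hs : w / 2 + 1 ≤ s.re) : ‖a * (p : ℂ) ^ (-s)‖ ≤ 1 / 2 := by
  have h0 : (0 : ℝ) < p := by exact_mod_cast (by omega : 0 < p)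
  have h2 : (2 : ℝ) ≤ p := by exact_mod_cast hp
  rw [norm_mul, Complex.norm_natCast_cpow_of_pos (by omega), Complex.neg_re]
  calc ‖a‖ * (p : ℝ) ^ (-s.re) ≤ (p : ℝ) ^ (w / 2) * (p : ℝ) ^ (-(w / 2 + 1)) := by
        gcongr
        linarith
    _ = (p : ℝ) ^ (-1 : ℝ) := by
        rw [← Real.rpow_add h0]
        congr 1
        ring
    _ ≤ 1 / 2 := by
        rw [Real.rpow_neg_one, inv_eq_one_div]
        exact one_div_le_one_div_of_le (by norm_num) h2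

theorem fac_tq {α : ℕ → Fin N → ℂ} (hα : Bd w α) (B : ℕ → Polynomial ℂ) {p : ℕ} (hp : p.Prime)
    {s : ℂ} (hs : w / 2 + 1 ≤ s.re) :
    fac (tq α) ∅ B s p = (∏ j, (1 - α p j * (p : ℂ) ^ (-s)))⁻¹ := by
  unfold fac
  rw [if_neg (Finset.notMem_empty p), ← Finset.prod_inv_distrib]
  have h2 : ∀ j : Fin N, HasSum (fun m : ℕ => α p j ^ (m + 1) *
      (p : ℂ) ^ (-((m + 1 : ℂ) * s)) / (m + 1 : ℂ)) (-Complex.log (1 - α p j * (p : ℂ) ^ (-s))) := by
    intro j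
    have h3 := norm_bs hp.two_le (hα p hp j) hs
    have h4 := Complex.hasSum_taylorSeries_neg_log' (z := α p j * (p : ℂ) ^ (-s)) (by linarith)
    convert h4 using 2 with m
    rw [mul_pow, ← Complex.cpow_nat_mul]
    congr 3
    push_cast
    ring
  have h1 : logF (tq α) p s = ∑ j, -Complex.log (1 - α p j * (p : ℂ) ^ (-s)) := by
    unfold logF tq
    have h3 := hasSum_sum (s := Finset.univ) (fun j _ => h2 j)
    rw [← h3.tsum_eq]
    refine tsum_congr fun m => ?_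
    rw [Finset.sum_mul, Finset.sum_div]
  rw [h1, Complex.exp_sum]
  refine Finset.prod_congr rfl fun j _ => ?_
  have h3 := norm_bs hp.two_le (hα p hp j) hs
  rw [Complex.exp_neg, Complex.exp_log (one_sub_ne (by linarith))]

/-- Boundary values exist outside a set of dimension zero. -/
theorem boundary_q {α : ℕ → Fin N → ℂ} (hα : Bd w α) : ∃ E : Set ℝ, dimH E = 0 ∧
    ∀ τ, τ ∉ E → ∃ l : ℂ, l ≠ 0 ∧
      Tendsto (fun x : ℕ => ∏ p ∈ Nat.primesBelow x,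
        (∏ j, (1 - α p j * (p : ℂ) ^ (-eq0 w τ)))⁻¹) atTop (𝓝 l) ∧
      ∀ K : ℝ, Tendsto (fun s : ℂ => ∏' p : Nat.Primes, (∏ j, (1 - α p j * (p : ℂ) ^ (-s)))⁻¹)
        (𝓝[{s : ℂ | w / 2 + 1 < s.re ∧ ‖s - eq0 w τ‖ ≤ K * (s.re - (w / 2 + 1))}] (eq0 w τ))
        (𝓝 l) := by
  obtain ⟨E, hE, h⟩ := boundary (WB_tq hα) (fun _ => 1) (fun p hp => absurd hp (by simp))
  refine ⟨E, hE, fun τ hτ => ?_⟩
  obtain ⟨l, hl0, hl1, hl2⟩ := h τ hτ
  have hsp : sp w τ = eq0 w τ := rfl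
  refine ⟨l, hl0, hl1.congr fun x => ?_, fun K => (hl2 K).congr' ?_⟩
  · refine Finset.prod_congr rfl fun p hp => ?_
    rw [hsp]
    exact fac_tq hα _ (Nat.prime_of_mem_primesBelow hp) (by rw [eq0_re])
  · filter_upwards [self_mem_nhdsWithin] with s hs
    refine tprod_congr fun p => ?_
    exact fac_tq hα _ p.2 hs.1.le

end Pool.Agent.Q255.SG
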