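import Pool.Agent.Q255.SG.Mult2
import Pool.Agent.Q255.SG.QBd

/-! # Agreement of Euler factors, closeness of the moduli, compactness -/

set_option autoImplicit false

namespace Pool.Agent.Q255.SG

open Finset MeasureTheory Filter Topology Pool.Agent.Q255.SA Polynomial

/-- Systems with the same Euler factors at the small primes. -/
theorem close_of_agree {κ M : ℝ} (hκ : 0 ≤ κ) (hM : 0 ≤ M) : ∃ C : ℝ, 0 < C ∧
    ∀ (D D' : AD κ M) (T T' : Set ℝ), volume T = 0 → volume T' = 0 →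
    ∀ l l' : ℝ → ℂ, Lim (AP D) T l → Lim (AP D') T' l' → ∀ x : ℕ, 3 ≤ x →
      (∀ t, ‖AP D x t‖ = ‖AP D' x t‖) → ∀ a : ℝ,
      ∫⁻ t in Set.Icc a (a + 1), ENNReal.ofReal ((Real.log ‖l t‖ - Real.log ‖l' t‖) ^ 2) ≤
        ENNReal.ofReal (C / Real.log x) := by
  obtain ⟨C, hC, hlog⟩ := ad_log hκ hM
  refine ⟨4 * C, by positivity, fun D D' T T' hT hT' l l' hl hl' x hx heq a => ?_⟩
  have hx3 : (3 : ℝ) ≤ x := by exact_mod_cast hx
  have hlx : 0 < Real.log x := Real.log_pos (by linarith)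
  have g1 := hlog D T hT l hl x hx a
  have g2 := hlog D' T' hT' l' hl' x hx a
  have m2 := log_mul_aemeas D' hT' hl' x (Set.Icc a (a + 1))
  have hpt : ∀ t, ENNReal.ofReal ((Real.log ‖l t‖ - Real.log ‖l' t‖) ^ 2) ≤
      2 * (ENNReal.ofReal ((Real.log ‖l t‖ - Real.log ‖AP D x t‖) ^ 2) +
        ENNReal.ofReal ((Real.log ‖l' t‖ - Real.log ‖AP D' x t‖) ^ 2)) := by
    intro t
    have e3 : (2 : ENNReal) = ENNReal.ofReal 2 := by norm_num
    rw [e3, ← ENNReal.ofReal_add (by positivity) (by positivity),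
      ← ENNReal.ofReal_mul (by norm_num), heq t]
    refine ENNReal.ofReal_le_ofReal ?_
    set A := Real.log ‖l t‖
    set B := Real.log ‖l' t‖
    set U := Real.log ‖AP D' x t‖
    nlinarith [sq_nonneg ((A - U) + (B - U))]
  refine (lintegral_mono fun t => hpt t).trans ?_
  rw [lintegral_const_mul' _ _ (by norm_num), lintegral_add_right' _
    ((m2.pow_const 2).ennreal_ofReal)]
  have e3 : (2 : ENNReal) = ENNReal.ofReal 2 := by norm_num
  calc _ ≤ 2 * (ENNReal.ofReal (C / Real.log x) + ENNReal.ofReal (C / Real.log x)) := by gcongr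
    _ = _ := by
        rw [e3, ← ENNReal.ofReal_add (by positivity) (by positivity),
          ← ENNReal.ofReal_mul (by norm_num)]
        congr 1
        ring

theorem coeff_PP1_le {N : ℕ} {α : Fin N → ℂ} {R : ℝ} (hR : 0 ≤ R) (h : ∀ j, ‖α j‖ ≤ R) (k : ℕ) :
    ‖(PP1 α).coeff k‖ ≤ (1 + R) ^ N := by
  classical
  have key : ∀ s : Finset (Fin N), ∀ k : ℕ,
      ‖(∏ j ∈ s, (1 - C (α j) * X) : ℂ[X]).coeff k‖ ≤ (1 + R) ^ s.card := by
    intro s
    induction s using Finset.induction_on with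
    | empty =>
      intro k
      simp only [Finset.prod_empty, Finset.card_empty, pow_zero, Polynomial.coeff_one]
      split_ifs <;> simp
    | insert j s hj ih =>
      intro k
      rw [Finset.prod_insert hj, Finset.card_insert_of_notMem hj, sub_mul, one_mul, mul_assoc,
        Polynomial.coeff_sub, Polynomial.coeff_C_mul, pow_succ]
      refine (norm_sub_le _ _).trans ?_
      have h1 := ih k
      have h2 : ‖(X * ∏ i ∈ s, (1 - C (α i) * X) : ℂ[X]).coeff k‖ ≤ (1 + R) ^ s.card := by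
        rcases k with _ | k
        · simp
          positivity
        · rw [Polynomial.coeff_X_mul]
          exact ih k
      rw [norm_mul]
      have h3 : ‖α j‖ * ‖(X * ∏ i ∈ s, (1 - C (α i) * X) : ℂ[X]).coeff k‖ ≤
          R * (1 + R) ^ s.card := mul_le_mul (h j) h2 (norm_nonneg _) hR
      nlinarith
  have := key Finset.univ k
  rwa [Finset.card_univ, Fintype.card_fin] at this

/-- Finitely many possible Euler factors. -/
theorem finite_factors (N : ℕ) {R : ℝ} (hR : 0 ≤ R) :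
    {Q : ℤ[X] | ∃ α : Fin N → ℂ, (∀ j, ‖α j‖ ≤ R) ∧
      Q.map (Int.castRingHom ℂ) = PP1 α}.Finite := by
  set M : ℤ := ⌈(1 + R) ^ N⌉ with hM
  set f : ℤ[X] → (Fin (N + 1) → ℤ) := fun Q k => Q.coeff k with hf
  have h1 : (Set.pi Set.univ fun _ : Fin (N + 1) => Set.Icc (-M) M).Finite :=
    Set.Finite.pi fun _ => Set.finite_Icc _ _
  refine Set.Finite.of_finite_image (f := f) (h1.subset ?_) ?_
  · rintro _ ⟨Q, ⟨α, hα, hQ⟩, rfl⟩ k _
    have h2 := coeff_PP1_le hR hα k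
    rw [← hQ, Polynomial.coeff_map] at h2
    have h3 : |((Q.coeff k : ℤ) : ℝ)| ≤ (1 + R) ^ N := by
      rw [← Complex.norm_intCast]
      exact h2
    have h4 : |((Q.coeff k : ℤ) : ℝ)| ≤ (M : ℝ) := h3.trans (Int.le_ceil _)
    have h5 : |Q.coeff k| ≤ M := by exact_mod_cast h4
    exact Set.mem_Icc.2 (abs_le.1 h5)
  · rintro Q ⟨α, _, hQ⟩ Q' ⟨α', _, hQ'⟩ h
    have hd : ∀ (Q : ℤ[X]) (α : Fin N → ℂ), Q.map (Int.castRingHom ℂ) = PP1 α →
        Q.natDegree ≤ N := by
      intro Q α h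
      have h2 := natDegree_PP1 α
      rwa [← h, Polynomial.natDegree_map_eq_of_injective Int.cast_injective] at h2
    ext k
    by_cases hk : k ≤ N
    · exact congrFun h ⟨k, by omega⟩
    · rw [Polynomial.coeff_eq_zero_of_natDegree_lt (lt_of_le_of_lt (hd Q α hQ) (by omega)),
        Polynomial.coeff_eq_zero_of_natDegree_lt (lt_of_le_of_lt (hd Q' α' hQ') (by omega))]

/-- Diagonal choice. -/
theorem diagonal {F : ℕ → Set ℤ[X]} (hF : ∀ p, (F p).Finite) {P : ℕ → ℕ → ℤ[X]}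
    (hP : ∀ n p, P n p ∈ F p) : ∃ φ : ℕ → ℕ, StrictMono φ ∧ ∃ Q : ℕ → ℤ[X],
      (∀ p, Q p ∈ F p) ∧ ∀ p, ∀ᶠ n in atTop, P (φ n) p = Q p := by
  letI : TopologicalSpace ℤ[X] := ⊥
  haveI : DiscreteTopology ℤ[X] := ⟨rfl⟩
  have hK : IsCompact (Set.pi Set.univ F) := isCompact_univ_pi fun p => (hF p).isCompact
  obtain ⟨Q, hQ, φ, hφ, hlim⟩ := hK.tendsto_subseq (x := P) fun n p _ => hP n p
  refine ⟨φ, hφ, Q, fun p => hQ p (Set.mem_univ p), fun p => ?_⟩
  have h1 := (tendsto_pi_nhds.1 hlim) p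
  rw [nhds_discrete, tendsto_pure] at h1
  exact h1

end Pool.Agent.Q255.SG
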