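import Pool.Agent.H18R3.Refl

/-! # Reflection: the real part on a segment decides the analytic behaviour -/

set_option autoImplicit false

namespace Pool.Agent.Q255.SG

open MeasureTheory Filter Topology Metric

/-- a real analytic function is the restriction of a complex analytic one -/
theorem complexify {ψ : ℝ → ℝ} (hψ : AnalyticAt ℝ ψ 0) : ∃ F : ℂ → ℂ, ∃ r : ℝ, 0 < r ∧
    DifferentiableOn ℂ F (ball 0 r) ∧ ∀ v : ℝ, |v| < r → F v = (ψ v : ℂ) := by
  obtain ⟨p, R, hR⟩ := hψ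
  obtain ⟨C, ρ, hC, hρ, hle⟩ := p.le_mul_pow_of_radius_pos (hR.r_pos.trans_le hR.r_le)
  obtain ⟨R', hR'0, hR'⟩ := ENNReal.lt_iff_exists_nnreal_btwn.1 hR.r_pos
  have hR'1 : (0 : ℝ) < R' := by exact_mod_cast (ENNReal.coe_pos.1 hR'0)
  set r : ℝ := min R' (1 / (2 * ρ)) with hr
  have hr0 : 0 < r := lt_min hR'1 (by positivity)
  have hcoef : ∀ n, |p.coeff n| ≤ C * ρ ^ n := by
    intro n
    rw [← Real.norm_eq_abs, ← FormalMultilinearSeries.norm_apply_eq_norm_coef]
    exact hle n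
  have hterm : ∀ (n : ℕ) (z : ℂ), z ∈ ball (0 : ℂ) r →
      ‖(p.coeff n : ℂ) * z ^ n‖ ≤ C * (1 / 2) ^ n := by
    intro n z hz
    have hz' : ‖z‖ ≤ 1 / (2 * ρ) := ((mem_ball_zero_iff.1 hz).trans_le (min_le_right _ _)).le
    rw [norm_mul, norm_pow, Complex.norm_real, Real.norm_eq_abs]
    calc |p.coeff n| * ‖z‖ ^ n ≤ (C * ρ ^ n) * (1 / (2 * ρ)) ^ n := by
          gcongr
          exact hcoef n
      _ = C * (1 / 2) ^ n := by
          rw [mul_assoc, ← mul_pow]
          congr 2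
          field_simp
  have hsum : Summable fun n : ℕ => C * (1 / 2 : ℝ) ^ n :=
    (summable_geometric_of_lt_one (by norm_num) (by norm_num)).mul_left C
  refine ⟨fun z => ∑' n : ℕ, (p.coeff n : ℂ) * z ^ n, r, hr0, ?_, fun v hv => ?_⟩
  · exact Complex.differentiableOn_tsum_of_summable_norm hsum (fun n => by fun_prop)
      isOpen_ball hterm
  · have hv2 : v ∈ Metric.eball (0 : ℝ) R := by
      have h1 : |v| < R' := hv.trans_le (min_le_left _ _)
      have h2 : edist v 0 < R' := by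
        rw [edist_dist, Real.dist_eq, sub_zero, ← ENNReal.ofReal_coe_nnreal]
        exact (ENNReal.ofReal_lt_ofReal_iff hR'1).2 h1
      exact h2.trans hR'
    have h3 := hR.hasSum hv2
    simp only [FormalMultilinearSeries.apply_eq_pow_smul_coeff, smul_eq_mul, zero_add] at h3
    have h4 := (Complex.hasSum_ofReal (f := fun n => v ^ n * p.coeff n) (x := ψ v)).2 h3
    refine HasSum.tsum_eq (HasSum.congr_fun h4 fun n => ?_)
    push_cast
    ring

/-- `ζ log ζ` is continuous on the closed upper half-plane -/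
theorem mul_log_cont : ContinuousOn (fun ζ : ℂ => ζ * Complex.log ζ) {ζ | 0 ≤ ζ.im} := by
  intro ζ hζ
  by_cases h0 : ζ = 0
  · subst h0
    refine ContinuousAt.continuousWithinAt ?_
    unfold ContinuousAt
    simp only [Complex.log_zero, mul_zero]
    rw [tendsto_zero_iff_norm_tendsto_zero]
    have h1 : Tendsto (fun ζ : ℂ => |‖ζ‖ * Real.log ‖ζ‖| + ‖ζ‖ * Real.pi) (𝓝 0) (𝓝 0) := by
      have h2 : Continuous fun ζ : ℂ => |‖ζ‖ * Real.log ‖ζ‖| + ‖ζ‖ * Real.pi :=
        ((Real.continuous_mul_log.comp continuous_norm).abs).add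
          (continuous_norm.mul continuous_const)
      have h3 := h2.tendsto 0
      simpa using h3
    refine squeeze_zero (fun _ => norm_nonneg _) (fun ζ => ?_) h1
    rw [norm_mul]
    have h4 : ‖Complex.log ζ‖ ≤ |Real.log ‖ζ‖| + Real.pi := by
      refine (Complex.norm_le_abs_re_add_abs_im _).trans ?_
      rw [Complex.log_re, Complex.log_im]
      exact add_le_add le_rfl (Complex.abs_arg_le_pi ζ)
    calc ‖ζ‖ * ‖Complex.log ζ‖ ≤ ‖ζ‖ * (|Real.log ‖ζ‖| + Real.pi) := by gcongr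
      _ = _ := by rw [abs_mul, abs_of_nonneg (norm_nonneg ζ)]; ring
  · by_cases h1 : ζ ∈ Complex.slitPlane
    · exact (continuousAt_id.mul (continuousAt_clog h1)).continuousWithinAt
    · rw [Complex.mem_slitPlane_iff, not_or, not_lt, not_not] at h1
      have h2 : ζ.re < 0 := by
        refine lt_of_le_of_ne h1.1 fun h => h0 ?_
        exact Complex.ext h h1.2
      exact continuousWithinAt_id.mul
        (Complex.continuousWithinAt_log_of_re_neg_of_im_zero h2 h1.2)

/-- the real part on the real segment decides -/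
theorem reflect {g : ℂ → ℂ} {δ : ℝ} (hδ : 0 < δ)
    (hc : ContinuousOn g {ζ | ‖ζ‖ < δ ∧ 0 ≤ ζ.im})
    (hd : DifferentiableOn ℂ g {ζ | ‖ζ‖ < δ ∧ 0 < ζ.im}) (κ : ℝ) {ψ : ℝ → ℝ}
    (hψ : AnalyticAt ℝ ψ 0)
    (hline : ∀ u : ℝ, |u| < δ → (g u).re - (g 0).re =
      ∫ v in (0 : ℝ)..u, (κ * Real.log v + ψ v)) :
    ∃ δ' : ℝ, 0 < δ' ∧ ∃ H : ℂ → ℂ, DifferentiableOn ℂ H (ball 0 δ') ∧
      ∀ ζ : ℂ, ‖ζ‖ < δ' → 0 < ζ.im → deriv g ζ = κ * Complex.log ζ + H ζ := by
  obtain ⟨F, r, hr, hF, hFv⟩ := complexify hψ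
  obtain ⟨Φ, hΦ0, hΦ⟩ := hF.isExactOn_ball.with_val_at 0 0
  set a : ℝ := min δ r with ha
  have ha0 : 0 < a := lt_min hδ hr
  have had : a ≤ δ := min_le_left _ _
  have har : a ≤ r := min_le_right _ _
  set L0 : ℂ → ℂ := fun ζ => κ * (ζ * Complex.log ζ - ζ) with hL0
  have hL0d : ∀ ζ : ℂ, 0 < ζ.im → HasDerivAt L0 (κ * Complex.log ζ) ζ := by
    intro ζ hζ
    have h1 : ζ ∈ Complex.slitPlane := Complex.mem_slitPlane_iff.2 (Or.inr hζ.ne')
    have hne : ζ ≠ 0 := Complex.slitPlane_ne_zero h1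
    have h2 := (((hasDerivAt_id ζ).mul (Complex.hasDerivAt_log h1)).sub
      (hasDerivAt_id ζ)).const_mul (κ : ℂ)
    refine h2.congr_deriv ?_
    simp only [id]
    field_simp
    ring
  have hballr : ∀ ζ : ℂ, ‖ζ‖ < a → ζ ∈ ball (0 : ℂ) r := fun ζ h =>
    mem_ball_zero_iff.2 (h.trans_le har)
  -- the corrected function
  set h : ℂ → ℂ := fun ζ => Complex.I * (g ζ - L0 ζ - Φ ζ - ((g 0).re : ℂ)) with hh
  have hcont : ContinuousOn h {ζ | ‖ζ‖ < a ∧ 0 ≤ ζ.im} := by
    have h1 : ContinuousOn g {ζ | ‖ζ‖ < a ∧ 0 ≤ ζ.im} :=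
      hc.mono fun ζ hζ => ⟨hζ.1.trans_le had, hζ.2⟩
    have h2 : ContinuousOn L0 {ζ | ‖ζ‖ < a ∧ 0 ≤ ζ.im} :=
      continuousOn_const.mul ((mul_log_cont.mono fun ζ hζ => hζ.2).sub continuousOn_id)
    have h3 : ContinuousOn Φ {ζ | ‖ζ‖ < a ∧ 0 ≤ ζ.im} := fun ζ hζ =>
      (hΦ ζ (hballr ζ hζ.1)).continuousAt.continuousWithinAt
    exact continuousOn_const.mul (((h1.sub h2).sub h3).sub continuousOn_const)
  have hdiff : DifferentiableOn ℂ h {ζ | ‖ζ‖ < a ∧ 0 < ζ.im} := by
    have h1 : DifferentiableOn ℂ g {ζ | ‖ζ‖ < a ∧ 0 < ζ.im} :=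
      hd.mono fun ζ hζ => ⟨hζ.1.trans_le had, hζ.2⟩
    have h2 : DifferentiableOn ℂ L0 {ζ | ‖ζ‖ < a ∧ 0 < ζ.im} := fun ζ hζ =>
      (hL0d ζ hζ.2).differentiableAt.differentiableWithinAt
    have h3 : DifferentiableOn ℂ Φ {ζ | ‖ζ‖ < a ∧ 0 < ζ.im} := fun ζ hζ =>
      (hΦ ζ (hballr ζ hζ.1)).differentiableAt.differentiableWithinAt
    exact (((h1.sub h2).sub h3).sub_const _).const_mul _
  have hreal : ∀ u : ℝ, |u| < a → (Φ u).re = ∫ v in (0 : ℝ)..u, ψ v := by
    intro u hu
    have hsub : ∀ v ∈ Set.uIcc 0 u, |v| < a := by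
      intro v hv
      have := Set.abs_sub_left_of_mem_uIcc hv
      rw [sub_zero, sub_zero] at this
      exact this.trans_lt hu
    have hder : ∀ v ∈ Set.uIcc 0 u, HasDerivAt (fun v : ℝ => (Φ v).re) (ψ v) v := by
      intro v hv
      have h1 := hΦ v (hballr v (by rw [Complex.norm_real]; exact hsub v hv))
      rw [hFv v ((hsub v hv).trans_le har)] at h1
      have h2 := h1.comp_ofReal
      have h3 : HasDerivAt (fun v : ℝ => (Φ v).re) ((ψ v : ℂ).re) v :=
        Complex.reCLM.hasFDerivAt.comp_hasDerivAt v h2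
      rwa [Complex.ofReal_re] at h3
    have hcψ : ContinuousOn ψ (Set.uIcc 0 u) := by
      have h1 : ContinuousOn (fun v : ℝ => (F v).re) (Set.uIcc 0 u) := by
        refine Complex.continuous_re.comp_continuousOn (hF.continuousOn.comp
          Complex.continuous_ofReal.continuousOn fun v hv => ?_)
        exact hballr v (by rw [Complex.norm_real]; exact hsub v hv)
      refine h1.congr fun v hv => ?_
      simp only []
      rw [hFv v ((hsub v hv).trans_le har), Complex.ofReal_re]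
    rw [intervalIntegral.integral_eq_sub_of_hasDerivAt hder hcψ.intervalIntegrable]
    simp [hΦ0]
  have hzero : ∀ u : ℝ, |u| < a → (h u).im = 0 := by
    intro u hu
    have h1 := hline u (hu.trans_le had)
    have hcψ : IntervalIntegrable ψ volume 0 u := by
      have hsub : ∀ v ∈ Set.uIcc 0 u, |v| < a := by
        intro v hv
        have := Set.abs_sub_left_of_mem_uIcc hv
        rw [sub_zero, sub_zero] at this
        exact this.trans_lt hu
      have h1 : ContinuousOn (fun v : ℝ => (F v).re) (Set.uIcc 0 u) := by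
        refine Complex.continuous_re.comp_continuousOn (hF.continuousOn.comp
          Complex.continuous_ofReal.continuousOn fun v hv => ?_)
        exact hballr v (by rw [Complex.norm_real]; exact hsub v hv)
      refine (h1.congr fun v hv => ?_).intervalIntegrable
      rw [hFv v ((hsub v hv).trans_le har), Complex.ofReal_re]
    rw [intervalIntegral.integral_add (intervalIntegral.intervalIntegrable_log'.const_mul κ) hcψ,
      intervalIntegral.integral_const_mul, integral_log, ← hreal u hu] at h1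
    simp only [hh, Complex.mul_im, Complex.I_re, Complex.I_im, zero_mul, zero_add, one_mul,
      Complex.sub_re, Complex.ofReal_re]
    have h2 : (L0 u).re = κ * (u * Real.log u - u) := by
      simp only [hL0]
      rw [Complex.re_ofReal_mul, Complex.sub_re, Complex.re_ofReal_mul, Complex.log_re,
        Complex.norm_real, Complex.ofReal_re, Real.norm_eq_abs, Real.log_abs]
    rw [h2]
    linarith
  obtain ⟨Hh, hH1, hH2⟩ := Pool.Agent.H18R3.refl hcont hdiff hzero
  refine ⟨a, ha0, fun ζ => -Complex.I * deriv Hh ζ + F ζ, ?_, fun ζ hζ him => ?_⟩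
  · exact ((hH1.deriv isOpen_ball).const_mul _).add (hF.mono (ball_subset_ball har))
  · have hev : ∀ᶠ z in 𝓝 ζ, g z = -Complex.I * Hh z + L0 z + Φ z + ((g 0).re : ℂ) := by
      have h1 : ∀ᶠ z in 𝓝 ζ, ‖z‖ < a := (continuous_norm.tendsto ζ).eventually_lt_const hζ
      have h2 : ∀ᶠ z in 𝓝 ζ, 0 < z.im :=
        (Complex.continuous_im.tendsto ζ).eventually_const_lt him
      filter_upwards [h1, h2] with z hz1 hz2
      rw [hH2 z hz1 hz2.le]
      simp only [hh]
      ring_nf
      rw [Complex.I_sq]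
      ring
    have hHd : HasDerivAt Hh (deriv Hh ζ) ζ :=
      (hH1.differentiableAt (isOpen_ball.mem_nhds (mem_ball_zero_iff.2 hζ))).hasDerivAt
    have h3 : HasDerivAt (fun z => -Complex.I * Hh z + L0 z + Φ z + ((g 0).re : ℂ))
        (-Complex.I * deriv Hh ζ + κ * Complex.log ζ + F ζ) ζ :=
      (((hHd.const_mul (-Complex.I)).add (hL0d ζ him)).add (hΦ ζ (hballr ζ hζ))).add_const _
    rw [Filter.EventuallyEq.deriv_eq hev, h3.deriv]
    ring

end Pool.Agent.Q255.SG
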