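import Pool.Agent.Q255.SG.Line
import Pool.Agent.Q255.SG.RefAn

/-! # Continuation across the edge is decided by the modulus on the edge -/

set_option autoImplicit false

namespace Pool.Agent.Q255.SG

open NumberField IsDedekindDomain Finset Pool.Agent.H921R2.TatePole
  Pool.Agent.W350.EdgeEC Pool.Agent.W350.EdgeNF Pool.Agent.W350.EdgeV MeasureTheory Filter Topology
  Pool.Agent.Q255.SA

theorem log_I_mul {u : ℂ} (hu : 0 < u.re) :
    Complex.log (Complex.I * u) = Real.pi / 2 * Complex.I + Complex.log u := by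
  have hu0 : u ≠ 0 := by
    rintro rfl
    simp at hu
  have h1 := Complex.abs_arg_lt_pi_div_two_iff.2 (Or.inl hu)
  rw [abs_lt] at h1
  rw [Complex.log_mul Complex.I_ne_zero hu0, Complex.log_I]
  rw [Complex.arg_I]
  exact ⟨by linarith [Real.pi_pos], by linarith⟩

variable {K : Type} [Field K] [NumberField K] {N : ℕ} {w : ℝ}

/-- `L` is given to the right of the edge by the Euler product -/
def IsL (w : ℝ) (α : HeightOneSpectrum (𝓞 K) → Fin N → ℂ) (L : ℂ → ℂ) : Prop :=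
  ∀ s : ℂ, w / 2 + 1 < s.re →
    L s = Complex.exp (deriv (PG w α) (s - ((w / 2 + 1 : ℝ) : ℂ)))

theorem isL_tprod {α : HeightOneSpectrum (𝓞 K) → Fin N → ℂ} (hα : BdK w α) :
    IsL w α (fun s => ∏' v, (∏ j, (1 - α v j * (nm v : ℂ) ^ (-s)))⁻¹) := by
  intro s hs
  have hz : 0 < (s - ((w / 2 + 1 : ℝ) : ℂ)).re := by
    rw [Complex.sub_re, Complex.ofReal_re]
    linarith
  have h1 := (L_eq hα hz).tprod_eq
  simp only []
  rw [← h1]
  refine tprod_congr fun v => ?_
  rw [add_sub_cancel]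

theorem fwd {α : HeightOneSpectrum (𝓞 K) → Fin N → ℂ} (hα : BdK w α) {T : Set ℝ}
    (hT : volume T = 0) {l : ℝ → ℂ} (hl : Lim (PP (sysLD w α hα)) T l) {L : ℂ → ℂ}
    (hL : IsL w α L) {t0 κ : ℝ} {ψ : ℝ → ℝ} (hψ : AnalyticAt ℝ ψ t0) {δ : ℝ} (hδ : 0 < δ)
    (h : ∀ᵐ t : ℝ, |t - t0| < δ → ‖l t‖ = |t - t0| ^ κ * Real.exp (ψ t)) :
    ∃ F : ℂ → ℂ, AnalyticAt ℂ F (epw w t0) ∧ F (epw w t0) ≠ 0 ∧ ∃ δ' : ℝ, 0 < δ' ∧
      ∀ s : ℂ, w / 2 + 1 < s.re → ‖s - epw w t0‖ < δ' →
        L s = (s - epw w t0) ^ (κ : ℂ) * F s := by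
  set g : ℂ → ℂ := fun ζ => Complex.I * PG w α ((t0 : ℂ) * Complex.I - Complex.I * ζ) with hg
  have hre : ∀ ζ : ℂ, ((t0 : ℂ) * Complex.I - Complex.I * ζ).re = ζ.im := by
    intro ζ
    simp
  have hc : ContinuousOn g {ζ | ‖ζ‖ < δ ∧ 0 ≤ ζ.im} := by
    refine continuousOn_const.mul ((PG_continuousOn hα).comp (by fun_prop) fun ζ hζ => ?_)
    show 0 ≤ ((t0 : ℂ) * Complex.I - Complex.I * ζ).re
    rw [hre]
    exact hζ.2
  have hder : ∀ ζ : ℂ, 0 < ζ.im →
      HasDerivAt g (deriv (PG w α) ((t0 : ℂ) * Complex.I - Complex.I * ζ)) ζ := by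
    intro ζ hζ
    have h1 : HasDerivAt (fun ζ : ℂ => (t0 : ℂ) * Complex.I - Complex.I * ζ) (-Complex.I) ζ := by
      have := ((hasDerivAt_id ζ).const_mul Complex.I).const_sub ((t0 : ℂ) * Complex.I)
      simpa using this
    have h2 := ((PG_deriv hα (z := (t0 : ℂ) * Complex.I - Complex.I * ζ)
      (by rw [hre]; exact hζ)).comp ζ h1).const_mul Complex.I
    refine h2.congr_deriv ?_
    ring_nf
    rw [Complex.I_sq]
    ring
  have hd : DifferentiableOn ℂ g {ζ | ‖ζ‖ < δ ∧ 0 < ζ.im} := fun ζ hζ =>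
    (hder ζ hζ.2).differentiableAt.differentiableWithinAt
  have hψ' : AnalyticAt ℝ (fun v => ψ (t0 - v)) 0 := by
    have h1 : AnalyticAt ℝ (fun v : ℝ => t0 - v) 0 := analyticAt_const.sub analyticAt_id
    exact AnalyticAt.comp' (by simpa using hψ) h1
  have hline : ∀ u : ℝ, |u| < δ → (g u).re - (g 0).re =
      ∫ v in (0 : ℝ)..u, (κ * Real.log v + ψ (t0 - v)) := by
    intro u hu
    have e1 : (g u).re - (g 0).re =
        -(PG w α (((t0 - u : ℝ) : ℂ) * Complex.I) - PG w α ((t0 : ℂ) * Complex.I)).im := by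
      simp only [hg, Complex.mul_re, Complex.I_re, Complex.I_im, zero_mul, zero_sub, one_mul,
        mul_zero, sub_zero, Complex.sub_im, Complex.ofReal_sub]
      rw [mul_comm Complex.I (u : ℂ), ← sub_mul]
      ring
    rw [e1, (line_l hα hT hl t0 (t0 - u)).2, ← intervalIntegral.integral_symm]
    have e2 : ∫ v in (0 : ℝ)..u, (κ * Real.log v + ψ (t0 - v)) =
        ∫ t in (t0 - u)..t0, (κ * Real.log (t0 - t) + ψ t) := by
      have := intervalIntegral.integral_comp_sub_left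
        (fun t => κ * Real.log (t0 - t) + ψ t) t0 (a := 0) (b := u)
      simpa using this
    rw [e2]
    refine intervalIntegral.integral_congr_ae ?_
    have hne : ∀ᵐ t : ℝ, t ≠ t0 := by
      have : volume ({t0} : Set ℝ) = 0 := measure_singleton t0
      filter_upwards [ae_not this] with t ht using ht
    filter_upwards [h, hne] with t ht htne hmem
    have htd : |t - t0| < δ := by
      have h1 := Set.abs_sub_right_of_mem_uIcc (Set.uIoc_subset_uIcc hmem)
      have h2 : t0 - (t0 - u) = u := by ring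
      rw [h2] at h1
      rw [abs_sub_comm]
      exact h1.trans_lt hu
    have h0 : 0 < |t - t0| := abs_pos.2 (sub_ne_zero.2 htne)
    rw [ht htd, Real.log_mul (Real.rpow_pos_of_pos h0 κ).ne' (Real.exp_pos _).ne', Real.log_exp,
      Real.log_rpow h0, Real.log_abs, ← Real.log_abs (t0 - t), abs_sub_comm, Real.log_abs]
  obtain ⟨δ', hδ', H, hH, hH2⟩ := reflect hδ hc hd κ hψ' hline
  refine ⟨fun s => Complex.exp (κ * (Real.pi / 2 * Complex.I) + H (Complex.I * (s - epw w t0))),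
    ?_, Complex.exp_ne_zero _, δ', hδ', fun s hs hsd => ?_⟩
  · have h1 : AnalyticAt ℂ H 0 := hH.analyticAt (Metric.ball_mem_nhds 0 hδ')
    have h2 : AnalyticAt ℂ (fun s : ℂ => Complex.I * (s - epw w t0)) (epw w t0) :=
      analyticAt_const.mul (analyticAt_id.sub analyticAt_const)
    have h3 : AnalyticAt ℂ (fun s : ℂ => H (Complex.I * (s - epw w t0))) (epw w t0) :=
      AnalyticAt.comp' (by simpa using h1) h2
    exact (analyticAt_const.add h3).cexp
  · set ζ : ℂ := Complex.I * (s - epw w t0) with hζ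
    have him : 0 < ζ.im := by
      rw [hζ, Complex.I_mul_im, Complex.sub_re, epw_re]
      linarith
    have hn : ‖ζ‖ < δ' := by
      rw [hζ, norm_mul, Complex.norm_I, one_mul]
      exact hsd
    have hu : 0 < (s - epw w t0).re := by
      rw [Complex.sub_re, epw_re]
      linarith
    have hne : s - epw w t0 ≠ 0 := by
      intro h0
      rw [h0] at hu
      simp at hu
    have e1 : s - ((w / 2 + 1 : ℝ) : ℂ) = (t0 : ℂ) * Complex.I - Complex.I * ζ := by
      rw [hζ, ← mul_assoc, Complex.I_mul_I]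
      unfold epw
      ring
    rw [hL s hs, e1, ← (hder ζ him).deriv, hH2 ζ hn him, hζ, log_I_mul hu,
      Complex.cpow_def_of_ne_zero hne, ← Complex.exp_add]
    congr 1
    ring

/-- horizontal limits -/
def HorLim (w : ℝ) (L : ℂ → ℂ) (T : Set ℝ) (l : ℝ → ℂ) : Prop :=
  ∀ t ∉ T, Tendsto (fun ε : ℝ => L (epw w t + ε)) (𝓝[>] 0) (𝓝 (l t))

theorem bwd {L : ℂ → ℂ} {T : Set ℝ} (hT : volume T = 0) {l : ℝ → ℂ} (hl : HorLim w L T l)
    {t0 κ : ℝ} {F : ℂ → ℂ} (hF : AnalyticAt ℂ F (epw w t0)) (hF0 : F (epw w t0) ≠ 0) {δ : ℝ}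
    (hδ : 0 < δ) (h : ∀ s : ℂ, w / 2 + 1 < s.re → ‖s - epw w t0‖ < δ →
        L s = (s - epw w t0) ^ (κ : ℂ) * F s) :
    ∃ ψ : ℝ → ℝ, AnalyticAt ℝ ψ t0 ∧ ∃ δ' : ℝ, 0 < δ' ∧
      ∀ᵐ t : ℝ, |t - t0| < δ' → ‖l t‖ = |t - t0| ^ κ * Real.exp (ψ t) := by
  have hlin : ∀ t : ℝ, epw w t = epw w t0 + ((t - t0 : ℝ) : ℂ) * Complex.I := by
    intro t
    unfold epw
    push_cast
    ring
  have hcont : Continuous fun t : ℝ => epw w t := by
    unfold epw
    fun_prop
  have hFt : AnalyticAt ℝ (fun t : ℝ => F (epw w t)) t0 := by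
    have h1 : AnalyticAt ℝ (fun t : ℝ => epw w t) t0 := by
      unfold epw
      have h2 : AnalyticAt ℝ (fun t : ℝ => (t : ℂ)) t0 := Complex.ofRealCLM.analyticAt t0
      exact analyticAt_const.add (h2.mul analyticAt_const)
    exact AnalyticAt.comp' hF.restrictScalars h1
  have hsq : AnalyticAt ℝ (fun t : ℝ => (F (epw w t)).re ^ 2 + (F (epw w t)).im ^ 2) t0 := by
    have h1 : AnalyticAt ℝ (fun t : ℝ => (F (epw w t)).re) t0 :=
      AnalyticAt.comp' (Complex.reCLM.analyticAt _) hFt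
    have h2 : AnalyticAt ℝ (fun t : ℝ => (F (epw w t)).im) t0 :=
      AnalyticAt.comp' (Complex.imCLM.analyticAt _) hFt
    exact (h1.pow 2).add (h2.pow 2)
  have hnorm : ∀ t : ℝ, (F (epw w t)).re ^ 2 + (F (epw w t)).im ^ 2 = ‖F (epw w t)‖ ^ 2 := by
    intro t
    rw [← Complex.normSq_eq_norm_sq, Complex.normSq_apply]
    ring
  have hpos : 0 < (F (epw w t0)).re ^ 2 + (F (epw w t0)).im ^ 2 := by
    rw [hnorm]
    have := norm_pos_iff.2 hF0
    positivity
  refine ⟨fun t => 1 / 2 * Real.log ((F (epw w t)).re ^ 2 + (F (epw w t)).im ^ 2),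
    analyticAt_const.mul (hsq.log hpos), ?_⟩
  -- a neighbourhood in which everything is good
  have h1 : ∀ᶠ s in 𝓝 (epw w t0), ContinuousAt F s ∧ F s ≠ 0 ∧ ‖s - epw w t0‖ < δ := by
    have e1 : ∀ᶠ s in 𝓝 (epw w t0), ContinuousAt F s :=
      hF.eventually_analyticAt.mono fun s hs => hs.continuousAt
    have e2 : ∀ᶠ s in 𝓝 (epw w t0), F s ≠ 0 := hF.continuousAt.eventually_ne hF0
    have e3 : ∀ᶠ s in 𝓝 (epw w t0), ‖s - epw w t0‖ < δ := by
      have : Metric.ball (epw w t0) δ ∈ 𝓝 (epw w t0) := Metric.ball_mem_nhds _ hδ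
      filter_upwards [this] with s hs
      rwa [mem_ball_iff_norm] at hs
    filter_upwards [e1, e2, e3] with s a b c using ⟨a, b, c⟩
  obtain ⟨δ', hδ', hball⟩ := Metric.eventually_nhds_iff.1 (hcont.continuousAt.eventually h1)
  refine ⟨δ', hδ', ?_⟩
  have hne : ∀ᵐ t : ℝ, t ≠ t0 := by
    have : volume ({t0} : Set ℝ) = 0 := measure_singleton t0
    filter_upwards [ae_not this] with t ht using ht
  filter_upwards [ae_not hT, hne] with t htT htne htd
  obtain ⟨a1, a2, a3⟩ := hball (y := t) (by rw [Real.dist_eq]; exact htd)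
  have hlim := hl t htT
  have hev : ∀ᶠ ε : ℝ in 𝓝[>] 0, L (epw w t + ε) =
      (epw w t + ε - epw w t0) ^ (κ : ℂ) * F (epw w t + ε) := by
    have c1 : Continuous fun ε : ℝ => ‖epw w t + ε - epw w t0‖ := by fun_prop
    have c2 : ∀ᶠ ε : ℝ in 𝓝[>] 0, ‖epw w t + ε - epw w t0‖ < δ := by
      refine ((c1.tendsto 0).eventually_lt_const ?_).filter_mono nhdsWithin_le_nhds
      simpa using a3
    filter_upwards [c2, self_mem_nhdsWithin] with ε h2 h3
    refine h _ ?_ h2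
    rw [Complex.add_re, epw_re, Complex.ofReal_re]
    have : (0 : ℝ) < ε := h3
    linarith
  have hlim2 : Tendsto (fun ε : ℝ => (epw w t + ε - epw w t0) ^ (κ : ℂ) * F (epw w t + ε)) (𝓝[>] 0)
      (𝓝 ((epw w t - epw w t0) ^ (κ : ℂ) * F (epw w t))) := by
    have b0 : Tendsto (fun ε : ℝ => epw w t + (ε : ℂ)) (𝓝[>] 0) (𝓝 (epw w t)) := by
      have : Continuous fun ε : ℝ => epw w t + (ε : ℂ) := by fun_prop
      have h3 := (this.tendsto 0).mono_left (nhdsWithin_le_nhds (s := Set.Ioi 0))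
      simpa using h3
    have b1 : Tendsto (fun ε : ℝ => (epw w t + ε - epw w t0)) (𝓝[>] 0)
        (𝓝 (epw w t - epw w t0)) := b0.sub_const _
    have b2 : (epw w t - epw w t0) ∈ Complex.slitPlane := by
      rw [hlin t, add_sub_cancel_left, Complex.mem_slitPlane_iff]
      right
      simpa using sub_ne_zero.2 htne
    exact (((continuousAt_cpow_const (b := (κ : ℂ)) b2).tendsto).comp b1).mul (a1.tendsto.comp b0)
  have hfin : l t = (epw w t - epw w t0) ^ (κ : ℂ) * F (epw w t) :=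
    tendsto_nhds_unique (hlim.congr' hev) hlim2
  rw [hfin, norm_mul, Complex.norm_cpow_real, hlin t, add_sub_cancel_left, norm_mul,
    Complex.norm_I, mul_one, Complex.norm_real, Real.norm_eq_abs, ← hlin t]
  congr 1
  have hn : 0 < ‖F (epw w t)‖ := norm_pos_iff.2 a2
  rw [hnorm, Real.log_pow]
  push_cast
  rw [← mul_assoc, one_div, inv_mul_cancel₀ (by norm_num), one_mul, Real.exp_log hn]

end Pool.Agent.Q255.SG
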