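import Mathlib

/-! # The dilogarithm, a primitive of the logarithm of an Euler factor -/

set_option autoImplicit false

namespace Pool.Agent.Q255.SG

open Filter Topology Complex

/-- the dilogarithm `∑ w^n/n²` -/
noncomputable def dl (w : ℂ) : ℂ := ∑' n : ℕ, w ^ (n + 1) / ((n : ℂ) + 1) ^ 2

theorem dl_term_le {w : ℂ} {r : ℝ} (hw : ‖w‖ ≤ r) (n : ℕ) :
    ‖w ^ (n + 1) / ((n : ℂ) + 1) ^ 2‖ ≤ r ^ (n + 1) := by
  have h1 : ‖((n : ℂ) + 1)‖ = (n : ℝ) + 1 := by
    rw [← Nat.cast_succ, Complex.norm_natCast]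
    push_cast
    ring
  have h0 := norm_nonneg w
  rw [norm_div, norm_pow, norm_pow, h1]
  have h2 : (1 : ℝ) ≤ ((n : ℝ) + 1) ^ 2 := by
    have : (0 : ℝ) ≤ n := Nat.cast_nonneg n
    nlinarith
  exact (div_le_self (by positivity) h2).trans (pow_le_pow_left₀ h0 hw _)

theorem norm_dl {w : ℂ} (hw : ‖w‖ ≤ 1 / 2) : ‖dl w‖ ≤ 2 * ‖w‖ := by
  have h0 := norm_nonneg w
  have hs : Summable fun n : ℕ => ‖w‖ ^ (n + 1) := by
    have := (summable_geometric_of_lt_one h0 (by linarith)).mul_left ‖w‖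
    refine this.congr fun n => ?_
    rw [pow_succ, mul_comm]
  refine (tsum_of_norm_bounded hs.hasSum fun n => dl_term_le le_rfl n).trans ?_
  have h1 : ∑' n : ℕ, ‖w‖ ^ (n + 1) = ‖w‖ * (1 - ‖w‖)⁻¹ := by
    rw [← tsum_geometric_of_lt_one h0 (by linarith), ← tsum_mul_left]
    exact tsum_congr fun n => by rw [pow_succ, mul_comm]
  rw [h1, mul_comm (2 : ℝ)]
  refine mul_le_mul_of_nonneg_left ?_ h0
  rw [inv_le_comm₀ (by linarith) (by norm_num)]
  linarith

theorem dl_deriv {w : ℂ} (hw : ‖w‖ < 1) :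
    ∃ d : ℂ, HasDerivAt dl d w ∧ d * w = -Complex.log (1 - w) := by
  obtain ⟨r, hr1, hr2⟩ := exists_between hw
  have hr0 : 0 ≤ r := (norm_nonneg w).trans hr1.le
  have hsum : Summable fun n : ℕ => r ^ (n + 1) := by
    refine ((summable_geometric_of_lt_one hr0 hr2).mul_left r).congr fun n => ?_
    rw [pow_succ, mul_comm]
  have hd : ∀ n : ℕ, DifferentiableOn ℂ (fun z : ℂ => z ^ (n + 1) / ((n : ℂ) + 1) ^ 2)
      (Metric.ball 0 r) := fun n => by fun_prop
  have hle : ∀ (n : ℕ) (z : ℂ), z ∈ Metric.ball (0 : ℂ) r →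
      ‖z ^ (n + 1) / ((n : ℂ) + 1) ^ 2‖ ≤ r ^ (n + 1) := by
    intro n z hz
    exact dl_term_le (by simpa using (mem_ball_zero_iff.1 hz).le) n
  have hwb : w ∈ Metric.ball (0 : ℂ) r := mem_ball_zero_iff.2 hr1
  have h1 := Complex.hasSum_deriv_of_summable_norm hsum hd Metric.isOpen_ball hle hwb
  have h2 : DifferentiableAt ℂ dl w :=
    (Complex.differentiableOn_tsum_of_summable_norm hsum hd Metric.isOpen_ball hle).differentiableAt
      (Metric.isOpen_ball.mem_nhds hwb)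
  refine ⟨deriv dl w, h2.hasDerivAt, ?_⟩
  have h3 : HasSum (fun n : ℕ => w ^ n / ((n : ℂ) + 1)) (deriv dl w) := by
    refine HasSum.congr_fun (show HasSum _ (deriv dl w) from h1) fun n => ?_
    have h4 : HasDerivAt (fun z : ℂ => z ^ (n + 1) / ((n : ℂ) + 1) ^ 2)
        (((n + 1 : ℕ) : ℂ) * w ^ n / ((n : ℂ) + 1) ^ 2) w := by
      have := (hasDerivAt_pow (n + 1) w).div_const (((n : ℂ) + 1) ^ 2)
      simpa using this
    rw [h4.deriv]
    have h5 : ((n : ℂ) + 1) ≠ 0 := by exact_mod_cast Nat.succ_ne_zero n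
    push_cast
    field_simp
  have h6 : HasSum (fun n : ℕ => w ^ (n + 1) / ((n : ℂ) + 1)) (deriv dl w * w) := by
    refine HasSum.congr_fun (h3.mul_right w) fun n => ?_
    rw [pow_succ]
    ring
  have h7 := Complex.hasSum_taylorSeries_neg_log hw
  have h8 : HasSum (fun n : ℕ => w ^ (n + 1) / ((n : ℂ) + 1)) (-Complex.log (1 - w)) := by
    have := (hasSum_nat_add_iff' 1).2 h7
    simp only [Finset.range_one, Finset.sum_singleton, pow_zero, Nat.cast_zero, div_zero,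
      sub_zero] at this
    refine HasSum.congr_fun this fun n => ?_
    push_cast
    ring
  exact h6.unique h8

end Pool.Agent.Q255.SG
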