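import Mathlib

/-! # An inequality of Erdős and Turán for the Sato-Tate measure -/

set_option autoImplicit false

namespace Pool.Agent.Q255.SG.ET

open MeasureTheory Filter Topology

/-- the kernel of Fejér -/
noncomputable def FK (n : ℕ) (t : ℝ) : ℝ :=
  1 + 2 * ∑ k ∈ Finset.Ico 1 n, (1 - (k : ℝ) / n) * Real.cos (k * t)

/-- its primitive -/
noncomputable def FP (n : ℕ) (x : ℝ) : ℝ :=
  x + 2 * ∑ k ∈ Finset.Ico 1 n, (1 - (k : ℝ) / n) * (Real.sin (k * x) / k)

theorem dir (n : ℕ) (t : ℝ) :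
    (1 + 2 * ∑ k ∈ Finset.Ico 1 (n + 1), Real.cos (k * t)) * Real.sin (t / 2) =
      Real.sin ((n + 1 / 2 : ℝ) * t) := by
  induction n with
  | zero =>
    simp
    ring_nf
  | succ n ih =>
    rw [Finset.sum_Ico_succ_top (by omega)]
    have h1 : (1 + 2 * (∑ k ∈ Finset.Ico 1 (n + 1), Real.cos (k * t) +
        Real.cos (((n + 1 : ℕ) : ℝ) * t))) * Real.sin (t / 2) =
        (1 + 2 * ∑ k ∈ Finset.Ico 1 (n + 1), Real.cos (k * t)) * Real.sin (t / 2) +
        2 * Real.cos (((n + 1 : ℕ) : ℝ) * t) * Real.sin (t / 2) := by ring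
    rw [h1, ih]
    have e1 : ((n + 1 / 2 : ℝ)) * t = ((n + 1 : ℕ) : ℝ) * t - t / 2 := by
      push_cast
      ring
    have e2 : (((n + 1 : ℕ) : ℝ) + 1 / 2) * t = ((n + 1 : ℕ) : ℝ) * t + t / 2 := by
      ring
    rw [e1, e2, Real.sin_add, Real.sin_sub]
    ring

/-- `n F_n` -/
noncomputable def FA (n : ℕ) (t : ℝ) : ℝ :=
  n + 2 * ∑ k ∈ Finset.Ico 1 n, ((n : ℝ) - k) * Real.cos (k * t)

theorem FA_succ (n : ℕ) (hn : 1 ≤ n) (t : ℝ) : FA (n + 1) t =
    FA n t + (1 + 2 * ∑ k ∈ Finset.Ico 1 (n + 1), Real.cos (k * t)) := by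
  unfold FA
  rw [Finset.sum_Ico_succ_top hn, Finset.sum_Ico_succ_top hn]
  have h1 : ∑ k ∈ Finset.Ico 1 n, (((n + 1 : ℕ) : ℝ) - k) * Real.cos (k * t) =
      ∑ k ∈ Finset.Ico 1 n, ((n : ℝ) - k) * Real.cos (k * t) +
        ∑ k ∈ Finset.Ico 1 n, Real.cos (k * t) := by
    rw [← Finset.sum_add_distrib]
    refine Finset.sum_congr rfl fun k _ => ?_
    push_cast
    ring
  rw [h1]
  push_cast
  ring

theorem FA_sin {n : ℕ} (hn : 1 ≤ n) (t : ℝ) :
    FA n t * Real.sin (t / 2) ^ 2 = Real.sin (n * t / 2) ^ 2 := by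
  induction n, hn using Nat.le_induction with
  | base => simp [FA]
  | succ n hn ih =>
    have h1 := dir n t
    rw [FA_succ n hn, add_mul, ih]
    have h2 : (1 + 2 * ∑ k ∈ Finset.Ico 1 (n + 1), Real.cos (k * t)) * Real.sin (t / 2) ^ 2 =
        Real.sin ((n + 1 / 2 : ℝ) * t) * Real.sin (t / 2) := by
      rw [← h1]
      ring
    rw [h2]
    have e1 : ((n + 1 / 2 : ℝ)) * t = n * t / 2 + (n * t / 2 + t / 2) := by ring
    have e2 : ((n + 1 : ℕ) : ℝ) * t / 2 = n * t / 2 + t / 2 := by
      push_cast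
      ring
    rw [e1, e2]
    generalize n * t / 2 = a
    generalize t / 2 = b
    rw [Real.sin_add a (a + b), Real.sin_add a b, Real.cos_add a b]
    have ha := Real.sin_sq_add_cos_sq a
    have hb := Real.sin_sq_add_cos_sq b
    have ha' : Real.cos a ^ 2 = 1 - Real.sin a ^ 2 := by linarith
    have hb' : Real.cos b ^ 2 = 1 - Real.sin b ^ 2 := by linarith
    ring_nf
    rw [ha', hb']
    ring

theorem FA_eq {n : ℕ} (hn : 1 ≤ n) (t : ℝ) : FA n t = n * FK n t := by
  have hn0 : (n : ℝ) ≠ 0 := by positivity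
  unfold FA FK
  have h1 : ∑ k ∈ Finset.Ico 1 n, ((n : ℝ) - k) * Real.cos (k * t) =
      n * ∑ k ∈ Finset.Ico 1 n, (1 - (k : ℝ) / n) * Real.cos (k * t) := by
    rw [Finset.mul_sum]
    refine Finset.sum_congr rfl fun k _ => ?_
    field_simp
  rw [h1]
  ring

theorem FK_nonneg {n : ℕ} (hn : 1 ≤ n) (t : ℝ) : 0 ≤ FK n t := by
  have hn0 : (0 : ℝ) < n := by positivity
  rcases eq_or_ne (Real.sin (t / 2)) 0 with h | h
  · obtain ⟨m, hm⟩ := Real.sin_eq_zero_iff.1 h
    have ht : t = m * (2 * Real.pi) := by linarith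
    unfold FK
    have : 0 ≤ ∑ k ∈ Finset.Ico 1 n, (1 - (k : ℝ) / n) * Real.cos (k * t) := by
      refine Finset.sum_nonneg fun k hk => ?_
      rw [Finset.mem_Ico] at hk
      have e : Real.cos (k * t) = 1 := by
        have := Real.cos_int_mul_two_pi (k * m)
        rw [ht, ← this]
        congr 1
        push_cast
        ring
      rw [e, mul_one, sub_nonneg, div_le_one hn0]
      exact_mod_cast hk.2.le
    linarith
  · have h1 := FA_sin hn t
    rw [FA_eq hn] at h1
    have h2 : 0 < Real.sin (t / 2) ^ 2 := by positivity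
    have h3 : 0 ≤ (n * FK n t) * Real.sin (t / 2) ^ 2 := by
      rw [h1]
      positivity
    have h4 := nonneg_of_mul_nonneg_left h3 h2
    exact nonneg_of_mul_nonneg_right h4 hn0

theorem FK_le {n : ℕ} (hn : 1 ≤ n) {t : ℝ} (h0 : 0 < t) (hpi : t ≤ Real.pi) :
    FK n t ≤ Real.pi ^ 2 / n * (1 / t ^ 2) := by
  have hn0 : (0 : ℝ) < n := by positivity
  have hp := Real.pi_pos
  have h1 := FA_sin hn t
  rw [FA_eq hn] at h1
  have h2 : t / Real.pi ≤ Real.sin (t / 2) := by
    have := Real.mul_le_sin (x := t / 2) (by linarith) (by linarith)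
    calc t / Real.pi = 2 / Real.pi * (t / 2) := by ring
      _ ≤ _ := this
  have h3 : 0 < t / Real.pi := by positivity
  have h4 : (t / Real.pi) ^ 2 ≤ Real.sin (t / 2) ^ 2 := by gcongr
  have h5 : n * FK n t * (t / Real.pi) ^ 2 ≤ 1 := by
    calc n * FK n t * (t / Real.pi) ^ 2 ≤ n * FK n t * Real.sin (t / 2) ^ 2 := by
          refine mul_le_mul_of_nonneg_left h4 ?_
          have := FK_nonneg hn t
          positivity
      _ = Real.sin (n * t / 2) ^ 2 := h1
      _ ≤ 1 := Real.sin_sq_le_one _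
  have e : Real.pi ^ 2 / n * (1 / t ^ 2) = 1 / (n * (t / Real.pi) ^ 2) := by
    field_simp
  rw [e, le_div_iff₀ (by positivity)]
  linarith

theorem FK_continuous (n : ℕ) : Continuous (FK n) := by
  unfold FK
  fun_prop

theorem FP_hasDerivAt (n : ℕ) (x : ℝ) : HasDerivAt (FP n) (FK n x) x := by
  unfold FP FK
  refine (hasDerivAt_id x).add (HasDerivAt.const_mul 2 ?_)
  refine HasDerivAt.fun_sum fun k hk => ?_
  rw [Finset.mem_Ico] at hk
  have hk0 : (k : ℝ) ≠ 0 := by
    have : 0 < k := by omega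
    positivity
  refine HasDerivAt.const_mul _ ?_
  have h1 : HasDerivAt (fun y : ℝ => Real.sin (k * y)) (Real.cos (k * x) * (k * 1)) x :=
    ((hasDerivAt_id x).const_mul (k : ℝ)).sin
  have h2 := h1.div_const (k : ℝ)
  refine h2.congr_deriv ?_
  field_simp

theorem FK_integral (n : ℕ) (a b : ℝ) : ∫ t in a..b, FK n t = FP n b - FP n a :=
  intervalIntegral.integral_eq_sub_of_hasDerivAt (fun x _ => FP_hasDerivAt n x)
    ((FK_continuous n).intervalIntegrable _ _)

theorem FP_neg (n : ℕ) (x : ℝ) : FP n (-x) = -FP n x := by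
  unfold FP
  rw [neg_add, ← mul_neg, ← Finset.sum_neg_distrib]
  congr 2
  refine Finset.sum_congr rfl fun k _ => ?_
  rw [mul_neg (k : ℝ), Real.sin_neg]
  ring

theorem FP_pi (n : ℕ) : FP n Real.pi = Real.pi := by
  unfold FP
  rw [Finset.sum_eq_zero, mul_zero, add_zero]
  intro k _
  rw [Real.sin_nat_mul_pi]
  simp

theorem FP_add (n : ℕ) (x : ℝ) (m : ℤ) : FP n (x + m * (2 * Real.pi)) =
    FP n x + m * (2 * Real.pi) := by
  unfold FP
  have : ∀ k : ℕ, Real.sin (k * (x + m * (2 * Real.pi))) = Real.sin (k * x) := by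
    intro k
    have := Real.sin_add_int_mul_two_pi (k * x) (k * m)
    rw [← this]
    congr 1
    push_cast
    ring
  simp only [this]
  ring

theorem FK_total (n : ℕ) : ∫ t in (-Real.pi)..Real.pi, FK n t = 2 * Real.pi := by
  rw [FK_integral, FP_neg, FP_pi]
  ring

/-- the tail -/
theorem tail_le {n : ℕ} (hn : 1 ≤ n) {δ : ℝ} (h0 : 0 < δ) (hpi : δ ≤ Real.pi) :
    Real.pi - FP n δ ≤ Real.pi ^ 2 / (n * δ) := by
  have hn0 : (0 : ℝ) < n := by positivity
  have hp := Real.pi_pos
  have h1 : Real.pi - FP n δ = ∫ t in δ..Real.pi, FK n t := by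
    rw [FK_integral, FP_pi]
  have hd : ∀ x ∈ Set.uIcc δ Real.pi, HasDerivAt (fun t : ℝ => -(Real.pi ^ 2 / n) * t⁻¹)
      (Real.pi ^ 2 / n * (1 / x ^ 2)) x := by
    intro x hx
    rw [Set.uIcc_of_le hpi] at hx
    have hx0 : x ≠ 0 := by linarith [hx.1]
    refine ((hasDerivAt_inv hx0).const_mul _).congr_deriv ?_
    field_simp
  have hint : IntervalIntegrable (fun t : ℝ => Real.pi ^ 2 / n * (1 / t ^ 2)) volume δ
      Real.pi := by
    refine ContinuousOn.intervalIntegrable ?_
    rw [Set.uIcc_of_le hpi]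
    refine continuousOn_const.mul (continuousOn_const.div (continuousOn_id.pow 2) ?_)
    intro x hx
    have : 0 < x := by linarith [hx.1]
    exact pow_ne_zero 2 this.ne'
  rw [h1]
  calc ∫ t in δ..Real.pi, FK n t ≤ ∫ t in δ..Real.pi, Real.pi ^ 2 / n * (1 / t ^ 2) := by
        refine intervalIntegral.integral_mono_on hpi ((FK_continuous n).intervalIntegrable _ _)
          hint fun t ht => FK_le hn (by linarith [ht.1]) ht.2
    _ = -(Real.pi ^ 2 / n) * Real.pi⁻¹ - -(Real.pi ^ 2 / n) * δ⁻¹ :=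
        intervalIntegral.integral_eq_sub_of_hasDerivAt hd hint
    _ ≤ Real.pi ^ 2 / (n * δ) := by
        have e1 : Real.pi ^ 2 / (n * δ) = Real.pi ^ 2 / n * δ⁻¹ := by field_simp
        have e2 : 0 ≤ Real.pi ^ 2 / n * Real.pi⁻¹ := by positivity
        rw [e1]
        linarith

/-- convolution with a step -/
theorem conv_floor (n : ℕ) (y : ℝ) :
    ∫ t in (-Real.pi)..Real.pi, FK n t * (⌊(y - t) / (2 * Real.pi)⌋ : ℝ) =
      FP n y - Real.pi := by
  have hp := Real.pi_pos
  have h2p : (0 : ℝ) < 2 * Real.pi := by positivity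
  -- reduction
  have key : ∀ y : ℝ, -Real.pi ≤ y → y < Real.pi →
      ∫ t in (-Real.pi)..Real.pi, FK n t * (⌊(y - t) / (2 * Real.pi)⌋ : ℝ) =
        FP n y - Real.pi := by
    intro y h1 h2
    have hf0 : ∀ t ∈ Set.uIcc (-Real.pi) y, FK n t * (⌊(y - t) / (2 * Real.pi)⌋ : ℝ) = 0 := by
      intro t ht
      rw [Set.uIcc_of_le h1] at ht
      have : ⌊(y - t) / (2 * Real.pi)⌋ = 0 := by
        rw [Int.floor_eq_zero_iff]
        constructor
        · exact div_nonneg (by linarith [ht.2]) h2p.le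
        · rw [div_lt_one h2p]
          linarith [ht.1]
      rw [this]
      simp
    have hf1 : ∀ t ∈ Set.Ioo y Real.pi, FK n t * (⌊(y - t) / (2 * Real.pi)⌋ : ℝ) =
        -FK n t := by
      intro t ht
      have : ⌊(y - t) / (2 * Real.pi)⌋ = -1 := by
        rw [Int.floor_eq_iff]
        constructor
        · rw [le_div_iff₀ h2p]
          push_cast
          linarith [ht.2]
        · rw [div_lt_iff₀ h2p]
          push_cast
          linarith [ht.1]
      rw [this]
      push_cast
      ring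
    have i0 : IntervalIntegrable (fun t => FK n t * (⌊(y - t) / (2 * Real.pi)⌋ : ℝ)) volume
        (-Real.pi) y := by
      refine (intervalIntegrable_const (c := (0 : ℝ))).congr ?_
      intro t ht
      exact (hf0 t (Set.uIoc_subset_uIcc ht)).symm
    have i1 : IntervalIntegrable (fun t => FK n t * (⌊(y - t) / (2 * Real.pi)⌋ : ℝ)) volume
        y Real.pi := by
      have h3 : IntervalIntegrable (fun t => -FK n t) volume y Real.pi :=
        ((FK_continuous n).neg).intervalIntegrable _ _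
      refine h3.congr_ae ?_
      rw [Set.uIoc_of_le h2.le, Filter.EventuallyEq, ae_restrict_iff' measurableSet_Ioc]
      have h4 : ∀ᵐ t : ℝ, t ≠ Real.pi := by
        have := (measure_singleton (μ := (volume : Measure ℝ)) Real.pi)
        rw [ae_iff]
        simpa using this
      filter_upwards [h4] with t ht1 ht2
      exact (hf1 t ⟨ht2.1, lt_of_le_of_ne ht2.2 ht1⟩).symm
    rw [← intervalIntegral.integral_add_adjacent_intervals i0 i1,
      intervalIntegral.integral_congr (g := fun _ => (0 : ℝ)) hf0,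
      intervalIntegral.integral_zero, zero_add]
    have h5 : ∫ t in y..Real.pi, FK n t * (⌊(y - t) / (2 * Real.pi)⌋ : ℝ) =
        ∫ t in y..Real.pi, -FK n t := by
      refine intervalIntegral.integral_congr_ae ?_
      have h4 : ∀ᵐ t : ℝ, t ≠ Real.pi := by
        have := (measure_singleton (μ := (volume : Measure ℝ)) Real.pi)
        rw [ae_iff]
        simpa using this
      filter_upwards [h4] with t ht1 ht2
      rw [Set.uIoc_of_le h2.le] at ht2
      exact hf1 t ⟨ht2.1, lt_of_le_of_ne ht2.2 ht1⟩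
    rw [h5, intervalIntegral.integral_neg, FK_integral, FP_pi]
    ring
  -- the general case
  set m : ℤ := ⌊(y + Real.pi) / (2 * Real.pi)⌋ with hm
  set y' : ℝ := y - m * (2 * Real.pi) with hy'
  have hm1 : (m : ℝ) ≤ (y + Real.pi) / (2 * Real.pi) := Int.floor_le _
  have hm2 : (y + Real.pi) / (2 * Real.pi) < m + 1 := Int.lt_floor_add_one _
  rw [le_div_iff₀ h2p] at hm1
  rw [div_lt_iff₀ h2p] at hm2
  have h1 : -Real.pi ≤ y' := by rw [hy']; linarith
  have h2 : y' < Real.pi := by rw [hy']; linarith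
  have hy : y = y' + m * (2 * Real.pi) := by rw [hy']; ring
  have h3 : ∀ t : ℝ, FK n t * (⌊(y - t) / (2 * Real.pi)⌋ : ℝ) =
      FK n t * (⌊(y' - t) / (2 * Real.pi)⌋ : ℝ) + m * FK n t := by
    intro t
    have : (y - t) / (2 * Real.pi) = (y' - t) / (2 * Real.pi) + m := by
      rw [hy]
      field_simp
      ring
    rw [this, Int.floor_add_intCast]
    push_cast
    ring
  have hint : IntervalIntegrable (fun t => FK n t * (⌊(y' - t) / (2 * Real.pi)⌋ : ℝ)) volume
      (-Real.pi) Real.pi := by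
    have hmeas : Measurable fun t : ℝ => (⌊(y' - t) / (2 * Real.pi)⌋ : ℝ) := by
      have : Measurable fun t : ℝ => ⌊(y' - t) / (2 * Real.pi)⌋ :=
        Int.measurable_floor.comp (by fun_prop)
      exact measurable_from_top.comp this
    rw [intervalIntegrable_iff]
    refine Integrable.mul_bdd (c := 1) (intervalIntegrable_iff.1
      ((FK_continuous n).intervalIntegrable _ _)) ?_ ?_
    · exact hmeas.aestronglyMeasurable
    · refine (ae_restrict_iff' measurableSet_uIoc).2 (Eventually.of_forall fun t ht => ?_)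
      rw [Set.uIoc_of_le (by linarith)] at ht
      have a1 : (-1 : ℤ) ≤ ⌊(y' - t) / (2 * Real.pi)⌋ := by
        rw [Int.le_floor, le_div_iff₀ h2p]
        push_cast
        linarith [ht.2]
      have a2 : ⌊(y' - t) / (2 * Real.pi)⌋ < 1 := by
        rw [Int.floor_lt, div_lt_iff₀ h2p]
        push_cast
        linarith [ht.1]
      have a3 : ((-1 : ℤ) : ℝ) ≤ (⌊(y' - t) / (2 * Real.pi)⌋ : ℝ) := by exact_mod_cast a1
      have a4 : (⌊(y' - t) / (2 * Real.pi)⌋ : ℝ) < ((1 : ℤ) : ℝ) := by exact_mod_cast a2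
      rw [Real.norm_eq_abs, abs_le]
      push_cast at a3 a4
      constructor <;> linarith
  simp only [h3]
  have hi2 : IntervalIntegrable (fun t => (m : ℝ) * FK n t) volume (-Real.pi) Real.pi :=
    (continuous_const.mul (FK_continuous n)).intervalIntegrable _ _
  rw [intervalIntegral.integral_add hint hi2, key y' h1 h2,
    intervalIntegral.integral_const_mul, FK_total, hy, FP_add]
  ring

/-! ### One-sided Lipschitz functions -/

theorem FK_neg (n : ℕ) (t : ℝ) : FK n (-t) = FK n t := by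
  unfold FK
  simp only [mul_neg, Real.cos_neg]

theorem int_neg (f : ℝ → ℝ) : ∫ t in (-Real.pi)..Real.pi, f t =
    ∫ t in (-Real.pi)..Real.pi, f (-t) := by
  have := intervalIntegral.integral_comp_neg (a := -Real.pi) (b := Real.pi) f
  rw [neg_neg] at this
  exact this.symm

theorem FK_mul_ii (n : ℕ) {H : ℝ → ℝ} {A : ℝ} (hA : ∀ x, |H x| ≤ A) (hmeas : Measurable H)
    (x a b : ℝ) : IntervalIntegrable (fun t => FK n t * H (x - t)) volume a b := by
  rw [intervalIntegrable_iff]
  refine Integrable.mul_bdd (c := A) (intervalIntegrable_iff.1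
    ((FK_continuous n).intervalIntegrable _ _)) ?_ ?_
  · exact (hmeas.comp (by fun_prop)).aestronglyMeasurable
  · exact Eventually.of_forall fun t => hA _

theorem one_sided {n : ℕ} (hn : 4 ≤ n) {H : ℝ → ℝ} {A L E : ℝ} (hL : 0 ≤ L)
    (hlip : ∀ x y, x ≤ y → -(L * (y - x)) ≤ H y - H x) (hA : ∀ x, |H x| ≤ A)
    (hmeas : Measurable H)
    (hE : ∀ x, |∫ t in (-Real.pi)..Real.pi, FK n t * H (x - t)| ≤ E) (x0 : ℝ) :
    H x0 ≤ 2 * L * (4 * Real.pi / n) + 2 * E / (3 * Real.pi) + A / 3 := by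
  have hp := Real.pi_pos
  have hn0 : (0 : ℝ) < n := by positivity
  have hn4 : (4 : ℝ) ≤ n := by exact_mod_cast hn
  have hn1 : 1 ≤ n := by omega
  set δ : ℝ := 4 * Real.pi / n with hδ
  have hδ0 : 0 < δ := by positivity
  have hδp : δ ≤ Real.pi := by
    rw [hδ, div_le_iff₀ hn0]
    nlinarith
  have hA0 : 0 ≤ A := (abs_nonneg _).trans (hA 0)
  have hE0 : 0 ≤ E := (abs_nonneg _).trans (hE 0)
  set r : ℝ := Real.pi - FP n δ with hr
  have hr1 : r ≤ Real.pi / 4 := by
    refine (tail_le hn1 hδ0 hδp).trans (le_of_eq ?_)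
    rw [hδ]
    field_simp
  have hr0 : 0 ≤ r := by
    have h1 : r = ∫ t in δ..Real.pi, FK n t := by
      rw [FK_integral, FP_pi]
    rw [h1]
    exact intervalIntegral.integral_nonneg hδp fun t _ => FK_nonneg hn1 t
  set x1 : ℝ := x0 + δ with hx1
  have hii := FK_mul_ii n hA hmeas x1
  have b1 : -A * r ≤ ∫ t in (-Real.pi)..(-δ), FK n t * H (x1 - t) := by
    have h1 : ∫ t in (-Real.pi)..(-δ), -A * FK n t = -A * r := by
      rw [intervalIntegral.integral_const_mul, FK_integral, FP_neg, FP_neg, FP_pi, hr]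
      ring
    rw [← h1]
    refine intervalIntegral.integral_mono_on (by linarith)
      ((continuous_const.mul (FK_continuous n)).intervalIntegrable _ _) (hii _ _) fun t _ => ?_
    have := FK_nonneg hn1 t
    have h2 := (abs_le.1 (hA (x1 - t))).1
    nlinarith
  have b3 : -A * r ≤ ∫ t in δ..Real.pi, FK n t * H (x1 - t) := by
    have h1 : ∫ t in δ..Real.pi, -A * FK n t = -A * r := by
      rw [intervalIntegral.integral_const_mul, FK_integral, FP_pi, hr]
    rw [← h1]
    refine intervalIntegral.integral_mono_on (by linarith)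
      ((continuous_const.mul (FK_continuous n)).intervalIntegrable _ _) (hii _ _) fun t _ => ?_
    have := FK_nonneg hn1 t
    have h2 := (abs_le.1 (hA (x1 - t))).1
    nlinarith
  have b2 : (H x0 - 2 * L * δ) * (2 * (Real.pi - r)) ≤ ∫ t in (-δ)..δ, FK n t * H (x1 - t) := by
    have h1 : ∫ t in (-δ)..δ, (H x0 - 2 * L * δ) * FK n t =
        (H x0 - 2 * L * δ) * (2 * (Real.pi - r)) := by
      rw [intervalIntegral.integral_const_mul, FK_integral, FP_neg, hr]
      ring
    rw [← h1]
    refine intervalIntegral.integral_mono_on (by linarith)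
      ((continuous_const.mul (FK_continuous n)).intervalIntegrable _ _) (hii _ _) fun t ht => ?_
    have h2 := FK_nonneg hn1 t
    have h3 := hlip x0 (x1 - t) (by rw [hx1]; linarith [ht.2])
    have h4 : L * (x1 - t - x0) ≤ 2 * L * δ := by
      have : x1 - t - x0 ≤ 2 * δ := by rw [hx1]; linarith [ht.1]
      nlinarith
    nlinarith
  have htot : ∫ t in (-Real.pi)..Real.pi, FK n t * H (x1 - t) =
      (∫ t in (-Real.pi)..(-δ), FK n t * H (x1 - t)) + (∫ t in (-δ)..δ, FK n t * H (x1 - t)) +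
        ∫ t in δ..Real.pi, FK n t * H (x1 - t) := by
    rw [intervalIntegral.integral_add_adjacent_intervals (hii _ _) (hii _ _),
      intervalIntegral.integral_add_adjacent_intervals (hii _ _) (hii _ _)]
  have hEx := (abs_le.1 (hE x1)).2
  rw [htot] at hEx
  have h5 : (H x0 - 2 * L * δ) * (2 * (Real.pi - r)) ≤ E + 2 * A * r := by linarith
  have h6 : 0 ≤ 2 * E / (3 * Real.pi) + A / 3 := by positivity
  rcases le_or_gt (H x0 - 2 * L * δ) 0 with h | h
  · linarith
  · have h7 : (H x0 - 2 * L * δ) * (3 * Real.pi / 2) ≤ E + A * Real.pi / 2 := by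
      have h8 : (H x0 - 2 * L * δ) * (3 * Real.pi / 2) ≤
          (H x0 - 2 * L * δ) * (2 * (Real.pi - r)) := by
        refine mul_le_mul_of_nonneg_left ?_ h.le
        linarith
      have h9 : 2 * A * r ≤ A * Real.pi / 2 := by nlinarith
      linarith
    have h10 : H x0 - 2 * L * δ ≤ (E + A * Real.pi / 2) / (3 * Real.pi / 2) := by
      rw [le_div_iff₀ (by positivity)]
      exact h7
    have h11 : (E + A * Real.pi / 2) / (3 * Real.pi / 2) = 2 * E / (3 * Real.pi) + A / 3 := by
      field_simp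
    linarith

theorem two_sided {n : ℕ} (hn : 4 ≤ n) {H : ℝ → ℝ} {A L E : ℝ} (hL : 0 ≤ L)
    (hlip : ∀ x y, x ≤ y → -(L * (y - x)) ≤ H y - H x) (hA : ∀ x, |H x| ≤ A)
    (hmeas : Measurable H)
    (hE : ∀ x, |∫ t in (-Real.pi)..Real.pi, FK n t * H (x - t)| ≤ E) (x0 : ℝ) :
    |H x0| ≤ 2 * L * (4 * Real.pi / n) + 2 * E / (3 * Real.pi) + A / 3 := by
  rw [abs_le]
  refine ⟨?_, one_sided hn hL hlip hA hmeas hE x0⟩
  have h1 := one_sided hn (H := fun x => -H (-x)) hL (fun x y hxy => by
    have := hlip (-y) (-x) (by linarith)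
    have e : L * (-x - -y) = L * (y - x) := by ring
    rw [e] at this
    linarith) (fun x => by rw [abs_neg]; exact hA _) (hmeas.comp measurable_neg).neg
    (E := E) (fun x => by
      have h2 := hE (-x)
      have h3 : ∫ t in (-Real.pi)..Real.pi, FK n t * -H (-(x - t)) =
          -∫ t in (-Real.pi)..Real.pi, FK n t * H (-x - t) := by
        rw [← intervalIntegral.integral_neg, int_neg]
        refine intervalIntegral.integral_congr fun t _ => ?_
        simp only [FK_neg]
        rw [show -(x - -t) = -x - t by ring]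
        ring
      rw [h3, abs_neg]
      exact h2) (-x0)
  simp only [neg_neg] at h1
  linarith

theorem sup_bound {n : ℕ} (hn : 4 ≤ n) {H : ℝ → ℝ} {A L E : ℝ} (hL : 0 ≤ L)
    (hlip : ∀ x y, x ≤ y → -(L * (y - x)) ≤ H y - H x) (hA : ∀ x, |H x| ≤ A)
    (hmeas : Measurable H)
    (hE : ∀ x, |∫ t in (-Real.pi)..Real.pi, FK n t * H (x - t)| ≤ E) (x0 : ℝ) :
    |H x0| ≤ 12 * Real.pi * L / n + E / Real.pi := by
  have hp := Real.pi_pos
  have hn0 : (0 : ℝ) < n := by positivity
  have hb : BddAbove (Set.range fun x => |H x|) := ⟨A, by rintro _ ⟨x, rfl⟩; exact hA x⟩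
  set S : ℝ := ⨆ x, |H x| with hS
  have h1 : ∀ x, |H x| ≤ S := fun x => le_ciSup hb x
  have h2 : S ≤ 2 * L * (4 * Real.pi / n) + 2 * E / (3 * Real.pi) + S / 3 :=
    ciSup_le fun x => two_sided hn hL hlip h1 hmeas hE x
  have h3 : S ≤ 12 * Real.pi * L / n + E / Real.pi := by
    have e1 : 12 * Real.pi * L / n = 3 / 2 * (2 * L * (4 * Real.pi / n)) := by ring
    have e2 : E / Real.pi = 3 / 2 * (2 * E / (3 * Real.pi)) := by
      field_simp
    rw [e1, e2]
    linarith
  exact (h1 x0).trans h3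

/-! ### Integrals -/

theorem int_sin (a : ℝ) {m : ℤ} (hm : m ≠ 0) :
    ∫ t in (-Real.pi)..Real.pi, Real.sin (a + m * t) = 0 := by
  have hm0 : (m : ℝ) ≠ 0 := by exact_mod_cast hm
  have h1 : ∀ t ∈ Set.uIcc (-Real.pi) Real.pi, HasDerivAt (fun t : ℝ => -Real.cos (a + m * t) / m)
      (Real.sin (a + m * t)) t := by
    intro t _
    have h2 : HasDerivAt (fun t : ℝ => a + m * t) (m * 1) t :=
      ((hasDerivAt_id t).const_mul (m : ℝ)).const_add a
    refine ((h2.cos.neg).div_const (m : ℝ)).congr_deriv ?_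
    field_simp
  rw [intervalIntegral.integral_eq_sub_of_hasDerivAt h1
    ((by fun_prop : Continuous fun t : ℝ => Real.sin (a + m * t)).intervalIntegrable _ _)]
  have h3 : Real.cos (a + m * Real.pi) = Real.cos (a + m * -Real.pi) := by
    have := Real.cos_add_int_mul_two_pi (a + m * -Real.pi) m
    rw [← this]
    congr 1
    ring
  rw [h3]
  ring

/-- `∫ cos kt sin (a - 2t)` -/
theorem int_cos_sin (a : ℝ) {k : ℕ} (hk : k ≠ 2) :
    ∫ t in (-Real.pi)..Real.pi, Real.cos (k * t) * Real.sin (a - 2 * t) = 0 := by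
  have e1 : ∀ t : ℝ, Real.cos (k * t) * Real.sin (a - 2 * t) =
      1 / 2 * (Real.sin (a + (((k : ℤ) - 2 : ℤ) : ℝ) * t) +
        Real.sin (a + ((-((k : ℤ) + 2) : ℤ) : ℝ) * t)) := by
    intro t
    have a1 : a + (((k : ℤ) - 2 : ℤ) : ℝ) * t = (a - 2 * t) + k * t := by
      push_cast
      ring
    have a2 : a + ((-((k : ℤ) + 2) : ℤ) : ℝ) * t = (a - 2 * t) - k * t := by
      push_cast
      ring
    rw [a1, a2]
    generalize a - 2 * t = u
    rw [Real.sin_add, Real.sin_sub]
    ring
  simp only [e1]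
  rw [intervalIntegral.integral_const_mul, intervalIntegral.integral_add
    ((by fun_prop : Continuous _).intervalIntegrable _ _)
    ((by fun_prop : Continuous _).intervalIntegrable _ _),
    int_sin a (by omega), int_sin a (by omega)]
  ring

theorem int_cos_sin2 (a : ℝ) :
    ∫ t in (-Real.pi)..Real.pi, Real.cos ((2 : ℕ) * t) * Real.sin (a - 2 * t) =
      Real.pi * Real.sin a := by
  have e1 : ∀ t : ℝ, Real.cos ((2 : ℕ) * t) * Real.sin (a - 2 * t) =
      1 / 2 * (Real.sin a + Real.sin (a + ((-4 : ℤ) : ℝ) * t)) := by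
    intro t
    have a1 : a = (a - 2 * t) + (2 : ℕ) * t := by
      push_cast
      ring
    have a2 : a + ((-4 : ℤ) : ℝ) * t = (a - 2 * t) - (2 : ℕ) * t := by
      push_cast
      ring
    rw [a2]
    obtain ⟨u, hu⟩ : ∃ u, u = a - 2 * t := ⟨_, rfl⟩
    rw [← hu] at a1 ⊢
    rw [a1, Real.sin_sub, Real.sin_add]
    ring
  simp only [e1]
  rw [intervalIntegral.integral_const_mul, intervalIntegral.integral_add
    intervalIntegrable_const
    ((by fun_prop : Continuous _).intervalIntegrable _ _), int_sin a (by omega),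
    intervalIntegral.integral_const]
  simp only [smul_eq_mul]
  ring

/-- the distribution function of the Sato-Tate measure on the circle -/
noncomputable def MS (x : ℝ) : ℝ := x / (2 * Real.pi) - Real.sin (2 * x) / (4 * Real.pi)

noncomputable def ek (k : ℕ) : ℝ := if k = 2 then -1 else 0

theorem conv_sin (n : ℕ) (x : ℝ) :
    ∫ t in (-Real.pi)..Real.pi, FK n t * Real.sin (2 * x - 2 * t) =
      -(2 * Real.pi) * ∑ k ∈ Finset.Ico 1 n, (1 - (k : ℝ) / n) * ek k * Real.sin (2 * x) := by
  have e1 : ∀ t : ℝ, FK n t * Real.sin (2 * x - 2 * t) = Real.cos ((0 : ℕ) * t) *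
      Real.sin (2 * x - 2 * t) + ∑ k ∈ Finset.Ico 1 n, 2 * (1 - (k : ℝ) / n) *
        (Real.cos (k * t) * Real.sin (2 * x - 2 * t)) := by
    intro t
    unfold FK
    rw [add_mul, Finset.mul_sum, Finset.sum_mul]
    congr 1
    · simp
    · refine Finset.sum_congr rfl fun k _ => ?_
      ring
  simp only [e1]
  have hi : ∀ k : ℕ, IntervalIntegrable (fun t => 2 * (1 - (k : ℝ) / n) *
      (Real.cos (k * t) * Real.sin (2 * x - 2 * t))) volume (-Real.pi) Real.pi := fun k =>
    (by fun_prop : Continuous fun t => 2 * (1 - (k : ℝ) / n) *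
      (Real.cos (k * t) * Real.sin (2 * x - 2 * t))).intervalIntegrable _ _
  rw [intervalIntegral.integral_add ((by fun_prop : Continuous _).intervalIntegrable _ _)
    ((continuous_finset_sum _ fun k _ => by fun_prop).intervalIntegrable _ _),
    int_cos_sin _ (by norm_num), zero_add,
    intervalIntegral.integral_finset_sum fun k _ => hi k, Finset.mul_sum]
  refine Finset.sum_congr rfl fun k _ => ?_
  rw [intervalIntegral.integral_const_mul]
  rcases eq_or_ne k 2 with h | h
  · subst h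
    rw [int_cos_sin2]
    unfold ek
    rw [if_pos rfl]
    ring
  · rw [int_cos_sin _ h]
    unfold ek
    rw [if_neg h]
    ring

theorem conv_id (n : ℕ) (x : ℝ) :
    ∫ t in (-Real.pi)..Real.pi, FK n t * (x - t) = 2 * Real.pi * x := by
  have hc := FK_continuous n
  have h1 : ∫ t in (-Real.pi)..Real.pi, FK n t * (x - t) =
      ∫ t in (-Real.pi)..Real.pi, FK n t * (x + t) := by
    rw [int_neg]
    refine intervalIntegral.integral_congr fun t _ => ?_
    simp only [FK_neg]
    ring
  have h2 : (∫ t in (-Real.pi)..Real.pi, FK n t * (x - t)) +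
      ∫ t in (-Real.pi)..Real.pi, FK n t * (x + t) = 2 * x * (2 * Real.pi) := by
    have i1 : Continuous fun t => FK n t * (x - t) := by fun_prop
    have i2 : Continuous fun t => FK n t * (x + t) := by fun_prop
    rw [← intervalIntegral.integral_add (i1.intervalIntegrable _ _)
      (i2.intervalIntegrable _ _), ← FK_total n,
      ← intervalIntegral.integral_const_mul]
    refine intervalIntegral.integral_congr fun t _ => ?_
    ring
  rw [← h1] at h2
  linarith

theorem conv_MS (n : ℕ) (x : ℝ) : ∫ t in (-Real.pi)..Real.pi, FK n t * MS (x - t) =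
    x + ∑ k ∈ Finset.Ico 1 n, (1 - (k : ℝ) / n) * ek k * (Real.sin (2 * x) / 2) := by
  have hp := Real.pi_pos
  have hc := FK_continuous n
  have e1 : ∀ t : ℝ, FK n t * MS (x - t) = 1 / (2 * Real.pi) * (FK n t * (x - t)) +
      -(1 / (4 * Real.pi)) * (FK n t * Real.sin (2 * x - 2 * t)) := by
    intro t
    unfold MS
    rw [show 2 * (x - t) = 2 * x - 2 * t by ring]
    field_simp
    ring
  simp only [e1]
  have i1 : Continuous fun t => 1 / (2 * Real.pi) * (FK n t * (x - t)) := by fun_prop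
  have i2 : Continuous fun t => -(1 / (4 * Real.pi)) *
      (FK n t * Real.sin (2 * x - 2 * t)) := by fun_prop
  rw [intervalIntegral.integral_add (i1.intervalIntegrable _ _) (i2.intervalIntegrable _ _),
    intervalIntegral.integral_const_mul, intervalIntegral.integral_const_mul, conv_id, conv_sin,
    ← Finset.sum_mul, ← Finset.sum_mul]
  field_simp
  ring

/-! ### The inequality -/

theorem MS_lip {x y : ℝ} (h : x ≤ y) : MS y - MS x ≤ 1 / Real.pi * (y - x) := by
  have hp := Real.pi_pos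
  have h1 := (abs_le.1 (Real.abs_sin_sub_sin_le (2 * y) (2 * x))).1
  have h2 : |2 * y - 2 * x| = 2 * (y - x) := by
    rw [abs_of_nonneg (by linarith)]
    ring
  rw [h2] at h1
  have e1 : MS y - MS x = (y - x) / (2 * Real.pi) -
      (Real.sin (2 * y) - Real.sin (2 * x)) / (4 * Real.pi) := by
    unfold MS
    ring
  have e2 : 1 / Real.pi * (y - x) = (y - x) / (2 * Real.pi) - (-(2 * (y - x))) / (4 * Real.pi) := by
    field_simp
    ring
  rw [e1, e2]
  have := div_le_div_of_nonneg_right h1 (by positivity : (0 : ℝ) ≤ 4 * Real.pi)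
  linarith

variable {ι : Type*}

/-- the counting function of the points `θ_i` and `-θ_i` on the circle -/
noncomputable def SF (s : Finset ι) (θ : ι → ℝ) (x : ℝ) : ℝ :=
  (∑ i ∈ s, ((⌊(x - θ i) / (2 * Real.pi)⌋ : ℝ) + (⌊(x + θ i) / (2 * Real.pi)⌋ : ℝ))) /
    (2 * (s.card : ℝ))

noncomputable def HF (s : Finset ι) (θ : ι → ℝ) (x : ℝ) : ℝ := SF s θ x - MS x + 1 / 2

theorem floor_meas (a : ℝ) : Measurable fun x : ℝ => (⌊(x + a) / (2 * Real.pi)⌋ : ℝ) := by
  have : Measurable fun x : ℝ => ⌊(x + a) / (2 * Real.pi)⌋ :=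
    Int.measurable_floor.comp (by fun_prop)
  exact measurable_from_top.comp this

theorem HF_meas (s : Finset ι) (θ : ι → ℝ) : Measurable (HF s θ) := by
  unfold HF SF MS
  have h1 : Measurable fun x : ℝ => ∑ i ∈ s, ((⌊(x - θ i) / (2 * Real.pi)⌋ : ℝ) +
      (⌊(x + θ i) / (2 * Real.pi)⌋ : ℝ)) := by
    refine Finset.measurable_fun_sum _ fun i _ => ?_
    refine Measurable.add ?_ (floor_meas _)
    simpa only [sub_eq_add_neg] using floor_meas (-θ i)
  exact ((h1.div_const _).sub (by fun_prop)).add_const _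

theorem HF_lip (s : Finset ι) (θ : ι → ℝ) (x y : ℝ) (h : x ≤ y) :
    -(1 / Real.pi * (y - x)) ≤ HF s θ y - HF s θ x := by
  have hp := Real.pi_pos
  have h1 : SF s θ x ≤ SF s θ y := by
    unfold SF
    refine div_le_div_of_nonneg_right ?_ (by positivity)
    refine Finset.sum_le_sum fun i _ => add_le_add ?_ ?_
    · exact_mod_cast Int.floor_le_floor (div_le_div_of_nonneg_right (by linarith) (by positivity))
    · exact_mod_cast Int.floor_le_floor (div_le_div_of_nonneg_right (by linarith) (by positivity))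
  have h2 := MS_lip h
  unfold HF
  linarith

theorem HF_bd {s : Finset ι} (hs : s.Nonempty) (θ : ι → ℝ) (x : ℝ) : |HF s θ x| ≤ 3 := by
  have hp := Real.pi_pos
  have hp3 := Real.pi_gt_three
  have hc : (0 : ℝ) < s.card := by exact_mod_cast hs.card_pos
  have h1 : |SF s θ x - x / (2 * Real.pi)| ≤ 1 := by
    have e1 : SF s θ x - x / (2 * Real.pi) = (∑ i ∈ s, (((⌊(x - θ i) / (2 * Real.pi)⌋ : ℝ) -
        (x - θ i) / (2 * Real.pi)) + ((⌊(x + θ i) / (2 * Real.pi)⌋ : ℝ) -
        (x + θ i) / (2 * Real.pi)))) / (2 * (s.card : ℝ)) := by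
      unfold SF
      have e2 : x / (2 * Real.pi) = (∑ i ∈ s, ((x - θ i) / (2 * Real.pi) +
          (x + θ i) / (2 * Real.pi))) / (2 * (s.card : ℝ)) := by
        have e3 : ∀ i ∈ s, (x - θ i) / (2 * Real.pi) + (x + θ i) / (2 * Real.pi) =
            x / Real.pi := by
          intro i _
          field_simp
          ring
        rw [Finset.sum_congr rfl e3, Finset.sum_const, nsmul_eq_mul]
        field_simp
      conv_lhs => rw [e2]
      rw [← sub_div, ← Finset.sum_sub_distrib]
      congr 1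
      refine Finset.sum_congr rfl fun i _ => ?_
      ring
    rw [e1, abs_div, abs_of_pos (by positivity : (0 : ℝ) < 2 * s.card),
      div_le_one (by positivity)]
    have h2 : ∀ u : ℝ, |(⌊u⌋ : ℝ) - u| ≤ 1 := by
      intro u
      rw [abs_le]
      constructor <;> linarith [Int.floor_le u, Int.lt_floor_add_one u]
    have h8 : ∀ i ∈ s, |((⌊(x - θ i) / (2 * Real.pi)⌋ : ℝ) -
        (x - θ i) / (2 * Real.pi)) + ((⌊(x + θ i) / (2 * Real.pi)⌋ : ℝ) -
        (x + θ i) / (2 * Real.pi))| ≤ 2 := by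
      intro i _
      have h3 := h2 ((x - θ i) / (2 * Real.pi))
      have h4 := h2 ((x + θ i) / (2 * Real.pi))
      refine (abs_add_le _ _).trans ?_
      linarith
    refine (Finset.abs_sum_le_sum_abs _ _).trans ((Finset.sum_le_sum h8).trans (le_of_eq ?_))
    rw [Finset.sum_const, nsmul_eq_mul]
    ring
  have h3 : |Real.sin (2 * x) / (4 * Real.pi)| ≤ 1 := by
    rw [abs_div, abs_of_pos (by positivity : (0 : ℝ) < 4 * Real.pi),
      div_le_one (by positivity)]
    linarith [Real.abs_sin_le_one (2 * x)]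
  have e : HF s θ x = (SF s θ x - x / (2 * Real.pi)) + Real.sin (2 * x) / (4 * Real.pi) +
      1 / 2 := by
    unfold HF MS
    ring
  rw [e]
  have h4 := abs_le.1 h1
  have h5 := abs_le.1 h3
  rw [abs_le]
  constructor <;> linarith [h4.1, h4.2, h5.1, h5.2]

theorem conv_HF {s : Finset ι} (hs : s.Nonempty) (θ : ι → ℝ) (n : ℕ) (x : ℝ) :
    ∫ t in (-Real.pi)..Real.pi, FK n t * HF s θ (x - t) =
      ∑ k ∈ Finset.Ico 1 n, (1 - (k : ℝ) / n) * (Real.sin (k * x) / k) *
        ((∑ i ∈ s, 2 * Real.cos (k * θ i)) / s.card - ek k) := by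
  have hp := Real.pi_pos
  have hc : (0 : ℝ) < s.card := by exact_mod_cast hs.card_pos
  have hcK := FK_continuous n
  have hfl : ∀ a : ℝ, IntervalIntegrable (fun t => FK n t *
      (⌊(a - t) / (2 * Real.pi)⌋ : ℝ)) volume (-Real.pi) Real.pi := by
    intro a
    rw [intervalIntegrable_iff]
    have hmeas : Measurable fun t : ℝ => (⌊(a - t) / (2 * Real.pi)⌋ : ℝ) := by
      have : Measurable fun t : ℝ => ⌊(a - t) / (2 * Real.pi)⌋ :=
        Int.measurable_floor.comp (by fun_prop)
      exact measurable_from_top.comp this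
    refine Integrable.mul_bdd (c := |a| + 2) (intervalIntegrable_iff.1
      (hcK.intervalIntegrable _ _)) hmeas.aestronglyMeasurable ?_
    refine (ae_restrict_iff' measurableSet_uIoc).2 (Eventually.of_forall fun t ht => ?_)
    rw [Set.uIoc_of_le (by linarith)] at ht
    have h1 : |(a - t) / (2 * Real.pi)| ≤ |a| + 1 := by
      rw [abs_div, abs_of_pos (by positivity : (0 : ℝ) < 2 * Real.pi), div_le_iff₀ (by positivity)]
      have h2 : |a - t| ≤ |a| + Real.pi := by
        refine (abs_sub _ _).trans ?_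
        have : |t| ≤ Real.pi := abs_le.2 ⟨by linarith [ht.1], ht.2⟩
        linarith
      have h3 := Real.pi_gt_three
      nlinarith [abs_nonneg a]
    have h2 := Int.floor_le ((a - t) / (2 * Real.pi))
    have h3 := Int.lt_floor_add_one ((a - t) / (2 * Real.pi))
    rw [Real.norm_eq_abs, abs_le]
    have h4 := abs_le.1 h1
    constructor <;> linarith [h4.1, h4.2]
  have hS : ∫ t in (-Real.pi)..Real.pi, FK n t * SF s θ (x - t) =
      (∑ i ∈ s, (FP n (x - θ i) + FP n (x + θ i) - 2 * Real.pi)) / (2 * (s.card : ℝ)) := by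
    have e1 : ∀ t : ℝ, FK n t * SF s θ (x - t) = (2 * (s.card : ℝ))⁻¹ *
        ∑ i ∈ s, (FK n t * (⌊((x - θ i) - t) / (2 * Real.pi)⌋ : ℝ) +
          FK n t * (⌊((x + θ i) - t) / (2 * Real.pi)⌋ : ℝ)) := by
      intro t
      unfold SF
      rw [div_eq_inv_mul, ← mul_assoc, mul_comm (FK n t), mul_assoc, Finset.mul_sum]
      congr 1
      refine Finset.sum_congr rfl fun i _ => ?_
      rw [show x - t - θ i = x - θ i - t by ring, show x - t + θ i = x + θ i - t by ring]
      ring
    simp only [e1]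
    rw [intervalIntegral.integral_const_mul,
      intervalIntegral.integral_finset_sum fun i _ => (hfl _).add (hfl _), div_eq_inv_mul]
    congr 1
    refine Finset.sum_congr rfl fun i _ => ?_
    rw [intervalIntegral.integral_add (hfl _) (hfl _), conv_floor, conv_floor]
    ring
  have hSi : IntervalIntegrable (fun t => FK n t * SF s θ (x - t)) volume (-Real.pi)
      Real.pi := by
    have e1 : (fun t : ℝ => FK n t * SF s θ (x - t)) = fun t => (2 * (s.card : ℝ))⁻¹ *
        ∑ i ∈ s, (FK n t * (⌊((x - θ i) - t) / (2 * Real.pi)⌋ : ℝ) +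
          FK n t * (⌊((x + θ i) - t) / (2 * Real.pi)⌋ : ℝ)) := by
      funext t
      unfold SF
      rw [div_eq_inv_mul, ← mul_assoc, mul_comm (FK n t), mul_assoc, Finset.mul_sum]
      congr 1
      refine Finset.sum_congr rfl fun i _ => ?_
      rw [show x - t - θ i = x - θ i - t by ring, show x - t + θ i = x + θ i - t by ring]
      ring
    rw [e1]
    refine IntervalIntegrable.const_mul ?_ _
    have h2 := IntervalIntegrable.sum s (f := fun i t => FK n t *
      (⌊((x - θ i) - t) / (2 * Real.pi)⌋ : ℝ) +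
          FK n t * (⌊((x + θ i) - t) / (2 * Real.pi)⌋ : ℝ)) (μ := volume) (a := -Real.pi)
          (b := Real.pi) fun i _ => (hfl _).add (hfl _)
    refine h2.congr ?_
    intro t _
    simp only [Finset.sum_apply]
  have hMi : IntervalIntegrable (fun t => FK n t * MS (x - t)) volume (-Real.pi) Real.pi := by
    have : Continuous fun t => FK n t * MS (x - t) := by
      unfold MS
      fun_prop
    exact this.intervalIntegrable _ _
  have e2 : ∀ t : ℝ, FK n t * HF s θ (x - t) = (FK n t * SF s θ (x - t) - FK n t * MS (x - t)) +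
      1 / 2 * FK n t := by
    intro t
    unfold HF
    ring
  simp only [e2]
  have hK : IntervalIntegrable (fun t => 1 / 2 * FK n t) volume (-Real.pi) Real.pi :=
    (continuous_const.mul hcK).intervalIntegrable _ _
  rw [intervalIntegral.integral_add (hSi.sub hMi) hK, intervalIntegral.integral_sub hSi hMi,
    intervalIntegral.integral_const_mul, FK_total, hS, conv_MS]
  have h3 : ∀ i, FP n (x - θ i) + FP n (x + θ i) - 2 * Real.pi = 2 * (x - Real.pi) +
      2 * ∑ k ∈ Finset.Ico 1 n, (1 - (k : ℝ) / n) * (Real.sin (k * x) / k) *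
        (2 * Real.cos (k * θ i)) := by
    intro i
    unfold FP
    have h4 : ∑ k ∈ Finset.Ico 1 n, (1 - (k : ℝ) / n) * (Real.sin (k * x) / k) *
        (2 * Real.cos (k * θ i)) =
        ∑ k ∈ Finset.Ico 1 n, (1 - (k : ℝ) / n) * (Real.sin (k * (x - θ i)) / k) +
        ∑ k ∈ Finset.Ico 1 n, (1 - (k : ℝ) / n) * (Real.sin (k * (x + θ i)) / k) := by
      rw [← Finset.sum_add_distrib]
      refine Finset.sum_congr rfl fun k _ => ?_
      rw [mul_sub, mul_add, Real.sin_add, Real.sin_sub]
      ring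
    rw [h4]
    ring
  simp only [h3]
  rw [Finset.sum_add_distrib, Finset.sum_const, nsmul_eq_mul, ← Finset.mul_sum, Finset.sum_comm]
  have h5 : (((s.card : ℝ) * (2 * (x - Real.pi)) + 2 * ∑ k ∈ Finset.Ico 1 n, ∑ i ∈ s,
      (1 - (k : ℝ) / n) * (Real.sin (k * x) / k) * (2 * Real.cos (k * θ i))) /
      (2 * (s.card : ℝ))) = x - Real.pi + ∑ k ∈ Finset.Ico 1 n,
        (1 - (k : ℝ) / n) * (Real.sin (k * x) / k) *
          ((∑ i ∈ s, 2 * Real.cos (k * θ i)) / s.card) := by
    rw [add_div]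
    congr 1
    · field_simp
    · rw [mul_div_mul_left _ _ two_ne_zero, Finset.sum_div]
      refine Finset.sum_congr rfl fun k _ => ?_
      rw [← Finset.mul_sum, mul_div_assoc]
  rw [h5]
  have h6 : ∑ k ∈ Finset.Ico 1 n, (1 - (k : ℝ) / n) * ek k * (Real.sin (2 * x) / 2) =
      ∑ k ∈ Finset.Ico 1 n, (1 - (k : ℝ) / n) * (Real.sin (k * x) / k) * ek k := by
    refine Finset.sum_congr rfl fun k _ => ?_
    unfold ek
    split_ifs with h
    · subst h
      push_cast
      ring
    · ring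
  rw [h6]
  have h7 : ∑ k ∈ Finset.Ico 1 n, (1 - (k : ℝ) / n) * (Real.sin (k * x) / k) *
      ((∑ i ∈ s, 2 * Real.cos (k * θ i)) / s.card - ek k) =
      ∑ k ∈ Finset.Ico 1 n, (1 - (k : ℝ) / n) * (Real.sin (k * x) / k) *
        ((∑ i ∈ s, 2 * Real.cos (k * θ i)) / s.card) -
      ∑ k ∈ Finset.Ico 1 n, (1 - (k : ℝ) / n) * (Real.sin (k * x) / k) * ek k := by
    rw [← Finset.sum_sub_distrib]
    refine Finset.sum_congr rfl fun k _ => ?_
    ring
  rw [h7]
  ring

theorem HF_eval {s : Finset ι} (hs : s.Nonempty) {θ : ι → ℝ}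
    (hθ : ∀ i ∈ s, 0 ≤ θ i ∧ θ i ≤ Real.pi) {x : ℝ} (h0 : 0 ≤ x) (h1 : x < Real.pi) :
    2 * HF s θ x = ((s.filter (fun i => θ i ≤ x)).card : ℝ) / s.card - 2 * MS x := by
  have hp := Real.pi_pos
  have h2p : (0 : ℝ) < 2 * Real.pi := by positivity
  have hc : (0 : ℝ) < s.card := by exact_mod_cast hs.card_pos
  have h2 : ∀ i ∈ s, ((⌊(x - θ i) / (2 * Real.pi)⌋ : ℝ) + (⌊(x + θ i) / (2 * Real.pi)⌋ : ℝ)) =
      (if θ i ≤ x then (1 : ℝ) else 0) - 1 := by
    intro i hi
    obtain ⟨a1, a2⟩ := hθ i hi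
    have h3 : ⌊(x + θ i) / (2 * Real.pi)⌋ = 0 := by
      rw [Int.floor_eq_zero_iff]
      exact ⟨by positivity, by rw [div_lt_one h2p]; linarith⟩
    rw [h3]
    split_ifs with h
    · have h4 : ⌊(x - θ i) / (2 * Real.pi)⌋ = 0 := by
        rw [Int.floor_eq_zero_iff]
        exact ⟨div_nonneg (by linarith) h2p.le, by rw [div_lt_one h2p]; linarith⟩
      rw [h4]
      simp
    · have h4 : ⌊(x - θ i) / (2 * Real.pi)⌋ = -1 := by
        rw [Int.floor_eq_iff, le_div_iff₀ h2p, div_lt_iff₀ h2p]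
        push_cast
        push Not at h
        constructor <;> linarith
      rw [h4]
      simp
  unfold HF SF
  rw [Finset.sum_congr rfl h2, Finset.sum_sub_distrib, ← Finset.sum_filter, Finset.sum_const,
    Finset.sum_const, nsmul_eq_mul, nsmul_eq_mul]
  field_simp
  ring

theorem MS_eq (x : ℝ) : MS x = (x - Real.sin x * Real.cos x) / (2 * Real.pi) := by
  have hp := Real.pi_pos
  unfold MS
  rw [Real.sin_two_mul]
  field_simp
  ring

theorem MS_int (α β : ℝ) : 2 / Real.pi * ∫ u in α..β, Real.sin u ^ 2 = 2 * MS β - 2 * MS α := by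
  have hp := Real.pi_pos
  rw [integral_sin_sq, MS_eq, MS_eq]
  field_simp
  ring

theorem MS_mono {x y : ℝ} (h : x ≤ y) : MS x ≤ MS y := by
  have hp := Real.pi_pos
  have h1 := MS_int x y
  have h2 : 0 ≤ ∫ u in x..y, Real.sin u ^ 2 :=
    intervalIntegral.integral_nonneg h fun u _ => sq_nonneg _
  have h3 : 0 ≤ 2 / Real.pi * ∫ u in x..y, Real.sin u ^ 2 := by positivity
  linarith

theorem MS_zero : MS 0 = 0 := by
  unfold MS
  simp

theorem MS_pi : MS Real.pi = 1 / 2 := by
  have hp := Real.pi_pos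
  rw [MS_eq, Real.sin_pi]
  field_simp
  ring

theorem MS_continuous : Continuous MS := by
  unfold MS
  fun_prop

/-- the distribution function -/
theorem share_le {s : Finset ι} (hs : s.Nonempty) {θ : ι → ℝ}
    (hθ : ∀ i ∈ s, 0 ≤ θ i ∧ θ i ≤ Real.pi) {n : ℕ} (hn : 1 ≤ n) {B : ℕ → ℝ}
    (hB : ∀ k ∈ Finset.Ico 1 n, |(∑ i ∈ s, 2 * Real.cos (k * θ i)) / s.card - ek k| ≤ B k)
    {x : ℝ} (h0 : 0 ≤ x) (h1 : x < Real.pi) :
    |((s.filter (fun i => θ i ≤ x)).card : ℝ) / s.card - 2 * MS x| ≤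
      24 / n + ∑ k ∈ Finset.Ico 1 n, B k / k := by
  have hp := Real.pi_pos
  have hp3 := Real.pi_gt_three
  have hn0 : (0 : ℝ) < n := by positivity
  have hc : (0 : ℝ) < s.card := by exact_mod_cast hs.card_pos
  have hB0 : ∀ k ∈ Finset.Ico 1 n, 0 ≤ B k / k := fun k hk =>
    div_nonneg ((abs_nonneg _).trans (hB k hk)) (Nat.cast_nonneg k)
  have hE0 : 0 ≤ ∑ k ∈ Finset.Ico 1 n, B k / k := Finset.sum_nonneg hB0
  rcases le_or_gt 4 n with h4 | h4
  · have hconv : ∀ y, |∫ t in (-Real.pi)..Real.pi, FK n t * HF s θ (y - t)| ≤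
        ∑ k ∈ Finset.Ico 1 n, B k / k := by
      intro y
      rw [conv_HF hs]
      refine (Finset.abs_sum_le_sum_abs _ _).trans (Finset.sum_le_sum fun k hk => ?_)
      have hk' := Finset.mem_Ico.1 hk
      have hk0 : (0 : ℝ) < k := by
        have : 0 < k := by omega
        exact_mod_cast this
      rw [abs_mul, abs_mul]
      have a1 : |1 - (k : ℝ) / n| ≤ 1 := by
        have b1 : (k : ℝ) / n ≤ 1 := by
          rw [div_le_one hn0]
          exact_mod_cast hk'.2.le
        have b2 : 0 ≤ (k : ℝ) / n := by positivity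
        rw [abs_le]
        constructor <;> linarith
      have a2 : |Real.sin (k * y) / k| ≤ 1 / k := by
        rw [abs_div, abs_of_pos hk0]
        gcongr
        exact Real.abs_sin_le_one _
      calc |1 - (k : ℝ) / n| * |Real.sin (k * y) / k| *
            |(∑ i ∈ s, 2 * Real.cos (k * θ i)) / s.card - ek k| ≤ 1 * (1 / k) * B k := by
              refine mul_le_mul (mul_le_mul a1 a2 (abs_nonneg _) zero_le_one) (hB k hk)
                (abs_nonneg _) (by positivity)
        _ = B k / k := by ring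
    have h5 := sup_bound h4 (L := 1 / Real.pi) (by positivity) (HF_lip s θ) (HF_bd hs θ)
      (HF_meas s θ) hconv x
    have h6 : 12 * Real.pi * (1 / Real.pi) / n = 12 / (n : ℝ) := by
      field_simp
    rw [h6] at h5
    rw [← HF_eval hs hθ h0 h1, abs_mul, abs_two]
    have h7 : 2 * ((∑ k ∈ Finset.Ico 1 n, B k / k) / Real.pi) ≤
        ∑ k ∈ Finset.Ico 1 n, B k / k := by
      rw [← mul_div_assoc, div_le_iff₀ hp]
      nlinarith
    have h8 : (24 : ℝ) / n = 2 * (12 / n) := by ring
    rw [h8]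
    linarith
  · have h5 : ((s.filter (fun i => θ i ≤ x)).card : ℝ) / s.card ≤ 1 := by
      rw [div_le_one hc]
      exact_mod_cast Finset.card_filter_le _ _
    have h6 : 0 ≤ ((s.filter (fun i => θ i ≤ x)).card : ℝ) / s.card := by positivity
    have h7 := MS_mono h0
    have h8 := MS_mono h1.le
    rw [MS_zero] at h7
    rw [MS_pi] at h8
    have h9 : (1 : ℝ) ≤ 24 / n := by
      rw [le_div_iff₀ hn0]
      have : (n : ℝ) < 4 := by exact_mod_cast h4
      linarith
    rw [abs_le]
    constructor <;> linarith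

/-- **The inequality of Erdős and Turán** for the Sato-Tate measure. -/
theorem et {s : Finset ι} (hs : s.Nonempty) {θ : ι → ℝ}
    (hθ : ∀ i ∈ s, 0 ≤ θ i ∧ θ i ≤ Real.pi) {n : ℕ} (hn : 1 ≤ n) {B : ℕ → ℝ}
    (hB : ∀ k ∈ Finset.Ico 1 n, |(∑ i ∈ s, 2 * Real.cos (k * θ i)) / s.card - ek k| ≤ B k)
    {α β : ℝ} (h0 : 0 ≤ α) (hαβ : α ≤ β) (h1 : β ≤ Real.pi) :
    |((s.filter (fun i => α ≤ θ i ∧ θ i ≤ β)).card : ℝ) / s.card -
      2 / Real.pi * ∫ u in α..β, Real.sin u ^ 2| ≤
      2 * (24 / n + ∑ k ∈ Finset.Ico 1 n, B k / k) := by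
  have hp := Real.pi_pos
  have hn0 : (0 : ℝ) < n := by positivity
  have hc : (0 : ℝ) < s.card := by exact_mod_cast hs.card_pos
  set D : ℝ := 24 / n + ∑ k ∈ Finset.Ico 1 n, B k / k with hD
  have hD0 : 0 ≤ D := by
    have h2 := share_le hs hθ hn hB le_rfl hp
    exact (abs_nonneg _).trans h2
  have hsh := fun (x : ℝ) (g0 : 0 ≤ x) (g1 : x < Real.pi) => share_le hs hθ hn hB g0 g1
  -- the closed one
  have hcl : ∀ x : ℝ, 0 ≤ x → x ≤ Real.pi →
      |((s.filter (fun i => θ i ≤ x)).card : ℝ) / s.card - 2 * MS x| ≤ D := by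
    intro x g0 g1
    rcases lt_or_eq_of_le g1 with g | g
    · exact hsh x g0 g
    · have h3 : s.filter (fun i => θ i ≤ x) = s := by
        rw [Finset.filter_eq_self]
        intro i hi
        rw [g]
        exact (hθ i hi).2
      rw [h3, div_self hc.ne', g, MS_pi]
      norm_num
      exact hD0
  have hop : |((s.filter (fun i => θ i < α)).card : ℝ) / s.card - 2 * MS α| ≤ D := by
    rw [abs_le]
    constructor
    · -- lower bound
      rcases lt_or_eq_of_le h0 with g | g
      · have h4 : ∀ x ∈ Set.Ioo 0 α, 2 * MS x - D ≤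
            ((s.filter (fun i => θ i < α)).card : ℝ) / s.card := by
          intro x hx
          have h5 := (abs_le.1 (hsh x hx.1.le (by linarith [hx.2]))).1
          have h6 : ((s.filter (fun i => θ i ≤ x)).card : ℝ) / s.card ≤
              ((s.filter (fun i => θ i < α)).card : ℝ) / s.card := by
            refine div_le_div_of_nonneg_right ?_ hc.le
            have : (s.filter (fun i => θ i ≤ x)) ⊆ (s.filter (fun i => θ i < α)) :=
              Finset.monotone_filter_right s fun i _ hi => lt_of_le_of_lt hi hx.2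
            exact_mod_cast Finset.card_le_card this
          linarith
        have h7 : Tendsto (fun x => 2 * MS x - D) (𝓝[<] α) (𝓝 (2 * MS α - D)) :=
          (((MS_continuous.const_mul 2).sub continuous_const).tendsto α).mono_left
            nhdsWithin_le_nhds
        have h8 : 2 * MS α - D ≤ ((s.filter (fun i => θ i < α)).card : ℝ) / s.card := by
          refine le_of_tendsto h7 ?_
          filter_upwards [Ioo_mem_nhdsLT g] with x hx using h4 x hx
        linarith
      · rw [← g, MS_zero]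
        have : 0 ≤ ((s.filter (fun i => θ i < 0)).card : ℝ) / s.card := by positivity
        linarith
    · have h5 := (abs_le.1 (hcl α h0 (hαβ.trans h1))).2
      have h6 : ((s.filter (fun i => θ i < α)).card : ℝ) / s.card ≤
          ((s.filter (fun i => θ i ≤ α)).card : ℝ) / s.card := by
        refine div_le_div_of_nonneg_right ?_ hc.le
        have : (s.filter (fun i => θ i < α)) ⊆ (s.filter (fun i => θ i ≤ α)) :=
          Finset.monotone_filter_right s fun i _ hi => le_of_lt hi
        exact_mod_cast Finset.card_le_card this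
      linarith
  have hsplit : ((s.filter (fun i => α ≤ θ i ∧ θ i ≤ β)).card : ℝ) / s.card =
      ((s.filter (fun i => θ i ≤ β)).card : ℝ) / s.card -
        ((s.filter (fun i => θ i < α)).card : ℝ) / s.card := by
    rw [← sub_div]
    congr 1
    rw [eq_sub_iff_add_eq]
    have h9 : (s.filter (fun i => α ≤ θ i ∧ θ i ≤ β)).card + (s.filter (fun i => θ i < α)).card =
        (s.filter (fun i => θ i ≤ β)).card := by
      classical
      rw [← Finset.card_union_of_disjoint]
      · congr 1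
        ext i
        simp only [Finset.mem_union, Finset.mem_filter]
        constructor
        · rintro (⟨a, b, c⟩ | ⟨a, b⟩)
          · exact ⟨a, c⟩
          · exact ⟨a, by linarith⟩
        · rintro ⟨a, b⟩
          rcases le_or_gt α (θ i) with h | h
          · exact Or.inl ⟨a, h, b⟩
          · exact Or.inr ⟨a, h⟩
      · rw [Finset.disjoint_left]
        intro i hi1 hi2
        rw [Finset.mem_filter] at hi1 hi2
        linarith [hi1.2.1, hi2.2]
    exact_mod_cast h9
  rw [hsplit, MS_int]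
  have h10 := abs_le.1 (hcl β (h0.trans hαβ) h1)
  have h11 := abs_le.1 hop
  rw [abs_le]
  constructor <;> linarith [h10.1, h10.2, h11.1, h11.2]

end Pool.Agent.Q255.SG.ET
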