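import Pool.Agent.Q255.SG.LA
import Pool.Agent.Q255.SG.ET

/-! # Angles attached to the primes -/

set_option autoImplicit false

namespace Pool.Agent.Q255.SG.KL

open Filter Topology MeasureTheory Pool.Agent.Q255.SG

variable (S : Set ℕ) (θ : ℕ → ℝ)

open Classical in
/-- the eigenvalues of `Sym^k` -/
noncomputable def aS (k p : ℕ) (j : Fin (k + 1)) : ℂ :=
  if p ∈ S then 0 else Complex.exp (((((k : ℝ) - 2 * ((j : ℕ) : ℝ)) * θ p : ℝ) : ℂ) * Complex.I)

open Classical in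
/-- the system of `2 cos kθ` -/
noncomputable def aC (k p : ℕ) (j : Fin 2) : ℂ :=
  if p ∈ S then 0 else
    Complex.exp ((((if j = 0 then (k : ℝ) else -(k : ℝ)) * θ p : ℝ) : ℂ) * Complex.I)

theorem aS_bd (k : ℕ) : Bd 0 (aS S θ k) := by
  intro p hp j
  unfold aS
  split_ifs
  · rw [norm_zero]
    positivity
  · rw [Complex.norm_exp_ofReal_mul_I]
    simp

theorem aC_bd (k : ℕ) : Bd 0 (aC S θ k) := by
  intro p hp j
  unfold aC
  split_ifs
  · rw [norm_zero]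
    positivity
  · rw [Complex.norm_exp_ofReal_mul_I]
    simp
  · rw [Complex.norm_exp_ofReal_mul_I]
    simp

/-- the trace of `Sym^k` -/
noncomputable def UK (k : ℕ) (t : ℝ) : ℝ :=
  ∑ j ∈ Finset.range (k + 1), Real.cos (((k : ℝ) - 2 * j) * t)

theorem UK_zero (t : ℝ) : UK 0 t = 1 := by
  unfold UK
  simp

theorem UK_succ2 (k : ℕ) (t : ℝ) :
    UK (k + 2) t = UK k t + 2 * Real.cos (((k + 2 : ℕ) : ℝ) * t) := by
  unfold UK
  rw [Finset.sum_range_succ, Finset.sum_range_succ']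
  have h1 : Real.cos ((((k + 2 : ℕ) : ℝ) - 2 * ((k + 2 : ℕ) : ℝ)) * t) =
      Real.cos (((k + 2 : ℕ) : ℝ) * t) := by
    rw [← Real.cos_neg]
    congr 1
    push_cast
    ring
  have h2 : Real.cos ((((k + 2 : ℕ) : ℝ) - 2 * ((0 : ℕ) : ℝ)) * t) =
      Real.cos (((k + 2 : ℕ) : ℝ) * t) := by
    simp
  rw [h1, h2]
  have h3 : ∑ j ∈ Finset.range (k + 1), Real.cos ((((k + 2 : ℕ) : ℝ) -
      2 * ((j + 1 : ℕ) : ℝ)) * t) = ∑ j ∈ Finset.range (k + 1),
        Real.cos (((k : ℝ) - 2 * j) * t) := by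
    refine Finset.sum_congr rfl fun j _ => ?_
    congr 1
    push_cast
    ring
  rw [h3]
  ring

theorem UK_one (t : ℝ) : UK 1 t = 2 * Real.cos ((1 : ℕ) * t) := by
  unfold UK
  rw [Finset.sum_range_succ, Finset.sum_range_one]
  have h1 : Real.cos ((((1 : ℕ) : ℝ) - 2 * ((1 : ℕ) : ℝ)) * t) = Real.cos ((1 : ℕ) * t) := by
    rw [← Real.cos_neg]
    congr 1
    push_cast
    ring
  have h2 : Real.cos ((((1 : ℕ) : ℝ) - 2 * ((0 : ℕ) : ℝ)) * t) = Real.cos ((1 : ℕ) * t) := by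
    simp
  rw [h1, h2]
  ring

theorem UK_complex (k : ℕ) (t : ℝ) :
    ∑ j : Fin (k + 1), Complex.exp (((((k : ℝ) - 2 * ((j : ℕ) : ℝ)) * t : ℝ) : ℂ) * Complex.I) =
      ((UK k t : ℝ) : ℂ) := by
  rw [Fin.sum_univ_eq_sum_range (fun j : ℕ =>
    Complex.exp (((((k : ℝ) - 2 * (j : ℝ)) * t : ℝ) : ℂ) * Complex.I))]
  have h1 : ∀ j : ℕ, Complex.exp (((((k : ℝ) - 2 * (j : ℝ)) * t : ℝ) : ℂ) * Complex.I) =
      ((Real.cos (((k : ℝ) - 2 * j) * t) : ℝ) : ℂ) +
        ((Real.sin (((k : ℝ) - 2 * j) * t) : ℝ) : ℂ) * Complex.I := by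
    intro j
    rw [Complex.exp_mul_I, Complex.ofReal_cos, Complex.ofReal_sin]
  rw [Finset.sum_congr rfl fun j _ => h1 j, Finset.sum_add_distrib, ← Finset.sum_mul]
  have h2 : ∑ j ∈ Finset.range (k + 1), Real.sin (((k : ℝ) - 2 * j) * t) = 0 := by
    have h3 := Finset.sum_range_reflect (fun j : ℕ => Real.sin (((k : ℝ) - 2 * j) * t)) (k + 1)
    have h4 : ∑ j ∈ Finset.range (k + 1),
        Real.sin (((k : ℝ) - 2 * ((k + 1 - 1 - j : ℕ) : ℝ)) * t) =
        -∑ j ∈ Finset.range (k + 1), Real.sin (((k : ℝ) - 2 * j) * t) := by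
      rw [← Finset.sum_neg_distrib]
      refine Finset.sum_congr rfl fun j hj => ?_
      rw [Finset.mem_range] at hj
      rw [← Real.sin_neg]
      congr 1
      rw [show k + 1 - 1 - j = k - j by omega, Nat.cast_sub (by omega)]
      ring
    rw [h4] at h3
    linarith
  have h5 : ∑ j ∈ Finset.range (k + 1), ((Real.sin (((k : ℝ) - 2 * j) * t) : ℝ) : ℂ) = 0 := by
    rw [← Complex.ofReal_sum, h2, Complex.ofReal_zero]
  rw [h5, zero_mul, add_zero, ← Complex.ofReal_sum]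
  rfl

open Classical in
theorem ntr_aS (k p : ℕ) :
    ntr 0 (aS S θ k) p = if p ∈ S then 0 else ((UK k (θ p) : ℝ) : ℂ) := by
  unfold ntr aS
  split_ifs with h
  · simp
  · rw [← UK_complex]
    refine Finset.sum_congr rfl fun j _ => ?_
    simp

open Classical in
theorem ntr_aC (k p : ℕ) :
    ntr 0 (aC S θ k) p = if p ∈ S then 0 else ((2 * Real.cos (k * θ p) : ℝ) : ℂ) := by
  unfold ntr aC
  split_ifs with h
  · simp
  · rw [Fin.sum_univ_two, if_pos rfl, if_neg (by norm_num)]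
    simp only [neg_zero, zero_div, Real.rpow_zero, Complex.ofReal_one, mul_one]
    have h1 := Complex.two_cos ((k : ℂ) * (θ p : ℂ))
    push_cast
    rw [h1]
    congr 2
    ring

theorem prod_aS (k p : ℕ) (z : ℂ) : ∏ j, (1 - aS S θ (k + 2) p j * z) =
    (∏ j, (1 - aS S θ k p j * z)) * ∏ j, (1 - aC S θ (k + 2) p j * z) := by
  rw [Fin.prod_univ_succ, Fin.prod_univ_castSucc, Fin.prod_univ_two]
  have h1 : aS S θ (k + 2) p 0 = aC S θ (k + 2) p 0 := by
    unfold aS aC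
    simp
  have h2 : aS S θ (k + 2) p (Fin.last (k + 1)).succ = aC S θ (k + 2) p 1 := by
    unfold aS aC
    rw [if_neg (show (1 : Fin 2) ≠ 0 by norm_num)]
    split_ifs
    · rfl
    · congr 3
      rw [Fin.val_succ, Fin.val_last]
      push_cast
      ring
  have h3 : ∀ j : Fin (k + 1), aS S θ (k + 2) p (j.castSucc.succ) = aS S θ k p j := by
    intro j
    unfold aS
    split_ifs
    · rfl
    · congr 3
      rw [Fin.val_succ, Fin.val_castSucc]
      push_cast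
      ring
  rw [h1, h2]
  simp only [h3]
  ring

theorem prod_aS1 (p : ℕ) (z : ℂ) : ∏ j, (1 - aS S θ 1 p j * z) =
    ∏ j, (1 - aC S θ 1 p j * z) := by
  rw [Fin.prod_univ_two, Fin.prod_univ_two]
  have h1 : aS S θ 1 p 0 = aC S θ 1 p 0 := by
    unfold aS aC
    simp
  have h2 : aS S θ 1 p 1 = aC S θ 1 p 1 := by
    unfold aS aC
    rw [if_neg (show (1 : Fin 2) ≠ 0 by norm_num)]
    split_ifs
    · rfl
    · congr 3
      push_cast
      norm_num
  rw [h1, h2]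

theorem AP_aS (k x : ℕ) (t : ℝ) : AP (qAD 0 (aS S θ (k + 2)) (aS_bd S θ _)) x t =
    AP (qAD 0 (aS S θ k) (aS_bd S θ _)) x t * AP (qAD 0 (aC S θ (k + 2)) (aC_bd S θ _)) x t := by
  rw [← q_partial, ← q_partial, ← q_partial, ← Finset.prod_mul_distrib]
  refine Finset.prod_congr rfl fun p _ => ?_
  rw [prod_aS, mul_inv]

theorem AP_aS1 (x : ℕ) (t : ℝ) : AP (qAD 0 (aS S θ 1) (aS_bd S θ _)) x t =
    AP (qAD 0 (aC S θ 1) (aC_bd S θ _)) x t := by
  rw [← q_partial, ← q_partial]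
  refine Finset.prod_congr rfl fun p _ => ?_
  rw [prod_aS1]

variable {S θ}

/-- boundary functions, in the form of limits of the partial products -/
def BL (S : Set ℕ) (θ : ℕ → ℝ) (k : ℕ) (l : ℝ → ℂ) : Prop :=
  ∃ T : Set ℝ, volume T = 0 ∧ Lim (AP (qAD 0 (aS S θ k) (aS_bd S θ k))) T l

def BC (S : Set ℕ) (θ : ℕ → ℝ) (k : ℕ) (l : ℝ → ℂ) : Prop :=
  ∃ T : Set ℝ, volume T = 0 ∧ Lim (AP (qAD 0 (aC S θ k) (aC_bd S θ k))) T l

theorem BC_of_BL {k : ℕ} {l l' : ℝ → ℂ} (h : BL S θ (k + 2) l) (h' : BL S θ k l') :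
    BC S θ (k + 2) (fun t => l t / l' t) := by
  obtain ⟨T, hT, hl⟩ := h
  obtain ⟨T', hT', hl'⟩ := h'
  refine ⟨T ∪ T', measure_union_null hT hT', fun t ht => ?_⟩
  rw [Set.mem_union, not_or] at ht
  obtain ⟨a1, a2⟩ := hl t ht.1
  obtain ⟨b1, b2⟩ := hl' t ht.2
  refine ⟨div_ne_zero a1 b1, (a2.div b2 b1).congr fun x => ?_⟩
  have hne := AP_ne (qAD 0 (aS S θ k) (aS_bd S θ k)) x t
  rw [Pi.div_apply, AP_aS, mul_div_cancel_left₀ _ hne]

theorem BC_one {l : ℝ → ℂ} (h : BL S θ 1 l) : BC S θ 1 l := by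
  obtain ⟨T, hT, hl⟩ := h
  refine ⟨T, hT, fun t ht => ⟨(hl t ht).1, (hl t ht).2.congr fun x => AP_aS1 S θ x t⟩⟩

theorem II_sub {k : ℕ} {l l' : ℝ → ℂ} (h : BL S θ (k + 2) l) (h' : BL S θ k l') {φ : ℝ → ℂ}
    (hφ : Tst φ) (x : ℝ) : II (fun t => l t / l' t) φ x = II l φ x - II l' φ x := by
  obtain ⟨T, hT, hl⟩ := h
  obtain ⟨T', hT', hl'⟩ := h'
  have i1 := (II_tendsto _ hT hl hφ x).1
  have i2 := (II_tendsto _ hT' hl' hφ x).1
  unfold II
  rw [← integral_sub i1 i2]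
  refine integral_congr_ae ?_
  have hTT : volume (T ∪ T') = 0 := measure_union_null hT hT'
  have hae : ∀ᵐ t : ℝ, t ∉ T ∪ T' := measure_eq_zero_iff_ae_notMem.1 hTT
  filter_upwards [hae] with t ht
  rw [Set.mem_union, not_or] at ht
  rw [norm_div, Real.log_div (norm_ne_zero_iff.2 (hl t ht.1).1)
    (norm_ne_zero_iff.2 (hl' t ht.2).1)]
  push_cast
  ring

/-- the asymptotic formula for test functions with support in the segment -/
def EdgeT (lam : ℝ) (l : ℝ → ℂ) (ρ : ℂ) : Prop := ∀ φ : ℝ → ℂ, Tst φ →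
  (∀ t ∈ tsupport φ, |t| < lam) →
  Tendsto (fun x : ℝ => (x : ℂ) * II l φ x) atTop (𝓝 (Real.pi * ρ * φ 0))

theorem edge_sub {k : ℕ} {l l' : ℝ → ℂ} (h : BL S θ (k + 2) l) (h' : BL S θ k l') {lam : ℝ}
    {ρ ρ' : ℂ} (he : EdgeT lam l ρ) (he' : EdgeT lam l' ρ') :
    EdgeT lam (fun t => l t / l' t) (ρ - ρ') := by
  intro φ hφ hs
  have h1 := (he φ hφ hs).sub (he' φ hφ hs)
  have e1 : Real.pi * ρ * φ 0 - Real.pi * ρ' * φ 0 = Real.pi * (ρ - ρ') * φ 0 := by ring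
  rw [e1] at h1
  refine h1.congr fun x => ?_
  rw [II_sub h h' hφ]
  ring

/-! ### Averages -/

open Classical in
/-- the primes `p ≤ N` outside `S` -/
noncomputable def PS (S : Set ℕ) (N : ℕ) : Finset ℕ :=
  (Nat.primesBelow (N + 1)).filter (fun p => p ∉ S)

theorem mem_PS {N p : ℕ} : p ∈ PS S N ↔ (p ≤ N ∧ p.Prime) ∧ p ∉ S := by
  classical
  unfold PS
  rw [Finset.mem_filter, Nat.mem_primesBelow, Nat.lt_succ_iff]

theorem sum_PS (f : ℕ → ℂ) (N : ℕ) [DecidablePred (· ∈ S)] :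
    ∑ p ∈ Nat.primesBelow (N + 1), (if p ∈ S then 0 else f p) = ∑ p ∈ PS S N, f p := by
  classical
  unfold PS
  rw [Finset.sum_filter]
  refine Finset.sum_congr rfl fun p _ => ?_
  by_cases h : p ∈ S
  · rw [if_pos h, if_neg (not_not.2 h)]
  · rw [if_neg h, if_pos h]

theorem pc_eq (N : ℕ) : Nat.primeCounting N = (Nat.primesBelow (N + 1)).card := by
  rw [Nat.primeCounting, Nat.primeCounting', Nat.primesBelow, Nat.count_eq_card_filter_range]

theorem pc_tendsto : Tendsto (fun N : ℕ => (Nat.primeCounting N : ℝ)) atTop atTop :=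
  tendsto_natCast_atTop_atTop.comp Nat.tendsto_primeCounting

theorem card_PS (hS : S.Finite) :
    Tendsto (fun N : ℕ => ((PS S N).card : ℝ) / (Nat.primeCounting N : ℝ)) atTop (𝓝 1) := by
  classical
  have h0 := pc_tendsto
  have hle : ∀ N, (PS S N).card ≤ Nat.primeCounting N := fun N => by
    rw [pc_eq]
    exact Finset.card_filter_le _ _
  have hge : ∀ N, Nat.primeCounting N ≤ (PS S N).card + hS.toFinset.card := by
    intro N
    rw [pc_eq]
    have h1 := Finset.card_filter_add_card_filter_not (s := Nat.primesBelow (N + 1))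
      (fun p => p ∉ S)
    have h2 : ((Nat.primesBelow (N + 1)).filter (fun p => ¬ p ∉ S)).card ≤ hS.toFinset.card := by
      refine Finset.card_le_card fun v hv => ?_
      rw [Finset.mem_filter, not_not] at hv
      simpa using hv.2
    have h3 : (PS S N).card = ((Nat.primesBelow (N + 1)).filter (fun p => p ∉ S)).card := by
      unfold PS
      congr
    omega
  have h2 : Tendsto (fun N : ℕ => 1 - (hS.toFinset.card : ℝ) / (Nat.primeCounting N : ℝ)) atTop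
      (𝓝 1) := by
    have := (tendsto_const_nhds (x := (hS.toFinset.card : ℝ))).div_atTop h0
    simpa using this.const_sub 1
  refine tendsto_of_tendsto_of_tendsto_of_le_of_le' h2 tendsto_const_nhds ?_ ?_
  · filter_upwards [h0.eventually_gt_atTop 0] with x hx
    rw [le_div_iff₀ hx, sub_mul, one_mul, div_mul_cancel₀ _ hx.ne']
    have := hge x
    have h3 : ((Nat.primeCounting x : ℕ) : ℝ) ≤ (PS S x).card + hS.toFinset.card := by
      exact_mod_cast this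
    linarith
  · filter_upwards [h0.eventually_gt_atTop 0] with x hx
    rw [div_le_one hx]
    exact_mod_cast hle x

/-- the mean of `f(θ_p)` -/
noncomputable def mn (S : Set ℕ) (θ : ℕ → ℝ) (f : ℝ → ℝ) (N : ℕ) : ℝ :=
  (∑ p ∈ PS S N, f (θ p)) / (Nat.primeCounting N : ℝ)

theorem mn_aS (k N : ℕ) : (∑ p ∈ Nat.primesBelow (N + 1), ntr 0 (aS S θ k) p) /
    ((Nat.primesBelow (N + 1)).card : ℂ) = ((mn S θ (UK k) N : ℝ) : ℂ) := by
  classical
  rw [Finset.sum_congr rfl fun p _ => ntr_aS S θ k p,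
    sum_PS (fun p => ((UK k (θ p) : ℝ) : ℂ)), ← pc_eq]
  unfold mn
  push_cast
  rfl

theorem mn_aC (k N : ℕ) : (∑ p ∈ Nat.primesBelow (N + 1), ntr 0 (aC S θ k) p) /
    ((Nat.primesBelow (N + 1)).card : ℂ) =
      ((mn S θ (fun t => 2 * Real.cos (k * t)) N : ℝ) : ℂ) := by
  classical
  rw [Finset.sum_congr rfl fun p _ => ntr_aC S θ k p,
    sum_PS (fun p => ((2 * Real.cos (k * θ p) : ℝ) : ℂ)), ← pc_eq]
  unfold mn
  push_cast
  rfl

/-- The Tauberian theorem. -/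
theorem tauber_aS {k : ℕ} {l : ℝ → ℂ} (hl : BL S θ k l) (ρ : ℂ) :
    Tendsto (fun N => ((mn S θ (UK k) N : ℝ) : ℂ)) atTop (𝓝 ρ) ↔ Edge l ρ := by
  obtain ⟨T, hT, h⟩ := hl
  have := q_tauber (aS_bd S θ k) hT h ρ
  unfold Edge
  rw [← this, ← tendsto_add_atTop_iff_nat (f := fun x : ℕ =>
    (∑ p ∈ Nat.primesBelow x, ntr 0 (aS S θ k) p) / ((Nat.primesBelow x).card : ℂ)) 1]
  simp only [mn_aS]

theorem tauber_aC {k : ℕ} {l : ℝ → ℂ} (hl : BC S θ k l) (ρ : ℂ) :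
    Tendsto (fun N => ((mn S θ (fun t => 2 * Real.cos (k * t)) N : ℝ) : ℂ)) atTop (𝓝 ρ) ↔
      Edge l ρ := by
  obtain ⟨T, hT, h⟩ := hl
  have := q_tauber (aC_bd S θ k) hT h ρ
  unfold Edge
  rw [← this, ← tendsto_add_atTop_iff_nat (f := fun x : ℕ =>
    (∑ p ∈ Nat.primesBelow x, ntr 0 (aC S θ k) p) / ((Nat.primesBelow x).card : ℂ)) 1]
  simp only [mn_aC]

theorem mn_one (hS : S.Finite) : Tendsto (mn S θ (fun _ => 1)) atTop (𝓝 1) := by
  refine (card_PS hS).congr fun N => ?_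
  unfold mn
  simp

theorem edge_zero (hS : S.Finite) {l : ℝ → ℂ} (hl : BL S θ 0 l) : Edge l 1 := by
  rw [← tauber_aS hl]
  have h1 := (Complex.continuous_ofReal.tendsto _).comp (mn_one (θ := θ) hS)
  rw [Complex.ofReal_one] at h1
  refine h1.congr fun N => ?_
  simp only [Function.comp]
  congr 2
  funext t
  exact (UK_zero t).symm

theorem Edge.edgeT {l : ℝ → ℂ} {ρ : ℂ} (h : Edge l ρ) (lam : ℝ) : EdgeT lam l ρ :=
  fun φ hφ _ => h φ hφ

theorem window : ∃ C : ℝ, 0 < C ∧ ∀ (S : Set ℕ) (θ : ℕ → ℝ),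
    (∀ (k : ℕ) (l : ℝ → ℂ), BL S θ k l → ∀ (ρ lam : ℝ), 0 < lam → EdgeT lam l ρ →
      ∀ ε : ℝ, 0 < ε → ∀ᶠ N : ℕ in atTop, |mn S θ (UK k) N - ρ| ≤ C * (k + 1) / lam + ε) ∧
    ∀ (k : ℕ) (l : ℝ → ℂ), BC S θ k l → ∀ (ρ lam : ℝ), 0 < lam → EdgeT lam l ρ →
      ∀ ε : ℝ, 0 < ε → ∀ᶠ N : ℕ in atTop,
        |mn S θ (fun t => 2 * Real.cos (k * t)) N - ρ| ≤ C / lam + ε := by
  obtain ⟨C, hC, h⟩ := q_window
  refine ⟨4 * C, by linarith, fun S θ => ⟨fun k l hl ρ lam hlam he ε hε => ?_,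
    fun k l hl ρ lam hlam he ε hε => ?_⟩⟩
  · obtain ⟨T, hT, hL⟩ := hl
    have h1 := h (k + 1) 0 (aS S θ k) (aS_bd S θ k) T hT l hL ρ (lam / 2) (by linarith)
      (fun φ h1 h2 => he φ h1 (tsupport_lt hlam h2)) ε hε
    have h2 := (tendsto_add_atTop_nat 1).eventually h1
    filter_upwards [h2] with N hN
    rw [mn_aS, ← Complex.ofReal_sub, Complex.norm_real, Real.norm_eq_abs] at hN
    refine hN.trans ?_
    have e1 : C * ((k + 1 : ℕ) : ℝ) / (lam / 2) = 2 * (C * (k + 1) / lam) := by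
      push_cast
      field_simp
    have e2 : 4 * C * (k + 1) / lam = 4 * (C * (k + 1) / lam) := by ring
    rw [e1, e2]
    have : 0 ≤ C * ((k : ℝ) + 1) / lam := by positivity
    linarith
  · obtain ⟨T, hT, hL⟩ := hl
    have h1 := h 2 0 (aC S θ k) (aC_bd S θ k) T hT l hL ρ (lam / 2) (by linarith)
      (fun φ h1 h2 => he φ h1 (tsupport_lt hlam h2)) ε hε
    have h2 := (tendsto_add_atTop_nat 1).eventually h1
    filter_upwards [h2] with N hN
    rw [mn_aC, ← Complex.ofReal_sub, Complex.norm_real, Real.norm_eq_abs] at hN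
    refine hN.trans (le_of_eq ?_)
    push_cast
    field_simp
    norm_num

end Pool.Agent.Q255.SG.KL
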