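import Pool.Agent.Q255.SG.GK
import Pool.Agent.Q255.SG.KL

/-! # Classes in a compact group attached to the rational primes -/

set_option autoImplicit false

namespace Pool.Agent.Q255.SG.GQ

open MeasureTheory Filter Topology Pool.Agent.Q255.SG Pool.Agent.Q255.SG.KL
open scoped ComplexOrder

variable {S : Set ℕ}

/-- the mean over the primes `p ≤ N` outside `S` -/
noncomputable def qmean (S : Set ℕ) (f : ℕ → ℂ) (N : ℕ) : ℂ :=
  (∑ p ∈ PS S N, f p) / ((PS S N).card : ℂ)

open Classical in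
noncomputable def z0 (S : Set ℕ) (f : ℕ → ℂ) (p : ℕ) : ℂ := if p ∈ S then 0 else f p

theorem qmean_sub (hS : S.Finite) {f : ℕ → ℂ} {B : ℝ} (hB : 0 ≤ B) (hf : ∀ p, ‖f p‖ ≤ B) :
    Tendsto (fun N : ℕ => qmean S f N - (∑ p ∈ Nat.primesBelow (N + 1), z0 S f p) /
      ((Nat.primesBelow (N + 1)).card : ℂ)) atTop (𝓝 0) := by
  classical
  have hcard := card_PS hS
  have hcinv : Tendsto (fun N : ℕ => (((PS S N).card : ℝ) / (Nat.primeCounting N : ℝ))⁻¹) atTop
      (𝓝 1) := by
    simpa using hcard.inv₀ one_ne_zero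
  have h1 : Tendsto (fun N : ℕ => B * |(((PS S N).card : ℝ) / (Nat.primeCounting N : ℝ))⁻¹ - 1|)
      atTop (𝓝 0) := by
    simpa using ((hcinv.sub_const 1).abs).const_mul B
  have hc1' := (Metric.tendsto_nhds.1 hcard) 1 one_pos
  rw [tendsto_zero_iff_norm_tendsto_zero]
  refine squeeze_zero' (Eventually.of_forall fun x => norm_nonneg _) ?_ h1
  filter_upwards [pc_tendsto.eventually_gt_atTop 0, hc1'] with N hN hN'
  rw [Real.dist_eq] at hN'
  have hPS : 0 < ((PS S N).card : ℝ) := by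
    by_contra hcon
    have : ((PS S N).card : ℝ) = 0 := le_antisymm (not_lt.1 hcon) (Nat.cast_nonneg _)
    rw [this] at hN'
    norm_num at hN'
  have e0 : ∑ p ∈ Nat.primesBelow (N + 1), z0 S f p = ∑ p ∈ PS S N, f p := by
    unfold z0
    exact sum_PS f N
  have hP' : ((Nat.primeCounting N : ℕ) : ℂ) ≠ 0 := by
    have : (Nat.primeCounting N : ℝ) ≠ 0 := hN.ne'
    exact_mod_cast this
  have hc' : (((PS S N).card : ℕ) : ℂ) ≠ 0 := by
    have : ((PS S N).card : ℝ) ≠ 0 := hPS.ne'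
    exact_mod_cast this
  have e1 : qmean S f N - (∑ p ∈ Nat.primesBelow (N + 1), z0 S f p) /
      ((Nat.primesBelow (N + 1)).card : ℂ) =
      (∑ p ∈ PS S N, f p) / (Nat.primeCounting N : ℂ) *
        ((((((PS S N).card : ℝ) / (Nat.primeCounting N : ℝ))⁻¹ - 1 : ℝ)) : ℂ) := by
    rw [e0, ← pc_eq]
    unfold qmean
    push_cast
    field_simp
  rw [e1, norm_mul, Complex.norm_real, Real.norm_eq_abs]
  refine mul_le_mul_of_nonneg_right ?_ (abs_nonneg _)
  rw [norm_div, Complex.norm_natCast, div_le_iff₀ hN]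
  refine (norm_sum_le_of_le (n := fun _ => B) _ fun p _ => hf p).trans ?_
  rw [Finset.sum_const, nsmul_eq_mul, mul_comm]
  refine mul_le_mul_of_nonneg_left ?_ hB
  have : (PS S N).card ≤ Nat.primeCounting N := by
    rw [pc_eq]
    exact Finset.card_filter_le _ _
  exact_mod_cast this

variable {n : ℕ}

open Classical in
/-- `∏_{p ∉ S} det(1 - U_p p^{-s})⁻¹` -/
noncomputable def LQ (S : Set ℕ) (U : ℕ → Matrix.unitaryGroup (Fin n) ℂ) (s : ℂ) : ℂ :=
  ∏' p : Nat.Primes, if (p : ℕ) ∈ S then 1 else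
    ((1 - (((p : ℕ) : ℂ) ^ (-s)) • (U p : Matrix (Fin n) (Fin n) ℂ)).det)⁻¹

theorem exists_alphaQ (S : Set ℕ) (U : ℕ → Matrix.unitaryGroup (Fin n) ℂ) :
    ∃ α : ℕ → Fin n → ℂ, Bd 0 α ∧ (∀ s, LQ S U s = LF α 0 s) ∧
      ∀ p, ntr 0 α p = z0 S (fun p => (U p : Matrix (Fin n) (Fin n) ℂ).trace) p := by
  classical
  choose β h1 h2 h3 using fun p : ℕ => GK.exists_roots (U p : Matrix (Fin n) (Fin n) ℂ)
  refine ⟨fun p j => if p ∈ S then 0 else β p j, fun p hp j => ?_, fun s => ?_, fun p => ?_⟩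
  · by_cases hS : p ∈ S
    · simp only [if_pos hS, norm_zero]
      positivity
    · simp only [if_neg hS]
      rw [GK.norm_spec (U p) (h1 p j)]
      simp
  · rw [LF_zero]
    unfold LQ
    refine tprod_congr fun p => ?_
    by_cases hS : (p : ℕ) ∈ S
    · simp only [if_pos hS, zero_mul, sub_zero, Finset.prod_const_one, inv_one]
    · simp only [if_neg hS]
      rw [h2]
  · unfold ntr z0
    by_cases hS : p ∈ S
    · simp only [if_pos hS, zero_mul, Finset.sum_const_zero]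
    · simp only [if_neg hS]
      rw [← Finset.sum_mul, h3]
      simp

theorem q_bdry (S : Set ℕ) (U : ℕ → Matrix.unitaryGroup (Fin n) ℂ) :
    ∃ l : ℝ → ℂ, AngBd 0 (LQ S U) l := by
  obtain ⟨α, h1, h2, _⟩ := exists_alphaQ S U
  exact angBd_exists h1 fun s _ => h2 s

theorem q_int (S : Set ℕ) (U : ℕ → Matrix.unitaryGroup (Fin n) ℂ) {l : ℝ → ℂ}
    (hl : AngBd 0 (LQ S U) l) {φ : ℝ → ℂ} (hφ : Tst φ) (x : ℝ) :
    Integrable (fun t => ((Real.log ‖l t‖ : ℝ) : ℂ) *
      (φ t * Complex.exp (Complex.I * x * t))) := by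
  obtain ⟨α, h1, h2, _⟩ := exists_alphaQ S U
  obtain ⟨T, hT, hLim⟩ := Lim_of_angBd h1 (fun s _ => h2 s) hl
  exact (II_tendsto _ hT hLim hφ x).1

theorem q_iff {U : ℕ → Matrix.unitaryGroup (Fin n) ℂ} (hS : S.Finite) {l : ℝ → ℂ}
    (hl : AngBd 0 (LQ S U) l) (ρ : ℂ) :
    Tendsto (qmean S fun p => (U p : Matrix (Fin n) (Fin n) ℂ).trace) atTop (𝓝 ρ) ↔
      Edge l ρ := by
  obtain ⟨α, h1, h2, h3⟩ := exists_alphaQ S U
  obtain ⟨T, hT, hLim⟩ := Lim_of_angBd h1 (fun s _ => h2 s) hl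
  have h4 := q_tauber h1 hT hLim ρ
  unfold Edge
  rw [← h4, ← tendsto_add_atTop_iff_nat (f := fun x : ℕ =>
    (∑ p ∈ Nat.primesBelow x, ntr 0 α p) / ((Nat.primesBelow x).card : ℂ)) 1]
  simp only [h3]
  have h5 := qmean_sub (f := fun p => (U p : Matrix (Fin n) (Fin n) ℂ).trace) hS
    (Nat.cast_nonneg n) (fun p => GK.norm_trace_le (U p))
  constructor
  · intro h
    have := h.sub h5
    rw [sub_zero] at this
    refine this.congr fun x => ?_
    ring
  · intro h
    have := h.add h5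
    rw [add_zero] at this
    refine this.congr fun x => ?_
    ring

theorem qg_window : ∃ C : ℝ, 0 < C ∧ ∀ (n : ℕ) (S : Set ℕ), S.Finite →
    ∀ (U : ℕ → Matrix.unitaryGroup (Fin n) ℂ) (l : ℝ → ℂ),
    AngBd 0 (LQ S U) l → ∀ (ρ : ℂ) (lam : ℝ), 0 < lam → EdgeT lam l ρ →
    ∀ ε : ℝ, 0 < ε → ∀ᶠ N : ℕ in atTop,
      ‖qmean S (fun p => (U p : Matrix (Fin n) (Fin n) ℂ).trace) N - ρ‖ ≤ C * n / lam + ε := by
  obtain ⟨C, hC, h⟩ := q_window
  refine ⟨2 * C, by linarith, fun n S hS U l hl ρ lam hlam he ε hε => ?_⟩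
  obtain ⟨α, h1, h2, h3⟩ := exists_alphaQ S U
  obtain ⟨T, hT, hLim⟩ := Lim_of_angBd h1 (fun s _ => h2 s) hl
  have h4 := h n 0 α h1 T hT l hLim ρ (lam / 2) (by linarith)
    (fun φ h1 h2 => he φ h1 (tsupport_lt hlam h2)) (ε / 2) (by linarith)
  simp only [h3] at h4
  have h5 := (Metric.tendsto_nhds.1 (qmean_sub
    (f := fun p => (U p : Matrix (Fin n) (Fin n) ℂ).trace) hS (Nat.cast_nonneg n)
    (fun p => GK.norm_trace_le (U p)))) (ε / 2) (by linarith)
  have h6 := (tendsto_add_atTop_nat 1).eventually h4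
  filter_upwards [h5, h6] with N g1 g2
  rw [dist_zero_right] at g1
  have e1 : C * (n : ℝ) / (lam / 2) = 2 * C * n / lam := by
    field_simp
  rw [e1] at g2
  have e2 : qmean S (fun p => (U p : Matrix (Fin n) (Fin n) ℂ).trace) N - ρ =
      (qmean S (fun p => (U p : Matrix (Fin n) (Fin n) ℂ).trace) N -
        (∑ p ∈ Nat.primesBelow (N + 1),
          z0 S (fun p => (U p : Matrix (Fin n) (Fin n) ℂ).trace) p) /
          ((Nat.primesBelow (N + 1)).card : ℂ)) +
      ((∑ p ∈ Nat.primesBelow (N + 1),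
          z0 S (fun p => (U p : Matrix (Fin n) (Fin n) ℂ).trace) p) /
          ((Nat.primesBelow (N + 1)).card : ℂ) - ρ) := by ring
  rw [e2]
  refine (norm_add_le _ _).trans ?_
  linarith

/-! ### Groups -/

variable {G : Type} [Group G] [TopologicalSpace G] [IsTopologicalGroup G] [CompactSpace G]
  [T2Space G] [MeasurableSpace G] [BorelSpace G] (μ : Measure G) [IsProbabilityMeasure μ]
  [μ.IsMulLeftInvariant]

theorem q_weyl (S : Set ℕ) (s : ℕ → G)
    (h : ∀ (n : ℕ) (τ : G →* Matrix.unitaryGroup (Fin n) ℂ), Continuous τ →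
      Tendsto (qmean S fun v => (τ (s v) : Matrix (Fin n) (Fin n) ℂ).trace) atTop
        (𝓝 (∫ g, (τ g : Matrix (Fin n) (Fin n) ℂ).trace ∂μ))) {f : G → ℂ} (hf : Continuous f)
    (hcl : ∀ x g, f (g⁻¹ * x * g) = f x) :
    Tendsto (qmean S fun v => f (s v)) atTop (𝓝 (∫ g, f g ∂μ)) := by
  refine CG.weyl μ (A := fun x f => qmean S (fun v => f (s v)) x) ?_ ?_ ?_ ?_ hf hcl
  · intro x f g
    unfold qmean
    simp only [Pi.add_apply, Finset.sum_add_distrib, add_div]
  · intro x c f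
    unfold qmean
    simp only [Pi.smul_apply, smul_eq_mul, ← Finset.mul_sum, mul_div_assoc]
  · intro x f B hB hfB
    unfold qmean
    rw [norm_div, Complex.norm_natCast]
    rcases Nat.eq_zero_or_pos (PS S x).card with h0 | h0
    · rw [h0]
      simp [hB]
    · rw [div_le_iff₀ (by exact_mod_cast h0)]
      refine (norm_sum_le_of_le (n := fun _ => B) _ fun v _ => hfB _).trans ?_
      rw [Finset.sum_const, nsmul_eq_mul, mul_comm]
  · rintro f ⟨n, τ, hτ, hfτ⟩
    have := h n τ hτ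
    simp only [hfτ]
    exact this

/-! ### Finitely many representations -/

/-- the continuous unitary representations of `G` -/
abbrev Rp (G : Type) [Group G] [TopologicalSpace G] : Type :=
  Σ n : ℕ, {τ : G →* Matrix.unitaryGroup (Fin n) ℂ // Continuous τ}

/-- the character -/
noncomputable def ch (r : Rp G) (g : G) : ℂ := (r.2.1 g : Matrix (Fin r.1) (Fin r.1) ℂ).trace

omit [IsTopologicalGroup G] [CompactSpace G] [T2Space G] [MeasurableSpace G] [BorelSpace G] in
theorem ch_continuous (r : Rp G) : Continuous (ch r) :=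
  (continuous_subtype_val.comp r.2.2).matrix_trace

omit [IsTopologicalGroup G] [CompactSpace G] [T2Space G] [MeasurableSpace G] [BorelSpace G] in
/-- elements of the span of the characters are finite combinations -/
theorem span_repr {h : G → ℂ} (hh : h ∈ CG.CS G) : ∃ c : Rp G →₀ ℂ,
    ∀ g, h g = ∑ r ∈ c.support, c r * ch r g := by
  have h1 : ({f | CG.Ct f} : Set (G → ℂ)) = Set.range (ch (G := G)) := by
    ext f
    constructor
    · rintro ⟨n, τ, hτ, hf⟩
      exact ⟨⟨n, τ, hτ⟩, by funext g; exact (hf g).symm⟩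
    · rintro ⟨⟨n, τ, hτ⟩, rfl⟩
      exact ⟨n, τ, hτ, fun g => rfl⟩
  unfold CG.CS at hh
  rw [h1, Finsupp.mem_span_range_iff_exists_finsupp] at hh
  obtain ⟨c, hc⟩ := hh
  refine ⟨c, fun g => ?_⟩
  rw [← hc, Finsupp.sum, Finset.sum_apply]
  rfl

theorem norm_qmean_le {S : Set ℕ} {f : ℕ → ℂ} {B : ℝ} (hB : 0 ≤ B) (hf : ∀ p, ‖f p‖ ≤ B) (N : ℕ) :
    ‖qmean S f N‖ ≤ B := by
  unfold qmean
  rw [norm_div, Complex.norm_natCast]
  rcases Nat.eq_zero_or_pos (PS S N).card with h0 | h0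
  · rw [h0]
    simp [hB]
  · rw [div_le_iff₀ (by exact_mod_cast h0)]
    refine (norm_sum_le_of_le (n := fun _ => B) _ fun v _ => hf _).trans ?_
    rw [Finset.sum_const, nsmul_eq_mul, mul_comm]

theorem qmean_sub' {S : Set ℕ} (f g : ℕ → ℂ) (N : ℕ) :
    qmean S (fun p => f p - g p) N = qmean S f N - qmean S g N := by
  unfold qmean
  rw [Finset.sum_sub_distrib, sub_div]

/-- the hypothesis for one representation, a segment and a system of classes -/
def Hyp (S : Set ℕ) (s : ℕ → G) (lam : ℝ) (r : Rp G) : Prop :=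
  ∀ l : ℝ → ℂ, AngBd 0 (LQ S fun p => r.2.1 (s p)) l → EdgeT lam l (∫ g, ch r g ∂μ)

/-- **Finitely many representations and a finite segment: continuous class functions.** -/
theorem finite_cont {f : G → ℂ} (hf : Continuous f) (hcl : ∀ x g, f (g⁻¹ * x * g) = f x) {ε : ℝ}
    (hε : 0 < ε) : ∃ (T : Finset (Rp G)) (lam : ℝ), 0 < lam ∧ ∀ (S : Set ℕ), S.Finite →
      ∀ s : ℕ → G, (∀ r ∈ T, Hyp μ S s lam r) →
      ∀ᶠ N : ℕ in atTop, ‖qmean S (fun p => f (s p)) N - ∫ g, f g ∂μ‖ ≤ ε := by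
  obtain ⟨h, hh, hhc, hd⟩ := CG.class_dense μ hf hcl (show 0 < ε / 4 by linarith)
  obtain ⟨c, hc⟩ := span_repr hh
  obtain ⟨C, hC, hW⟩ := qg_window
  set A : ℝ := ∑ r ∈ c.support, ‖c r‖ * (r.1 : ℝ) with hA
  set B : ℝ := ∑ r ∈ c.support, ‖c r‖ with hB
  have hA0 : 0 ≤ A := Finset.sum_nonneg fun r _ => by positivity
  have hB0 : 0 ≤ B := Finset.sum_nonneg fun r _ => by positivity
  refine ⟨c.support, 8 * C * (A + 1) / ε, by positivity, fun S hS s hyp => ?_⟩
  set lam : ℝ := 8 * C * (A + 1) / ε with hlam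
  have hlam0 : 0 < lam := by positivity
  have h1 : ∀ r ∈ c.support, ∀ᶠ N : ℕ in atTop,
      ‖qmean S (fun p => ch r (s p)) N - ∫ g, ch r g ∂μ‖ ≤
        C * r.1 / lam + ε / (8 * (B + 1)) := by
    intro r hr
    obtain ⟨l, hl⟩ := q_bdry S (fun p => r.2.1 (s p))
    exact hW r.1 S hS (fun p => r.2.1 (s p)) l hl _ lam hlam0 (hyp r hr l hl) _ (by positivity)
  have h2 := (Filter.eventually_all_finset c.support).2 h1
  filter_upwards [h2] with N hN
  have e1 : qmean S (fun p => h (s p)) N = ∑ r ∈ c.support, c r *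
      qmean S (fun p => ch r (s p)) N := by
    unfold qmean
    simp only [hc]
    rw [Finset.sum_comm, Finset.sum_div]
    refine Finset.sum_congr rfl fun r _ => ?_
    rw [← Finset.mul_sum, mul_div_assoc]
  have e2 : ∫ g, h g ∂μ = ∑ r ∈ c.support, c r * ∫ g, ch r g ∂μ := by
    have : h = fun g => ∑ r ∈ c.support, c r * ch r g := funext hc
    rw [this, integral_finset_sum]
    · refine Finset.sum_congr rfl fun r _ => ?_
      rw [integral_const_mul]
    · intro r _
      exact (CG.int_cont μ (ch_continuous r)).const_mul _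
  have e3 : ‖qmean S (fun p => h (s p)) N - ∫ g, h g ∂μ‖ ≤ ε / 4 := by
    rw [e1, e2, ← Finset.sum_sub_distrib]
    have g1 : ∀ r ∈ c.support, ‖c r * qmean S (fun p => ch r (s p)) N -
        c r * ∫ g, ch r g ∂μ‖ ≤ ‖c r‖ * (C * r.1 / lam + ε / (8 * (B + 1))) := by
      intro r hr
      rw [← mul_sub, norm_mul]
      exact mul_le_mul_of_nonneg_left (hN r hr) (norm_nonneg _)
    refine (norm_sum_le_of_le _ g1).trans ?_
    have g2 : ∑ r ∈ c.support, ‖c r‖ * (C * r.1 / lam + ε / (8 * (B + 1))) =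
        A * (C / lam) + B * (ε / (8 * (B + 1))) := by
      rw [hA, hB, Finset.sum_mul, Finset.sum_mul, ← Finset.sum_add_distrib]
      refine Finset.sum_congr rfl fun r _ => ?_
      ring
    rw [g2]
    have g3 : A * (C / lam) ≤ ε / 8 := by
      rw [hlam]
      have : A * (C / (8 * C * (A + 1) / ε)) = (A / (A + 1)) * (ε / 8) := by
        field_simp
      rw [this]
      have h3 : A / (A + 1) ≤ 1 := by
        rw [div_le_one (by positivity)]
        linarith
      nlinarith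
    have g4 : B * (ε / (8 * (B + 1))) ≤ ε / 8 := by
      have : B * (ε / (8 * (B + 1))) = (B / (B + 1)) * (ε / 8) := by
        field_simp
      rw [this]
      have h3 : B / (B + 1) ≤ 1 := by
        rw [div_le_one (by positivity)]
        linarith
      nlinarith
    linarith
  have e4 : ‖qmean S (fun p => f (s p)) N - qmean S (fun p => h (s p)) N‖ ≤ ε / 4 := by
    rw [← qmean_sub']
    exact norm_qmean_le (by linarith) (fun p => hd _) N
  have e5 : ‖∫ g, h g ∂μ - ∫ g, f g ∂μ‖ ≤ ε / 4 := by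
    rw [norm_sub_rev, ← integral_sub (CG.int_cont μ hf) (CG.int_cont μ hhc)]
    refine (norm_integral_le_of_norm_le_const (C := ε / 4) (Eventually.of_forall hd)).trans ?_
    simp
  have e6 : qmean S (fun p => f (s p)) N - ∫ g, f g ∂μ =
      (qmean S (fun p => f (s p)) N - qmean S (fun p => h (s p)) N) +
      (qmean S (fun p => h (s p)) N - ∫ g, h g ∂μ) + (∫ g, h g ∂μ - ∫ g, f g ∂μ) := by ring
  rw [e6]
  refine norm_add₃_le.trans ?_
  linarith

omit [MeasurableSpace G] [BorelSpace G] in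
/-- a class function between a compact set and an invariant open set -/
theorem urysohn_class {U K : Set G} (hU : IsOpen U) (hinv : ∀ x g, g⁻¹ * x * g ∈ U ↔ x ∈ U)
    (hK : IsCompact K) (hKU : K ⊆ U) : ∃ f : G → ℝ, Continuous f ∧
      (∀ x g, f (g⁻¹ * x * g) = f x) ∧ (∀ x ∈ K, f x = 1) ∧ (∀ x ∉ U, f x = 0) ∧
      ∀ x, 0 ≤ f x ∧ f x ≤ 1 := by
  obtain ⟨f, h0, h1, h2⟩ := exists_continuous_zero_one_of_isClosed (s := Uᶜ) (t := K)
    hU.isClosed_compl hK.isClosed (by
      rw [Set.disjoint_left]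
      intro x hx hx'
      exact hx (hKU hx'))
  have hc : Continuous fun q : G × G => f (q.2⁻¹ * q.1 * q.2) := by fun_prop
  have hb : ∀ x : G, BddAbove (Set.range fun g : G => f (g⁻¹ * x * g)) := fun x =>
    ⟨1, by rintro _ ⟨g, rfl⟩; exact (h2 _).2⟩
  refine ⟨fun x => ⨆ g : G, f (g⁻¹ * x * g), ?_, fun x h => ?_, fun x hx => ?_, fun x hx => ?_,
    fun x => ⟨?_, ?_⟩⟩
  · have := (isCompact_univ (X := G)).continuous_sSup (f := fun x g => f (g⁻¹ * x * g)) hc
    simp only [Set.image_univ, sSup_range] at this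
    exact this
  · have e1 : ∀ g : G, f (g⁻¹ * (h⁻¹ * x * h) * g) = f ((h * g)⁻¹ * x * (h * g)) := by
      intro g
      congr 1
      group
    simp only [e1]
    exact (Equiv.mulLeft h).iSup_comp (g := fun g => f (g⁻¹ * x * g))
  · refine le_antisymm (ciSup_le fun g => (h2 _).2) ?_
    have := le_ciSup (hb x) 1
    simp only [inv_one, one_mul, mul_one] at this
    rwa [h1 hx] at this
  · have : ∀ g : G, f (g⁻¹ * x * g) = 0 := by
      intro g
      have hm : g⁻¹ * x * g ∈ Uᶜ := by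
        rw [Set.mem_compl_iff, hinv]
        exact hx
      exact h0 hm
    simp only [this]
    simp
  · exact (h2 _).1.trans (le_ciSup (hb x) 1)
  · exact ciSup_le fun g => (h2 _).2

open Classical in
/-- the share of the primes with class in `U` -/
noncomputable def sh (S : Set ℕ) (s : ℕ → G) (U : Set G) (N : ℕ) : ℝ :=
  (((PS S N).filter (fun p => s p ∈ U)).card : ℝ) / ((PS S N).card : ℝ)

omit [Group G] [TopologicalSpace G] [IsTopologicalGroup G] [CompactSpace G] [T2Space G]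
  [MeasurableSpace G] [BorelSpace G] in
theorem qmean_le_sh {U : Set G} {f : G → ℝ} (h0 : ∀ x ∉ U, f x = 0) (h1 : ∀ x, f x ≤ 1)
    (S : Set ℕ) (s : ℕ → G) (N : ℕ) : (qmean S (fun p => ((f (s p) : ℝ) : ℂ)) N).re ≤
      sh S s U N := by
  classical
  unfold qmean sh
  rw [← Complex.ofReal_sum, ← Complex.ofReal_natCast, ← Complex.ofReal_div, Complex.ofReal_re]
  refine div_le_div_of_nonneg_right ?_ (Nat.cast_nonneg _)
  rw [Finset.card_filter, Nat.cast_sum]
  refine Finset.sum_le_sum fun p _ => ?_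
  split_ifs with h
  · simpa using h1 (s p)
  · rw [h0 _ h]
    simp

/-- **Finitely many representations and a finite segment: open sets.** -/
theorem finite_open [μ.Regular] {U : Set G} (hU : IsOpen U)
    (hinv : ∀ x g, g⁻¹ * x * g ∈ U ↔ x ∈ U) {ε : ℝ} (hε : 0 < ε) :
    ∃ (T : Finset (Rp G)) (lam : ℝ), 0 < lam ∧ ∀ (S : Set ℕ), S.Finite →
      ∀ s : ℕ → G, (∀ r ∈ T, Hyp μ S s lam r) →
      ∀ᶠ N : ℕ in atTop, μ.real U - ε ≤ sh S s U N := by
  obtain ⟨K, hKU, hK, hμ⟩ : ∃ K ⊆ U, IsCompact K ∧ μ.real U - ε / 2 ≤ μ.real K := by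
    rcases le_or_gt (μ.real U - ε / 2) 0 with h | h
    · exact ⟨∅, Set.empty_subset _, isCompact_empty, by simpa using h⟩
    · have h1 : ENNReal.ofReal (μ.real U - ε / 2) < μ U := by
        have h2 : ENNReal.ofReal (μ.real U) = μ U := ENNReal.ofReal_toReal (measure_ne_top _ _)
        rw [← h2]
        exact (ENNReal.ofReal_lt_ofReal_iff (by linarith)).2 (by linarith)
      obtain ⟨K, hKU, hK, hlt⟩ := hU.exists_lt_isCompact h1
      refine ⟨K, hKU, hK, ?_⟩
      have h3 := (ENNReal.ofReal_lt_iff_lt_toReal h.le (measure_ne_top _ _)).1 hlt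
      exact h3.le
  obtain ⟨f, hf, hcl, hfK, hfU, hf01⟩ := urysohn_class hU hinv hK hKU
  obtain ⟨T, lam, hlam, hT⟩ := finite_cont μ (f := fun g => ((f g : ℝ) : ℂ))
    (Complex.continuous_ofReal.comp hf) (fun x g => by simp only [hcl]) (show 0 < ε / 2 by linarith)
  refine ⟨T, lam, hlam, fun S hS s hyp => ?_⟩
  filter_upwards [hT S hS s hyp] with N hN
  have h1 := qmean_le_sh hfU (fun x => (hf01 x).2) S s N
  have h2 := (Complex.abs_re_le_norm _).trans hN
  rw [Complex.sub_re, abs_le] at h2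
  have h3 : (∫ g, ((f g : ℝ) : ℂ) ∂μ).re = ∫ g, f g ∂μ := by
    rw [integral_complex_ofReal, Complex.ofReal_re]
  rw [h3] at h2
  have h4 : μ.real K ≤ ∫ g, f g ∂μ := by
    have hfi : Integrable f μ := by
      have := CG.int_cont μ (f := fun g => ((f g : ℝ) : ℂ)) (Complex.continuous_ofReal.comp hf)
      exact this.re
    have h5 : μ.real K = ∫ g, K.indicator (fun _ => (1 : ℝ)) g ∂μ := by
      rw [integral_indicator hK.measurableSet, setIntegral_const, smul_eq_mul, mul_one]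
    rw [h5]
    refine integral_mono ((integrable_const 1).indicator hK.measurableSet) hfi fun g => ?_
    by_cases hg : g ∈ K
    · rw [Set.indicator_of_mem hg, hfK g hg]
    · rw [Set.indicator_of_notMem hg]
      exact (hf01 g).1
  linarith [h2.1]

end Pool.Agent.Q255.SG.GQ
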