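import Pool.Agent.Q255.SA.Glob

/-! # General systems of Euler factors over number fields: partial products as exponentials -/

set_option autoImplicit false

namespace Pool.Agent.Q255.SG

open NumberField IsDedekindDomain Finset Pool.Agent.H921R2.TatePole
  Pool.Agent.H341R2 Pool.Agent.W350.EdgeEC Pool.Agent.W350.EdgeNF
  Pool.Agent.W350.EdgeV Pool.Agent.Q255.SA

variable {K : Type} [Field K] [NumberField K]

/-- local data: the logarithm of the Euler factor at `v`, at the height `τ` of the edge line, is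
`c v * q_v^{-1-iτ} + r v τ`. -/
structure LD (K : Type) [Field K] [NumberField K] (B A : ℝ) where
  c : HeightOneSpectrum (𝓞 K) → ℂ
  r : HeightOneSpectrum (𝓞 K) → ℝ → ℂ
  hB : 0 ≤ B
  hA : 0 ≤ A
  hc : ∀ v, ‖c v‖ ≤ B
  hr : ∀ v τ, ‖r v τ‖ ≤ A * (nm v : ℝ) ^ (-2 : ℝ)
  hcont : ∀ v, Continuous (r v)

variable {B A : ℝ}

/-- the first term -/
noncomputable def ft (D : LD K B A) (v : HeightOneSpectrum (𝓞 K)) (τ : ℝ) : ℂ :=
  D.c v * (ee τ (nm v) / (nm v : ℂ))

/-- the small part of the logarithm of the Euler factor -/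
noncomputable def sv (D : LD K B A) (v : HeightOneSpectrum (𝓞 K)) (τ : ℝ) : ℂ :=
  D.r v τ + if (nm v).Prime then 0 else ft D v τ

/-- the large part of the logarithm of the Euler factor -/
noncomputable def gv (D : LD K B A) (v : HeightOneSpectrum (𝓞 K)) (τ : ℝ) : ℂ :=
  if (nm v).Prime then ft D v τ else 0

theorem gv_add_sv (D : LD K B A) (v : HeightOneSpectrum (𝓞 K)) (τ : ℝ) :
    gv D v τ + sv D v τ = ft D v τ + D.r v τ := by
  unfold gv sv
  split_ifs <;> ring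

theorem norm_ft (D : LD K B A) (v : HeightOneSpectrum (𝓞 K)) (τ : ℝ) :
    ‖ft D v τ‖ ≤ B * (1 / nm v) := by
  unfold ft
  rw [norm_mul, norm_div, norm_ee, Complex.norm_natCast]
  exact mul_le_mul_of_nonneg_right (D.hc v) (by positivity)

theorem norm_sv (D : LD K B A) (v : HeightOneSpectrum (𝓞 K)) (τ : ℝ) {x : ℕ} (hx : 1 ≤ x)
    (hv : x ≤ nm v) :
    ‖sv D v τ‖ ≤ (A + B) * ((x : ℝ) ^ (-(1 / 8) : ℝ) * ((below v : ℕ) : ℝ) ^ (-(7 / 4) : ℝ)) := by
  have hA := D.hA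
  have hB := D.hB
  have h0 := nm_pos v
  have hx1 : (1 : ℝ) ≤ x := by exact_mod_cast hx
  have hx0 : (0 : ℝ) < x := by linarith
  have hv' : (x : ℝ) ≤ nm v := by exact_mod_cast hv
  have hn1 : (1 : ℝ) ≤ nm v := hx1.trans hv'
  have hr := D.hr v τ
  have hp : (1 : ℝ) ≤ ((below v : ℕ) : ℝ) := by exact_mod_cast (below v).2.one_lt.le
  have hpn : ((below v : ℕ) : ℝ) ≤ nm v := by exact_mod_cast below_le_nm v
  have h18 : (nm v : ℝ) ^ (-(1 / 8) : ℝ) ≤ (x : ℝ) ^ (-(1 / 8) : ℝ) :=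
    Real.rpow_le_rpow_of_nonpos hx0 hv' (by norm_num)
  have h2 : (nm v : ℝ) ^ (-2 : ℝ) ≤ (x : ℝ) ^ (-(1 / 8) : ℝ) *
      ((below v : ℕ) : ℝ) ^ (-(7 / 4) : ℝ) := by
    calc (nm v : ℝ) ^ (-2 : ℝ) = (nm v : ℝ) ^ (-(1 / 8) : ℝ) * (nm v : ℝ) ^ (-(15 / 8) : ℝ) := by
          rw [← Real.rpow_add h0]
          norm_num
      _ ≤ (x : ℝ) ^ (-(1 / 8) : ℝ) * ((below v : ℕ) : ℝ) ^ (-(7 / 4) : ℝ) := by
          refine mul_le_mul h18 ?_ (by positivity) (by positivity)
          calc (nm v : ℝ) ^ (-(15 / 8) : ℝ) ≤ (nm v : ℝ) ^ (-(7 / 4) : ℝ) :=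
                Real.rpow_le_rpow_of_exponent_le hn1 (by norm_num)
            _ ≤ _ := Real.rpow_le_rpow_of_nonpos (by linarith) hpn (by norm_num)
  unfold sv
  rw [add_mul]
  refine (norm_add_le _ _).trans (add_le_add (hr.trans (by gcongr)) ?_)
  split_ifs with hprime
  · rw [norm_zero]
    positivity
  · refine (norm_ft D v τ).trans ?_
    refine mul_le_mul_of_nonneg_left ?_ hB
    obtain ⟨h1, h2, _⟩ := nm_eq v
    have h3 : 2 ≤ deg v := by
      by_contra h4
      have h5 : deg v = 1 := by omega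
      rw [h5, pow_one] at h1
      exact hprime (by rw [h1]; exact (below v).2)
    have h4 : ((below v : ℕ) : ℝ) ^ (2 : ℕ) ≤ nm v := by
      rw [h1]
      have : (below v : ℕ) ^ 2 ≤ (below v : ℕ) ^ deg v := Nat.pow_le_pow_right (below v).2.pos h3
      exact_mod_cast this
    calc 1 / (nm v : ℝ) = (nm v : ℝ) ^ (-(1 / 8) : ℝ) * (nm v : ℝ) ^ (-(7 / 8) : ℝ) := by
          rw [← Real.rpow_add h0, one_div, ← Real.rpow_neg_one]
          norm_num
      _ ≤ (x : ℝ) ^ (-(1 / 8) : ℝ) * ((below v : ℕ) : ℝ) ^ (-(7 / 4) : ℝ) := by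
          refine mul_le_mul h18 ?_ (by positivity) (by positivity)
          calc (nm v : ℝ) ^ (-(7 / 8) : ℝ) ≤ (((below v : ℕ) : ℝ) ^ (2 : ℕ)) ^ (-(7 / 8) : ℝ) :=
                Real.rpow_le_rpow_of_nonpos (by positivity) h4 (by norm_num)
            _ = _ := by
                rw [← Real.rpow_natCast, ← Real.rpow_mul (by linarith)]
                norm_num

/-- the small part of the logarithm of the partial product -/
noncomputable def HH (D : LD K B A) (x : ℕ) (τ : ℝ) : ℂ := ∑ v ∈ FV nm hfin x, sv D v τ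

/-- coefficients -/
noncomputable def cK (D : LD K B A) (k : ℕ) : ℂ :=
  if k.Prime then ∑ v ∈ FV nm hfin (k + 1) with nm v = k, D.c v else 0

theorem norm_cK (D : LD K B A) {k : ℕ} (hk : k.Prime) :
    ‖cK D k‖ ≤ B * Module.finrank ℚ K := by
  unfold cK
  rw [if_pos hk]
  refine (norm_sum_le_of_le _ fun v _ => D.hc v).trans ?_
  rw [Finset.sum_const, nsmul_eq_mul, mul_comm]
  refine mul_le_mul_of_nonneg_left ?_ D.hB
  refine Nat.cast_le.2 (card_above ⟨k, hk⟩ _ fun v hv => ?_)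
  have h1 : nm v = k := (Finset.mem_filter.1 hv).2
  refine Subtype.ext ?_
  show (Ideal.absNorm v.asIdeal).minFac = k
  have h2 : Ideal.absNorm v.asIdeal = k := h1
  rw [h2, hk.minFac_eq]

theorem cK_not_prime (D : LD K B A) {k : ℕ} (hk : ¬ k.Prime) : cK D k = 0 := by
  unfold cK
  rw [if_neg hk]

theorem sum_gv (D : LD K B A) (x : ℕ) (τ : ℝ) :
    ∑ v ∈ FV nm hfin x, gv D v τ = CS (cK D) 0 x τ := by
  classical
  rw [← Finset.sum_fiberwise_of_maps_to (s := FV nm hfin x) (t := Ico 0 x) (g := nm)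
    (fun v hv => Finset.mem_Ico.2 ⟨Nat.zero_le _, mem_FV.1 hv⟩)]
  unfold CS
  refine Finset.sum_congr rfl fun k hk => ?_
  rw [Finset.mem_Ico] at hk
  have hset : (FV nm hfin x).filter (fun v : HeightOneSpectrum (𝓞 K) => nm v = k) =
      (FV nm hfin (k + 1)).filter (fun v : HeightOneSpectrum (𝓞 K) => nm v = k) := by
    ext v
    rw [Finset.mem_filter, Finset.mem_filter, mem_FV, mem_FV]
    constructor
    · rintro ⟨_, h⟩
      exact ⟨by omega, h⟩
    · rintro ⟨_, h⟩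
      exact ⟨by omega, h⟩
  rw [hset]
  unfold cK
  by_cases hp : k.Prime
  · rw [if_pos hp, Finset.sum_mul]
    refine Finset.sum_congr rfl fun v hv => ?_
    have h1 : nm v = k := (Finset.mem_filter.1 hv).2
    unfold gv ft
    rw [h1, if_pos hp]
  · rw [if_neg hp, zero_mul]
    refine Finset.sum_eq_zero fun v hv => ?_
    have h1 : nm v = k := (Finset.mem_filter.1 hv).2
    unfold gv
    rw [h1, if_neg hp]

/-- the logarithm of the partial product -/
noncomputable def LP (D : LD K B A) (x : ℕ) (τ : ℝ) : ℂ :=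
  ∑ v ∈ FV nm hfin x, (ft D v τ + D.r v τ)

theorem LP_eq (D : LD K B A) (x : ℕ) (τ : ℝ) : LP D x τ = CS (cK D) 0 x τ + HH D x τ := by
  rw [← sum_gv]
  unfold HH LP
  rw [← Finset.sum_add_distrib]
  exact Finset.sum_congr rfl fun v _ => (gv_add_sv D v τ).symm

/-- the partial product on the edge -/
noncomputable def PP (D : LD K B A) (x : ℕ) (τ : ℝ) : ℂ := Complex.exp (LP D x τ)

theorem ft_continuous (D : LD K B A) (v : HeightOneSpectrum (𝓞 K)) : Continuous (ft D v) := by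
  unfold ft ee
  fun_prop

theorem HH_continuous (D : LD K B A) (x : ℕ) : Continuous (HH D x) := by
  unfold HH sv
  refine continuous_finset_sum _ fun v _ => (D.hcont v).add ?_
  split_ifs
  · exact continuous_const
  · exact ft_continuous D v

theorem LP_continuous (D : LD K B A) (x : ℕ) : Continuous (LP D x) := by
  unfold LP
  exact continuous_finset_sum _ fun v _ => (ft_continuous D v).add (D.hcont v)

theorem sum_sv_le (D : LD K B A)
    (G : Finset (HeightOneSpectrum (𝓞 K))) {x : ℕ} (hx : 1 ≤ x) (hG : ∀ v ∈ G, x ≤ nm v) (τ : ℝ) :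
    ‖∑ v ∈ G, sv D v τ‖ ≤ (A + B) * Module.finrank ℚ K * S0 * (x : ℝ) ^ (-(1 / 8) : ℝ) := by
  have hA := D.hA
  have hB := D.hB
  refine (norm_sum_le_of_le _ fun v hv => norm_sv D v τ hx (hG v hv)).trans ?_
  rw [← Finset.mul_sum, ← Finset.mul_sum]
  have h1 := sum_below G
  calc (A + B) * ((x : ℝ) ^ (-(1 / 8) : ℝ) *
        ∑ v ∈ G, ((below v : ℕ) : ℝ) ^ (-(7 / 4) : ℝ))
      ≤ (A + B) * ((x : ℝ) ^ (-(1 / 8) : ℝ) * (Module.finrank ℚ K * S0)) := by
        gcongr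
    _ = _ := by ring

theorem HH_bound (D : LD K B A) (x : ℕ) (τ : ℝ) :
    ‖HH D x τ‖ ≤ (A + B) * Module.finrank ℚ K * S0 := by
  have h := sum_sv_le D (FV nm hfin x) le_rfl (fun v _ => hN v) τ
  rw [Nat.cast_one, Real.one_rpow, mul_one] at h
  exact h

theorem HH_diff (D : LD K B A) {x z : ℕ} (hx : 1 ≤ x) (hxz : x ≤ z) (τ : ℝ) :
    ‖HH D z τ - HH D x τ‖ ≤ (A + B) * Module.finrank ℚ K * S0 * (x : ℝ) ^ (-(1 / 8) : ℝ) := by
  classical
  have hsub : FV (nm : HeightOneSpectrum (𝓞 K) → ℕ) hfin x ⊆ FV nm hfin z := by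
    intro v hv
    rw [mem_FV] at hv ⊢
    omega
  have h1 : HH D z τ - HH D x τ = ∑ v ∈ FV nm hfin z \ FV nm hfin x, sv D v τ := by
    unfold HH
    rw [← Finset.sum_sdiff hsub]
    ring
  rw [h1]
  refine sum_sv_le D _ hx (fun v hv => ?_) τ
  rw [Finset.mem_sdiff, mem_FV, mem_FV] at hv
  omega

end Pool.Agent.Q255.SG
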