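import Pool.Agent.Q255.SG.BohrMain
import Pool.Agent.Q255.SG.Comp

/-! # The hull of a boundary function on the edge -/

set_option autoImplicit false

namespace Pool.Agent.Q255.SG

open Finset MeasureTheory Filter Topology Pool.Agent.Q255.SA Pool.Agent.TH109.CG

variable {N : ℕ} {w : ℝ}

/-! ## the metric -/

/-- the largest mean distance on intervals of length one -/
noncomputable def gap (f g : ℝ → ℂ) : ENNReal :=
  ⨆ a : ℝ, ∫⁻ t in Set.Icc a (a + 1), ENNReal.ofReal (min 1 ‖f t - g t‖)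

theorem le_gap (f g : ℝ → ℂ) (a : ℝ) :
    ∫⁻ t in Set.Icc a (a + 1), ENNReal.ofReal (min 1 ‖f t - g t‖) ≤ gap f g :=
  le_iSup (fun a : ℝ => ∫⁻ t in Set.Icc a (a + 1), ENNReal.ofReal (min 1 ‖f t - g t‖)) a

theorem gap_symm (f g : ℝ → ℂ) : gap f g = gap g f := by
  unfold gap
  simp_rw [norm_sub_rev]

theorem min_tri {a b c : ℝ} (ha : 0 ≤ a) (hb : 0 ≤ b) (h : c ≤ a + b) :
    min 1 c ≤ min 1 a + min 1 b := by
  rcases le_total 1 a with h1 | h1
  · rw [min_eq_left h1]
    exact (min_le_left _ _).trans (by linarith [le_min zero_le_one hb])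
  · rcases le_total 1 b with h2 | h2
    · rw [min_eq_left h2]
      exact (min_le_left _ _).trans (by linarith [le_min zero_le_one ha])
    · rw [min_eq_right h1, min_eq_right h2]
      exact (min_le_right _ _).trans h

theorem gap_tri {f g h : ℝ → ℂ} (hf : AEMeasurable f) (hg : AEMeasurable g) :
    gap f h ≤ gap f g + gap g h := by
  refine iSup_le fun a => ?_
  have h1 : ∫⁻ t in Set.Icc a (a + 1), ENNReal.ofReal (min 1 ‖f t - h t‖) ≤
      ∫⁻ t in Set.Icc a (a + 1), (ENNReal.ofReal (min 1 ‖f t - g t‖) +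
        ENNReal.ofReal (min 1 ‖g t - h t‖)) := by
    refine lintegral_mono fun t => ?_
    dsimp only
    rw [← ENNReal.ofReal_add (le_min zero_le_one (norm_nonneg _))
      (le_min zero_le_one (norm_nonneg _))]
    refine ENNReal.ofReal_le_ofReal (min_tri (norm_nonneg _) (norm_nonneg _) ?_)
    calc ‖f t - h t‖ = ‖(f t - g t) + (g t - h t)‖ := by ring_nf
      _ ≤ _ := norm_add_le _ _
  refine h1.trans ?_
  rw [lintegral_add_left']
  · exact add_le_add (le_gap f g a) (le_gap g h a)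
  · exact (aemeasurable_const.min (hf.sub hg).norm).ennreal_ofReal.restrict

theorem gap_le_of_sup {f g : ℝ → ℂ} {ε : ℝ} (h : ∀ t, ‖f t - g t‖ ≤ ε) :
    gap f g ≤ ENNReal.ofReal ε := by
  refine iSup_le fun a => ?_
  calc ∫⁻ t in Set.Icc a (a + 1), ENNReal.ofReal (min 1 ‖f t - g t‖) ≤
      ∫⁻ _ in Set.Icc a (a + 1), ENNReal.ofReal ε :=
        lintegral_mono fun t => ENNReal.ofReal_le_ofReal ((min_le_right _ _).trans (h t))
    _ = ENNReal.ofReal ε := by
        rw [setLIntegral_const, Real.volume_Icc]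
        simp

theorem gap_shift (f g : ℝ → ℂ) (τ : ℝ) :
    gap (fun t => f (t + τ)) (fun t => g (t + τ)) = gap f g := by
  have h1 : ∀ a : ℝ, ∫⁻ t in Set.Icc a (a + 1), ENNReal.ofReal (min 1 ‖f (t + τ) - g (t + τ)‖) =
      ∫⁻ t in Set.Icc (a + τ) (a + τ + 1), ENNReal.ofReal (min 1 ‖f t - g t‖) := by
    intro a
    have e := (measurePreserving_add_right (volume : Measure ℝ) τ).setLIntegral_comp_preimage_emb
      (measurableEmbedding_addRight τ) (fun t => ENNReal.ofReal (min 1 ‖f t - g t‖))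
      (Set.Icc (a + τ) (a + τ + 1))
    have e2 : (fun x : ℝ => x + τ) ⁻¹' Set.Icc (a + τ) (a + τ + 1) = Set.Icc a (a + 1) := by
      ext x
      simp only [Set.mem_preimage, Set.mem_Icc]
      constructor <;> intro h <;> constructor <;> linarith [h.1, h.2]
    rw [e2] at e
    exact e
  unfold gap
  simp_rw [h1]
  refine le_antisymm (iSup_le fun a => ?_) (iSup_le fun a => ?_)
  · exact le_iSup (fun a : ℝ => ∫⁻ t in Set.Icc a (a + 1), ENNReal.ofReal (min 1 ‖f t - g t‖))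
      (a + τ)
  · have := le_iSup (fun a : ℝ => ∫⁻ t in Set.Icc (a + τ) (a + τ + 1),
      ENNReal.ofReal (min 1 ‖f t - g t‖)) (a - τ)
    simpa using this

theorem gap_ae {f f' g g' : ℝ → ℂ} (h : f =ᵐ[volume] f') (h' : g =ᵐ[volume] g') :
    gap f g = gap f' g' := by
  unfold gap
  congr 1
  funext a
  refine lintegral_congr_ae ?_
  filter_upwards [ae_restrict_of_ae h, ae_restrict_of_ae h'] with t h1 h2
  rw [h1, h2]

theorem gap_self (f : ℝ → ℂ) : gap f f = 0 := by
  unfold gap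
  simp

theorem gap_zero {f g : ℝ → ℂ} (hf : AEMeasurable f) (hg : AEMeasurable g) (h : gap f g = 0) :
    f =ᵐ[volume] g := by
  have h1 : ∀ n : ℤ, ∀ᵐ t ∂(volume.restrict (Set.Icc (n : ℝ) (n + 1))), f t = g t := by
    intro n
    have h2 : ∫⁻ t in Set.Icc (n : ℝ) (n + 1), ENNReal.ofReal (min 1 ‖f t - g t‖) = 0 :=
      le_antisymm ((le_gap f g n).trans (le_of_eq h)) zero_le'
    have hm : AEMeasurable (fun t => ENNReal.ofReal (min 1 ‖f t - g t‖))
        (volume.restrict (Set.Icc (n : ℝ) (n + 1))) :=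
      (aemeasurable_const.min (hf.sub hg).norm).ennreal_ofReal.restrict
    rw [lintegral_eq_zero_iff' hm] at h2
    filter_upwards [h2] with t ht
    have h3 : min 1 ‖f t - g t‖ ≤ 0 := ENNReal.ofReal_eq_zero.1 ht
    have h4 : ‖f t - g t‖ ≤ 0 := by
      rcases min_le_iff.1 h3 with h5 | h5
      · linarith
      · exact h5
    exact sub_eq_zero.1 (norm_le_zero_iff.1 h4)
  have h2 : ∀ᵐ t ∂(volume.restrict (⋃ n : ℤ, Set.Icc (n : ℝ) (n + 1))), f t = g t :=
    (ae_restrict_iUnion_iff _ _).2 h1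
  have h3 : (⋃ n : ℤ, Set.Icc (n : ℝ) (n + 1)) = Set.univ := by
    refine Set.eq_univ_of_forall fun t => Set.mem_iUnion.2 ⟨⌊t⌋, Int.floor_le t, ?_⟩
    exact (Int.lt_floor_add_one t).le
  rw [h3, Measure.restrict_univ] at h2
  exact h2

/-! ## the twists -/

/-- the twist by the angles `θ` -/
noncomputable def tw (α : ℕ → Fin N → ℂ) (θ : ℕ → UnitAddCircle) : ℕ → Fin N → ℂ :=
  fun p j => fourier 1 (θ p) * α p j

theorem norm_four (x : UnitAddCircle) : ‖(fourier 1 x : ℂ)‖ = 1 := by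
  rw [fourier_apply]
  exact Circle.norm_coe _

theorem Bd_tw {α : ℕ → Fin N → ℂ} (hα : Bd w α) (θ : ℕ → UnitAddCircle) : Bd w (tw α θ) := by
  intro p hp j
  unfold tw
  rw [norm_mul, norm_four, one_mul]
  exact hα p hp j

theorem four_add (x y : UnitAddCircle) : (fourier 1 (x + y) : ℂ) = fourier 1 x * fourier 1 y := by
  rw [fourier_apply, fourier_apply, fourier_apply, one_smul, one_smul, one_smul,
    AddCircle.toCircle_add]
  push_cast
  rfl

theorem RL_tw (α : ℕ → Fin N → ℂ) (θ θ' : ℕ → UnitAddCircle) (x : ℕ) :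
    RL w (tw α θ) x θ' = RL w α x (θ + θ') := by
  unfold RL
  refine Finset.sum_congr rfl fun p _ => Finset.sum_congr rfl fun j _ => ?_
  have : bt w (tw α θ p j) p * fourier 1 (θ' p) = bt w (α p j) p * fourier 1 ((θ + θ') p) := by
    rw [Pi.add_apply, four_add]
    unfold bt tw
    ring
  rw [this]

theorem AP_tw {α : ℕ → Fin N → ℂ} (hα : Bd w α) (θ : ℕ → UnitAddCircle) (x : ℕ) (t : ℝ) :
    AP (qAD w (tw α θ) (Bd_tw hα θ)) x t = RP w α x (θ + li t) := by
  rw [← RP_li (Bd_tw hα θ)]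
  unfold RP
  rw [RL_tw]

theorem li_add (s t : ℝ) : li (s + t) = li s + li t := by
  funext p
  unfold li
  rw [Pi.add_apply, ← AddCircle.coe_add]
  congr 1
  ring

/-- the boundary functions of the twists -/
def Hl (w : ℝ) (α : ℕ → Fin N → ℂ) (θ : ℕ → UnitAddCircle) (l : ℝ → ℂ) : Prop :=
  ∃ T : Set ℝ, volume T = 0 ∧ ∀ τ ∉ T, l τ ≠ 0 ∧
    Tendsto (fun x => RP w α x (θ + li τ)) atTop (𝓝 (l τ))

theorem Hl_lim {α : ℕ → Fin N → ℂ} (hα : Bd w α) {θ : ℕ → UnitAddCircle} {l : ℝ → ℂ}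
    (h : Hl w α θ l) : ∃ T : Set ℝ, volume T = 0 ∧ Lim (AP (qAD w (tw α θ) (Bd_tw hα θ))) T l := by
  obtain ⟨T, hT, h⟩ := h
  refine ⟨T, hT, fun τ hτ => ⟨(h τ hτ).1, ?_⟩⟩
  simp_rw [AP_tw hα]
  exact (h τ hτ).2

theorem Hl_aemeas {α : ℕ → Fin N → ℂ} (hα : Bd w α) {θ : ℕ → UnitAddCircle} {l : ℝ → ℂ}
    (h : Hl w α θ l) : AEMeasurable l := by
  obtain ⟨T, hT, h⟩ := Hl_lim hα h
  exact lim_aemeas (fun x => AP_continuous _ x) hT h

theorem Hl_shift {α : ℕ → Fin N → ℂ} {θ : ℕ → UnitAddCircle} {l : ℝ → ℂ}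
    (h : Hl w α θ l) (τ : ℝ) : Hl w α (θ + li τ) (fun t => l (t + τ)) := by
  obtain ⟨T, hT, h⟩ := h
  refine ⟨(fun t => t + τ) ⁻¹' T, ?_, fun t ht => ?_⟩
  · rw [(measurePreserving_add_right (volume : Measure ℝ) τ).measure_preimage
      (NullMeasurableSet.of_null hT)]
    exact hT
  · have h1 := h (t + τ) ht
    have e : θ + li τ + li t = θ + li (t + τ) := by
      rw [li_add]
      abel
    rw [e]
    exact h1

theorem Hl_unique {α : ℕ → Fin N → ℂ} {θ : ℕ → UnitAddCircle} {l l' : ℝ → ℂ}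
    (h : Hl w α θ l) (h' : Hl w α θ l') : l =ᵐ[volume] l' := by
  obtain ⟨T, hT, h⟩ := h
  obtain ⟨T', hT', h'⟩ := h'
  filter_upwards [ae_not hT, ae_not hT'] with t h1 h2
  exact tendsto_nhds_unique (h t h1).2 (h' t h2).2

/-! ## uniform approximation -/

theorem pt_min {z z' : ℂ} (hz' : z' ≠ 0) {R lam q : ℝ} (hR : 1 ≤ R) (hl : 0 < lam) (hq : 0 ≤ q) :
    min 1 ‖z - z'‖ ≤ lam + R ^ 2 / lam * dd z z' ^ 2 + R ^ (-q) * ‖z'‖ ^ q := by
  have hR0 : 0 < R := by linarith
  have hz0 : 0 < ‖z'‖ := norm_pos_iff.2 hz'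
  have h0 : 0 ≤ R ^ (-q) * ‖z'‖ ^ q := by positivity
  have h0' : 0 ≤ R ^ 2 / lam * dd z z' ^ 2 := by positivity
  rcases le_total ‖z'‖ R with h | h
  · have h1 : min 1 ‖z - z'‖ ≤ R * dd z z' := by
      have e : ‖z - z'‖ = ‖z'‖ * ‖z / z' - 1‖ := by
        rw [← norm_mul]
        congr 1
        field_simp
      unfold dd
      rcases le_total 1 ‖z / z' - 1‖ with h2 | h2
      · rw [min_eq_left h2]
        exact (min_le_left _ _).trans (by linarith)
      · rw [min_eq_right h2, e]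
        refine (min_le_right _ _).trans ?_
        gcongr
    have h2 : R * dd z z' ≤ lam + R ^ 2 / lam * dd z z' ^ 2 := by
      have h3 : R * dd z z' * lam ≤ (lam + R ^ 2 / lam * dd z z' ^ 2) * lam := by
        have e : (lam + R ^ 2 / lam * dd z z' ^ 2) * lam = lam ^ 2 + (R * dd z z') ^ 2 := by
          field_simp
        rw [e]
        nlinarith [sq_nonneg (lam - R * dd z z'), sq_nonneg (lam), sq_nonneg (R * dd z z')]
      exact le_of_mul_le_mul_right h3 hl
    linarith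
  · have h1 : 1 ≤ R ^ (-q) * ‖z'‖ ^ q := by
      rw [Real.rpow_neg hR0.le, ← div_eq_inv_mul, one_le_div (Real.rpow_pos_of_pos hR0 q)]
      exact Real.rpow_le_rpow hR0.le h hq
    exact (min_le_left _ _).trans (by linarith)

/-- The partial products approximate all boundary functions of rank `N` uniformly. -/
theorem hull_approx (N : ℕ) {ε : ℝ} (hε : 0 < ε) : ∃ x : ℕ, 3 ≤ x ∧
    ∀ (w : ℝ) (α : ℕ → Fin N → ℂ), Bd w α → ∀ (θ : ℕ → UnitAddCircle) (l : ℝ → ℂ),
      Hl w α θ l → gap l (fun t => RP w α x (θ + li t)) ≤ ENNReal.ofReal ε := by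
  set q : ℝ := 1 / (N + 1) with hq
  have hN0 : (0 : ℝ) ≤ N := Nat.cast_nonneg N
  have hq0 : 0 < q := by positivity
  have hq1 : (N : ℝ) * q < 1 := by
    rw [hq, mul_one_div, div_lt_one (by positivity)]
    linarith
  obtain ⟨C, hC, h⟩ := dd_lim (κ := N) (M := N * S0) hN0 (mul_nonneg hN0 S0_nonneg)
  obtain ⟨C', hC', h'⟩ := ap_int (κ := N) (M := N * S0) hN0 (mul_nonneg hN0 S0_nonneg) hq0.le hq1
  set lam : ℝ := ε / 3 with hlam
  have hlam0 : 0 < lam := by positivity
  obtain ⟨R, hR, hR1⟩ : ∃ R : ℝ, R ^ (-q) * C' ≤ ε / 3 ∧ 1 ≤ R := by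
    have h1 : Tendsto (fun R : ℝ => R ^ (-q) * C') atTop (𝓝 (0 * C')) :=
      (tendsto_rpow_neg_atTop hq0).mul_const C'
    rw [zero_mul] at h1
    exact ((h1.eventually_le_const (by positivity : (0 : ℝ) < ε / 3)).and
      (eventually_ge_atTop 1)).exists
  obtain ⟨x, hx, hx3⟩ : ∃ x : ℕ, R ^ 2 / lam * (C / Real.log x) ≤ ε / 3 ∧ 3 ≤ x := by
    have h1 : Tendsto (fun x : ℕ => R ^ 2 / lam * (C / Real.log x)) atTop
        (𝓝 (R ^ 2 / lam * 0)) := by
      refine Tendsto.const_mul _ ?_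
      refine Tendsto.div_atTop tendsto_const_nhds ?_
      exact Real.tendsto_log_atTop.comp tendsto_natCast_atTop_atTop
    rw [mul_zero] at h1
    exact ((h1.eventually_le_const (by positivity : (0 : ℝ) < ε / 3)).and
      (eventually_ge_atTop 3)).exists
  refine ⟨x, hx3, fun w α hα θ l hl => ?_⟩
  obtain ⟨T, hT, hlim⟩ := Hl_lim hα hl
  have e : (fun t => RP w α x (θ + li t)) = AP (qAD w (tw α θ) (Bd_tw hα θ)) x := by
    funext t
    rw [AP_tw hα]
  rw [e]
  set D := qAD w (tw α θ) (Bd_tw hα θ) with hD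
  have hlx : 0 < Real.log x := Real.log_pos (by
    have : (3 : ℝ) ≤ x := by exact_mod_cast hx3
    linarith)
  refine iSup_le fun a => ?_
  have g1 := h D T hT l hlim x hx3 a
  have g2 : ∫⁻ t in Set.Icc a (a + 1), ENNReal.ofReal (‖AP D x t‖ ^ q) ≤ ENNReal.ofReal C' := by
    have g3 := h' D q (by rw [abs_of_nonneg hq0.le]) x hx3 a
    rw [intervalIntegral.integral_of_le (by linarith), ← integral_Icc_eq_integral_Ioc] at g3
    rw [← ofReal_integral_eq_lintegral_ofReal
      ((AP_pow_continuous D x q).continuousOn.integrableOn_Icc)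
      (Eventually.of_forall fun t => by positivity)]
    exact ENNReal.ofReal_le_ofReal g3
  calc ∫⁻ t in Set.Icc a (a + 1), ENNReal.ofReal (min 1 ‖l t - AP D x t‖) ≤
      ∫⁻ t in Set.Icc a (a + 1), (ENNReal.ofReal lam +
        (ENNReal.ofReal (R ^ 2 / lam) * ENNReal.ofReal (dd (l t) (AP D x t) ^ 2) +
        ENNReal.ofReal (R ^ (-q)) * ENNReal.ofReal (‖AP D x t‖ ^ q))) := by
        refine lintegral_mono fun t => ?_
        dsimp only
        rw [← ENNReal.ofReal_mul (by positivity), ← ENNReal.ofReal_mul (by positivity),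
          ← ENNReal.ofReal_add (by positivity) (by positivity),
          ← ENNReal.ofReal_add (by positivity) (by positivity)]
        refine ENNReal.ofReal_le_ofReal ?_
        have := pt_min (z := l t) (AP_ne D x t) hR1 hlam0 hq0.le
        linarith
    _ = ENNReal.ofReal lam + (ENNReal.ofReal (R ^ 2 / lam) *
          ∫⁻ t in Set.Icc a (a + 1), ENNReal.ofReal (dd (l t) (AP D x t) ^ 2)) +
        ENNReal.ofReal (R ^ (-q)) *
          ∫⁻ t in Set.Icc a (a + 1), ENNReal.ofReal (‖AP D x t‖ ^ q) := by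
        rw [lintegral_add_left measurable_const, lintegral_add_right',
          lintegral_const_mul' _ _ ENNReal.ofReal_ne_top,
          lintegral_const_mul' _ _ ENNReal.ofReal_ne_top, setLIntegral_const, Real.volume_Icc]
        · simp only [add_sub_cancel_left, ENNReal.ofReal_one, mul_one]
          ring
        · exact ((AP_pow_continuous D x q).measurable.ennreal_ofReal.aemeasurable).const_mul _
    _ ≤ ENNReal.ofReal lam + ENNReal.ofReal (R ^ 2 / lam) * ENNReal.ofReal (C / Real.log x) +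
        ENNReal.ofReal (R ^ (-q)) * ENNReal.ofReal C' := by gcongr
    _ = ENNReal.ofReal (lam + R ^ 2 / lam * (C / Real.log x) + R ^ (-q) * C') := by
        rw [← ENNReal.ofReal_mul (by positivity), ← ENNReal.ofReal_mul (by positivity),
          ← ENNReal.ofReal_add (by positivity) (by positivity),
          ← ENNReal.ofReal_add (by positivity) (by positivity)]
    _ ≤ ENNReal.ofReal ε := ENNReal.ofReal_le_ofReal (by linarith)

/-- Continuity of the partial products, uniformly on the torus. -/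
theorem RP_unif {α : ℕ → Fin N → ℂ} (hα : Bd w α) (x : ℕ) {ε : ℝ} (hε : 0 < ε) :
    ∀ᶠ δ in 𝓝 (0 : ℕ → UnitAddCircle), ∀ θ, ‖RP w α x (θ + δ) - RP w α x θ‖ ≤ ε := by
  have h1 : UniformContinuous (RP w α x) :=
    CompactSpace.uniformContinuous_of_continuous (RP_continuous hα x)
  have h2 := h1 (Metric.dist_mem_uniformity hε)
  rw [Filter.mem_map] at h2
  have h3 : {p : (ℕ → UnitAddCircle) × (ℕ → UnitAddCircle) | dist (RP w α x p.1) (RP w α x p.2) < ε}
      ∈ uniformity (ℕ → UnitAddCircle) := h2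
  rw [uniformity_eq_comap_nhds_zero (ℕ → UnitAddCircle)] at h3
  obtain ⟨V, hV, hV2⟩ := h3
  filter_upwards [hV] with δ hδ θ
  have h4 : ((θ, θ + δ) : (ℕ → UnitAddCircle) × (ℕ → UnitAddCircle)) ∈
      {p : (ℕ → UnitAddCircle) × (ℕ → UnitAddCircle) | dist (RP w α x p.1) (RP w α x p.2) < ε} := by
    apply hV2
    show (θ + δ) - θ ∈ V
    rwa [add_sub_cancel_left]
  have h5 : dist (RP w α x θ) (RP w α x (θ + δ)) < ε := h4
  rw [dist_comm, dist_eq_norm] at h5
  exact h5.le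

end Pool.Agent.Q255.SG
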