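import Pool.Agent.Q255.SG.Hull
import Pool.Agent.Q255.SG.QBd

/-! # The hull of a boundary function on the edge: closure, uniqueness, equidistribution -/

set_option autoImplicit false

namespace Pool.Agent.Q255.SG

open Finset MeasureTheory Filter Topology Pool.Agent.Q255.SA Pool.Agent.TH109.CG

variable {N : ℕ} {w : ℝ}

theorem Hl_ae {α : ℕ → Fin N → ℂ} {θ : ℕ → UnitAddCircle} {l l' : ℝ → ℂ}
    (h : Hl w α θ l) (h' : l =ᵐ[volume] l') : Hl w α θ l' := by
  obtain ⟨T, hT, h⟩ := h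
  refine ⟨T ∪ {t | ¬ l t = l' t}, measure_union_null hT h', fun t ht => ?_⟩
  rw [Set.mem_union, not_or] at ht
  have h1 : l t = l' t := by
    by_contra h2
    exact ht.2 h2
  rw [← h1]
  exact h t ht.1

theorem Hl_dep {α : ℕ → Fin N → ℂ} {θ θ' : ℕ → UnitAddCircle} {l : ℝ → ℂ}
    (h : Hl w α θ l) (h' : ∀ p : ℕ, p.Prime → θ p = θ' p) : Hl w α θ' l := by
  obtain ⟨T, hT, h⟩ := h
  refine ⟨T, hT, fun t ht => ⟨(h t ht).1, (h t ht).2.congr fun x => ?_⟩⟩
  unfold RP
  rw [RL_dep α le_rfl (θ := θ + li t) (θ' := θ' + li t)]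
  intro p hp
  rw [Pi.add_apply, Pi.add_apply, h' p (Nat.prime_of_mem_primesBelow hp)]

/-- existence of the boundary functions -/
theorem Hl_exists {α : ℕ → Fin N → ℂ} (hα : Bd w α) (θ : ℕ → UnitAddCircle) :
    ∃ l : ℝ → ℂ, Hl w α θ l := by
  obtain ⟨T, hT, h⟩ := boundary_q (Bd_tw hα θ)
  have h' : ∀ τ : ℝ, ∃ l : ℂ, τ ∉ T → l ≠ 0 ∧
      Tendsto (fun x => RP w α x (θ + li τ)) atTop (𝓝 l) := by
    intro τ
    by_cases hτ : τ ∈ T
    · exact ⟨0, fun h => absurd hτ h⟩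
    · obtain ⟨l, h1, h2, h3⟩ := h τ hτ
      refine ⟨l, fun _ => ⟨h1, h2.congr fun x => ?_⟩⟩
      rw [q_partial (Bd_tw hα θ), AP_tw hα]
  choose l hl using h'
  refine ⟨l, T, ?_, hl⟩
  have h1 : (Measure.hausdorffMeasure (1 : ℝ) : Measure ℝ) T = 0 := by
    have := hausdorffMeasure_of_dimH_lt (X := ℝ) (s := T) (d := 1) (by rw [hT]; norm_num)
    simpa using this
  rw [← MeasureTheory.hausdorffMeasure_real]
  exact h1

theorem RP_aemeas {α : ℕ → Fin N → ℂ} (hα : Bd w α) (x : ℕ) (θ : ℕ → UnitAddCircle) :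
    AEMeasurable (fun t : ℝ => RP w α x (θ + li t)) := by
  have : (fun t : ℝ => RP w α x (θ + li t)) = AP (qAD w (tw α θ) (Bd_tw hα θ)) x := by
    funext t
    rw [AP_tw hα]
  rw [this]
  exact (AP_continuous _ x).measurable.aemeasurable

theorem ofReal3 {ε : ℝ} (hε : 0 < ε) : ENNReal.ofReal (ε / 3) +
    (ENNReal.ofReal (ε / 3) + ENNReal.ofReal (ε / 3)) = ENNReal.ofReal ε := by
  rw [← ENNReal.ofReal_add (by positivity) (by positivity),
    ← ENNReal.ofReal_add (by positivity) (by positivity)]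
  congr 1
  ring

/-- Continuity of the map of the torus to the boundary functions. -/
theorem hull_cont {α : ℕ → Fin N → ℂ} (hα : Bd w α) {ε : ℝ} (hε : 0 < ε) :
    ∀ᶠ δ in 𝓝 (0 : ℕ → UnitAddCircle), ∀ (θ : ℕ → UnitAddCircle) (l l' : ℝ → ℂ),
      Hl w α θ l → Hl w α (θ + δ) l' → gap l' l ≤ ENNReal.ofReal ε := by
  obtain ⟨x, hx, h⟩ := hull_approx N (ε := ε / 3) (by positivity)
  filter_upwards [RP_unif hα x (ε := ε / 3) (by positivity)] with δ hδ θ l l' hl hl'
  have h1 := h w α hα θ l hl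
  have h2 := h w α hα (θ + δ) l' hl'
  have h3 : gap (fun t => RP w α x (θ + δ + li t)) (fun t => RP w α x (θ + li t)) ≤
      ENNReal.ofReal (ε / 3) := by
    refine gap_le_of_sup fun t => ?_
    have e : θ + δ + li t = θ + li t + δ := by abel
    rw [e]
    exact hδ _
  calc gap l' l ≤ gap l' (fun t => RP w α x (θ + δ + li t)) +
        gap (fun t => RP w α x (θ + δ + li t)) l :=
        gap_tri (Hl_aemeas hα hl') (RP_aemeas hα x _)
    _ ≤ gap l' (fun t => RP w α x (θ + δ + li t)) +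
        (gap (fun t => RP w α x (θ + δ + li t)) (fun t => RP w α x (θ + li t)) +
          gap (fun t => RP w α x (θ + li t)) l) := by
        gcongr
        exact gap_tri (RP_aemeas hα x _) (RP_aemeas hα x _)
    _ ≤ ENNReal.ofReal (ε / 3) + (ENNReal.ofReal (ε / 3) + ENNReal.ofReal (ε / 3)) := by
        gcongr
        rw [gap_symm]
        exact h1
    _ = ENNReal.ofReal ε := ofReal3 hε

/-- Kronecker's theorem for the logarithms of the primes. -/
theorem kron (X : ℕ) (θ : ℕ → UnitAddCircle) {V : Set (ℕ → UnitAddCircle)}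
    (hV : V ∈ 𝓝 (0 : ℕ → UnitAddCircle)) : ∃ τ : ℝ,
      (fun p => if p ∈ Nat.primesBelow X then li τ p - θ p else 0) ∈ V := by
  set S := Nat.primesBelow X with hS
  obtain ⟨U, hUV, hU, h0U⟩ := mem_nhds_iff.1 hV
  set ψ : UnitAddTorus S → (ℕ → UnitAddCircle) := fun y => ext0 S (y - (fun i : S => θ i)) with hψ
  have hψc : Continuous ψ := (ext0_continuous S).comp (continuous_id.sub continuous_const)
  have hψ0 : ψ (fun i : S => θ i) = 0 := by
    rw [hψ]
    funext p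
    dsimp only
    rw [sub_self]
    unfold ext0
    split_ifs <;> rfl
  by_contra hcon
  push Not at hcon
  have key : ∀ t : ℝ, ln (fun i : S => -(Real.log (i : ℕ)) / (2 * Real.pi)) t ∉ ψ ⁻¹' U := by
    intro t ht
    apply hcon t
    apply hUV
    have e : ψ (ln (fun i : S => -(Real.log (i : ℕ)) / (2 * Real.pi)) t) =
        fun p => if p ∈ S then li t p - θ p else 0 := by
      rw [hψ]
      funext p
      dsimp only
      by_cases hp : p ∈ S
      · rw [ext0_apply S _ hp, if_pos hp]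
        rfl
      · rw [if_neg hp]
        unfold ext0
        rw [dif_neg hp]
    rw [Set.mem_preimage, e] at ht
    exact ht
  set Z : Set (UnitAddTorus S) := (ψ ⁻¹' U)ᶜ with hZ
  have hZc : IsClosed Z := (hU.preimage hψc).isClosed_compl
  have hZn : Z.Nonempty := ⟨_, key 0⟩
  have h1 := kronecker (ι := S) (fun i => -(Real.log (i : ℕ)) / (2 * Real.pi))
    (freq_indep S fun p hp => Nat.prime_of_mem_primesBelow hp)
    (fun y => Metric.infDist y Z) (Metric.continuous_infDist_pt Z)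
    (fun y => Metric.infDist_nonneg) (fun t => Metric.infDist_zero_of_mem (key t))
    (fun i : S => θ i)
  have h2 : (fun i : S => θ i) ∈ Z := by
    rw [← hZc.closure_eq, Metric.mem_closure_iff_infDist_zero hZn]
    exact h1
  apply h2
  rw [Set.mem_preimage, hψ0]
  exact h0U

variable {ι : Type} {n : ι → ℕ} {ws : ι → ℝ} {αs : (i : ι) → ℕ → Fin (n i) → ℂ}

/-- **The hull contains the twists.** -/
theorem hull_mem (hα : ∀ i, Bd (ws i) (αs i)) {l : ι → ℝ → ℂ}
    (hl : ∀ i, Hl (ws i) (αs i) 0 (l i)) {f : ι → ℝ → ℂ} {θ : ℕ → UnitAddCircle}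
    (hf : ∀ i, Hl (ws i) (αs i) θ (f i)) (J : Finset ι) {ε : ℝ} (hε : 0 < ε) :
    ∃ τ : ℝ, ∀ i ∈ J, gap (fun t => l i (t + τ)) (f i) ≤ ENNReal.ofReal ε := by
  classical
  have h1 : ∀ i, ∃ x : ℕ, ∀ (θ : ℕ → UnitAddCircle) (l : ℝ → ℂ),
      Hl (ws i) (αs i) θ l → gap l (fun t => RP (ws i) (αs i) x (θ + li t)) ≤
        ENNReal.ofReal (ε / 3) := by
    intro i
    obtain ⟨x, _, h⟩ := hull_approx (n i) (ε := ε / 3) (by positivity)
    exact ⟨x, h (ws i) (αs i) (hα i)⟩
  choose x hx using h1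
  obtain ⟨X, hX⟩ : ∃ X : ℕ, ∀ i ∈ J, x i ≤ X := by
    refine ⟨∑ i ∈ J, x i, fun i hi => ?_⟩
    exact Finset.single_le_sum (f := x) (fun _ _ => Nat.zero_le _) hi
  have h2 : ∀ᶠ δ in 𝓝 (0 : ℕ → UnitAddCircle), ∀ i ∈ J, ∀ θ,
      ‖RP (ws i) (αs i) (x i) (θ + δ) - RP (ws i) (αs i) (x i) θ‖ ≤ ε / 3 :=
    (Filter.eventually_all_finset J).2 fun i _ => RP_unif (hα i) (x i) (by positivity)
  obtain ⟨τ, hτ⟩ := kron X θ h2
  refine ⟨τ, fun i hi => ?_⟩
  have h3 := hτ i hi
  set δ : ℕ → UnitAddCircle := fun p => if p ∈ Nat.primesBelow X then li τ p - θ p else 0 with hδ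
  have e1 : ∀ t, RP (ws i) (αs i) (x i) (θ + li t + δ) = RP (ws i) (αs i) (x i) (li τ + li t) := by
    intro t
    unfold RP
    rw [RL_dep (αs i) (hX i hi) (θ := θ + li t + δ) (θ' := li τ + li t)]
    intro p hp
    simp only [Pi.add_apply, hδ, if_pos hp]
    abel
  have hls := Hl_shift (hl i) τ
  rw [zero_add] at hls
  have g1 := hx i (li τ) _ hls
  have g2 := hx i θ _ (hf i)
  have g3 : gap (fun t => RP (ws i) (αs i) (x i) (li τ + li t))
      (fun t => RP (ws i) (αs i) (x i) (θ + li t)) ≤ ENNReal.ofReal (ε / 3) := by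
    refine gap_le_of_sup fun t => ?_
    rw [← e1]
    exact h3 _
  calc gap (fun t => l i (t + τ)) (f i) ≤
        gap (fun t => l i (t + τ)) (fun t => RP (ws i) (αs i) (x i) (li τ + li t)) +
        gap (fun t => RP (ws i) (αs i) (x i) (li τ + li t)) (f i) :=
        gap_tri (Hl_aemeas (hα i) hls) (RP_aemeas (hα i) _ _)
    _ ≤ gap (fun t => l i (t + τ)) (fun t => RP (ws i) (αs i) (x i) (li τ + li t)) +
        (gap (fun t => RP (ws i) (αs i) (x i) (li τ + li t))
          (fun t => RP (ws i) (αs i) (x i) (θ + li t)) +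
          gap (fun t => RP (ws i) (αs i) (x i) (θ + li t)) (f i)) := by
        gcongr
        exact gap_tri (RP_aemeas (hα i) _ _) (RP_aemeas (hα i) _ _)
    _ ≤ ENNReal.ofReal (ε / 3) + (ENNReal.ofReal (ε / 3) + ENNReal.ofReal (ε / 3)) := by
        gcongr
        rw [gap_symm]
        exact g2
    _ = ENNReal.ofReal ε := ofReal3 hε

theorem exhaust (ι : Type) [Countable ι] : ∃ J : ℕ → Finset ι, ∀ i, ∀ᶠ m in atTop, i ∈ J m := by
  classical
  obtain ⟨f, hf⟩ := exists_injective_nat ι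
  refine ⟨fun m => (Finset.range m).preimage f hf.injOn, fun i => ?_⟩
  filter_upwards [eventually_gt_atTop (f i)] with m hm
  rw [Finset.mem_preimage, Finset.mem_range]
  exact hm

/-- **Every member of the hull is a twist.** -/
theorem hull_closed [Countable ι] (hα : ∀ i, Bd (ws i) (αs i)) {l : ι → ℝ → ℂ}
    (hl : ∀ i, Hl (ws i) (αs i) 0 (l i)) {f : ι → ℝ → ℂ} (hf : ∀ i, AEMeasurable (f i))
    (h : ∀ (J : Finset ι) (ε : ℝ), 0 < ε → ∃ τ : ℝ, ∀ i ∈ J,
      gap (fun t => l i (t + τ)) (f i) ≤ ENNReal.ofReal ε) :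
    ∃ θ : ℕ → UnitAddCircle, ∀ i, Hl (ws i) (αs i) θ (f i) := by
  obtain ⟨J, hJ⟩ := exhaust ι
  have h1 : ∀ m : ℕ, ∃ τ : ℝ, ∀ i ∈ J m, gap (fun t => l i (t + τ)) (f i) ≤
      ENNReal.ofReal (1 / ((m : ℝ) + 1)) := fun m => h _ _ (by positivity)
  choose τ hτ using h1
  obtain ⟨θ, _, φ, hφ, hlim⟩ := isCompact_univ.isSeqCompact (x := fun m => li (τ m))
    (fun m => Set.mem_univ _)
  have h2 : ∀ i, ∃ g : ℝ → ℂ, Hl (ws i) (αs i) θ g := fun i => Hl_exists (hα i) θ
  choose g hg using h2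
  refine ⟨θ, fun i => ?_⟩
  have hls : ∀ m, Hl (ws i) (αs i) (li (τ m)) (fun t => l i (t + τ m)) := by
    intro m
    have := Hl_shift (hl i) (τ m)
    rwa [zero_add] at this
  have h3 : gap (f i) (g i) = 0 := by
    refine le_antisymm (ENNReal.le_of_forall_pos_le_add fun ε hε _ => ?_) zero_le'
    rw [zero_add]
    have hε' : (0 : ℝ) < ε := hε
    have c1 := hull_cont (hα i) (ε := (ε : ℝ) / 2) (by positivity)
    have c2 : Tendsto (fun m => li (τ (φ m)) - θ) atTop (𝓝 0) := by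
      have := hlim.sub_const θ
      rwa [sub_self] at this
    have c3 : ∀ᶠ m : ℕ in atTop, 1 / (((φ m : ℕ) : ℝ) + 1) ≤ ε / 2 := by
      have := (tendsto_one_div_add_atTop_nhds_zero_nat (𝕜 := ℝ)).comp hφ.tendsto_atTop
      exact this.eventually_le_const (by positivity)
    obtain ⟨m, hm1, hm2, hm3⟩ :=
      ((c2.eventually c1).and (c3.and (hφ.tendsto_atTop.eventually (hJ i)))).exists
    have c4 := hm1 θ (g i) (fun t => l i (t + τ (φ m))) (hg i) (by
      rw [add_sub_cancel]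
      exact hls _)
    calc gap (f i) (g i) ≤ gap (f i) (fun t => l i (t + τ (φ m))) +
          gap (fun t => l i (t + τ (φ m))) (g i) :=
          gap_tri (hf i) (Hl_aemeas (hα i) (hls _))
      _ ≤ ENNReal.ofReal (ε / 2) + ENNReal.ofReal (ε / 2) := by
          refine add_le_add ?_ c4
          rw [gap_symm]
          exact (hτ (φ m) i hm3).trans (ENNReal.ofReal_le_ofReal hm2)
      _ = ε := by
          rw [← ENNReal.ofReal_add (by positivity) (by positivity), add_halves,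
            ENNReal.ofReal_coe_nnreal]
  exact Hl_ae (hg i) (gap_zero (hf i) (Hl_aemeas (hα i) (hg i)) h3).symm

/-! ## uniqueness -/

/-- The moduli on the edge determine the Euler factors. -/
theorem uniq {α α' : ℕ → Fin N → ℂ} (hα : Bd w α) (hα' : Bd w α') {T T' : Set ℝ}
    (hT : volume T = 0) (hT' : volume T' = 0) {l l' : ℝ → ℂ}
    (hl : Lim (AP (qAD w α hα)) T l) (hl' : Lim (AP (qAD w α' hα')) T' l')
    (h : ∀ᵐ t ∂(volume : Measure ℝ), ‖l t‖ = ‖l' t‖) {p : ℕ} (hp : p.Prime) :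
    PP1 (α p) = PP1 (α' p) := by
  obtain ⟨C, hC, hdiff⟩ := diff_sq (κ := (N : ℝ)) (M := N * S0) (Nat.cast_nonneg N)
    (mul_nonneg (Nat.cast_nonneg N) S0_nonneg)
  refine unique_PP1 fun k hk _ => ?_
  have h0 : ∀ a L : ℝ, ∫⁻ t in Set.Icc a (a + L),
      ENNReal.ofReal ((Real.log ‖l t‖ - Real.log ‖l' t‖) ^ 2) = 0 := by
    intro a L
    rw [lintegral_congr_ae (g := fun _ => 0)]
    · simp
    · filter_upwards [ae_restrict_of_ae h] with t ht
      rw [ht]
      simp
  have key : ‖be w α p (k - 1) - be w α' p (k - 1)‖ ≤ 0 := by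
    refine le_of_forall_pos_le_add fun ε hε => ?_
    rw [zero_add]
    -- choose z
    obtain ⟨z, hz1, hz2, hz3⟩ : ∃ z : ℕ, (1 + 12 * C) / Real.sqrt (Real.log z) ≤ ε / 2 ∧ 3 ≤ z ∧
        p < z := by
      have t1 : Tendsto (fun z : ℕ => (1 + 12 * C) / Real.sqrt (Real.log z)) atTop (𝓝 0) := by
        refine Tendsto.div_atTop tendsto_const_nhds ?_
        exact Real.tendsto_sqrt_atTop.comp (Real.tendsto_log_atTop.comp
          tendsto_natCast_atTop_atTop)
      have t2 := ((t1.eventually_le_const (by positivity : (0 : ℝ) < ε / 2)).and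
        ((eventually_ge_atTop 3).and (eventually_gt_atTop p))).exists
      exact t2
    have hlz : 0 < Real.log z := Real.log_pos (by
      have : (3 : ℝ) ≤ z := by exact_mod_cast hz2
      linarith)
    set B : ℝ := 8 * N * ((p ^ k : ℕ) + 1) * (1 + Real.log z) with hB
    have hB0 : 0 ≤ B := by positivity
    set L : ℝ := max 1 (4 * B / ε) with hL
    have hL1 : 1 ≤ L := le_max_left _ _
    have hL0 : 0 < L := by linarith
    have hLB : B ≤ ε / 4 * L := by
      have := le_max_right 1 (4 * B / ε)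
      rw [← hL, div_le_iff₀ hε] at this
      linarith
    have hI := hdiff (qAD w α hα) (qAD w α' hα') T T' hT hT' l l' hl hl' z hz2 0 L 0 hL1 le_rfl
      (by rw [h0]; exact zero_le')
    set g : ℝ → ℝ := fun t => Real.log ‖AP (qAD w α hα) z t‖ -
      Real.log ‖AP (qAD w α' hα') z t‖ with hg
    have hgc : Continuous g := by
      have h1 := ((AP_continuous (qAD w α hα) z).norm).log fun t =>
        norm_ne_zero_iff.2 (AP_ne _ z t)
      have h2 := ((AP_continuous (qAD w α' hα') z).norm).log fun t =>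
        norm_ne_zero_iff.2 (AP_ne _ z t)
      exact h1.sub h2
    set s : ℝ := Real.sqrt (Real.log z) with hs
    have hs0 : 0 < s := Real.sqrt_pos.2 hlz
    have hss : s * s = Real.log z := Real.mul_self_sqrt hlz.le
    have hA := int_abs_le hgc hL0.le (lam := 1 / s) (by positivity) hI
      (Real.log ((p ^ k : ℕ) : ℝ))
    have hA2 : (1 / s * L + L * (3 * 0 + 12 * C / Real.log z) / (1 / s)) / 2 =
        L / 2 * ((1 + 12 * C) / s) := by
      rw [← hss]
      field_simp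
      ring
    rw [hA2] at hA
    have hM := mean_test hα hα' hp hk hz3 hL0.le 0
    have hC2 : ‖(L : ℂ) / 2 * (be w α p (k - 1) - be w α' p (k - 1))‖ ≤
        L / 2 * (ε / 2) + ε / 4 * L := by
      have h1 := norm_sub_norm_le ((L : ℂ) / 2 * (be w α p (k - 1) - be w α' p (k - 1)))
        (∫ t in (0 : ℝ)..(0 + L), ((g t : ℝ) : ℂ) *
          Complex.exp ((Real.log ((p ^ k : ℕ) : ℝ) * t : ℝ) * Complex.I))
      rw [norm_sub_rev] at h1
      have h2 := hM.trans hLB
      have h3 : L / 2 * ((1 + 12 * C) / s) ≤ L / 2 * (ε / 2) := by gcongr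
      linarith
    rw [norm_mul, norm_div, Complex.norm_real, Real.norm_of_nonneg hL0.le, Complex.norm_ofNat]
      at hC2
    have e : L / 2 * (ε / 2) + ε / 4 * L = L / 2 * ε := by ring
    rw [e] at hC2
    exact le_of_mul_le_mul_left hC2 (by positivity)
  have h1 : be w α p (k - 1) = be w α' p (k - 1) := sub_eq_zero.1 (norm_le_zero_iff.1 key)
  unfold be at h1
  have e1 : k - 1 + 1 = k := by omega
  rw [e1] at h1
  have hp0 : (0 : ℝ) < p := by exact_mod_cast hp.pos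
  have h2 : (((p : ℝ) ^ (-((w / 2 + 1) * ((k - 1 : ℕ) + 1))) : ℝ) : ℂ) ≠ 0 :=
    Complex.ofReal_ne_zero.2 (Real.rpow_pos_of_pos hp0 _).ne'
  have h3 : (((k - 1 : ℕ) : ℂ) + 1) ≠ 0 := by
    have : (((k - 1 : ℕ) : ℂ) + 1) = (((k - 1 + 1 : ℕ)) : ℂ) := by push_cast; ring
    rw [this]
    exact_mod_cast (by omega : k - 1 + 1 ≠ 0)
  rw [div_left_inj' h3] at h1
  exact mul_right_cancel₀ h2 h1

theorem uniq_tw {α : ℕ → Fin N → ℂ} (hα : Bd w α) {θ θ' : ℕ → UnitAddCircle} {l l' : ℝ → ℂ}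
    (hl : Hl w α θ l) (hl' : Hl w α θ' l')
    (h : ∀ᵐ t ∂(volume : Measure ℝ), ‖l t‖ = ‖l' t‖) {p : ℕ} (hp : p.Prime) :
    PP1 (tw α θ p) = PP1 (tw α θ' p) := by
  obtain ⟨T, hT, h1⟩ := Hl_lim hα hl
  obtain ⟨T', hT', h2⟩ := Hl_lim hα hl'
  exact uniq (Bd_tw hα θ) (Bd_tw hα θ') hT hT' h1 h2 h hp

end Pool.Agent.Q255.SG
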