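import Pool.Agent.Q255.SG.KL

/-! # Equidistribution of angles for the Sato-Tate measure -/

set_option autoImplicit false

namespace Pool.Agent.Q255.SG.KL

open Filter Topology MeasureTheory Pool.Agent.Q255.SG

variable {S : Set ℕ} {θ : ℕ → ℝ}

/-- the share of the primes with angle in `[α, β]` -/
noncomputable def shr (S : Set ℕ) (θ : ℕ → ℝ) (α β : ℝ) (N : ℕ) : ℝ :=
  (((PS S N).filter (fun p => α ≤ θ p ∧ θ p ≤ β)).card : ℝ) / (Nat.primeCounting N : ℝ)

/-- the Sato-Tate measure -/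
noncomputable def stm (α β : ℝ) : ℝ := 2 / Real.pi * ∫ u in α..β, Real.sin u ^ 2

theorem sum_inv_le (m : ℕ) : ∑ k ∈ Finset.Ico 1 (m + 1), (1 : ℝ) / k ≤ 1 + Real.log m := by
  have h1 := harmonic_le_one_add_log m
  refine le_trans (le_of_eq ?_) h1
  unfold harmonic
  push_cast
  rw [Finset.sum_Ico_eq_sum_range]
  refine Finset.sum_congr (by simp) fun k _ => ?_
  push_cast
  rw [one_div, add_comm]

theorem abs_mn_cos (k N : ℕ) : |mn S θ (fun t => 2 * Real.cos (k * t)) N| ≤ 2 := by
  unfold mn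
  rw [abs_div, Nat.abs_cast]
  rcases Nat.eq_zero_or_pos (Nat.primeCounting N) with h | h
  · rw [h]
    simp
  · have hc : (0 : ℝ) < Nat.primeCounting N := by exact_mod_cast h
    rw [div_le_iff₀ hc]
    refine (Finset.abs_sum_le_sum_abs _ _).trans ?_
    calc ∑ p ∈ PS S N, |2 * Real.cos (k * θ p)| ≤ ∑ p ∈ PS S N, (2 : ℝ) := by
          refine Finset.sum_le_sum fun p _ => ?_
          rw [abs_mul, abs_two]
          linarith [Real.abs_cos_le_one (k * θ p)]
      _ = 2 * (PS S N).card := by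
          rw [Finset.sum_const, nsmul_eq_mul]
          ring
      _ ≤ 2 * Nat.primeCounting N := by
          have : (PS S N).card ≤ Nat.primeCounting N := by
            classical
            rw [pc_eq]
            exact Finset.card_filter_le _ _
          have : ((PS S N).card : ℝ) ≤ Nat.primeCounting N := by exact_mod_cast this
          linarith

/-- **The discrepancy bound.** -/
theorem disc : ∃ C : ℝ, 0 < C ∧ ∀ (S : Set ℕ), S.Finite → ∀ θ : ℕ → ℝ,
    (∀ p, 0 ≤ θ p ∧ θ p ≤ Real.pi) → ∀ l : ℕ → ℝ → ℂ, (∀ k, BL S θ k (l k)) →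
    ∀ lam : ℝ, 2 ≤ lam → (∀ k : ℕ, 1 ≤ k → (k : ℝ) ≤ lam → EdgeT lam (l k) 0) →
    ∀ ε : ℝ, 0 < ε → ∀ᶠ N : ℕ in atTop, ∀ α β : ℝ, 0 ≤ α → α ≤ β → β ≤ Real.pi →
      |shr S θ α β N - stm α β| ≤ C * Real.log lam / lam + ε := by
  obtain ⟨C, hC, hW⟩ := window
  refine ⟨96 + 6 * C, by linarith, fun S hS θ hθ l hl lam hlam hE ε hε => ?_⟩
  have hWC := (hW S θ).2
  have hlam0 : (0 : ℝ) < lam := by linarith
  have hlog2 : (1 : ℝ) / 2 ≤ Real.log 2 := by
    have := Real.log_two_gt_d9
    linarith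
  have hlog : Real.log 2 ≤ Real.log lam := Real.log_le_log (by norm_num) hlam
  set m : ℕ := ⌊lam⌋₊ with hm
  have hml : (m : ℝ) ≤ lam := Nat.floor_le hlam0.le
  have hml2 : lam < m + 1 := Nat.lt_floor_add_one lam
  have hm1 : 1 ≤ m := by
    have : 2 ≤ m := Nat.le_floor (by exact_mod_cast hlam)
    omega
  set ε1 : ℝ := ε / (12 * Real.log lam + 1) with hε1
  have hll0 : 0 < 12 * Real.log lam + 1 := by linarith
  have hε10 : 0 < ε1 := div_pos hε hll0
  -- the Weyl sums
  have h1 : ∀ k ∈ Finset.Ico 1 (m + 1), ∀ᶠ N : ℕ in atTop,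
      |mn S θ (fun t => 2 * Real.cos (k * t)) N - ET.ek k| ≤ C / lam + ε1 := by
    intro k hk
    rw [Finset.mem_Ico] at hk
    have hkl : (k : ℝ) ≤ lam := le_trans (by exact_mod_cast Nat.lt_succ_iff.1 hk.2) hml
    have hEk := hE k hk.1 hkl
    rcases k with _ | _ | k
    · omega
    · have h2 := BC_one (hl 1)
      have h3 := hWC 1 (l 1) h2 0 lam hlam0 (by simpa using hEk) ε1 hε10
      have e1 : ET.ek 1 = 0 := by
        unfold ET.ek
        norm_num
      simpa [e1] using h3
    · have h2 := BC_of_BL (hl (k + 2)) (hl k)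
      have h3 : ∃ c : ℝ, EdgeT lam (l k) c ∧ ET.ek (k + 2) = 0 - c := by
        rcases Nat.eq_zero_or_pos k with hk0 | hk0
        · subst hk0
          refine ⟨1, ?_, ?_⟩
          · have := Edge.edgeT (edge_zero hS (hl 0)) lam
            simpa using this
          · unfold ET.ek
            norm_num
        · refine ⟨0, ?_, ?_⟩
          · have h4 : ((k : ℕ) : ℝ) ≤ lam := by
              refine le_trans ?_ hkl
              push_cast
              linarith
            simpa using hE k hk0 h4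
          · unfold ET.ek
            rw [if_neg (by omega)]
            simp
      obtain ⟨c, hc1, hc2⟩ := h3
      have h4 := edge_sub (hl (k + 2)) (hl k) hEk hc1
      have h5 := hWC (k + 2) _ h2 (0 - c) lam hlam0 (by push_cast; exact h4) ε1 hε10
      rw [hc2]
      exact h5
  have h2 := (Filter.eventually_all_finset (Finset.Ico 1 (m + 1))).2 h1
  have hcard := card_PS hS
  have hcinv : Tendsto (fun N : ℕ => (((PS S N).card : ℝ) / (Nat.primeCounting N : ℝ))⁻¹) atTop
      (𝓝 1) := by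
    simpa using hcard.inv₀ one_ne_zero
  have hc1 := (Metric.tendsto_nhds.1 hcard) ε1 hε10
  have hc1' := (Metric.tendsto_nhds.1 hcard) 1 one_pos
  have hc2 := (Metric.tendsto_nhds.1 hcinv) (ε1 / 2) (by positivity)
  filter_upwards [h2, hc1, hc1', hc2, pc_tendsto.eventually_gt_atTop 0] with N a1 a2 a2' a3 a4 α β
    b1 b2 b3
  rw [Real.dist_eq] at a2 a2' a3
  have hPS : 0 < ((PS S N).card : ℝ) := by
    by_contra hcon
    have : ((PS S N).card : ℝ) = 0 := le_antisymm (not_lt.1 hcon) (Nat.cast_nonneg _)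
    rw [this] at a2'
    norm_num at a2'
  have hne : (PS S N).Nonempty := Finset.card_pos.1 (by exact_mod_cast hPS)
  set P : ℝ := (Nat.primeCounting N : ℝ) with hP
  set c : ℝ := ((PS S N).card : ℝ) with hcdef
  have hB : ∀ k ∈ Finset.Ico 1 (m + 1), |(∑ p ∈ PS S N, 2 * Real.cos (k * θ p)) / c -
      ET.ek k| ≤ C / lam + 2 * ε1 := by
    intro k hk
    have g1 := a1 k hk
    have g2 := abs_mn_cos (S := S) (θ := θ) k N
    have e1 : (∑ p ∈ PS S N, 2 * Real.cos (k * θ p)) / c =
        mn S θ (fun t => 2 * Real.cos (k * t)) N * (c / P)⁻¹ := by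
      unfold mn
      rw [← hP]
      field_simp
    have e2 : (∑ p ∈ PS S N, 2 * Real.cos (k * θ p)) / c - ET.ek k =
        (mn S θ (fun t => 2 * Real.cos (k * t)) N - ET.ek k) +
          mn S θ (fun t => 2 * Real.cos (k * t)) N * ((c / P)⁻¹ - 1) := by
      rw [e1]
      ring
    rw [e2]
    refine (abs_add_le _ _).trans ?_
    have g3 : |mn S θ (fun t => 2 * Real.cos (k * t)) N * ((c / P)⁻¹ - 1)| ≤ ε1 := by
      rw [abs_mul]
      calc _ ≤ 2 * (ε1 / 2) := mul_le_mul g2 a3.le (abs_nonneg _) (by norm_num)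
        _ = ε1 := by ring
    linarith
  have hET := ET.et hne (fun i _ => hθ i) (n := m + 1) (by omega) hB b1 b2 b3
  rw [← hcdef] at hET
  -- the harmonic sum
  have hsum : ∑ k ∈ Finset.Ico 1 (m + 1), (C / lam + 2 * ε1) / (k : ℝ) ≤
      (C / lam + 2 * ε1) * (3 * Real.log lam) := by
    have e1 : ∀ k ∈ Finset.Ico 1 (m + 1), (C / lam + 2 * ε1) / (k : ℝ) =
        (C / lam + 2 * ε1) * (1 / k) := fun k _ => by ring
    rw [Finset.sum_congr rfl e1, ← Finset.mul_sum]
    refine mul_le_mul_of_nonneg_left ?_ (by positivity)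
    have g1 := sum_inv_le m
    have g2 : Real.log m ≤ Real.log lam := Real.log_le_log (by exact_mod_cast hm1) hml
    linarith
  have h24 : (24 : ℝ) / ((m + 1 : ℕ) : ℝ) ≤ 48 * Real.log lam / lam := by
    rw [div_le_div_iff₀ (by positivity) hlam0]
    push_cast
    have g1 : 24 * lam ≤ 24 * (m + 1) := by linarith
    have g2 : (1 : ℝ) ≤ 2 * Real.log lam := by linarith
    have g3 : (0 : ℝ) ≤ (m : ℝ) + 1 := by positivity
    nlinarith
  have hshr : |shr S θ α β N - (((PS S N).filter (fun p => α ≤ θ p ∧ θ p ≤ β)).card : ℝ) / c| ≤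
      ε1 := by
    have e1 : shr S θ α β N - (((PS S N).filter (fun p => α ≤ θ p ∧ θ p ≤ β)).card : ℝ) / c =
        ((((PS S N).filter (fun p => α ≤ θ p ∧ θ p ≤ β)).card : ℝ) / c) * (c / P - 1) := by
      unfold shr
      rw [← hP]
      field_simp
    rw [e1, abs_mul]
    have g1 : |(((PS S N).filter (fun p => α ≤ θ p ∧ θ p ≤ β)).card : ℝ) / c| ≤ 1 := by
      rw [abs_of_nonneg (by positivity), div_le_one hPS, hcdef]
      exact_mod_cast Finset.card_filter_le _ _
    calc _ ≤ 1 * ε1 := mul_le_mul g1 a2.le (abs_nonneg _) zero_le_one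
      _ = ε1 := one_mul _
  have e3 : shr S θ α β N - stm α β =
      (shr S θ α β N - (((PS S N).filter (fun p => α ≤ θ p ∧ θ p ≤ β)).card : ℝ) / c) +
      ((((PS S N).filter (fun p => α ≤ θ p ∧ θ p ≤ β)).card : ℝ) / c - stm α β) := by ring
  rw [e3]
  refine (abs_add_le _ _).trans ?_
  have hfin : ε1 + 2 * (48 * Real.log lam / lam + (C / lam + 2 * ε1) * (3 * Real.log lam)) =
      (96 + 6 * C) * Real.log lam / lam + ε := by
    have h9 : ε = ε1 * (12 * Real.log lam + 1) := by
      rw [hε1, div_mul_cancel₀ _ hll0.ne']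
    have h10 : ε1 + 2 * (48 * Real.log lam / lam + (C / lam + 2 * ε1) * (3 * Real.log lam)) =
        (96 + 6 * C) * Real.log lam / lam + ε1 * (12 * Real.log lam + 1) := by ring
    rw [h10, ← h9]
  rw [← hfin]
  refine add_le_add hshr ?_
  unfold stm
  refine hET.trans ?_
  linarith

end Pool.Agent.Q255.SG.KL
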