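import Pool.Agent.Q255.SG.KL2

/-! # Equidistribution of angles for the Sato-Tate measure: equivalences -/

set_option autoImplicit false

namespace Pool.Agent.Q255.SG.KL

open Filter Topology MeasureTheory Pool.Agent.Q255.SG

variable {S : Set ℕ} {θ : ℕ → ℝ}

/-! ### From the intervals to the Weyl sums -/

/-- the derivative of `2 cos ku` -/
noncomputable def fd (k : ℕ) (u : ℝ) : ℝ := -(2 * k * Real.sin (k * u))

theorem fd_continuous (k : ℕ) : Continuous (fd k) := by
  unfold fd
  fun_prop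

theorem fd_hasDerivAt (k : ℕ) (u : ℝ) :
    HasDerivAt (fun u : ℝ => 2 * Real.cos (k * u)) (fd k u) u := by
  have h1 : HasDerivAt (fun y : ℝ => Real.cos (k * y)) (-Real.sin (k * u) * (k * 1)) u :=
    ((hasDerivAt_id u).const_mul (k : ℝ)).cos
  refine (h1.const_mul 2).congr_deriv ?_
  unfold fd
  ring

theorem fd_integral (k : ℕ) (a b : ℝ) :
    ∫ u in a..b, fd k u = 2 * Real.cos (k * b) - 2 * Real.cos (k * a) :=
  intervalIntegral.integral_eq_sub_of_hasDerivAt (fun x _ => fd_hasDerivAt k x)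
    ((fd_continuous k).intervalIntegrable _ _)

theorem one_point (k : ℕ) {a : ℝ} (h0 : 0 ≤ a) (h1 : a ≤ Real.pi) :
    ∫ u in (0 : ℝ)..Real.pi, (Set.Ici a).indicator (fd k) u =
      2 * Real.cos (k * Real.pi) - 2 * Real.cos (k * a) := by
  have hp := Real.pi_pos
  rw [intervalIntegral.integral_of_le hp.le, setIntegral_indicator measurableSet_Ici,
    ← fd_integral, intervalIntegral.integral_of_le h1]
  rcases lt_or_eq_of_le h0 with h | h
  · have : Set.Ioc 0 Real.pi ∩ Set.Ici a = Set.Icc a Real.pi := by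
      ext x
      simp only [Set.mem_inter_iff, Set.mem_Ioc, Set.mem_Ici, Set.mem_Icc]
      constructor
      · rintro ⟨⟨_, b⟩, c⟩
        exact ⟨c, b⟩
      · rintro ⟨b, c⟩
        exact ⟨⟨by linarith, c⟩, b⟩
    rw [this, integral_Icc_eq_integral_Ioc]
  · subst h
    have : Set.Ioc 0 Real.pi ∩ Set.Ici 0 = Set.Ioc 0 Real.pi := by
      ext x
      simp only [Set.mem_inter_iff, Set.mem_Ioc, Set.mem_Ici]
      constructor
      · rintro ⟨b, _⟩
        exact b
      · rintro b
        exact ⟨b, b.1.le⟩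
    rw [this]

theorem sum_eq (hθ : ∀ p, 0 ≤ θ p ∧ θ p ≤ Real.pi) (k N : ℕ) :
    mn S θ (fun t => 2 * Real.cos (k * t)) N =
      2 * Real.cos (k * Real.pi) * (((PS S N).card : ℝ) / (Nat.primeCounting N : ℝ)) -
      ∫ u in (0 : ℝ)..Real.pi, fd k u * shr S θ 0 u N := by
  have hp := Real.pi_pos
  have h1 : ∀ p, 2 * Real.cos (k * θ p) = 2 * Real.cos (k * Real.pi) -
      ∫ u in (0 : ℝ)..Real.pi, (Set.Ici (θ p)).indicator (fd k) u := by
    intro p
    rw [one_point k (hθ p).1 (hθ p).2]
    ring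
  have hint : ∀ p, IntervalIntegrable (fun u => (Set.Ici (θ p)).indicator (fd k) u) volume 0
      Real.pi := by
    intro p
    rw [intervalIntegrable_iff]
    exact (intervalIntegrable_iff.1 ((fd_continuous k).intervalIntegrable _ _)).indicator
      measurableSet_Ici
  have h2 : ∀ u ∈ Set.uIcc 0 Real.pi, fd k u * shr S θ 0 u N =
      (Nat.primeCounting N : ℝ)⁻¹ * ∑ p ∈ PS S N, (Set.Ici (θ p)).indicator (fd k) u := by
    intro u _
    have h3 : ∑ p ∈ PS S N, (Set.Ici (θ p)).indicator (fd k) u =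
        (((PS S N).filter (fun p => 0 ≤ θ p ∧ θ p ≤ u)).card : ℝ) * fd k u := by
      rw [← nsmul_eq_mul, ← Finset.sum_const, Finset.sum_filter]
      refine Finset.sum_congr rfl fun p _ => ?_
      rw [Set.indicator_apply]
      by_cases h : θ p ≤ u
      · rw [if_pos (Set.mem_Ici.2 h), if_pos ⟨(hθ p).1, h⟩]
      · rw [if_neg (by rwa [Set.mem_Ici]), if_neg (fun g => h g.2)]
    rw [h3]
    unfold shr
    ring
  rw [intervalIntegral.integral_congr h2, intervalIntegral.integral_const_mul,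
    intervalIntegral.integral_finset_sum fun p _ => hint p]
  unfold mn
  rw [Finset.sum_congr rfl fun p _ => h1 p, Finset.sum_sub_distrib, Finset.sum_const,
    nsmul_eq_mul]
  ring

theorem W_lim {k : ℕ} (hk : 1 ≤ k) : 2 * Real.cos (k * Real.pi) -
    ∫ u in (0 : ℝ)..Real.pi, fd k u * stm 0 u = ET.ek k := by
  have hp := Real.pi_pos
  have hk0 : (k : ℝ) ≠ 0 := by positivity
  have hst : ∀ u : ℝ, stm 0 u = 2 * ET.MS u := by
    intro u
    unfold stm
    rw [ET.MS_int, ET.MS_zero]
    ring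
  have hM : ∀ u : ℝ, HasDerivAt (fun u => 2 * ET.MS u)
      ((1 - Real.cos (2 * u)) / Real.pi) u := by
    intro u
    unfold ET.MS
    have h1 : HasDerivAt (fun y : ℝ => Real.sin (2 * y)) (Real.cos (2 * u) * (2 * 1)) u :=
      ((hasDerivAt_id u).const_mul (2 : ℝ)).sin
    have h2 := (((hasDerivAt_id u).div_const (2 * Real.pi)).sub
      (h1.div_const (4 * Real.pi))).const_mul 2
    refine h2.congr_deriv ?_
    field_simp
    ring
  have hcont : Continuous fun u => fd k u * stm 0 u := by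
    simp only [hst]
    exact (fd_continuous k).mul (ET.MS_continuous.const_mul 2)
  have hprod : ∀ u : ℝ, HasDerivAt (fun u => 2 * Real.cos (k * u) * (2 * ET.MS u))
      (fd k u * stm 0 u + 2 * Real.cos (k * u) * ((1 - Real.cos (2 * u)) / Real.pi)) u := by
    intro u
    rw [hst]
    exact (fd_hasDerivAt k u).mul (hM u)
  have hsin : ∀ (a : ℝ), a ≠ 0 → ∀ u : ℝ, HasDerivAt (fun y : ℝ => Real.sin (a * y) / a)
      (Real.cos (a * u)) u := by
    intro a ha u
    have h1 : HasDerivAt (fun y : ℝ => Real.sin (a * y)) (Real.cos (a * u) * (a * 1)) u :=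
      ((hasDerivAt_id u).const_mul a).sin
    refine (h1.div_const a).congr_deriv ?_
    field_simp
  rcases eq_or_ne k 2 with h2 | h2
  · subst h2
    set V : ℝ → ℝ := fun u => 2 * Real.cos ((2 : ℕ) * u) * (2 * ET.MS u) -
      1 / Real.pi * (2 * (Real.sin (2 * u) / 2) - Real.sin (4 * u) / 4 - u) with hV
    have hd : ∀ u ∈ Set.uIcc 0 Real.pi, HasDerivAt V (fd 2 u * stm 0 u) u := by
      intro u _
      have h3 := (hprod u).sub (((((hsin 2 two_ne_zero u).const_mul 2).sub
        (hsin 4 four_ne_zero u)).sub (hasDerivAt_id u)).const_mul (1 / Real.pi))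
      refine h3.congr_deriv ?_
      have e1 : Real.cos (4 * u) = 2 * Real.cos (2 * u) ^ 2 - 1 := by
        rw [← Real.cos_two_mul]
        congr 1
        ring
      rw [e1]
      push_cast
      field_simp
      ring
    rw [intervalIntegral.integral_eq_sub_of_hasDerivAt hd (hcont.intervalIntegrable _ _), hV]
    simp only [ET.MS_pi, ET.MS_zero]
    have s1 : Real.sin (2 * Real.pi) = 0 := Real.sin_two_pi
    have s2 : Real.sin (4 * Real.pi) = 0 := by
      have := Real.sin_int_mul_pi 4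
      push_cast at this
      exact this
    rw [s1, s2]
    unfold ET.ek
    rw [if_pos rfl]
    simp only [mul_zero, Real.sin_zero]
    field_simp
    ring
  · have hk2 : (k : ℝ) - 2 ≠ 0 := by
      intro h
      apply h2
      have : (k : ℝ) = 2 := by linarith
      exact_mod_cast this
    have hk3 : (k : ℝ) + 2 ≠ 0 := by positivity
    set V : ℝ → ℝ := fun u => 2 * Real.cos (k * u) * (2 * ET.MS u) -
      1 / Real.pi * (2 * (Real.sin (k * u) / k) - Real.sin ((k + 2) * u) / (k + 2) -
        Real.sin ((k - 2) * u) / (k - 2)) with hV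
    have hd : ∀ u ∈ Set.uIcc 0 Real.pi, HasDerivAt V (fd k u * stm 0 u) u := by
      intro u _
      have h3 := (hprod u).sub (((((hsin k hk0 u).const_mul 2).sub
        (hsin (k + 2) hk3 u)).sub (hsin (k - 2) hk2 u)).const_mul (1 / Real.pi))
      refine h3.congr_deriv ?_
      rw [add_mul, sub_mul, Real.cos_add, Real.cos_sub]
      ring
    rw [intervalIntegral.integral_eq_sub_of_hasDerivAt hd (hcont.intervalIntegrable _ _), hV]
    simp only [ET.MS_pi, ET.MS_zero]
    have s1 : Real.sin (k * Real.pi) = 0 := Real.sin_nat_mul_pi k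
    have s2 : Real.sin ((k + 2) * Real.pi) = 0 := by
      have := Real.sin_nat_mul_pi (k + 2)
      push_cast at this
      exact this
    have s3 : Real.sin ((k - 2) * Real.pi) = 0 := by
      have := Real.sin_int_mul_pi (k - 2)
      push_cast at this
      exact this
    rw [s1, s2, s3]
    unfold ET.ek
    rw [if_neg h2]
    simp only [mul_zero, Real.sin_zero, zero_div, sub_zero]
    ring

theorem shr_mono (N : ℕ) : Monotone fun u => shr S θ 0 u N := by
  intro u v h
  unfold shr
  refine div_le_div_of_nonneg_right ?_ (Nat.cast_nonneg _)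
  have : (PS S N).filter (fun p => 0 ≤ θ p ∧ θ p ≤ u) ⊆
      (PS S N).filter (fun p => 0 ≤ θ p ∧ θ p ≤ v) :=
    Finset.monotone_filter_right _ fun i _ hi => ⟨hi.1, hi.2.trans h⟩
  exact_mod_cast Finset.card_le_card this

theorem PS_le (N : ℕ) : (PS S N).card ≤ Nat.primeCounting N := by
  classical
  rw [pc_eq]
  exact Finset.card_filter_le _ _

theorem shr_nonneg (α β : ℝ) (N : ℕ) : 0 ≤ shr S θ α β N := by
  unfold shr
  positivity

theorem shr_le (α β : ℝ) (N : ℕ) : shr S θ α β N ≤ 1 := by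
  unfold shr
  refine div_le_one_of_le₀ ?_ (Nat.cast_nonneg _)
  exact_mod_cast (Finset.card_filter_le _ _).trans (PS_le N)

theorem weyl_of_shares (hS : S.Finite) (hθ : ∀ p, 0 ≤ θ p ∧ θ p ≤ Real.pi)
    (h : ∀ u : ℝ, 0 ≤ u → u ≤ Real.pi → Tendsto (shr S θ 0 u) atTop (𝓝 (stm 0 u))) {k : ℕ}
    (hk : 1 ≤ k) : Tendsto (mn S θ (fun t => 2 * Real.cos (k * t))) atTop (𝓝 (ET.ek k)) := by
  have hp := Real.pi_pos
  have h1 : Tendsto (fun N : ℕ => ∫ u in (0 : ℝ)..Real.pi, fd k u * shr S θ 0 u N) atTop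
      (𝓝 (∫ u in (0 : ℝ)..Real.pi, fd k u * stm 0 u)) := by
    refine intervalIntegral.tendsto_integral_filter_of_dominated_convergence
      (fun _ => 2 * (k : ℝ)) (Eventually.of_forall fun N => ?_)
      (Eventually.of_forall fun N => Eventually.of_forall fun u _ => ?_)
      intervalIntegrable_const (Eventually.of_forall fun u hu => ?_)
    · exact ((fd_continuous k).measurable.mul (shr_mono N).measurable).aestronglyMeasurable
    · rw [Real.norm_eq_abs, abs_mul]
      have a1 : |fd k u| ≤ 2 * k := by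
        unfold fd
        rw [abs_neg, abs_mul, abs_mul, abs_two, Nat.abs_cast]
        have := Real.abs_sin_le_one (k * u)
        have h0 : (0 : ℝ) ≤ k := Nat.cast_nonneg k
        nlinarith
      have a2 : |shr S θ 0 u N| ≤ 1 := by
        rw [abs_of_nonneg (shr_nonneg _ _ _)]
        exact shr_le _ _ _
      calc |fd k u| * |shr S θ 0 u N| ≤ (2 * k) * 1 :=
            mul_le_mul a1 a2 (abs_nonneg _) (by positivity)
        _ = 2 * k := mul_one _
    · rw [Set.uIoc_of_le hp.le] at hu
      exact (h u hu.1.le hu.2).const_mul _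
  have h2 := ((card_PS hS).const_mul (2 * Real.cos (k * Real.pi))).sub h1
  rw [mul_one, W_lim hk] at h2
  exact h2.congr fun N => (sum_eq hθ k N).symm

/-- the limits of the means of the traces -/
theorem means_of_weyl (hS : S.Finite)
    (h : ∀ k : ℕ, 1 ≤ k → Tendsto (mn S θ (fun t => 2 * Real.cos (k * t))) atTop
      (𝓝 (ET.ek k))) (k : ℕ) :
    Tendsto (mn S θ (UK k)) atTop (𝓝 (if k = 0 then 1 else 0)) := by
  have hone := mn_one (θ := θ) hS
  have key : ∀ k : ℕ, Tendsto (mn S θ (UK k)) atTop (𝓝 (if k = 0 then 1 else 0)) ∧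
      Tendsto (mn S θ (UK (k + 1))) atTop (𝓝 0) := by
    intro k
    induction k with
    | zero =>
      constructor
      · rw [if_pos rfl]
        refine hone.congr fun N => ?_
        unfold mn
        simp only [UK_zero]
      · have h1 := h 1 le_rfl
        have e1 : ET.ek 1 = 0 := by
          unfold ET.ek
          norm_num
        rw [e1] at h1
        refine h1.congr fun N => ?_
        unfold mn
        simp only [zero_add, UK_one]
    | succ k ih =>
      refine ⟨by simpa using ih.2, ?_⟩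
      have h1 := ih.1.add (h (k + 2) (by omega))
      have e1 : (if k = 0 then (1 : ℝ) else 0) + ET.ek (k + 2) = 0 := by
        unfold ET.ek
        rcases Nat.eq_zero_or_pos k with h | h
        · subst h
          norm_num
        · rw [if_neg (by omega), if_neg (by omega)]
          simp
      rw [e1] at h1
      refine h1.congr fun N => ?_
      unfold mn
      rw [← add_div, ← Finset.sum_add_distrib]
      congr 1
      refine Finset.sum_congr rfl fun p _ => ?_
      rw [show k + 1 + 1 = k + 2 by rfl, UK_succ2]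
  exact (key k).1

/-- **The equivalence.** -/
theorem st_iff (hS : S.Finite) (hθ : ∀ p, 0 ≤ θ p ∧ θ p ≤ Real.pi) {l : ℕ → ℝ → ℂ}
    (hl : ∀ k, BL S θ k (l k)) :
    (∀ α β : ℝ, 0 ≤ α → α ≤ β → β ≤ Real.pi →
      Tendsto (shr S θ α β) atTop (𝓝 (stm α β))) ↔
    ∀ k : ℕ, 1 ≤ k → Edge (l k) 0 := by
  constructor
  · intro h k hk
    have h1 := means_of_weyl hS (fun j hj => weyl_of_shares hS hθ
      (fun u hu0 hu1 => h 0 u le_rfl hu0 hu1) hj) k
    rw [if_neg (by omega)] at h1
    rw [← tauber_aS (hl k)]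
    have h2 := (Complex.continuous_ofReal.tendsto _).comp h1
    rw [Complex.ofReal_zero] at h2
    exact h2
  · intro h α β h0 h1 h2
    obtain ⟨C, hC, hD⟩ := disc
    rw [Metric.tendsto_nhds]
    intro ε hε
    have hlim : Tendsto (fun x : ℝ => C * Real.log x / x) atTop (𝓝 0) := by
      have h3 := Real.isLittleO_log_id_atTop.tendsto_div_nhds_zero.const_mul C
      rw [mul_zero] at h3
      refine h3.congr fun x => ?_
      simp only [id]
      ring
    obtain ⟨lam, hlam⟩ := ((hlim.eventually (gt_mem_nhds (show (0 : ℝ) < ε / 2 by positivity))).and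
      (eventually_ge_atTop (2 : ℝ))).exists
    have h4 := hD S hS θ hθ l hl lam hlam.2 (fun k hk _ => Edge.edgeT (h k hk) lam) (ε / 2)
      (by positivity)
    filter_upwards [h4] with N hN
    rw [Real.dist_eq]
    exact lt_of_le_of_lt (hN α β h0 h1 h2) (by linarith [hlam.1])

/-! ### Signs -/

theorem UK_one' (t : ℝ) : UK 1 t = 2 * Real.cos t := by
  rw [UK_one]
  norm_num

theorem UK_two (t : ℝ) : UK 2 t = 4 * Real.cos t ^ 2 - 1 := by
  have := UK_succ2 0 t
  rw [zero_add] at this
  rw [this, UK_zero]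
  have h2 : Real.cos (((2 : ℕ) : ℝ) * t) = 2 * Real.cos t ^ 2 - 1 := by
    rw [← Real.cos_two_mul]
    norm_num
  rw [h2]
  ring

theorem mn_lin (a b c : ℝ) (N : ℕ) : mn S θ (fun t => a * UK 1 t + b * UK 2 t + c * 1) N =
    a * mn S θ (UK 1) N + b * mn S θ (UK 2) N + c * mn S θ (fun _ => 1) N := by
  unfold mn
  rw [Finset.sum_add_distrib, Finset.sum_add_distrib, ← Finset.mul_sum, ← Finset.mul_sum,
    ← Finset.mul_sum]
  ring

/-- the share of the primes with angle smaller than `π/2`, and larger than `π/2` -/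
noncomputable def shp (S : Set ℕ) (θ : ℕ → ℝ) (N : ℕ) : ℝ :=
  (((PS S N).filter (fun p => 0 < Real.cos (θ p))).card : ℝ) / (Nat.primeCounting N : ℝ)

noncomputable def shn (S : Set ℕ) (θ : ℕ → ℝ) (N : ℕ) : ℝ :=
  (((PS S N).filter (fun p => Real.cos (θ p) < 0)).card : ℝ) / (Nat.primeCounting N : ℝ)

theorem le_shp (N : ℕ) : mn S θ (fun t => 1 / 4 * UK 1 t + 1 / 8 * UK 2 t + 1 / 8 * 1) N ≤
    shp S θ N := by
  unfold mn shp
  refine div_le_div_of_nonneg_right ?_ (Nat.cast_nonneg _)
  rw [Finset.card_filter, Nat.cast_sum]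
  refine Finset.sum_le_sum fun p _ => ?_
  beta_reduce
  rw [UK_one', UK_two]
  have h1 := Real.cos_le_one (θ p)
  have h2 := Real.neg_one_le_cos (θ p)
  split_ifs with h
  · push_cast
    nlinarith
  · push_cast
    push Not at h
    nlinarith

theorem le_shn (N : ℕ) : mn S θ (fun t => -1 / 4 * UK 1 t + 1 / 8 * UK 2 t + 1 / 8 * 1) N ≤
    shn S θ N := by
  unfold mn shn
  refine div_le_div_of_nonneg_right ?_ (Nat.cast_nonneg _)
  rw [Finset.card_filter, Nat.cast_sum]
  refine Finset.sum_le_sum fun p _ => ?_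
  beta_reduce
  rw [UK_one', UK_two]
  have h1 := Real.cos_le_one (θ p)
  have h2 := Real.neg_one_le_cos (θ p)
  split_ifs with h
  · push_cast
    nlinarith
  · push_cast
    push Not at h
    nlinarith

/-- **Signs from two functions.** -/
theorem signs : ∃ C : ℝ, 0 < C ∧ ∀ (S : Set ℕ), S.Finite → ∀ (θ : ℕ → ℝ) (l1 l2 : ℝ → ℂ),
    BL S θ 1 l1 → BL S θ 2 l2 → ∀ lam : ℝ, 0 < lam → EdgeT lam l1 0 → EdgeT lam l2 0 →
    ∀ ε : ℝ, 0 < ε → ∀ᶠ N : ℕ in atTop,
      1 / 8 - C / lam - ε ≤ shp S θ N ∧ 1 / 8 - C / lam - ε ≤ shn S θ N := by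
  obtain ⟨C, hC, hW⟩ := window
  refine ⟨C, hC, fun S hS θ l1 l2 h1 h2 lam hlam e1 e2 ε hε => ?_⟩
  have a1 := (hW S θ).1 1 l1 h1 0 lam hlam (by simpa using e1) ε hε
  have a2 := (hW S θ).1 2 l2 h2 0 lam hlam (by simpa using e2) ε hε
  have a3 := (Metric.tendsto_nhds.1 (mn_one (θ := θ) hS)) ε hε
  filter_upwards [a1, a2, a3] with N b1 b2 b3
  rw [Real.dist_eq] at b3
  have c1 := le_shp (S := S) (θ := θ) N
  have c2 := le_shn (S := S) (θ := θ) N
  rw [mn_lin] at c1 c2
  push_cast at b1 b2
  rw [sub_zero] at b1 b2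
  have d1 := abs_le.1 b1
  have d2 := abs_le.1 b2
  have d3 := abs_le.1 b3.le
  have f1 : C * (1 + 1) / lam = 2 * (C / lam) := by ring
  have f2 : C * (2 + 1) / lam = 3 * (C / lam) := by ring
  rw [f1] at d1
  rw [f2] at d2
  have f3 : 0 < C / lam := by positivity
  constructor <;> linarith [d1.1, d1.2, d2.1, d2.2, d3.1, d3.2]

end Pool.Agent.Q255.SG.KL
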