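import Pool.Agent.Q255.SG.QK

/-! # Systems over number fields as systems over the rationals -/

set_option autoImplicit false

namespace Pool.Agent.Q255.SG

open NumberField IsDedekindDomain Finset Pool.Agent.H921R2.TatePole
  Pool.Agent.W350.EdgeEC Pool.Agent.W350.EdgeNF Pool.Agent.W350.EdgeV MeasureTheory Filter Topology
  Pool.Agent.Q255.SA Polynomial

theorem exists_inv_roots {P : ℂ[X]} (h0 : P.coeff 0 = 1) {D : ℕ} (hD : P.natDegree ≤ D) :
    ∃ β : Fin D → ℂ, (∀ z, P.eval z = ∏ j, (1 - β j * z)) ∧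
      ∀ j, β j = 0 ∨ P.eval (β j)⁻¹ = 0 := by
  have hP : P ≠ 0 := by
    rintro rfl
    simp at h0
  have hs : P.Splits := IsAlgClosed.splits _
  have hc : P.roots.card = P.natDegree := hs.natDegree_eq_card_roots.symm
  obtain ⟨l, hl⟩ : ∃ l : List ℂ, (l : Multiset ℂ) = P.roots := ⟨P.roots.toList, Multiset.coe_toList _⟩
  have hlm : l.length = P.natDegree := by rw [← Multiset.coe_card, hl, hc]
  have hroot : ∀ r ∈ l, P.eval r = 0 := by
    intro r hr
    have h1 : r ∈ P.roots := by
      rw [← hl]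
      exact hr
    exact (mem_roots'.1 h1).2
  have hne : ∀ r ∈ l, r ≠ 0 := by
    rintro r hr rfl
    have := hroot 0 hr
    rw [← coeff_zero_eq_eval_zero, h0] at this
    exact one_ne_zero this
  have heval : ∀ z : ℂ, P.eval z = P.leadingCoeff * (l.map fun r => z - r).prod := by
    intro z
    have h1 := hs.eq_prod_roots
    rw [← hl, Multiset.map_coe, Multiset.prod_coe] at h1
    have h2 := congrArg (eval z) h1
    rw [eval_mul, eval_C, eval_list_prod, List.map_map] at h2
    rw [h2]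
    congr 2
    refine List.map_congr_left fun a _ => ?_
    simp
  have hfac : ∀ z : ℂ, P.eval z = (l.map fun r => 1 - r⁻¹ * z).prod := by
    intro z
    have h1 := heval 0
    rw [← coeff_zero_eq_eval_zero, h0] at h1
    have h2 : (l.map fun r => z - r).prod =
        (l.map fun r => 0 - r).prod * (l.map fun r => 1 - r⁻¹ * z).prod := by
      rw [← List.prod_map_mul]
      congr 1
      refine List.map_congr_left fun r hr => ?_
      have := hne r hr
      field_simp
      ring
    rw [heval, h2, ← mul_assoc, ← h1, one_mul]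
  obtain ⟨L, hLD, hprod, hmem⟩ : ∃ L : List ℂ, L.length = D ∧
      (∀ z : ℂ, P.eval z = (L.map fun b => 1 - b * z).prod) ∧
      ∀ b ∈ L, b = 0 ∨ P.eval b⁻¹ = 0 := by
    refine ⟨l.map (fun r => r⁻¹) ++ List.replicate (D - l.length) 0, ?_, fun z => ?_,
      fun b hb => ?_⟩
    · rw [List.length_append, List.length_map, List.length_replicate]
      omega
    · rw [hfac, List.map_append, List.prod_append, List.map_map, List.map_replicate]
      simp
      rfl
    · rw [List.mem_append] at hb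
      rcases hb with hb | hb
      · right
        obtain ⟨r, hr, rfl⟩ := List.mem_map.1 hb
        rw [inv_inv]
        exact hroot r hr
      · left
        exact List.eq_of_mem_replicate hb
  subst hLD
  refine ⟨fun j => L.get j, fun z => ?_, fun j => hmem _ (List.get_mem _ _)⟩
  rw [hprod, ← List.prod_ofFn]
  congr 1
  exact (List.ofFn_getElem_eq_map L (fun b => 1 - b * z)).symm

variable {K : Type} [Field K] [NumberField K] {N : ℕ} {w : ℝ}

/-- the sum of the residue degrees above `p` is at most `[K:ℚ]` -/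
theorem sum_deg_le (p : Nat.Primes) :
    ∑ v : {v : HeightOneSpectrum (𝓞 K) // below v = p}, deg v.1 ≤ Module.finrank ℚ K := by
  classical
  have hdvd : (∏ v : {v : HeightOneSpectrum (𝓞 K) // below v = p}, v.1.asIdeal) ∣
      Ideal.span {(((p : ℕ) : 𝓞 K))} := by
    refine Finset.prod_dvd_of_isRelPrime ?_ ?_
    · intro v _ u _ hvu
      rw [Function.onFun]
      have hne : v.1.asIdeal ≠ u.1.asIdeal := fun h => hvu (Subtype.ext (HeightOneSpectrum.ext h))
      have h1 : IsCoprime v.1.asIdeal u.1.asIdeal := by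
        rw [Ideal.isCoprime_iff_sup_eq]
        exact (v.1.isPrime.isMaximal v.1.ne_bot).coprime_of_ne
          (u.1.isPrime.isMaximal u.1.ne_bot) hne
      exact h1.isRelPrime
    · intro v _
      rw [Ideal.dvd_iff_le, Ideal.span_singleton_le_iff_mem]
      have := (nm_eq v.1).2.2
      rwa [v.2] at this
  have h2 : Ideal.absNorm (∏ v : {v : HeightOneSpectrum (𝓞 K) // below v = p}, v.1.asIdeal) ∣
      Ideal.absNorm (Ideal.span {(((p : ℕ) : 𝓞 K))}) := map_dvd Ideal.absNorm hdvd
  rw [Ideal.absNorm_span_natCast, map_prod, RingOfIntegers.rank] at h2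
  have hp := p.prop
  have h3 := Nat.le_of_dvd (pow_pos hp.pos _) h2
  have h4 : (p : ℕ) ^ (∑ v : {v : HeightOneSpectrum (𝓞 K) // below v = p}, deg v.1) =
      ∏ v : {v : HeightOneSpectrum (𝓞 K) // below v = p}, Ideal.absNorm v.1.asIdeal := by
    rw [← Finset.prod_pow_eq_pow_sum]
    refine Finset.prod_congr rfl fun v _ => ?_
    have := (nm_eq v.1).1
    rw [v.2] at this
    exact this.symm
  rw [← h4] at h3
  exact (Nat.pow_le_pow_iff_right hp.one_lt).mp h3

/-- the product of the polynomials above `p` -/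
noncomputable def fpoly (α : HeightOneSpectrum (𝓞 K) → Fin N → ℂ) (p : Nat.Primes) : ℂ[X] :=
  ∏ v : {v : HeightOneSpectrum (𝓞 K) // below v = p}, ∏ j : Fin N,
    (1 - C (α v.1 j) * X ^ deg v.1)

theorem fpoly_eval (α : HeightOneSpectrum (𝓞 K) → Fin N → ℂ) (p : Nat.Primes) (z : ℂ) :
    (fpoly α p).eval z = ∏ v : {v : HeightOneSpectrum (𝓞 K) // below v = p}, ∏ j : Fin N,
      (1 - α v.1 j * z ^ deg v.1) := by
  unfold fpoly
  rw [eval_prod]
  refine Finset.prod_congr rfl fun v _ => ?_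
  rw [eval_prod]
  refine Finset.prod_congr rfl fun j _ => ?_
  simp

theorem fpoly_coeff (α : HeightOneSpectrum (𝓞 K) → Fin N → ℂ) (p : Nat.Primes) :
    (fpoly α p).coeff 0 = 1 := by
  rw [coeff_zero_eq_eval_zero, fpoly_eval]
  refine Finset.prod_eq_one fun v _ => Finset.prod_eq_one fun j _ => ?_
  rw [zero_pow (nm_eq v.1).2.1.ne', mul_zero, sub_zero]

theorem fpoly_degree (α : HeightOneSpectrum (𝓞 K) → Fin N → ℂ) (p : Nat.Primes) :
    (fpoly α p).natDegree ≤ N * Module.finrank ℚ K := by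
  have h1 : (fpoly α p).natDegree ≤
      ∑ v : {v : HeightOneSpectrum (𝓞 K) // below v = p}, N * deg v.1 := by
    unfold fpoly
    refine (natDegree_prod_le _ _).trans (Finset.sum_le_sum fun v _ => ?_)
    refine (natDegree_prod_le _ _).trans ?_
    refine (Finset.sum_le_sum fun j _ => ?_).trans (le_of_eq ?_) (b := ∑ _j : Fin N, deg v.1)
    · refine (natDegree_sub_le _ _).trans ?_
      rw [natDegree_one]
      exact max_le (Nat.zero_le _) (natDegree_C_mul_X_pow_le _ _)
    · simp
  refine h1.trans ?_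
  rw [← Finset.mul_sum]
  exact Nat.mul_le_mul_left _ (sum_deg_le p)

theorem kq {α : HeightOneSpectrum (𝓞 K) → Fin N → ℂ} (hα : BdK w α) :
    ∃ β : ℕ → Fin (N * Module.finrank ℚ K) → ℂ, Bd w β ∧ ∀ (p : Nat.Primes) (z : ℂ),
      ∏ v : {v : HeightOneSpectrum (𝓞 K) // below v = p}, ∏ j : Fin N,
        (1 - α v.1 j * z ^ deg v.1) = ∏ j, (1 - β p j * z) := by
  classical
  choose β h1 h2 using fun p : Nat.Primes => exists_inv_roots (fpoly_coeff α p) (fpoly_degree α p)
  refine ⟨fun p j => if hp : p.Prime then β (⟨p, hp⟩ : Nat.Primes) j else 0, fun p hp j => ?_,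
    fun p z => ?_⟩
  · simp only [dif_pos hp]
    set q : Nat.Primes := ⟨p, hp⟩ with hq
    rcases h2 q j with h | h
    · rw [h, norm_zero]
      positivity
    · by_cases hb : β q j = 0
      · rw [hb, norm_zero]
        positivity
      rw [fpoly_eval] at h
      obtain ⟨v, -, hv⟩ := Finset.prod_eq_zero_iff.1 h
      obtain ⟨i, -, hi⟩ := Finset.prod_eq_zero_iff.1 hv
      have hp0 : (0 : ℝ) < p := by exact_mod_cast hp.pos
      have e1 : α v.1 i = β q j ^ deg v.1 := by
        have e2 := sub_eq_zero.1 hi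
        rw [inv_pow] at e2
        field_simp at e2
        exact e2.symm
      have e3 := hα v.1 i
      have e4 : (nm v.1 : ℝ) = (p : ℝ) ^ deg v.1 := by
        have := (nm_eq v.1).1
        rw [v.2] at this
        rw [this]
        push_cast
        rfl
      rw [e1, norm_pow, e4, ← Real.rpow_natCast (p : ℝ), ← Real.rpow_mul hp0.le,
        mul_comm ((deg v.1 : ℕ) : ℝ), Real.rpow_mul hp0.le, Real.rpow_natCast] at e3
      exact le_of_pow_le_pow_left₀ (nm_eq v.1).2.1.ne' (by positivity) e3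
  · have h3 : ∀ j, (if hp : (p : ℕ).Prime then β (⟨p, hp⟩ : Nat.Primes) j else 0) = β p j :=
      fun j => by
        rw [dif_pos p.2]
        rfl
    simp only [h3]
    rw [← h1, fpoly_eval]

theorem nm_cpow (v : HeightOneSpectrum (𝓞 K)) (s : ℂ) :
    (nm v : ℂ) ^ (-s) = (((below v : ℕ) : ℂ) ^ (-s)) ^ deg v := by
  have key : ∀ (q k : ℕ) (z : ℂ), ((q : ℂ) ^ k) ^ z = ((q : ℂ) ^ z) ^ k := by
    intro q k z
    induction k with
    | zero => simp
    | succ k ih =>
      rw [pow_succ, pow_succ, ← ih]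
      have := Complex.natCast_mul_natCast_cpow (q ^ k) q z
      push_cast at this
      exact this
  rw [(nm_eq v).1, Nat.cast_pow, key]

/-- the traces of the systems -/
theorem trace_kq {α : HeightOneSpectrum (𝓞 K) → Fin N → ℂ} {p : Nat.Primes} {D : ℕ}
    {β : Fin D → ℂ} (h : ∀ z : ℂ, ∏ v : {v : HeightOneSpectrum (𝓞 K) // below v = p},
      ∏ j : Fin N, (1 - α v.1 j * z ^ deg v.1) = ∏ j, (1 - β j * z)) :
    ∑ j, β j = ∑ v : {v : HeightOneSpectrum (𝓞 K) // below v = p},
      if deg v.1 = 1 then ∑ j, α v.1 j else 0 := by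
  classical
  have key : ∀ (ι : Type) [Fintype ι] (f : ι → ℂ → ℂ) (f' : ι → ℂ),
      (∀ i, HasDerivAt (f i) (f' i) 0) → (∀ i, f i 0 = 1) →
      HasDerivAt (fun z => ∏ i, f i z) (∑ i, f' i) 0 := by
    intro ι _ f f' h1 h2
    have h3 := HasDerivAt.fun_finset_prod (u := (Finset.univ : Finset ι)) (f := f) (f' := f')
      (x := (0 : ℂ)) fun i _ => h1 i
    refine h3.congr_deriv (Finset.sum_congr rfl fun i _ => ?_)
    rw [Finset.prod_eq_one fun j _ => h2 j, one_smul]
  have h1 : HasDerivAt (fun z : ℂ => ∏ j, (1 - β j * z)) (∑ j, -β j) 0 := by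
    refine key _ _ _ (fun j => ?_) fun j => by simp
    have := ((hasDerivAt_id (0 : ℂ)).const_mul (β j)).const_sub 1
    simpa using this
  have h2 : HasDerivAt (fun z : ℂ => ∏ v : {v : HeightOneSpectrum (𝓞 K) // below v = p},
      ∏ j : Fin N, (1 - α v.1 j * z ^ deg v.1))
      (∑ v : {v : HeightOneSpectrum (𝓞 K) // below v = p},
        ∑ j : Fin N, -(α v.1 j * (if deg v.1 = 1 then 1 else 0))) 0 := by
    refine key _ _ _ (fun v => key _ _ _ (fun j => ?_) fun j => ?_) fun v => ?_
    · have h3 := ((hasDerivAt_pow (deg v.1) (0 : ℂ)).const_mul (α v.1 j)).const_sub 1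
      refine h3.congr_deriv ?_
      have h4 := (nm_eq v.1).2.1
      by_cases hd : deg v.1 = 1
      · simp [hd]
      · rw [if_neg hd, zero_pow (by omega)]
        simp
    · simp [(nm_eq v.1).2.1.ne']
    · simp [(nm_eq v.1).2.1.ne']
  have h3 := h2.congr_deriv rfl
  simp only [h] at h3
  have h4 := h3.unique h1
  simp only [Finset.sum_neg_distrib, neg_inj] at h4
  rw [← h4]
  refine Finset.sum_congr rfl fun v _ => ?_
  split_ifs with hd <;> simp

theorem tprod_kq {α : HeightOneSpectrum (𝓞 K) → Fin N → ℂ} (hα : BdK w α)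
    {D : ℕ} {β : ℕ → Fin D → ℂ} (h : ∀ (p : Nat.Primes) (z : ℂ),
      ∏ v : {v : HeightOneSpectrum (𝓞 K) // below v = p}, ∏ j : Fin N,
        (1 - α v.1 j * z ^ deg v.1) = ∏ j, (1 - β p j * z)) {s : ℂ} (hs : w / 2 + 1 < s.re) :
    ∏' v : HeightOneSpectrum (𝓞 K), (∏ j, (1 - α v j * (nm v : ℂ) ^ (-s)))⁻¹ =
      ∏' p : Nat.Primes, (∏ j, (1 - β p j * ((p : ℕ) : ℂ) ^ (-s)))⁻¹ := by
  have hz : 0 < (s - ((w / 2 + 1 : ℝ) : ℂ)).re := by
    rw [Complex.sub_re, Complex.ofReal_re]
    linarith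
  have h1 := L_eq hα hz
  have e1 : ∀ v : HeightOneSpectrum (𝓞 K),
      -(((w / 2 + 1 : ℝ) : ℂ) + (s - ((w / 2 + 1 : ℝ) : ℂ))) = -s := fun v => by ring
  simp only [add_sub_cancel] at h1
  have h2 := (Equiv.sigmaFiberEquiv (below (K := K))).hasProd_iff.2 h1
  have h3 := h2.sigma (g := fun p : Nat.Primes => (∏ j, (1 - β p j * ((p : ℕ) : ℂ) ^ (-s)))⁻¹)
    fun p => by
      have h4 := hasProd_fintype (fun v : {v : HeightOneSpectrum (𝓞 K) // below v = p} =>
        (∏ j, (1 - α v.1 j * (nm v.1 : ℂ) ^ (-s)))⁻¹)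
      have h5 : ∏ v : {v : HeightOneSpectrum (𝓞 K) // below v = p},
          (∏ j, (1 - α v.1 j * (nm v.1 : ℂ) ^ (-s)))⁻¹ =
          (∏ j, (1 - β p j * ((p : ℕ) : ℂ) ^ (-s)))⁻¹ := by
        rw [Finset.prod_inv_distrib, ← h p]
        congr 1
        refine Finset.prod_congr rfl fun v _ => Finset.prod_congr rfl fun j _ => ?_
        rw [nm_cpow, v.2]
      rw [h5] at h4
      exact h4
  rw [h1.tprod_eq, h3.tprod_eq]

end Pool.Agent.Q255.SG
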