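import Pool.Agent.Q255.SG.Bessel2
import Pool.Agent.Q255.SG.KQ

/-! # Boundary functions of systems over number fields -/

set_option autoImplicit false

namespace Pool.Agent.Q255.SG

open NumberField IsDedekindDomain Finset Pool.Agent.H921R2.TatePole
  Pool.Agent.W350.EdgeEC Pool.Agent.W350.EdgeNF Pool.Agent.W350.EdgeV MeasureTheory Filter Topology
  Pool.Agent.Q255.SA

/-- `l` is the function of the non-tangential boundary values of `L` -/
def AngBd (w : ℝ) (L : ℂ → ℂ) (l : ℝ → ℂ) : Prop :=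
  ∃ T : Set ℝ, dimH T = 0 ∧ ∀ t : ℝ, t ∉ T → l t ≠ 0 ∧
    ∀ K : ℝ, Tendsto L (𝓝[{s : ℂ | w / 2 + 1 < s.re ∧
      ‖s - eq0 w t‖ ≤ K * (s.re - (w / 2 + 1))}] (eq0 w t)) (𝓝 (l t))

theorem null_of_dimH0 {T : Set ℝ} (hT : dimH T = 0) : volume T = 0 := by
  have h1 : (Measure.hausdorffMeasure (1 : ℝ) : Measure ℝ) T = 0 := by
    have := hausdorffMeasure_of_dimH_lt (X := ℝ) (s := T) (d := 1) (by rw [hT]; norm_num)
    simpa using this
  rw [← MeasureTheory.hausdorffMeasure_real]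
  exact h1

/-- the horizontal path is in the angle -/
theorem hor_path (w t : ℝ) : Tendsto (fun ε : ℝ => eq0 w t + ε) (𝓝[>] 0)
    (𝓝[{s : ℂ | w / 2 + 1 < s.re ∧ ‖s - eq0 w t‖ ≤ 1 * (s.re - (w / 2 + 1))}] (eq0 w t)) := by
  refine tendsto_nhdsWithin_iff.2 ⟨?_, ?_⟩
  · have : Continuous fun ε : ℝ => eq0 w t + (ε : ℂ) := by fun_prop
    have h3 := (this.tendsto 0).mono_left (nhdsWithin_le_nhds (s := Set.Ioi 0))
    simpa using h3
  · filter_upwards [self_mem_nhdsWithin] with ε hε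
    have hε0 : (0 : ℝ) < ε := hε
    have e1 : (eq0 w t + (ε : ℂ)).re = w / 2 + 1 + ε := by
      rw [Complex.add_re, eq0_re, Complex.ofReal_re]
    refine ⟨by rw [e1]; linarith, ?_⟩
    rw [e1, add_sub_cancel_left, Complex.norm_real, Real.norm_of_nonneg hε0.le]
    linarith

variable {w : ℝ} {D : ℕ} {β : ℕ → Fin D → ℂ}

theorem LF_zero (β : ℕ → Fin D → ℂ) (s : ℂ) : LF β 0 s =
    ∏' p : Nat.Primes, (∏ j, (1 - β p j * (p : ℂ) ^ (-s)))⁻¹ := by
  unfold LF
  simp only [tw_zero]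

theorem angBd_exists (hβ : Bd w β) {L : ℂ → ℂ}
    (hL : ∀ s : ℂ, w / 2 + 1 < s.re → L s = LF β 0 s) : ∃ l : ℝ → ℂ, AngBd w L l := by
  obtain ⟨T, hT, h⟩ := boundary_q hβ
  have h' : ∀ t : ℝ, ∃ l : ℂ, t ∉ T → l ≠ 0 ∧
      ∀ K : ℝ, Tendsto L (𝓝[{s : ℂ | w / 2 + 1 < s.re ∧
        ‖s - eq0 w t‖ ≤ K * (s.re - (w / 2 + 1))}] (eq0 w t)) (𝓝 l) := by
    intro t
    by_cases ht : t ∈ T
    · exact ⟨0, fun h => absurd ht h⟩
    · obtain ⟨l, h1, h2, h3⟩ := h t ht
      refine ⟨l, fun _ => ⟨h1, fun K => (h3 K).congr' ?_⟩⟩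
      filter_upwards [self_mem_nhdsWithin] with s hs
      rw [hL s hs.1, LF_zero]
  choose l hl using h'
  exact ⟨l, T, hT, hl⟩

theorem Hl_of_angBd (hβ : Bd w β) {L : ℂ → ℂ}
    (hL : ∀ s : ℂ, w / 2 + 1 < s.re → L s = LF β 0 s) {l : ℝ → ℂ} (hl : AngBd w L l) :
    Hl w β 0 l := by
  obtain ⟨T, hT, h⟩ := boundary_q hβ
  obtain ⟨T', hT', h'⟩ := hl
  refine ⟨T ∪ T', measure_union_null (null_of_dimH0 hT) (null_of_dimH0 hT'), fun t ht => ?_⟩
  rw [Set.mem_union, not_or] at ht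
  obtain ⟨l0, h1, h2, h3⟩ := h t ht.1
  have h4 := ((h' t ht.2).2 1).comp (hor_path w t)
  have h5 := (h3 1).comp (hor_path w t)
  have h6 : l0 = l t := by
    refine tendsto_nhds_unique h5 (h4.congr' ?_)
    filter_upwards [self_mem_nhdsWithin] with ε hε
    have hε0 : (0 : ℝ) < ε := hε
    simp only [Function.comp_apply]
    rw [hL _ (by rw [Complex.add_re, eq0_re, Complex.ofReal_re]; linarith), LF_zero]
  refine ⟨(h' t ht.2).1, ?_⟩
  rw [← h6]
  refine h2.congr fun x => ?_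
  rw [q_partial hβ, ← RP_li hβ, zero_add]

variable {K : Type} [Field K] [NumberField K]

/-- the L-function of a system over `K` -/
noncomputable def LK {N : ℕ} (α : HeightOneSpectrum (𝓞 K) → Fin N → ℂ) (s : ℂ) : ℂ :=
  ∏' v : HeightOneSpectrum (𝓞 K), (∏ j, (1 - α v j * (nm v : ℂ) ^ (-s)))⁻¹

/-- `β` is the system over the rationals attached to `α` -/
def Assoc {N D : ℕ} (α : HeightOneSpectrum (𝓞 K) → Fin N → ℂ) (β : ℕ → Fin D → ℂ) : Prop :=
  ∀ (p : Nat.Primes) (z : ℂ),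
    ∏ v : {v : HeightOneSpectrum (𝓞 K) // below v = p}, ∏ j : Fin N,
      (1 - α v.1 j * z ^ deg v.1) = ∏ j, (1 - β p j * z)

theorem LK_eq {N D : ℕ} {α : HeightOneSpectrum (𝓞 K) → Fin N → ℂ} (hα : BdK w α)
    {β : ℕ → Fin D → ℂ} (h : Assoc α β) (s : ℂ) (hs : w / 2 + 1 < s.re) :
    LK α s = LF β 0 s := by
  rw [LF_zero]
  exact tprod_kq hα h hs

variable {ι : Type} [Fintype ι] {n : ι → ℕ} {ws : ι → ℝ}
  {αs : (i : ι) → HeightOneSpectrum (𝓞 K) → Fin (n i) → ℂ}

/-- the square sum over the places of degree one -/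
noncomputable def sqK (ws : ι → ℝ) (αs : (i : ι) → HeightOneSpectrum (𝓞 K) → Fin (n i) → ℂ)
    (x : ι → ℝ) (h : ℝ) : ℝ :=
  ∑' v : HeightOneSpectrum (𝓞 K), if deg v = 1 then
    ‖∑ i, ((x i * (nm v : ℝ) ^ (-(ws i / 2)) : ℝ) : ℂ) * ∑ j, αs i v j‖ ^ 2 *
      (nm v : ℝ) ^ (-(1 + h)) else 0

theorem sq_le (hα : ∀ i, BdK (ws i) (αs i)) {D : ι → ℕ} {βs : (i : ι) → ℕ → Fin (D i) → ℂ}
    (hA : ∀ i, Assoc (αs i) (βs i)) (x : ι → ℝ) {h : ℝ} (hh : 0 < h) :
    ∑' p, ‖cb ws βs x p‖ ^ 2 * (p : ℝ) ^ (-(1 + h)) ≤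
      Module.finrank ℚ K * sqK ws αs x h := by
  classical
  set d : ℕ := Module.finrank ℚ K with hd
  -- the terms
  set c : HeightOneSpectrum (𝓞 K) → ℂ := fun v => if deg v = 1 then
    ∑ i, ((x i * (nm v : ℝ) ^ (-(ws i / 2)) : ℝ) : ℂ) * ∑ j, αs i v j else 0 with hc
  have hcb : ∀ p : Nat.Primes, cb ws βs x p =
      ∑ v : {v : HeightOneSpectrum (𝓞 K) // below v = p}, c v.1 := by
    intro p
    unfold cb
    rw [if_pos p.2]
    have h1 : ∀ i, (x i : ℂ) * ((∑ j, βs i p j) * ((((p : ℕ) : ℝ) ^ (-(ws i / 2)) : ℝ) : ℂ)) =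
        ∑ v : {v : HeightOneSpectrum (𝓞 K) // below v = p}, if deg v.1 = 1 then
          ((x i * (nm v.1 : ℝ) ^ (-(ws i / 2)) : ℝ) : ℂ) * ∑ j, αs i v.1 j else 0 := by
      intro i
      rw [trace_kq (hA i p), Finset.sum_mul, Finset.mul_sum]
      refine Finset.sum_congr rfl fun v _ => ?_
      by_cases hv : deg v.1 = 1
      · rw [if_pos hv, if_pos hv]
        have h2 : nm v.1 = (p : ℕ) := by
          have := (nm_eq v.1).1
          rw [hv, pow_one, v.2] at this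
          exact this
        rw [h2, Complex.ofReal_mul]
        ring
      · rw [if_neg hv, if_neg hv, zero_mul, mul_zero]
    simp only [h1]
    rw [Finset.sum_comm]
    refine Finset.sum_congr rfl fun v _ => ?_
    rw [hc]
    by_cases hv : deg v.1 = 1
    · simp only [if_pos hv]
    · simp only [if_neg hv, Finset.sum_const_zero]
  set g : HeightOneSpectrum (𝓞 K) → ℝ := fun v => if deg v = 1 then
    ‖∑ i, ((x i * (nm v : ℝ) ^ (-(ws i / 2)) : ℝ) : ℂ) * ∑ j, αs i v j‖ ^ 2 *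
      (nm v : ℝ) ^ (-(1 + h)) else 0 with hg
  have hg0 : ∀ v, 0 ≤ g v := by
    intro v
    rw [hg]
    simp only []
    split_ifs
    · positivity
    · exact le_rfl
  have hgs : Summable g := by
    have h1 : ∀ v, g v ≤ (∑ i, |x i| * n i) ^ 2 * (nm v : ℝ) ^ (-(1 + h)) := by
      intro v
      rw [hg]
      simp only []
      split_ifs with hv
      · have h0 : (0 : ℝ) < nm v := by
          have := hN v
          exact_mod_cast this
        gcongr
        refine norm_sum_le_of_le _ fun i _ => ?_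
        rw [norm_mul, Complex.norm_real, Real.norm_eq_abs, abs_mul,
          abs_of_nonneg (Real.rpow_nonneg h0.le _), mul_assoc]
        refine mul_le_mul_of_nonneg_left ?_ (abs_nonneg _)
        calc (nm v : ℝ) ^ (-(ws i / 2)) * ‖∑ j, αs i v j‖ ≤
            (nm v : ℝ) ^ (-(ws i / 2)) * (∑ _j : Fin (n i), (nm v : ℝ) ^ (ws i / 2)) := by
              gcongr
              exact norm_sum_le_of_le _ fun j _ => hα i v j
          _ = n i := by
              rw [Finset.sum_const, Finset.card_univ, Fintype.card_fin, nsmul_eq_mul, mul_left_comm,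
                ← Real.rpow_add h0]
              simp
      · positivity
    exact Summable.of_nonneg_of_le hg0 h1 ((hpow (1 + h) (by linarith)).mul_left _)
  have h2 : sqK ws αs x h = ∑' p : Nat.Primes,
      ∑ v : {v : HeightOneSpectrum (𝓞 K) // below v = p}, g v.1 := tsum_fiber hgs
  rw [h2, ← tsum_mul_left]
  -- the left side as a sum over the primes
  have h3 : ∑' p : ℕ, ‖cb ws βs x p‖ ^ 2 * (p : ℝ) ^ (-(1 + h)) =
      ∑' p : Nat.Primes, ‖cb ws βs x p‖ ^ 2 * ((p : ℕ) : ℝ) ^ (-(1 + h)) := by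
    have h4 : Function.support (fun p : ℕ => ‖cb ws βs x p‖ ^ 2 * (p : ℝ) ^ (-(1 + h))) ⊆
        {p : ℕ | p.Prime} := by
      intro p hp
      by_contra hn
      refine hp ?_
      simp only [cb_zero x hn]
      simp
    exact (tsum_subtype_eq_of_support_subset h4).symm
  rw [h3]
  have h5 : ∀ p : Nat.Primes, ‖cb ws βs x p‖ ^ 2 * ((p : ℕ) : ℝ) ^ (-(1 + h)) ≤
      d * ∑ v : {v : HeightOneSpectrum (𝓞 K) // below v = p}, g v.1 := by
    intro p
    rw [hcb]
    have h6 : ‖∑ v : {v : HeightOneSpectrum (𝓞 K) // below v = p}, c v.1‖ ^ 2 ≤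
        d * ∑ v : {v : HeightOneSpectrum (𝓞 K) // below v = p}, ‖c v.1‖ ^ 2 := by
      have h7 : ‖∑ v : {v : HeightOneSpectrum (𝓞 K) // below v = p}, c v.1‖ ^ 2 ≤
          (∑ v : {v : HeightOneSpectrum (𝓞 K) // below v = p}, ‖c v.1‖) ^ 2 := by
        gcongr
        exact norm_sum_le _ _
      refine h7.trans ?_
      have h8 := sq_sum_le_card_mul_sum_sq
        (s := (Finset.univ : Finset {v : HeightOneSpectrum (𝓞 K) // below v = p}))
        (f := fun v => ‖c v.1‖)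
      refine h8.trans ?_
      refine mul_le_mul_of_nonneg_right ?_ (Finset.sum_nonneg fun v _ => sq_nonneg _)
      rw [Finset.card_univ]
      exact_mod_cast fiber_card_le p
    have h9 : (0 : ℝ) ≤ ((p : ℕ) : ℝ) ^ (-(1 + h)) := by positivity
    refine (mul_le_mul_of_nonneg_right h6 h9).trans (le_of_eq ?_)
    rw [mul_assoc, Finset.sum_mul]
    congr 1
    refine Finset.sum_congr rfl fun v _ => ?_
    rw [hc, hg]
    by_cases hv : deg v.1 = 1
    · have h10 : nm v.1 = (p : ℕ) := by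
        have := (nm_eq v.1).1
        rw [hv, pow_one, v.2] at this
        exact this
      simp only [if_pos hv]
      rw [h10]
    · simp only [if_neg hv]
      simp
  refine Summable.tsum_le_tsum h5 ?_ ((summable_fiber hgs).mul_left _)
  exact Summable.of_nonneg_of_le (fun p => by positivity) h5 ((summable_fiber hgs).mul_left _)

end Pool.Agent.Q255.SG
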