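import Pool.Agent.Q255.SG.KQ2

/-! # Orders on the edge over number fields -/

set_option autoImplicit false

namespace Pool.Agent.Q255.SG

open NumberField IsDedekindDomain Finset Pool.Agent.H921R2.TatePole
  Pool.Agent.W350.EdgeEC Pool.Agent.W350.EdgeNF Pool.Agent.W350.EdgeV MeasureTheory Filter Topology
  Pool.Agent.Q255.SA

variable {K : Type} [Field K] [NumberField K] {ι : Type} [Fintype ι] {n : ι → ℕ} {ws : ι → ℝ}
  {αs : (i : ι) → HeightOneSpectrum (𝓞 K) → Fin (n i) → ℂ}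

/-- the functions at the points over the edge -/
noncomputable def LzK (ws : ι → ℝ) (αs : (i : ι) → HeightOneSpectrum (𝓞 K) → Fin (n i) → ℂ)
    (i : ι) (z : ℂ) : ℂ := LK (αs i) (((ws i / 2 + 1 : ℝ) : ℂ) + z)

theorem LzK_eq (hα : ∀ i, BdK (ws i) (αs i)) {D : ι → ℕ} {βs : (i : ι) → ℕ → Fin (D i) → ℂ}
    (hA : ∀ i, Assoc (αs i) (βs i)) (i : ι) {z : ℂ} (hz : 0 < z.re) :
    LzK ws αs i z = Lz ws βs i z := by
  unfold LzK Lz
  refine LK_eq (hα i) (hA i) _ ?_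
  rw [Complex.add_re, Complex.ofReal_re]
  linarith

theorem regN_congr {L L' : ι → ℂ → ℂ} (h : ∀ i (z : ℂ), 0 < z.re → L i z = L' i z) {x : ι → ℝ}
    {t0 κ : ℝ} (hN : RegN L x t0 κ) : RegN L' x t0 κ := by
  obtain ⟨F, h1, h2, δ, hδ, h3⟩ := hN
  refine ⟨F, h1, h2, δ, hδ, fun z hz hzd => ?_⟩
  rw [← h3 z hz hzd]
  exact Finset.prod_congr rfl fun i _ => by rw [h i z hz]

theorem contAt_congr {L L' : ℂ → ℂ} {z0 : ℂ} (h : ∀ z : ℂ, z0.re < z.re → L z = L' z) {F : ℂ → ℂ}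
    (hF : ContAt L z0 F) : ContAt L' z0 F := by
  obtain ⟨h1, δ, hδ, h3⟩ := hF
  exact ⟨h1, δ, hδ, fun z hz hzd => by rw [← h z hz]; exact h3 z hz hzd⟩

/-- the horizontal limits -/
theorem horLz_of (hα : ∀ i, BdK (ws i) (αs i)) {D : ι → ℕ} {βs : (i : ι) → ℕ → Fin (D i) → ℂ}
    (hA : ∀ i, Assoc (αs i) (βs i)) {l : ι → ℝ → ℂ}
    (hl : ∀ i, AngBd (ws i) (LK (αs i)) (l i)) : HorLz (Lz ws βs) l := by
  intro i
  obtain ⟨T, hT, h⟩ := hl i
  refine ⟨T, null_of_dimH0 hT, fun t ht => ⟨(h t ht).1, ?_⟩⟩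
  refine (((h t ht).2 1).comp (hor_path (ws i) t)).congr' ?_
  filter_upwards [self_mem_nhdsWithin] with ε hε
  have hε0 : (0 : ℝ) < ε := hε
  rw [← LzK_eq hα hA i (by simpa using hε0)]
  unfold LzK
  simp only [Function.comp_apply]
  congr 1
  unfold eq0
  push_cast
  ring

/-- the product of the integral powers -/
noncomputable def prodK (ws : ι → ℝ) (αs : (i : ι) → HeightOneSpectrum (𝓞 K) → Fin (n i) → ℂ)
    (x : ι → ℤ) (z : ℂ) : ℂ := ∏ i, LzK ws αs i z ^ x i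

theorem nf_reg (hα : ∀ i, BdK (ws i) (αs i)) {l : ι → ℝ → ℂ}
    (hl : ∀ i, AngBd (ws i) (LK (αs i)) (l i)) {x : ι → ℝ} {t0 κ : ℝ} :
    Reg l x t0 κ ↔ RegN (LzK ws αs) x t0 κ := by
  choose βs hβ hA using fun i => kq (hα i)
  have hA' : ∀ i, Assoc (αs i) (βs i) := hA
  have hL := fun i s hs => LK_eq (hα i) (hA' i) s hs
  rw [reg_iff hβ (fun i => Hl_of_angBd (hβ i) (hL i) (hl i)) (horLz_of hα hA' hl)]
  constructor
  · exact regN_congr fun i z hz => (LzK_eq hα hA' i hz).symm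
  · exact regN_congr fun i z hz => LzK_eq hα hA' i hz

theorem nf_cont_of_reg (hα : ∀ i, BdK (ws i) (αs i)) {l : ι → ℝ → ℂ}
    (hl : ∀ i, AngBd (ws i) (LK (αs i)) (l i)) {x : ι → ℤ} {t0 : ℝ} {m : ℤ}
    (h : Reg l (fun i => (x i : ℝ)) t0 m) :
    ∃ F : ℂ → ℂ, ContAt (prodK ws αs x) ((t0 : ℂ) * Complex.I) F ∧
      meromorphicOrderAt F ((t0 : ℂ) * Complex.I) = m := by
  choose βs hβ hA using fun i => kq (hα i)
  have hA' : ∀ i, Assoc (αs i) (βs i) := hA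
  have hL := fun i s hs => LK_eq (hα i) (hA' i) s hs
  obtain ⟨F, hF, hm⟩ := cont_of_reg hβ (fun i => Hl_of_angBd (hβ i) (hL i) (hl i)) h
  refine ⟨F, contAt_congr (fun z hz => ?_) hF, hm⟩
  unfold prodz prodK
  have hz' : 0 < z.re := by simpa using hz
  exact Finset.prod_congr rfl fun i _ => by rw [LzK_eq hα hA' i hz']

theorem nf_reg_of_cont (hα : ∀ i, BdK (ws i) (αs i)) {l : ι → ℝ → ℂ}
    (hl : ∀ i, AngBd (ws i) (LK (αs i)) (l i)) {x : ι → ℤ} {t0 : ℝ} {F : ℂ → ℂ}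
    (hF : ContAt (prodK ws αs x) ((t0 : ℂ) * Complex.I) F) :
    ∃ m : ℤ, meromorphicOrderAt F ((t0 : ℂ) * Complex.I) = m ∧
      Reg l (fun i => (x i : ℝ)) t0 m := by
  choose βs hβ hA using fun i => kq (hα i)
  have hA' : ∀ i, Assoc (αs i) (βs i) := hA
  refine reg_of_cont hβ (horLz_of hα hA' hl) (contAt_congr (fun z hz => ?_) hF)
  unfold prodz prodK
  have hz' : 0 < z.re := by simpa using hz
  exact Finset.prod_congr rfl fun i _ => by rw [LzK_eq hα hA' i hz']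

theorem nf_bessel (hα : ∀ i, BdK (ws i) (αs i)) {τ : Type} [Fintype τ] {t : τ → ℝ}
    (ht : Function.Injective t) (κ : τ → ℝ) {x : ι → ℝ}
    (h : ∀ j, RegN (LzK ws αs) x (t j) (κ j)) :
    (∃ C : ℝ, ∀ h : ℝ, 0 < h → h ≤ 1 → (∑ j, κ j ^ 2) * Real.log (1 / h) ≤
      Module.finrank ℚ K * sqK ws αs x h + C) ∧
    ∑ j, κ j ^ 2 ≤ (∑ i, |x i| * (n i * Module.finrank ℚ K)) ^ 2 := by
  choose βs hβ hA using fun i => kq (hα i)
  have hA' : ∀ i, Assoc (αs i) (βs i) := hA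
  obtain ⟨⟨C, hC⟩, h2⟩ := bessel_reg hβ ht κ
    fun j => regN_congr (fun i z hz => LzK_eq hα hA' i hz) (h j)
  refine ⟨⟨C, fun h h0 h1 => (hC h h0 h1).trans ?_⟩, ?_⟩
  · have := sq_le hα hA' x h0
    linarith
  · refine h2.trans (le_of_eq ?_)
    push_cast
    rfl

/-- the density form: a bound for the square sum gives a bound for the orders -/
theorem density {τ : Type} [Fintype τ] {κ : τ → ℝ} {S : ℝ → ℝ} {A B C C' : ℝ} (hA : 0 ≤ A)
    (h1 : ∀ h : ℝ, 0 < h → h ≤ 1 → (∑ j, κ j ^ 2) * Real.log (1 / h) ≤ A * S h + C)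
    (h2 : ∀ h : ℝ, 0 < h → h ≤ 1 → S h ≤ B * Real.log (1 / h) + C') :
    ∑ j, κ j ^ 2 ≤ A * B := by
  by_contra hlt
  rw [not_le] at hlt
  have hlim : Tendsto (fun h : ℝ => ((∑ j, κ j ^ 2) - A * B) * Real.log (1 / h)) (𝓝[>] 0)
      atTop := by
    refine Tendsto.const_mul_atTop (by linarith) ?_
    have : Tendsto (fun h : ℝ => 1 / h) (𝓝[>] 0) atTop := by
      simpa using tendsto_inv_nhdsGT_zero (𝕜 := ℝ)
    exact Real.tendsto_log_atTop.comp this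
  have hev1 : ∀ᶠ h' : ℝ in 𝓝[>] 0, h' < 1 := nhdsWithin_le_nhds (eventually_lt_nhds one_pos)
  obtain ⟨h', a1, a2, a3⟩ := ((hlim.eventually_gt_atTop (A * C' + C)).and
    ((eventually_mem_nhdsWithin).and hev1)).exists
  have b1 := h1 h' a2 a3.le
  have b2 := mul_le_mul_of_nonneg_left (h2 h' a2 a3.le) hA
  nlinarith

end Pool.Agent.Q255.SG
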