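import Pool.Agent.Q255.SG.TK2

/-! # Continuation to a segment of the edge -/

set_option autoImplicit false

namespace Pool.Agent.Q255.SG

open NumberField IsDedekindDomain Pool.Agent.H921R2.TatePole MeasureTheory Filter Topology

theorem hor_of_angBd {w : ℝ} {L : ℂ → ℂ} {l : ℝ → ℂ} (hl : AngBd w L l) : ∃ T : Set ℝ,
    volume T = 0 ∧ ∀ t ∉ T, l t ≠ 0 ∧ Tendsto (fun ε : ℝ => L (eq0 w t + ε)) (𝓝[>] 0) (𝓝 (l t)) := by
  obtain ⟨T, hT, h⟩ := hl
  refine ⟨T, null_of_dimH0 hT, fun t ht => ⟨(h t ht).1, ?_⟩⟩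
  exact ((h t ht).2 1).comp (hor_path w t)

theorem eq0_contDiff (w : ℝ) : ContDiff ℝ (⊤ : ℕ∞) (eq0 w) := by
  unfold eq0
  exact contDiff_const.add (Complex.ofRealCLM.contDiff.mul contDiff_const)

theorem sm_of_analytic {F : ℂ → ℂ} {w t0 : ℝ} (hF : AnalyticAt ℂ F (eq0 w t0))
    (h0 : F (eq0 w t0) ≠ 0) :
    ContDiffAt ℝ (⊤ : ℕ∞) (fun t => Real.log ‖F (eq0 w t)‖) t0 := by
  have h1 : ContDiffAt ℝ (⊤ : ℕ∞) F (eq0 w t0) := (hF.contDiffAt).restrict_scalars ℝ
  have h2 : ContDiffAt ℝ (⊤ : ℕ∞) (fun t => F (eq0 w t)) t0 :=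
    h1.comp t0 (eq0_contDiff w).contDiffAt
  exact (h2.norm ℝ h0).log (norm_ne_zero_iff.2 h0)

/-- locally on `|t| < lam`, `log |l|` is `-m log |t|` plus a smooth function -/
def Loc (lam : ℝ) (l : ℝ → ℂ) (m : ℤ) : Prop := ∀ t0 : ℝ, |t0| < lam →
  ∃ ψ : ℝ → ℝ, ContDiffAt ℝ (⊤ : ℕ∞) ψ t0 ∧ ∃ δ : ℝ, 0 < δ ∧ ∀ᵐ t : ℝ, |t - t0| < δ →
    Real.log ‖l t‖ + m * Real.log |t| = ψ t

theorem loc_of_cont {w : ℝ} {L : ℂ → ℂ} {l : ℝ → ℂ} (hl : AngBd w L l) {m : ℤ} {lam : ℝ}
    (h : ∀ t0 : ℝ, |t0| < lam → ∃ F : ℂ → ℂ, AnalyticAt ℂ F (eq0 w t0) ∧ F (eq0 w t0) ≠ 0 ∧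
      ∀ᶠ s in 𝓝 (eq0 w t0), w / 2 + 1 < s.re → L s * (s - eq0 w 0) ^ m = F s) :
    Loc lam l m := by
  intro t0 ht0
  obtain ⟨F, hF, hF0, hE⟩ := h t0 ht0
  obtain ⟨T, hT, hT'⟩ := hor_of_angBd hl
  refine ⟨_, sm_of_analytic hF hF0, ?_⟩
  have hcont : Continuous (eq0 w) := (eq0_contDiff w).continuous
  have h1 : ∀ᶠ t in 𝓝 t0, AnalyticAt ℂ F (eq0 w t) ∧ F (eq0 w t) ≠ 0 ∧
      ∀ᶠ s in 𝓝 (eq0 w t), w / 2 + 1 < s.re → L s * (s - eq0 w 0) ^ m = F s := by
    have e1 := hF.eventually_analyticAt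
    have e2 := hF.continuousAt.eventually_ne hF0
    have e3 := hE.eventually_nhds
    exact hcont.continuousAt.eventually (e1.and (e2.and e3))
  obtain ⟨δ, hδ, hb⟩ := Metric.eventually_nhds_iff.1 h1
  refine ⟨δ, hδ, ?_⟩
  have hne0 : ∀ᵐ t : ℝ, t ≠ 0 := by
    have : volume ({0} : Set ℝ) = 0 := measure_singleton 0
    filter_upwards [ae_not this] with t ht using ht
  filter_upwards [ae_not hT, hne0] with t ht hne htd
  obtain ⟨g1, g2, g3⟩ := hb (show dist t t0 < δ by rwa [Real.dist_eq])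
  obtain ⟨k1, k2⟩ := hT' t ht
  have hpath : Tendsto (fun ε : ℝ => eq0 w t + ε) (𝓝[>] 0) (𝓝 (eq0 w t)) :=
    (hor_path w t).mono_right nhdsWithin_le_nhds
  have l1 : Tendsto (fun ε : ℝ => F (eq0 w t + ε)) (𝓝[>] 0) (𝓝 (F (eq0 w t))) :=
    g1.continuousAt.tendsto.comp hpath
  have hz : eq0 w t - eq0 w 0 = (t : ℂ) * Complex.I := by
    unfold eq0
    push_cast
    ring
  have hzne : eq0 w t - eq0 w 0 ≠ 0 := by
    rw [hz]
    exact mul_ne_zero (by exact_mod_cast hne) Complex.I_ne_zero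
  have l2 : Tendsto (fun ε : ℝ => L (eq0 w t + ε) * (eq0 w t + ε - eq0 w 0) ^ m) (𝓝[>] 0)
      (𝓝 (l t * (eq0 w t - eq0 w 0) ^ m)) :=
    k2.mul (((continuousAt_zpow₀ _ m (Or.inl hzne)).tendsto).comp (hpath.sub_const _))
  have l3 : l t * (eq0 w t - eq0 w 0) ^ m = F (eq0 w t) := by
    refine tendsto_nhds_unique (l2.congr' ?_) l1
    filter_upwards [hpath.eventually g3, self_mem_nhdsWithin] with ε h5 h6
    refine h5 ?_
    have : (0 : ℝ) < ε := h6
    rw [Complex.add_re, eq0_re, Complex.ofReal_re]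
    linarith
  rw [← l3, norm_mul, norm_zpow, hz, norm_mul, Complex.norm_I, mul_one, Complex.norm_real,
    Real.norm_eq_abs, Real.log_mul (norm_ne_zero_iff.2 k1)
      (zpow_ne_zero _ (abs_ne_zero.2 hne)), Real.log_zpow]

/-- gluing -/
theorem glue {g : ℝ → ℝ} {lam : ℝ} (h : ∀ t0 : ℝ, |t0| < lam → ∃ ψ : ℝ → ℝ,
    ContDiffAt ℝ (⊤ : ℕ∞) ψ t0 ∧ ∃ δ : ℝ, 0 < δ ∧ ∀ᵐ t : ℝ, |t - t0| < δ → g t = ψ t) :
    ∃ Ψ : ℝ → ℝ, (∀ t0 : ℝ, |t0| < lam → ContDiffAt ℝ (⊤ : ℕ∞) Ψ t0) ∧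
      ∀ᵐ t : ℝ, |t| < lam → g t = Ψ t := by
  classical
  choose ψ h1 δ h2 h3 using h
  set Ψ : ℝ → ℝ := fun t => if ht : |t| < lam then ψ t ht t else 0 with hΨ
  have hopen : IsOpen {t : ℝ | |t| < lam} := isOpen_lt continuous_abs continuous_const
  have key : ∀ t0 (ht0 : |t0| < lam), ∀ᶠ t in 𝓝 t0, Ψ t = ψ t0 ht0 t := by
    intro t0 ht0
    have e1 : ∀ᶠ t in 𝓝 t0, ContinuousAt (ψ t0 ht0) t := by
      have := ((h1 t0 ht0).of_le (m := 1) (by exact_mod_cast le_top)).eventually (by simp)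
      filter_upwards [this] with t ht using ht.continuousAt
    have e2 : ∀ᶠ t in 𝓝 t0, |t - t0| < δ t0 ht0 := by
      refine Metric.eventually_nhds_iff.2 ⟨δ t0 ht0, h2 t0 ht0, fun t ht => ?_⟩
      rwa [Real.dist_eq] at ht
    filter_upwards [e1, e2, hopen.mem_nhds ht0] with t c1 c2 c3
    have c3' : |t| < lam := c3
    simp only [hΨ]
    rw [dif_pos c3']
    have c4 : ContinuousAt (ψ t c3') t := (h1 t c3').continuousAt
    -- the two functions agree almost everywhere near `t`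
    by_contra hne
    have hev : ∀ᶠ u in 𝓝 t, ψ t c3' u ≠ ψ t0 ht0 u := by
      have := (c4.sub c1).eventually_ne (sub_ne_zero.2 hne)
      filter_upwards [this] with u hu
      exact sub_ne_zero.1 hu
    have hev2 : ∀ᶠ u in 𝓝 t, |u - t| < δ t c3' ∧ |u - t0| < δ t0 ht0 := by
      refine Filter.Eventually.and ?_ ?_
      · refine Metric.eventually_nhds_iff.2 ⟨δ t c3', h2 t c3', fun u hu => ?_⟩
        rwa [Real.dist_eq] at hu
      · have : IsOpen {u : ℝ | |u - t0| < δ t0 ht0} :=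
          isOpen_lt (continuous_id.sub continuous_const).abs continuous_const
        exact this.mem_nhds c2
    obtain ⟨r, hr, hball⟩ := Metric.eventually_nhds_iff.1 (hev.and hev2)
    have hnull : volume (Metric.ball t r) = 0 := by
      have h4 : ∀ᵐ u : ℝ, u ∉ Metric.ball t r := by
        filter_upwards [h3 t c3', h3 t0 ht0] with u d1 d2 hu
        obtain ⟨b1, b2, b3⟩ := hball hu
        exact b1 ((d1 b2).symm.trans (d2 b3))
      rw [ae_iff] at h4
      have h5 : {a : ℝ | ¬a ∉ Metric.ball t r} = Metric.ball t r := by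
        ext a
        simp only [Set.mem_setOf_eq, not_not]
      rwa [h5] at h4
    have hpos := Metric.measure_ball_pos volume t hr
    exact hpos.ne' hnull
  refine ⟨Ψ, fun t0 ht0 => (h1 t0 ht0).congr_of_eventuallyEq (key t0 ht0), ?_⟩
  rw [ae_iff]
  refine measure_null_of_locally_null _ fun t0 ht0 => ?_
  simp only [Classical.not_imp, Set.mem_setOf_eq] at ht0
  have ht0' : |t0| < lam := ht0.1
  obtain ⟨r, hr, hball⟩ := Metric.eventually_nhds_iff.1 (key t0 ht0')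
  refine ⟨{t | ¬(|t| < lam → g t = Ψ t)} ∩ Metric.ball t0 (min r (δ t0 ht0')), ?_, ?_⟩
  · exact inter_mem_nhdsWithin _ (Metric.ball_mem_nhds _ (lt_min hr (h2 t0 ht0')))
  · have h4 := h3 t0 ht0'
    rw [ae_iff] at h4
    refine measure_mono_null ?_ h4
    rintro t ⟨ht1, ht2⟩
    simp only [Classical.not_imp, Set.mem_setOf_eq] at ht1 ⊢
    rw [Metric.mem_ball, lt_min_iff, Real.dist_eq] at ht2
    refine ⟨ht2.2, fun h5 => ht1.2 ?_⟩
    rw [h5]
    exact (hball (by rw [Real.dist_eq]; exact ht2.1)).symm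

/-! ### The decomposition -/

/-- the integral of `log |t|` -/
noncomputable def LG (φ : ℝ → ℂ) (x : ℝ) : ℂ :=
  ∫ t : ℝ, ((Real.log |t| : ℝ) : ℂ) * (φ t * Complex.exp (Complex.I * x * t))

theorem norm_char (x t : ℝ) : ‖Complex.exp (Complex.I * x * t)‖ = 1 := by
  rw [show Complex.I * (x : ℂ) * t = ((x * t : ℝ) : ℂ) * Complex.I by push_cast; ring,
    Complex.norm_exp_ofReal_mul_I]

theorem LG_integrable {φ : ℝ → ℂ} (h : Tst φ) (x : ℝ) :
    Integrable fun t : ℝ => ((Real.log |t| : ℝ) : ℂ) * (φ t * Complex.exp (Complex.I * x * t)) := by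
  obtain ⟨R, hR, hφR⟩ := exists_R h
  obtain ⟨C, hC⟩ := h.2.exists_bound_of_continuous h.continuous
  have h1 : IntegrableOn (fun t : ℝ => Real.log t) (Set.Ioc (-R) R) := by
    have h2 : IntervalIntegrable (fun t : ℝ => Real.log t) volume (-R) R :=
      intervalIntegral.intervalIntegrable_log'
    rwa [intervalIntegrable_iff_integrableOn_Ioc_of_le (by linarith)] at h2
  have h2 : IntegrableOn (fun t : ℝ => ((Real.log |t| : ℝ) : ℂ)) (Set.Ioc (-R) R) := by
    have := h1.ofReal (𝕜 := ℂ)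
    refine this.congr (Eventually.of_forall fun t => ?_)
    simp [Real.log_abs]
  have h3 : IntegrableOn (fun t : ℝ => ((Real.log |t| : ℝ) : ℂ) *
      (φ t * Complex.exp (Complex.I * x * t))) (Set.Ioc (-R) R) := by
    refine Integrable.mul_bdd (c := C) h2 ?_ (Eventually.of_forall fun t => ?_)
    · exact (h.continuous.mul (by fun_prop)).aestronglyMeasurable
    · rw [norm_mul, norm_char, mul_one]
      exact hC t
  rwa [integrableOn_iff_integrable_of_support_subset] at h3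
  intro t ht
  by_contra hc
  refine ht ?_
  simp only []
  rw [hφR t ?_, zero_mul, mul_zero]
  rw [Set.mem_Ioc, not_and_or, not_lt, not_le] at hc
  rcases hc with hc | hc
  · rw [abs_of_nonpos (by linarith)]
    linarith
  · rw [abs_of_nonneg (by linarith)]
    linarith

theorem Tst_smul {φ : ℝ → ℂ} (h : Tst φ) {lam : ℝ} (hs : ∀ t ∈ tsupport φ, |t| < lam) {Ψ : ℝ → ℝ}
    (hΨ : ∀ t0 : ℝ, |t0| < lam → ContDiffAt ℝ (⊤ : ℕ∞) Ψ t0) :
    Tst (fun t => ((Ψ t : ℝ) : ℂ) * φ t) := by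
  refine ⟨contDiff_iff_contDiffAt.2 fun t => ?_, h.2.mul_left⟩
  by_cases ht : t ∈ tsupport φ
  · exact (Complex.ofRealCLM.contDiff.contDiffAt.comp t (hΨ t (hs t ht))).mul h.1.contDiffAt
  · have h1 : ∀ᶠ u in 𝓝 t, u ∉ tsupport φ :=
      (isClosed_tsupport φ).isOpen_compl.mem_nhds ht
    have h2 : (fun t => ((Ψ t : ℝ) : ℂ) * φ t) =ᶠ[𝓝 t] fun _ => 0 := by
      filter_upwards [h1] with u hu
      rw [image_eq_zero_of_notMem_tsupport hu, mul_zero]
    exact contDiffAt_const.congr_of_eventuallyEq h2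

theorem decomp {l : ℝ → ℂ} {m : ℤ} {lam : ℝ} (hL : Loc lam l m) {φ : ℝ → ℂ} (h : Tst φ)
    (hs : ∀ t ∈ tsupport φ, |t| < lam) : ∃ χ : ℝ → ℂ, Tst χ ∧ ∀ x : ℝ,
      II l φ x = FT χ x - m * LG φ x := by
  obtain ⟨Ψ, h1, h2⟩ := glue (g := fun t => Real.log ‖l t‖ + m * Real.log |t|) hL
  refine ⟨_, Tst_smul h hs h1, fun x => ?_⟩
  unfold II FT LG
  have hT := Tst_smul h hs h1
  have i1 : Integrable fun t : ℝ => ((Ψ t : ℝ) : ℂ) * φ t * Complex.exp (Complex.I * x * t) := by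
    have := hT.mul_cont (g := fun t : ℝ => Complex.exp (Complex.I * x * t)) (by fun_prop)
    refine this.congr (Eventually.of_forall fun t => ?_)
    simp only []
    ring
  rw [← integral_const_mul, ← integral_sub i1 ((LG_integrable h x).const_mul _)]
  refine integral_congr_ae ?_
  filter_upwards [h2] with t ht
  by_cases hts : t ∈ tsupport φ
  · have h3 := ht (hs t hts)
    rw [← h3]
    push_cast
    ring
  · rw [image_eq_zero_of_notMem_tsupport hts]
    simp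

theorem x_FT_tendsto {χ : ℝ → ℂ} (h : Tst χ) :
    Tendsto (fun x : ℝ => (x : ℂ) * FT χ x) atTop (𝓝 0) := by
  simp only [FT_mul_var h]
  exact riemann_lebesgue _

/-! ### The zeta function -/

theorem zeta_angBd : AngBd 0 riemannZeta (fun t => riemannZeta (eq0 0 t)) := by
  refine ⟨{0}, dimH_singleton 0, fun t ht => ?_⟩
  have ht0 : t ≠ 0 := ht
  have hre : (eq0 0 t).re = 1 := by
    rw [eq0_re]
    norm_num
  have hne : eq0 0 t ≠ 1 := by
    intro h0
    have := congrArg Complex.im h0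
    unfold eq0 at this
    simp at this
    exact ht0 this
  refine ⟨riemannZeta_ne_zero_of_one_le_re (by rw [hre]), fun K => ?_⟩
  exact ((differentiableAt_riemannZeta hne).continuousAt.tendsto).mono_left nhdsWithin_le_nhds

theorem zeta_cont (t0 : ℝ) : ∃ F : ℂ → ℂ, AnalyticAt ℂ F (eq0 0 t0) ∧ F (eq0 0 t0) ≠ 0 ∧
    ∀ᶠ s in 𝓝 (eq0 0 t0), (0 : ℝ) / 2 + 1 < s.re →
      riemannZeta s * (s - eq0 0 0) ^ (1 : ℤ) = F s := by
  have he : eq0 0 0 = 1 := by
    unfold eq0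
    simp
  rcases eq_or_ne t0 0 with h0 | h0
  · subst h0
    rw [he]
    set f : ℂ → ℂ := Function.update (fun s => (s - 1) * riemannZeta s) 1 1 with hf
    have hf1 : f 1 = 1 := by simp [hf]
    refine ⟨f, ?_, by rw [hf1]; exact one_ne_zero, ?_⟩
    · refine Complex.analyticAt_of_differentiable_on_punctured_nhds_of_continuousAt ?_ ?_
      · filter_upwards [self_mem_nhdsWithin] with s hs
        have hs' : s ≠ 1 := hs
        have h1 : DifferentiableAt ℂ (fun s => (s - 1) * riemannZeta s) s :=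
          (differentiableAt_id.sub_const 1).mul (differentiableAt_riemannZeta hs')
        refine h1.congr_of_eventuallyEq ?_
        filter_upwards [isOpen_ne.mem_nhds hs'] with u hu
        have hu' : u ≠ 1 := hu
        simp only [hf]
        rw [Function.update_of_ne hu']
      · rw [hf, continuousAt_update_same]
        exact riemannZeta_residue_one
    · refine Eventually.of_forall fun s hs => ?_
      have hs' : s ≠ 1 := by
        intro h0
        rw [h0, Complex.one_re] at hs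
        norm_num at hs
      rw [hf, Function.update_of_ne hs', zpow_one, mul_comm]
  · have hne : eq0 0 t0 ≠ 1 := by
      intro h1
      have := congrArg Complex.im h1
      unfold eq0 at this
      simp at this
      exact h0 this
    have hre : (eq0 0 t0).re = 1 := by
      rw [eq0_re]
      norm_num
    rw [he]
    refine ⟨fun s => riemannZeta s * (s - 1), ?_, ?_, ?_⟩
    · refine Complex.analyticAt_iff_eventually_differentiableAt.2 ?_
      filter_upwards [isOpen_ne.mem_nhds hne] with s hs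
      exact (differentiableAt_riemannZeta hs).mul (differentiableAt_id.sub_const 1)
    · exact mul_ne_zero (riemannZeta_ne_zero_of_one_le_re (by rw [hre])) (sub_ne_zero.2 hne)
    · exact Eventually.of_forall fun s _ => by rw [zpow_one]

theorem LG_tendsto {φ : ℝ → ℂ} (h : Tst φ) :
    Tendsto (fun x : ℝ => (x : ℂ) * LG φ x) atTop (𝓝 (-(Real.pi * φ 0))) := by
  obtain ⟨R, hR, hφR⟩ := exists_R h
  have hs : ∀ t ∈ tsupport φ, |t| < R + 1 := by
    intro t ht
    have h1 : tsupport φ ⊆ Metric.closedBall 0 R := by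
      refine closure_minimal ?_ Metric.isClosed_closedBall
      intro u hu
      rw [Metric.mem_closedBall, Real.dist_eq, sub_zero]
      by_contra hc
      push Not at hc
      exact hu (hφR u hc.le)
    have h2 := h1 ht
    rw [Metric.mem_closedBall, Real.dist_eq, sub_zero] at h2
    linarith
  have hLoc : Loc (R + 1) (fun t => riemannZeta (eq0 0 t)) 1 :=
    loc_of_cont zeta_angBd fun t0 _ => zeta_cont t0
  obtain ⟨χ, hχ, hd⟩ := decomp hLoc h hs
  obtain ⟨T, hT, hLim⟩ := Lim_of_angBd Bd_one (L := riemannZeta)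
    (fun s hs => (zeta_eq (by norm_num at hs; exact hs)).symm) zeta_angBd
  have h1 := (q_tauber Bd_one hT hLim 1).1 (by
    refine tendsto_const_nhds.congr' ?_
    filter_upwards [eventually_ge_atTop 3] with x hx
    have hc : ((Nat.primesBelow x).card : ℂ) ≠ 0 := by exact_mod_cast (card_pos_pb hx).ne'
    unfold ntr
    simp only [neg_zero, zero_div, Real.rpow_zero]
    simp [hc]) φ h
  have h2 := (x_FT_tendsto hχ).sub h1
  rw [zero_sub, mul_one] at h2
  refine h2.congr fun x => ?_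
  rw [hd x]
  push_cast
  ring

/-- continuation to a segment gives the condition on the edge -/
theorem edge_of_loc {l : ℝ → ℂ} {m : ℤ} {lam : ℝ} (hL : Loc lam l m) {φ : ℝ → ℂ} (h : Tst φ)
    (hs : ∀ t ∈ tsupport φ, |t| < lam) :
    Tendsto (fun x : ℝ => (x : ℂ) * II l φ x) atTop (𝓝 (Real.pi * m * φ 0)) := by
  obtain ⟨χ, hχ, hd⟩ := decomp hL h hs
  have h1 := (x_FT_tendsto hχ).sub ((LG_tendsto h).const_mul (m : ℂ))
  have e1 : (0 : ℂ) - m * -(Real.pi * φ 0) = Real.pi * m * φ 0 := by ring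
  rw [e1] at h1
  refine h1.congr fun x => ?_
  rw [hd x]
  ring

theorem tsupport_lt {φ : ℝ → ℂ} {lam : ℝ} (hlam : 0 < lam) (h : ∀ t, lam / 2 ≤ |t| → φ t = 0) :
    ∀ t ∈ tsupport φ, |t| < lam := by
  intro t ht
  have h1 : tsupport φ ⊆ Metric.closedBall 0 (lam / 2) := by
    refine closure_minimal ?_ Metric.isClosed_closedBall
    intro u hu
    rw [Metric.mem_closedBall, Real.dist_eq, sub_zero]
    by_contra hc
    push Not at hc
    exact hu (h u hc.le)
  have h2 := h1 ht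
  rw [Metric.mem_closedBall, Real.dist_eq, sub_zero] at h2
  linarith

/-- The theorem with a window, open form. -/
theorem k_window' : ∃ C : ℝ, 0 < C ∧ ∀ (K : Type) [Field K] [NumberField K] (N : ℕ) (w : ℝ)
    (α : HeightOneSpectrum (𝓞 K) → Fin N → ℂ), BdK w α → ∀ l : ℝ → ℂ, AngBd w (LK α) l →
    ∀ (ρ : ℂ) (lam : ℝ), 0 < lam →
    (∀ φ : ℝ → ℂ, Tst φ → (∀ t ∈ tsupport φ, |t| < lam) →
      Tendsto (fun x : ℝ => (x : ℂ) * II l φ x) atTop (𝓝 (Real.pi * ρ * φ 0))) →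
    ∀ ε : ℝ, 0 < ε →
    (∀ᶠ x : ℕ in atTop, ‖kav (ntrK w α) x - ρ‖ ≤ C * (N * Module.finrank ℚ K) / lam + ε) ∧
    ∀ᶠ x : ℕ in atTop, ‖(x : ℂ)⁻¹ * ∑ v ∈ VF K x, ntrK w α v * (Real.log (nm v) : ℝ) - ρ‖ ≤
      C * (N * Module.finrank ℚ K) / lam + ε := by
  obtain ⟨C, hC, h⟩ := k_window
  refine ⟨2 * C, by linarith, fun K _ _ N w α hα l hl ρ lam hlam hφ ε hε => ?_⟩
  have h1 := h K N w α hα l hl ρ (lam / 2) (by linarith) (fun φ h1 h2 =>
    hφ φ h1 (tsupport_lt hlam h2)) ε hε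
  have e1 : C * (N * Module.finrank ℚ K) / (lam / 2) = 2 * C * (N * Module.finrank ℚ K) / lam := by
    field_simp
  rw [e1] at h1
  exact h1

end Pool.Agent.Q255.SG
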