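import Pool.Agent.Q255.SG.BohrMain
import Pool.Agent.H305R2.MertensE

/-! # High moments of the random Euler product -/

set_option autoImplicit false

namespace Pool.Agent.Q255.SG

open Finset MeasureTheory Filter Topology Pool.Agent.Q255.SA Pool.Agent.TH109.CG

/-- the circle with its Haar probability measure -/
noncomputable abbrev hc : Measure UnitAddCircle := AddCircle.haarAddCircle

theorem prod_int (x : ℕ) {g : ℕ → UnitAddCircle → ℝ} (hg : ∀ p, Measurable (g p)) :
    ∫ θ, ∏ p ∈ Nat.primesBelow x, g p (θ p) ∂Pr = ∏ p ∈ Nat.primesBelow x, ∫ u, g p u ∂hc := by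
  set s := Nat.primesBelow x with hs
  have h1 : ∀ θ : ℕ → UnitAddCircle, ∏ p ∈ s, g p (θ p) =
      (fun y : s → UnitAddCircle => ∏ i : s, g i (y i)) (s.restrict θ) := by
    intro θ
    show ∏ p ∈ s, g p (θ p) = ∏ i : s, g i (θ i)
    rw [Finset.prod_coe_sort s (fun p => g p (θ p))]
  have h2 := integral_restrict_infinitePi
    (μ := fun _ : ℕ => (AddCircle.haarAddCircle : Measure UnitAddCircle)) (s := s)
    (f := fun y : s → UnitAddCircle => ∏ i : s, g i (y i)) (by
      refine Measurable.aestronglyMeasurable ?_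
      exact Finset.measurable_prod _ fun i _ => (hg i).comp (measurable_pi_apply i))
  calc ∫ θ, ∏ p ∈ s, g p (θ p) ∂Pr = ∫ θ : ℕ → UnitAddCircle,
        (fun y : s → UnitAddCircle => ∏ i : s, g i (y i)) (s.restrict θ) ∂Pr :=
        integral_congr_ae (Eventually.of_forall h1)
    _ = _ := by
        unfold Pr
        rw [h2, integral_fintype_prod_eq_prod (fun (i : s) u => g i u),
          Finset.prod_coe_sort s (fun p => ∫ u, g p u ∂hc)]

theorem int_fourier_one : ∫ u, (fourier 1 u : ℂ) ∂hc = 0 := by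
  have h := (orthonormal_iff_ite.mp <| orthonormal_fourier (T := 1)) 0 1
  have hi' : ¬ ((0 : ℤ) = 1) := by norm_num
  rw [if_neg hi'] at h
  rw [ContinuousMap.inner_toLp] at h
  simp only [fourier_zero, map_one, one_mul, mul_one] at h
  exact h

theorem norm_fourier_one (u : UnitAddCircle) : ‖(fourier 1 u : ℂ)‖ = 1 := by
  rw [fourier_apply, Circle.norm_coe]

theorem int_re (b : ℂ) : ∫ u, (b * fourier 1 u : ℂ).re ∂hc = 0 := by
  have h1 : Integrable (fun u => (b * fourier 1 u : ℂ)) hc := by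
    refine (MemLp.of_bound (p := 1) (C := ‖b‖) ?_ ?_).integrable le_rfl
    · exact (continuous_const.mul (map_continuous (fourier 1))).aestronglyMeasurable
    · refine Eventually.of_forall fun u => ?_
      rw [norm_mul, norm_fourier_one, mul_one]
  have h2 := integral_re h1
  have h3 : ∫ u, (b * fourier 1 u : ℂ) ∂hc = 0 := by
    rw [integral_const_mul, int_fourier_one, mul_zero]
  have h4 : (∫ u, (b * fourier 1 u : ℂ).re ∂hc) = ∫ u, RCLike.re (b * fourier 1 u : ℂ) ∂hc := rfl
  rw [h4, h2, h3]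
  simp

theorem cont_int1 {f : UnitAddCircle → ℝ} (hf : Continuous f) : Integrable f hc := by
  obtain ⟨C, hC⟩ := isCompact_univ.exists_bound_of_continuousOn hf.continuousOn
  exact (MemLp.of_bound (p := 1) hf.aestronglyMeasurable C
    (Eventually.of_forall fun θ => hC θ (Set.mem_univ _))).integrable le_rfl

variable {N : ℕ} {w : ℝ}

/-- modulus of the local factor -/
noncomputable def lf (β : Fin N → ℂ) (u : UnitAddCircle) : ℝ :=
  ‖∏ j, (1 - β j * fourier 1 u)⁻¹‖

theorem lf_pos {β : Fin N → ℂ} (hβ : ∀ j, ‖β j‖ ≤ 1 / 2) (u : UnitAddCircle) : 0 < lf β u := by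
  unfold lf
  rw [norm_pos_iff]
  exact Finset.prod_ne_zero_iff.2 fun j _ => inv_ne_zero (one_sub_ne' (hβ j) u)

theorem lf_continuous {β : Fin N → ℂ} (hβ : ∀ j, ‖β j‖ ≤ 1 / 2) : Continuous (lf β) := by
  unfold lf
  refine Continuous.norm (continuous_finset_prod _ fun j _ => ?_)
  refine Continuous.inv₀ ?_ fun u => one_sub_ne' (hβ j) u
  exact continuous_const.sub (continuous_const.mul (map_continuous (fourier 1)))

theorem lf_log {β : Fin N → ℂ} {r : ℝ} (hr : r ≤ 1 / 2) (hβ : ∀ j, ‖β j‖ ≤ r)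
    (u : UnitAddCircle) :
    |Real.log (lf β u) - ((∑ j, β j) * fourier 1 u).re| ≤ N * r ^ 2 := by
  have hr0 : ∀ j : Fin N, 0 ≤ r := fun j => (norm_nonneg _).trans (hβ j)
  have hb : ∀ j, ‖β j * fourier 1 u‖ ≤ r := fun j => by
    rw [norm_mul, norm_fourier_one, mul_one]
    exact hβ j
  have h1 : ∏ j, (1 - β j * fourier 1 u)⁻¹ = Complex.exp (∑ j, -Complex.log (1 - β j * fourier 1 u)) := by
    rw [Complex.exp_sum]
    refine Finset.prod_congr rfl fun j _ => ?_
    rw [Complex.exp_neg, Complex.exp_log (one_sub_ne' ((hβ j).trans hr) u)]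
  unfold lf
  rw [h1, Complex.norm_exp, Real.log_exp, ← Complex.sub_re]
  refine (Complex.abs_re_le_norm _).trans ?_
  rw [Finset.sum_mul, ← Finset.sum_sub_distrib]
  refine (norm_sum_le_of_le (n := fun _ => r ^ 2) _ fun j _ => ?_).trans ?_
  · have h2 := norm_log_sub (w := β j * fourier 1 u) (by linarith [hb j])
    refine h2.trans ?_
    have h4 : (1 - ‖β j * fourier 1 u‖)⁻¹ ≤ 2 := by
      rw [inv_le_comm₀ (by linarith [hb j]) (by norm_num)]
      linarith [hb j]
    have h5 : 0 < (1 - ‖β j * fourier 1 u‖)⁻¹ := inv_pos.2 (by linarith [hb j])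
    have h6 : ‖β j * fourier 1 u‖ ^ 2 ≤ r ^ 2 := pow_le_pow_left₀ (norm_nonneg _) (hb j) 2
    have h8 := mul_le_mul h6 h4 h5.le (by positivity)
    linarith
  · rw [Finset.sum_const, Finset.card_univ, Fintype.card_fin, nsmul_eq_mul]

/-- Moments of the local factor at a large prime. -/
theorem lf_moment {β : Fin N → ℂ} {r ρ : ℝ} (hr : r ≤ 1 / 2) (hβ : ∀ j, ‖β j‖ ≤ r) (hr0 : 0 ≤ r)
    (hρ : |ρ| * (N * r) ≤ 1) :
    ∫ u, lf β u ^ ρ ∂hc ≤ Real.exp ((|ρ| * N + ρ ^ 2 * N ^ 2) * r ^ 2) := by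
  have hβ2 : ∀ j, ‖β j‖ ≤ 1 / 2 := fun j => (hβ j).trans hr
  set b := ∑ j, β j with hb
  have hbn : ‖b‖ ≤ N * r := by
    refine (norm_sum_le_of_le (n := fun _ => r) _ fun j _ => hβ j).trans ?_
    rw [Finset.sum_const, Finset.card_univ, Fintype.card_fin, nsmul_eq_mul]
  have hpt : ∀ u, lf β u ^ ρ ≤ Real.exp (|ρ| * (N * r ^ 2)) *
      (1 + ρ * (b * fourier 1 u).re + (|ρ| * (N * r)) ^ 2) := by
    intro u
    have h1 := lf_log hr hβ u
    have h2 : |(b * fourier 1 u).re| ≤ N * r := by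
      refine (Complex.abs_re_le_norm _).trans ?_
      rw [norm_mul, norm_fourier_one, mul_one]
      exact hbn
    rw [Real.rpow_def_of_pos (lf_pos hβ2 u)]
    have h3 : Real.log (lf β u) * ρ ≤ |ρ| * (N * r ^ 2) + ρ * (b * fourier 1 u).re := by
      have h4 : Real.log (lf β u) * ρ - ρ * (b * fourier 1 u).re =
          ρ * (Real.log (lf β u) - (b * fourier 1 u).re) := by ring
      have h5 : ρ * (Real.log (lf β u) - (b * fourier 1 u).re) ≤ |ρ| * (N * r ^ 2) := by
        refine (le_abs_self _).trans ?_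
        rw [abs_mul]
        gcongr
      linarith
    have h6 : |ρ * (b * fourier 1 u).re| ≤ |ρ| * (N * r) := by
      rw [abs_mul]
      gcongr
    have h7 := Real.abs_exp_sub_one_sub_id_le (h6.trans hρ)
    have h8 : (ρ * (b * fourier 1 u).re) ^ 2 ≤ (|ρ| * (N * r)) ^ 2 := by
      rw [← sq_abs]
      exact pow_le_pow_left₀ (abs_nonneg _) h6 2
    have h9 := (abs_le.1 h7).2
    calc Real.exp (Real.log (lf β u) * ρ) ≤
          Real.exp (|ρ| * (N * r ^ 2) + ρ * (b * fourier 1 u).re) := Real.exp_le_exp.2 h3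
      _ = Real.exp (|ρ| * (N * r ^ 2)) * Real.exp (ρ * (b * fourier 1 u).re) := Real.exp_add _ _
      _ ≤ _ := by
          gcongr
          linarith
  have hc1 : Continuous fun u => lf β u ^ ρ :=
    (lf_continuous hβ2).rpow_const fun u => Or.inl (lf_pos hβ2 u).ne'
  have hc2 : Continuous fun u : UnitAddCircle => (b * fourier 1 u : ℂ).re :=
    Complex.continuous_re.comp (continuous_const.mul (map_continuous (fourier 1)))
  have h1 : ∫ u, lf β u ^ ρ ∂hc ≤ ∫ u, Real.exp (|ρ| * (N * r ^ 2)) *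
      (1 + ρ * (b * fourier 1 u).re + (|ρ| * (N * r)) ^ 2) ∂hc := by
    refine integral_mono (cont_int1 hc1) (cont_int1 ?_) hpt
    exact continuous_const.mul ((continuous_const.add (continuous_const.mul hc2)).add
      continuous_const)
  refine h1.trans ?_
  rw [integral_const_mul]
  have h2 : ∫ u, (1 + ρ * (b * fourier 1 u).re + (|ρ| * (N * r)) ^ 2) ∂hc =
      1 + (|ρ| * (N * r)) ^ 2 := by
    have i2 := cont_int1 hc2
    have i3 : Integrable (fun u => ρ * (b * fourier 1 u : ℂ).re) hc := i2.const_mul ρ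
    have i4 : Integrable (fun u => 1 + ρ * (b * fourier 1 u : ℂ).re) hc :=
      (integrable_const _).add i3
    rw [integral_add i4 (integrable_const _), integral_add (integrable_const _) i3,
      integral_const_mul, int_re b]
    simp
  rw [h2]
  have h3 : 1 + (|ρ| * (N * r)) ^ 2 ≤ Real.exp ((|ρ| * (N * r)) ^ 2) := by
    have := Real.add_one_le_exp ((|ρ| * (N * r)) ^ 2)
    linarith
  calc Real.exp (|ρ| * (N * r ^ 2)) * (1 + (|ρ| * (N * r)) ^ 2) ≤
        Real.exp (|ρ| * (N * r ^ 2)) * Real.exp ((|ρ| * (N * r)) ^ 2) := by gcongr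
    _ = _ := by
        rw [← Real.exp_add]
        congr 1
        rw [mul_pow, sq_abs]
        ring

/-- The trivial bound for the local factor. -/
theorem lf_le {β : Fin N → ℂ} {r : ℝ} (hr : r ≤ 1 / 2) (hβ : ∀ j, ‖β j‖ ≤ r) (u : UnitAddCircle) :
    lf β u ≤ ((1 - r)⁻¹) ^ N := by
  unfold lf
  rw [norm_prod]
  calc ∏ j, ‖(1 - β j * fourier 1 u)⁻¹‖ ≤ ∏ _j : Fin N, (1 - r)⁻¹ := by
        refine Finset.prod_le_prod (fun j _ => norm_nonneg _) fun j _ => ?_
        rw [norm_inv]
        refine inv_anti₀ (by linarith) ?_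
        have h1 : ‖β j * fourier 1 u‖ ≤ r := by
          rw [norm_mul, norm_fourier_one, mul_one]
          exact hβ j
        have h2 := norm_sub_norm_le (1 : ℂ) (β j * fourier 1 u)
        rw [norm_one] at h2
        linarith
    _ = _ := by simp

theorem norm_bt' {a : ℂ} {p : ℕ} (hp : p.Prime) (ha : ‖a‖ ≤ (p : ℝ) ^ (w / 2)) :
    ‖bt w a p‖ ≤ 1 / p := by
  have h0 : (0 : ℝ) < p := by exact_mod_cast hp.pos
  unfold bt
  rw [norm_div, norm_mul, Complex.norm_real, Real.norm_of_nonneg (by positivity),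
    Complex.norm_natCast]
  have h1 : ‖a‖ * (p : ℝ) ^ (-(w / 2)) ≤ 1 := by
    calc ‖a‖ * (p : ℝ) ^ (-(w / 2)) ≤ (p : ℝ) ^ (w / 2) * (p : ℝ) ^ (-(w / 2)) := by
          gcongr
      _ = 1 := by
          rw [← Real.rpow_add h0]
          simp
  gcongr

theorem norm_RP {α : ℕ → Fin N → ℂ} (hα : Bd w α) (x : ℕ) (θ : ℕ → UnitAddCircle) :
    ‖RP w α x θ‖ = ∏ p ∈ Nat.primesBelow x, lf (fun j => bt w (α p j) p) (θ p) := by
  rw [← GP_toK hα]
  unfold GP lf
  rw [norm_prod]
  refine Finset.prod_congr rfl fun p hp => ?_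
  have hp' := Nat.prime_of_mem_primesBelow hp
  unfold toK
  simp [hp']

theorem sum_tail {x y : ℕ} (hy : 1 ≤ y) :
    ∑ p ∈ (Nat.primesBelow x).filter (fun p => y ≤ p), ((p : ℝ) ^ 2)⁻¹ ≤ 2 / y := by
  have h1 := sum_Ioo_inv_sq_le (α := ℝ) (y - 1) x
  have h2 : ((y - 1 : ℕ) : ℝ) + 1 = y := by
    rw [Nat.cast_sub hy]
    push_cast
    ring
  rw [h2] at h1
  refine le_trans (Finset.sum_le_sum_of_subset_of_nonneg ?_ fun _ _ _ => by positivity) h1
  intro p hp
  rw [Finset.mem_filter, Nat.mem_primesBelow] at hp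
  rw [Finset.mem_Ioo]
  omega

/-- **Moments of the random partial products**: the primes below `y` are bounded trivially. -/
theorem rp_moment {α : ℕ → Fin N → ℂ} (hα : Bd w α) {q : ℝ} (hq : 1 ≤ q) (hN : 1 ≤ N) {y : ℕ}
    (hy : 1 ≤ y) (hqy : q * N ≤ y) (x : ℕ) (hxy : y ≤ x) :
    ∫ θ, ‖RP w α x θ‖ ^ q ∂Pr ≤
      (∏ p ∈ Nat.primesBelow y, (1 - (p : ℝ)⁻¹)⁻¹) ^ (N * q) *
        Real.exp (4 * q ^ 2 * N ^ 2 / y) := by
  have hN0 : (1 : ℝ) ≤ N := by exact_mod_cast hN
  have hy0 : (0 : ℝ) < y := by exact_mod_cast hy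
  set g : ℕ → UnitAddCircle → ℝ := fun p u =>
    if p.Prime then lf (fun j => bt w (α p j) p) u ^ q else 0 with hg
  have hgm : ∀ p, Measurable (g p) := by
    intro p
    simp only [hg]
    by_cases hp : p.Prime
    · simp only [hp, if_true]
      exact ((lf_continuous fun j => norm_bt hp (hα p hp j)).rpow_const
        fun u => Or.inl (lf_pos (fun j => norm_bt hp (hα p hp j)) u).ne').measurable
    · simp only [hp, if_false]
      exact measurable_const
  have h1 : ∀ θ : ℕ → UnitAddCircle, ‖RP w α x θ‖ ^ q = ∏ p ∈ Nat.primesBelow x, g p (θ p) := by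
    intro θ
    rw [norm_RP hα, ← Real.finset_prod_rpow]
    · refine Finset.prod_congr rfl fun p hp => ?_
      simp only [hg, Nat.prime_of_mem_primesBelow hp, if_true]
    · intro p _
      exact norm_nonneg _
  simp_rw [h1]
  rw [prod_int x hgm]
  -- the two kinds of factors
  have hsplit : Nat.primesBelow x = (Nat.primesBelow y) ∪
      (Nat.primesBelow x).filter (fun p => y ≤ p) := by
    ext p
    rw [Finset.mem_union, Finset.mem_filter, Nat.mem_primesBelow, Nat.mem_primesBelow]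
    constructor
    · rintro ⟨h2, h3⟩
      rcases lt_or_ge p y with h4 | h4
      · exact Or.inl ⟨h4, h3⟩
      · exact Or.inr ⟨⟨h2, h3⟩, h4⟩
    · rintro (⟨h2, h3⟩ | ⟨h2, _⟩)
      · exact ⟨h2.trans_le hxy, h3⟩
      · exact h2
  have hdisj : Disjoint (Nat.primesBelow y) ((Nat.primesBelow x).filter (fun p => y ≤ p)) := by
    rw [Finset.disjoint_left]
    intro p hp hp'
    rw [Nat.mem_primesBelow] at hp
    rw [Finset.mem_filter] at hp'
    omega
  rw [hsplit, Finset.prod_union hdisj]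
  have hpos : ∀ p, 0 ≤ ∫ u, g p u ∂hc := fun p => integral_nonneg fun u => by
    simp only [hg]
    split_ifs with hp
    · exact (Real.rpow_pos_of_pos (lf_pos (fun j => norm_bt hp (hα p hp j)) u) q).le
    · exact le_rfl
  have hinv : ∀ p : ℕ, p.Prime → (1 / p : ℝ) ≤ 1 / 2 := fun p hp =>
    one_div_le_one_div_of_le (by norm_num) (by exact_mod_cast hp.two_le)
  refine mul_le_mul ?_ ?_ (Finset.prod_nonneg fun p _ => hpos p) (by
    refine Real.rpow_nonneg (Finset.prod_nonneg fun p hp => ?_) _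
    have := hinv p (Nat.prime_of_mem_primesBelow hp)
    rw [inv_nonneg]
    rw [one_div] at this
    linarith)
  · rw [← Real.finset_prod_rpow]
    · refine Finset.prod_le_prod (fun p _ => hpos p) fun p hp => ?_
      have hp' := Nat.prime_of_mem_primesBelow hp
      have h2 : ∀ u, g p u ≤ ((1 - (p : ℝ)⁻¹)⁻¹) ^ (N * q) := by
        intro u
        simp only [hg, hp', if_true]
        have h3 := lf_le (r := 1 / p) (hinv p hp') (fun j => norm_bt' hp' (hα p hp' j)) u
        have h4 := Real.rpow_le_rpow (lf_pos (fun j => norm_bt hp' (hα p hp' j)) u).le h3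
          (by linarith : 0 ≤ q)
        refine h4.trans (le_of_eq ?_)
        have h5 : 0 ≤ (1 - (1 / p : ℝ))⁻¹ := by
          rw [inv_nonneg]
          linarith [hinv p hp']
        rw [← Real.rpow_natCast ((1 - (1 / p : ℝ))⁻¹) N, ← Real.rpow_mul h5, one_div]
      calc ∫ u, g p u ∂hc ≤ ∫ _u, ((1 - (p : ℝ)⁻¹)⁻¹) ^ (N * q) ∂hc := by
            refine integral_mono_of_nonneg (Eventually.of_forall fun u => ?_)
              (integrable_const _) (Eventually.of_forall h2)
            simp only [hg, hp', if_true]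
            exact (Real.rpow_pos_of_pos (lf_pos (fun j => norm_bt hp' (hα p hp' j)) u) q).le
        _ = _ := by simp
    · intro p hp
      have := hinv p (Nat.prime_of_mem_primesBelow hp)
      rw [inv_nonneg]
      rw [one_div] at this
      linarith
  · have h2 : ∀ p ∈ (Nat.primesBelow x).filter (fun p => y ≤ p), ∫ u, g p u ∂hc ≤
        Real.exp (2 * q ^ 2 * N ^ 2 * ((p : ℝ) ^ 2)⁻¹) := by
      intro p hp
      rw [Finset.mem_filter] at hp
      have hp' := Nat.prime_of_mem_primesBelow hp.1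
      have hyp : (y : ℝ) ≤ p := by exact_mod_cast hp.2
      have hp0 : (0 : ℝ) < p := by exact_mod_cast hp'.pos
      have h3 := lf_moment (ρ := q) (r := 1 / p) (hinv p hp')
        (fun j => norm_bt' hp' (hα p hp' j)) (by positivity) (by
          rw [abs_of_pos (by linarith), ← mul_assoc, mul_one_div, div_le_one hp0]
          linarith)
      have h4 : ∫ u, g p u ∂hc = ∫ u, lf (fun j => bt w (α p j) p) u ^ q ∂hc := by
        simp only [hg, hp', if_true]
      rw [h4]
      refine h3.trans (Real.exp_le_exp.2 ?_)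
      rw [abs_of_pos (by linarith), div_pow, one_pow, one_div]
      have h5 : q * N ≤ q ^ 2 * N ^ 2 := by
        have : 1 ≤ q * N := by nlinarith
        nlinarith
      have h6 : 0 ≤ ((p : ℝ) ^ 2)⁻¹ := by positivity
      nlinarith
    calc ∏ p ∈ (Nat.primesBelow x).filter (fun p => y ≤ p), ∫ u, g p u ∂hc ≤
          ∏ p ∈ (Nat.primesBelow x).filter (fun p => y ≤ p),
            Real.exp (2 * q ^ 2 * N ^ 2 * ((p : ℝ) ^ 2)⁻¹) :=
          Finset.prod_le_prod (fun p _ => hpos p) h2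
      _ = Real.exp (2 * q ^ 2 * N ^ 2 *
            ∑ p ∈ (Nat.primesBelow x).filter (fun p => y ≤ p), ((p : ℝ) ^ 2)⁻¹) := by
          rw [← Real.exp_sum, Finset.mul_sum]
      _ ≤ Real.exp (2 * q ^ 2 * N ^ 2 * (2 / y)) := by
          refine Real.exp_le_exp.2 ?_
          have := sum_tail (x := x) hy
          gcongr
      _ = _ := by
          congr 1
          ring

end Pool.Agent.Q255.SG
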