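import Pool.Agent.Q255.SG.LV

/-! # Large values of the random Euler product: upper bound -/

set_option autoImplicit false

namespace Pool.Agent.Q255.SG

open Finset MeasureTheory Filter Topology Pool.Agent.Q255.SA Pool.Agent.TH109.CG

/-- `e^γ` -/
noncomputable def eg : ℝ := Real.exp Real.eulerMascheroniConstant

theorem eg_pos : 0 < eg := Real.exp_pos _

/-- `∏_{p < y} (1 - 1/p)⁻¹` -/
noncomputable def Mp (y : ℕ) : ℝ := ∏ p ∈ Nat.primesBelow y, (1 - (p : ℝ)⁻¹)⁻¹

theorem Mp_pos (y : ℕ) : 0 < Mp y := by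
  unfold Mp
  refine Finset.prod_pos fun p hp => ?_
  have hp' := Nat.prime_of_mem_primesBelow hp
  have h2 : (2 : ℝ) ≤ p := by exact_mod_cast hp'.two_le
  rw [inv_pos, sub_pos]
  exact inv_lt_one_of_one_lt₀ (by linarith)

theorem mert : Tendsto (fun y : ℕ => Mp y / Real.log y) atTop (𝓝 eg) := by
  have h1 := Pool.Agent.H305R2.mertens_three
  have h2 : Tendsto (fun n : ℕ => Real.log n / Real.log (n + 1 : ℕ)) atTop (𝓝 1) := by
    have h3 : Tendsto (fun n : ℕ => 1 - 1 / Real.log (n + 1 : ℕ)) atTop (𝓝 (1 - 0)) := by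
      refine tendsto_const_nhds.sub ?_
      refine tendsto_const_nhds.div_atTop ?_
      exact Real.tendsto_log_atTop.comp (tendsto_natCast_atTop_atTop.comp (tendsto_add_atTop_nat 1))
    rw [sub_zero] at h3
    refine tendsto_of_tendsto_of_tendsto_of_le_of_le' h3 tendsto_const_nhds ?_ ?_
    · filter_upwards [eventually_ge_atTop 3] with n hn
      have hn0 : (0 : ℝ) < n := by exact_mod_cast (by omega : 0 < n)
      have hn1 : (1 : ℝ) ≤ n := by exact_mod_cast (by omega : 1 ≤ n)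
      have hl : 0 < Real.log (n + 1 : ℕ) := Real.log_pos (by push_cast; linarith)
      rw [le_div_iff₀ hl, sub_mul, one_mul, one_div, inv_mul_cancel₀ hl.ne']
      have h4 : Real.log (n + 1 : ℕ) = Real.log n + Real.log (1 + 1 / n) := by
        rw [← Real.log_mul (by positivity) (by positivity)]
        congr 1
        push_cast
        field_simp
      have h5 : Real.log (1 + 1 / n) ≤ 1 := by
        have h6 := Real.log_le_sub_one_of_pos (show (0 : ℝ) < 1 + 1 / n by positivity)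
        have h7 : (1 : ℝ) / n ≤ 1 := by
          rw [div_le_one hn0]
          exact hn1
        linarith
      linarith
    · filter_upwards [eventually_ge_atTop 3] with n hn
      have hn0 : (0 : ℝ) < n := by exact_mod_cast (by omega : 0 < n)
      have hn1 : (1 : ℝ) ≤ n := by exact_mod_cast (by omega : 1 ≤ n)
      have hl : 0 < Real.log (n + 1 : ℕ) := Real.log_pos (by push_cast; linarith)
      rw [div_le_one hl]
      refine Real.log_le_log hn0 ?_
      push_cast
      linarith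
  rw [← tendsto_add_atTop_iff_nat 1]
  have h3 := h1.mul h2
  rw [mul_one] at h3
  refine h3.congr' ?_
  filter_upwards [eventually_ge_atTop 3] with n hn
  have hn0 : (1 : ℝ) < n := by exact_mod_cast (by omega : 1 < n)
  have hl : Real.log n ≠ 0 := (Real.log_pos hn0).ne'
  have e1 : (Finset.Icc 1 n).filter Nat.Prime = Nat.primesBelow (n + 1) := by
    ext p
    rw [Finset.mem_filter, Finset.mem_Icc, Nat.mem_primesBelow]
    constructor
    · rintro ⟨⟨_, h4⟩, h5⟩
      exact ⟨by omega, h5⟩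
    · rintro ⟨h4, h5⟩
      exact ⟨⟨h5.one_le, by omega⟩, h5⟩
  rw [e1]
  unfold Mp
  field_simp

variable {N : ℕ} {w : ℝ}

theorem cont_test {f : ℂ → ℝ} (hf : ContinuousOn f {0}ᶜ) {α : ℕ → Fin N → ℂ} (hα : Bd w α) (x : ℕ) :
    Continuous fun θ => f (RP w α x θ) :=
  hf.comp_continuous (RP_continuous hα x) fun θ => RP_ne α x θ

theorem test_lim {α : ℕ → Fin N → ℂ} (hα : Bd w α) {L : (ℕ → UnitAddCircle) → ℂ}
    (hL : TendstoInMeasure Pr (fun x => RP w α x) atTop L) {f : ℂ → ℝ} (hf : ContinuousOn f {0}ᶜ)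
    (hb : ∀ z, |f z| ≤ 1) : ∃ ns : ℕ → ℕ, StrictMono ns ∧
      Tendsto (fun i => ∫ θ, f (RP w α (ns i) θ) ∂Pr) atTop (𝓝 (∫ θ, f (L θ) ∂Pr)) := by
  obtain ⟨_, h3, ns, hns, h4⟩ := lim_rp hα hL
  refine ⟨ns, hns, ?_⟩
  refine tendsto_integral_of_dominated_convergence (fun _ => 1)
    (fun n => (cont_test hf hα (ns n)).aestronglyMeasurable) (integrable_const _)
    (fun n => Eventually.of_forall fun θ => hb _) ?_
  filter_upwards [h3, h4] with θ hθ hθ'
  have h5 : ContinuousAt f (L θ) := hf.continuousAt (isOpen_compl_singleton.mem_nhds hθ)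
  exact h5.tendsto.comp hθ'

/-- **Upper bound for the large values**, uniformly in the system. -/
theorem upper_tail (N : ℕ) (hN : 1 ≤ N) {δ : ℝ} (hδ0 : 0 < δ) (hδ1 : δ < 1) :
    ∀ᶠ u : ℝ in atTop, ∀ (w : ℝ) (α : ℕ → Fin N → ℂ), Bd w α →
      ∀ L : (ℕ → UnitAddCircle) → ℂ, TendstoInMeasure Pr (fun x => RP w α x) atTop L →
      ∀ f : ℂ → ℝ, ContinuousOn f {0}ᶜ → (∀ z, 0 ≤ f z) → (∀ z, f z ≤ 1) →
      (∀ z, ‖z‖ ≤ (eg * ((1 - δ / 4) * u)) ^ N → f z = 0) →
      ∫ θ, f (L θ) ∂Pr ≤ Real.exp (-Real.exp ((1 - δ) * u)) / 2 := by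
  have hN1 : (1 : ℝ) ≤ N := by exact_mod_cast hN
  have hN0 : (0 : ℝ) < N := by linarith
  set ρ : ℝ := (1 - 7 * δ / 24) / (1 - 6 * δ / 24) with hρ
  have hρ0 : 0 < ρ := div_pos (by linarith) (by linarith)
  have hρ1 : ρ < 1 := by
    rw [hρ, div_lt_one (by linarith)]
    linarith
  have hlρ : Real.log ρ < 0 := Real.log_neg hρ0 hρ1
  set K : ℝ := 8 * N / (-Real.log ρ) + N with hK
  have hKN : (N : ℝ) ≤ K := by
    have : 0 < 8 * N / (-Real.log ρ) := by
      have : 0 < -Real.log ρ := by linarith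
      positivity
    linarith
  have hK0 : 0 < K := by linarith
  have hKl : 4 * N / K ≤ -Real.log ρ / 2 := by
    rw [div_le_iff₀ hK0]
    have h1 : 8 * N / (-Real.log ρ) ≤ K := by linarith
    rw [div_le_iff₀ (by linarith)] at h1
    linarith
  set c : ℝ := -(N * Real.log ρ) / (2 * K) with hc
  have hc0 : 0 < c := by
    rw [hc]
    have : 0 < -(N * Real.log ρ) := by nlinarith
    positivity
  -- the cut
  have hyT : Tendsto (fun u : ℝ => ⌊Real.exp ((1 - δ / 3) * u)⌋₊) atTop atTop :=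
    tendsto_nat_floor_atTop.comp (Real.tendsto_exp_atTop.comp
      (tendsto_id.const_mul_atTop (by linarith)))
  have e1 : ∀ᶠ u : ℝ in atTop, Mp ⌊Real.exp ((1 - δ / 3) * u)⌋₊ /
      Real.log ⌊Real.exp ((1 - δ / 3) * u)⌋₊ < eg * (1 + δ / 24) :=
    (mert.comp hyT).eventually_lt_const (by
      have := eg_pos
      nlinarith)
  have e2 : ∀ᶠ u : ℝ in atTop, ⌈K⌉₊ + 3 ≤ ⌊Real.exp ((1 - δ / 3) * u)⌋₊ :=
    hyT.eventually_ge_atTop _
  have e3 : ∀ᶠ u : ℝ in atTop, 2 / c ≤ Real.exp (2 * δ / 3 * u) :=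
    (Real.tendsto_exp_atTop.comp (tendsto_id.const_mul_atTop (by positivity))).eventually_ge_atTop _
  have e4 : ∀ᶠ u : ℝ in atTop, 2 * (c + 1) / c ≤ Real.exp ((1 - δ / 3) * u) :=
    (Real.tendsto_exp_atTop.comp (tendsto_id.const_mul_atTop (by linarith))).eventually_ge_atTop _
  filter_upwards [e1, e2, e3, e4, eventually_gt_atTop 0] with u h1 h2 h3 h4 hu
    w α hα L hL f hf hf0 hf1 hfz
  set y := ⌊Real.exp ((1 - δ / 3) * u)⌋₊ with hy
  have hyle : (y : ℝ) ≤ Real.exp ((1 - δ / 3) * u) := Nat.floor_le (Real.exp_pos _).le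
  have hyge : Real.exp ((1 - δ / 3) * u) - 1 ≤ y := (Nat.sub_one_lt_floor _).le
  have hy3 : (3 : ℝ) ≤ y := by exact_mod_cast (by omega : 3 ≤ y)
  have hyK : K ≤ y := by
    have h5 := Nat.le_ceil K
    have h6 : ((⌈K⌉₊ : ℕ) : ℝ) ≤ y := by exact_mod_cast (by omega : ⌈K⌉₊ ≤ y)
    linarith
  have hy0 : (0 : ℝ) < y := by linarith
  have hly : 0 < Real.log y := Real.log_pos (by linarith)
  have hlyu : Real.log y ≤ (1 - δ / 3) * u := by
    rw [Real.log_le_iff_le_exp hy0]
    exact hyle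
  set q : ℝ := y / K with hq
  have hq1 : 1 ≤ q := by
    rw [hq, le_div_iff₀ hK0]
    linarith
  have hqy : q * N ≤ y := by
    rw [hq, div_mul_eq_mul_div, div_le_iff₀ hK0]
    exact mul_le_mul_of_nonneg_left hKN hy0.le
  set Tt : ℝ := eg * ((1 - δ / 4) * u) with hTt
  have hT0 : 0 < Tt := by
    have := eg_pos
    have : 0 < 1 - δ / 4 := by linarith
    positivity
  have hTN : 0 < Tt ^ N := pow_pos hT0 N
  -- the product of Mertens
  have hM : Mp y ≤ ρ * Tt := by
    rw [div_lt_iff₀ hly] at h1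
    have h6 : eg * (1 + δ / 24) * Real.log y ≤ eg * (1 + δ / 24) * ((1 - δ / 3) * u) := by
      have := eg_pos
      gcongr
    refine h1.le.trans (h6.trans ?_)
    have h7 : (1 + δ / 24) * (1 - δ / 3) ≤ ρ * (1 - δ / 4) := by
      have h8 : ρ * (1 - δ / 4) = 1 - 7 * δ / 24 := by
        have h9 : 1 - δ / 4 ≠ 0 := by
          have : 0 < 1 - δ / 4 := by linarith
          exact this.ne'
        rw [hρ, show 1 - 6 * δ / 24 = 1 - δ / 4 by ring, div_mul_cancel₀ _ h9]
      rw [h8]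
      nlinarith
    rw [hTt]
    calc eg * (1 + δ / 24) * ((1 - δ / 3) * u) = eg * u * ((1 + δ / 24) * (1 - δ / 3)) := by ring
      _ ≤ eg * u * (ρ * (1 - δ / 4)) := by
          have := eg_pos
          gcongr
      _ = _ := by ring
  -- the bound for the partial products
  have hpart : ∀ x : ℕ, y ≤ x → ∫ θ, f (RP w α x θ) ∂Pr ≤ Real.exp (-(c * y)) := by
    intro x hx
    have hpt : ∀ θ, f (RP w α x θ) ≤ (Tt ^ N) ^ (-q) * ‖RP w α x θ‖ ^ q := by
      intro θ
      rcases le_or_gt ‖RP w α x θ‖ (Tt ^ N) with h5 | h5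
      · rw [hfz _ h5]
        positivity
      · refine (hf1 _).trans ?_
        rw [Real.rpow_neg hTN.le, ← div_eq_inv_mul, ← Real.div_rpow (norm_nonneg _) hTN.le]
        exact Real.one_le_rpow (by rw [one_le_div hTN]; exact h5.le) (by linarith)
    have h5 : ∫ θ, f (RP w α x θ) ∂Pr ≤ (Tt ^ N) ^ (-q) * ∫ θ, ‖RP w α x θ‖ ^ q ∂Pr := by
      rw [← integral_const_mul]
      exact integral_mono (cont_int (cont_test hf hα x))
        (cont_int (continuous_const.mul (RP_pow_cont hα x q))) hpt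
    have h6 := rp_moment hα hq1 hN (by omega : 1 ≤ y) hqy x hx
    have hMp : (∏ p ∈ Nat.primesBelow y, (1 - (p : ℝ)⁻¹)⁻¹) = Mp y := rfl
    rw [hMp] at h6
    have h7 : (Tt ^ N) ^ (-q) = Tt ^ (-(N * q)) := by
      rw [← Real.rpow_natCast Tt N, ← Real.rpow_mul hT0.le]
      congr 1
      ring
    have h8 : Mp y ^ ((N : ℝ) * q) ≤ (ρ * Tt) ^ ((N : ℝ) * q) :=
      Real.rpow_le_rpow (Mp_pos y).le hM (by positivity)
    calc ∫ θ, f (RP w α x θ) ∂Pr ≤ (Tt ^ N) ^ (-q) * ∫ θ, ‖RP w α x θ‖ ^ q ∂Pr := h5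
      _ ≤ Tt ^ (-(N * q)) * ((ρ * Tt) ^ ((N : ℝ) * q) * Real.exp (4 * q ^ 2 * N ^ 2 / y)) := by
          rw [h7]
          gcongr
          exact h6.trans (by gcongr)
      _ = Real.exp (N * q * Real.log ρ + 4 * q ^ 2 * N ^ 2 / y) := by
          rw [Real.mul_rpow hρ0.le hT0.le, Real.rpow_neg hT0.le, Real.exp_add,
            Real.rpow_def_of_pos hρ0]
          have : Tt ^ ((N : ℝ) * q) ≠ 0 := (Real.rpow_pos_of_pos hT0 _).ne'
          field_simp
      _ ≤ Real.exp (-(c * y)) := by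
          refine Real.exp_le_exp.2 ?_
          have e5 : 4 * q ^ 2 * N ^ 2 / y = N * q * (4 * N / K) := by
            have h9 : q * K = y := by rw [hq]; field_simp
            rw [← h9]
            have hq0 : q ≠ 0 := by linarith
            field_simp
          have e6 : c * y = -(N * q * Real.log ρ) / 2 := by
            rw [hc, hq]
            field_simp
          rw [e5, e6]
          have h9 : N * q * (4 * N / K) ≤ N * q * (-Real.log ρ / 2) := by gcongr
          linarith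
  -- the limit
  obtain ⟨ns, hns, hlim⟩ := test_lim hα hL hf (fun z => by
    rw [abs_of_nonneg (hf0 z)]
    exact hf1 z)
  have h5 : ∫ θ, f (L θ) ∂Pr ≤ Real.exp (-(c * y)) := by
    refine le_of_tendsto hlim ?_
    filter_upwards [eventually_ge_atTop y] with n hn
    exact hpart (ns n) (hn.trans (hns.id_le n))
  refine h5.trans ?_
  have h6 : Real.exp ((1 - δ) * u) + 1 ≤ c * y := by
    have h7 : c * (Real.exp ((1 - δ / 3) * u) - 1) ≤ c * y := by gcongr
    refine le_trans ?_ h7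
    have h8 : Real.exp ((1 - δ / 3) * u) = Real.exp (2 * δ / 3 * u) * Real.exp ((1 - δ) * u) := by
      rw [← Real.exp_add]
      congr 1
      ring
    have h9 : Real.exp ((1 - δ) * u) ≤ c / 2 * Real.exp ((1 - δ / 3) * u) := by
      rw [h8]
      rw [div_le_iff₀ hc0] at h3
      have := Real.exp_pos ((1 - δ) * u)
      nlinarith
    have h10 : c + 1 ≤ c / 2 * Real.exp ((1 - δ / 3) * u) := by
      rw [div_le_iff₀ hc0] at h4
      linarith
    linarith
  calc Real.exp (-(c * y)) ≤ Real.exp (-Real.exp ((1 - δ) * u) + -1) := by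
        refine Real.exp_le_exp.2 ?_
        linarith
    _ = Real.exp (-Real.exp ((1 - δ) * u)) * Real.exp (-1) := Real.exp_add _ _
    _ ≤ Real.exp (-Real.exp ((1 - δ) * u)) * (1 / 2) := by
        have h7 : Real.exp (-1) ≤ 1 / 2 := by
          rw [Real.exp_neg, one_div]
          refine inv_anti₀ (by norm_num) ?_
          have := Real.add_one_le_exp (1 : ℝ)
          linarith
        gcongr
    _ = _ := by ring

end Pool.Agent.Q255.SG
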