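import Pool.Agent.Q255.SG.LV2

/-! # Large values of the random Euler product: lower bound for aligned eigenvalues -/

set_option autoImplicit false

namespace Pool.Agent.Q255.SG

open Finset MeasureTheory Filter Topology Pool.Agent.Q255.SA Pool.Agent.TH109.CG

theorem fourier_sub_one_le (u : UnitAddCircle) : ‖(fourier 1 u : ℂ) - 1‖ ≤ 2 * Real.pi * ‖u‖ := by
  obtain ⟨x, rfl⟩ := QuotientAddGroup.mk_surjective u
  have hn : ‖((x : ℝ) : UnitAddCircle)‖ = |x - round x| := UnitAddCircle.norm_eq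
  have he : ((x : ℝ) : UnitAddCircle) = (((x - round x : ℝ)) : UnitAddCircle) := by
    rw [AddCircle.coe_sub]
    have : ((round x : ℝ) : UnitAddCircle) = 0 := by
      rw [AddCircle.coe_eq_zero_iff]
      exact ⟨round x, by simp⟩
    rw [this, sub_zero]
  show ‖(fourier 1 ((x : ℝ) : UnitAddCircle) : ℂ) - 1‖ ≤ 2 * Real.pi * ‖((x : ℝ) : UnitAddCircle)‖
  rw [hn, he, fourier_coe_apply]
  have e : (2 * (Real.pi : ℂ) * Complex.I * ((1 : ℤ) : ℂ) * ((x - round x : ℝ) : ℂ) / ((1 : ℝ) : ℂ)) =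
      Complex.I * ((2 * Real.pi * (x - round x) : ℝ) : ℂ) := by
    push_cast
    ring
  rw [e]
  refine (Real.norm_exp_I_mul_ofReal_sub_one_le).trans ?_
  rw [Real.norm_eq_abs, abs_mul, abs_of_pos (by positivity : 0 < 2 * Real.pi)]

theorem haar_ball {η : ℝ} (h0 : 0 ≤ η) (h1 : η ≤ 1 / 2) :
    hc.real (Metric.closedBall (0 : UnitAddCircle) η) = 2 * η := by
  have h2 := AddCircle.volume_closedBall (T := (1 : ℝ)) (x := 0) η
  rw [AddCircle.volume_eq_smul_haarAddCircle, ENNReal.ofReal_one, one_smul] at h2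
  unfold hc Measure.real
  rw [h2, ENNReal.toReal_ofReal (by positivity), min_eq_right (by linarith)]

variable {N : ℕ} {w : ℝ}

theorem lf_low {p : ℕ} (hp : p.Prime) {u : UnitAddCircle} {η : ℝ} (hu : ‖u‖ ≤ η) :
    ((1 - (p : ℝ)⁻¹)⁻¹ * Real.exp (-(4 * Real.pi * η / p))) ^ N ≤
      lf (fun _ : Fin N => (p : ℂ)⁻¹) u := by
  have hp2 : (2 : ℝ) ≤ p := by exact_mod_cast hp.two_le
  have hp0 : (0 : ℝ) < p := by linarith
  have hinv : (p : ℝ)⁻¹ ≤ 1 / 2 := by
    rw [one_div]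
    exact inv_anti₀ (by norm_num) hp2
  have hinv0 : 0 < (p : ℝ)⁻¹ := by positivity
  have hη : 0 ≤ η := (norm_nonneg _).trans hu
  have h1 : ‖1 - (p : ℂ)⁻¹ * fourier 1 u‖ ≤ (1 - (p : ℝ)⁻¹) * Real.exp (4 * Real.pi * η / p) := by
    have e : 1 - (p : ℂ)⁻¹ * fourier 1 u = ((1 - (p : ℝ)⁻¹ : ℝ) : ℂ) -
        (p : ℂ)⁻¹ * (fourier 1 u - 1) := by
      push_cast
      ring
    rw [e]
    refine (norm_sub_le _ _).trans ?_
    rw [Complex.norm_real, Real.norm_of_nonneg (by linarith), norm_mul, norm_inv,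
      Complex.norm_natCast]
    have h2 := fourier_sub_one_le u
    have h3 : 4 * Real.pi * η / p + 1 ≤ Real.exp (4 * Real.pi * η / p) := Real.add_one_le_exp _
    have h4 : (p : ℝ)⁻¹ * ‖(fourier 1 u : ℂ) - 1‖ ≤ (p : ℝ)⁻¹ * (2 * Real.pi * η) := by
      refine mul_le_mul_of_nonneg_left (h2.trans ?_) hinv0.le
      have := Real.pi_pos
      gcongr
    calc (1 - (p : ℝ)⁻¹) + (p : ℝ)⁻¹ * ‖(fourier 1 u : ℂ) - 1‖ ≤
          (1 - (p : ℝ)⁻¹) + (1 - (p : ℝ)⁻¹) * (4 * Real.pi * η / p) := by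
          have h5 : (p : ℝ)⁻¹ * (2 * Real.pi * η) ≤ (1 - (p : ℝ)⁻¹) * (4 * Real.pi * η / p) := by
            have h6 : (0 : ℝ) ≤ 4 * Real.pi * η / p := by
              have := Real.pi_pos
              positivity
            calc (p : ℝ)⁻¹ * (2 * Real.pi * η) = (1 / 2) * (4 * Real.pi * η / p) := by
                  field_simp
                  ring
              _ ≤ _ := by
                  gcongr
                  linarith
          linarith
      _ = (1 - (p : ℝ)⁻¹) * (4 * Real.pi * η / p + 1) := by ring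
      _ ≤ _ := by
          gcongr
          linarith
  unfold lf
  rw [norm_prod, Finset.prod_const, Finset.card_univ, Fintype.card_fin]
  refine pow_le_pow_left₀ ?_ ?_ N
  · have : 0 < (1 - (p : ℝ)⁻¹)⁻¹ := inv_pos.2 (by linarith)
    positivity
  · rw [norm_inv, Real.exp_neg, ← mul_inv]
    refine inv_anti₀ ?_ h1
    rw [norm_pos_iff]
    refine one_sub_ne' ?_ u
    rw [norm_inv, Complex.norm_natCast]
    exact hinv

theorem sum_inv_primes (y : ℕ) (hy : 1 ≤ y) :
    ∑ p ∈ Nat.primesBelow y, (p : ℝ)⁻¹ ≤ 1 + Real.log y := by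
  have h1 : ∑ p ∈ Nat.primesBelow y, (p : ℝ)⁻¹ ≤ ∑ n ∈ Finset.Icc 1 y, (n : ℝ)⁻¹ := by
    refine Finset.sum_le_sum_of_subset_of_nonneg ?_ fun _ _ _ => by positivity
    intro p hp
    rw [Nat.mem_primesBelow] at hp
    rw [Finset.mem_Icc]
    exact ⟨hp.2.one_le, hp.1.le⟩
  refine h1.trans ?_
  have h2 := harmonic_le_one_add_log y
  rw [harmonic_eq_sum_Icc] at h2
  push_cast at h2
  exact h2

/-- On the event that the first angles are small the partial product is large. -/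
theorem prod_low {y : ℕ} (hy : 1 ≤ y) {η : ℝ} (hη : 0 ≤ η) {θ : ℕ → UnitAddCircle}
    (hθ : ∀ p ∈ Nat.primesBelow y, ‖θ p‖ ≤ η) :
    (Mp y * Real.exp (-(4 * Real.pi * η * (1 + Real.log y)))) ^ N ≤
      ∏ p ∈ Nat.primesBelow y, lf (fun _ : Fin N => (p : ℂ)⁻¹) (θ p) := by
  have h1 : ∏ p ∈ Nat.primesBelow y, ((1 - (p : ℝ)⁻¹)⁻¹ * Real.exp (-(4 * Real.pi * η / p))) ^ N ≤
      ∏ p ∈ Nat.primesBelow y, lf (fun _ : Fin N => (p : ℂ)⁻¹) (θ p) := by
    refine Finset.prod_le_prod (fun p hp => ?_) fun p hp =>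
      lf_low (Nat.prime_of_mem_primesBelow hp) (hθ p hp)
    have hp2 : (2 : ℝ) ≤ p := by exact_mod_cast (Nat.prime_of_mem_primesBelow hp).two_le
    have hinv : (p : ℝ)⁻¹ ≤ 1 / 2 := by
      rw [one_div]
      exact inv_anti₀ (by norm_num) hp2
    have : 0 < (1 - (p : ℝ)⁻¹)⁻¹ := inv_pos.2 (by linarith)
    positivity
  refine le_trans ?_ h1
  rw [Finset.prod_pow]
  refine pow_le_pow_left₀ (mul_nonneg (Mp_pos y).le (Real.exp_pos _).le) ?_ N
  rw [Finset.prod_mul_distrib, ← Real.exp_sum]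
  unfold Mp
  refine mul_le_mul_of_nonneg_left (Real.exp_le_exp.2 ?_) (Mp_pos y).le
  rw [Finset.sum_neg_distrib, neg_le_neg_iff]
  have h2 := sum_inv_primes y hy
  have h3 : ∑ p ∈ Nat.primesBelow y, 4 * Real.pi * η / p =
      4 * Real.pi * η * ∑ p ∈ Nat.primesBelow y, (p : ℝ)⁻¹ := by
    rw [Finset.mul_sum]
    rfl
  rw [h3]
  have := Real.pi_pos
  gcongr

/-- indicator of the small ball -/
noncomputable def ib (η : ℝ) (u : UnitAddCircle) : ℝ :=
  (Metric.closedBall (0 : UnitAddCircle) η).indicator 1 u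

theorem ib_pos {η : ℝ} {u : UnitAddCircle} (h : ‖u‖ ≤ η) : ib η u = 1 := by
  unfold ib
  rw [Set.indicator_of_mem]
  · rfl
  · rw [mem_closedBall_zero_iff]
    exact h

theorem ib_zero {η : ℝ} {u : UnitAddCircle} (h : η < ‖u‖) : ib η u = 0 := by
  unfold ib
  rw [Set.indicator_of_notMem]
  rw [mem_closedBall_zero_iff, not_le]
  exact h

theorem ib_measurable (η : ℝ) : Measurable (ib η) := by
  unfold ib
  exact measurable_one.indicator Metric.isClosed_closedBall.measurableSet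

theorem ib_nonneg (η : ℝ) (u : UnitAddCircle) : 0 ≤ ib η u := by
  rcases le_or_gt ‖u‖ η with h | h
  · rw [ib_pos h]
    norm_num
  · rw [ib_zero h]

theorem ib_le_one (η : ℝ) (u : UnitAddCircle) : ib η u ≤ 1 := by
  rcases le_or_gt ‖u‖ η with h | h
  · rw [ib_pos h]
  · rw [ib_zero h]
    norm_num

theorem ib_int {η : ℝ} (h0 : 0 ≤ η) (h1 : η ≤ 1 / 2) : ∫ u, ib η u ∂hc = 2 * η := by
  rw [← haar_ball h0 h1]
  exact integral_indicator_one Metric.isClosed_closedBall.measurableSet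

theorem bdd_int {f : (ℕ → UnitAddCircle) → ℝ} (hf : Measurable f) {C : ℝ}
    (h : ∀ θ, |f θ| ≤ C) : Integrable f Pr :=
  (MemLp.of_bound (p := 1) hf.aestronglyMeasurable C
    (Eventually.of_forall fun θ => h θ)).integrable le_rfl

/-- **Lower bound**: the value at the partial products. -/
theorem low_part (hN : 1 ≤ N) {α : ℕ → Fin N → ℂ} (hα : Bd w α)
    (hbt : ∀ p : ℕ, p.Prime → ∀ j, bt w (α p j) p = (p : ℂ)⁻¹) {y : ℕ} (hy : 1 ≤ y) {η κ ρ : ℝ}
    (hη0 : 0 < η) (hη1 : η ≤ 1 / 2) (hρ : 1 ≤ ρ) (hρy : ρ * N ≤ y)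
    (hκ : Real.exp (-(κ * ρ)) * Real.exp (4 * ρ ^ 2 * N ^ 2 / y) ≤ 1 / 2) {f : ℂ → ℝ}
    (hf : ContinuousOn f {0}ᶜ) (hf0 : ∀ z, 0 ≤ f z)
    (hf1 : ∀ z, Real.exp (-κ) *
      (Mp y * Real.exp (-(4 * Real.pi * η * (1 + Real.log y)))) ^ N ≤ ‖z‖ → 1 ≤ f z)
    {x : ℕ} (hx : y ≤ x) : (2 * η) ^ y / 2 ≤ ∫ θ, f (RP w α x θ) ∂Pr := by
  have hN0 : (1 : ℝ) ≤ N := by exact_mod_cast hN
  have hy0 : (0 : ℝ) < y := by exact_mod_cast hy
  set S := Nat.primesBelow x with hS
  have hinv : ∀ p : ℕ, p.Prime → (p : ℝ)⁻¹ ≤ 1 / 2 := fun p hp => by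
    rw [one_div]
    exact inv_anti₀ (by norm_num) (by exact_mod_cast hp.two_le)
  have hβ : ∀ p : ℕ, p.Prime → ∀ _j : Fin N, ‖(p : ℂ)⁻¹‖ ≤ (p : ℝ)⁻¹ := fun p _ _ => by
    rw [norm_inv, Complex.norm_natCast]
  have hβ2 : ∀ p : ℕ, p.Prime → ∀ _j : Fin N, ‖(p : ℂ)⁻¹‖ ≤ 1 / 2 := fun p hp j =>
    (hβ p hp j).trans (hinv p hp)
  -- the two product functions
  set g : ℕ → UnitAddCircle → ℝ := fun p u => if p < y then ib η u else 1 with hg
  set g' : ℕ → UnitAddCircle → ℝ := fun p u => if p < y then ib η u else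
    if p.Prime then lf (fun _ : Fin N => (p : ℂ)⁻¹) u ^ (-ρ) else 1 with hg'
  have hgm : ∀ p, Measurable (g p) := by
    intro p
    simp only [hg]
    split_ifs
    · exact ib_measurable η
    · exact measurable_const
  have hgm' : ∀ p, Measurable (g' p) := by
    intro p
    simp only [hg']
    split_ifs with h1 h2
    · exact ib_measurable η
    · exact ((lf_continuous (hβ2 p h2)).rpow_const
        fun u => Or.inl (lf_pos (hβ2 p h2) u).ne').measurable
    · exact measurable_const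
  have hsplit : ∀ F : ℕ → ℝ, ∏ p ∈ S, F p = (∏ p ∈ Nat.primesBelow y, F p) *
      ∏ p ∈ S.filter (fun p => y ≤ p), F p := by
    intro F
    rw [← Finset.prod_union]
    · congr 1
      ext p
      rw [hS, Finset.mem_union, Finset.mem_filter, Nat.mem_primesBelow, Nat.mem_primesBelow]
      constructor
      · rintro ⟨h2, h3⟩
        rcases lt_or_ge p y with h4 | h4
        · exact Or.inl ⟨h4, h3⟩
        · exact Or.inr ⟨⟨h2, h3⟩, h4⟩
      · rintro (⟨h2, h3⟩ | ⟨h2, _⟩)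
        · exact ⟨h2.trans_le hx, h3⟩
        · exact h2
    · rw [Finset.disjoint_left]
      intro p hp hp'
      rw [Nat.mem_primesBelow] at hp
      rw [Finset.mem_filter] at hp'
      omega
  have hlow : ∀ p ∈ Nat.primesBelow y, p < y := fun p hp => (Nat.mem_primesBelow.1 hp).1
  have hhigh : ∀ p ∈ S.filter (fun p => y ≤ p), ¬ p < y ∧ p.Prime := fun p hp => by
    rw [Finset.mem_filter] at hp
    exact ⟨by omega, Nat.prime_of_mem_primesBelow hp.1⟩
  -- values of the products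
  have e1 : ∀ θ : ℕ → UnitAddCircle, ∏ p ∈ S, g p (θ p) = ∏ p ∈ Nat.primesBelow y, ib η (θ p) := by
    intro θ
    rw [hsplit]
    have h1 : ∏ p ∈ S.filter (fun p => y ≤ p), g p (θ p) = 1 := by
      refine Finset.prod_eq_one fun p hp => ?_
      simp only [hg, if_neg (hhigh p hp).1]
    rw [h1, mul_one]
    refine Finset.prod_congr rfl fun p hp => ?_
    simp only [hg, if_pos (hlow p hp)]
  have e2 : ∀ θ : ℕ → UnitAddCircle, ∏ p ∈ S, g' p (θ p) =
      (∏ p ∈ Nat.primesBelow y, ib η (θ p)) *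
        (∏ p ∈ S.filter (fun p => y ≤ p), lf (fun _ : Fin N => (p : ℂ)⁻¹) (θ p)) ^ (-ρ) := by
    intro θ
    rw [hsplit, ← Real.finset_prod_rpow]
    · congr 1
      · refine Finset.prod_congr rfl fun p hp => ?_
        simp only [hg', if_pos (hlow p hp)]
      · refine Finset.prod_congr rfl fun p hp => ?_
        simp only [hg', if_neg (hhigh p hp).1, if_pos (hhigh p hp).2]
    · intro p hp
      exact (lf_pos (hβ2 p (hhigh p hp).2) _).le
  have hRP : ∀ θ, ‖RP w α x θ‖ = (∏ p ∈ Nat.primesBelow y, lf (fun _ : Fin N => (p : ℂ)⁻¹) (θ p)) *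
      ∏ p ∈ S.filter (fun p => y ≤ p), lf (fun _ : Fin N => (p : ℂ)⁻¹) (θ p) := by
    intro θ
    rw [norm_RP hα, ← hsplit (fun p => lf (fun _ : Fin N => (p : ℂ)⁻¹) (θ p))]
    refine Finset.prod_congr rfl fun p hp => ?_
    congr 1
    funext j
    exact hbt p (Nat.prime_of_mem_primesBelow hp) j
  -- the pointwise inequality
  have hpt : ∀ θ, ∏ p ∈ S, g p (θ p) - Real.exp (-(κ * ρ)) * ∏ p ∈ S, g' p (θ p) ≤
      f (RP w α x θ) := by
    intro θ
    rw [e1, e2]
    set t := ∏ p ∈ S.filter (fun p => y ≤ p), lf (fun _ : Fin N => (p : ℂ)⁻¹) (θ p) with ht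
    have ht0 : 0 < t := Finset.prod_pos fun p hp => lf_pos (hβ2 p (hhigh p hp).2) _
    by_cases hA : ∀ p ∈ Nat.primesBelow y, ‖θ p‖ ≤ η
    · have h1 : ∏ p ∈ Nat.primesBelow y, ib η (θ p) = 1 := by
        exact Finset.prod_eq_one fun p hp => ib_pos (hA p hp)
      rw [h1, one_mul]
      rcases le_or_gt (Real.exp (-κ)) t with h2 | h2
      · have h3 : 1 ≤ f (RP w α x θ) := by
          refine hf1 _ ?_
          rw [hRP, mul_comm]
          have h4 := prod_low (N := N) hy hη0.le hA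
          refine mul_le_mul h4 h2 (Real.exp_pos _).le ?_
          exact (Finset.prod_pos fun p hp =>
            lf_pos (hβ2 p (Nat.prime_of_mem_primesBelow hp)) _).le
        have h4 : 0 ≤ Real.exp (-(κ * ρ)) * t ^ (-ρ) := by positivity
        linarith
      · have h3 : 1 ≤ Real.exp (-(κ * ρ)) * t ^ (-ρ) := by
          have h4 : (Real.exp (-κ)) ^ (-ρ) ≤ t ^ (-ρ) :=
            Real.rpow_le_rpow_of_nonpos ht0 h2.le (by linarith)
          rw [← Real.exp_mul] at h4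
          calc (1 : ℝ) = Real.exp (-(κ * ρ)) * Real.exp (-κ * -ρ) := by
                rw [← Real.exp_add]
                simp
            _ ≤ _ := by gcongr
        have := hf0 (RP w α x θ)
        linarith
    · push Not at hA
      obtain ⟨p, hp, hpη⟩ := hA
      have h1 : ∏ p ∈ Nat.primesBelow y, ib η (θ p) = 0 := by
        exact Finset.prod_eq_zero hp (ib_zero hpη)
      rw [h1, zero_mul, mul_zero, sub_zero]
      exact hf0 _
  -- integrals
  have hgi : Integrable (fun θ : ℕ → UnitAddCircle => ∏ p ∈ S, g p (θ p)) Pr := by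
    refine bdd_int (Finset.measurable_prod _ fun p _ => (hgm p).comp (measurable_pi_apply p))
      (C := 1) fun θ => ?_
    rw [e1, abs_of_nonneg (Finset.prod_nonneg fun p _ => ib_nonneg _ _)]
    exact Finset.prod_le_one (fun p _ => ib_nonneg _ _) fun p _ => ib_le_one _ _
  have hgi' : Integrable (fun θ : ℕ → UnitAddCircle => ∏ p ∈ S, g' p (θ p)) Pr := by
    have hcont : Continuous fun θ : ℕ → UnitAddCircle =>
        (∏ p ∈ S.filter (fun p => y ≤ p), lf (fun _ : Fin N => (p : ℂ)⁻¹) (θ p)) ^ (-ρ) := by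
      refine Continuous.rpow_const (continuous_finset_prod _ fun p hp =>
        (lf_continuous (hβ2 p (hhigh p hp).2)).comp (continuous_apply p)) fun θ => Or.inl ?_
      exact (Finset.prod_pos fun p hp => lf_pos (hβ2 p (hhigh p hp).2) _).ne'
    obtain ⟨C, hC⟩ := isCompact_univ.exists_bound_of_continuousOn hcont.continuousOn
    refine bdd_int (Finset.measurable_prod _ fun p _ => (hgm' p).comp (measurable_pi_apply p))
      (C := C) fun θ => ?_
    rw [e2, abs_mul]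
    have h1 := hC θ (Set.mem_univ _)
    rw [Real.norm_eq_abs] at h1
    have h2 : |∏ p ∈ Nat.primesBelow y, ib η (θ p)| ≤ 1 := by
      rw [abs_of_nonneg (Finset.prod_nonneg fun p _ => ib_nonneg _ _)]
      exact Finset.prod_le_one (fun p _ => ib_nonneg _ _) fun p _ => ib_le_one _ _
    calc _ ≤ 1 * C := mul_le_mul h2 h1 (abs_nonneg _) zero_le_one
      _ = C := one_mul C
  have h1 : (∫ θ : ℕ → UnitAddCircle, ∏ p ∈ S, g p (θ p) ∂Pr) -
      Real.exp (-(κ * ρ)) * (∫ θ : ℕ → UnitAddCircle, ∏ p ∈ S, g' p (θ p) ∂Pr) ≤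
      ∫ θ, f (RP w α x θ) ∂Pr := by
    rw [← integral_const_mul, ← integral_sub hgi (hgi'.const_mul _)]
    exact integral_mono (hgi.sub (hgi'.const_mul _)) (cont_int (cont_test hf hα x)) hpt
  rw [prod_int x hgm, prod_int x hgm'] at h1
  -- the probabilities
  set m := (Nat.primesBelow y).card with hm
  have hmy : m ≤ y := by
    rw [hm, Nat.primesBelow]
    refine (Finset.card_filter_le _ _).trans ?_
    rw [Finset.card_range]
  have e3 : ∏ p ∈ S, ∫ u, g p u ∂hc = (2 * η) ^ m := by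
    rw [hsplit]
    have h2 : ∏ p ∈ S.filter (fun p => y ≤ p), ∫ u, g p u ∂hc = 1 := by
      refine Finset.prod_eq_one fun p hp => ?_
      simp only [hg, if_neg (hhigh p hp).1]
      simp
    rw [h2, mul_one, hm, ← Finset.prod_const]
    refine Finset.prod_congr rfl fun p hp => ?_
    simp only [hg, if_pos (hlow p hp)]
    exact ib_int hη0.le hη1
  have e4 : ∏ p ∈ S, ∫ u, g' p u ∂hc ≤ (2 * η) ^ m * Real.exp (4 * ρ ^ 2 * N ^ 2 / y) := by
    rw [hsplit]
    have h2 : ∏ p ∈ Nat.primesBelow y, ∫ u, g' p u ∂hc = (2 * η) ^ m := by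
      rw [hm, ← Finset.prod_const]
      refine Finset.prod_congr rfl fun p hp => ?_
      simp only [hg', if_pos (hlow p hp)]
      exact ib_int hη0.le hη1
    rw [h2]
    refine mul_le_mul_of_nonneg_left ?_ (by positivity)
    have h3 : ∀ p ∈ S.filter (fun p => y ≤ p), ∫ u, g' p u ∂hc ≤
        Real.exp (2 * ρ ^ 2 * N ^ 2 * ((p : ℝ) ^ 2)⁻¹) := by
      intro p hp
      have hp' := (hhigh p hp).2
      have hyp : (y : ℝ) ≤ p := by
        rw [Finset.mem_filter] at hp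
        exact_mod_cast hp.2
      have hp0 : (0 : ℝ) < p := by exact_mod_cast hp'.pos
      have h3 := lf_moment (N := N) (β := fun _ => (p : ℂ)⁻¹) (ρ := -ρ) (r := (p : ℝ)⁻¹)
        (hinv p hp') (hβ p hp') (by positivity) (by
          rw [abs_neg, abs_of_pos (by linarith), ← mul_assoc, ← div_eq_mul_inv, div_le_one hp0]
          linarith)
      simp only [hg', if_neg (hhigh p hp).1, if_pos hp']
      refine h3.trans (Real.exp_le_exp.2 ?_)
      rw [abs_neg, abs_of_pos (by linarith), neg_sq, inv_pow]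
      have h5 : ρ * N ≤ ρ ^ 2 * N ^ 2 := by
        have : 1 ≤ ρ * N := by nlinarith
        nlinarith
      have h6 : 0 ≤ ((p : ℝ) ^ 2)⁻¹ := by positivity
      nlinarith
    have hpos : ∀ p ∈ S.filter (fun p => y ≤ p), 0 ≤ ∫ u, g' p u ∂hc := fun p hp =>
      integral_nonneg fun u => by
        simp only [hg', if_neg (hhigh p hp).1, if_pos (hhigh p hp).2]
        exact (Real.rpow_pos_of_pos (lf_pos (hβ2 p (hhigh p hp).2) u) _).le
    calc ∏ p ∈ S.filter (fun p => y ≤ p), ∫ u, g' p u ∂hc ≤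
          ∏ p ∈ S.filter (fun p => y ≤ p), Real.exp (2 * ρ ^ 2 * N ^ 2 * ((p : ℝ) ^ 2)⁻¹) :=
          Finset.prod_le_prod hpos h3
      _ = Real.exp (2 * ρ ^ 2 * N ^ 2 * ∑ p ∈ S.filter (fun p => y ≤ p), ((p : ℝ) ^ 2)⁻¹) := by
          rw [← Real.exp_sum, Finset.mul_sum]
      _ ≤ Real.exp (2 * ρ ^ 2 * N ^ 2 * (2 / y)) := by
          refine Real.exp_le_exp.2 ?_
          have := sum_tail (x := x) hy
          gcongr
      _ = _ := by
          congr 1
          ring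
  rw [e3] at h1
  have h2 : Real.exp (-(κ * ρ)) * ∏ p ∈ S, ∫ u, g' p u ∂hc ≤ (2 * η) ^ m / 2 := by
    calc Real.exp (-(κ * ρ)) * ∏ p ∈ S, ∫ u, g' p u ∂hc ≤
          Real.exp (-(κ * ρ)) * ((2 * η) ^ m * Real.exp (4 * ρ ^ 2 * N ^ 2 / y)) := by gcongr
      _ = (Real.exp (-(κ * ρ)) * Real.exp (4 * ρ ^ 2 * N ^ 2 / y)) * (2 * η) ^ m := by ring
      _ ≤ (1 / 2) * (2 * η) ^ m := by gcongr
      _ = _ := by ring
  have h3 : (2 * η) ^ y ≤ (2 * η) ^ m :=
    pow_le_pow_of_le_one (by positivity) (by linarith) hmy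
  linarith

end Pool.Agent.Q255.SG
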