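import Pool.Agent.Q255.SG.LV3

/-! # Large values on the edge: the exact rate -/

set_option autoImplicit false

namespace Pool.Agent.Q255.SG

open Finset MeasureTheory Filter Topology Pool.Agent.Q255.SA Pool.Agent.TH109.CG

variable {N : ℕ} {w : ℝ}

/-- **Lower bound for the large values** when all eigenvalues are aligned. -/
theorem lower_tail (N : ℕ) (hN : 1 ≤ N) {δ : ℝ} (hδ0 : 0 < δ) (hδ1 : δ < 1) :
    ∀ᶠ u : ℝ in atTop, ∀ (w : ℝ) (α : ℕ → Fin N → ℂ), Bd w α →
      (∀ p : ℕ, p.Prime → ∀ j, bt w (α p j) p = (p : ℂ)⁻¹) →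
      ∀ L : (ℕ → UnitAddCircle) → ℂ, TendstoInMeasure Pr (fun x => RP w α x) atTop L →
      ∀ f : ℂ → ℝ, ContinuousOn f {0}ᶜ → (∀ z, 0 ≤ f z) → (∀ z, f z ≤ 1) →
      (∀ z, (eg * ((1 + δ / 8) * u)) ^ N ≤ ‖z‖ → f z = 1) →
      2 * Real.exp (-Real.exp ((1 + δ) * u)) ≤ ∫ θ, f (L θ) ∂Pr := by
  have hN1 : (1 : ℝ) ≤ N := by exact_mod_cast hN
  have hN0 : (0 : ℝ) < N := by linarith
  have hπ := Real.pi_pos
  set κ : ℝ := N * Real.log ((1 + δ / 4) / (1 + δ / 8)) with hκ
  have hκ0 : 0 < κ := by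
    have h1 : 1 < (1 + δ / 4) / (1 + δ / 8) := by
      rw [one_lt_div (by positivity)]
      linarith
    have := Real.log_pos h1
    positivity
  have hκe : Real.exp (-κ) = ((1 + δ / 8) / (1 + δ / 4)) ^ N := by
    rw [hκ, ← mul_neg, ← Real.log_inv, inv_div, mul_comm, Real.exp_mul,
      Real.exp_log (by positivity), Real.rpow_natCast]
  set ρ : ℝ := max 1 (2 / κ) with hρ
  have hρ1 : 1 ≤ ρ := le_max_left _ _
  have hρκ : 2 ≤ κ * ρ := by
    have h1 : 2 / κ ≤ ρ := le_max_right _ _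
    rw [div_le_iff₀ hκ0] at h1
    linarith
  set E0 : ℝ := Real.log ((1 + 13 * δ / 32) / (1 + δ / 4)) with hE0
  have hE00 : 0 < E0 := by
    refine Real.log_pos ?_
    rw [one_lt_div (by positivity)]
    linarith
  have hE0e : Real.exp (-E0) = (1 + δ / 4) / (1 + 13 * δ / 32) := by
    rw [hE0, ← Real.log_inv, inv_div, Real.exp_log (by positivity)]
  have hyT : Tendsto (fun u : ℝ => ⌈Real.exp ((1 + δ / 2) * u)⌉₊) atTop atTop :=
    tendsto_nat_ceil_atTop.comp (Real.tendsto_exp_atTop.comp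
      (tendsto_id.const_mul_atTop (by linarith)))
  have e1 : ∀ᶠ u : ℝ in atTop, eg * (1 - δ / 16) < Mp ⌈Real.exp ((1 + δ / 2) * u)⌉₊ /
      Real.log ⌈Real.exp ((1 + δ / 2) * u)⌉₊ :=
    (mert.comp hyT).eventually_const_lt (by
      have := eg_pos
      nlinarith)
  have e2 : ∀ᶠ u : ℝ in atTop, ⌈4 * ρ ^ 2 * N ^ 2 + ρ * N⌉₊ + 3 ≤ ⌈Real.exp ((1 + δ / 2) * u)⌉₊ :=
    hyT.eventually_ge_atTop _
  have e3 : ∀ᶠ u : ℝ in atTop, 4 * Real.pi * (1 / u ^ 2) * (2 + 2 * u) ≤ E0 := by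
    have h1 : Tendsto (fun u : ℝ => 8 * Real.pi * (1 / u) + 8 * Real.pi * ((1 / u) * (1 / u)))
        atTop (𝓝 (8 * Real.pi * 0 + 8 * Real.pi * (0 * 0))) := by
      have h2 : Tendsto (fun u : ℝ => 1 / u) atTop (𝓝 0) := by
        simpa using tendsto_inv_atTop_zero (𝕜 := ℝ)
      exact (h2.const_mul _).add ((h2.mul h2).const_mul _)
    rw [mul_zero, mul_zero, mul_zero, add_zero] at h1
    filter_upwards [h1.eventually_le_const hE00, eventually_gt_atTop 0] with u hu hu0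
    refine le_trans (le_of_eq ?_) hu
    field_simp
    ring
  have e4 : ∀ᶠ u : ℝ in atTop, 4 * u + 2 ≤ Real.exp (δ / 2 * u) := by
    have h1 : Tendsto (fun u : ℝ => Real.exp (δ / 2 * u) / (4 * u + 2)) atTop atTop := by
      have h2 : Tendsto (fun u : ℝ => Real.exp (δ / 2 * u) / (δ / 2 * u) ^ 1) atTop atTop :=
        (Real.tendsto_exp_div_pow_atTop 1).comp (tendsto_id.const_mul_atTop (by positivity))
      refine tendsto_atTop_mono' atTop ?_ (h2.const_mul_atTop (show 0 < δ / 12 by positivity))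
      filter_upwards [eventually_ge_atTop 1] with u hu
      rw [pow_one]
      have e : δ / 12 * (Real.exp (δ / 2 * u) / (δ / 2 * u)) = Real.exp (δ / 2 * u) / (6 * u) := by
        field_simp
        norm_num
      rw [e]
      refine div_le_div_of_nonneg_left (Real.exp_pos _).le (by linarith) (by linarith)
    filter_upwards [h1.eventually_ge_atTop 1, eventually_gt_atTop 0] with u hu hu0
    rwa [le_div_iff₀ (by positivity), one_mul] at hu
  filter_upwards [e1, e2, e3, e4, eventually_ge_atTop 2] with u h1 h2 h3 h4 hu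
    w α hα hbt L hL f hf hf0 hf1 hfz
  have hu0 : 0 < u := by linarith
  set y := ⌈Real.exp ((1 + δ / 2) * u)⌉₊ with hy
  have hyge : Real.exp ((1 + δ / 2) * u) ≤ y := Nat.le_ceil _
  have hyle : (y : ℝ) ≤ 2 * Real.exp ((1 + δ / 2) * u) := by
    have h5 := (Nat.ceil_lt_add_one (Real.exp_pos ((1 + δ / 2) * u)).le).le
    have h6 : 1 ≤ Real.exp ((1 + δ / 2) * u) := Real.one_le_exp (by positivity)
    linarith
  have hy3 : (3 : ℝ) ≤ y := by exact_mod_cast (by omega : 3 ≤ y)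
  have hy0 : (0 : ℝ) < y := by linarith
  have hyK : 4 * ρ ^ 2 * N ^ 2 + ρ * N ≤ y := by
    have h5 := Nat.le_ceil (4 * ρ ^ 2 * (N : ℝ) ^ 2 + ρ * N)
    have h6 : ((⌈4 * ρ ^ 2 * (N : ℝ) ^ 2 + ρ * N⌉₊ : ℕ) : ℝ) ≤ y := by
      exact_mod_cast (by omega : ⌈4 * ρ ^ 2 * (N : ℝ) ^ 2 + ρ * N⌉₊ ≤ y)
    linarith
  have hly : 0 < Real.log y := Real.log_pos (by linarith)
  have hlyl : (1 + δ / 2) * u ≤ Real.log y := by
    rw [Real.le_log_iff_exp_le hy0]
    exact hyge
  have hlyu : Real.log y ≤ 1 + 2 * u := by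
    have h5 := Real.log_le_log hy0 hyle
    rw [Real.log_mul (by norm_num) (Real.exp_pos _).ne', Real.log_exp] at h5
    have h6 : Real.log 2 ≤ 1 := by
      have := Real.log_two_lt_d9
      linarith
    nlinarith
  set η : ℝ := 1 / u ^ 2 with hη
  have hη0 : 0 < η := by positivity
  have hη1 : η ≤ 1 / 2 := by
    rw [hη]
    refine one_div_le_one_div_of_le (by norm_num) ?_
    nlinarith
  have hE : 4 * Real.pi * η * (1 + Real.log y) ≤ E0 := by
    refine le_trans (mul_le_mul_of_nonneg_left ?_ (by positivity)) h3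
    linarith
  -- the size of the product
  have hM : eg * ((1 + δ / 4) * u) ≤
      Mp y * Real.exp (-(4 * Real.pi * η * (1 + Real.log y))) := by
    have h5 : eg * (1 - δ / 16) * Real.log y ≤ Mp y := by
      rw [lt_div_iff₀ hly] at h1
      exact h1.le
    have h6 : Real.exp (-E0) ≤ Real.exp (-(4 * Real.pi * η * (1 + Real.log y))) :=
      Real.exp_le_exp.2 (by linarith)
    have hege := eg_pos
    have hδ16 : 0 < 1 - δ / 16 := by linarith
    calc eg * ((1 + δ / 4) * u) = eg * u * ((1 + 13 * δ / 32) * Real.exp (-E0)) := by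
          rw [hE0e]
          field_simp
      _ ≤ eg * u * (((1 - δ / 16) * (1 + δ / 2)) * Real.exp (-E0)) := by
          have h7 : 1 + 13 * δ / 32 ≤ (1 - δ / 16) * (1 + δ / 2) := by nlinarith
          gcongr
      _ = eg * (1 - δ / 16) * ((1 + δ / 2) * u) * Real.exp (-E0) := by ring
      _ ≤ eg * (1 - δ / 16) * Real.log y * Real.exp (-E0) := by gcongr
      _ ≤ Mp y * Real.exp (-(4 * Real.pi * η * (1 + Real.log y))) := by
          refine mul_le_mul h5 h6 (Real.exp_pos _).le (Mp_pos y).le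
  have hpart : ∀ x : ℕ, y ≤ x → (2 * η) ^ y / 2 ≤ ∫ θ, f (RP w α x θ) ∂Pr := by
    intro x hx
    refine low_part hN hα hbt (κ := κ) (ρ := ρ) (by omega : 1 ≤ y) hη0 hη1 hρ1 (by
      have : 0 ≤ 4 * ρ ^ 2 * (N : ℝ) ^ 2 := by positivity
      linarith) ?_ hf hf0 ?_ hx
    · have h5 : 4 * ρ ^ 2 * N ^ 2 / y ≤ 1 := by
        rw [div_le_one hy0]
        have : 0 ≤ ρ * (N : ℝ) := by positivity
        linarith
      rw [← Real.exp_add]
      calc Real.exp (-(κ * ρ) + 4 * ρ ^ 2 * N ^ 2 / y) ≤ Real.exp (-1) :=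
            Real.exp_le_exp.2 (by linarith)
        _ ≤ 1 / 2 := by
            rw [Real.exp_neg, one_div]
            refine inv_anti₀ (by norm_num) ?_
            have := Real.add_one_le_exp (1 : ℝ)
            linarith
    · intro z hz
      refine (hfz z (le_trans ?_ hz)).ge
      rw [hκe, ← mul_pow]
      refine pow_le_pow_left₀ ?_ ?_ N
      · have := eg_pos
        positivity
      · calc eg * ((1 + δ / 8) * u) = (1 + δ / 8) / (1 + δ / 4) * (eg * ((1 + δ / 4) * u)) := by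
              field_simp
          _ ≤ _ := by gcongr
  obtain ⟨ns, hns, hlim⟩ := test_lim hα hL hf (fun z => by
    rw [abs_of_nonneg (hf0 z)]
    exact hf1 z)
  have h5 : (2 * η) ^ y / 2 ≤ ∫ θ, f (L θ) ∂Pr := by
    refine ge_of_tendsto hlim ?_
    filter_upwards [eventually_ge_atTop y] with n hn
    exact hpart (ns n) (hn.trans (hns.id_le n))
  refine le_trans ?_ h5
  have h6 : Real.exp (-(2 * u)) ≤ 2 * η := by
    rw [hη, Real.exp_neg]
    have h7 : u + 1 ≤ Real.exp u := Real.add_one_le_exp u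
    have h8 : Real.exp (2 * u) = Real.exp u ^ 2 := by
      rw [← Real.exp_nat_mul]
      norm_num
    rw [h8, mul_one_div, inv_eq_one_div, div_le_div_iff₀ (by positivity) (by positivity)]
    nlinarith
  have h7 : Real.exp (-(2 * u * y)) ≤ (2 * η) ^ y := by
    have h8 := pow_le_pow_left₀ (Real.exp_pos _).le h6 y
    rw [← Real.exp_nat_mul] at h8
    refine le_trans (le_of_eq ?_) h8
    congr 1
    ring
  have h8 : 2 * u * y + 2 ≤ Real.exp ((1 + δ) * u) := by
    have h9 : Real.exp ((1 + δ) * u) = Real.exp (δ / 2 * u) * Real.exp ((1 + δ / 2) * u) := by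
      rw [← Real.exp_add]
      congr 1
      ring
    rw [h9]
    have h10 : 1 ≤ Real.exp ((1 + δ / 2) * u) := Real.one_le_exp (by positivity)
    have h11 : (4 * u + 2) * Real.exp ((1 + δ / 2) * u) ≤
        Real.exp (δ / 2 * u) * Real.exp ((1 + δ / 2) * u) := by gcongr
    nlinarith
  have h9 : 4 * Real.exp (-2) ≤ 1 := by
    rw [Real.exp_neg]
    have h10 : (2 : ℝ) + 1 + 1 ≤ Real.exp 2 := by
      have := Real.quadratic_le_exp_of_nonneg (x := 2) (by norm_num)
      linarith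
    have h11 := Real.exp_pos 2
    rw [← div_eq_mul_inv, div_le_one h11]
    linarith
  calc 2 * Real.exp (-Real.exp ((1 + δ) * u)) ≤ 2 * Real.exp (-(2 * u * y) + -2) := by
        gcongr
        linarith
    _ = (4 * Real.exp (-2)) * Real.exp (-(2 * u * y)) / 2 := by
        rw [Real.exp_add]
        ring
    _ ≤ 1 * (2 * η) ^ y / 2 := by gcongr
    _ = _ := by ring

/-- a continuous step function of the modulus -/
noncomputable def cl (s t : ℝ) (z : ℂ) : ℝ := max 0 (min 1 ((‖z‖ - s) / (t - s)))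

theorem cl_cont (s t : ℝ) : Continuous (cl s t) := by
  unfold cl
  fun_prop

theorem cl_nonneg (s t : ℝ) (z : ℂ) : 0 ≤ cl s t z := le_max_left _ _

theorem cl_le_one (s t : ℝ) (z : ℂ) : cl s t z ≤ 1 := by
  unfold cl
  exact max_le zero_le_one (min_le_left _ _)

theorem cl_zero {s t : ℝ} (h : s < t) {z : ℂ} (hz : ‖z‖ ≤ s) : cl s t z = 0 := by
  unfold cl
  rw [max_eq_left]
  refine (min_le_right _ _).trans ?_
  exact div_nonpos_of_nonpos_of_nonneg (by linarith) (by linarith)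

theorem cl_one {s t : ℝ} (h : s < t) {z : ℂ} (hz : t ≤ ‖z‖) : cl s t z = 1 := by
  unfold cl
  rw [min_eq_left, max_eq_right zero_le_one]
  rw [le_div_iff₀ (by linarith)]
  linarith

theorem avg_test {l : ℝ → ℂ} {f : ℂ → ℝ} {a τ : ℝ} (hτ : 0 < τ)
    (hi : IntervalIntegrable (fun t => f (l t)) volume a (a + τ)) :
    IntegrableOn (fun t => f (l t)) (Set.Icc a (a + τ)) ∧
      τ⁻¹ * (∫ t in a..(a + τ), f (l t)) = τ⁻¹ * ∫ t in Set.Icc a (a + τ), f (l t) := by
  constructor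
  · rwa [intervalIntegrable_iff_integrableOn_Icc_of_le (by linarith)] at hi
  · rw [intervalIntegral.integral_of_le (by linarith), integral_Icc_eq_integral_Ioc]

/-- **The exact rate of the large values on the edge.** -/
theorem large_values (N : ℕ) (hN : 1 ≤ N) {δ : ℝ} (hδ0 : 0 < δ) (hδ1 : δ < 1) :
    ∀ᶠ u : ℝ in atTop, ∃ T0 : ℝ, 0 < T0 ∧ ∀ (w : ℝ) (α : ℕ → Fin N → ℂ) (hα : Bd w α) (T : Set ℝ),
      volume T = 0 → ∀ l : ℝ → ℂ, Lim (AP (qAD w α hα)) T l → ∀ a τ : ℝ, T0 ≤ τ →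
      volume {t ∈ Set.Icc a (a + τ) | (eg * u) ^ N < ‖l t‖} ≤
        ENNReal.ofReal (τ * Real.exp (-Real.exp ((1 - δ) * u))) ∧
      ((∀ p : ℕ, p.Prime → ∀ j, bt w (α p j) p = (p : ℂ)⁻¹) →
        ENNReal.ofReal (τ * Real.exp (-Real.exp ((1 + δ) * u))) ≤
          volume {t ∈ Set.Icc a (a + τ) | (eg * u) ^ N < ‖l t‖}) := by
  have hege := eg_pos
  filter_upwards [upper_tail N hN hδ0 hδ1, lower_tail N hN hδ0 hδ1, eventually_gt_atTop 0]
    with u hup hlo hu
  set s1 : ℝ := (eg * ((1 - δ / 4) * u)) ^ N with hs1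
  set s2 : ℝ := (eg * u) ^ N with hs2
  set s3 : ℝ := (eg * ((1 + δ / 8) * u)) ^ N with hs3
  have hN' : N ≠ 0 := by omega
  have hs12 : s1 < s2 := by
    rw [hs1, hs2]
    refine pow_lt_pow_left₀ ?_ ?_ hN'
    · have : 0 < eg * u := by positivity
      nlinarith
    · have : 0 < 1 - δ / 4 := by linarith
      positivity
  have hs23 : s2 < s3 := by
    rw [hs2, hs3]
    refine pow_lt_pow_left₀ ?_ ?_ hN'
    · have : 0 < eg * u := by positivity
      nlinarith
    · positivity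
  set ε1 := Real.exp (-Real.exp ((1 - δ) * u)) / 2 with hε1
  set ε2 := Real.exp (-Real.exp ((1 + δ) * u)) with hε2
  have hgr : ∀ s t : ℝ, ∀ z : ℂ, z ≠ 0 → |cl s t z| ≤ gr 0 z := by
    intro s t z hz
    rw [abs_of_nonneg (cl_nonneg _ _ _)]
    have := cl_le_one s t z
    have := one_le_gr le_rfl hz
    linarith
  obtain ⟨T1, hT1, h1⟩ := bohr_jessen N (q := 0) le_rfl (by simp) (cl_cont s1 s2).continuousOn
    (hgr s1 s2) (show 0 < ε1 by positivity)
  obtain ⟨T2, hT2, h2⟩ := bohr_jessen N (q := 0) le_rfl (by simp) (cl_cont s2 s3).continuousOn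
    (hgr s2 s3) (show 0 < ε2 by positivity)
  refine ⟨max T1 T2, by positivity, fun w α hα T hT l hl a τ hτ => ?_⟩
  have hτ1 : T1 ≤ τ := (le_max_left _ _).trans hτ
  have hτ2 : T2 ≤ τ := (le_max_right _ _).trans hτ
  have hτ0 : 0 < τ := hT1.trans_le hτ1
  obtain ⟨L, _, _, hL⟩ := exists_prod hα
  have hset : {t ∈ Set.Icc a (a + τ) | s2 < ‖l t‖} = {t | s2 < ‖l t‖} ∩ Set.Icc a (a + τ) := by
    ext t
    constructor
    · rintro ⟨h3, h4⟩
      exact ⟨h4, h3⟩
    · rintro ⟨h3, h4⟩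
      exact ⟨h4, h3⟩
  have hfin : volume.restrict (Set.Icc a (a + τ)) Set.univ ≠ ⊤ := by
    rw [Measure.restrict_apply_univ, Real.volume_Icc]
    exact ENNReal.ofReal_ne_top
  constructor
  · obtain ⟨hi, hd⟩ := (h1 w α hα T hT l hl L hL).2 a τ hτ1
    obtain ⟨hi', he⟩ := avg_test hτ0 hi
    rw [he] at hd
    have hE := hup w α hα L hL (cl s1 s2) (cl_cont s1 s2).continuousOn (cl_nonneg s1 s2)
      (cl_le_one s1 s2) (fun z hz => cl_zero hs12 hz)
    have h3 : τ⁻¹ * ∫ t in Set.Icc a (a + τ), cl s1 s2 (l t) ≤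
        Real.exp (-Real.exp ((1 - δ) * u)) := by
      have := (abs_le.1 hd).2
      linarith
    have h4 := mul_meas_ge_le_integral_of_nonneg (μ := volume.restrict (Set.Icc a (a + τ)))
      (f := fun t => cl s1 s2 (l t)) (Eventually.of_forall fun t => cl_nonneg _ _ _) hi' 1
    rw [one_mul] at h4
    have h5 : volume {t ∈ Set.Icc a (a + τ) | s2 < ‖l t‖} ≤
        volume.restrict (Set.Icc a (a + τ)) {t | 1 ≤ cl s1 s2 (l t)} := by
      rw [Measure.restrict_apply' measurableSet_Icc, hset]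
      refine measure_mono (Set.inter_subset_inter_left _ fun t ht => ?_)
      exact (cl_one hs12 (le_of_lt ht)).ge
    refine h5.trans ?_
    have h6 : volume.restrict (Set.Icc a (a + τ)) {t | 1 ≤ cl s1 s2 (l t)} ≠ ⊤ :=
      ne_top_of_le_ne_top hfin (measure_mono (Set.subset_univ _))
    rw [← ENNReal.ofReal_toReal h6]
    refine ENNReal.ofReal_le_ofReal ?_
    rw [inv_mul_le_iff₀ hτ0] at h3
    exact h4.trans h3
  · intro hbt
    obtain ⟨hi, hd⟩ := (h2 w α hα T hT l hl L hL).2 a τ hτ2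
    obtain ⟨hi', he⟩ := avg_test hτ0 hi
    rw [he] at hd
    have hE := hlo w α hα hbt L hL (cl s2 s3) (cl_cont s2 s3).continuousOn (cl_nonneg s2 s3)
      (cl_le_one s2 s3) (fun z hz => cl_one hs23 hz)
    have h3 : ε2 ≤ τ⁻¹ * ∫ t in Set.Icc a (a + τ), cl s2 s3 (l t) := by
      have := (abs_le.1 hd).1
      linarith
    have h4 : ENNReal.ofReal (∫ t in Set.Icc a (a + τ), cl s2 s3 (l t)) ≤
        volume.restrict (Set.Icc a (a + τ)) {t | s2 < ‖l t‖} := by
      refine integral_le_measure (fun t _ => cl_le_one _ _ _) fun t ht => ?_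
      rw [Set.mem_compl_iff, Set.mem_setOf_eq, not_lt] at ht
      exact (cl_zero hs23 ht).le
    rw [Measure.restrict_apply' measurableSet_Icc, ← hset] at h4
    refine le_trans (ENNReal.ofReal_le_ofReal ?_) h4
    rw [← div_eq_inv_mul, le_div_iff₀ hτ0] at h3
    linarith

end Pool.Agent.Q255.SG
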