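import Pool.Agent.Q255.SG.Pt

/-! # Comparison of integrals of test functions -/

set_option autoImplicit false

namespace Pool.Agent.Q255.SG

open Filter Topology MeasureTheory

variable {X : Type*} [MeasurableSpace X] {μ : Measure X}

theorem comp_aemeas {f : ℂ → ℝ} (hf : ContinuousOn f {0}ᶜ) {u : X → ℂ} (hu : AEMeasurable u μ)
    (hu0 : ∀ᵐ x ∂μ, u x ≠ 0) : AEMeasurable (fun x => f (u x)) μ := by
  classical
  have h1 : Measurable (({0}ᶜ : Set ℂ).piecewise f (fun _ => 0)) :=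
    hf.measurable_piecewise continuousOn_const (measurableSet_singleton _).compl
  refine (h1.comp_aemeasurable hu).congr ?_
  filter_upwards [hu0] with x hx
  show ({0}ᶜ : Set ℂ).piecewise f (fun _ => 0) (u x) = f (u x)
  rw [Set.piecewise_eq_of_mem]
  exact hx

theorem growth_up {q q' : ℝ} (hq : 0 ≤ q) (hqq : q ≤ q') {z : ℂ} (hz : z ≠ 0) :
    gr q z ≤ 2 * gr q' z := by
  have h1 : mx z ^ q ≤ mx z ^ q' := Real.rpow_le_rpow_of_exponent_le (one_le_mx hz) hqq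
  have h2 := gr_le hq hz
  have h3 : mx z ^ q' ≤ gr q' z := le_gr hz
  linarith

theorem gr_measurable (q : ℝ) : Measurable (gr q) := by
  unfold gr
  fun_prop

theorem dd_measurable : Measurable fun z : ℂ × ℂ => dd z.1 z.2 := by
  unfold dd
  fun_prop

theorem test_integrable {q q' : ℝ} (hq : 0 ≤ q) (hqq : q < q') {f : ℂ → ℝ}
    (hf : ContinuousOn f {0}ᶜ) (hg : ∀ z, z ≠ 0 → |f z| ≤ gr q z) {u : X → ℂ}
    (hu : AEMeasurable u μ) (hu0 : ∀ᵐ x ∂μ, u x ≠ 0) {A : ℝ}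
    (hA : ∫⁻ x, ENNReal.ofReal (gr q' (u x)) ∂μ ≤ ENNReal.ofReal A) :
    Integrable (fun x => f (u x)) μ := by
  refine ⟨(comp_aemeas hf hu hu0).aestronglyMeasurable, ?_⟩
  rw [hasFiniteIntegral_iff_norm]
  have h1 : ∫⁻ x, ENNReal.ofReal ‖f (u x)‖ ∂μ ≤ ∫⁻ x, 2 * ENNReal.ofReal (gr q' (u x)) ∂μ := by
    refine lintegral_mono_ae ?_
    filter_upwards [hu0] with x hx
    rw [show (2 : ENNReal) = ENNReal.ofReal 2 by norm_num, ← ENNReal.ofReal_mul (by norm_num)]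
    refine ENNReal.ofReal_le_ofReal ?_
    rw [Real.norm_eq_abs]
    exact (hg _ hx).trans (growth_up hq hqq.le hx)
  refine lt_of_le_of_lt h1 ?_
  rw [lintegral_const_mul' _ _ (by norm_num)]
  exact ENNReal.mul_lt_top (by norm_num) (lt_of_le_of_lt hA ENNReal.ofReal_lt_top)

theorem law_diff {q q' ε C : ℝ} (hq : 0 ≤ q) (hqq : q < q') (hε : 0 ≤ ε) (hC : 0 ≤ C)
    {f : ℂ → ℝ} (hf : ContinuousOn f {0}ᶜ) (hg : ∀ z, z ≠ 0 → |f z| ≤ gr q z)
    (hpt : ∀ z z' : ℂ, z ≠ 0 → z' ≠ 0 →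
      |f z - f z'| ≤ ε * (gr q' z + gr q' z') + C * dd z z' ^ 2)
    {u v : X → ℂ} (hu : AEMeasurable u μ) (hu0 : ∀ᵐ x ∂μ, u x ≠ 0)
    (hv : AEMeasurable v μ) (hv0 : ∀ᵐ x ∂μ, v x ≠ 0) {A B : ℝ} (hA0 : 0 ≤ A) (hB0 : 0 ≤ B)
    (hA : ∫⁻ x, ENNReal.ofReal (gr q' (u x)) ∂μ ≤ ENNReal.ofReal A)
    (hA' : ∫⁻ x, ENNReal.ofReal (gr q' (v x)) ∂μ ≤ ENNReal.ofReal A)
    (hB : ∫⁻ x, ENNReal.ofReal (dd (u x) (v x) ^ 2) ∂μ ≤ ENNReal.ofReal B) :
    |∫ x, f (u x) ∂μ - ∫ x, f (v x) ∂μ| ≤ ε * (2 * A) + C * B := by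
  have i1 := test_integrable hq hqq hf hg hu hu0 hA
  have i2 := test_integrable hq hqq hf hg hv hv0 hA'
  rw [← integral_sub i1 i2, ← Real.norm_eq_abs]
  refine (norm_integral_le_lintegral_norm _).trans ?_
  have m1 : AEMeasurable (fun x => ENNReal.ofReal (gr q' (u x))) μ :=
    ((gr_measurable q').comp_aemeasurable hu).ennreal_ofReal
  have m2 : AEMeasurable (fun x => ENNReal.ofReal (gr q' (v x))) μ :=
    ((gr_measurable q').comp_aemeasurable hv).ennreal_ofReal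
  have m3 : AEMeasurable (fun x => ENNReal.ofReal (gr q' (u x)) +
      ENNReal.ofReal (gr q' (v x))) μ := m1.add m2
  have m4 : AEMeasurable (fun x => ENNReal.ofReal ε * (ENNReal.ofReal (gr q' (u x)) +
      ENNReal.ofReal (gr q' (v x)))) μ := m3.const_mul _
  have h1 : ∫⁻ x, ENNReal.ofReal ‖f (u x) - f (v x)‖ ∂μ ≤
      ENNReal.ofReal (ε * (2 * A) + C * B) := by
    calc ∫⁻ x, ENNReal.ofReal ‖f (u x) - f (v x)‖ ∂μ ≤
          ∫⁻ x, (ENNReal.ofReal ε * (ENNReal.ofReal (gr q' (u x)) +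
            ENNReal.ofReal (gr q' (v x))) +
            ENNReal.ofReal C * ENNReal.ofReal (dd (u x) (v x) ^ 2)) ∂μ := by
          refine lintegral_mono_ae ?_
          filter_upwards [hu0, hv0] with x hx hx'
          rw [← ENNReal.ofReal_add (gr_nonneg _ _) (gr_nonneg _ _), ← ENNReal.ofReal_mul hε,
            ← ENNReal.ofReal_mul hC, ← ENNReal.ofReal_add]
          · refine ENNReal.ofReal_le_ofReal ?_
            rw [Real.norm_eq_abs]
            exact hpt _ _ hx hx'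
          · have := gr_nonneg q' (u x)
            have := gr_nonneg q' (v x)
            positivity
          · positivity
      _ = ENNReal.ofReal ε * (∫⁻ x, ENNReal.ofReal (gr q' (u x)) ∂μ +
            ∫⁻ x, ENNReal.ofReal (gr q' (v x)) ∂μ) +
            ENNReal.ofReal C * ∫⁻ x, ENNReal.ofReal (dd (u x) (v x) ^ 2) ∂μ := by
          rw [lintegral_add_left' m4, lintegral_const_mul'' _ m3,
            lintegral_add_left' m1, lintegral_const_mul' _ _ ENNReal.ofReal_ne_top]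
      _ ≤ ENNReal.ofReal ε * (ENNReal.ofReal A + ENNReal.ofReal A) +
            ENNReal.ofReal C * ENNReal.ofReal B := by gcongr
      _ = _ := by
          rw [← ENNReal.ofReal_add hA0 hA0, ← ENNReal.ofReal_mul hε, ← ENNReal.ofReal_mul hC,
            ← ENNReal.ofReal_add (by positivity) (by positivity), two_mul]
  exact ENNReal.toReal_le_of_le_ofReal (by positivity) h1

end Pool.Agent.Q255.SG
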