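import Pool.Agent.Q255.SG.Prim

/-! # The primitive on the edge is the integral of the logarithm of the modulus -/

set_option autoImplicit false

namespace Pool.Agent.Q255.SG

open NumberField IsDedekindDomain Finset Pool.Agent.H921R2.TatePole
  Pool.Agent.W350.EdgeEC Pool.Agent.W350.EdgeNF Pool.Agent.W350.EdgeV MeasureTheory Filter Topology
  Pool.Agent.Q255.SA

theorem l1_aux {f : ℕ → ℝ → ℝ} {g : ℝ → ℝ} (hf : ∀ x, Continuous (f x))
    (hg : AEMeasurable g volume) {B : ℕ → ℝ} (hB : Tendsto B atTop (𝓝 0)) (hB0 : ∀ x, 0 ≤ B x)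
    (h : ∀ x, 3 ≤ x → ∀ a : ℝ, ∫⁻ t in Set.Icc a (a + 1), ENNReal.ofReal ((g t - f x t) ^ 2) ≤
      ENNReal.ofReal (B x)) {y y' : ℝ} (hy : y ≤ y') :
    IntervalIntegrable g volume y y' ∧
      Tendsto (fun x => ∫ t in y..y', f x t) atTop (𝓝 (∫ t in y..y', g t)) := by
  set T : ℝ := y' - y + 1 with hT
  have hT1 : 1 ≤ T := by linarith
  have hsub : Set.Icc y y' ⊆ Set.Icc y (y + T) := Set.Icc_subset_Icc_right (by linarith)
  set μ : Measure ℝ := volume.restrict (Set.Icc y y') with hμ
  have hfin : IsFiniteMeasure μ := ⟨by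
    rw [hμ, Measure.restrict_apply_univ]
    exact measure_Icc_lt_top⟩
  have hl : ∀ x, 3 ≤ x → ∫⁻ t, ENNReal.ofReal ((g t - f x t) ^ 2) ∂μ ≤
      ENNReal.ofReal (2 * T * B x) := by
    intro x hx
    refine (lintegral_mono_set hsub).trans ((cover (h x hx) y hT1).trans ?_)
    rw [← ENNReal.ofReal_mul (by linarith)]
  have hm : ∀ x, AEStronglyMeasurable (fun t => g t - f x t) μ := fun x =>
    (hg.aestronglyMeasurable.restrict).sub (hf x).aestronglyMeasurable.restrict
  have hsq : ∀ x, 3 ≤ x → Integrable (fun t => (g t - f x t) ^ 2) μ := by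
    intro x hx
    refine ⟨(hm x).pow 2, ?_⟩
    rw [hasFiniteIntegral_iff_ofReal (Filter.Eventually.of_forall fun t => sq_nonneg _)]
    exact (hl x hx).trans_lt ENNReal.ofReal_lt_top
  have hsqi : ∀ x, 3 ≤ x → ∫ t, (g t - f x t) ^ 2 ∂μ ≤ 2 * T * B x := by
    intro x hx
    rw [integral_eq_lintegral_of_nonneg_ae (Filter.Eventually.of_forall fun t => sq_nonneg _)
      ((hm x).pow 2)]
    refine (ENNReal.toReal_mono ENNReal.ofReal_ne_top (hl x hx)).trans ?_
    rw [ENNReal.toReal_ofReal]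
    have := hB0 x
    positivity
  have hi : ∀ x, 3 ≤ x → Integrable (fun t => g t - f x t) μ := by
    intro x hx
    refine ((hsq x hx).add (integrable_const 1)).mono' (hm x) ?_
    refine Filter.Eventually.of_forall fun t => ?_
    simp only [Pi.add_apply, Real.norm_eq_abs]
    rw [abs_le]
    constructor <;> nlinarith [sq_nonneg (g t - f x t + 1), sq_nonneg (g t - f x t - 1)]
  have hfi : ∀ x, Integrable (f x) μ := fun x => (hf x).integrableOn_Icc
  have hgi : Integrable g μ := by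
    have := (hi 3 le_rfl).add (hfi 3)
    refine this.congr (Filter.Eventually.of_forall fun t => ?_)
    simp
  have hII : IntervalIntegrable g volume y y' := by
    rw [intervalIntegrable_iff_integrableOn_Icc_of_le hy]
    exact hgi
  refine ⟨hII, ?_⟩
  have hconv : ∀ k : ℝ → ℝ, ∫ t in y..y', k t = ∫ t, k t ∂μ := by
    intro k
    rw [intervalIntegral.integral_of_le hy, hμ, integral_Icc_eq_integral_Ioc]
  simp_rw [hconv]
  set m : ℝ := (μ Set.univ).toReal with hm0
  have hm1 : 0 ≤ m := ENNReal.toReal_nonneg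
  rw [Metric.tendsto_atTop]
  intro η hη
  set ε : ℝ := η / (m + 1) with hε
  have hε0 : 0 < ε := by positivity
  have hlim : Tendsto (fun x => 2 * T * B x / ε) atTop (𝓝 0) := by
    have := (hB.const_mul (2 * T)).div_const ε
    simpa using this
  obtain ⟨X, hX⟩ := (Metric.tendsto_atTop.1 hlim) η hη
  refine ⟨max X 3, fun x hx => ?_⟩
  have hx3 : 3 ≤ x := le_trans (le_max_right _ _) hx
  have h1 := hX x (le_trans (le_max_left _ _) hx)
  rw [Real.dist_eq, sub_zero] at h1
  have h1' := (abs_lt.1 h1).2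
  rw [dist_comm, Real.dist_eq, ← integral_sub hgi (hfi x)]
  calc |∫ t, (g t - f x t) ∂μ| ≤ ∫ t, |g t - f x t| ∂μ := abs_integral_le_integral_abs
    _ ≤ ∫ t, ((1 / 2 * ε) + (g t - f x t) ^ 2 * (1 / (2 * ε))) ∂μ := by
        refine integral_mono (hi x hx3).abs
          ((integrable_const _).add ((hsq x hx3).mul_const _)) fun t => ?_
        have h2 : |g t - f x t| ^ 2 = (g t - f x t) ^ 2 := sq_abs _
        simp only []
        rw [← h2]
        have h3 : 1 / 2 * ε + |g t - f x t| ^ 2 * (1 / (2 * ε)) - |g t - f x t| =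
            (|g t - f x t| - ε) ^ 2 * (1 / (2 * ε)) := by
          field_simp
          ring
        have h4 : 0 ≤ (|g t - f x t| - ε) ^ 2 * (1 / (2 * ε)) := by positivity
        linarith
    _ = 1 / 2 * ε * m + (∫ t, (g t - f x t) ^ 2 ∂μ) * (1 / (2 * ε)) := by
        rw [integral_add (integrable_const _) ((hsq x hx3).mul_const _), integral_const,
          integral_mul_const, hm0, smul_eq_mul, Measure.real]
        ring
    _ ≤ 1 / 2 * ε * m + (2 * T * B x) * (1 / (2 * ε)) := by
        gcongr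
        exact hsqi x hx3
    _ = 1 / 2 * (ε * m) + 1 / 2 * (2 * T * B x / ε) := by
        field_simp
    _ < 1 / 2 * η + 1 / 2 * η := by
        have h5 : ε * m ≤ η := by
          rw [hε, div_mul_eq_mul_div, div_le_iff₀ (by linarith)]
          nlinarith
        linarith
    _ = η := by ring

theorem l1_tendsto {f : ℕ → ℝ → ℝ} {g : ℝ → ℝ} (hf : ∀ x, Continuous (f x))
    (hg : AEMeasurable g volume) {B : ℕ → ℝ} (hB : Tendsto B atTop (𝓝 0)) (hB0 : ∀ x, 0 ≤ B x)
    (h : ∀ x, 3 ≤ x → ∀ a : ℝ, ∫⁻ t in Set.Icc a (a + 1), ENNReal.ofReal ((g t - f x t) ^ 2) ≤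
      ENNReal.ofReal (B x)) (y y' : ℝ) :
    IntervalIntegrable g volume y y' ∧
      Tendsto (fun x => ∫ t in y..y', f x t) atTop (𝓝 (∫ t in y..y', g t)) := by
  rcases le_total y y' with hy | hy
  · exact l1_aux hf hg hB hB0 h hy
  · obtain ⟨h1, h2⟩ := l1_aux hf hg hB hB0 h hy
    refine ⟨h1.symm, ?_⟩
    have h3 : ∀ k : ℝ → ℝ, ∫ t in y..y', k t = -∫ t in y'..y, k t := fun k =>
      intervalIntegral.integral_symm _ _
    simp_rw [h3]
    exact h2.neg

theorem tendsto_C_log (C : ℝ) : Tendsto (fun x : ℕ => C / Real.log x) atTop (𝓝 0) :=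
  tendsto_const_nhds.div_atTop (Real.tendsto_log_atTop.comp tendsto_natCast_atTop_atTop)

variable {K : Type} [Field K] [NumberField K] {N : ℕ} {w : ℝ}

/-- the integral of `log |l|` over a segment of the edge -/
theorem line_l {α : HeightOneSpectrum (𝓞 K) → Fin N → ℂ} (hα : BdK w α) {T : Set ℝ}
    (hT : volume T = 0) {l : ℝ → ℂ} (hl : Lim (PP (sysLD w α hα)) T l) (y y' : ℝ) :
    IntervalIntegrable (fun t => Real.log ‖l t‖) volume y y' ∧
      (PG w α (y' * Complex.I) - PG w α (y * Complex.I)).im = ∫ t in y..y', Real.log ‖l t‖ := by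
  obtain ⟨C, hC, h⟩ := gen_log (Module.finrank ℚ K) (B := N) (A := N) (Nat.cast_nonneg N)
    (Nat.cast_nonneg N)
  have h1 := h K le_rfl (sysLD w α hα) T hT l hl
  have hf : ∀ x, Continuous fun t => Real.log ‖PP (sysLD w α hα) x t‖ := by
    intro x
    simp_rw [log_PP]
    exact Complex.continuous_re.comp (LP_continuous _ x)
  have hg : AEMeasurable (fun t => Real.log ‖l t‖) volume :=
    (lim_aemeas (PP_continuous _) hT hl).norm.log
  obtain ⟨h2, h3⟩ := l1_tendsto hf hg (B := fun x => |C / Real.log x|)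
    (by simpa using (tendsto_C_log C).abs) (fun x => abs_nonneg _)
    (fun x hx a => (h1 x hx a).trans (ENNReal.ofReal_le_ofReal (le_abs_self _))) y y'
  refine ⟨h2, ?_⟩
  have h4 : Tendsto (fun x => (PGx w α x (y' * Complex.I) - PGx w α x (y * Complex.I)).im) atTop
      (𝓝 ((PG w α (y' * Complex.I) - PG w α (y * Complex.I)).im)) :=
    (Complex.continuous_im.tendsto _).comp
      ((PGx_tendsto hα (by simp)).sub (PGx_tendsto hα (by simp)))
  simp_rw [line_x hα] at h4
  exact tendsto_nhds_unique h4 h3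

end Pool.Agent.Q255.SG
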