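import Pool.Agent.Q255.SG.Center
import Pool.Agent.Q255.SA.Muck2

/-! # Exponential integrability on short intervals, centred at the value at distance `δ` -/

set_option autoImplicit false

namespace Pool.Agent.Q255.SG

open NumberField IsDedekindDomain Finset Pool.Agent.H921R2.TatePole
  Pool.Agent.W350.EdgeEC Pool.Agent.W350.EdgeNF Pool.Agent.W350.EdgeV MeasureTheory Filter Topology
  Pool.Agent.Q255.SA

theorem ld_short (d : ℕ) {B A q : ℝ} (hB : 0 ≤ B) (hA : 0 ≤ A) (h0 : 0 ≤ q)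
    (h1 : B * d * q < 1) : ∃ C : ℝ, 0 < C ∧
    ∀ (K : Type) [Field K] [NumberField K], Module.finrank ℚ K ≤ d →
    ∀ (D : LD K B A) (T : Set ℝ), volume T = 0 →
    ∀ l : ℝ → ℂ, Lim (PP D) T l → ∀ a δ : ℝ, 0 < δ → δ ≤ 1 →
      ∫⁻ t in Set.Icc a (a + δ), ENNReal.ofReal (Real.exp (q * |Real.log ‖l t‖ - mD D δ a|)) ≤
        ENNReal.ofReal (C * δ) := by
  set κ := B * d * (q / 2) with hκ
  have hκ0 : 0 ≤ κ := by positivity
  have hκ1 : κ < 1 / 2 := by rw [hκ]; linarith
  set M := q / 2 * ((A + B) * d * S0) with hM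
  obtain ⟨C, hC, hs⟩ := short_int hκ0 hκ1 M
  refine ⟨2 * C, by positivity, fun K _ _ hK D T hT l hl a δ hδ hδ1 => ?_⟩
  have hdK : (Module.finrank ℚ K : ℝ) ≤ d := by exact_mod_cast hK
  have hbd : (A + B) * Module.finrank ℚ K * S0 ≤ (A + B) * d * S0 := by
    refine mul_le_mul_of_nonneg_right ?_ S0_nonneg
    gcongr
  set X := ⌈Real.exp (1 / δ)⌉₊ with hX
  -- both signs
  have key : ∀ r : ℝ, |r| = q / 2 → ∀ z, X ≤ z →
      ∫ t in a..(a + δ), ‖PP D z t‖ ^ (2 * r) ≤ C * Real.exp (2 * r * mD D δ a) * δ := by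
    intro r hr z hz
    have hrr : ‖(r : ℂ)‖ = q / 2 := by rw [Complex.norm_real, Real.norm_eq_abs, hr]
    have h2 := hs (fun k => r * cK D k) (fun k hk => by
        rw [norm_mul, hrr]
        calc q / 2 * ‖cK D k‖ ≤ q / 2 * (B * Module.finrank ℚ K) :=
              mul_le_mul_of_nonneg_left (norm_cK D hk) (by positivity)
          _ ≤ q / 2 * (B * d) := by gcongr
          _ = κ := by rw [hκ]; ring) (fun k hk => by
        rw [cK_not_prime D hk, mul_zero]) (fun y t => r * HH D y t)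
        (fun y => continuous_const.mul (HH_continuous D y)) (fun y t => by
          rw [norm_mul, hrr]
          exact mul_le_mul_of_nonneg_left ((HH_bound D y t).trans hbd) (by positivity)) a δ hδ hδ1
        z hz
    have e1 : ∀ t, (pv (fun k => r * cK D k) (fun y t => r * HH D y t) z t) ^ 2 =
        ‖PP D z t‖ ^ (2 * r) := by
      intro t
      rw [← PP_pow, ← Real.rpow_natCast, ← Real.rpow_mul (norm_nonneg _)]
      congr 1
      push_cast
      ring
    have e2 : (CS (fun k => r * cK D k) 0 X a).re = r * mD D δ a := by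
      unfold mD CS
      rw [← Complex.re_ofReal_mul, Finset.mul_sum]
      congr 1
      exact Finset.sum_congr rfl fun k _ => by ring
    simp_rw [e1] at h2
    rw [e2, ← mul_assoc] at h2
    exact h2
  set m := mD D δ a with hm
  have hcont : ∀ z, Continuous fun t => Real.exp (q * |Real.log ‖PP D z t‖ - m|) := by
    intro z
    simp_rw [log_PP]
    have := Complex.continuous_re.comp (LP_continuous D z)
    exact Real.continuous_exp.comp (continuous_const.mul ((this.sub continuous_const).abs))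
  refine fatou2 (f := fun z t => Real.exp (q * |Real.log ‖PP D z t‖ - m|)) hcont
    (fun z t => (Real.exp_pos _).le) hT (fun t ht => ?_) (by linarith) (Z := X) fun z hz => ?_
  · have hne : ‖l t‖ ≠ 0 := norm_ne_zero_iff.2 (hl t ht).1
    have h3 : Tendsto (fun z => Real.log ‖PP D z t‖) atTop (𝓝 (Real.log ‖l t‖)) :=
      ((Real.continuousAt_log hne).tendsto).comp (hl t ht).2.norm
    exact (Real.continuous_exp.tendsto _).comp ((h3.sub_const m).abs.const_mul q)
  · have k1 := key (q / 2) (abs_of_nonneg (by positivity)) z hz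
    have k2 := key (-(q / 2)) (by rw [abs_neg, abs_of_nonneg (by positivity)]) z hz
    have hpt : ∀ t, Real.exp (q * |Real.log ‖PP D z t‖ - m|) ≤
        Real.exp (-(q * m)) * ‖PP D z t‖ ^ (2 * (q / 2)) +
        Real.exp (q * m) * ‖PP D z t‖ ^ (2 * -(q / 2)) := by
      intro t
      have hp : 0 < ‖PP D z t‖ := norm_pos_iff.2 (PP_ne D z t)
      rw [Real.rpow_def_of_pos hp, Real.rpow_def_of_pos hp, ← Real.exp_add, ← Real.exp_add]
      rcases abs_cases (Real.log ‖PP D z t‖ - m) with ⟨h3, _⟩ | ⟨h3, _⟩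
      · rw [h3]
        have : q * (Real.log ‖PP D z t‖ - m) = -(q * m) + Real.log ‖PP D z t‖ * (2 * (q / 2)) := by
          ring
        rw [this]
        have := Real.exp_pos (q * m + Real.log ‖PP D z t‖ * (2 * -(q / 2)))
        linarith
      · rw [h3]
        have : q * -(Real.log ‖PP D z t‖ - m) =
            q * m + Real.log ‖PP D z t‖ * (2 * -(q / 2)) := by
          ring
        rw [this]
        have := Real.exp_pos (-(q * m) + Real.log ‖PP D z t‖ * (2 * (q / 2)))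
        linarith
    have hc1 : ∀ r : ℝ, Continuous fun t => ‖PP D z t‖ ^ r := fun r => PP_pow_continuous D z r
    calc ∫ t in a..(a + δ), Real.exp (q * |Real.log ‖PP D z t‖ - m|)
        ≤ ∫ t in a..(a + δ), (Real.exp (-(q * m)) * ‖PP D z t‖ ^ (2 * (q / 2)) +
            Real.exp (q * m) * ‖PP D z t‖ ^ (2 * -(q / 2))) := by
          refine intervalIntegral.integral_mono_on (by linarith)
            ((hcont z).intervalIntegrable _ _) ?_ fun t _ => hpt t
          exact ((continuous_const.mul (hc1 _)).add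
            (continuous_const.mul (hc1 _))).intervalIntegrable _ _
      _ = Real.exp (-(q * m)) * (∫ t in a..(a + δ), ‖PP D z t‖ ^ (2 * (q / 2))) +
            Real.exp (q * m) * ∫ t in a..(a + δ), ‖PP D z t‖ ^ (2 * -(q / 2)) := by
          have j1 : IntervalIntegrable (fun t => Real.exp (-(q * m)) * ‖PP D z t‖ ^ (2 * (q / 2)))
            volume a (a + δ) := (continuous_const.mul (hc1 _)).intervalIntegrable _ _
          have j2 : IntervalIntegrable (fun t => Real.exp (q * m) * ‖PP D z t‖ ^ (2 * -(q / 2)))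
            volume a (a + δ) := (continuous_const.mul (hc1 _)).intervalIntegrable _ _
          rw [intervalIntegral.integral_add j1 j2,
            intervalIntegral.integral_const_mul, intervalIntegral.integral_const_mul]
      _ ≤ Real.exp (-(q * m)) * (C * Real.exp (2 * (q / 2) * m) * δ) +
            Real.exp (q * m) * (C * Real.exp (2 * -(q / 2) * m) * δ) := by gcongr
      _ = C * δ * (Real.exp (-(q * m)) * Real.exp (2 * (q / 2) * m)) +
            C * δ * (Real.exp (q * m) * Real.exp (2 * -(q / 2) * m)) := by ring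
      _ = 2 * C * δ := by
          rw [← Real.exp_add, ← Real.exp_add]
          have e1 : -(q * m) + 2 * (q / 2) * m = 0 := by ring
          have e2 : q * m + 2 * -(q / 2) * m = 0 := by ring
          rw [e1, e2, Real.exp_zero]
          ring

/-- comparison of the centres -/
theorem mD_osc (d : ℕ) {B A : ℝ} (hB : 0 ≤ B) : ∃ C : ℝ, 0 < C ∧
    ∀ (K : Type) [Field K] [NumberField K], Module.finrank ℚ K ≤ d →
    ∀ (D : LD K B A) (δ t a : ℝ), 0 < δ → δ ≤ 1 → |t - a| ≤ δ → |mD D δ t - mD D δ a| ≤ C := by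
  obtain ⟨C2, hC2, ho⟩ := osc
  refine ⟨B * d * (2 + C2) + 1, by positivity, fun K _ _ hK D δ t a hδ hδ1 hta => ?_⟩
  have hdK : (Module.finrank ℚ K : ℝ) ≤ d := by exact_mod_cast hK
  obtain ⟨hx3, hx1, hx2⟩ := cutd hδ hδ1
  have h1 := ho (B * d) (cK D) (by positivity) (fun k hk => (norm_cK D hk).trans (by gcongr))
    (fun k hk => cK_not_prime D hk) ⌈Real.exp (1 / δ)⌉₊ t a (by omega)
  unfold mD
  rw [← Complex.sub_re]
  refine (Complex.abs_re_le_norm _).trans (h1.trans ?_)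
  have e5 : |t - a| * (Real.log ⌈Real.exp (1 / δ)⌉₊ + C2) ≤ 2 + C2 := by
    calc |t - a| * (Real.log ⌈Real.exp (1 / δ)⌉₊ + C2) ≤
          δ * (Real.log ⌈Real.exp (1 / δ)⌉₊ + C2) := by
          have : 0 ≤ Real.log (⌈Real.exp (1 / δ)⌉₊ : ℝ) := Real.log_natCast_nonneg _
          gcongr
      _ ≤ δ * (1 / δ + 1 + C2) := by gcongr
      _ = 1 + δ * (1 + C2) := by field_simp; ring
      _ ≤ 1 + 1 * (1 + C2) := by gcongr
      _ = 2 + C2 := by ring
  have : B * d * (|t - a| * (Real.log ⌈Real.exp (1 / δ)⌉₊ + C2)) ≤ B * d * (2 + C2) := by gcongr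
  linarith

/-- the symmetric interval -/
theorem ld_sym (d : ℕ) {B A q : ℝ} (hB : 0 ≤ B) (hA : 0 ≤ A) (h0 : 0 ≤ q)
    (h1 : B * d * q < 1) : ∃ C : ℝ, 0 < C ∧
    ∀ (K : Type) [Field K] [NumberField K], Module.finrank ℚ K ≤ d →
    ∀ (D : LD K B A) (T : Set ℝ), volume T = 0 →
    ∀ l : ℝ → ℂ, Lim (PP D) T l → ∀ a δ : ℝ, 0 < δ → δ ≤ 1 →
      ∫⁻ t in Set.Icc (a - δ) (a + δ),
        ENNReal.ofReal (Real.exp (q * |Real.log ‖l t‖ - mD D δ a|)) ≤
        ENNReal.ofReal (C * δ) := by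
  obtain ⟨C, hC, h⟩ := ld_short d hB hA h0 h1
  obtain ⟨C2, hC2, ho⟩ := mD_osc (A := A) d hB
  refine ⟨Real.exp (q * C2) * C + C, by positivity, fun K _ _ hK D T hT l hl a δ hδ hδ1 => ?_⟩
  have i1 := h K hK D T hT l hl a δ hδ hδ1
  have i2 := h K hK D T hT l hl (a - δ) δ hδ hδ1
  rw [sub_add_cancel] at i2
  have i3 := ho K hK D δ (a - δ) a hδ hδ1 (by rw [sub_sub_cancel_left, abs_neg, abs_of_pos hδ])
  have hun : Set.Icc (a - δ) (a + δ) ⊆ Set.Icc (a - δ) a ∪ Set.Icc a (a + δ) := by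
    intro t ht
    rcases le_total t a with h2 | h2
    · exact Or.inl ⟨ht.1, h2⟩
    · exact Or.inr ⟨h2, ht.2⟩
  have i4 : ∫⁻ t in Set.Icc (a - δ) a,
        ENNReal.ofReal (Real.exp (q * |Real.log ‖l t‖ - mD D δ a|)) ≤
        ENNReal.ofReal (Real.exp (q * C2)) * ENNReal.ofReal (C * δ) := by
    refine le_trans ?_ (mul_le_mul_right i2 _)
    rw [← lintegral_const_mul' _ _ ENNReal.ofReal_ne_top]
    refine lintegral_mono fun t => ?_
    rw [← ENNReal.ofReal_mul (Real.exp_pos _).le, ← Real.exp_add]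
    refine ENNReal.ofReal_le_ofReal (Real.exp_le_exp.2 ?_)
    have e1 : |Real.log ‖l t‖ - mD D δ a| ≤
        |Real.log ‖l t‖ - mD D δ (a - δ)| + |mD D δ (a - δ) - mD D δ a| := by
      have := abs_add_le (Real.log ‖l t‖ - mD D δ (a - δ)) (mD D δ (a - δ) - mD D δ a)
      rwa [sub_add_sub_cancel] at this
    nlinarith
  calc _ ≤ ∫⁻ t in Set.Icc (a - δ) a ∪ Set.Icc a (a + δ),
        ENNReal.ofReal (Real.exp (q * |Real.log ‖l t‖ - mD D δ a|)) := lintegral_mono_set hun
    _ ≤ (∫⁻ t in Set.Icc (a - δ) a,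
        ENNReal.ofReal (Real.exp (q * |Real.log ‖l t‖ - mD D δ a|))) +
        ∫⁻ t in Set.Icc a (a + δ),
        ENNReal.ofReal (Real.exp (q * |Real.log ‖l t‖ - mD D δ a|)) := lintegral_union_le _ _ _
    _ ≤ ENNReal.ofReal (Real.exp (q * C2)) * ENNReal.ofReal (C * δ) + ENNReal.ofReal (C * δ) :=
        add_le_add i4 i1
    _ = ENNReal.ofReal ((Real.exp (q * C2) * C + C) * δ) := by
        rw [← ENNReal.ofReal_mul (Real.exp_pos _).le, ← ENNReal.ofReal_add (by positivity)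
          (by positivity)]
        congr 1
        ring

theorem sys_local1 (d N : ℕ) {q : ℝ} (h0 : 0 ≤ q) (h1 : N * d * q < 1) : ∃ C : ℝ, 0 < C ∧
    ∀ (K : Type) [Field K] [NumberField K], Module.finrank ℚ K ≤ d →
    ∀ (w : ℝ) (α : HeightOneSpectrum (𝓞 K) → Fin N → ℂ) (hα : BdK w α) (T : Set ℝ),
    volume T = 0 → ∀ l : ℝ → ℂ, Lim (PP (sysLD w α hα)) T l → ∀ a δ : ℝ, 0 < δ → δ ≤ 1 →
      ∫⁻ t in Set.Icc (a - δ) (a + δ), ENNReal.ofReal (Real.exp (q *
        |Real.log ‖l t‖ - (deriv (PG w α) ((δ : ℂ) + (a : ℂ) * Complex.I)).re|)) ≤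
        ENNReal.ofReal (C * δ) := by
  obtain ⟨C, hC, h⟩ := ld_sym d (B := N) (A := N) (Nat.cast_nonneg N) (Nat.cast_nonneg N) h0 h1
  obtain ⟨C2, hC2, hc⟩ := center d N
  refine ⟨Real.exp (q * C2) * C, by positivity, fun K _ _ hK w α hα T hT l hl a δ hδ hδ1 => ?_⟩
  have i1 := h K hK (sysLD w α hα) T hT l hl a δ hδ hδ1
  have i2 := hc K hK w α hα δ a hδ hδ1
  rw [mul_assoc, ENNReal.ofReal_mul (Real.exp_pos _).le]
  refine le_trans ?_ (mul_le_mul_right i1 _)
  rw [← lintegral_const_mul' _ _ ENNReal.ofReal_ne_top]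
  refine lintegral_mono fun t => ?_
  rw [← ENNReal.ofReal_mul (Real.exp_pos _).le, ← Real.exp_add]
  refine ENNReal.ofReal_le_ofReal (Real.exp_le_exp.2 ?_)
  set m := mD (sysLD w α hα) δ a
  set L := (deriv (PG w α) ((δ : ℂ) + (a : ℂ) * Complex.I)).re
  have e1 : |Real.log ‖l t‖ - L| ≤ |Real.log ‖l t‖ - m| + |L - m| := by
    have := abs_sub_le (Real.log ‖l t‖) m L
    rwa [abs_sub_comm m L] at this
  nlinarith

/-- the final form: centred at the `L`-value -/
theorem sys_local (M : ℕ) {q : ℝ} (h0 : 0 ≤ q) (h1 : M * q < 1) : ∃ C : ℝ, 0 < C ∧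
    ∀ (K : Type) [Field K] [NumberField K] (N : ℕ), 1 ≤ N → N * Module.finrank ℚ K ≤ M →
    ∀ (w : ℝ) (α : HeightOneSpectrum (𝓞 K) → Fin N → ℂ) (hα : BdK w α) (T : Set ℝ),
    volume T = 0 → ∀ l : ℝ → ℂ, Lim (PP (sysLD w α hα)) T l → ∀ a δ : ℝ, 0 < δ → δ ≤ 1 →
      ∫⁻ t in Set.Icc (a - δ) (a + δ), ENNReal.ofReal (Real.exp (q *
        |Real.log ‖l t‖ - (deriv (PG w α) ((δ : ℂ) + (a : ℂ) * Complex.I)).re|)) ≤
        ENNReal.ofReal (C * δ) := by
  have h : ∀ N : ℕ, ∃ C : ℝ, 0 < C ∧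
    ∀ (K : Type) [Field K] [NumberField K], Module.finrank ℚ K ≤ M / N →
    ∀ (w : ℝ) (α : HeightOneSpectrum (𝓞 K) → Fin N → ℂ) (hα : BdK w α) (T : Set ℝ),
    volume T = 0 → ∀ l : ℝ → ℂ, Lim (PP (sysLD w α hα)) T l → ∀ a δ : ℝ, 0 < δ → δ ≤ 1 →
      ∫⁻ t in Set.Icc (a - δ) (a + δ), ENNReal.ofReal (Real.exp (q *
        |Real.log ‖l t‖ - (deriv (PG w α) ((δ : ℂ) + (a : ℂ) * Complex.I)).re|)) ≤
        ENNReal.ofReal (C * δ) := by
    intro N
    refine sys_local1 (M / N) N h0 (lt_of_le_of_lt ?_ h1)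
    refine mul_le_mul_of_nonneg_right ?_ h0
    exact_mod_cast Nat.mul_div_le M N
  choose C hC hh using h
  refine ⟨∑ N ∈ range (M + 1), C N, Finset.sum_pos (fun N _ => hC N) ⟨0, by simp⟩,
    fun K _ _ N hN hNM w α hα T hT l hl a δ hδ hδ1 => ?_⟩
  have hd : Module.finrank ℚ K ≤ M / N := by
    rw [Nat.le_div_iff_mul_le (by omega), mul_comm]
    exact hNM
  refine (hh N K hd w α hα T hT l hl a δ hδ hδ1).trans (ENNReal.ofReal_le_ofReal ?_)
  refine mul_le_mul_of_nonneg_right ?_ hδ.le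
  refine Finset.single_le_sum (f := C) (fun i _ => (hC i).le) ?_
  rw [Finset.mem_range]
  have h1 : 1 ≤ Module.finrank ℚ K := Module.finrank_pos
  have : N * 1 ≤ N * Module.finrank ℚ K := Nat.mul_le_mul_left N h1
  omega

end Pool.Agent.Q255.SG
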