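import Pool.Agent.Q255.SG.QSys
import Pool.Agent.Q255.SA.Muck

/-! # Lower bounds for aligned coefficients -/

set_option autoImplicit false

namespace Pool.Agent.Q255.SG

open Finset MeasureTheory Filter Topology Pool.Agent.Q255.SA

theorem ee_zero (u : ℝ) : ee 0 u = 1 := by
  unfold ee
  simp

theorem PS_zero (x z : ℕ) : PS x z 0 = RS x z := by
  unfold PS RS
  push_cast
  refine Finset.sum_congr rfl fun k _ => ?_
  split_ifs
  · rw [ee_zero]
    push_cast
    rfl
  · rfl

theorem PS_low : ∃ C : ℝ, 0 < C ∧ ∀ (t : ℝ) (x : ℕ), 3 ≤ x → t ≠ 0 → |t| ≤ 1 →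
    1 ≤ |t| * Real.log x → -Real.log |t| - C ≤ (PS 0 x t).re := by
  obtain ⟨C1, hC1, h1⟩ := mert
  obtain ⟨C2, hC2, h2⟩ := prim_tail
  obtain ⟨C3, hC3, h3⟩ := logsum
  refine ⟨C1 + C2 + (Real.exp 1 + C3), by positivity, fun t x hx ht ht1 htx => ?_⟩
  have hx3 : (3 : ℝ) ≤ x := by exact_mod_cast hx
  have hlx : 0 < Real.log x := Real.log_pos (by linarith)
  have ht' : 0 < |t| := abs_pos.2 ht
  obtain ⟨hy3, h4, h5⟩ := cut ht ht1
  set y := ⌈Real.exp (1 / |t|)⌉₊ with hy
  have hyx : y ≤ x := by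
    rw [hy, Nat.ceil_le]
    rw [← Real.le_log_iff_exp_le (by linarith), div_le_iff₀ ht']
    linarith
  have hy3' : (3 : ℝ) ≤ y := by exact_mod_cast hy3
  have hly : 0 < Real.log y := Real.log_pos (by linarith)
  have hly2 : |t| * Real.log y ≤ Real.exp 1 := by
    have h6 : Real.log y ≤ Real.exp (-Real.log |t| + 1) := by
      rw [← Real.log_le_iff_le_exp hly]
      exact h5
    rw [Real.exp_add, Real.exp_neg, Real.exp_log ht'] at h6
    calc |t| * Real.log y ≤ |t| * (|t|⁻¹ * Real.exp 1) := by gcongr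
      _ = Real.exp 1 := by field_simp
  have ha : ‖PS y x t‖ ≤ C2 := by
    refine (h2 t y x (by omega) hyx ht ht1).trans ?_
    have h10 : 1 ≤ |t| * Real.log y := by
      rw [div_le_iff₀ ht'] at h4
      linarith
    rw [div_le_iff₀ (by linarith)]
    nlinarith
  have hb : ‖PS 0 y t - PS 0 y 0‖ ≤ Real.exp 1 + C3 := by
    have h6 : ‖PS 0 y t - PS 0 y 0‖ ≤ |t| * (Real.log y + C3) := by
      unfold PS
      rw [← Finset.sum_sub_distrib]
      have h7 : ∀ k ∈ Ico 0 y, ‖(if k.Prime then ee t k / (k : ℂ) else 0) -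
          (if k.Prime then ee 0 k / (k : ℂ) else 0)‖ ≤
          |t| * (if k.Prime then Real.log k / (k : ℝ) else 0) := by
        intro k _
        split_ifs with hk
        · have hk1 : (1 : ℝ) ≤ k := by exact_mod_cast hk.one_lt.le
          rw [← sub_div, norm_div, Complex.norm_natCast]
          rw [← mul_div_assoc]
          gcongr
          have := ee_lip t 0 hk1
          rwa [sub_zero] at this
        · simp
      refine (norm_sum_le_of_le _ h7).trans ?_
      rw [← Finset.mul_sum]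
      gcongr
      exact h3 y (by omega)
    refine h6.trans ?_
    have : |t| * C3 ≤ C3 := by nlinarith
    linarith
  have hc : -Real.log |t| - C1 ≤ RS 0 y := by
    have h6 := (abs_le.1 (h1 y hy3)).1
    have h7 : -Real.log |t| ≤ Real.log (Real.log y) := by
      rw [← Real.log_inv, inv_eq_one_div]
      exact Real.log_le_log (by positivity) h4
    linarith
  rw [← PS_add t (Nat.zero_le y) hyx, Complex.add_re]
  have hd := (abs_le.1 ((Complex.abs_re_le_norm _).trans ha)).1
  have he := (abs_le.1 ((Complex.abs_re_le_norm _).trans hb)).1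
  rw [Complex.sub_re, PS_zero, Complex.ofReal_re] at he
  linarith

theorem lim_aemeas {P : ℕ → ℝ → ℂ} (hP : ∀ x, Continuous (P x)) {T : Set ℝ} (hT : volume T = 0)
    {l : ℝ → ℂ} (hl : Lim P T l) : AEMeasurable l volume := by
  refine aemeasurable_of_tendsto_metrizable_ae atTop
    (fun x => (hP x).measurable.aemeasurable) ?_
  filter_upwards [ae_not hT] with t ht
  exact (hl t ht).2

theorem low_int {κ M : ℝ} (hκ : 0 ≤ κ) (hM : 0 ≤ M) {q s : ℝ} (hq : 1 ≤ q * (s * κ)) :
    ∃ c C : ℝ, 0 < c ∧ 0 < C ∧ ∀ (D : AD κ M) (x : ℕ), 3 ≤ x →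
      (∀ p < x, p.Prime → D.c p = ((s * κ : ℝ) : ℂ)) → ∀ T : Set ℝ, volume T = 0 →
      ∀ l : ℝ → ℂ, Lim (AP D) T l →
        ENNReal.ofReal (c * Real.log (Real.log x)) ≤
          (∫⁻ t in Set.Icc (0 : ℝ) 1, ENNReal.ofReal (‖l t‖ ^ q)) + ENNReal.ofReal C := by
  obtain ⟨C1, hC1, hlow⟩ := PS_low
  obtain ⟨C2, hC2, hlog⟩ := ad_log hκ hM
  set θ := q * (s * κ) with hθ
  set c0 := Real.exp (-(θ * C1) - |q| * M) with hc0
  have hc0' : 0 < c0 := Real.exp_pos _
  refine ⟨c0, c0 / 2 + c0 / 2 * (q ^ 2 * C2), hc0', by positivity, fun D x hx hD T hT l hl => ?_⟩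
  have hx3 : (3 : ℝ) ≤ x := by exact_mod_cast hx
  have hlx1 : 1 ≤ Real.log x := by
    rw [Real.le_log_iff_exp_le (by linarith)]
    have := Real.exp_one_lt_d9
    linarith
  have hlx : 0 < Real.log x := by linarith
  set δ := 1 / Real.log x with hδ
  have hδ0 : 0 < δ := by positivity
  have hδ1 : δ ≤ 1 := by
    rw [hδ, div_le_one hlx]
    exact hlx1
  have hCS : ∀ t, CS D.c 0 x t = ((s * κ : ℝ) : ℂ) * PS 0 x t := by
    intro t
    unfold CS PS
    rw [Finset.mul_sum]
    refine Finset.sum_congr rfl fun k hk => ?_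
    rw [Finset.mem_Ico] at hk
    split_ifs with hp
    · rw [hD k hk.2 hp]
    · rw [D.hc0 k hp]
      simp
  set W : ℝ → ℝ := fun t => q * (Real.log ‖l t‖ - Real.log ‖AP D x t‖) with hW
  -- the pointwise bound
  have hpt : ∀ t ∉ T, t ∈ Set.Icc δ 1 → c0 * t⁻¹ ≤ ‖l t‖ ^ q + c0 / 2 * (δ * (t ^ 2)⁻¹) +
      c0 / 2 * (δ⁻¹ * W t ^ 2) := by
    intro t ht htI
    have ht0 : 0 < t := hδ0.trans_le htI.1
    have habs : |t| = t := abs_of_pos ht0
    have hlt : 0 < ‖l t‖ := norm_pos_iff.2 (hl t ht).1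
    have h1 := hlow t x hx ht0.ne' (by rw [habs]; exact htI.2) (by
      rw [habs]
      have := htI.1
      rw [hδ, div_le_iff₀ hlx] at this
      exact this)
    rw [habs] at h1
    have h2 : -Real.log t - θ * C1 - |q| * M ≤ q * Real.log ‖AP D x t‖ := by
      rw [log_AP]
      unfold AL
      rw [hCS, Complex.add_re, Complex.re_ofReal_mul, mul_add, ← mul_assoc, ← hθ]
      have h3 : -(|q| * M) ≤ q * (D.H x t).re := by
        have h4 : |q * (D.H x t).re| ≤ |q| * M := by
          rw [abs_mul]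
          exact mul_le_mul_of_nonneg_left ((Complex.abs_re_le_norm _).trans (D.hb x t))
            (abs_nonneg q)
        exact (abs_le.1 h4).1
      have h5 : θ * (-Real.log t - C1) ≤ θ * (PS 0 x t).re :=
        mul_le_mul_of_nonneg_left h1 (by linarith)
      have h6 : 0 ≤ -Real.log t := by
        have := Real.log_nonpos ht0.le htI.2
        linarith
      nlinarith
    have h3 : ‖l t‖ ^ q = Real.exp (q * Real.log ‖AP D x t‖) * Real.exp (W t) := by
      rw [← Real.exp_add, Real.rpow_def_of_pos hlt]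
      congr 1
      simp only [hW]
      ring
    have h4 : c0 * t⁻¹ ≤ Real.exp (q * Real.log ‖AP D x t‖) := by
      rw [hc0]
      have : t⁻¹ = Real.exp (-Real.log t) := by
        rw [Real.exp_neg, Real.exp_log ht0]
      rw [this, ← Real.exp_add, Real.exp_le_exp]
      linarith
    have h5 : c0 * t⁻¹ * (1 + W t) ≤ ‖l t‖ ^ q := by
      rw [h3]
      have h6 := Real.add_one_le_exp (W t)
      have h7 := Real.exp_pos (W t)
      by_cases h8 : 0 ≤ 1 + W t
      · exact mul_le_mul h4 (by linarith) h8 (Real.exp_pos _).le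
      · push Not at h8
        have h9 : c0 * t⁻¹ * (1 + W t) ≤ 0 :=
          mul_nonpos_of_nonneg_of_nonpos (by positivity) h8.le
        have h10 := mul_pos (Real.exp_pos (q * Real.log ‖AP D x t‖)) h7
        linarith
    have h6 : -(t⁻¹ * W t) ≤ (δ * (t ^ 2)⁻¹) / 2 + δ⁻¹ * W t ^ 2 / 2 := by
      have h7 : δ * (t ^ 2)⁻¹ + δ⁻¹ * W t ^ 2 + 2 * (t⁻¹ * W t) = δ * (t⁻¹ + δ⁻¹ * W t) ^ 2 := by
        field_simp
        ring
      have h8 : 0 ≤ δ * (t⁻¹ + δ⁻¹ * W t) ^ 2 := by positivity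
      linarith
    nlinarith
  have hlm := lim_aemeas (AP_continuous D) hT hl
  have hWm : AEMeasurable W (volume.restrict (Set.Icc δ 1)) := by
    have h1 : AEMeasurable (fun t => Real.log ‖l t‖) (volume.restrict (Set.Icc δ 1)) :=
      Real.measurable_log.comp_aemeasurable (hlm.restrict.norm)
    have h2 : AEMeasurable (fun t => Real.log ‖AP D x t‖) (volume.restrict (Set.Icc δ 1)) :=
      Real.measurable_log.comp_aemeasurable
        ((AP_continuous D x).measurable.aemeasurable.norm)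
    exact (h1.sub h2).const_mul q
  -- integrate
  have i1 : ∫⁻ t in Set.Icc δ 1, ENNReal.ofReal (c0 * t⁻¹) =
      ENNReal.ofReal (c0 * Real.log (Real.log x)) := by
    have hint : IntervalIntegrable (fun t : ℝ => c0 * t⁻¹) volume δ 1 := by
      refine ContinuousOn.intervalIntegrable ?_
      rw [Set.uIcc_of_le hδ1]
      refine continuousOn_const.mul (ContinuousOn.inv₀ continuousOn_id fun t ht => ?_)
      exact (hδ0.trans_le ht.1).ne'
    rw [← ofReal_integral_eq_lintegral_ofReal]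
    · rw [integral_Icc_eq_integral_Ioc, ← intervalIntegral.integral_of_le hδ1,
        intervalIntegral.integral_const_mul, integral_inv_of_pos hδ0 one_pos]
      congr 3
      rw [hδ]
      simp
    · have h9 := (intervalIntegrable_iff_integrableOn_Icc_of_le hδ1).1 hint
      exact h9
    · filter_upwards [ae_restrict_mem measurableSet_Icc] with t ht
      have : 0 < t := hδ0.trans_le ht.1
      positivity
  have i2 : ∫⁻ t in Set.Icc δ 1, ENNReal.ofReal (c0 / 2 * (δ * (t ^ 2)⁻¹)) ≤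
      ENNReal.ofReal (c0 / 2) := by
    have hint : IntervalIntegrable (fun t : ℝ => c0 / 2 * (δ * (t ^ 2)⁻¹)) volume δ 1 := by
      refine ContinuousOn.intervalIntegrable ?_
      rw [Set.uIcc_of_le hδ1]
      refine continuousOn_const.mul (continuousOn_const.mul
        (ContinuousOn.inv₀ (continuousOn_id.pow 2) fun t ht => ?_))
      exact (pow_pos (hδ0.trans_le ht.1) 2).ne'
    rw [← ofReal_integral_eq_lintegral_ofReal]
    · refine ENNReal.ofReal_le_ofReal ?_
      rw [integral_Icc_eq_integral_Ioc, ← intervalIntegral.integral_of_le hδ1,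
        intervalIntegral.integral_const_mul, intervalIntegral.integral_const_mul]
      have h1 : ∫ t in δ..1, (t ^ 2)⁻¹ = δ⁻¹ - 1 := by
        have h2 : ∫ t in δ..1, t ^ (-2 : ℤ) = ((1 : ℝ) ^ (-2 + 1 : ℤ) - δ ^ (-2 + 1 : ℤ)) /
            ((-2 : ℤ) + 1) := by
          refine integral_zpow (Or.inr ⟨by norm_num, ?_⟩)
          rw [Set.uIcc_of_le hδ1]
          intro h
          linarith [h.1]
        have h3 : (fun t : ℝ => (t ^ 2)⁻¹) = fun t : ℝ => t ^ (-2 : ℤ) := by
          funext t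
          rw [zpow_neg]
          rfl
        rw [h3, h2]
        norm_num
        ring
      rw [h1]
      have h2 : δ * (δ⁻¹ - 1) ≤ 1 := by
        rw [mul_sub, mul_inv_cancel₀ hδ0.ne']
        linarith
      nlinarith
    · have h9 := (intervalIntegrable_iff_integrableOn_Icc_of_le hδ1).1 hint
      exact h9
    · refine Eventually.of_forall fun t => ?_
      simp only [Pi.zero_apply]
      positivity
  have i3 : ∫⁻ t in Set.Icc δ 1, ENNReal.ofReal (c0 / 2 * (δ⁻¹ * W t ^ 2)) ≤
      ENNReal.ofReal (c0 / 2 * (q ^ 2 * C2)) := by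
    have h1 : ∀ t, ENNReal.ofReal (c0 / 2 * (δ⁻¹ * W t ^ 2)) =
        ENNReal.ofReal (c0 / 2 * δ⁻¹ * q ^ 2) *
          ENNReal.ofReal ((Real.log ‖l t‖ - Real.log ‖AP D x t‖) ^ 2) := by
      intro t
      rw [← ENNReal.ofReal_mul (by positivity)]
      congr 1
      simp only [hW]
      ring
    simp_rw [h1]
    rw [lintegral_const_mul' _ _ ENNReal.ofReal_ne_top]
    have h2 := hlog D T hT l hl x hx 0
    rw [zero_add] at h2
    have h3 : ∫⁻ t in Set.Icc δ 1,
        ENNReal.ofReal ((Real.log ‖l t‖ - Real.log ‖AP D x t‖) ^ 2) ≤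
        ENNReal.ofReal (C2 / Real.log x) :=
      (lintegral_mono_set (Set.Icc_subset_Icc_left hδ0.le)).trans h2
    calc _ ≤ ENNReal.ofReal (c0 / 2 * δ⁻¹ * q ^ 2) * ENNReal.ofReal (C2 / Real.log x) := by gcongr
      _ = _ := by
        rw [← ENNReal.ofReal_mul (by positivity)]
        congr 1
        rw [hδ]
        field_simp
  have h7 : ∫⁻ t in Set.Icc δ 1, ENNReal.ofReal (c0 * t⁻¹) ≤
      ∫⁻ t in Set.Icc δ 1, (ENNReal.ofReal (‖l t‖ ^ q) +
        ENNReal.ofReal (c0 / 2 * (δ * (t ^ 2)⁻¹)) + ENNReal.ofReal (c0 / 2 * (δ⁻¹ * W t ^ 2))) := by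
    refine lintegral_mono_ae ?_
    filter_upwards [ae_restrict_of_ae (ae_not hT), ae_restrict_mem measurableSet_Icc] with t ht htI
    have ht0 : 0 < t := hδ0.trans_le htI.1
    rw [← ENNReal.ofReal_add (by positivity) (by positivity),
      ← ENNReal.ofReal_add (by positivity) (by positivity)]
    exact ENNReal.ofReal_le_ofReal (hpt t ht htI)
  have hm3 : AEMeasurable (fun t => ENNReal.ofReal (c0 / 2 * (δ⁻¹ * W t ^ 2)))
      (volume.restrict (Set.Icc δ 1)) :=
    (((hWm.pow_const 2).const_mul δ⁻¹).const_mul (c0 / 2)).ennreal_ofReal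
  have hm2 : AEMeasurable (fun t : ℝ => ENNReal.ofReal (c0 / 2 * (δ * (t ^ 2)⁻¹)))
      (volume.restrict (Set.Icc δ 1)) := by
    refine Measurable.aemeasurable ?_
    fun_prop
  rw [lintegral_add_right' _ hm3, lintegral_add_right' _ hm2, i1] at h7
  refine h7.trans ?_
  rw [add_assoc]
  refine add_le_add (lintegral_mono_set (Set.Icc_subset_Icc_left hδ0.le)) ?_
  rw [ENNReal.ofReal_add (by positivity) (by positivity)]
  exact add_le_add i2 i3

end Pool.Agent.Q255.SG
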