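import Pool.Agent.Q255.SG.Hull3

/-! # Random twists: second moments, analytic continuation of almost all twists -/

set_option autoImplicit false

namespace Pool.Agent.Q255.SG

open Finset MeasureTheory Filter Topology Pool.Agent.Q255.SA Pool.Agent.TH109.CG ProbabilityTheory

variable {N : ℕ} {w : ℝ}

theorem e_cont (p : ℕ) : Continuous fun θ : ℕ → UnitAddCircle => (fourier 1 (θ p) : ℂ) :=
  (fourier 1).continuous.comp (continuous_apply p)

theorem haar_mean : ∫ x : UnitAddCircle, (fourier 1 x : ℂ) ∂(AddCircle.haarAddCircle) = 0 := by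
  have h := (orthonormal_iff_ite.mp <| orthonormal_fourier (T := 1)) 0 1
  rw [if_neg (by norm_num), ContinuousMap.inner_toLp] at h
  simp only [fourier_zero, map_one, one_mul, mul_one] at h
  exact h

theorem e_mean (p : ℕ) : ∫ θ, (fourier 1 (θ p) : ℂ) ∂Pr = 0 := by
  have h1 := (measurePreserving_eval_infinitePi
    (fun _ : ℕ => (AddCircle.haarAddCircle : Measure UnitAddCircle)) p)
  have h2 := h1.map_eq
  rw [← haar_mean, ← h2, integral_map h1.measurable.aemeasurable]
  · rfl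
  · exact (fourier 1).continuous.aestronglyMeasurable

theorem e_cross {p q : ℕ} (h : p ≠ q) :
    ∫ θ, (fourier 1 (θ p) : ℂ) * (starRingEnd ℂ) (fourier 1 (θ q)) ∂Pr = 0 := by
  have h1 : iIndepFun (fun (p : ℕ) (θ : ℕ → UnitAddCircle) => θ p) Pr := by
    have := iIndepFun_infinitePi (P := fun _ : ℕ =>
      (AddCircle.haarAddCircle : Measure UnitAddCircle)) (X := fun _ x => x)
      (fun _ => measurable_id)
    exact this
  have h2 : IndepFun (fun θ : ℕ → UnitAddCircle => (fourier 1 (θ p) : ℂ))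
      (fun θ : ℕ → UnitAddCircle => (starRingEnd ℂ) (fourier 1 (θ q))) Pr := by
    have h3 := (h1.indepFun h).comp (φ := fun x : UnitAddCircle => (fourier 1 x : ℂ))
      (ψ := fun x : UnitAddCircle => (starRingEnd ℂ) (fourier 1 x))
      (fourier 1).continuous.measurable
      (Complex.continuous_conj.comp (fourier 1).continuous).measurable
    exact h3
  have h4 := h2.integral_fun_mul_eq_mul_integral (e_cont p).aestronglyMeasurable
    (Complex.continuous_conj.comp (e_cont q)).aestronglyMeasurable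
  rw [h4, e_mean, zero_mul]

theorem second_moment (S : Finset ℕ) (a : ℕ → ℂ) :
    ∫ θ, ‖∑ p ∈ S, (fourier 1 (θ p) : ℂ) * a p‖ ^ 2 ∂Pr = ∑ p ∈ S, ‖a p‖ ^ 2 := by
  have hc : Continuous fun θ : ℕ → UnitAddCircle => ∑ p ∈ S, (fourier 1 (θ p) : ℂ) * a p :=
    continuous_finset_sum _ fun p _ => (e_cont p).mul continuous_const
  have h1 : ∫ θ, ((‖∑ p ∈ S, (fourier 1 (θ p) : ℂ) * a p‖ ^ 2 : ℝ) : ℂ) ∂Pr =
      ∑ p ∈ S, ∑ q ∈ S, a p * (starRingEnd ℂ) (a q) *
        ∫ θ, (fourier 1 (θ p) : ℂ) * (starRingEnd ℂ) (fourier 1 (θ q)) ∂Pr := by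
    have e : ∀ θ : ℕ → UnitAddCircle, ((‖∑ p ∈ S, (fourier 1 (θ p) : ℂ) * a p‖ ^ 2 : ℝ) : ℂ) =
        ∑ p ∈ S, ∑ q ∈ S, a p * (starRingEnd ℂ) (a q) *
          ((fourier 1 (θ p) : ℂ) * (starRingEnd ℂ) (fourier 1 (θ q))) := by
      intro θ
      push_cast
      rw [← Complex.mul_conj', map_sum, Finset.sum_mul_sum]
      refine Finset.sum_congr rfl fun p _ => Finset.sum_congr rfl fun q _ => ?_
      rw [map_mul]
      ring
    simp_rw [e]
    have hI : ∀ p q : ℕ, Integrable (fun θ : ℕ → UnitAddCircle =>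
        a p * (starRingEnd ℂ) (a q) *
          ((fourier 1 (θ p) : ℂ) * (starRingEnd ℂ) (fourier 1 (θ q)))) Pr := by
      intro p q
      have hc2 : Continuous fun θ : ℕ → UnitAddCircle => a p * (starRingEnd ℂ) (a q) *
          ((fourier 1 (θ p) : ℂ) * (starRingEnd ℂ) (fourier 1 (θ q))) :=
        continuous_const.mul ((e_cont p).mul (Complex.continuous_conj.comp (e_cont q)))
      exact hc2.integrable_of_hasCompactSupport (HasCompactSupport.of_compactSpace _)
    rw [integral_finset_sum _ fun p _ => integrable_finset_sum _ fun q _ => hI p q]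
    refine Finset.sum_congr rfl fun p _ => ?_
    rw [integral_finset_sum _ fun q _ => hI p q]
    refine Finset.sum_congr rfl fun q _ => ?_
    rw [integral_const_mul]
  have h2 : ∑ p ∈ S, ∑ q ∈ S, a p * (starRingEnd ℂ) (a q) *
        ∫ θ, (fourier 1 (θ p) : ℂ) * (starRingEnd ℂ) (fourier 1 (θ q)) ∂Pr =
      ((∑ p ∈ S, ‖a p‖ ^ 2 : ℝ) : ℂ) := by
    push_cast
    refine Finset.sum_congr rfl fun p hp => ?_
    rw [Finset.sum_eq_single p]
    · have e : ∀ θ : ℕ → UnitAddCircle,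
          (fourier 1 (θ p) : ℂ) * (starRingEnd ℂ) (fourier 1 (θ p)) = 1 := by
        intro θ
        rw [Complex.mul_conj', norm_four]
        norm_num
      simp_rw [e]
      rw [integral_const, Complex.mul_conj']
      simp
    · intro q _ hq
      rw [e_cross (Ne.symm hq), mul_zero]
    · intro h
      exact absurd hp h
  rw [integral_complex_ofReal, h2] at h1
  exact_mod_cast h1

theorem sq_int_le {u : (ℕ → UnitAddCircle) → ℝ} (hu : Continuous u) :
    (∫ θ, u θ ∂Pr) ^ 2 ≤ ∫ θ, u θ ^ 2 ∂Pr := by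
  set m : ℝ := ∫ θ, u θ ∂Pr with hm
  have h2 : 0 ≤ ∫ θ, (u θ - m) ^ 2 ∂Pr := integral_nonneg fun θ => sq_nonneg _
  have i1 : Integrable (fun θ => u θ ^ 2) Pr := cont_int (hu.pow 2)
  have i2 : Integrable (fun θ => 2 * m * u θ) Pr := (cont_int hu).const_mul _
  have i3 : Integrable (fun _ : ℕ → UnitAddCircle => m ^ 2) Pr := integrable_const _
  have e : (fun θ => (u θ - m) ^ 2) = fun θ => (u θ ^ 2 - 2 * m * u θ) + m ^ 2 := by
    funext θ
    ring
  have i4 : Integrable (fun θ => u θ ^ 2 - 2 * m * u θ) Pr := i1.sub i2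
  rw [e, integral_add i4 i3, integral_sub i1 i2, integral_const_mul, integral_const,
    ← hm] at h2
  simp only [probReal_univ, one_smul] at h2
  nlinarith

theorem first_moment (S : Finset ℕ) (a : ℕ → ℂ) {B : ℝ} (hB : 0 ≤ B)
    (h : ∑ p ∈ S, ‖a p‖ ^ 2 ≤ B ^ 2) :
    ∫⁻ θ, ENNReal.ofReal ‖∑ p ∈ S, (fourier 1 (θ p) : ℂ) * a p‖ ∂Pr ≤ ENNReal.ofReal B := by
  have hc : Continuous fun θ : ℕ → UnitAddCircle => ∑ p ∈ S, (fourier 1 (θ p) : ℂ) * a p :=
    continuous_finset_sum _ fun p _ => (e_cont p).mul continuous_const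
  have hc2 : Continuous fun θ : ℕ → UnitAddCircle =>
      ‖∑ p ∈ S, (fourier 1 (θ p) : ℂ) * a p‖ := hc.norm
  rw [← ofReal_integral_eq_lintegral_ofReal (cont_int hc2)
    (Eventually.of_forall fun θ => norm_nonneg _)]
  refine ENNReal.ofReal_le_ofReal ?_
  have h1 := (sq_int_le hc2).trans ((second_moment S a).le.trans h)
  exact (abs_le_of_sq_le_sq' h1 hB).2

end Pool.Agent.Q255.SG
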