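import Pool.Agent.Q255.SG.MC1

/-! # Almost all twists continue analytically -/

set_option autoImplicit false

namespace Pool.Agent.Q255.SG

open Finset MeasureTheory Filter Topology Pool.Agent.Q255.SA Pool.Agent.TH109.CG ProbabilityTheory

variable {N : ℕ} {w : ℝ}

/-- the coefficients of the main part -/
noncomputable def av (α : ℕ → Fin N → ℂ) (s : ℂ) (n : ℕ) : ℂ :=
  if n.Prime then (∑ j, α n j) * (n : ℂ) ^ (-s) else 0

/-- dyadic blocks -/
noncomputable def blk (α : ℕ → Fin N → ℂ) (k : ℕ) (θ : ℕ → UnitAddCircle) (s : ℂ) : ℂ :=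
  ∑ n ∈ Ico (2 ^ k) (2 ^ (k + 1)), (fourier 1 (θ n) : ℂ) * av α s n

/-- the remainders of the logarithms -/
noncomputable def lr (α : ℕ → Fin N → ℂ) (θ : ℕ → UnitAddCircle) (n : ℕ) (s : ℂ) : ℂ :=
  if n.Prime then ∑ j, (-Complex.log (1 - tw α θ n j * (n : ℂ) ^ (-s)) -
    tw α θ n j * (n : ℂ) ^ (-s)) else 0

/-- the Euler product of the twist -/
noncomputable def LF (α : ℕ → Fin N → ℂ) (θ : ℕ → UnitAddCircle) (s : ℂ) : ℂ :=
  ∏' p : Nat.Primes, (∏ j, (1 - tw α θ p j * (p : ℂ) ^ (-s)))⁻¹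

theorem norm_x {α : ℕ → Fin N → ℂ} (hα : Bd w α) {p : ℕ} (hp : p.Prime) (j : Fin N) (s : ℂ) :
    ‖α p j * (p : ℂ) ^ (-s)‖ ≤ (p : ℝ) ^ (w / 2 - s.re) := by
  have hp0 : (0 : ℝ) < p := by exact_mod_cast hp.pos
  rw [norm_mul, Complex.norm_natCast_cpow_of_pos hp.pos, Complex.neg_re]
  calc ‖α p j‖ * (p : ℝ) ^ (-s.re) ≤ (p : ℝ) ^ (w / 2) * (p : ℝ) ^ (-s.re) := by
        gcongr
        exact hα p hp j
    _ = _ := by
        rw [← Real.rpow_add hp0]
        ring_nf

theorem norm_av {α : ℕ → Fin N → ℂ} (hα : Bd w α) (s : ℂ) (n : ℕ) :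
    ‖av α s n‖ ≤ N * (n : ℝ) ^ (w / 2 - s.re) := by
  unfold av
  split_ifs with hn
  · rw [Finset.sum_mul]
    refine (norm_sum_le_of_le _ fun j _ => norm_x hα hn j s).trans ?_
    rw [Finset.sum_const, Finset.card_univ, Fintype.card_fin, nsmul_eq_mul]
  · rw [norm_zero]
    positivity

theorem av_diff (α : ℕ → Fin N → ℂ) (n : ℕ) : Differentiable ℂ (fun s => av α s n) := by
  unfold av
  by_cases hn : n.Prime
  · simp only [if_pos hn]
    have h0 : (n : ℂ) ≠ 0 := by exact_mod_cast hn.ne_zero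
    intro s
    refine DifferentiableAt.const_mul ?_ _
    exact DifferentiableAt.const_cpow differentiableAt_id.neg (Or.inl h0)
  · simp only [if_neg hn]
    exact differentiable_const _

theorem blk_diff (α : ℕ → Fin N → ℂ) (k : ℕ) (θ : ℕ → UnitAddCircle) :
    Differentiable ℂ (blk α k θ) := by
  unfold blk
  refine Differentiable.fun_sum fun n _ => ?_
  exact (av_diff α n).const_mul _

theorem sq_block {α : ℕ → Fin N → ℂ} (hα : Bd w α) {δ : ℝ} (hδ : 0 < δ) {s : ℂ}
    (hs : (w + 1) / 2 + δ ≤ s.re) (k : ℕ) :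
    ∑ n ∈ Ico (2 ^ k) (2 ^ (k + 1)), ‖av α s n‖ ^ 2 ≤ (N * ((2 : ℝ) ^ (-δ)) ^ k) ^ 2 := by
  have h1 : ∀ n ∈ Ico (2 ^ k) (2 ^ (k + 1)), ‖av α s n‖ ^ 2 ≤
      N ^ 2 * ((2 : ℝ) ^ (k : ℕ)) ^ (-1 - 2 * δ) := by
    intro n hn
    rw [Finset.mem_Ico] at hn
    have hn1 : (2 : ℝ) ^ k ≤ n := by exact_mod_cast hn.1
    have h2k : (0 : ℝ) < 2 ^ k := by positivity
    have hn0 : (0 : ℝ) < n := by linarith
    have hn2 : (1 : ℝ) ≤ n := (one_le_pow₀ (by norm_num : (1 : ℝ) ≤ 2)).trans hn1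
    calc ‖av α s n‖ ^ 2 ≤ (N * (n : ℝ) ^ (w / 2 - s.re)) ^ 2 := by
          gcongr
          exact norm_av hα s n
      _ = N ^ 2 * (n : ℝ) ^ (w - 2 * s.re) := by
          rw [mul_pow, ← Real.rpow_natCast ((n : ℝ) ^ (w / 2 - s.re)), ← Real.rpow_mul hn0.le]
          congr 2
          push_cast
          ring
      _ ≤ N ^ 2 * (n : ℝ) ^ (-1 - 2 * δ) := by
          refine mul_le_mul_of_nonneg_left ?_ (by positivity)
          exact Real.rpow_le_rpow_of_exponent_le hn2 (by linarith)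
      _ ≤ N ^ 2 * ((2 : ℝ) ^ k) ^ (-1 - 2 * δ) := by
          gcongr 1
          exact Real.rpow_le_rpow_of_nonpos h2k hn1 (by linarith)
  refine (Finset.sum_le_sum h1).trans ?_
  rw [Finset.sum_const, Nat.card_Ico, nsmul_eq_mul]
  have e1 : ((2 ^ (k + 1) - 2 ^ k : ℕ) : ℝ) = 2 ^ k := by
    rw [Nat.cast_sub (Nat.pow_le_pow_right (by norm_num) (by omega))]
    push_cast
    ring
  rw [e1]
  have h2k : (0 : ℝ) < 2 ^ k := by positivity
  have e2 : ((2 : ℝ) ^ k) ^ (-1 - 2 * δ) = ((2 : ℝ) ^ k)⁻¹ * (((2 : ℝ) ^ (-δ)) ^ k) ^ 2 := by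
    rw [sub_eq_add_neg, Real.rpow_add h2k, Real.rpow_neg_one]
    congr 1
    rw [← pow_mul, ← Real.rpow_natCast ((2 : ℝ) ^ (-δ)), ← Real.rpow_natCast (2 : ℝ) k,
      ← Real.rpow_mul (by norm_num), ← Real.rpow_mul (by norm_num)]
    congr 1
    push_cast
    ring
  rw [e2]
  refine le_of_eq ?_
  field_simp

/-! ## Cauchy's estimate with the mean over the circle -/

theorem cauchy_mean {f : ℂ → ℂ} (hf : Differentiable ℂ f) {c z : ℂ} {R : ℝ} (hR : 0 < R)
    (hz : z ∈ Metric.ball c (R / 2)) :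
    ‖f z‖ ≤ ∫ φ in (0 : ℝ)..(2 * Real.pi), ‖f (circleMap c R φ)‖ := by
  have hz' : z ∈ Metric.ball c R := Metric.ball_subset_ball (by linarith) hz
  have h1 := (hf.diffContOnCl (s := Metric.ball c R)).two_pi_i_inv_smul_circleIntegral_sub_inv_smul hz'
  have hpi := Real.pi_pos
  rw [← h1, norm_smul]
  have h2 : ‖∮ (ζ : ℂ) in C(c, R), (ζ - z)⁻¹ • f ζ‖ ≤
      2 * ∫ φ in (0 : ℝ)..(2 * Real.pi), ‖f (circleMap c R φ)‖ := by
    unfold circleIntegral
    rw [← intervalIntegral.integral_const_mul]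
    refine intervalIntegral.norm_integral_le_of_norm_le (by positivity)
      (Eventually.of_forall fun φ _ => ?_) ?_
    · rw [norm_smul, norm_smul, norm_inv, deriv_circleMap, norm_mul, Complex.norm_I, mul_one,
        norm_circleMap_zero, abs_of_pos hR]
      have h3 : R / 2 ≤ ‖circleMap c R φ - z‖ := by
        have h4 : ‖circleMap c R φ - c‖ = R := by
          rw [← dist_eq_norm]
          exact (circleMap_mem_sphere c hR.le φ)
        have h5 : ‖z - c‖ < R / 2 := by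
          rw [← dist_eq_norm]
          exact hz
        have h6 := norm_sub_norm_le (circleMap c R φ - c) (z - c)
        rw [h4] at h6
        have e : circleMap c R φ - c - (z - c) = circleMap c R φ - z := by ring
        rw [e] at h6
        linarith
      have h4 : ‖circleMap c R φ - z‖⁻¹ ≤ 2 / R := by
        rw [inv_le_comm₀ (by linarith) (by positivity), inv_div]
        exact h3
      calc R * (‖circleMap c R φ - z‖⁻¹ * ‖f (circleMap c R φ)‖) ≤
          R * (2 / R * ‖f (circleMap c R φ)‖) := by gcongr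
        _ = _ := by field_simp
    · apply Continuous.intervalIntegrable
      exact continuous_const.mul ((hf.continuous.comp (continuous_circleMap c R)).norm)
  have h3 : ‖(2 * (Real.pi : ℂ) * Complex.I)⁻¹‖ = 1 / (2 * Real.pi) := by
    rw [norm_inv, norm_mul, norm_mul, Complex.norm_I, mul_one, Complex.norm_real,
      Real.norm_of_nonneg hpi.le, Complex.norm_ofNat]
    ring
  rw [h3]
  have h4 : 0 ≤ ∫ φ in (0 : ℝ)..(2 * Real.pi), ‖f (circleMap c R φ)‖ :=
    intervalIntegral.integral_nonneg (by positivity) fun φ _ => norm_nonneg _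
  calc 1 / (2 * Real.pi) * ‖∮ (ζ : ℂ) in C(c, R), (ζ - z)⁻¹ • f ζ‖ ≤
      1 / (2 * Real.pi) * (2 * ∫ φ in (0 : ℝ)..(2 * Real.pi), ‖f (circleMap c R φ)‖) := by gcongr
    _ = (1 / Real.pi) * ∫ φ in (0 : ℝ)..(2 * Real.pi), ‖f (circleMap c R φ)‖ := by
        field_simp
    _ ≤ 1 * ∫ φ in (0 : ℝ)..(2 * Real.pi), ‖f (circleMap c R φ)‖ := by
        gcongr
        rw [div_le_one hpi]
        linarith [Real.pi_gt_three]
    _ = _ := one_mul _

theorem blk_joint (α : ℕ → Fin N → ℂ) (k : ℕ) (c : ℂ) (R : ℝ) :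
    Continuous fun z : (ℕ → UnitAddCircle) × ℝ => blk α k z.1 (circleMap c R z.2) := by
  unfold blk
  refine continuous_finset_sum _ fun n _ => Continuous.mul ?_ ?_
  · exact (e_cont n).comp continuous_fst
  · exact (av_diff α n).continuous.comp ((continuous_circleMap c R).comp continuous_snd)

/-- On every small disc the blocks are summable for almost all twists. -/
theorem disc_ae {α : ℕ → Fin N → ℂ} (hα : Bd w α) {c : ℂ} {R δ : ℝ} (hR : 0 < R) (hδ : 0 < δ)
    (hc : (w + 1) / 2 + δ ≤ c.re - R) :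
    ∀ᵐ θ ∂Pr, ∃ u : ℕ → ℝ, Summable u ∧ ∀ k, ∀ z ∈ Metric.ball c (R / 2), ‖blk α k θ z‖ ≤ u k := by
  have hpi := Real.pi_pos
  set r : ℝ := (2 : ℝ) ^ (-δ) with hr
  have hr0 : 0 < r := by positivity
  have hr1 : r < 1 := Real.rpow_lt_one_of_one_lt_of_neg (by norm_num) (by linarith)
  set I : ℕ → (ℕ → UnitAddCircle) → ENNReal := fun k θ =>
    ∫⁻ φ in Set.Ioc (0 : ℝ) (2 * Real.pi), ENNReal.ofReal ‖blk α k θ (circleMap c R φ)‖ with hI
  have hm : ∀ k, Measurable fun z : (ℕ → UnitAddCircle) × ℝ =>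
      ENNReal.ofReal ‖blk α k z.1 (circleMap c R z.2)‖ := fun k =>
    (blk_joint α k c R).norm.measurable.ennreal_ofReal
  have hIm : ∀ k, Measurable (I k) := fun k => (hm k).lintegral_prod_right'
  have h1 : ∀ k, ∫⁻ θ, I k θ ∂Pr ≤ ENNReal.ofReal (2 * Real.pi * (N * r ^ k)) := by
    intro k
    rw [hI]
    dsimp only
    rw [lintegral_lintegral_swap (hm k).aemeasurable]
    calc ∫⁻ φ in Set.Ioc (0 : ℝ) (2 * Real.pi),
          ∫⁻ θ, ENNReal.ofReal ‖blk α k θ (circleMap c R φ)‖ ∂Pr ≤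
          ∫⁻ _ in Set.Ioc (0 : ℝ) (2 * Real.pi), ENNReal.ofReal (N * r ^ k) := by
          refine lintegral_mono fun φ => ?_
          unfold blk
          refine first_moment _ _ (by positivity) ?_
          refine sq_block hα hδ ?_ k
          have h2 : |(circleMap c R φ - c).re| ≤ R := by
            refine (Complex.abs_re_le_norm _).trans (le_of_eq ?_)
            rw [← dist_eq_norm]
            exact circleMap_mem_sphere c hR.le φ
          rw [Complex.sub_re] at h2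
          have := (abs_le.1 h2).1
          linarith
      _ = ENNReal.ofReal (2 * Real.pi * (N * r ^ k)) := by
          rw [setLIntegral_const, Real.volume_Ioc, sub_zero, ← ENNReal.ofReal_mul (by positivity)]
          congr 1
          ring
  have h2 : ∫⁻ θ, ∑' k, I k θ ∂Pr ≠ ⊤ := by
    rw [lintegral_tsum fun k => (hIm k).aemeasurable]
    have h3 : Summable fun k : ℕ => 2 * Real.pi * (N * r ^ k) :=
      ((summable_geometric_of_lt_one hr0.le hr1).mul_left _).mul_left _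
    refine ne_top_of_le_ne_top ?_ (ENNReal.tsum_le_tsum h1)
    exact h3.tsum_ofReal_ne_top
  have h3 := ae_lt_top' (AEMeasurable.ennreal_tsum fun k => (hIm k).aemeasurable) h2
  filter_upwards [h3] with θ hθ
  refine ⟨fun k => (I k θ).toReal, ENNReal.summable_toReal hθ.ne, fun k z hz => ?_⟩
  refine (cauchy_mean (blk_diff α k θ) hR hz).trans (le_of_eq ?_)
  rw [intervalIntegral.integral_of_le (by positivity), hI]
  dsimp only
  rw [← ofReal_integral_eq_lintegral_ofReal, ENNReal.toReal_ofReal]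
  · exact integral_nonneg fun φ => norm_nonneg _
  · have hc1 : Continuous fun φ : ℝ => ‖blk α k θ (circleMap c R φ)‖ :=
      ((blk_diff α k θ).continuous.comp (continuous_circleMap c R)).norm
    exact (hc1.intervalIntegrable 0 (2 * Real.pi)).1
  · exact Eventually.of_forall fun φ => norm_nonneg _

end Pool.Agent.Q255.SG
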