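import Pool.Agent.Q255.SG.MC2

/-! # Almost all twists continue analytically, generic twists do not -/

set_option autoImplicit false

namespace Pool.Agent.Q255.SG

open Finset MeasureTheory Filter Topology Pool.Agent.Q255.SA Pool.Agent.TH109.CG ProbabilityTheory

variable {N : ℕ} {w : ℝ}

theorem x_le {α : ℕ → Fin N → ℂ} (hα : Bd w α) (θ : ℕ → UnitAddCircle) {p : ℕ} (hp : p.Prime)
    (j : Fin N) {s : ℂ} (hs : (w + 1) / 2 ≤ s.re) : ‖tw α θ p j * (p : ℂ) ^ (-s)‖ ≤ 3 / 4 := by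
  have hp2 : (2 : ℝ) ≤ p := by exact_mod_cast hp.two_le
  have h1 : (p : ℝ) ^ (w / 2 - s.re) ≤ (p : ℝ) ^ (-(1 / 2) : ℝ) :=
    Real.rpow_le_rpow_of_exponent_le (by linarith) (by linarith)
  have h2 : (p : ℝ) ^ (-(1 / 2) : ℝ) ≤ (2 : ℝ) ^ (-(1 / 2) : ℝ) :=
    Real.rpow_le_rpow_of_nonpos (by norm_num) hp2 (by norm_num)
  have h3 : (2 : ℝ) ^ (-(1 / 2) : ℝ) ≤ 3 / 4 := by
    rw [Real.rpow_neg (by norm_num), ← Real.sqrt_eq_rpow, inv_le_comm₀ (by positivity)
      (by norm_num)]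
    refine Real.le_sqrt_of_sq_le ?_
    norm_num
  exact ((norm_x (Bd_tw hα θ) hp j s).trans h1).trans (h2.trans h3)

theorem norm_lr {α : ℕ → Fin N → ℂ} (hα : Bd w α) (θ : ℕ → UnitAddCircle) (n : ℕ)
    {s : ℂ} (hs : (w + 1) / 2 ≤ s.re) : ‖lr α θ n s‖ ≤ 2 * N * (n : ℝ) ^ (w - 2 * s.re) := by
  unfold lr
  split_ifs with hn
  · have h1 : ∀ j ∈ (Finset.univ : Finset (Fin N)),
        ‖-Complex.log (1 - tw α θ n j * (n : ℂ) ^ (-s)) - tw α θ n j * (n : ℂ) ^ (-s)‖ ≤
          2 * (n : ℝ) ^ (w - 2 * s.re) := by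
      intro j _
      have h2 := x_le hα θ hn j hs
      have hn0 : (0 : ℝ) ≤ n := Nat.cast_nonneg n
      set x := tw α θ n j * (n : ℂ) ^ (-s)
      have h3 := norm_log_sub (w := x) (by linarith)
      refine h3.trans ?_
      have h4 : (1 - ‖x‖)⁻¹ ≤ 4 := by
        rw [inv_le_comm₀ (by linarith) (by norm_num)]
        linarith
      have h5 : ‖x‖ ^ 2 ≤ (n : ℝ) ^ (w - 2 * s.re) := by
        have h6 := pow_le_pow_left₀ (norm_nonneg _) (norm_x (Bd_tw hα θ) hn j s) 2
        rw [← Real.rpow_natCast ((n : ℝ) ^ (w / 2 - s.re)), ← Real.rpow_mul hn0] at h6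
        refine h6.trans (le_of_eq ?_)
        congr 1
        push_cast
        ring
      have h6 : 0 < (1 - ‖x‖)⁻¹ := inv_pos.2 (by linarith)
      have h7 := mul_le_mul h5 h4 h6.le (by positivity)
      linarith
    refine (norm_sum_le_of_le _ h1).trans (le_of_eq ?_)
    rw [Finset.sum_const, Finset.card_univ, Fintype.card_fin, nsmul_eq_mul]
    ring
  · rw [norm_zero]
    positivity

theorem lr_diff {α : ℕ → Fin N → ℂ} (hα : Bd w α) (θ : ℕ → UnitAddCircle) (n : ℕ)
    {s : ℂ} (hs : (w + 1) / 2 ≤ s.re) : DifferentiableAt ℂ (lr α θ n) s := by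
  unfold lr
  by_cases hn : n.Prime
  · simp only [if_pos hn]
    have h0 : (n : ℂ) ≠ 0 := by exact_mod_cast hn.ne_zero
    refine DifferentiableAt.fun_sum fun j _ => ?_
    have h1 : DifferentiableAt ℂ (fun s : ℂ => tw α θ n j * (n : ℂ) ^ (-s)) s :=
      DifferentiableAt.const_mul (DifferentiableAt.const_cpow differentiableAt_id.neg
        (Or.inl h0)) _
    refine DifferentiableAt.sub (DifferentiableAt.neg ?_) h1
    refine DifferentiableAt.clog ((differentiableAt_const _).sub h1) ?_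
    have h2 := x_le hα θ hn j hs
    left
    rw [Complex.sub_re, Complex.one_re]
    have h3 := Complex.abs_re_le_norm (tw α θ n j * (n : ℂ) ^ (-s))
    have := (abs_le.1 (h3.trans h2)).2
    linarith
  · simp only [if_neg hn]
    exact differentiableAt_const _

theorem lr_summable {α : ℕ → Fin N → ℂ} (hα : Bd w α) (θ : ℕ → UnitAddCircle)
    {s : ℂ} (hs : (w + 1) / 2 < s.re) : Summable fun n => lr α θ n s := by
  refine Summable.of_norm_bounded (g := fun n : ℕ => 2 * N * (n : ℝ) ^ (w - 2 * s.re)) ?_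
    fun n => norm_lr hα θ n hs.le
  exact (Real.summable_nat_rpow.2 (by linarith)).mul_left _

theorem lrs_diff {α : ℕ → Fin N → ℂ} (hα : Bd w α) (θ : ℕ → UnitAddCircle) :
    DifferentiableOn ℂ (fun s => ∑' n, lr α θ n s) {s : ℂ | (w + 1) / 2 < s.re} := by
  intro z hz
  have hz' : (w + 1) / 2 < z.re := hz
  set δ : ℝ := (z.re - (w + 1) / 2) / 2 with hδ
  have hδ0 : 0 < δ := by
    rw [hδ]
    linarith
  set U : Set ℂ := {s : ℂ | (w + 1) / 2 + δ < s.re} with hU
  have hUo : IsOpen U := isOpen_lt continuous_const Complex.continuous_re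
  have h1 : DifferentiableOn ℂ (fun s => ∑' n, lr α θ n s) U := by
    refine Complex.differentiableOn_tsum_of_summable_norm
      (u := fun n : ℕ => 2 * N * (n : ℝ) ^ (-1 - 2 * δ)) ?_ (fun n s hs => ?_) hUo ?_
    · exact (Real.summable_nat_rpow.2 (by linarith)).mul_left _
    · have hs' : (w + 1) / 2 + δ < s.re := hs
      exact (lr_diff hα θ n (by linarith)).differentiableWithinAt
    · intro n s hs
      have hs' : (w + 1) / 2 + δ < s.re := hs
      rcases Nat.eq_zero_or_pos n with h | h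
      · subst h
        unfold lr
        rw [if_neg (by norm_num), norm_zero]
        positivity
      · refine (norm_lr hα θ n (by linarith)).trans ?_
        have hn1 : (1 : ℝ) ≤ n := by exact_mod_cast h
        refine mul_le_mul_of_nonneg_left ?_ (by positivity)
        exact Real.rpow_le_rpow_of_exponent_le hn1 (by linarith)
  have hzU : z ∈ U := by
    show (w + 1) / 2 + δ < z.re
    rw [hδ]
    linarith
  exact (h1.differentiableAt (hUo.mem_nhds hzU)).differentiableWithinAt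

/-- the logarithm in the half-plane of absolute convergence -/
theorem LF_exp {α : ℕ → Fin N → ℂ} (hα : Bd w α) (θ : ℕ → UnitAddCircle) {s : ℂ}
    (hs : w / 2 + 1 < s.re) :
    Summable (fun n => (fourier 1 (θ n) : ℂ) * av α s n) ∧
    LF α θ s = Complex.exp ((∑' n, (fourier 1 (θ n) : ℂ) * av α s n) + ∑' n, lr α θ n s) := by
  have h1 : Summable fun n => (fourier 1 (θ n) : ℂ) * av α s n := by
    refine Summable.of_norm_bounded (g := fun n : ℕ => N * (n : ℝ) ^ (w / 2 - s.re)) ?_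
      fun n => ?_
    · exact (Real.summable_nat_rpow.2 (by linarith)).mul_left _
    · rw [norm_mul, norm_four, one_mul]
      exact norm_av hα s n
  refine ⟨h1, ?_⟩
  have h2 := h1.hasSum.add (lr_summable hα θ (by linarith : (w + 1) / 2 < s.re)).hasSum
  have h3 : HasSum (fun p : Nat.Primes => (fourier 1 (θ p) : ℂ) * av α s p + lr α θ p s)
      ((∑' n, (fourier 1 (θ n) : ℂ) * av α s n) + ∑' n, lr α θ n s) := by
    refine (hasSum_subtype_iff_of_support_subset (s := {p : ℕ | p.Prime})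
      (f := fun n => (fourier 1 (θ n) : ℂ) * av α s n + lr α θ n s) ?_).2 h2
    intro n hn
    rw [Function.mem_support] at hn
    by_contra h4
    have h5 : ¬ n.Prime := h4
    apply hn
    unfold av lr
    rw [if_neg h5, if_neg h5]
    ring
  have h4 := h3.cexp
  unfold LF
  refine HasProd.tprod_eq ?_
  refine HasProd.congr_fun h4 fun p => ?_
  show (∏ j, (1 - tw α θ p j * ((p : ℕ) : ℂ) ^ (-s)))⁻¹ =
    Complex.exp ((fourier 1 (θ p) : ℂ) * av α s p + lr α θ p s)
  unfold av lr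
  rw [if_pos p.2, if_pos p.2, Finset.sum_sub_distrib, Finset.sum_mul, Finset.mul_sum]
  have e : ∑ j, (fourier 1 (θ p) : ℂ) * (α p j * ((p : ℕ) : ℂ) ^ (-s)) =
      ∑ j, tw α θ p j * ((p : ℕ) : ℂ) ^ (-s) := by
    refine Finset.sum_congr rfl fun j _ => ?_
    unfold tw
    ring
  rw [e, add_sub_cancel, Complex.exp_sum, ← Finset.prod_inv_distrib]
  refine Finset.prod_congr rfl fun j _ => ?_
  rw [Complex.exp_neg, Complex.exp_log]
  intro h0
  have h5 := x_le hα θ p.2 j (s := s) (by linarith)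
  have h6 : tw α θ p j * ((p : ℕ) : ℂ) ^ (-s) = 1 := by linear_combination -h0
  rw [h6, norm_one] at h5
  norm_num at h5

/-- **Almost every twist continues analytically, without zeros, to the half-plane
`Re s > (w+1)/2`.** -/
theorem mc_ae {α : ℕ → Fin N → ℂ} (hα : Bd w α) : ∀ᵐ θ ∂Pr, ∃ G : ℂ → ℂ,
    DifferentiableOn ℂ G {s : ℂ | (w + 1) / 2 < s.re} ∧
    (∀ s : ℂ, G s ≠ 0) ∧
    ∀ s : ℂ, w / 2 + 1 < s.re → LF α θ s = G s := by
  have h1 : ∀ i m : ℕ, ∀ᵐ θ ∂Pr,
      (w + 1) / 2 + 1 / ((m : ℝ) + 1) ≤ (TopologicalSpace.denseSeq ℂ i).re - 1 / ((m : ℝ) + 1) →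
      ∃ u : ℕ → ℝ, Summable u ∧ ∀ k, ∀ z ∈ Metric.ball (TopologicalSpace.denseSeq ℂ i)
        (1 / ((m : ℝ) + 1) / 2), ‖blk α k θ z‖ ≤ u k := by
    intro i m
    by_cases h : (w + 1) / 2 + 1 / ((m : ℝ) + 1) ≤
        (TopologicalSpace.denseSeq ℂ i).re - 1 / ((m : ℝ) + 1)
    · filter_upwards [disc_ae hα (by positivity : 0 < 1 / ((m : ℝ) + 1))
        (by positivity : 0 < 1 / ((m : ℝ) + 1)) h] with θ hθ _
      exact hθ
    · exact Eventually.of_forall fun θ h' => absurd h' h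
  have h2 : ∀ᵐ θ ∂Pr, ∀ i m : ℕ,
      (w + 1) / 2 + 1 / ((m : ℝ) + 1) ≤ (TopologicalSpace.denseSeq ℂ i).re - 1 / ((m : ℝ) + 1) →
      ∃ u : ℕ → ℝ, Summable u ∧ ∀ k, ∀ z ∈ Metric.ball (TopologicalSpace.denseSeq ℂ i)
        (1 / ((m : ℝ) + 1) / 2), ‖blk α k θ z‖ ≤ u k :=
    ae_all_iff.2 fun i => ae_all_iff.2 fun m => h1 i m
  filter_upwards [h2] with θ hθ
  -- local bounds
  have loc : ∀ z : ℂ, (w + 1) / 2 < z.re → ∃ (c : ℂ) (r : ℝ), z ∈ Metric.ball c r ∧
      ∃ u : ℕ → ℝ, Summable u ∧ ∀ k, ∀ z ∈ Metric.ball c r, ‖blk α k θ z‖ ≤ u k := by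
    intro z hz
    obtain ⟨m, hm⟩ := exists_nat_one_div_lt (by linarith : 0 < (z.re - (w + 1) / 2) / 4)
    have hm0 : 0 < 1 / ((m : ℝ) + 1) := by positivity
    obtain ⟨i, hc⟩ := (TopologicalSpace.denseRange_denseSeq ℂ).exists_mem_open
      (Metric.isOpen_ball (x := z) (ε := 1 / ((m : ℝ) + 1) / 2))
      ⟨z, Metric.mem_ball_self (by positivity)⟩
    have h3 : |(TopologicalSpace.denseSeq ℂ i - z).re| < 1 / ((m : ℝ) + 1) / 2 := by
      refine lt_of_le_of_lt (Complex.abs_re_le_norm _) ?_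
      rw [← dist_eq_norm]
      exact hc
    rw [Complex.sub_re] at h3
    have h4 := (abs_lt.1 h3).1
    refine ⟨TopologicalSpace.denseSeq ℂ i, 1 / ((m : ℝ) + 1) / 2, ?_, hθ i m (by linarith)⟩
    rw [Metric.mem_ball, dist_comm]
    exact hc
  set F : ℂ → ℂ := fun s => ∑' k, blk α k θ s with hF
  have hFd : DifferentiableOn ℂ F {s : ℂ | (w + 1) / 2 < s.re} := by
    intro z hz
    obtain ⟨c, r, hzc, u, hu, hb⟩ := loc z hz
    have := Complex.differentiableOn_tsum_of_summable_norm hu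
      (fun k => (blk_diff α k θ).differentiableOn) Metric.isOpen_ball
      (fun k z hz => hb k z hz)
    exact (this.differentiableAt (Metric.isOpen_ball.mem_nhds hzc)).differentiableWithinAt
  refine ⟨fun s => Complex.exp (F s + ∑' n, lr α θ n s),
    (hFd.add (lrs_diff hα θ)).cexp, fun s => Complex.exp_ne_zero _, fun s hs => ?_⟩
  obtain ⟨g1, g2⟩ := LF_exp hα θ hs
  rw [g2]
  congr 2
  obtain ⟨c, r, hzc, u, hu, hb⟩ := loc s (by linarith)
  have hsum : Summable fun k => blk α k θ s :=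
    Summable.of_norm_bounded hu fun k => hb k s hzc
  have t1 : Tendsto (fun K => ∑ k ∈ range K, blk α k θ s) atTop (𝓝 (F s)) :=
    hsum.hasSum.tendsto_sum_nat
  have e1 : ∀ K, ∑ k ∈ range K, blk α k θ s =
      ∑ n ∈ range (2 ^ K), (fourier 1 (θ n) : ℂ) * av α s n := by
    intro K
    induction K with
    | zero =>
      have h0 : av α s 0 = 0 := by
        unfold av
        rw [if_neg (by norm_num)]
      rw [Finset.range_zero, Finset.sum_empty, pow_zero, Finset.sum_range_one, h0, mul_zero]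
    | succ K ih =>
      rw [Finset.sum_range_succ, ih]
      unfold blk
      rw [Finset.sum_range_add_sum_Ico _ (Nat.pow_le_pow_right (by norm_num) (by omega))]
  have t2 : Tendsto (fun K : ℕ => ∑ n ∈ range (2 ^ K), (fourier 1 (θ n) : ℂ) * av α s n) atTop
      (𝓝 (∑' n, (fourier 1 (θ n) : ℂ) * av α s n)) :=
    g1.hasSum.tendsto_sum_nat.comp (tendsto_pow_atTop_atTop_of_one_lt (by norm_num))
  simp_rw [e1] at t1
  exact tendsto_nhds_unique t2 t1

end Pool.Agent.Q255.SG
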