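import Pool.Agent.Q255.SG.MC3

/-! # Generic twists have the edge as natural boundary -/

set_option autoImplicit false

namespace Pool.Agent.Q255.SG

open Finset MeasureTheory Filter Topology Pool.Agent.Q255.SA Pool.Agent.TH109.CG ProbabilityTheory

variable {N : ℕ} {w : ℝ}

/-- the main part of the logarithm -/
noncomputable def SS (α : ℕ → Fin N → ℂ) (s : ℂ) (θ : ℕ → UnitAddCircle) : ℂ :=
  ∑' n, (fourier 1 (θ n) : ℂ) * av α s n

theorem SS_cont {α : ℕ → Fin N → ℂ} (hα : Bd w α) {s : ℂ} (hs : w / 2 + 1 < s.re) :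
    Continuous (SS α s) := by
  unfold SS
  refine continuous_tsum (u := fun n : ℕ => N * (n : ℝ) ^ (w / 2 - s.re))
    (fun n => (e_cont n).mul continuous_const) ?_ fun n θ => ?_
  · exact (Real.summable_nat_rpow.2 (by linarith)).mul_left _
  · rw [norm_mul, norm_four, one_mul]
    exact norm_av hα s n

/-- the bound for the remainder -/
noncomputable def CR (N : ℕ) : ℝ := 2 * N * ∑' n : ℕ, (n : ℝ) ^ (-2 : ℝ)

theorem lrs_le {α : ℕ → Fin N → ℂ} (hα : Bd w α) (θ : ℕ → UnitAddCircle) {s : ℂ}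
    (hs : w / 2 + 1 ≤ s.re) : ‖∑' n, lr α θ n s‖ ≤ CR N := by
  unfold CR
  rw [← tsum_mul_left]
  refine tsum_of_norm_bounded ((Real.summable_nat_rpow.2 (by norm_num)).mul_left _).hasSum
    fun n => ?_
  rcases Nat.eq_zero_or_pos n with h | h
  · subst h
    unfold lr
    rw [if_neg (by norm_num), norm_zero]
    positivity
  · refine (norm_lr hα θ n (by linarith)).trans ?_
    have hn1 : (1 : ℝ) ≤ n := by exact_mod_cast h
    refine mul_le_mul_of_nonneg_left ?_ (by positivity)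
    exact Real.rpow_le_rpow_of_exponent_le hn1 (by linarith)

theorem log_LF {α : ℕ → Fin N → ℂ} (hα : Bd w α) (θ : ℕ → UnitAddCircle) {s : ℂ}
    (hs : w / 2 + 1 < s.re) : LF α θ s ≠ 0 ∧ |Real.log ‖LF α θ s‖ - (SS α s θ).re| ≤ CR N := by
  have h1 := (LF_exp hα θ hs).2
  have h2 : ‖LF α θ s‖ = Real.exp ((SS α s θ).re + (∑' n, lr α θ n s).re) := by
    rw [h1, Complex.norm_exp, Complex.add_re]
    rfl
  refine ⟨?_, ?_⟩
  · rw [h1]
    exact Complex.exp_ne_zero _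
  · rw [h2, Real.log_exp, add_sub_cancel_left]
    exact (Complex.abs_re_le_norm _).trans (lrs_le hα θ hs.le)

/-- the size of the coefficients on the edge -/
noncomputable def bb (w : ℝ) (α : ℕ → Fin N → ℂ) (n : ℕ) : ℝ :=
  if n.Prime then ‖∑ j, α n j‖ * (n : ℝ) ^ (-(w / 2 + 1)) else 0

theorem bb_nonneg (w : ℝ) (α : ℕ → Fin N → ℂ) (n : ℕ) : 0 ≤ bb w α n := by
  unfold bb
  split_ifs
  · positivity
  · exact le_rfl

/-- points over the edge -/
noncomputable def sh (w h t : ℝ) : ℂ := ((w / 2 + 1 + h : ℝ) : ℂ) + (t : ℂ) * Complex.I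

theorem sh_re (w h t : ℝ) : (sh w h t).re = w / 2 + 1 + h := by
  unfold sh
  simp

theorem norm_av_sh (α : ℕ → Fin N → ℂ) (h t : ℝ) (n : ℕ) :
    ‖av α (sh w h t) n‖ = bb w α n * (n : ℝ) ^ (-h) := by
  unfold av bb
  split_ifs with hn
  · have hn0 : (0 : ℝ) < n := by exact_mod_cast hn.pos
    rw [norm_mul, Complex.norm_natCast_cpow_of_pos hn.pos, Complex.neg_re, sh_re, mul_assoc,
      ← Real.rpow_add hn0]
    congr 2
    ring
  · simp

theorem exists_angle (z : ℂ) (σ : ℝ) (hσ : |σ| = 1) :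
    ∃ x : UnitAddCircle, (fourier 1 x : ℂ) * z = ((σ * ‖z‖ : ℝ) : ℂ) := by
  have h1 : ∃ u : Circle, (u : ℂ) * z = ((σ * ‖z‖ : ℝ) : ℂ) := by
    by_cases hz : z = 0
    · exact ⟨1, by simp [hz]⟩
    · have hz0 : 0 < ‖z‖ := norm_pos_iff.2 hz
      have hu : ‖((σ : ℂ) * (starRingEnd ℂ z / (‖z‖ : ℂ)))‖ = 1 := by
        rw [norm_mul, norm_div, Complex.norm_real, Real.norm_eq_abs, hσ, RCLike.norm_conj,
          Complex.norm_real, Real.norm_of_nonneg hz0.le, div_self hz0.ne', one_mul]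
      refine ⟨⟨_, mem_sphere_zero_iff_norm.2 hu⟩, ?_⟩
      show (σ : ℂ) * (starRingEnd ℂ z / (‖z‖ : ℂ)) * z = _
      have hz1 : (‖z‖ : ℂ) ≠ 0 := Complex.ofReal_ne_zero.2 hz0.ne'
      have e : starRingEnd ℂ z * z = (‖z‖ : ℂ) ^ 2 := by
        rw [mul_comm, Complex.mul_conj']
      push_cast
      field_simp
      rw [mul_assoc, e]
  obtain ⟨u, hu⟩ := h1
  refine ⟨((Complex.arg u / (2 * Real.pi) : ℝ) : UnitAddCircle), ?_⟩
  have e : (fourier 1 ((Complex.arg u / (2 * Real.pi) : ℝ) : UnitAddCircle) : ℂ) = u := by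
    rw [fourier_one, AddCircle.toCircle_apply_mk]
    have : 2 * Real.pi / 1 * (Complex.arg u / (2 * Real.pi)) = Complex.arg u := by
      have := Real.pi_ne_zero
      field_simp
    rw [this, Circle.exp_arg]
  rw [e]
  exact hu

/-- neighbourhoods of zero contain the points with vanishing first coordinates -/
theorem nhds_tail {V : Set (ℕ → UnitAddCircle)} (hV : V ∈ 𝓝 (0 : ℕ → UnitAddCircle)) :
    ∃ X : ℕ, ∀ δ : ℕ → UnitAddCircle, (∀ n < X, δ n = 0) → δ ∈ V := by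
  rw [nhds_pi, Filter.mem_pi] at hV
  obtain ⟨I, hI, t, ht, hsub⟩ := hV
  obtain ⟨X, hX⟩ := hI.bddAbove
  refine ⟨X + 1, fun δ hδ => hsub fun i hi => ?_⟩
  have h1 : i ≤ X := hX hi
  rw [hδ i (by omega)]
  exact mem_of_mem_nhds (ht i)

/-- The main part can be made large by a change of the angles at the large primes. -/
theorem big_near {α : ℕ → Fin N → ℂ} (hα : Bd w α) (hdiv : ¬ Summable (bb w α)) (t σ : ℝ)
    (hσ : |σ| = 1) (M : ℕ) (θ₀ : ℕ → UnitAddCircle) {V : Set (ℕ → UnitAddCircle)}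
    (hV : V ∈ 𝓝 θ₀) : ∃ θ ∈ V, ∃ h : ℝ, 0 < h ∧ h < 1 / ((M : ℝ) + 1) ∧
      (M : ℝ) < σ * (SS α (sh w h t) θ).re := by
  -- the neighbourhood
  have hV0 : (fun δ : ℕ → UnitAddCircle => θ₀ + δ) ⁻¹' V ∈ 𝓝 (0 : ℕ → UnitAddCircle) := by
    have hc : Continuous fun δ : ℕ → UnitAddCircle => θ₀ + δ := continuous_const.add continuous_id
    refine hc.continuousAt.preimage_mem_nhds ?_
    rw [add_zero]
    exact hV
  obtain ⟨X, hX⟩ := nhds_tail hV0
  -- the angles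
  have h1 : ∀ n : ℕ, ∃ x : UnitAddCircle, (fourier 1 x : ℂ) *
      ((∑ j, α n j) * (n : ℂ) ^ (-((t : ℂ) * Complex.I))) =
        ((σ * ‖(∑ j, α n j) * (n : ℂ) ^ (-((t : ℂ) * Complex.I))‖ : ℝ) : ℂ) := fun n =>
    exists_angle _ σ hσ
  choose y hy using h1
  set θ : ℕ → UnitAddCircle := fun n => if n < X then θ₀ n else y n with hθ
  have hθV : θ ∈ V := by
    have := hX (θ - θ₀) fun n hn => by
      rw [Pi.sub_apply, hθ]
      simp only [if_pos hn, sub_self]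
    rw [Set.mem_preimage, add_sub_cancel] at this
    exact this
  refine ⟨θ, hθV, ?_⟩
  -- the terms
  have hterm : ∀ (h : ℝ) (n : ℕ), X ≤ n →
      σ * ((fourier 1 (θ n) : ℂ) * av α (sh w h t) n).re = bb w α n * (n : ℝ) ^ (-h) := by
    intro h n hn
    by_cases hp : n.Prime
    · have hn0 : (0 : ℝ) < n := by exact_mod_cast hp.pos
      have hn1 : (n : ℂ) ≠ 0 := by exact_mod_cast hp.ne_zero
      have e1 : θ n = y n := by
        rw [hθ]
        simp only [if_neg (not_lt.2 hn)]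
      have e2 : (fourier 1 (θ n) : ℂ) * av α (sh w h t) n =
          (((σ * ‖∑ j, α n j‖) * (n : ℝ) ^ (-(w / 2 + 1 + h)) : ℝ) : ℂ) := by
        have h2 := hy n
        rw [← e1] at h2
        have e3 : ‖(∑ j, α n j) * (n : ℂ) ^ (-((t : ℂ) * Complex.I))‖ = ‖∑ j, α n j‖ := by
          rw [norm_mul, Complex.norm_natCast_cpow_of_pos hp.pos]
          simp
        rw [e3] at h2
        unfold av sh
        rw [if_pos hp, neg_add, Complex.cpow_add _ _ hn1]
        have e4 : (n : ℂ) ^ (-((w / 2 + 1 + h : ℝ) : ℂ)) =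
            (((n : ℝ) ^ (-(w / 2 + 1 + h)) : ℝ) : ℂ) := by
          rw [Complex.ofReal_cpow hn0.le]
          push_cast
          rfl
        rw [e4]
        calc _ = ((fourier 1 (θ n) : ℂ) * ((∑ j, α n j) * (n : ℂ) ^ (-((t : ℂ) * Complex.I)))) *
              (((n : ℝ) ^ (-(w / 2 + 1 + h)) : ℝ) : ℂ) := by ring
          _ = _ := by
            rw [h2]
            push_cast
            ring
      have hσ2 : σ * σ = 1 := by
        rw [← abs_mul_abs_self, hσ, one_mul]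
      rw [e2, Complex.ofReal_re]
      unfold bb
      rw [if_pos hp, mul_assoc ‖∑ j, α n j‖, ← Real.rpow_add hn0,
        show -(w / 2 + 1) + -h = -(w / 2 + 1 + h) by ring]
      calc σ * (σ * ‖∑ j, α n j‖ * (n : ℝ) ^ (-(w / 2 + 1 + h))) =
          (σ * σ) * (‖∑ j, α n j‖ * (n : ℝ) ^ (-(w / 2 + 1 + h))) := by ring
        _ = _ := by rw [hσ2, one_mul]
    · unfold av bb
      rw [if_neg hp, if_neg hp]
      simp
  -- divergence
  set A : ℝ := ∑ n ∈ range X, bb w α n with hA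
  have hdiv' := (not_summable_iff_tendsto_nat_atTop_of_nonneg (bb_nonneg w α)).1 hdiv
  obtain ⟨Y, hY1, hY2⟩ : ∃ Y : ℕ, 2 * A + M + 1 ≤ ∑ n ∈ range Y, bb w α n ∧ X ≤ Y :=
    ((hdiv'.eventually_ge_atTop (2 * A + M + 1)).and (eventually_ge_atTop X)).exists
  have hY3 : A + M + 1 ≤ ∑ n ∈ Ico X Y, bb w α n := by
    rw [Finset.sum_Ico_eq_sub _ hY2]
    linarith
  -- continuity in h
  have hc : Tendsto (fun h : ℝ => ∑ n ∈ Ico X Y, bb w α n * (n : ℝ) ^ (-h)) (𝓝[>] 0)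
      (𝓝 (∑ n ∈ Ico X Y, bb w α n)) := by
    refine tendsto_finset_sum _ fun n _ => ?_
    by_cases hp : n.Prime
    · have hn0 : (0 : ℝ) < n := by exact_mod_cast hp.pos
      have h2 : Tendsto (fun h : ℝ => bb w α n * (n : ℝ) ^ (-h)) (𝓝 0)
          (𝓝 (bb w α n * (n : ℝ) ^ (-(0 : ℝ)))) := by
        refine Tendsto.const_mul _ ?_
        exact ((Real.continuous_const_rpow hn0.ne').tendsto _).comp
          (continuous_neg.tendsto 0)
      rw [neg_zero, Real.rpow_zero, mul_one] at h2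
      exact h2.mono_left nhdsWithin_le_nhds
    · have e : bb w α n = 0 := by
        unfold bb
        rw [if_neg hp]
      simp only [e, zero_mul]
      exact tendsto_const_nhds
  have hev1 : ∀ᶠ h : ℝ in 𝓝[>] 0, A + M < ∑ n ∈ Ico X Y, bb w α n * (n : ℝ) ^ (-h) :=
    hc.eventually_const_lt (by linarith)
  have hev2 : ∀ᶠ h : ℝ in 𝓝[>] 0, h < 1 / ((M : ℝ) + 1) := by
    have : Set.Ioo (0 : ℝ) (1 / ((M : ℝ) + 1)) ∈ 𝓝[>] (0 : ℝ) :=
      Ioo_mem_nhdsGT (by positivity)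
    filter_upwards [this] with h hh
    exact hh.2
  obtain ⟨h, hh1, hh2, hh3⟩ := (hev1.and (hev2.and self_mem_nhdsWithin)).exists
  have hh0 : 0 < h := hh3
  refine ⟨h, hh0, hh2, ?_⟩
  -- the sum
  have hsre : w / 2 + 1 < (sh w h t).re := by
    rw [sh_re]
    linarith
  have hsum := (LF_exp hα θ hsre).1
  have hreal : HasSum (fun n => σ * ((fourier 1 (θ n) : ℂ) * av α (sh w h t) n).re)
      (σ * (SS α (sh w h t) θ).re) :=
    (Complex.hasSum_re hsum.hasSum).mul_left σ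
  have hlow : ∑ n ∈ range Y, σ * ((fourier 1 (θ n) : ℂ) * av α (sh w h t) n).re ≤
      σ * (SS α (sh w h t) θ).re := by
    refine sum_le_hasSum _ (fun n hn => ?_) hreal
    rw [Finset.mem_range, not_lt] at hn
    rw [hterm h n (hY2.trans hn)]
    exact mul_nonneg (bb_nonneg w α n) (by positivity)
  have hsplit : ∑ n ∈ range Y, σ * ((fourier 1 (θ n) : ℂ) * av α (sh w h t) n).re =
      ∑ n ∈ range X, σ * ((fourier 1 (θ n) : ℂ) * av α (sh w h t) n).re +
      ∑ n ∈ Ico X Y, bb w α n * (n : ℝ) ^ (-h) := by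
    rw [← Finset.sum_range_add_sum_Ico _ hY2]
    congr 1
    refine Finset.sum_congr rfl fun n hn => ?_
    rw [Finset.mem_Ico] at hn
    exact hterm h n hn.1
  have hfirst : -A ≤ ∑ n ∈ range X, σ * ((fourier 1 (θ n) : ℂ) * av α (sh w h t) n).re := by
    rw [hA, ← Finset.sum_neg_distrib]
    refine Finset.sum_le_sum fun n _ => ?_
    have h2 : |σ * ((fourier 1 (θ n) : ℂ) * av α (sh w h t) n).re| ≤ bb w α n := by
      rw [abs_mul, hσ, one_mul]
      refine (Complex.abs_re_le_norm _).trans ?_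
      rw [norm_mul, norm_four, one_mul, norm_av_sh]
      by_cases hp : n.Prime
      · have hn1 : (1 : ℝ) ≤ n := by exact_mod_cast hp.one_le
        have h3 : (n : ℝ) ^ (-h) ≤ 1 := by
          rw [← Real.rpow_zero (n : ℝ)]
          exact Real.rpow_le_rpow_of_exponent_le hn1 (by linarith)
        calc bb w α n * (n : ℝ) ^ (-h) ≤ bb w α n * 1 :=
              mul_le_mul_of_nonneg_left h3 (bb_nonneg w α n)
          _ = _ := mul_one _
      · have e : bb w α n = 0 := by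
          unfold bb
          rw [if_neg hp]
        rw [e, zero_mul]
    exact (abs_le.1 h2).1
  linarith

/-- **The generic twist oscillates at all rational points of the edge.** -/
theorem mc_gen {α : ℕ → Fin N → ℂ} (hα : Bd w α) (hdiv : ¬ Summable (bb w α)) :
    ∀ᶠ θ in residual (ℕ → UnitAddCircle), ∀ (t : ℚ) (M : ℕ),
      (∃ h : ℝ, 0 < h ∧ h < 1 / ((M : ℝ) + 1) ∧ (M : ℝ) < (SS α (sh w h t) θ).re) ∧
      ∃ h : ℝ, 0 < h ∧ h < 1 / ((M : ℝ) + 1) ∧ (SS α (sh w h t) θ).re < -M := by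
  have key : ∀ (σ : ℝ), |σ| = 1 → ∀ (t : ℚ) (M : ℕ), ∀ᶠ θ in residual (ℕ → UnitAddCircle),
      ∃ h : ℝ, 0 < h ∧ h < 1 / ((M : ℝ) + 1) ∧ (M : ℝ) < σ * (SS α (sh w h t) θ).re := by
    intro σ hσ t M
    have ho : IsOpen {θ : ℕ → UnitAddCircle | ∃ h : ℝ, 0 < h ∧ h < 1 / ((M : ℝ) + 1) ∧
        (M : ℝ) < σ * (SS α (sh w h t) θ).re} := by
      have e : {θ : ℕ → UnitAddCircle | ∃ h : ℝ, 0 < h ∧ h < 1 / ((M : ℝ) + 1) ∧
          (M : ℝ) < σ * (SS α (sh w h t) θ).re} =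
          ⋃ h ∈ Set.Ioo (0 : ℝ) (1 / ((M : ℝ) + 1)),
            {θ : ℕ → UnitAddCircle | (M : ℝ) < σ * (SS α (sh w h t) θ).re} := by
        ext θ
        simp only [Set.mem_setOf_eq, Set.mem_iUnion, Set.mem_Ioo, exists_prop, and_assoc]
      rw [e]
      refine isOpen_biUnion fun h hh => isOpen_lt continuous_const ?_
      refine continuous_const.mul (Complex.continuous_re.comp (SS_cont hα ?_))
      rw [sh_re]
      linarith [hh.1]
    have hd : Dense {θ : ℕ → UnitAddCircle | ∃ h : ℝ, 0 < h ∧ h < 1 / ((M : ℝ) + 1) ∧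
        (M : ℝ) < σ * (SS α (sh w h t) θ).re} := by
      intro θ₀
      rw [mem_closure_iff_nhds]
      intro V hV
      obtain ⟨θ, hθ, h⟩ := big_near hα hdiv t σ hσ M θ₀ hV
      exact ⟨θ, hθ, h⟩
    exact residual_of_dense_open ho hd
  have h1 := eventually_countable_forall.2 fun t : ℚ => eventually_countable_forall.2 fun M : ℕ =>
    (key 1 (by norm_num) t M).and (key (-1) (by norm_num) t M)
  filter_upwards [h1] with θ hθ t M
  obtain ⟨⟨h, a1, a2, a3⟩, ⟨h', b1, b2, b3⟩⟩ := hθ t M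
  exact ⟨⟨h, a1, a2, by linarith⟩, ⟨h', b1, b2, by linarith⟩⟩

/-- **The edge is a natural boundary of the generic twist.** -/
theorem mc_nat {α : ℕ → Fin N → ℂ} (hα : Bd w α) {θ : ℕ → UnitAddCircle}
    (h : ∀ (t : ℚ) (M : ℕ), ∃ h : ℝ, 0 < h ∧ h < 1 / ((M : ℝ) + 1) ∧
      (M : ℝ) < (SS α (sh w h t) θ).re) (t₀ : ℝ) :
    ¬ ∃ F : ℂ → ℂ, MeromorphicAt F (sh w 0 t₀) ∧
      ∀ᶠ s in 𝓝 (sh w 0 t₀), w / 2 + 1 < s.re → F s = LF α θ s := by
  rintro ⟨F, hF, hFL⟩
  have h1 : ∀ᶠ s in 𝓝[≠] (sh w 0 t₀), AnalyticAt ℂ F s := hF.eventually_analyticAt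
  have h2 : ∀ᶠ s in 𝓝[≠] (sh w 0 t₀), ∀ᶠ z in 𝓝 s, w / 2 + 1 < z.re → F z = LF α θ z :=
    (eventually_eventually_nhds.2 hFL).filter_mono nhdsWithin_le_nhds
  -- transfer to the line
  have hcl : Continuous fun t : ℝ => sh w 0 t := by
    unfold sh
    fun_prop
  have h3 : Tendsto (fun t : ℝ => sh w 0 t) (𝓝[≠] t₀) (𝓝[≠] (sh w 0 t₀)) := by
    refine tendsto_nhdsWithin_iff.2 ⟨(hcl.tendsto t₀).mono_left nhdsWithin_le_nhds, ?_⟩
    filter_upwards [self_mem_nhdsWithin] with t ht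
    intro he
    apply ht
    have h4 := congrArg Complex.im he
    unfold sh at h4
    simpa using h4
  have h4 := h3.eventually (h1.and h2)
  obtain ⟨t, ht, ht1, ht2⟩ : ∃ t : ℚ, (t : ℝ) ≠ t₀ ∧ AnalyticAt ℂ F (sh w 0 t) ∧
      ∀ᶠ z in 𝓝 (sh w 0 t), w / 2 + 1 < z.re → F z = LF α θ z := by
    rw [eventually_nhdsWithin_iff] at h4
    obtain ⟨U, hU, hUo, hU0⟩ := eventually_nhds_iff.1 h4
    have h5 : (U ∩ Set.Ioi t₀).Nonempty := by
      have h6 : U ∈ 𝓝[>] t₀ := mem_nhdsWithin_of_mem_nhds (hUo.mem_nhds hU0)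
      exact ((Filter.eventually_iff.1 (Filter.Eventually.and h6 self_mem_nhdsWithin)) |>
        Filter.nonempty_of_mem)
    obtain ⟨t, ht⟩ := Rat.denseRange_cast.exists_mem_open (hUo.inter isOpen_Ioi) h5
    exact ⟨t, (ne_of_gt ht.2), hU t ht.1 (ne_of_gt ht.2)⟩
  -- boundedness near the point
  have h5 : Tendsto (fun h : ℝ => sh w h t) (𝓝 0) (𝓝 (sh w 0 t)) := by
    have : Continuous fun h : ℝ => sh w h t := by
      unfold sh
      fun_prop
    exact this.tendsto 0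
  have h6 : ∀ᶠ h : ℝ in 𝓝 0, ‖F (sh w h t)‖ < ‖F (sh w 0 t)‖ + 1 :=
    ((ht1.continuousAt.norm.tendsto.comp h5)).eventually_lt_const (by linarith)
  have h7 := h6.and (h5.eventually ht2)
  rw [Metric.eventually_nhds_iff] at h7
  obtain ⟨ε, hε, h8⟩ := h7
  obtain ⟨M, hM1, hM2⟩ : ∃ M : ℕ, 1 / ((M : ℝ) + 1) < ε ∧
      ‖F (sh w 0 t)‖ + 1 + CR N ≤ M := by
    have t1 := (tendsto_one_div_add_atTop_nhds_zero_nat (𝕜 := ℝ)).eventually_lt_const hε
    have t2 : ∀ᶠ M : ℕ in atTop, ‖F (sh w 0 t)‖ + 1 + CR N ≤ (M : ℝ) :=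
      tendsto_natCast_atTop_atTop.eventually_ge_atTop _
    exact (t1.and t2).exists
  obtain ⟨h, hh0, hh1, hh2⟩ := h t M
  obtain ⟨g1, g2⟩ := h8 (y := h) (by
    rw [Real.dist_eq, sub_zero, abs_of_pos hh0]
    linarith)
  have hre : w / 2 + 1 < (sh w h t).re := by
    rw [sh_re]
    linarith
  have g3 := g2 hre
  obtain ⟨g4, g5⟩ := log_LF hα θ hre
  have g6 := (abs_le.1 g5).1
  rw [g3] at g1
  have g7 : Real.log ‖LF α θ (sh w h t)‖ ≤ ‖LF α θ (sh w h t)‖ := by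
    have := Real.log_le_sub_one_of_pos (norm_pos_iff.2 g4)
    linarith
  linarith

end Pool.Agent.Q255.SG
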