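import Pool.Agent.Q255.SA.Core

/-! # The mean square of the tail of the logarithm -/

set_option autoImplicit false

namespace Pool.Agent.Q255.SG

open Finset MeasureTheory Filter Topology Pool.Agent.Q255.SA

theorem P3n : ∃ C : ℝ, 0 < C ∧ ∀ (t : ℝ) (x z : ℕ), 3 ≤ x → x ≤ z → t ≠ 0 → |t| ≤ 1 →
    |t| * Real.log x ≤ 1 → ‖PS x z t‖ ≤ -Real.log (|t| * Real.log x) + C := by
  obtain ⟨C, hC, h⟩ := mert
  obtain ⟨C', hC', h'⟩ := prim_tail
  refine ⟨2 * C + C' + 1, by positivity, fun t x z hx hxz ht ht1 htx => ?_⟩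
  have hx3 : (3 : ℝ) ≤ x := by exact_mod_cast hx
  have hxz' : (x : ℝ) ≤ z := by exact_mod_cast hxz
  have hlx : 0 < Real.log x := Real.log_pos (by linarith)
  have hlz : 0 < Real.log z := Real.log_pos (by linarith)
  have ht' : 0 < |t| := abs_pos.2 ht
  rw [Real.log_mul ht'.ne' hlx.ne']
  have hm : ∀ y : ℕ, x ≤ y → RS x y ≤ Real.log (Real.log y) - Real.log (Real.log x) + 2 * C := by
    intro y hy
    have h1 := RS_add (Nat.zero_le x) hy
    have h2 := (abs_le.1 (h y (by omega))).2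
    have h3 := (abs_le.1 (h x hx)).1
    linarith
  by_cases hcase : |t| * Real.log z ≤ 1
  · have h2 : Real.log (Real.log z) ≤ -Real.log |t| := by
      have := Real.log_nonpos (by positivity) hcase
      rw [Real.log_mul ht'.ne' hlz.ne'] at this
      linarith
    have h3 := norm_PS_le x z t
    have h4 := hm z hxz
    linarith
  · push Not at hcase
    obtain ⟨h3, h4, h5⟩ := cut ht ht1
    set y := ⌈Real.exp (1 / |t|)⌉₊ with hy
    have hyz : y ≤ z := by
      rw [hy, Nat.ceil_le]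
      rw [← Real.le_log_iff_exp_le (by linarith), div_le_iff₀ ht']
      linarith
    have hxy : x ≤ y := by
      have h6 : (x : ℝ) ≤ Real.exp (1 / |t|) := by
        rw [← Real.log_le_iff_le_exp (by linarith), le_div_iff₀ ht']
        linarith
      exact_mod_cast h6.trans (Nat.le_ceil _)
    rw [← PS_add t hxy hyz]
    refine (norm_add_le _ _).trans ?_
    have h6 := norm_PS_le x y t
    have h7 := hm y hxy
    have h8 := h' t y z (by omega) hyz ht ht1
    have h9 : C' / (|t| * Real.log y) ≤ C' := by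
      have h10 : 1 ≤ |t| * Real.log y := by
        rw [div_le_iff₀ ht'] at h4
        linarith
      rw [div_le_iff₀ (by linarith)]
      nlinarith
    linarith

/-- The mean square of the tail of the sum over the primes. -/
theorem tail_sq : ∃ C : ℝ, 0 < C ∧ ∀ x z : ℕ, 3 ≤ x → x ≤ z →
    ∫ t in (-1 : ℝ)..1, ‖PS x z t‖ ^ 2 ≤ C / Real.log x := by
  obtain ⟨C2, hC2, hP2⟩ := prim_tail
  obtain ⟨C3, hC3, hP3⟩ := P3n
  refine ⟨2 * (2 * (4 + C3) ^ 2 + C2 ^ 2), by positivity, fun x z hx hxz => ?_⟩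
  have hx3 : (3 : ℝ) ≤ x := by exact_mod_cast hx
  have hlx1 : 1 ≤ Real.log x := by
    rw [Real.le_log_iff_exp_le (by linarith)]
    have := Real.exp_one_lt_d9
    linarith
  have hlx : 0 < Real.log x := by linarith
  set δ := 1 / Real.log x with hδ
  have hδ0 : 0 < δ := by positivity
  have hδ1 : δ ≤ 1 := by
    rw [hδ, div_le_one hlx]
    exact hlx1
  set G : ℝ → ℝ := fun t => ‖PS x z t‖ ^ 2 with hG
  have hGc : Continuous G := by
    have := PS_continuous x z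
    fun_prop
  have hb1 : ∀ t : ℝ, t ≠ 0 → |t| ≤ δ → G t ≤ ((4 + C3) ^ 2 * δ ^ (1 / 2 : ℝ)) *
      |t| ^ (-(2 * (1 / 4 : ℝ))) := by
    intro t ht htδ
    have ht' : 0 < |t| := abs_pos.2 ht
    have ht1 : |t| ≤ 1 := htδ.trans hδ1
    have htx : |t| * Real.log x ≤ 1 := by
      rw [hδ, le_div_iff₀ hlx] at htδ
      exact htδ
    have h3 := hP3 t x z hx hxz ht ht1 htx
    set w := |t| * Real.log x with hw
    have hw0 : 0 < w := by positivity
    have hw1 : 1 ≤ w ^ (-(1 / 4) : ℝ) :=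
      Real.one_le_rpow_of_pos_of_le_one_of_nonpos hw0 htx (by norm_num)
    have h4 : -Real.log w ≤ 4 * w ^ (-(1 / 4) : ℝ) := by
      have h5 := Real.log_le_sub_one_of_pos (Real.rpow_pos_of_pos hw0 (-(1 / 4) : ℝ))
      rw [Real.log_rpow hw0] at h5
      linarith
    have h5 : ‖PS x z t‖ ≤ (4 + C3) * w ^ (-(1 / 4) : ℝ) := by nlinarith
    simp only [hG]
    calc ‖PS x z t‖ ^ 2 ≤ ((4 + C3) * w ^ (-(1 / 4) : ℝ)) ^ 2 :=
          pow_le_pow_left₀ (norm_nonneg _) h5 2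
      _ = (4 + C3) ^ 2 * (w ^ (-(1 / 2) : ℝ)) := by
          rw [mul_pow, ← Real.rpow_natCast (w ^ (-(1 / 4) : ℝ)), ← Real.rpow_mul hw0.le]
          congr 2
          norm_num
      _ = _ := by
          have e5 : δ ^ (1 / 2 : ℝ) = Real.log x ^ (-(1 / 2) : ℝ) := by
            rw [hδ, one_div, Real.inv_rpow hlx.le, ← Real.rpow_neg hlx.le]
          have e6 : (-(2 * (1 / 4)) : ℝ) = -(1 / 2) := by norm_num
          rw [hw, Real.mul_rpow ht'.le hlx.le, e5, e6]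
          ring
  have hb2 : ∀ t : ℝ, δ ≤ |t| → |t| ≤ 1 → G t ≤ C2 ^ 2 * δ ^ 2 * |t| ^ (-(2 * 0) - 2 : ℝ) := by
    intro t htδ ht1
    have ht' : 0 < |t| := hδ0.trans_le htδ
    have ht : t ≠ 0 := abs_pos.1 ht'
    have h3 := hP2 t x z (by omega) hxz ht ht1
    have h4 : C2 / (|t| * Real.log x) = C2 * δ / |t| := by
      rw [hδ]
      field_simp
    rw [h4] at h3
    simp only [hG]
    calc ‖PS x z t‖ ^ 2 ≤ (C2 * δ / |t|) ^ 2 := pow_le_pow_left₀ (norm_nonneg _) h3 2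
      _ = _ := by
          have : (-(2 * 0) - 2 : ℝ) = -2 := by norm_num
          rw [this, Real.rpow_neg ht'.le, Real.rpow_two, div_pow, mul_pow]
          rfl
  have e1 : 2 * (2 * (4 + C3) ^ 2 + C2 ^ 2) / Real.log x =
      2 * (((4 + C3) ^ 2 * δ ^ (1 / 2 : ℝ)) * (δ ^ (1 - 2 * (1 / 4) : ℝ) / (1 - 2 * (1 / 4))) +
        C2 ^ 2 * δ ^ (1 - 2 * 0 : ℝ)) := by
    have h1 : δ ^ (1 / 2 : ℝ) * δ ^ (1 - 2 * (1 / 4) : ℝ) = δ := by
      rw [← Real.rpow_add hδ0]
      norm_num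
    have h2 : δ ^ (1 - 2 * 0 : ℝ) = δ := by norm_num
    rw [h2, mul_assoc, ← mul_div_assoc (δ ^ (1 / 2 : ℝ)), h1, hδ]
    field_simp
    ring
  rw [e1]
  refine int_sym hGc (δ := δ) ?_ ?_ ?_ ?_
  · refine int_small hGc (by norm_num) (by norm_num) hδ0 fun t ht ht1 => ?_
    have := hb1 t ht.ne' (by rwa [abs_of_pos ht])
    rwa [abs_of_pos ht] at this
  · refine int_small (hGc.comp continuous_neg) (by norm_num) (by norm_num) hδ0 fun t ht ht1 => ?_
    have := hb1 (-t) (by linarith) (by rwa [abs_neg, abs_of_pos ht])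
    rwa [abs_neg, abs_of_pos ht] at this
  · refine int_large hGc le_rfl (by positivity) hδ0 hδ1 fun t ht ht1 => ?_
    have ht0 : 0 < t := hδ0.trans_le ht
    have := hb2 t (by rwa [abs_of_pos ht0]) (by rwa [abs_of_pos ht0])
    rwa [abs_of_pos ht0] at this
  · refine int_large (hGc.comp continuous_neg) le_rfl (by positivity) hδ0 hδ1 fun t ht ht1 => ?_
    have ht0 : 0 < t := hδ0.trans_le ht
    have := hb2 (-t) (by rwa [abs_neg, abs_of_pos ht0]) (by rwa [abs_neg, abs_of_pos ht0])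
    rwa [abs_neg, abs_of_pos ht0] at this

/-- The mean square of the tail with coefficients, on any unit interval. -/
theorem tail_CS : ∃ C : ℝ, 0 < C ∧ ∀ (κ : ℝ) (c : ℕ → ℂ), 0 ≤ κ →
    (∀ k, k.Prime → ‖c k‖ ≤ κ) → (∀ k, ¬ k.Prime → c k = 0) →
    ∀ (x z : ℕ) (a : ℝ), 3 ≤ x → x ≤ z →
      ∫ t in a..(a + 1), ‖CS c x z t‖ ^ 2 ≤ C * κ ^ 2 / Real.log x := by
  obtain ⟨C, hC, h⟩ := tail_sq
  refine ⟨2 * C, by positivity, fun κ c hκ hc hc0 x z a hx hxz => ?_⟩
  have h1 := (dom_CS hκ hc hc0 x z).maj a one_pos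
  refine h1.trans ?_
  have h2 := h x z hx hxz
  have e : ∀ t : ℝ, ‖(κ : ℂ) * PS x z t‖ ^ 2 = κ ^ 2 * ‖PS x z t‖ ^ 2 := by
    intro t
    rw [norm_mul, mul_pow, Complex.norm_real, Real.norm_of_nonneg hκ]
  simp_rw [e]
  rw [intervalIntegral.integral_const_mul]
  calc 2 * (κ ^ 2 * ∫ t in (-1 : ℝ)..1, ‖PS x z t‖ ^ 2) ≤ 2 * (κ ^ 2 * (C / Real.log x)) := by
        gcongr
    _ = _ := by ring

end Pool.Agent.Q255.SG
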