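import Pool.Agent.Q255.SG.Gen
import Pool.Agent.Q255.SG.Tail
import Pool.Agent.Q255.SA.Muck2

/-! # Mean square approximation of boundary functions: general systems of Euler factors -/

set_option autoImplicit false

namespace Pool.Agent.Q255.SG

open NumberField IsDedekindDomain Finset Pool.Agent.H921R2.TatePole
  Pool.Agent.W350.EdgeNF Pool.Agent.W350.EdgeV MeasureTheory Filter Topology
  Pool.Agent.Q255.SA

/-- `l` is the limit of the functions `P x` outside a set `T`. -/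
def Lim (P : ℕ → ℝ → ℂ) (T : Set ℝ) (l : ℝ → ℂ) : Prop :=
  ∀ τ ∉ T, l τ ≠ 0 ∧ Tendsto (fun x => P x τ) atTop (𝓝 (l τ))

section
variable {K : Type} [Field K] [NumberField K] {B A : ℝ}

theorem PP_ne (D : LD K B A) (x : ℕ) (τ : ℝ) : PP D x τ ≠ 0 := Complex.exp_ne_zero _

theorem norm_PP (D : LD K B A) (x : ℕ) (τ : ℝ) : ‖PP D x τ‖ = Real.exp (LP D x τ).re :=
  Complex.norm_exp _

theorem log_PP (D : LD K B A) (x : ℕ) (τ : ℝ) : Real.log ‖PP D x τ‖ = (LP D x τ).re := by
  rw [norm_PP, Real.log_exp]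

theorem PP_continuous (D : LD K B A) (x : ℕ) : Continuous (PP D x) := by
  have := LP_continuous D x
  unfold PP
  fun_prop

theorem PP_pow (D : LD K B A) (x : ℕ) (τ r : ℝ) :
    ‖PP D x τ‖ ^ r = pv (fun k => r * cK D k) (fun y t => r * HH D y t) x τ := by
  unfold pv
  rw [norm_PP, Complex.norm_exp, ← Real.exp_mul, LP_eq]
  congr 1
  have e1 : CS (fun k => (r : ℂ) * cK D k) 0 x τ = r * CS (cK D) 0 x τ := by
    unfold CS
    rw [Finset.mul_sum]
    refine Finset.sum_congr rfl fun k _ => ?_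
    ring
  rw [e1, ← mul_add, Complex.re_ofReal_mul, mul_comm]

theorem PP_pow_continuous (D : LD K B A) (x : ℕ) (r : ℝ) : Continuous fun τ => ‖PP D x τ‖ ^ r :=
  (PP_continuous D x).norm.rpow_const fun τ => Or.inl (norm_ne_zero_iff.2 (PP_ne D x τ))

end

theorem ae_not {T : Set ℝ} (hT : volume T = 0) : ∀ᵐ t ∂(volume : Measure ℝ), t ∉ T := by
  rw [ae_iff]
  simpa using hT

/-- Mean square approximation of powers. -/
theorem gen_approx (d : ℕ) {B A r0 : ℝ} (hB : 0 ≤ B) (hA : 0 ≤ A) (h0 : 0 ≤ r0)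
    (h1 : 2 * B * d * r0 < 1) : ∃ C : ℝ, 0 < C ∧
    ∀ (K : Type) [Field K] [NumberField K], Module.finrank ℚ K ≤ d →
    ∀ (D : LD K B A) (T : Set ℝ), volume T = 0 →
    ∀ l : ℝ → ℂ, Lim (PP D) T l → ∀ r : ℝ, |r| ≤ r0 → ∀ x : ℕ, 3 ≤ x → ∀ a : ℝ,
      ∫⁻ t in Set.Icc a (a + 1), ENNReal.ofReal ((‖l t‖ ^ r - ‖PP D x t‖ ^ r) ^ 2) ≤
        ENNReal.ofReal (C * (Real.log x) ^ (-(1 - 2 * B * d * r0))) := by
  set κ := B * d * r0 with hκ
  have hκ0 : 0 ≤ κ := by positivity
  have hκ1 : κ < 1 / 2 := by linarith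
  set M := r0 * ((A + B) * d * S0) with hM
  have hS := S0_nonneg
  have hM0 : 0 ≤ M := by positivity
  obtain ⟨C, hC, hcore⟩ := core hκ0 hκ1 hM0
  refine ⟨C, hC, fun K _ _ hK D T hT l hl r hr x hx a => ?_⟩
  have hdK : (Module.finrank ℚ K : ℝ) ≤ d := by exact_mod_cast hK
  have hbd : (A + B) * Module.finrank ℚ K * S0 ≤ (A + B) * d * S0 := by
    gcongr
  have hrr : ‖(r : ℂ)‖ ≤ r0 := by rwa [Complex.norm_real, Real.norm_eq_abs]
  have e2 : (1 - 2 * κ) = 1 - 2 * B * d * r0 := by rw [hκ]; ring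
  have key : ∀ z, x ≤ z → ∫ t in a..(a + 1), (‖PP D z t‖ ^ r - ‖PP D x t‖ ^ r) ^ 2 ≤
      C * (Real.log x) ^ (-(1 - 2 * B * d * r0)) := by
    intro z hz
    have h2 := hcore (fun k => r * cK D k) (fun k hk => by
      rw [norm_mul]
      calc ‖(r : ℂ)‖ * ‖cK D k‖ ≤ r0 * (B * Module.finrank ℚ K) :=
            mul_le_mul hrr (norm_cK D hk) (norm_nonneg _) h0
        _ ≤ r0 * (B * d) := by gcongr
        _ = κ := by rw [hκ]; ring) (fun k hk => by
      rw [cK_not_prime D hk, mul_zero]) (fun y t => r * HH D y t)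
      (fun y => continuous_const.mul (HH_continuous D y)) (fun y t => by
        rw [norm_mul]
        exact mul_le_mul hrr ((HH_bound D y t).trans hbd) (norm_nonneg _) h0)
      (fun y z t hy hyz => by
        rw [← mul_sub, norm_mul, hM, mul_assoc]
        refine mul_le_mul hrr ((HH_diff D (by omega) hyz t).trans ?_) (norm_nonneg _) h0
        exact mul_le_mul_of_nonneg_right hbd (by positivity)) x z a hx hz
    rw [e2] at h2
    simp_rw [← PP_pow] at h2
    exact h2
  exact fatou (f := fun z t => ‖PP D z t‖ ^ r) (fun z => PP_pow_continuous D z r) hT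
    (fun t ht => (hl t ht).2.norm.rpow_const (Or.inl (norm_ne_zero_iff.2 (hl t ht).1)))
    (PP_pow_continuous D x r) key

/-- Bounds for the integrals of powers of the boundary function. -/
theorem gen_int (d : ℕ) {B A q0 : ℝ} (hB : 0 ≤ B) (hA : 0 ≤ A) (h0 : 0 ≤ q0)
    (h1 : B * d * q0 < 1) : ∃ C : ℝ, 0 < C ∧
    ∀ (K : Type) [Field K] [NumberField K], Module.finrank ℚ K ≤ d →
    ∀ (D : LD K B A) (T : Set ℝ), volume T = 0 →
    ∀ l : ℝ → ℂ, Lim (PP D) T l → ∀ q : ℝ, |q| ≤ q0 → ∀ a : ℝ,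
      ∫⁻ t in Set.Icc a (a + 1), ENNReal.ofReal (‖l t‖ ^ q) ≤ ENNReal.ofReal C := by
  set κ := B * d * (q0 / 2) with hκ
  have hκ0 : 0 ≤ κ := by positivity
  have hκ1 : κ < 1 / 2 := by rw [hκ]; linarith
  set M := q0 / 2 * ((A + B) * d * S0) with hM
  have hS := S0_nonneg
  have hM0 : 0 ≤ M := by positivity
  obtain ⟨C, hC, hcore⟩ := core_bd (M := M) hκ0 hκ1
  refine ⟨C, hC, fun K _ _ hK D T hT l hl q hq a => ?_⟩
  have hdK : (Module.finrank ℚ K : ℝ) ≤ d := by exact_mod_cast hK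
  have hbd : (A + B) * Module.finrank ℚ K * S0 ≤ (A + B) * d * S0 := by
    gcongr
  have hq2 : |q / 2| ≤ q0 / 2 := by
    rw [abs_div, abs_two]
    linarith
  have hrr : ‖((q / 2 : ℝ) : ℂ)‖ ≤ q0 / 2 := by rwa [Complex.norm_real, Real.norm_eq_abs]
  have hsq : ∀ u : ℝ, 0 < u → (u ^ (q / 2)) ^ 2 = u ^ q := by
    intro u hu
    rw [← Real.rpow_natCast, ← Real.rpow_mul hu.le]
    congr 1
    push_cast
    ring
  have key : ∀ z, 3 ≤ z → ∫ t in a..(a + 1), (‖PP D z t‖ ^ (q / 2) - 0) ^ 2 ≤ C := by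
    intro z hz
    have h2 := hcore (fun k => ((q / 2 : ℝ) : ℂ) * cK D k) (fun k hk => by
      rw [norm_mul]
      calc ‖((q / 2 : ℝ) : ℂ)‖ * ‖cK D k‖ ≤ q0 / 2 * (B * Module.finrank ℚ K) :=
            mul_le_mul hrr (norm_cK D hk) (norm_nonneg _) (by linarith)
        _ ≤ q0 / 2 * (B * d) := by gcongr
        _ = κ := by rw [hκ]; ring) (fun k hk => by
      rw [cK_not_prime D hk, mul_zero]) (fun y t => ((q / 2 : ℝ) : ℂ) * HH D y t)
      (fun y => continuous_const.mul (HH_continuous D y)) (fun y t => by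
        rw [norm_mul]
        exact mul_le_mul hrr ((HH_bound D y t).trans hbd) (norm_nonneg _) (by linarith)) z a hz
    simp_rw [← PP_pow] at h2
    simp_rw [sub_zero]
    exact h2
  have h3 := fatou (f := fun z t => ‖PP D z t‖ ^ (q / 2)) (g := fun t => ‖l t‖ ^ (q / 2))
    (h := fun _ => 0) (fun z => PP_pow_continuous D z (q / 2)) hT
    (fun t ht => (hl t ht).2.norm.rpow_const (Or.inl (norm_ne_zero_iff.2 (hl t ht).1)))
    continuous_const key
  refine le_trans (le_of_eq ?_) h3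
  refine lintegral_congr_ae ?_
  filter_upwards [ae_restrict_of_ae (ae_not hT)] with t ht
  rw [sub_zero, hsq _ (norm_pos_iff.2 (hl t ht).1)]

/-- Mean square approximation of the logarithm. -/
theorem gen_log (d : ℕ) {B A : ℝ} (hB : 0 ≤ B) (hA : 0 ≤ A) : ∃ C : ℝ, 0 < C ∧
    ∀ (K : Type) [Field K] [NumberField K], Module.finrank ℚ K ≤ d →
    ∀ (D : LD K B A) (T : Set ℝ), volume T = 0 →
    ∀ l : ℝ → ℂ, Lim (PP D) T l → ∀ x : ℕ, 3 ≤ x → ∀ a : ℝ,
      ∫⁻ t in Set.Icc a (a + 1), ENNReal.ofReal ((Real.log ‖l t‖ - Real.log ‖PP D x t‖) ^ 2) ≤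
        ENNReal.ofReal (C / Real.log x) := by
  obtain ⟨C1, hC1, htail⟩ := tail_CS
  have hS := S0_nonneg
  set M := (A + B) * d * S0 with hM
  have hM0 : 0 ≤ M := by positivity
  refine ⟨2 * (C1 * (B * d) ^ 2) + 2 * (M ^ 2 * 4) + 1, by positivity,
    fun K _ _ hK D T hT l hl x hx a => ?_⟩
  have hdK : (Module.finrank ℚ K : ℝ) ≤ d := by exact_mod_cast hK
  have hbd : (A + B) * Module.finrank ℚ K * S0 ≤ M := by
    rw [hM]
    gcongr
  have hx3 : (3 : ℝ) ≤ x := by exact_mod_cast hx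
  have hx0 : (0 : ℝ) < x := by linarith
  have hlx : 0 < Real.log x := Real.log_pos (by linarith)
  have hx4 : (x : ℝ) ^ (-(1 / 4) : ℝ) ≤ 4 / Real.log x := by
    have := x_small (κ := 0) hx le_rfl
    rw [mul_zero, sub_zero, Real.rpow_neg_one, ← div_eq_mul_inv] at this
    exact this
  have key : ∀ z, x ≤ z → ∫ t in a..(a + 1), ((LP D z t).re - (LP D x t).re) ^ 2 ≤
      (2 * (C1 * (B * d) ^ 2) + 2 * (M ^ 2 * 4) + 1) / Real.log x := by
    intro z hz
    have c1 := LP_continuous D z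
    have c2 := LP_continuous D x
    have c3 := CS_continuous (cK D) x z
    have hpt : ∀ t : ℝ, ((LP D z t).re - (LP D x t).re) ^ 2 ≤
        2 * ‖CS (cK D) x z t‖ ^ 2 + 2 * (M ^ 2 * (x : ℝ) ^ (-(1 / 4) : ℝ)) := by
      intro t
      have e1 : LP D z t - LP D x t = CS (cK D) x z t + (HH D z t - HH D x t) := by
        rw [LP_eq, LP_eq, ← CS_add (cK D) t (Nat.zero_le x) hz]
        ring
      have h3 := (HH_diff D (by omega : 1 ≤ x) hz t).trans
        (mul_le_mul_of_nonneg_right hbd (by positivity))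
      have h4 : |(LP D z t).re - (LP D x t).re| ≤ ‖CS (cK D) x z t‖ +
          M * (x : ℝ) ^ (-(1 / 8) : ℝ) := by
        rw [← Complex.sub_re]
        refine (Complex.abs_re_le_norm _).trans ?_
        rw [e1]
        exact (norm_add_le _ _).trans (add_le_add le_rfl h3)
      have h5 : (M * (x : ℝ) ^ (-(1 / 8) : ℝ)) ^ 2 = M ^ 2 * (x : ℝ) ^ (-(1 / 4) : ℝ) := by
        rw [mul_pow, ← Real.rpow_natCast ((x : ℝ) ^ (-(1 / 8) : ℝ)), ← Real.rpow_mul hx0.le]
        congr 2
        norm_num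
      rw [← h5, ← sq_abs]
      have h6 := pow_le_pow_left₀ (abs_nonneg _) h4 2
      nlinarith [sq_nonneg (‖CS (cK D) x z t‖ - M * (x : ℝ) ^ (-(1 / 8) : ℝ))]
    have h2 : ∫ t in a..(a + 1), ((LP D z t).re - (LP D x t).re) ^ 2 ≤
        ∫ t in a..(a + 1), (2 * ‖CS (cK D) x z t‖ ^ 2 +
          2 * (M ^ 2 * (x : ℝ) ^ (-(1 / 4) : ℝ))) := by
      refine intervalIntegral.integral_mono_on (by linarith) ?_ ?_ fun t _ => hpt t
      · apply Continuous.intervalIntegrable
        have h7 := Complex.continuous_re.comp c1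
        have h8 := Complex.continuous_re.comp c2
        exact (h7.sub h8).pow 2
      · apply Continuous.intervalIntegrable
        fun_prop
    refine h2.trans ?_
    rw [intervalIntegral.integral_add (by apply Continuous.intervalIntegrable; fun_prop)
      (by apply Continuous.intervalIntegrable; fun_prop), intervalIntegral.integral_const_mul,
      intervalIntegral.integral_const]
    have h3 := htail (B * d) (cK D) (by positivity) (fun k hk => (norm_cK D hk).trans (by gcongr))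
      (fun k hk => cK_not_prime D hk) x z a hx hz
    have e3 : a + 1 - a = 1 := by ring
    rw [e3, one_smul]
    have h4 : M ^ 2 * (x : ℝ) ^ (-(1 / 4) : ℝ) ≤ M ^ 2 * (4 / Real.log x) := by gcongr
    have h5 : (2 * (C1 * (B * d) ^ 2) + 2 * (M ^ 2 * 4) + 1) / Real.log x =
        2 * (C1 * (B * d) ^ 2 / Real.log x) + 2 * (M ^ 2 * (4 / Real.log x)) + 1 / Real.log x := by
      ring
    have h6 : 0 < 1 / Real.log x := by positivity
    rw [h5]
    linarith
  have h9 := fatou (f := fun z t => (LP D z t).re) (g := fun t => Real.log ‖l t‖)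
    (h := fun t => (LP D x t).re) (fun z => Complex.continuous_re.comp (LP_continuous D z)) hT
    (fun t ht => by
      have h7 := ((hl t ht).2.norm.log (norm_ne_zero_iff.2 (hl t ht).1))
      simp_rw [log_PP] at h7
      exact h7) (Complex.continuous_re.comp (LP_continuous D x)) key
  simp_rw [log_PP]
  exact h9

end Pool.Agent.Q255.SG
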