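import Pool.Agent.Q255.SG.Contn

/-! # Meromorphic continuation and the square of the modulus -/

set_option autoImplicit false

namespace Pool.Agent.Q255.SG

open NumberField IsDedekindDomain Finset Pool.Agent.H921R2.TatePole
  Pool.Agent.W350.EdgeEC Pool.Agent.W350.EdgeNF Pool.Agent.W350.EdgeV MeasureTheory Filter Topology
  Pool.Agent.Q255.SA

/-- `F` is a meromorphic continuation of `L` to a neighbourhood of `s0`, from the half-plane
`Re s > Re s0`. -/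
def ContAt (L : ℂ → ℂ) (s0 : ℂ) (F : ℂ → ℂ) : Prop :=
  MeromorphicAt F s0 ∧ ∃ δ : ℝ, 0 < δ ∧ ∀ s : ℂ, s0.re < s.re → ‖s - s0‖ < δ → L s = F s

/-- `|l|²` agrees almost everywhere near `t0` with the function `φ` meromorphic at `t0`. -/
def ModAt (l : ℝ → ℂ) (t0 : ℝ) (φ : ℝ → ℝ) : Prop :=
  MeromorphicAt φ t0 ∧ ∃ δ : ℝ, 0 < δ ∧ ∀ᵐ t : ℝ, |t - t0| < δ → ‖l t‖ ^ 2 = φ t

theorem exists_of_ae {p : ℝ → Prop} (h : ∀ᵐ t : ℝ, p t) {a b : ℝ} (hab : a < b) :
    ∃ t, a < t ∧ t < b ∧ p t := by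
  have h1 : Dense {t | p t} := Measure.dense_of_ae h
  obtain ⟨t, ht, hp⟩ := h1.exists_mem_open isOpen_Ioo (Set.nonempty_Ioo.2 hab)
  exact ⟨t, hp.1, hp.2, ht⟩

theorem ae_eq_mero {φ₁ φ₂ : ℝ → ℝ} {t0 : ℝ} (h1 : MeromorphicAt φ₁ t0)
    (h2 : MeromorphicAt φ₂ t0) {δ : ℝ} (hδ : 0 < δ)
    (h : ∀ᵐ t : ℝ, |t - t0| < δ → φ₁ t = φ₂ t) : φ₁ =ᶠ[𝓝[≠] t0] φ₂ := by
  have e3 : ∀ᶠ t in 𝓝[≠] t0, |t - t0| < δ := by
    have : Metric.ball t0 δ ∈ 𝓝 t0 := Metric.ball_mem_nhds _ hδ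
    have h3 : ∀ᶠ t in 𝓝 t0, |t - t0| < δ := by
      filter_upwards [this] with s hs
      rwa [Metric.mem_ball, Real.dist_eq] at hs
    exact h3.filter_mono nhdsWithin_le_nhds
  filter_upwards [h1.eventually_analyticAt, h2.eventually_analyticAt, e3] with t a1 a2 a3
  by_contra hne
  have hc : ContinuousAt (fun t => φ₁ t - φ₂ t) t := a1.continuousAt.sub a2.continuousAt
  have b1 : ∀ᶠ y in 𝓝 t, φ₁ y - φ₂ y ≠ 0 := hc.eventually_ne (sub_ne_zero.2 hne)
  have b2 : ∀ᶠ y in 𝓝 t, |y - t0| < δ := by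
    have : Continuous fun y : ℝ => |y - t0| := by fun_prop
    exact (this.tendsto t).eventually_lt_const a3
  obtain ⟨η, hη, hb⟩ := Metric.eventually_nhds_iff.1 (b1.and b2)
  obtain ⟨y, hy1, hy2, hy3⟩ := exists_of_ae h (a := t - η) (b := t + η) (by linarith)
  have hd : dist y t < η := by
    rw [Real.dist_eq, abs_lt]
    exact ⟨by linarith, by linarith⟩
  obtain ⟨c1, c2⟩ := hb hd
  exact c1 (sub_eq_zero.2 (hy3 c2))

variable {w : ℝ} {L : ℂ → ℂ} {T : Set ℝ} {l : ℝ → ℂ} {t0 : ℝ}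

theorem cpow_int (z : ℂ) (m : ℤ) : z ^ (((m : ℝ) : ℝ) : ℂ) = z ^ m := by
  rw [Complex.ofReal_intCast, Complex.cpow_intCast]

theorem rpow_sq {x : ℝ} (m : ℤ) : (|x| ^ (m : ℝ)) ^ 2 = x ^ (2 * m) := by
  rw [Real.rpow_intCast, ← zpow_natCast (|x| ^ m) 2, ← zpow_mul, mul_comm m]
  rw [zpow_mul, zpow_mul]
  congr 1
  rw [zpow_natCast, zpow_two, pow_two, abs_mul_abs_self]

theorem mer_of_cont (hT : volume T = 0) (hl : HorLim w L T l)
    (hL0 : ∀ s : ℂ, w / 2 + 1 < s.re → L s ≠ 0) {F : ℂ → ℂ} (hF : ContAt L (epw w t0) F) :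
    ∃ m : ℤ, meromorphicOrderAt F (epw w t0) = m ∧ ∃ φ : ℝ → ℝ, ModAt l t0 φ ∧
      meromorphicOrderAt φ t0 = ((2 * m : ℤ) : WithTop ℤ) := by
  obtain ⟨hF1, δ, hδ, hF2⟩ := hF
  rw [epw_re] at hF2
  have hm : meromorphicOrderAt F (epw w t0) ≠ ⊤ := by
    intro htop
    rw [meromorphicOrderAt_eq_top_iff] at htop
    rw [eventually_nhdsWithin_iff] at htop
    obtain ⟨η, hη, hb⟩ := Metric.eventually_nhds_iff.1 htop
    set ε : ℝ := min δ η / 2 with hε
    have hε0 : 0 < ε := by positivity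
    have hεδ : ε < δ := lt_of_lt_of_le (half_lt_self (by positivity)) (min_le_left _ _)
    have hεη : ε < η := lt_of_lt_of_le (half_lt_self (by positivity)) (min_le_right _ _)
    have hn : ‖epw w t0 + (ε : ℂ) - epw w t0‖ = ε := by
      rw [add_sub_cancel_left, Complex.norm_real, Real.norm_of_nonneg hε0.le]
    have hre : w / 2 + 1 < (epw w t0 + (ε : ℂ)).re := by
      rw [Complex.add_re, epw_re, Complex.ofReal_re]
      linarith
    have h1 := hF2 (epw w t0 + ε) hre (by rw [hn]; exact hεδ)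
    have h2 := hb (y := epw w t0 + ε) (by rw [dist_eq_norm, hn]; exact hεη) (by
      simp only [Set.mem_compl_iff, Set.mem_singleton_iff]
      intro h3
      rw [h3, sub_self, norm_zero] at hn
      linarith)
    exact hL0 _ hre (h1.trans h2)
  obtain ⟨m, hm2⟩ := WithTop.ne_top_iff_exists.1 hm
  refine ⟨m, hm2.symm, ?_⟩
  obtain ⟨g, hg1, hg2, hg3⟩ := (meromorphicOrderAt_eq_int_iff hF1).1 hm2.symm
  rw [eventually_nhdsWithin_iff] at hg3
  obtain ⟨η, hη, hb⟩ := Metric.eventually_nhds_iff.1 hg3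
  have hmin : 0 < min δ η := lt_min hδ hη
  obtain ⟨ψ, hψ, δ', hδ', hψ2⟩ := bwd (κ := (m : ℝ)) hT hl hg1 hg2 hmin fun s hs hsd => by
    rw [cpow_int, hF2 s hs (hsd.trans_le (min_le_left _ _))]
    refine (hb (by rw [dist_eq_norm]; exact hsd.trans_le (min_le_right _ _)) ?_).trans rfl
    simp only [Set.mem_compl_iff, Set.mem_singleton_iff]
    rintro rfl
    rw [epw_re] at hs
    exact lt_irrefl _ hs
  have han : AnalyticAt ℝ (fun t => Real.exp (2 * ψ t)) t0 := (analyticAt_const.mul hψ).rexp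
  have hmer : MeromorphicAt (fun t : ℝ => (t - t0) ^ (2 * m) * Real.exp (2 * ψ t)) t0 :=
    (((MeromorphicAt.id t0).sub (MeromorphicAt.const t0 t0)).zpow (2 * m)).mul han.meromorphicAt
  refine ⟨fun t => (t - t0) ^ (2 * m) * Real.exp (2 * ψ t), ⟨hmer, δ', hδ', ?_⟩, ?_⟩
  · filter_upwards [hψ2] with t ht htd
    rw [ht htd, mul_pow, rpow_sq, ← Real.exp_nat_mul]
    push_cast
    rfl
  · refine (meromorphicOrderAt_eq_int_iff hmer).2 ⟨_, han, (Real.exp_pos _).ne', ?_⟩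
    exact Filter.Eventually.of_forall fun t => rfl

theorem cont_of_mer (hT : volume T = 0) (hl0 : ∀ t ∉ T, l t ≠ 0)
    (hfwd : ∀ (κ : ℝ) (ψ : ℝ → ℝ), AnalyticAt ℝ ψ t0 → ∀ δ : ℝ, 0 < δ →
      (∀ᵐ t : ℝ, |t - t0| < δ → ‖l t‖ = |t - t0| ^ κ * Real.exp (ψ t)) →
      ∃ F : ℂ → ℂ, AnalyticAt ℂ F (epw w t0) ∧ F (epw w t0) ≠ 0 ∧ ∃ δ' : ℝ, 0 < δ' ∧
      ∀ s : ℂ, w / 2 + 1 < s.re → ‖s - epw w t0‖ < δ' →
        L s = (s - epw w t0) ^ (κ : ℂ) * F s) {φ : ℝ → ℝ} (hφ : ModAt l t0 φ) :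
    ∃ m : ℤ, meromorphicOrderAt φ t0 = ((2 * m : ℤ) : WithTop ℤ) ∧
      ∃ F : ℂ → ℂ, ContAt L (epw w t0) F ∧ meromorphicOrderAt F (epw w t0) = m := by
  obtain ⟨hφ1, δ, hδ, hφ2⟩ := hφ
  have hae : ∀ᵐ t : ℝ, |t - t0| < δ → 0 < φ t := by
    filter_upwards [hφ2, ae_not hT] with t h1 h2 h3
    rw [← h1 h3]
    have := norm_pos_iff.2 (hl0 t h2)
    positivity
  have hm : meromorphicOrderAt φ t0 ≠ ⊤ := by
    intro htop
    rw [meromorphicOrderAt_eq_top_iff, eventually_nhdsWithin_iff] at htop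
    obtain ⟨η, hη, hb⟩ := Metric.eventually_nhds_iff.1 htop
    have hmin : 0 < min δ η := lt_min hδ hη
    obtain ⟨t, ht1, ht2, ht3⟩ := exists_of_ae hae (a := t0) (b := t0 + min δ η) (by linarith)
    have habs : |t - t0| < min δ η := by
      rw [abs_of_pos (by linarith)]
      linarith
    have h1 := ht3 (habs.trans_le (min_le_left _ _))
    have h2 := hb (y := t) (by rw [Real.dist_eq]; exact habs.trans_le (min_le_right _ _))
      (by simpa using ht1.ne')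
    linarith
  obtain ⟨n, hn⟩ := WithTop.ne_top_iff_exists.1 hm
  obtain ⟨u, hu1, hu2, hu3⟩ := (meromorphicOrderAt_eq_int_iff hφ1).1 hn.symm
  rw [eventually_nhdsWithin_iff] at hu3
  -- a neighbourhood where the sign of `u` is constant
  have hsgn : ∀ᶠ t in 𝓝 t0, 0 < u t * u t0 := by
    have h1 : Tendsto (fun t => u t * u t0) (𝓝 t0) (𝓝 (u t0 * u t0)) :=
      hu1.continuousAt.tendsto.mul_const _
    exact h1.eventually_const_lt (mul_self_pos.2 hu2)
  obtain ⟨η, hη, hb⟩ := Metric.eventually_nhds_iff.1 (hu3.and hsgn)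
  have hmin : 0 < min δ η := lt_min hδ hη
  have key : ∀ t : ℝ, |t - t0| < η → t ≠ t0 → φ t = (t - t0) ^ n * u t := by
    intro t h1 h2
    exact (hb (y := t) (by rw [Real.dist_eq]; exact h1)).1 (by simpa using h2)
  have hupos : 0 < u t0 := by
    obtain ⟨t, ht1, ht2, ht3⟩ := exists_of_ae hae (a := t0) (b := t0 + min δ η) (by linarith)
    have habs : |t - t0| < min δ η := by
      rw [abs_of_pos (by linarith)]
      linarith
    have h1 := ht3 (habs.trans_le (min_le_left _ _))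
    rw [key t (habs.trans_le (min_le_right _ _)) ht1.ne'] at h1
    have h2 : 0 < (t - t0) ^ n := zpow_pos (by linarith) n
    have h3 : 0 < u t := (mul_pos_iff_of_pos_left h2).1 h1
    have h4 := (hb (y := t) (by rw [Real.dist_eq]; exact habs.trans_le (min_le_right _ _))).2
    exact (mul_pos_iff_of_pos_left h3).1 h4
  have hupos2 : ∀ t : ℝ, |t - t0| < η → 0 < u t := by
    intro t ht
    exact (mul_pos_iff_of_pos_right hupos).1 (hb (y := t) (by rw [Real.dist_eq]; exact ht)).2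
  have heven : Even n := by
    by_contra hodd
    rw [Int.not_even_iff_odd] at hodd
    obtain ⟨t, ht1, ht2, ht3⟩ := exists_of_ae hae (a := t0 - min δ η) (b := t0) (by linarith)
    have habs : |t - t0| < min δ η := by
      rw [abs_of_neg (by linarith)]
      linarith
    have h1 := ht3 (habs.trans_le (min_le_left _ _))
    rw [key t (habs.trans_le (min_le_right _ _)) ht2.ne] at h1
    have h2 : (t - t0) ^ n < 0 := hodd.zpow_neg_iff.2 (by linarith)
    have h3 := hupos2 t (habs.trans_le (min_le_right _ _))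
    nlinarith
  obtain ⟨m, hm2⟩ := heven
  have hn2 : n = 2 * m := by omega
  refine ⟨m, by rw [← hn2, ← hn], ?_⟩
  have hψ : AnalyticAt ℝ (fun t => 1 / 2 * Real.log (u t)) t0 :=
    analyticAt_const.mul (hu1.log hupos)
  have hne : ∀ᵐ t : ℝ, t ≠ t0 := by
    have : volume ({t0} : Set ℝ) = 0 := measure_singleton t0
    filter_upwards [ae_not this] with t ht using ht
  obtain ⟨F, hF1, hF2, δ', hδ', hF3⟩ := hfwd m _ hψ (min δ η) hmin (by
    filter_upwards [hφ2, hne] with t h1 h2 h3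
    have e1 := h1 (h3.trans_le (min_le_left _ _))
    rw [key t (h3.trans_le (min_le_right _ _)) h2, hn2, ← rpow_sq] at e1
    have e2 := hupos2 t (h3.trans_le (min_le_right _ _))
    have e3 : Real.exp (1 / 2 * Real.log (u t)) ^ 2 = u t := by
      rw [← Real.exp_nat_mul]
      push_cast
      rw [← mul_assoc, one_div, mul_inv_cancel₀ (by norm_num), one_mul, Real.exp_log e2]
    have e4 : ‖l t‖ ^ 2 = (|t - t0| ^ (m : ℝ) * Real.exp (1 / 2 * Real.log (u t))) ^ 2 := by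
      rw [mul_pow, e3, e1]
    have e5 : 0 ≤ |t - t0| ^ (m : ℝ) * Real.exp (1 / 2 * Real.log (u t)) := by positivity
    exact (pow_left_inj₀ (norm_nonneg _) e5 two_ne_zero).1 e4)
  have hmer : MeromorphicAt (fun s : ℂ => (s - epw w t0) ^ m * F s) (epw w t0) :=
    (((MeromorphicAt.id _).sub (MeromorphicAt.const _ _)).zpow m).mul hF1.meromorphicAt
  refine ⟨fun s => (s - epw w t0) ^ m * F s, ⟨hmer, δ', hδ', fun s hs hsd => ?_⟩, ?_⟩
  · rw [epw_re] at hs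
    rw [hF3 s hs hsd, cpow_int]
  · refine (meromorphicOrderAt_eq_int_iff hmer).2 ⟨F, hF1, hF2, ?_⟩
    exact Filter.Eventually.of_forall fun t => rfl

theorem order_eq (hT : volume T = 0) (hl : HorLim w L T l)
    (hL0 : ∀ s : ℂ, w / 2 + 1 < s.re → L s ≠ 0) {F : ℂ → ℂ} (hF : ContAt L (epw w t0) F)
    {φ : ℝ → ℝ} (hφ : ModAt l t0 φ) :
    meromorphicOrderAt φ t0 = 2 * meromorphicOrderAt F (epw w t0) := by
  obtain ⟨m, hm, φ', ⟨hφ'1, δ', hδ', hφ'2⟩, hφ'3⟩ := mer_of_cont hT hl hL0 hF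
  obtain ⟨hφ1, δ, hδ, hφ2⟩ := hφ
  have h1 : φ =ᶠ[𝓝[≠] t0] φ' := by
    refine ae_eq_mero hφ1 hφ'1 (lt_min hδ hδ') ?_
    filter_upwards [hφ2, hφ'2] with t a1 a2 a3
    rw [← a1 (a3.trans_le (min_le_left _ _)), ← a2 (a3.trans_le (min_le_right _ _))]
  rw [meromorphicOrderAt_congr h1, hφ'3, hm]
  rfl

end Pool.Agent.Q255.SG
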