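import Mathlib

/-! # Power sums and integral polynomials -/

set_option autoImplicit false

namespace Pool.Agent.Q255.SG

open Finset Polynomial

variable {N : ℕ}

/-- the generating series of the power sums -/
noncomputable def psS (α : Fin N → ℂ) : PowerSeries ℂ :=
  PowerSeries.mk fun k => if k = 0 then 0 else ∑ j, α j ^ k

/-- `∏ (1 - α_j X)` -/
noncomputable def PP1 (α : Fin N → ℂ) : ℂ[X] := ∏ j, (1 - C (α j) * X)

theorem newton (α : Fin N → ℂ) :
    ((PP1 α : ℂ[X]) : PowerSeries ℂ) * psS α =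
      ((-(X * derivative (PP1 α)) : ℂ[X]) : PowerSeries ℂ) := by
  classical
  have h1 : psS α = ∑ j, PowerSeries.mk fun k => if k = 0 then 0 else α j ^ k := by
    ext k
    rw [map_sum]
    unfold psS
    simp only [PowerSeries.coeff_mk]
    split_ifs
    · simp
    · rfl
  have h2 : ∀ j, (((1 - C (α j) * X : ℂ[X])) : PowerSeries ℂ) *
      (PowerSeries.mk fun k => if k = 0 then 0 else α j ^ k) =
      ((C (α j) * X : ℂ[X]) : PowerSeries ℂ) := by
    intro j
    ext k
    rw [Polynomial.coe_sub, Polynomial.coe_one, Polynomial.coe_mul, Polynomial.coe_C,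
      Polynomial.coe_X, sub_mul, one_mul, mul_assoc, map_sub, PowerSeries.coeff_C_mul,
      PowerSeries.coeff_C_mul, PowerSeries.coeff_mk]
    rcases k with _ | k
    · simp
    · rw [PowerSeries.coeff_succ_X_mul, PowerSeries.coeff_mk, PowerSeries.coeff_X]
      rcases k with _ | k
      · simp
      · simp [pow_succ]
        ring
  have h3 : derivative (PP1 α) = ∑ j, (∏ i ∈ univ.erase j, (1 - C (α i) * X)) * (-C (α j)) := by
    unfold PP1
    rw [Polynomial.derivative_prod_finset]
    refine Finset.sum_congr rfl fun j _ => ?_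
    congr 1
    simp
  rw [h1, Finset.mul_sum, h3, Finset.mul_sum]
  rw [← Finset.sum_neg_distrib]
  have hs : ∀ f : Fin N → ℂ[X], ((∑ x, f x : ℂ[X]) : PowerSeries ℂ) =
      ∑ x, ((f x : ℂ[X]) : PowerSeries ℂ) := by
    intro f
    ext k
    rw [Polynomial.coeff_coe, Polynomial.finset_sum_coeff, map_sum]
    exact Finset.sum_congr rfl fun x _ => (Polynomial.coeff_coe _ _).symm
  rw [hs]
  refine Finset.sum_congr rfl fun j _ => ?_
  have h4 : PP1 α = (∏ i ∈ univ.erase j, (1 - C (α i) * X)) * (1 - C (α j) * X) := by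
    unfold PP1
    rw [Finset.prod_erase_mul _ _ (Finset.mem_univ j)]
  rw [h4, Polynomial.coe_mul, mul_assoc, h2 j, ← Polynomial.coe_mul]
  congr 1
  ring

theorem coeff_zero_PP1 (α : Fin N → ℂ) : (PP1 α).coeff 0 = 1 := by
  unfold PP1
  rw [Polynomial.coeff_zero_eq_eval_zero, Polynomial.eval_prod]
  simp

theorem natDegree_PP1 (α : Fin N → ℂ) : (PP1 α).natDegree ≤ N := by
  unfold PP1
  refine (Polynomial.natDegree_prod_le _ _).trans ?_
  refine (Finset.sum_le_sum (g := fun _ => 1) fun j _ => ?_).trans (by simp)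
  show (1 - C (α j) * X : ℂ[X]).natDegree ≤ 1
  refine (Polynomial.natDegree_sub_le _ _).trans (max_le (by simp) ?_)
  exact (Polynomial.natDegree_C_mul_le _ _).trans Polynomial.natDegree_X_le

theorem psum_int {P : ℤ[X]} {α : Fin N → ℂ} (h : P.map (Int.castRingHom ℂ) = PP1 α) {k : ℕ}
    (hk : 1 ≤ k) : ∃ n : ℤ, ∑ j, α j ^ k = n := by
  have h0 : P.coeff 0 = 1 := by
    have h1 := congrArg (fun Q : ℂ[X] => Q.coeff 0) h
    simp only [Polynomial.coeff_map, coeff_zero_PP1] at h1
    have h2 : ((P.coeff 0 : ℤ) : ℂ) = ((1 : ℤ) : ℂ) := by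
      rw [Int.cast_one]
      exact h1
    exact Int.cast_injective h2
  set Q : PowerSeries ℤ := PowerSeries.invOfUnit (P : PowerSeries ℤ) 1 with hQ
  have hPQ : (P : PowerSeries ℤ) * Q = 1 := by
    refine PowerSeries.mul_invOfUnit _ _ ?_
    rw [Polynomial.constantCoeff_coe, h0]
    rfl
  have hmap : ∀ R : ℤ[X], PowerSeries.map (Int.castRingHom ℂ) (R : PowerSeries ℤ) =
      ((R.map (Int.castRingHom ℂ) : ℂ[X]) : PowerSeries ℂ) := by
    intro R
    exact (Polynomial.polynomial_map_coe).symm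
  have h2 : psS α = PowerSeries.map (Int.castRingHom ℂ)
      (Q * ((-(X * derivative P) : ℤ[X]) : PowerSeries ℤ)) := by
    have h3 := congrArg (PowerSeries.map (Int.castRingHom ℂ)) hPQ
    rw [map_mul, map_one, hmap, h] at h3
    rw [map_mul, hmap, Polynomial.map_neg, Polynomial.map_mul, Polynomial.map_X,
      ← Polynomial.derivative_map, h, ← newton, ← mul_assoc, mul_comm (PowerSeries.map _ Q), h3,
      one_mul]
  have h4 := congrArg (PowerSeries.coeff k) h2
  rw [psS, PowerSeries.coeff_mk, if_neg (by omega), PowerSeries.coeff_map] at h4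
  exact ⟨_, h4⟩

theorem rec_PP1 (α : Fin N → ℂ) (k : ℕ) :
    -((k : ℂ) * (PP1 α).coeff k) = ∑ x ∈ antidiagonal k, (PP1 α).coeff x.1 *
      (if x.2 = 0 then 0 else ∑ j, α j ^ x.2) := by
  have h1 := congrArg (PowerSeries.coeff k) (newton α)
  rw [PowerSeries.coeff_mul] at h1
  simp only [Polynomial.coeff_coe, psS, PowerSeries.coeff_mk] at h1
  rw [h1, Polynomial.coeff_neg]
  congr 1
  rcases k with _ | k
  · simp
  · rw [Polynomial.coeff_X_mul, Polynomial.coeff_derivative]
    push_cast
    ring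

theorem unique_PP1 {α α' : Fin N → ℂ} (h : ∀ k, 1 ≤ k → k ≤ N → ∑ j, α j ^ k = ∑ j, α' j ^ k) :
    PP1 α = PP1 α' := by
  have key : ∀ k, k ≤ N → (PP1 α).coeff k = (PP1 α').coeff k := by
    intro k
    induction k using Nat.strong_induction_on with
    | _ k ih =>
      intro hk
      rcases Nat.eq_zero_or_pos k with h0 | h0
      · rw [h0, coeff_zero_PP1, coeff_zero_PP1]
      · have h1 := rec_PP1 α k
        have h2 := rec_PP1 α' k
        have h3 : ∑ x ∈ antidiagonal k, (PP1 α).coeff x.1 *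
            (if x.2 = 0 then 0 else ∑ j, α j ^ x.2) =
            ∑ x ∈ antidiagonal k, (PP1 α').coeff x.1 *
            (if x.2 = 0 then 0 else ∑ j, α' j ^ x.2) := by
          refine Finset.sum_congr rfl fun x hx => ?_
          have hx := HasAntidiagonal.mem_antidiagonal.1 hx
          split_ifs with h4
          · rw [mul_zero, mul_zero]
          · rw [ih x.1 (by omega) (by omega), h x.2 (by omega) (by omega)]
        rw [← h1, ← h2] at h3
        have hk0 : (k : ℂ) ≠ 0 := by exact_mod_cast h0.ne'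
        exact mul_left_cancel₀ hk0 (neg_injective h3)
  ext k
  by_cases hk : k ≤ N
  · exact key k hk
  · rw [Polynomial.coeff_eq_zero_of_natDegree_lt (lt_of_le_of_lt (natDegree_PP1 α) (by omega)),
      Polynomial.coeff_eq_zero_of_natDegree_lt (lt_of_le_of_lt (natDegree_PP1 α') (by omega))]

/-- Two integral polynomials with close power sums are equal. -/
theorem eq_of_close {P P' : ℤ[X]} {α α' : Fin N → ℂ} (h : P.map (Int.castRingHom ℂ) = PP1 α)
    (h' : P'.map (Int.castRingHom ℂ) = PP1 α')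
    (hc : ∀ k, 1 ≤ k → k ≤ N → ‖∑ j, α j ^ k - ∑ j, α' j ^ k‖ < 1) : P = P' := by
  have h1 : PP1 α = PP1 α' := by
    refine unique_PP1 fun k hk hkN => ?_
    obtain ⟨n, hn⟩ := psum_int h hk
    obtain ⟨n', hn'⟩ := psum_int h' hk
    have h2 := hc k hk hkN
    rw [hn, hn'] at h2 ⊢
    have h3 : |((n - n' : ℤ) : ℝ)| < 1 := by
      rw [← Complex.norm_intCast]
      push_cast
      exact h2
    have h4 : |n - n'| < 1 := by exact_mod_cast h3
    have h5 : n = n' := by
      rw [Int.abs_lt_one_iff] at h4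
      omega
    rw [h5]
  refine Polynomial.map_injective (Int.castRingHom ℂ) Int.cast_injective ?_
  rw [h, h', h1]

end Pool.Agent.Q255.SG
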