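import Pool.Agent.Q255.SG.Test
import Pool.Agent.Q255.SG.Newton
import Pool.Agent.Q255.SG.Low

/-! # The coefficients at prime powers from mean values on segments -/

set_option autoImplicit false

namespace Pool.Agent.Q255.SG

open Finset MeasureTheory Filter Topology Pool.Agent.Q255.SA

variable {N : ℕ} {w : ℝ}

/-- the logarithm of an Euler factor -/
noncomputable def ph (w : ℝ) (α : ℕ → Fin N → ℂ) (q : ℕ) (t : ℝ) : ℂ :=
  ∑ j, -Complex.log (1 - bq w (α q j) q t)

/-- its Fourier coefficients -/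
noncomputable def be (w : ℝ) (α : ℕ → Fin N → ℂ) (q m : ℕ) : ℂ :=
  (∑ j, α q j ^ (m + 1)) * (((q : ℝ) ^ (-((w / 2 + 1) * (m + 1))) : ℝ) : ℂ) / (m + 1)

theorem bq_pow {a : ℂ} {q : ℕ} (hq : 2 ≤ q) (m : ℕ) (t : ℝ) :
    bq w a q t ^ (m + 1) = a ^ (m + 1) * (((q : ℝ) ^ (-((w / 2 + 1) * (m + 1))) : ℝ) : ℂ) *
      Complex.exp ((-(((m + 1 : ℕ) * Real.log q : ℝ) * t) : ℝ) * Complex.I) := by
  have h0 : (0 : ℝ) < q := by exact_mod_cast (by omega : 0 < q)
  have hne : (q : ℂ) ≠ 0 := by exact_mod_cast (by omega : q ≠ 0)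
  have hlog : Complex.log (q : ℂ) = ((Real.log q : ℝ) : ℂ) := by
    rw [← Complex.ofReal_natCast, Complex.ofReal_log h0.le]
  unfold bq eq0
  rw [mul_pow, mul_assoc]
  congr 1
  rw [← Complex.cpow_nat_mul, Complex.cpow_def_of_ne_zero hne, hlog, Real.rpow_def_of_pos h0,
    Complex.ofReal_exp, ← Complex.exp_add]
  congr 1
  push_cast
  ring

theorem hasSum_ph {α : ℕ → Fin N → ℂ} (hα : Bd w α) {q : ℕ} (hq : q.Prime) (t : ℝ) :
    HasSum (fun m => be w α q m *
      Complex.exp ((-(((m + 1 : ℕ) * Real.log q : ℝ) * t) : ℝ) * Complex.I)) (ph w α q t) := by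
  unfold ph
  have h1 : ∀ j, HasSum (fun m : ℕ => bq w (α q j) q t ^ (m + 1) / (m + 1))
      (-Complex.log (1 - bq w (α q j) q t)) := by
    intro j
    refine Complex.hasSum_taylorSeries_neg_log' ?_
    have := (norm_bq (w := w) hq.two_le (hα q hq j) t).2
    linarith
  have h2 := hasSum_sum (s := Finset.univ) (fun j _ => h1 j)
  refine h2.congr_fun ?_
  intro m
  unfold be
  rw [Finset.sum_mul, Finset.sum_div, Finset.sum_mul]
  refine Finset.sum_congr rfl fun j _ => ?_
  rw [bq_pow hq.two_le]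
  ring

theorem norm_be {α : ℕ → Fin N → ℂ} (hα : Bd w α) {q : ℕ} (hq : q.Prime) (m : ℕ) :
    ‖be w α q m‖ ≤ N * (1 / (q : ℝ)) ^ (m + 1) := by
  have h0 : (0 : ℝ) < q := by exact_mod_cast hq.pos
  unfold be
  have h1 : ‖((m : ℂ) + 1)‖ = m + 1 := by
    have : ((m : ℂ) + 1) = ((m + 1 : ℕ) : ℂ) := by push_cast; rfl
    rw [this, Complex.norm_natCast]
    push_cast
    rfl
  have h2 : ‖∑ j, α q j ^ (m + 1)‖ ≤ N * ((q : ℝ) ^ (w / 2)) ^ (m + 1) := by
    refine (norm_sum_le_of_le (n := fun _ => ((q : ℝ) ^ (w / 2)) ^ (m + 1)) _ fun j _ => ?_).trans ?_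
    · rw [norm_pow]
      exact pow_le_pow_left₀ (norm_nonneg _) (hα q hq j) _
    · rw [Finset.sum_const, Finset.card_univ, Fintype.card_fin, nsmul_eq_mul]
  have h3 : ((q : ℝ) ^ (w / 2)) ^ (m + 1) * (q : ℝ) ^ (-((w / 2 + 1) * (m + 1))) =
      (1 / (q : ℝ)) ^ (m + 1) := by
    rw [← Real.rpow_natCast ((q : ℝ) ^ (w / 2)), ← Real.rpow_mul h0.le, ← Real.rpow_add h0,
      one_div, inv_pow, ← Real.rpow_natCast (q : ℝ), ← Real.rpow_neg h0.le]
    congr 1
    push_cast
    ring
  rw [norm_div, norm_mul, Complex.norm_real, Real.norm_of_nonneg (by positivity), h1]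
  calc ‖∑ j, α q j ^ (m + 1)‖ * (q : ℝ) ^ (-((w / 2 + 1) * (m + 1))) / (m + 1)
      ≤ ‖∑ j, α q j ^ (m + 1)‖ * (q : ℝ) ^ (-((w / 2 + 1) * (m + 1))) := by
        refine div_le_self (by positivity) ?_
        have : (0 : ℝ) ≤ m := Nat.cast_nonneg m
        linarith
    _ ≤ N * ((q : ℝ) ^ (w / 2)) ^ (m + 1) * (q : ℝ) ^ (-((w / 2 + 1) * (m + 1))) := by gcongr
    _ = _ := by rw [mul_assoc, h3]

theorem ph_continuous {α : ℕ → Fin N → ℂ} (hα : Bd w α) {q : ℕ} (hq : q.Prime) :
    Continuous (ph w α q) := by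
  unfold ph
  refine continuous_finset_sum _ fun j _ => ?_
  have h1 := bq_continuous (w := w) (a := α q j) hq.two_le
  refine Continuous.neg ((continuous_const.sub h1).clog fun τ => Or.inl ?_)
  show 0 < (1 - bq w (α q j) q τ).re
  have h3 := (norm_bq (w := w) hq.two_le (hα q hq j) τ).2
  have h4 := Complex.re_le_norm (bq w (α q j) q τ)
  rw [Complex.sub_re, Complex.one_re]
  linarith

theorem log_AP_ph {α : ℕ → Fin N → ℂ} (hα : Bd w α) (x : ℕ) (t : ℝ) :
    Real.log ‖AP (qAD w α hα) x t‖ = ∑ q ∈ Nat.primesBelow x, (ph w α q t).re := by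
  have h1 : AP (qAD w α hα) x t = Complex.exp (∑ q ∈ Nat.primesBelow x, ph w α q t) := by
    rw [← q_partial hα, Complex.exp_sum]
    refine Finset.prod_congr rfl fun p hp => ?_
    have hp' := Nat.prime_of_mem_primesBelow hp
    unfold ph
    rw [Complex.exp_sum, ← Finset.prod_inv_distrib]
    refine Finset.prod_congr rfl fun j _ => ?_
    have h3 := (norm_bq (w := w) hp'.two_le (hα p hp' j) t).2
    have h4 : 1 - bq w (α p j) p t ≠ 0 := one_sub_ne (by linarith)
    rw [Complex.exp_neg, Complex.exp_log h4]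
    rfl
  rw [h1, Complex.norm_exp, Real.log_exp, Complex.re_sum]

theorem logsep {n n0 : ℕ} (h0 : 1 ≤ n0) (h1 : 1 ≤ n) (h : n ≠ n0) :
    1 / ((n0 : ℝ) + 1) ≤ |Real.log n0 - Real.log n| := by
  have hn0 : (1 : ℝ) ≤ n0 := by exact_mod_cast h0
  have hn : (1 : ℝ) ≤ n := by exact_mod_cast h1
  rcases lt_or_gt_of_ne h with h2 | h2
  · have h3 : (n : ℝ) + 1 ≤ n0 := by exact_mod_cast h2
    have h4 := Real.one_sub_inv_le_log_of_pos (x := (n0 : ℝ) / n) (by positivity)
    rw [Real.log_div (by positivity) (by positivity)] at h4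
    refine le_trans ?_ (le_abs_self _)
    refine le_trans ?_ h4
    rw [inv_div, le_sub_iff_add_le, div_add_div _ _ (by positivity) (by positivity),
      div_le_one (by positivity)]
    nlinarith
  · have h3 : (n0 : ℝ) + 1 ≤ n := by exact_mod_cast h2
    have h4 := Real.one_sub_inv_le_log_of_pos (x := (n : ℝ) / n0) (by positivity)
    rw [Real.log_div (by positivity) (by positivity)] at h4
    rw [abs_sub_comm]
    refine le_trans ?_ (le_abs_self _)
    refine le_trans ?_ h4
    rw [inv_div, le_sub_iff_add_le, div_add_div _ _ (by positivity) (by positivity),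
      div_le_one (by positivity)]
    nlinarith

theorem harm (z : ℕ) : ∑ q ∈ Nat.primesBelow z, 1 / (q : ℝ) ≤ 1 + Real.log z := by
  have h1 : ∑ q ∈ Nat.primesBelow z, 1 / (q : ℝ) ≤ ∑ q ∈ Icc 1 z, 1 / (q : ℝ) := by
    refine Finset.sum_le_sum_of_subset_of_nonneg (fun q hq => ?_) fun q _ _ => by positivity
    have h2 := Nat.prime_of_mem_primesBelow hq
    have h3 := Nat.lt_of_mem_primesBelow hq
    rw [Finset.mem_Icc]
    exact ⟨h2.one_lt.le, by omega⟩
  refine h1.trans ?_
  have h2 := harmonic_le_one_add_log z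
  rw [harmonic_eq_sum_Icc] at h2
  push_cast at h2
  simpa using h2

/-- The mean value of the logarithm of the quotient of two partial products against `p^{ikt}`. -/
theorem mean_test {α α' : ℕ → Fin N → ℂ} (hα : Bd w α) (hα' : Bd w α') {p k z : ℕ}
    (hp : p.Prime) (hk : 1 ≤ k) (hpz : p < z) {T : ℝ} (hT : 0 ≤ T) (a : ℝ) :
    ‖(∫ t in a..(a + T), ((Real.log ‖AP (qAD w α hα) z t‖ -
      Real.log ‖AP (qAD w α' hα') z t‖ : ℝ) : ℂ) *
        Complex.exp ((Real.log ((p ^ k : ℕ) : ℝ) * t : ℝ) * Complex.I)) -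
      T / 2 * (be w α p (k - 1) - be w α' p (k - 1))‖ ≤
      8 * N * ((p ^ k : ℕ) + 1) * (1 + Real.log z) := by
  classical
  set n0 := p ^ k with hn0
  have hn2 : 2 ≤ n0 := by
    calc 2 ≤ p := hp.two_le
      _ = p ^ 1 := (pow_one p).symm
      _ ≤ p ^ k := Nat.pow_le_pow_right hp.pos hk
  have hn2' : (2 : ℝ) ≤ n0 := by exact_mod_cast hn2
  set l0 := Real.log (n0 : ℝ) with hl0
  set δ : ℝ := 1 / ((n0 : ℝ) + 1) with hδ
  have hδ0 : 0 < δ := by positivity
  set b : ℕ → ℕ → ℂ := fun q m => be w α q m - be w α' q m with hb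
  set lam : ℕ → ℕ → ℝ := fun q m => ((m + 1 : ℕ) : ℝ) * Real.log q with hlam
  set e : ℕ → ℕ → ℝ := fun q m => if q = p ∧ m + 1 = k then 1 else 0 with he
  set g : ℕ → ℝ → ℂ := fun q t => ph w α q t - ph w α' q t with hg
  have hnb : ∀ q : ℕ, q.Prime → ∀ m, ‖b q m‖ ≤ 2 * N * (1 / (q : ℝ)) ^ (m + 1) := by
    intro q hq m
    refine (norm_sub_le _ _).trans ?_
    have h1 := norm_be hα hq m
    have h2 := norm_be hα' hq m
    linarith
  have hgeo : ∀ q : ℕ, q.Prime → HasSum (fun m : ℕ => 2 * N * (1 / (q : ℝ)) ^ (m + 1))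
      (2 * N * (1 / (q : ℝ)) * (1 - 1 / (q : ℝ))⁻¹) := by
    intro q hq
    have hq2 : (2 : ℝ) ≤ q := by exact_mod_cast hq.two_le
    have h1 : 1 / (q : ℝ) < 1 := by
      rw [div_lt_one (by linarith)]
      linarith
    have h2 := (hasSum_geometric_of_lt_one (by positivity) h1).mul_left (2 * N * (1 / (q : ℝ)))
    refine h2.congr_fun fun m => ?_
    rw [pow_succ]
    ring
  have hsb : ∀ q : ℕ, q.Prime → Summable fun m => ‖b q m‖ := fun q hq =>
    Summable.of_nonneg_of_le (fun m => norm_nonneg _) (hnb q hq) (hgeo q hq).summable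
  have htb : ∀ q : ℕ, q.Prime → ∑' m, ‖b q m‖ ≤ 4 * N * (1 / (q : ℝ)) := by
    intro q hq
    have hq2 : (2 : ℝ) ≤ q := by exact_mod_cast hq.two_le
    have h1 := (hsb q hq).tsum_le_tsum (hnb q hq) (hgeo q hq).summable
    rw [(hgeo q hq).tsum_eq] at h1
    refine h1.trans ?_
    have h2 : (1 - 1 / (q : ℝ))⁻¹ ≤ 2 := by
      rw [inv_le_comm₀ _ (by norm_num)]
      · have : 1 / (q : ℝ) ≤ 1 / 2 := one_div_le_one_div_of_le (by norm_num) hq2
        linarith
      · have : 1 / (q : ℝ) ≤ 1 / 2 := one_div_le_one_div_of_le (by norm_num) hq2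
        linarith
    calc 2 * (N : ℝ) * (1 / (q : ℝ)) * (1 - 1 / (q : ℝ))⁻¹ ≤ 2 * (N : ℝ) * (1 / (q : ℝ)) * 2 := by
          gcongr
      _ = _ := by ring
  have htest : ∀ q : ℕ, q.Prime →
      ‖(∫ t in a..(a + T), ((g q t).re : ℂ) * Complex.exp ((l0 * t : ℝ) * Complex.I)) -
        T / 2 * ∑' m, (e q m : ℂ) * b q m‖ ≤ 2 / δ * (4 * N * (1 / (q : ℝ))) := by
    intro q hq
    refine (test_lemma (lam := lam q) (hsb q hq) (fun t => ?_) ?_ hδ0 hT (fun m => ?_)
      (fun m => ?_) a).trans ?_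
    · have h1 := (hasSum_ph hα hq t).sub (hasSum_ph hα' hq t)
      refine h1.congr_fun fun m => ?_
      simp only [hb, hlam]
      ring
    · exact (ph_continuous hα hq).sub (ph_continuous hα' hq)
    · simp only [he, hlam]
      by_cases h : q = p ∧ m + 1 = k
      · left
        refine ⟨if_pos h, ?_⟩
        rw [hl0, hn0, h.1, h.2]
        push_cast
        rw [Real.log_pow]
      · right
        refine ⟨if_neg h, ?_⟩
        have h1 : q ^ (m + 1) ≠ n0 := by
          intro h2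
          rw [hn0] at h2
          have h3 : q = p := by
            have h4 : q ∣ p ^ k := by
              rw [← h2]
              exact dvd_pow_self q (by omega)
            exact (Nat.prime_dvd_prime_iff_eq hq hp).1 (hq.dvd_of_dvd_pow h4)
          refine h ⟨h3, ?_⟩
          rw [h3] at h2
          exact Nat.pow_right_injective hp.two_le h2
        have h2 := logsep (n := q ^ (m + 1)) (n0 := n0) (by omega)
          (Nat.one_le_pow _ _ hq.pos) h1
        have h3 : Real.log ((q ^ (m + 1) : ℕ) : ℝ) = ((m + 1 : ℕ) : ℝ) * Real.log q := by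
          rw [Nat.cast_pow, Real.log_pow]
        rw [h3] at h2
        exact h2
    · simp only [hlam]
      have h1 : 0 ≤ ((m + 1 : ℕ) : ℝ) * Real.log q := by
        have := Real.log_natCast_nonneg q
        positivity
      have h2 : δ ≤ l0 := by
        have h3 : Real.log 2 ≤ l0 := Real.log_le_log (by norm_num) hn2'
        have h4 := Real.log_two_gt_d9
        have h5 : δ ≤ 1 / 3 := one_div_le_one_div_of_le (by norm_num) (by linarith)
        linarith
      refine le_trans ?_ (le_abs_self _)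
      linarith
    · gcongr
      exact htb q hq
  have hsel : ∑ q ∈ Nat.primesBelow z, ∑' m, (e q m : ℂ) * b q m = b p (k - 1) := by
    rw [Finset.sum_eq_single_of_mem p (by
      rw [Nat.mem_primesBelow]
      exact ⟨hpz, hp⟩)]
    · rw [tsum_eq_single (k - 1)]
      · simp only [he]
        rw [if_pos ⟨trivial, by omega⟩]
        simp
      · intro m hm
        simp only [he]
        rw [if_neg (by
          rintro ⟨_, h⟩
          exact hm (by omega))]
        simp
    · intro q _ hqp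
      simp only [he]
      simp [hqp]
  have hint : (∫ t in a..(a + T), ((Real.log ‖AP (qAD w α hα) z t‖ -
      Real.log ‖AP (qAD w α' hα') z t‖ : ℝ) : ℂ) * Complex.exp ((l0 * t : ℝ) * Complex.I)) =
      ∑ q ∈ Nat.primesBelow z,
        ∫ t in a..(a + T), ((g q t).re : ℂ) * Complex.exp ((l0 * t : ℝ) * Complex.I) := by
    rw [← intervalIntegral.integral_finset_sum]
    · refine intervalIntegral.integral_congr fun t _ => ?_
      rw [log_AP_ph, log_AP_ph, ← Finset.sum_sub_distrib, ← Finset.sum_mul]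
      congr 1
      push_cast
      refine Finset.sum_congr rfl fun q _ => ?_
      simp only [hg, Complex.sub_re]
      push_cast
      rfl
    · intro q hq
      have hq' := Nat.prime_of_mem_primesBelow hq
      have h1 := ph_continuous hα hq'
      have h2 := ph_continuous hα' hq'
      apply Continuous.intervalIntegrable
      simp only [hg]
      fun_prop
  rw [hint]
  have hfin : (∑ q ∈ Nat.primesBelow z,
        ∫ t in a..(a + T), ((g q t).re : ℂ) * Complex.exp ((l0 * t : ℝ) * Complex.I)) -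
      T / 2 * b p (k - 1) = ∑ q ∈ Nat.primesBelow z,
        ((∫ t in a..(a + T), ((g q t).re : ℂ) * Complex.exp ((l0 * t : ℝ) * Complex.I)) -
          T / 2 * ∑' m, (e q m : ℂ) * b q m) := by
    rw [Finset.sum_sub_distrib, ← Finset.mul_sum, hsel]
  rw [hfin]
  refine (norm_sum_le_of_le _ fun q hq => htest q (Nat.prime_of_mem_primesBelow hq)).trans ?_
  rw [← Finset.mul_sum, ← Finset.mul_sum]
  have h1 := harm z
  calc 2 / δ * (4 * N * ∑ q ∈ Nat.primesBelow z, 1 / (q : ℝ)) ≤
        2 / δ * (4 * N * (1 + Real.log z)) := by gcongr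
    _ = 8 * N * ((n0 : ℝ) + 1) * (1 + Real.log z) := by
        rw [hδ]
        field_simp
        ring

end Pool.Agent.Q255.SG
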