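import Pool.Agent.Q255.SG.Mult

/-! # The Euler factors at the small primes from the modulus on a short segment of the edge -/

set_option autoImplicit false

namespace Pool.Agent.Q255.SG

open Finset MeasureTheory Filter Topology Pool.Agent.Q255.SA

theorem cover_nat {f : ℝ → ENNReal} {B : ENNReal}
    (h : ∀ a : ℝ, ∫⁻ t in Set.Icc a (a + 1), f t ≤ B) (a : ℝ) (n : ℕ) :
    ∫⁻ t in Set.Icc a (a + n), f t ≤ n * B := by
  induction n with
  | zero => simp
  | succ n ih =>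
    have h1 : Set.Icc a (a + (n + 1 : ℕ)) ⊆ Set.Icc a (a + n) ∪ Set.Icc (a + n) (a + n + 1) := by
      intro t ht
      push_cast at ht
      rcases le_total t (a + n) with h2 | h2
      · exact Or.inl ⟨ht.1, h2⟩
      · exact Or.inr ⟨h2, by linarith [ht.2]⟩
    refine (lintegral_mono_set h1).trans ((lintegral_union_le _ _ _).trans ?_)
    have h2 := h (a + n)
    push_cast
    rw [add_mul, one_mul]
    exact add_le_add ih h2

theorem cover {f : ℝ → ENNReal} {B : ENNReal}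
    (h : ∀ a : ℝ, ∫⁻ t in Set.Icc a (a + 1), f t ≤ B) (a : ℝ) {T : ℝ} (hT : 1 ≤ T) :
    ∫⁻ t in Set.Icc a (a + T), f t ≤ ENNReal.ofReal (2 * T) * B := by
  have h1 : Set.Icc a (a + T) ⊆ Set.Icc a (a + ⌈T⌉₊) := by
    refine Set.Icc_subset_Icc_right ?_
    have := Nat.le_ceil T
    linarith
  refine (lintegral_mono_set h1).trans ((cover_nat h a _).trans ?_)
  refine mul_le_mul_left ?_ _
  rw [← ENNReal.ofReal_natCast]
  refine ENNReal.ofReal_le_ofReal ?_
  have := Nat.ceil_lt_add_one (by linarith : 0 ≤ T)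
  linarith

variable {N : ℕ}

theorem log_mul_aemeas {κ M : ℝ} (D : AD κ M) {T : Set ℝ} (hT : volume T = 0) {l : ℝ → ℂ}
    (hl : Lim (AP D) T l) (x : ℕ) (S : Set ℝ) :
    AEMeasurable (fun t => Real.log ‖l t‖ - Real.log ‖AP D x t‖) (volume.restrict S) := by
  have hlm := lim_aemeas (AP_continuous D) hT hl
  have h1 : AEMeasurable (fun t => Real.log ‖l t‖) (volume.restrict S) :=
    Real.measurable_log.comp_aemeasurable (hlm.restrict.norm)
  have h2 : AEMeasurable (fun t => Real.log ‖AP D x t‖) (volume.restrict S) :=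
    Real.measurable_log.comp_aemeasurable ((AP_continuous D x).measurable.aemeasurable.norm)
  exact h1.sub h2

/-- The mean square of the difference of two partial products. -/
theorem diff_sq {κ M : ℝ} (hκ : 0 ≤ κ) (hM : 0 ≤ M) : ∃ C : ℝ, 1 ≤ C ∧
    ∀ (D D' : AD κ M) (T T' : Set ℝ), volume T = 0 → volume T' = 0 →
    ∀ l l' : ℝ → ℂ, Lim (AP D) T l → Lim (AP D') T' l' → ∀ z : ℕ, 3 ≤ z → ∀ a L η : ℝ, 1 ≤ L →
      0 ≤ η → ∫⁻ t in Set.Icc a (a + L), ENNReal.ofReal ((Real.log ‖l t‖ - Real.log ‖l' t‖) ^ 2) ≤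
        ENNReal.ofReal (L * η) →
      ∫ t in a..(a + L), (Real.log ‖AP D z t‖ - Real.log ‖AP D' z t‖) ^ 2 ≤
        L * (3 * η + 12 * C / Real.log z) := by
  obtain ⟨C, hC, hlog⟩ := ad_log hκ hM
  refine ⟨max C 1, le_max_right _ _,
    fun D D' T T' hT hT' l l' hl hl' z hz a L η hL hη hG => ?_⟩
  have hz3 : (3 : ℝ) ≤ z := by exact_mod_cast hz
  have hlz : 0 < Real.log z := Real.log_pos (by linarith)
  have hc : Continuous fun t => (Real.log ‖AP D z t‖ - Real.log ‖AP D' z t‖) ^ 2 := by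
    have h1 := ((AP_continuous D z).norm).log fun t => norm_ne_zero_iff.2 (AP_ne D z t)
    have h2 := ((AP_continuous D' z).norm).log fun t => norm_ne_zero_iff.2 (AP_ne D' z t)
    exact (h1.sub h2).pow 2
  have g1 := cover (fun b => hlog D T hT l hl z hz b) a hL
  have g2 := cover (fun b => hlog D' T' hT' l' hl' z hz b) a hL
  have m1 := log_mul_aemeas D hT hl z (Set.Icc a (a + L))
  have m2 := log_mul_aemeas D' hT' hl' z (Set.Icc a (a + L))
  have hpt : ∀ t, ENNReal.ofReal ((Real.log ‖AP D z t‖ - Real.log ‖AP D' z t‖) ^ 2) ≤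
      3 * (ENNReal.ofReal ((Real.log ‖l t‖ - Real.log ‖l' t‖) ^ 2) +
        ENNReal.ofReal ((Real.log ‖l t‖ - Real.log ‖AP D z t‖) ^ 2) +
        ENNReal.ofReal ((Real.log ‖l' t‖ - Real.log ‖AP D' z t‖) ^ 2)) := by
    intro t
    have e3 : (3 : ENNReal) = ENNReal.ofReal 3 := by norm_num
    rw [e3, ← ENNReal.ofReal_add (by positivity) (by positivity),
      ← ENNReal.ofReal_add (by positivity) (by positivity), ← ENNReal.ofReal_mul (by norm_num)]
    refine ENNReal.ofReal_le_ofReal ?_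
    set A := Real.log ‖l t‖
    set B := Real.log ‖l' t‖
    set U := Real.log ‖AP D z t‖
    set V := Real.log ‖AP D' z t‖
    nlinarith [sq_nonneg ((A - B) + (A - U)), sq_nonneg ((A - B) - (B - V)),
      sq_nonneg ((A - U) + (B - V))]
  have h3 : ENNReal.ofReal (∫ t in a..(a + L),
      (Real.log ‖AP D z t‖ - Real.log ‖AP D' z t‖) ^ 2) ≤
      ENNReal.ofReal (L * (3 * η + 12 * max C 1 / Real.log z)) := by
    rw [intervalIntegral.integral_of_le (by linarith), ← integral_Icc_eq_integral_Ioc,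
      ofReal_integral_eq_lintegral_ofReal (hc.continuousOn.integrableOn_Icc)
        (Eventually.of_forall fun t => by positivity)]
    refine (lintegral_mono fun t => hpt t).trans ?_
    rw [lintegral_const_mul' _ _ (by norm_num), lintegral_add_right' _
      ((m2.pow_const 2).ennreal_ofReal), lintegral_add_right' _ ((m1.pow_const 2).ennreal_ofReal)]
    have e3 : (3 : ENNReal) = ENNReal.ofReal 3 := by norm_num
    calc _ ≤ 3 * (ENNReal.ofReal (L * η) + ENNReal.ofReal (2 * L) * ENNReal.ofReal (C / Real.log z) +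
          ENNReal.ofReal (2 * L) * ENNReal.ofReal (C / Real.log z)) := by gcongr
      _ = ENNReal.ofReal (3 * (L * η + 2 * L * (C / Real.log z) + 2 * L * (C / Real.log z))) := by
          rw [e3, ← ENNReal.ofReal_mul (by positivity), ← ENNReal.ofReal_add (by positivity)
            (by positivity), ← ENNReal.ofReal_add (by positivity) (by positivity),
            ← ENNReal.ofReal_mul (by norm_num)]
      _ ≤ _ := by
          refine ENNReal.ofReal_le_ofReal ?_
          have h4 : C / Real.log z ≤ max C 1 / Real.log z := by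
            gcongr
            exact le_max_left _ _
          have h5 : 12 * max C 1 / Real.log z = 12 * (max C 1 / Real.log z) := by ring
          rw [h5]
          nlinarith
  have h4 : 0 ≤ L * (3 * η + 12 * max C 1 / Real.log z) := by
    have : 0 ≤ max C 1 := le_trans zero_le_one (le_max_right _ _)
    positivity
  exact (ENNReal.ofReal_le_ofReal_iff h4).1 h3

theorem int_abs_le {g : ℝ → ℝ} (hg : Continuous g) {a L lam I : ℝ} (hL : 0 ≤ L) (hlam : 0 < lam)
    (h : ∫ t in a..(a + L), g t ^ 2 ≤ I) (l0 : ℝ) :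
    ‖∫ t in a..(a + L), ((g t : ℝ) : ℂ) * Complex.exp ((l0 * t : ℝ) * Complex.I)‖ ≤
      (lam * L + I / lam) / 2 := by
  have h1 : ‖∫ t in a..(a + L), ((g t : ℝ) : ℂ) * Complex.exp ((l0 * t : ℝ) * Complex.I)‖ ≤
      ∫ t in a..(a + L), (lam / 2 + g t ^ 2 / (2 * lam)) := by
    refine intervalIntegral.norm_integral_le_of_norm_le (by linarith)
      (Eventually.of_forall fun t _ => ?_) ?_
    · rw [norm_mul, Complex.norm_exp_ofReal_mul_I, mul_one, Complex.norm_real, Real.norm_eq_abs]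
      have h2 : |g t| * (2 * lam) ≤ (lam / 2 + g t ^ 2 / (2 * lam)) * (2 * lam) := by
        have e : (lam / 2 + g t ^ 2 / (2 * lam)) * (2 * lam) = lam ^ 2 + g t ^ 2 := by
          field_simp
        rw [e, ← sq_abs (g t)]
        nlinarith [sq_nonneg (lam - |g t|)]
      exact le_of_mul_le_mul_right h2 (by positivity)
    · apply Continuous.intervalIntegrable
      fun_prop
  refine h1.trans ?_
  rw [intervalIntegral.integral_add (by apply Continuous.intervalIntegrable; fun_prop)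
    (by apply Continuous.intervalIntegrable; fun_prop), intervalIntegral.integral_const,
    intervalIntegral.integral_div]
  have e1 : a + L - a = L := by ring
  rw [e1, smul_eq_mul]
  have h2 : (∫ t in a..(a + L), g t ^ 2) / (2 * lam) ≤ I / (2 * lam) := by gcongr
  have e2 : (lam * L + I / lam) / 2 = L * (lam / 2) + I / (2 * lam) := by
    field_simp
  rw [e2]
  linarith

/-- **The Euler factors at the small primes.** -/
theorem mult_one (N w : ℕ) (hN : 1 ≤ N) : ∃ C : ℝ, 1 ≤ C ∧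
    ∀ (α α' : ℕ → Fin N → ℂ) (hα : Bd (w : ℝ) α) (hα' : Bd (w : ℝ) α') (P P' : ℕ → Polynomial ℤ),
    (∀ p : ℕ, p.Prime → (P p).map (Int.castRingHom ℂ) = PP1 (α p)) →
    (∀ p : ℕ, p.Prime → (P' p).map (Int.castRingHom ℂ) = PP1 (α' p)) →
    ∀ (T T' : Set ℝ), volume T = 0 → volume T' = 0 →
    ∀ l l' : ℝ → ℂ, Lim (AP (qAD (w : ℝ) α hα)) T l → Lim (AP (qAD (w : ℝ) α' hα')) T' l' →
    ∀ (x : ℕ), 1 ≤ x → ∀ a L : ℝ, C * (x : ℝ) ^ (N * (3 * w + 4)) ≤ L →
    ∫⁻ t in Set.Icc a (a + L), ENNReal.ofReal ((Real.log ‖l t‖ - Real.log ‖l' t‖) ^ 2) ≤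
      ENNReal.ofReal (L * (1 / (C * (x : ℝ) ^ (2 * N * (w + 1))))) →
    ∀ p : ℕ, p.Prime → p ≤ x → P p = P' p := by
  have hN1 : (1 : ℝ) ≤ N := by exact_mod_cast hN
  obtain ⟨K, hK, hdiff⟩ := diff_sq (κ := (N : ℝ)) (M := N * S0) (Nat.cast_nonneg N)
    (mul_nonneg (Nat.cast_nonneg N) S0_nonneg)
  refine ⟨100000 * N ^ 4 * K, ?_, fun α α' hα hα' P P' hP hP' T T' hT hT' l l' hl hl' x hx a L hL
    hG p hp hpx => ?_⟩
  · have h1 : (1 : ℝ) ≤ (N : ℝ) ^ 4 := one_le_pow₀ hN1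
    nlinarith
  have hx1 : (1 : ℝ) ≤ x := by exact_mod_cast hx
  set E : ℝ := N * (x : ℝ) ^ (N * (w + 1)) with hE
  have hpow1 : (1 : ℝ) ≤ (x : ℝ) ^ (N * (w + 1)) := one_le_pow₀ hx1
  have hE1 : 1 ≤ E := by nlinarith
  have hE0 : 0 < E := by linarith
  have hK0 : 0 < K := by linarith
  have hxE : (x : ℝ) ≤ E := by
    have h1 : (x : ℝ) ^ 1 ≤ (x : ℝ) ^ (N * (w + 1)) :=
      pow_le_pow_right₀ hx1 (Nat.mul_pos (by omega) (by omega))
    rw [pow_one] at h1
    nlinarith
  set Y : ℝ := 384 * K * E ^ 2 with hY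
  have hY1 : 1 ≤ Y := by nlinarith [one_le_pow₀ (n := 2) hE1]
  have hxY : (x : ℝ) ≤ Y := by nlinarith [one_le_pow₀ (n := 2) hE1]
  set z : ℕ := ⌈Real.exp Y⌉₊ + 3 with hz
  have hz3 : 3 ≤ z := by omega
  have hzR : (z : ℝ) = (⌈Real.exp Y⌉₊ : ℝ) + 3 := by
    rw [hz]
    push_cast
    ring
  have hzl : Real.exp Y ≤ z := by
    have := Nat.le_ceil (Real.exp Y)
    linarith
  have hzu : (z : ℝ) ≤ 5 * Real.exp Y := by
    have h1 := (Nat.ceil_lt_add_one (Real.exp_pos Y).le).le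
    have h2 : 1 ≤ Real.exp Y := by
      rw [← Real.exp_zero]
      exact Real.exp_le_exp.2 (by linarith)
    linarith
  have hz0 : (0 : ℝ) < z := (Real.exp_pos Y).trans_le hzl
  have hlz1 : Y ≤ Real.log z := by
    rw [Real.le_log_iff_exp_le hz0]
    exact hzl
  have hlz2 : Real.log z ≤ Y + 2 := by
    have h1 := Real.log_le_log hz0 hzu
    rw [Real.log_mul (by norm_num) (Real.exp_pos Y).ne', Real.log_exp] at h1
    have h5 : Real.log 5 ≤ 2 := by
      rw [Real.log_le_iff_le_exp (by norm_num)]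
      have h9 := Real.exp_one_gt_d9
      have h10 : Real.exp 2 = Real.exp 1 * Real.exp 1 := by
        rw [← Real.exp_add]
        norm_num
      nlinarith
    linarith
  have hpz : p < z := by
    have h1 : (p : ℝ) ≤ x := by exact_mod_cast hpx
    have h2 : Y < Real.exp Y := by
      have := Real.add_one_le_exp Y
      linarith
    have h3 : (p : ℝ) < z := by linarith
    exact_mod_cast h3
  have hlz0 : 0 < Real.log z := by linarith
  have hpowN : (1 : ℝ) ≤ (x : ℝ) ^ (N * (3 * w + 4)) := one_le_pow₀ hx1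
  have hN4 : (1 : ℝ) ≤ (N : ℝ) ^ 4 := one_le_pow₀ hN1
  have hL1 : 1 ≤ L := by
    refine le_trans ?_ hL
    have : 1 ≤ 100000 * (N : ℝ) ^ 4 * K := by nlinarith
    nlinarith
  have hL0 : 0 < L := by linarith
  have hLE : 100000 * N * K * (x : ℝ) ^ N * E ^ 3 ≤ L := by
    refine le_trans (le_of_eq ?_) hL
    rw [hE, mul_pow, ← pow_mul]
    have e1 : N * (3 * w + 4) = N + N * (w + 1) * 3 := by ring
    rw [e1, pow_add]
    ring
  have hη : 1 / (100000 * (N : ℝ) ^ 4 * K * (x : ℝ) ^ (2 * N * (w + 1))) ≤ 1 / (192 * E ^ 2) := by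
    refine one_div_le_one_div_of_le (by positivity) ?_
    rw [hE, mul_pow, ← pow_mul]
    have e1 : N * (w + 1) * 2 = 2 * N * (w + 1) := by ring
    rw [e1]
    have h1 : (0 : ℝ) < (x : ℝ) ^ (2 * N * (w + 1)) := by positivity
    have h2 : 192 * (N : ℝ) ^ 2 ≤ 100000 * (N : ℝ) ^ 4 * K := by
      have h3 : (N : ℝ) ^ 2 ≤ (N : ℝ) ^ 4 := pow_le_pow_right₀ hN1 (by norm_num)
      have h4 : (1 : ℝ) ≤ (N : ℝ) ^ 2 := one_le_pow₀ hN1
      nlinarith
    nlinarith
  -- the mean square of the difference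
  have hI := hdiff (qAD (w : ℝ) α hα) (qAD (w : ℝ) α' hα') T T' hT hT' l l' hl hl' z hz3 a L
    (1 / (100000 * (N : ℝ) ^ 4 * K * (x : ℝ) ^ (2 * N * (w + 1)))) hL1 (by positivity) hG
  have hI2 : ∫ t in a..(a + L), (Real.log ‖AP (qAD (w : ℝ) α hα) z t‖ -
      Real.log ‖AP (qAD (w : ℝ) α' hα') z t‖) ^ 2 ≤ L * (3 / (64 * E ^ 2)) := by
    refine hI.trans ?_
    refine mul_le_mul_of_nonneg_left ?_ hL0.le
    have h1 : 12 * K / Real.log z ≤ 1 / (32 * E ^ 2) := by
      rw [div_le_div_iff₀ hlz0 (by positivity)]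
      calc 12 * K * (32 * E ^ 2) = Y := by rw [hY]; ring
        _ ≤ 1 * Real.log z := by linarith
    have h2 : 3 / (64 * E ^ 2) = 3 * (1 / (192 * E ^ 2)) + 1 / (32 * E ^ 2) := by
      field_simp
      norm_num
    rw [h2]
    linarith
  set g : ℝ → ℝ := fun t => Real.log ‖AP (qAD (w : ℝ) α hα) z t‖ -
      Real.log ‖AP (qAD (w : ℝ) α' hα') z t‖ with hg
  have hgc : Continuous g := by
    have h1 := ((AP_continuous (qAD (w : ℝ) α hα) z).norm).log fun t =>
      norm_ne_zero_iff.2 (AP_ne _ z t)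
    have h2 := ((AP_continuous (qAD (w : ℝ) α' hα') z).norm).log fun t =>
      norm_ne_zero_iff.2 (AP_ne _ z t)
    exact h1.sub h2
  refine eq_of_close (hP p hp) (hP' p hp) fun k hk hkN => ?_
  have hp0 : (0 : ℝ) < p := by exact_mod_cast hp.pos
  have hp1 : (1 : ℝ) ≤ p := by exact_mod_cast hp.one_le
  have hpxR : (p : ℝ) ≤ x := by exact_mod_cast hpx
  have hA := int_abs_le hgc hL0.le (lam := 1 / (4 * E)) (by positivity) hI2
    (Real.log ((p ^ k : ℕ) : ℝ))
  have hA2 : (1 / (4 * E) * L + L * (3 / (64 * E ^ 2)) / (1 / (4 * E))) / 2 = 7 * L / (32 * E) := by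
    field_simp
    ring
  rw [hA2] at hA
  have hB := mean_test hα hα' hp hk hpz hL0.le a
  have hpk : ((p ^ k : ℕ) : ℝ) ≤ (x : ℝ) ^ N := by
    push_cast
    calc (p : ℝ) ^ k ≤ (x : ℝ) ^ k := pow_le_pow_left₀ hp0.le hpxR k
      _ ≤ (x : ℝ) ^ N := pow_le_pow_right₀ hx1 hkN
  have hxN1 : (1 : ℝ) ≤ (x : ℝ) ^ N := one_le_pow₀ hx1
  have hB2 : 8 * (N : ℝ) * (((p ^ k : ℕ) : ℝ) + 1) * (1 + Real.log z) ≤ L / (16 * E) := by
    have h1 : 1 + Real.log z ≤ 387 * K * E ^ 2 := by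
      have h2 : 1 ≤ K * E ^ 2 := by nlinarith [one_le_pow₀ (n := 2) hE1]
      rw [hY] at hlz2
      linarith
    calc 8 * (N : ℝ) * (((p ^ k : ℕ) : ℝ) + 1) * (1 + Real.log z) ≤
          8 * N * ((x : ℝ) ^ N + (x : ℝ) ^ N) * (387 * K * E ^ 2) := by
          have h3 : 0 ≤ 1 + Real.log z := by linarith
          gcongr
      _ = 6192 * N * K * (x : ℝ) ^ N * E ^ 3 / E := by
          field_simp
          ring
      _ ≤ (L / 16) / E := by
          gcongr
          have h3 : 0 ≤ N * K * (x : ℝ) ^ N * E ^ 3 := by positivity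
          nlinarith
      _ = L / (16 * E) := by
          field_simp
  have hC : ‖(L : ℂ) / 2 * (be (w : ℝ) α p (k - 1) - be (w : ℝ) α' p (k - 1))‖ ≤
      9 * L / (32 * E) := by
    have h1 := norm_sub_norm_le ((L : ℂ) / 2 * (be (w : ℝ) α p (k - 1) - be (w : ℝ) α' p (k - 1)))
      (∫ t in a..(a + L), ((g t : ℝ) : ℂ) *
        Complex.exp ((Real.log ((p ^ k : ℕ) : ℝ) * t : ℝ) * Complex.I))
    rw [norm_sub_rev] at h1
    have h2 := hB.trans hB2
    have e : 9 * L / (32 * E) = 7 * L / (32 * E) + L / (16 * E) := by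
      field_simp
      norm_num
    rw [e]
    linarith
  rw [norm_mul, norm_div, Complex.norm_real, Real.norm_of_nonneg hL0.le, Complex.norm_ofNat] at hC
  have hD : ‖be (w : ℝ) α p (k - 1) - be (w : ℝ) α' p (k - 1)‖ ≤ 9 / (16 * E) := by
    have h1 : L / 2 * ‖be (w : ℝ) α p (k - 1) - be (w : ℝ) α' p (k - 1)‖ ≤
        L / 2 * (9 / (16 * E)) := by
      refine hC.trans (le_of_eq ?_)
      field_simp
      norm_num
    exact le_of_mul_le_mul_left h1 (by positivity)
  -- back to the power sums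
  have hF : ∑ j, α p j ^ k - ∑ j, α' p j ^ k = (k : ℂ) *
      (((p : ℝ) ^ (((w : ℝ) / 2 + 1) * k) : ℝ) : ℂ) *
        (be (w : ℝ) α p (k - 1) - be (w : ℝ) α' p (k - 1)) := by
    unfold be
    have e1 : k - 1 + 1 = k := by omega
    have e2 : (((k - 1 : ℕ) : ℂ) + 1) = k := by
      have : ((k - 1 + 1 : ℕ) : ℂ) = k := by rw [e1]
      push_cast at this
      exact this
    have e3 : (((k - 1 : ℕ) : ℝ) + 1) = k := by
      have : ((k - 1 + 1 : ℕ) : ℝ) = k := by rw [e1]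
      push_cast at this
      exact this
    rw [e1, e2, e3, Real.rpow_neg hp0.le]
    have hk0 : (k : ℂ) ≠ 0 := by exact_mod_cast (by omega : k ≠ 0)
    have hpk0 : (((p : ℝ) ^ (((w : ℝ) / 2 + 1) * k) : ℝ) : ℂ) ≠ 0 := by
      exact_mod_cast (Real.rpow_pos_of_pos hp0 _).ne'
    rw [Complex.ofReal_inv]
    generalize (((p : ℝ) ^ (((w : ℝ) / 2 + 1) * k) : ℝ) : ℂ) = R at hpk0 ⊢
    field_simp
  rw [hF, norm_mul, norm_mul, Complex.norm_natCast, Complex.norm_real,
    Real.norm_of_nonneg (by positivity)]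
  have hH : (k : ℝ) * (p : ℝ) ^ (((w : ℝ) / 2 + 1) * k) ≤ E := by
    have h1 : (p : ℝ) ^ (((w : ℝ) / 2 + 1) * k) ≤ (x : ℝ) ^ (N * (w + 1)) := by
      calc (p : ℝ) ^ (((w : ℝ) / 2 + 1) * k) ≤ (p : ℝ) ^ (((N * (w + 1) : ℕ) : ℝ)) := by
            refine Real.rpow_le_rpow_of_exponent_le hp1 ?_
            push_cast
            have h2 : (k : ℝ) ≤ N := by exact_mod_cast hkN
            have h3 : (0 : ℝ) ≤ w := Nat.cast_nonneg w
            have h4 : (0 : ℝ) ≤ k := Nat.cast_nonneg k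
            nlinarith
        _ = (p : ℝ) ^ (N * (w + 1)) := Real.rpow_natCast _ _
        _ ≤ _ := pow_le_pow_left₀ hp0.le hpxR _
    have h2 : (k : ℝ) ≤ N := by exact_mod_cast hkN
    calc (k : ℝ) * (p : ℝ) ^ (((w : ℝ) / 2 + 1) * k) ≤ N * (x : ℝ) ^ (N * (w + 1)) := by gcongr
      _ = E := rfl
  calc (k : ℝ) * (p : ℝ) ^ (((w : ℝ) / 2 + 1) * k) *
        ‖be (w : ℝ) α p (k - 1) - be (w : ℝ) α' p (k - 1)‖ ≤ E * (9 / (16 * E)) := by gcongr
    _ = 9 / 16 := by
        rw [mul_div_assoc', div_eq_div_iff (by positivity) (by norm_num)]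
        ring
    _ < 1 := by norm_num

end Pool.Agent.Q255.SG
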