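import Pool.Agent.Q255.SG.Gen

/-! # `∑ 1/(p log p)` over primes and over places -/

set_option autoImplicit false

namespace Pool.Agent.Q255.SG

open NumberField IsDedekindDomain Finset Pool.Agent.H921R2.TatePole
  Pool.Agent.W350.EdgeNF Pool.Agent.W350.EdgeV Pool.Agent.Q255.SA

/-- `1/(p log p)` -/
noncomputable def pl (p : ℕ) : ℝ := if p.Prime then 1 / ((p : ℝ) * Real.log p) else 0

theorem pl_nonneg (p : ℕ) : 0 ≤ pl p := by
  unfold pl
  split_ifs with hp
  · have : 0 ≤ Real.log p := Real.log_natCast_nonneg p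
    positivity
  · exact le_rfl

theorem pl_block {x z : ℕ} (hx : 2 ≤ x) : ∑ p ∈ Ico x z, pl p ≤ RS x z / Real.log x := by
  have hlx : 0 < Real.log x := Real.log_pos (by exact_mod_cast (by omega : 1 < x))
  unfold RS
  rw [Finset.sum_div]
  refine Finset.sum_le_sum fun p hp => ?_
  unfold pl
  split_ifs with h
  · have hxp : (x : ℝ) ≤ p := by exact_mod_cast (Finset.mem_Ico.1 hp).1
    have hx0 : (0 : ℝ) < x := by exact_mod_cast (by omega : 0 < x)
    have h1 : Real.log x ≤ Real.log p := Real.log_le_log hx0 hxp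
    rw [div_div]
    refine one_div_le_one_div_of_le (by nlinarith) ?_
    exact mul_le_mul_of_nonneg_left h1 (by linarith)
  · simp

theorem summable_pl : Summable pl := by
  obtain ⟨C, hC, h⟩ := mert
  set A : ℝ := ∑ p ∈ range 4, pl p with hA
  set c : ℝ := (Real.log 2 + 2 * C) / Real.log 2 with hc
  have hl2 : 0 < Real.log 2 := Real.log_pos (by norm_num)
  have hc0 : 0 ≤ c := by positivity
  have hN : ∀ m : ℕ, 4 ≤ 2 ^ (2 ^ (m + 1)) := by
    intro m
    calc 4 = 2 ^ 2 := by norm_num
      _ ≤ 2 ^ (2 ^ (m + 1)) := by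
          refine Nat.pow_le_pow_right (by norm_num) ?_
          calc 2 = 2 ^ 1 := by norm_num
            _ ≤ 2 ^ (m + 1) := Nat.pow_le_pow_right (by norm_num) (by omega)
  have hlog : ∀ m : ℕ, Real.log ((2 ^ (2 ^ (m + 1)) : ℕ) : ℝ) = 2 ^ (m + 1) * Real.log 2 := by
    intro m
    push_cast
    rw [Real.log_pow]
    push_cast
    ring
  have hstep : ∀ m : ℕ, ∑ p ∈ range (2 ^ (2 ^ (m + 1))), pl p ≤ A + 2 * c - 2 * c / 2 ^ m := by
    intro m
    induction m with
    | zero =>
      have : (2 : ℕ) ^ (2 ^ (0 + 1)) = 4 := by norm_num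
      rw [this]
      simp only [pow_zero, div_one]
      linarith
    | succ m ih =>
      have hle : 2 ^ (2 ^ (m + 1)) ≤ 2 ^ (2 ^ (m + 1 + 1)) :=
        Nat.pow_le_pow_right (by norm_num) (Nat.pow_le_pow_right (by norm_num) (by omega))
      have h1 : ∑ p ∈ range (2 ^ (2 ^ (m + 1 + 1))), pl p =
          ∑ p ∈ range (2 ^ (2 ^ (m + 1))), pl p +
            ∑ p ∈ Ico (2 ^ (2 ^ (m + 1))) (2 ^ (2 ^ (m + 1 + 1))), pl p :=
        (Finset.sum_range_add_sum_Ico _ hle).symm
      have h2 := pl_block (x := 2 ^ (2 ^ (m + 1))) (z := 2 ^ (2 ^ (m + 1 + 1)))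
        (le_trans (by norm_num) (hN m))
      have h3 : RS (2 ^ (2 ^ (m + 1))) (2 ^ (2 ^ (m + 1 + 1))) ≤ Real.log 2 + 2 * C := by
        have e1 := RS_add (x := 0) (Nat.zero_le (2 ^ (2 ^ (m + 1)))) hle
        have e2 := abs_le.1 (h (2 ^ (2 ^ (m + 1))) (le_trans (by norm_num) (hN m)))
        have e3 := abs_le.1 (h (2 ^ (2 ^ (m + 1 + 1))) (le_trans (by norm_num) (hN (m + 1))))
        rw [hlog] at e2 e3
        have e4 : Real.log (2 ^ (m + 1 + 1) * Real.log 2) =
            Real.log 2 + Real.log (2 ^ (m + 1) * Real.log 2) := by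
          rw [← Real.log_mul (by norm_num) (by positivity)]
          congr 1
          ring
        rw [e4] at e3
        linarith [e2.1, e3.2]
      rw [hlog] at h2
      have h4 : RS (2 ^ (2 ^ (m + 1))) (2 ^ (2 ^ (m + 1 + 1))) / (2 ^ (m + 1) * Real.log 2) ≤
          c / 2 ^ (m + 1) := by
        rw [hc, div_div, mul_comm (Real.log 2) (2 ^ (m + 1))]
        exact div_le_div_of_nonneg_right h3 (by positivity)
      have h5 : 2 * c / 2 ^ m = 2 * c / 2 ^ (m + 1) + 2 * (c / 2 ^ (m + 1)) := by
        field_simp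
        ring
      have h6 : 0 ≤ c / 2 ^ (m + 1) := by positivity
      rw [h1]
      linarith
  refine summable_of_sum_range_le (c := A + 2 * c) pl_nonneg fun n => ?_
  have hn : n ≤ 2 ^ (2 ^ (n + 1)) :=
    (Nat.lt_two_pow_self.le).trans (Nat.pow_le_pow_right (by norm_num)
      ((Nat.lt_two_pow_self (n := n)).le.trans (Nat.pow_le_pow_right (by norm_num) (by omega))))
  calc ∑ p ∈ range n, pl p ≤ ∑ p ∈ range (2 ^ (2 ^ (n + 1))), pl p :=
        Finset.sum_le_sum_of_subset_of_nonneg (Finset.range_mono hn) fun p _ _ => pl_nonneg p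
    _ ≤ A + 2 * c - 2 * c / 2 ^ n := hstep n
    _ ≤ A + 2 * c := by
        have : 0 ≤ 2 * c / 2 ^ n := by positivity
        linarith

variable {K : Type} [Field K] [NumberField K]

theorem nm_log_pos (v : HeightOneSpectrum (𝓞 K)) : 0 < Real.log (nm v) := by
  have h := below_le_nm v
  have h2 := (below v).2.two_le
  exact Real.log_pos (by exact_mod_cast (by omega : 1 < nm v))

theorem log_two_le (v : HeightOneSpectrum (𝓞 K)) : Real.log 2 ≤ Real.log (nm v) := by
  have h := below_le_nm v
  have h2 := (below v).2.two_le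
  exact Real.log_le_log (by norm_num) (by exact_mod_cast (by omega : 2 ≤ nm v))

theorem summable_place : Summable fun v : HeightOneSpectrum (𝓞 K) =>
    1 / ((nm v : ℝ) * Real.log (nm v)) := by
  classical
  refine summable_of_sum_le (c := Module.finrank ℚ K * ∑' p, pl p) (fun v => ?_) fun G => ?_
  · have := nm_log_pos v
    positivity
  · have h0 : ∑ v ∈ G, 1 / ((nm v : ℝ) * Real.log (nm v)) ≤ ∑ v ∈ G, pl (below v : ℕ) := by
      refine Finset.sum_le_sum fun v _ => ?_
      unfold pl
      rw [if_pos (below v).2]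
      have hp : (0 : ℝ) < ((below v : ℕ) : ℝ) := by exact_mod_cast (below v).2.pos
      have hp1 : (1 : ℝ) < ((below v : ℕ) : ℝ) := by exact_mod_cast (below v).2.one_lt
      have hpn : ((below v : ℕ) : ℝ) ≤ nm v := by exact_mod_cast below_le_nm v
      have hl := Real.log_le_log hp hpn
      have hl0 := Real.log_pos hp1
      refine one_div_le_one_div_of_le (by positivity) ?_
      exact mul_le_mul hpn hl hl0.le (by linarith)
    refine h0.trans ?_
    rw [← Finset.sum_fiberwise_of_maps_to (s := G) (t := G.image fun v => (below v : ℕ))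
      (g := fun v => (below v : ℕ)) (fun v hv => Finset.mem_image_of_mem _ hv)]
    have h1 : ∀ p ∈ G.image fun v => (below v : ℕ),
        ∑ v ∈ G with (below v : ℕ) = p, pl (below v : ℕ) ≤ Module.finrank ℚ K * pl p := by
      intro p hp
      obtain ⟨u, hu, rfl⟩ := Finset.mem_image.1 hp
      have h2 : ∀ v ∈ G.filter (fun v => (below v : ℕ) = (below u : ℕ)),
          pl (below v : ℕ) = pl (below u : ℕ) := by
        intro v hv
        rw [(Finset.mem_filter.1 hv).2]
      rw [Finset.sum_congr rfl h2, Finset.sum_const, nsmul_eq_mul]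
      refine mul_le_mul_of_nonneg_right ?_ (pl_nonneg _)
      exact_mod_cast card_above (below u) _ fun v hv => Subtype.ext (Finset.mem_filter.1 hv).2
    refine (Finset.sum_le_sum h1).trans ?_
    rw [← Finset.mul_sum]
    refine mul_le_mul_of_nonneg_left ?_ (by positivity)
    exact summable_pl.sum_le_tsum _ fun n _ => pl_nonneg n

end Pool.Agent.Q255.SG
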