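import Pool.Agent.Q255.SG.Local

/-! # The size near a point of the edge, seen at a positive proportion of the points of the edge -/

set_option autoImplicit false

namespace Pool.Agent.Q255.SG

open MeasureTheory Filter Topology

section
variable {q C : ℝ} {x : ℝ → ℝ} {l : ℝ → ℂ} {t0 : ℝ}

/-- Chebyshev -/
theorem cheb (hq : 0 < q) (hC : 0 < C) (hl : AEMeasurable l volume) {δ : ℝ} (hδ : 0 < δ)
    (h : ∫⁻ t in Set.Icc (t0 - δ) (t0 + δ),
      ENNReal.ofReal (Real.exp (q * |Real.log ‖l t‖ - x δ|)) ≤ ENNReal.ofReal (C * δ)) (lam : ℝ) :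
    volume {t : ℝ | |t - t0| ≤ δ ∧ lam ≤ |Real.log ‖l t‖ - x δ|} ≤
      ENNReal.ofReal (C * δ * Real.exp (-(q * lam))) := by
  have hm : AEMeasurable (fun t => ENNReal.ofReal (Real.exp (q * |Real.log ‖l t‖ - x δ|)))
      (volume.restrict (Set.Icc (t0 - δ) (t0 + δ))) := by
    have h1 : AEMeasurable (fun t => Real.log ‖l t‖ - x δ)
        (volume.restrict (Set.Icc (t0 - δ) (t0 + δ))) := (hl.norm.log.sub_const _).restrict
    exact (Real.measurable_exp.comp_aemeasurable ((continuous_abs.measurable.comp_aemeasurable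
      h1).const_mul q)).ennreal_ofReal
  have h1 := mul_meas_ge_le_lintegral₀ hm (ENNReal.ofReal (Real.exp (q * lam)))
  have h2 : {t : ℝ | |t - t0| ≤ δ ∧ lam ≤ |Real.log ‖l t‖ - x δ|} ⊆
      {t | ENNReal.ofReal (Real.exp (q * lam)) ≤
        ENNReal.ofReal (Real.exp (q * |Real.log ‖l t‖ - x δ|))} ∩
        Set.Icc (t0 - δ) (t0 + δ) := by
    rintro t ⟨h3, h4⟩
    rw [abs_le] at h3
    refine ⟨ENNReal.ofReal_le_ofReal (Real.exp_le_exp.2 (by gcongr)), ?_, ?_⟩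
    · linarith [h3.1]
    · linarith [h3.2]
  have h3 : volume {t : ℝ | |t - t0| ≤ δ ∧ lam ≤ |Real.log ‖l t‖ - x δ|} ≤
      (volume.restrict (Set.Icc (t0 - δ) (t0 + δ))) {t | ENNReal.ofReal (Real.exp (q * lam)) ≤
        ENNReal.ofReal (Real.exp (q * |Real.log ‖l t‖ - x δ|))} :=
    (measure_mono h2).trans (Measure.le_restrict_apply _ _)
  have he : ENNReal.ofReal (Real.exp (q * lam)) ≠ 0 := by
    rw [Ne, ENNReal.ofReal_eq_zero, not_le]
    exact Real.exp_pos _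
  have h4 : ENNReal.ofReal (Real.exp (q * lam)) *
      volume {t : ℝ | |t - t0| ≤ δ ∧ lam ≤ |Real.log ‖l t‖ - x δ|} ≤ ENNReal.ofReal (C * δ) :=
    (mul_le_mul_right h3 _).trans (h1.trans h)
  rw [ENNReal.ofReal_mul (by positivity), Real.exp_neg,
    ENNReal.ofReal_inv_of_pos (Real.exp_pos _), ← div_eq_mul_inv]
  rw [ENNReal.le_div_iff_mul_le (Or.inl he) (Or.inl ENNReal.ofReal_ne_top), mul_comm]
  exact h4

theorem weak_one (hq : 0 < q) (hC : 0 < C) (hl : AEMeasurable l volume)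
    (h : ∀ δ : ℝ, 0 < δ → δ ≤ 1 → ∫⁻ t in Set.Icc (t0 - δ) (t0 + δ),
      ENNReal.ofReal (Real.exp (q * |Real.log ‖l t‖ - x δ|)) ≤ ENNReal.ofReal (C * δ)) {ρ A : ℝ}
    (hA : ∀ δ : ℝ, 0 < δ → δ ≤ 1 → |x δ - ρ * Real.log (1 / δ)| ≤ A) :
    ∀ δ : ℝ, 0 < δ → δ ≤ 1 → ∀ lam : ℝ,
      volume {t : ℝ | |t - t0| ≤ δ ∧ A + lam ≤ |Real.log ‖l t‖ - ρ * Real.log (1 / δ)|} ≤
        ENNReal.ofReal (C * δ * Real.exp (-(q * lam))) := by
  intro δ hδ hδ1 lam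
  refine (measure_mono ?_).trans (cheb hq hC hl hδ (h δ hδ hδ1) lam)
  rintro t ⟨h1, h2⟩
  refine ⟨h1, ?_⟩
  have h3 := hA δ hδ hδ1
  have h4 := abs_sub_le (Real.log ‖l t‖) (x δ) (ρ * Real.log (1 / δ))
  linarith

theorem weak_two (hq : 0 < q) (hC : 0 < C) (hl : AEMeasurable l volume)
    (h : ∀ δ : ℝ, 0 < δ → δ ≤ 1 → ∫⁻ t in Set.Icc (t0 - δ) (t0 + δ),
      ENNReal.ofReal (Real.exp (q * |Real.log ‖l t‖ - x δ|)) ≤ ENNReal.ofReal (C * δ)) {ρ : ℝ}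
    (hA : ∃ A : ℝ, ∀ δ : ℝ, 0 < δ → δ ≤ 1 → |x δ - ρ * Real.log (1 / δ)| ≤ A) :
    ∃ A η : ℝ, 0 < η ∧ ∀ δ : ℝ, 0 < δ → δ ≤ 1 → ENNReal.ofReal (η * δ) ≤
      volume {t : ℝ | |t - t0| ≤ δ ∧ |Real.log ‖l t‖ - ρ * Real.log (1 / δ)| ≤ A} := by
  obtain ⟨A, hA⟩ := hA
  set lam : ℝ := Real.log C / q with hlam
  have hCl : C * Real.exp (-(q * lam)) = 1 := by
    have : q * lam = Real.log C := by rw [hlam]; field_simp
    rw [this, Real.exp_neg, Real.exp_log hC]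
    field_simp
  refine ⟨A + lam, 1, one_pos, fun δ hδ hδ1 => ?_⟩
  have h1 := weak_one hq hC hl h hA δ hδ hδ1 lam
  have h2 : C * δ * Real.exp (-(q * lam)) = δ := by
    calc C * δ * Real.exp (-(q * lam)) = (C * Real.exp (-(q * lam))) * δ := by ring
      _ = δ := by rw [hCl, one_mul]
  rw [h2] at h1
  have h3 : volume (Set.Icc (t0 - δ) (t0 + δ)) = ENNReal.ofReal (2 * δ) := by
    rw [Real.volume_Icc]
    congr 1
    ring
  have h4 : Set.Icc (t0 - δ) (t0 + δ) ⊆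
      {t : ℝ | |t - t0| ≤ δ ∧ |Real.log ‖l t‖ - ρ * Real.log (1 / δ)| ≤ A + lam} ∪
      {t : ℝ | |t - t0| ≤ δ ∧ A + lam ≤ |Real.log ‖l t‖ - ρ * Real.log (1 / δ)|} := by
    intro t ht
    have ht' : |t - t0| ≤ δ := by
      rw [abs_le]
      exact ⟨by linarith [ht.1], by linarith [ht.2]⟩
    rcases le_total (|Real.log ‖l t‖ - ρ * Real.log (1 / δ)|) (A + lam) with h5 | h5
    · exact Or.inl ⟨ht', h5⟩
    · exact Or.inr ⟨ht', h5⟩
  have h5 := (measure_mono (μ := volume) h4).trans (measure_union_le _ _)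
  rw [h3] at h5
  have h6 : ENNReal.ofReal (2 * δ) = ENNReal.ofReal δ + ENNReal.ofReal δ := by
    rw [← ENNReal.ofReal_add hδ.le hδ.le]
    congr 1
    ring
  rw [h6] at h5
  have h7 := h5.trans (add_le_add le_rfl h1)
  rw [one_mul]
  exact (ENNReal.add_le_add_iff_right ENNReal.ofReal_ne_top).1 h7

theorem weak_three (hq : 0 < q) (hC : 0 < C) (hl : AEMeasurable l volume)
    (h : ∀ δ : ℝ, 0 < δ → δ ≤ 1 → ∫⁻ t in Set.Icc (t0 - δ) (t0 + δ),
      ENNReal.ofReal (Real.exp (q * |Real.log ‖l t‖ - x δ|)) ≤ ENNReal.ofReal (C * δ)) {ρ A η : ℝ}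
    (hη : 0 < η) : ∃ A' : ℝ, ∀ δ : ℝ, 0 < δ → δ ≤ 1 → ENNReal.ofReal (η * δ) ≤
      volume {t : ℝ | |t - t0| ≤ δ ∧ |Real.log ‖l t‖ - ρ * Real.log (1 / δ)| ≤ A} →
      |x δ - ρ * Real.log (1 / δ)| ≤ A' := by
  set lam : ℝ := Real.log (2 * C / η) / q with hlam
  have hCl : C * Real.exp (-(q * lam)) = η / 2 := by
    have : q * lam = Real.log (2 * C / η) := by rw [hlam]; field_simp
    rw [this, Real.exp_neg, Real.exp_log (by positivity)]
    field_simp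
  refine ⟨A + lam, fun δ hδ hδ1 h1 => ?_⟩
  by_contra hcon
  push Not at hcon
  have h2 : {t : ℝ | |t - t0| ≤ δ ∧ |Real.log ‖l t‖ - ρ * Real.log (1 / δ)| ≤ A} ⊆
      {t : ℝ | |t - t0| ≤ δ ∧ lam ≤ |Real.log ‖l t‖ - x δ|} := by
    rintro t ⟨h3, h4⟩
    refine ⟨h3, ?_⟩
    have h5 := abs_sub_le (x δ) (Real.log ‖l t‖) (ρ * Real.log (1 / δ))
    rw [abs_sub_comm (x δ) (Real.log ‖l t‖)] at h5
    linarith
  have h3 := h1.trans ((measure_mono h2).trans (cheb hq hC hl hδ (h δ hδ hδ1) lam))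
  have h4 : C * δ * Real.exp (-(q * lam)) = η / 2 * δ := by
    calc C * δ * Real.exp (-(q * lam)) = (C * Real.exp (-(q * lam))) * δ := by ring
      _ = η / 2 * δ := by rw [hCl]
  rw [h4, ENNReal.ofReal_le_ofReal_iff (by positivity)] at h3
  have : 0 < η * δ := by positivity
  linarith

end

end Pool.Agent.Q255.SG
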