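import Pool.Agent.Q255.SG.Main

/-! # Euler factors with eigenvalues of bounded absolute value -/

set_option autoImplicit false

namespace Pool.Agent.Q255.SG

open NumberField IsDedekindDomain Finset Pool.Agent.H921R2.TatePole
  Pool.Agent.W350.EdgeEC Pool.Agent.W350.EdgeNF Pool.Agent.W350.EdgeV MeasureTheory Filter
  Topology Pool.Agent.Q255.SA

variable {K : Type} [Field K] [NumberField K] {N : ℕ} {w : ℝ}

/-- the point `w/2 + 1 + iτ` -/
noncomputable def epw (w τ : ℝ) : ℂ := ((w / 2 + 1 : ℝ) : ℂ) + (τ : ℂ) * Complex.I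

theorem epw_re (w τ : ℝ) : (epw w τ).re = w / 2 + 1 := by
  unfold epw
  simp

/-- `α q_v^{-s}` on the edge -/
noncomputable def btk (w : ℝ) (a : ℂ) (v : HeightOneSpectrum (𝓞 K)) (τ : ℝ) : ℂ :=
  a * (nm v : ℂ) ^ (-epw w τ)

theorem cpow_epw (v : HeightOneSpectrum (𝓞 K)) (w τ : ℝ) :
    (nm v : ℂ) ^ (-epw w τ) = (((nm v : ℝ) ^ (-(w / 2)) : ℝ) : ℂ) * (ee τ (nm v) / (nm v : ℂ)) := by
  have h0 := nm_pos v
  have hlog : Complex.log (nm v : ℂ) = ((Real.log (nm v) : ℝ) : ℂ) := by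
    rw [← Complex.ofReal_natCast, Complex.ofReal_log h0.le]
  have h1 : (nm v : ℂ) = Complex.exp ((Real.log (nm v) : ℝ) : ℂ) := by
    rw [← Complex.ofReal_exp, Real.exp_log h0, Complex.ofReal_natCast]
  have h2 : ee τ (nm v) / (nm v : ℂ) = ee τ (nm v) * Complex.exp (-((Real.log (nm v) : ℝ) : ℂ)) := by
    rw [Complex.exp_neg, ← h1, div_eq_mul_inv]
  rw [h2]
  unfold ee epw
  rw [Complex.cpow_def_of_ne_zero (nmC_ne v), hlog, Real.rpow_def_of_pos h0, Complex.ofReal_exp,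
    ← Complex.exp_add, ← Complex.exp_add]
  congr 1
  push_cast
  ring

theorem norm_btk {a : ℂ} {v : HeightOneSpectrum (𝓞 K)} (ha : ‖a‖ ≤ (nm v : ℝ) ^ (w / 2)) (τ : ℝ) :
    ‖btk w a v τ‖ ≤ (nm v : ℝ) ^ (-1 : ℝ) ∧ ‖btk w a v τ‖ ≤ 1 / 2 := by
  have h0 := nm_pos v
  have h2 : (2 : ℝ) ≤ nm v := by exact_mod_cast two_le_nm v
  have h1 : ‖btk w a v τ‖ ≤ (nm v : ℝ) ^ (-1 : ℝ) := by
    unfold btk
    rw [norm_mul, Complex.norm_natCast_cpow_of_pos (hN v), Complex.neg_re, epw_re]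
    calc ‖a‖ * (nm v : ℝ) ^ (-(w / 2 + 1)) ≤ (nm v : ℝ) ^ (w / 2) * (nm v : ℝ) ^ (-(w / 2 + 1)) := by
          gcongr
      _ = _ := by
          rw [← Real.rpow_add h0]
          congr 1
          ring
  refine ⟨h1, h1.trans ?_⟩
  rw [Real.rpow_neg_one, inv_eq_one_div]
  exact one_div_le_one_div_of_le (by norm_num) h2

/-- the remainder of the logarithm -/
noncomputable def rw1 (w : ℝ) (a : ℂ) (v : HeightOneSpectrum (𝓞 K)) (τ : ℝ) : ℂ :=
  -Complex.log (1 - btk w a v τ) - btk w a v τ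

theorem norm_rw1 {a : ℂ} {v : HeightOneSpectrum (𝓞 K)} (ha : ‖a‖ ≤ (nm v : ℝ) ^ (w / 2)) (τ : ℝ) :
    ‖rw1 w a v τ‖ ≤ (nm v : ℝ) ^ (-2 : ℝ) := by
  have h0 := nm_pos v
  obtain ⟨h1, h2⟩ := norm_btk (w := w) ha τ
  have h3 := norm_log_sub (w := btk w a v τ) (by linarith)
  refine h3.trans ?_
  have h4 : (1 - ‖btk w a v τ‖)⁻¹ ≤ 2 := by
    rw [inv_le_comm₀ (by linarith) (by norm_num)]
    linarith
  have h5 : 0 < (1 - ‖btk w a v τ‖)⁻¹ := inv_pos.2 (by linarith)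
  have h6 : ‖btk w a v τ‖ ^ 2 ≤ (nm v : ℝ) ^ (-2 : ℝ) := by
    have h7 := pow_le_pow_left₀ (norm_nonneg _) h1 2
    rwa [← Real.rpow_natCast ((nm v : ℝ) ^ (-1 : ℝ)), ← Real.rpow_mul h0.le,
      show (-1 : ℝ) * ((2 : ℕ) : ℝ) = -2 by norm_num] at h7
  have h8 := mul_le_mul h6 h4 h5.le (by positivity)
  linarith

theorem rw1_continuous {a : ℂ} {v : HeightOneSpectrum (𝓞 K)} (ha : ‖a‖ ≤ (nm v : ℝ) ^ (w / 2)) :
    Continuous (rw1 w a v) := by
  have h1 : Continuous fun τ => btk w a v τ := by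
    unfold btk
    simp_rw [cpow_epw]
    unfold ee
    fun_prop
  unfold rw1
  refine (Continuous.neg ?_).sub h1
  refine (continuous_const.sub h1).clog fun τ => Or.inl ?_
  show 0 < (1 - btk w a v τ).re
  have h3 := (norm_btk (w := w) ha τ).2
  have h4 := Complex.re_le_norm (btk w a v τ)
  rw [Complex.sub_re, Complex.one_re]
  linarith

theorem factor_exp {a : ℂ} {v : HeightOneSpectrum (𝓞 K)} (ha : ‖a‖ ≤ (nm v : ℝ) ^ (w / 2))
    (τ : ℝ) : (1 - btk w a v τ)⁻¹ = Complex.exp (btk w a v τ + rw1 w a v τ) := by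
  have h1 := (norm_btk (w := w) ha τ).2
  have h2 : 1 - btk w a v τ ≠ 0 := one_sub_ne (by linarith)
  rw [rw1, add_sub_cancel, Complex.exp_neg, Complex.exp_log h2]

/-- The local data of a system of eigenvalues. -/
noncomputable def sysLD (w : ℝ) (α : HeightOneSpectrum (𝓞 K) → Fin N → ℂ)
    (hα : ∀ v j, ‖α v j‖ ≤ (nm v : ℝ) ^ (w / 2)) : LD K N N where
  c v := ∑ j, α v j * (((nm v : ℝ) ^ (-(w / 2)) : ℝ) : ℂ)
  r v τ := ∑ j, rw1 w (α v j) v τ
  hB := Nat.cast_nonneg N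
  hA := Nat.cast_nonneg N
  hc v := by
    have h0 := nm_pos v
    refine (norm_sum_le_of_le (n := fun _ => (1 : ℝ)) _ fun j _ => ?_).trans (by simp)
    rw [norm_mul, Complex.norm_real, Real.norm_of_nonneg (by positivity)]
    calc ‖α v j‖ * (nm v : ℝ) ^ (-(w / 2)) ≤ (nm v : ℝ) ^ (w / 2) * (nm v : ℝ) ^ (-(w / 2)) := by
          gcongr
          exact hα v j
      _ = 1 := by
          rw [← Real.rpow_add h0]
          simp
  hr v τ := by
    refine (norm_sum_le_of_le (n := fun _ => (nm v : ℝ) ^ (-2 : ℝ)) _ fun j _ =>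
      norm_rw1 (hα v j) τ).trans ?_
    rw [Finset.sum_const, Finset.card_univ, Fintype.card_fin, nsmul_eq_mul]
  hcont v := continuous_finset_sum _ fun j _ => rw1_continuous (hα v j)

theorem sys_factor (α : HeightOneSpectrum (𝓞 K) → Fin N → ℂ)
    (hα : ∀ v j, ‖α v j‖ ≤ (nm v : ℝ) ^ (w / 2)) (v : HeightOneSpectrum (𝓞 K)) (τ : ℝ) :
    (∏ j, (1 - α v j * (nm v : ℂ) ^ (-epw w τ)))⁻¹ =
      Complex.exp (ft (sysLD w α hα) v τ + (sysLD w α hα).r v τ) := by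
  have h1 : ft (sysLD w α hα) v τ = ∑ j, btk w (α v j) v τ := by
    unfold ft sysLD btk
    simp only
    rw [Finset.sum_mul]
    refine Finset.sum_congr rfl fun j _ => ?_
    rw [cpow_epw, mul_assoc]
  have h2 : (sysLD w α hα).r v τ = ∑ j, rw1 w (α v j) v τ := rfl
  rw [h1, h2, ← Finset.sum_add_distrib, Complex.exp_sum, ← Finset.prod_inv_distrib]
  exact Finset.prod_congr rfl fun j _ => factor_exp (hα v j) τ

theorem sys_PP (α : HeightOneSpectrum (𝓞 K) → Fin N → ℂ)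
    (hα : ∀ v j, ‖α v j‖ ≤ (nm v : ℝ) ^ (w / 2)) (x : ℕ) (τ : ℝ) :
    ∏ v ∈ FV nm hfin x, (∏ j, (1 - α v j * (nm v : ℂ) ^ (-epw w τ)))⁻¹ =
      PP (sysLD w α hα) x τ := by
  unfold PP LP
  rw [Complex.exp_sum]
  exact Finset.prod_congr rfl fun v _ => sys_factor α hα v τ

end Pool.Agent.Q255.SG
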