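import Pool.Agent.Q255.SG.Main
import Pool.Agent.Q255.SG.Sys
import Pool.Agent.Q255.SG.Mult2
import Pool.Agent.Q255.SG.PLog
import Pool.Agent.Q255.SG.Dilog

/-! # A primitive of the logarithm of the L-function, continuous on the closed half-plane -/

set_option autoImplicit false

namespace Pool.Agent.Q255.SG

open NumberField IsDedekindDomain Finset Pool.Agent.H921R2.TatePole
  Pool.Agent.W350.EdgeEC Pool.Agent.W350.EdgeNF Pool.Agent.W350.EdgeV MeasureTheory Filter Topology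
  Pool.Agent.Q255.SA

variable {K : Type} [Field K] [NumberField K] {N : ℕ} {w : ℝ}

/-- `α q^{-s}` at `s = w/2 + 1 + z` -/
noncomputable def bz (w : ℝ) (a : ℂ) (v : HeightOneSpectrum (𝓞 K)) (z : ℂ) : ℂ :=
  a * (nm v : ℂ) ^ (-(((w / 2 + 1 : ℝ) : ℂ) + z))

theorem bz_line (w : ℝ) (a : ℂ) (v : HeightOneSpectrum (𝓞 K)) (τ : ℝ) :
    bz w a v ((τ : ℂ) * Complex.I) = btk w a v τ := rfl

theorem norm_bz {a : ℂ} {v : HeightOneSpectrum (𝓞 K)} (ha : ‖a‖ ≤ (nm v : ℝ) ^ (w / 2)) {z : ℂ}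
    (hz : 0 ≤ z.re) : ‖bz w a v z‖ ≤ 1 / (nm v : ℝ) ∧ ‖bz w a v z‖ ≤ 1 / 2 := by
  have h0 := nm_pos v
  have h2 : (2 : ℝ) ≤ nm v := by
    have h := below_le_nm v
    have h2 := (below v).2.two_le
    exact_mod_cast (by omega : 2 ≤ nm v)
  have h1 : ‖bz w a v z‖ ≤ 1 / (nm v : ℝ) := by
    unfold bz
    rw [norm_mul, Complex.norm_natCast_cpow_of_pos (by exact_mod_cast h0)]
    have e : (-(((w / 2 + 1 : ℝ) : ℂ) + z)).re = -(w / 2 + 1) - z.re := by
      simp only [Complex.neg_re, Complex.add_re, Complex.ofReal_re]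
      ring
    rw [e]
    calc ‖a‖ * (nm v : ℝ) ^ (-(w / 2 + 1) - z.re) ≤
        (nm v : ℝ) ^ (w / 2) * (nm v : ℝ) ^ (-(w / 2 + 1)) := by
          refine mul_le_mul ha ?_ (by positivity) (by positivity)
          exact Real.rpow_le_rpow_of_exponent_le (by linarith) (by linarith)
      _ = 1 / (nm v : ℝ) := by
          rw [← Real.rpow_add h0, one_div, ← Real.rpow_neg_one]
          congr 1
          ring
  exact ⟨h1, h1.trans (one_div_le_one_div_of_le (by norm_num) h2)⟩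

theorem bz_deriv (w : ℝ) (a : ℂ) (v : HeightOneSpectrum (𝓞 K)) (z : ℂ) :
    HasDerivAt (bz w a v) (-(Real.log (nm v) : ℂ) * bz w a v z) z := by
  have h0 : (nm v : ℂ) ≠ 0 := by
    have := nm_pos v
    exact_mod_cast this.ne'
  have h1 : HasDerivAt (fun z : ℂ => -(((w / 2 + 1 : ℝ) : ℂ) + z)) (-1) z := by
    exact ((hasDerivAt_id z).const_add ((w / 2 + 1 : ℝ) : ℂ)).fun_neg
  have h2 := (h1.const_cpow (c := (nm v : ℂ)) (Or.inl h0)).const_mul a
  have h3 : Complex.log (nm v : ℂ) = ((Real.log (nm v) : ℝ) : ℂ) := (Complex.natCast_log).symm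
  unfold bz
  refine h2.congr_deriv ?_
  rw [h3]
  ring

/-- the primitive of the logarithm of a factor -/
noncomputable def pz (w : ℝ) (a : ℂ) (v : HeightOneSpectrum (𝓞 K)) (z : ℂ) : ℂ :=
  -(dl (bz w a v z)) / (Real.log (nm v) : ℂ)

theorem pz_deriv {a : ℂ} {v : HeightOneSpectrum (𝓞 K)} (ha : ‖a‖ ≤ (nm v : ℝ) ^ (w / 2)) {z : ℂ}
    (hz : 0 ≤ z.re) : HasDerivAt (pz w a v) (-Complex.log (1 - bz w a v z)) z := by
  have hb := norm_bz (w := w) ha hz
  obtain ⟨d, hd, hdw⟩ := dl_deriv (w := bz w a v z) (by linarith [hb.2])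
  have h1 := ((hd.comp z (bz_deriv w a v z)).neg).div_const ((Real.log (nm v) : ℝ) : ℂ)
  have hl : ((Real.log (nm v) : ℝ) : ℂ) ≠ 0 := by
    exact_mod_cast (nm_log_pos v).ne'
  unfold pz
  refine h1.congr_deriv ?_
  rw [← hdw]
  field_simp

theorem norm_pz {a : ℂ} {v : HeightOneSpectrum (𝓞 K)} (ha : ‖a‖ ≤ (nm v : ℝ) ^ (w / 2)) {z : ℂ}
    (hz : 0 ≤ z.re) : ‖pz w a v z‖ ≤ 2 * (1 / ((nm v : ℝ) * Real.log (nm v))) := by
  have hb := norm_bz (w := w) ha hz
  have hl := nm_log_pos v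
  have h0 := nm_pos v
  unfold pz
  rw [norm_div, norm_neg, Complex.norm_real, Real.norm_of_nonneg hl.le, div_le_iff₀ hl]
  refine (norm_dl hb.2).trans ?_
  calc 2 * ‖bz w a v z‖ ≤ 2 * (1 / (nm v : ℝ)) := by linarith [hb.1]
    _ = 2 * (1 / ((nm v : ℝ) * Real.log (nm v))) * Real.log (nm v) := by
        field_simp

/-- the bound for the parameters -/
def BdK (w : ℝ) (α : HeightOneSpectrum (𝓞 K) → Fin N → ℂ) : Prop :=
  ∀ v j, ‖α v j‖ ≤ (nm v : ℝ) ^ (w / 2)

/-- the primitive of the logarithm of the Euler factor -/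
noncomputable def pv1 (w : ℝ) (α : HeightOneSpectrum (𝓞 K) → Fin N → ℂ)
    (v : HeightOneSpectrum (𝓞 K)) (z : ℂ) : ℂ := ∑ j, pz w (α v j) v z

/-- the logarithm of the Euler factor -/
noncomputable def fz (w : ℝ) (α : HeightOneSpectrum (𝓞 K) → Fin N → ℂ)
    (v : HeightOneSpectrum (𝓞 K)) (z : ℂ) : ℂ := ∑ j, -Complex.log (1 - bz w (α v j) v z)

theorem pv1_deriv {α : HeightOneSpectrum (𝓞 K) → Fin N → ℂ} (hα : BdK w α)
    (v : HeightOneSpectrum (𝓞 K)) {z : ℂ} (hz : 0 ≤ z.re) :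
    HasDerivAt (pv1 w α v) (fz w α v z) z := by
  unfold pv1 fz
  exact HasDerivAt.fun_sum fun j _ => pz_deriv (hα v j) hz

theorem norm_pv1 {α : HeightOneSpectrum (𝓞 K) → Fin N → ℂ} (hα : BdK w α)
    (v : HeightOneSpectrum (𝓞 K)) {z : ℂ} (hz : 0 ≤ z.re) :
    ‖pv1 w α v z‖ ≤ N * (2 * (1 / ((nm v : ℝ) * Real.log (nm v)))) := by
  unfold pv1
  refine (norm_sum_le_of_le _ fun j _ => norm_pz (hα v j) hz).trans ?_
  rw [Finset.sum_const, Finset.card_univ, Fintype.card_fin, nsmul_eq_mul]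

theorem exp_fz {α : HeightOneSpectrum (𝓞 K) → Fin N → ℂ} (hα : BdK w α)
    (v : HeightOneSpectrum (𝓞 K)) {z : ℂ} (hz : 0 ≤ z.re) :
    Complex.exp (fz w α v z) =
      (∏ j, (1 - α v j * (nm v : ℂ) ^ (-(((w / 2 + 1 : ℝ) : ℂ) + z))))⁻¹ := by
  unfold fz
  rw [Complex.exp_sum, ← Finset.prod_inv_distrib]
  refine Finset.prod_congr rfl fun j _ => ?_
  have hb := (norm_bz (w := w) (hα v j) hz).2
  have hne : 1 - bz w (α v j) v z ≠ 0 := by
    intro h
    have : bz w (α v j) v z = 1 := by linear_combination -h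
    rw [this, norm_one] at hb
    norm_num at hb
  rw [Complex.exp_neg, Complex.exp_log hne]
  rfl

/-- the primitive of the logarithm of the `L`-function -/
noncomputable def PG (w : ℝ) (α : HeightOneSpectrum (𝓞 K) → Fin N → ℂ) (z : ℂ) : ℂ :=
  ∑' v, pv1 w α v z

theorem summable_bound : Summable fun v : HeightOneSpectrum (𝓞 K) =>
    (N : ℝ) * (2 * (1 / ((nm v : ℝ) * Real.log (nm v)))) :=
  (summable_place.mul_left 2).mul_left _

theorem pv1_differentiableAt {α : HeightOneSpectrum (𝓞 K) → Fin N → ℂ} (hα : BdK w α)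
    (v : HeightOneSpectrum (𝓞 K)) {z : ℂ} (hz : 0 ≤ z.re) : DifferentiableAt ℂ (pv1 w α v) z :=
  (pv1_deriv hα v hz).differentiableAt

theorem PG_continuousOn {α : HeightOneSpectrum (𝓞 K) → Fin N → ℂ} (hα : BdK w α) :
    ContinuousOn (PG w α) {z | 0 ≤ z.re} :=
  continuousOn_tsum (fun v z hz => (pv1_differentiableAt hα v hz).continuousAt.continuousWithinAt)
    summable_bound fun v z hz => norm_pv1 hα v hz

theorem isOpen_re_pos : IsOpen {z : ℂ | 0 < z.re} := isOpen_lt continuous_const Complex.continuous_re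

theorem fz_hasSum {α : HeightOneSpectrum (𝓞 K) → Fin N → ℂ} (hα : BdK w α) {z : ℂ}
    (hz : 0 < z.re) : HasSum (fun v => fz w α v z) (deriv (PG w α) z) := by
  have h1 := Complex.hasSum_deriv_of_summable_norm (F := pv1 w α) (U := {z : ℂ | 0 < z.re})
    summable_bound (fun v z hz =>
      (pv1_differentiableAt hα v (le_of_lt hz)).differentiableWithinAt)
    isOpen_re_pos (fun v z hz => norm_pv1 hα v (le_of_lt hz)) hz
  refine HasSum.congr_fun (show HasSum _ (deriv (PG w α) z) from h1) fun v => ?_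
  exact (pv1_deriv hα v hz.le).deriv.symm

theorem PG_deriv {α : HeightOneSpectrum (𝓞 K) → Fin N → ℂ} (hα : BdK w α) {z : ℂ}
    (hz : 0 < z.re) : HasDerivAt (PG w α) (deriv (PG w α) z) z := by
  have h1 := Complex.differentiableOn_tsum_of_summable_norm (F := pv1 w α)
    (U := {z : ℂ | 0 < z.re}) summable_bound (fun v z hz =>
      (pv1_differentiableAt hα v (le_of_lt hz)).differentiableWithinAt)
    isOpen_re_pos (fun v z hz => norm_pv1 hα v (le_of_lt hz))
  exact ((h1.differentiableAt (isOpen_re_pos.mem_nhds hz)).hasDerivAt : _)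

/-- the `L`-function is the exponential of the derivative of the primitive -/
theorem L_eq {α : HeightOneSpectrum (𝓞 K) → Fin N → ℂ} (hα : BdK w α) {z : ℂ}
    (hz : 0 < z.re) :
    HasProd (fun v => (∏ j, (1 - α v j * (nm v : ℂ) ^ (-(((w / 2 + 1 : ℝ) : ℂ) + z))))⁻¹)
      (Complex.exp (deriv (PG w α) z)) := by
  have h1 := (fz_hasSum hα hz).cexp
  refine HasProd.congr_fun h1 fun v => ?_
  exact (exp_fz hα v hz.le).symm

/-- partial sums of the primitive -/
noncomputable def PGx (w : ℝ) (α : HeightOneSpectrum (𝓞 K) → Fin N → ℂ) (x : ℕ) (z : ℂ) : ℂ :=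
  ∑ v ∈ FV nm hfin x, pv1 w α v z

theorem PGx_tendsto {α : HeightOneSpectrum (𝓞 K) → Fin N → ℂ} (hα : BdK w α) {z : ℂ}
    (hz : 0 ≤ z.re) : Tendsto (fun x => PGx w α x z) atTop (𝓝 (PG w α z)) := by
  have h1 : Summable fun v => pv1 w α v z :=
    Summable.of_norm_bounded summable_bound fun v => norm_pv1 hα v hz
  exact h1.hasSum.comp (tendsto_FV hfin)

theorem line_x {α : HeightOneSpectrum (𝓞 K) → Fin N → ℂ} (hα : BdK w α) (x : ℕ) (y y' : ℝ) :
    (PGx w α x (y' * Complex.I) - PGx w α x (y * Complex.I)).im =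
      ∫ t in y..y', Real.log ‖PP (sysLD w α hα) x t‖ := by
  have hd : ∀ t : ℝ, HasDerivAt (fun t : ℝ => (PGx w α x (t * Complex.I)).im)
      (Real.log ‖PP (sysLD w α hα) x t‖) t := by
    intro t
    have hz : (0 : ℝ) ≤ ((t : ℂ) * Complex.I).re := by simp
    have h1 : HasDerivAt (PGx w α x) (∑ v ∈ FV nm hfin x, fz w α v ((t : ℂ) * Complex.I))
        ((t : ℂ) * Complex.I) := by
      unfold PGx
      exact HasDerivAt.fun_sum fun v _ => pv1_deriv hα v hz
    have h2 : HasDerivAt (fun t : ℝ => (t : ℂ) * Complex.I) Complex.I t := by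
      simpa using (Complex.ofRealCLM.hasDerivAt (x := t)).mul_const Complex.I
    have h3 := h1.scomp t h2
    have h4 : HasDerivAt (fun t : ℝ => (PGx w α x (t * Complex.I)).im)
        ((Complex.I • ∑ v ∈ FV nm hfin x, fz w α v ((t : ℂ) * Complex.I)).im) t :=
      (Complex.imCLM.hasFDerivAt.comp_hasDerivAt t h3)
    refine h4.congr_deriv ?_
    symm
    rw [log_PP, smul_eq_mul, Complex.mul_im, Complex.I_re, Complex.I_im, zero_mul, zero_add,
      one_mul]
    congr 1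
    unfold LP
    refine Finset.sum_congr rfl fun v _ => ?_
    unfold ft sysLD fz
    simp only []
    rw [Finset.sum_mul, ← Finset.sum_add_distrib]
    refine Finset.sum_congr rfl fun j _ => ?_
    unfold rw1
    have e1 : btk w (α v j) v t = α v j * (((nm v : ℝ) ^ (-(w / 2)) : ℝ) : ℂ) *
        (ee t (nm v) / (nm v : ℂ)) := by
      unfold btk
      rw [cpow_epw]
      ring
    rw [bz_line, ← e1]
    ring
  have hc : Continuous fun t => Real.log ‖PP (sysLD w α hα) x t‖ := by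
    simp_rw [log_PP]
    exact Complex.continuous_re.comp (LP_continuous _ x)
  rw [intervalIntegral.integral_eq_sub_of_hasDerivAt (fun t _ => hd t)
    (hc.intervalIntegrable _ _), Complex.sub_im]

end Pool.Agent.Q255.SG
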