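import Mathlib

/-! # A pointwise inequality for test functions on the punctured plane -/

set_option autoImplicit false

namespace Pool.Agent.Q255.SG

open Filter Topology

/-- `|z|^q + |z|^{-q}` -/
noncomputable def gr (q : ℝ) (z : ℂ) : ℝ := ‖z‖ ^ q + ‖z‖ ^ (-q)

/-- truncated relative distance -/
noncomputable def dd (z z' : ℂ) : ℝ := min 1 ‖z / z' - 1‖

theorem dd_nonneg (z z' : ℂ) : 0 ≤ dd z z' := le_min zero_le_one (norm_nonneg _)

theorem dd_le_one (z z' : ℂ) : dd z z' ≤ 1 := min_le_left _ _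

theorem dd_exp (u v : ℂ) : dd (Complex.exp u) (Complex.exp v) ≤ 2 * ‖u - v‖ := by
  unfold dd
  rw [← Complex.exp_sub]
  rcases le_total ‖u - v‖ 1 with h | h
  · exact (min_le_right _ _).trans (Complex.norm_exp_sub_one_le h)
  · refine (min_le_left _ _).trans ?_
    linarith

theorem gr_nonneg (q : ℝ) (z : ℂ) : 0 ≤ gr q z := by
  unfold gr
  positivity

/-- `max (|z|, 1/|z|)` -/
noncomputable def mx (z : ℂ) : ℝ := max ‖z‖ ‖z‖⁻¹

theorem one_le_mx {z : ℂ} (hz : z ≠ 0) : 1 ≤ mx z := by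
  unfold mx
  have h0 : 0 < ‖z‖ := norm_pos_iff.2 hz
  rcases le_total 1 ‖z‖ with h | h
  · exact le_max_of_le_left h
  · exact le_max_of_le_right ((one_le_inv₀ h0).2 h)

theorem gr_le {q : ℝ} (hq : 0 ≤ q) {z : ℂ} (hz : z ≠ 0) : gr q z ≤ 2 * mx z ^ q := by
  have h0 : 0 < ‖z‖ := norm_pos_iff.2 hz
  unfold gr
  have h1 : ‖z‖ ^ q ≤ mx z ^ q := Real.rpow_le_rpow h0.le (le_max_left _ _) hq
  have h2 : ‖z‖ ^ (-q) ≤ mx z ^ q := by
    rw [Real.rpow_neg h0.le, ← Real.inv_rpow h0.le]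
    exact Real.rpow_le_rpow (by positivity) (le_max_right _ _) hq
  linarith

theorem le_gr {q : ℝ} {z : ℂ} (hz : z ≠ 0) : mx z ^ q ≤ gr q z := by
  have h0 : 0 < ‖z‖ := norm_pos_iff.2 hz
  unfold gr mx
  rcases le_total ‖z‖ ‖z‖⁻¹ with h | h
  · rw [max_eq_right h, Real.inv_rpow h0.le, ← Real.rpow_neg h0.le]
    have : 0 ≤ ‖z‖ ^ q := by positivity
    linarith
  · rw [max_eq_left h]
    have : 0 ≤ ‖z‖ ^ (-q) := by positivity
    linarith

theorem one_le_gr {q : ℝ} (hq : 0 ≤ q) {z : ℂ} (hz : z ≠ 0) : 1 ≤ gr q z :=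
  (Real.one_le_rpow (one_le_mx hz) hq).trans (le_gr hz)

/-- far ratio -/
theorem dd_far {R : ℝ} (hR : 1 ≤ R) {z z' : ℂ} (hz : z ≠ 0) (hz' : z' ≠ 0)
    (h : (mx z < R ∧ 2 * R < mx z') ∨ (mx z' < R ∧ 2 * R < mx z)) : 1 / 2 ≤ dd z z' := by
  have h0 : 0 < ‖z‖ := norm_pos_iff.2 hz
  have h0' : 0 < ‖z'‖ := norm_pos_iff.2 hz'
  have hr : ‖z / z'‖ = ‖z‖ / ‖z'‖ := norm_div _ _
  have key : ‖z / z'‖ ≤ 1 / 2 ∨ 2 ≤ ‖z / z'‖ := by
    rw [hr]
    unfold mx at h
    rcases h with ⟨h1, h2⟩ | ⟨h1, h2⟩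
    · rw [max_lt_iff] at h1
      rcases lt_max_iff.1 h2 with h3 | h3
      · left
        rw [div_le_iff₀ h0']
        linarith [h1.1]
      · right
        rw [le_div_iff₀ h0']
        have h4 : ‖z‖⁻¹ * ‖z‖ = 1 := inv_mul_cancel₀ h0.ne'
        have h5 : ‖z'‖⁻¹ * ‖z'‖ = 1 := inv_mul_cancel₀ h0'.ne'
        have h6 : 1 < R * ‖z‖ := by nlinarith [h1.2]
        have h7 : 2 * R * ‖z'‖ < 1 := by nlinarith
        nlinarith
    · rw [max_lt_iff] at h1
      rcases lt_max_iff.1 h2 with h3 | h3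
      · right
        rw [le_div_iff₀ h0']
        linarith [h1.1]
      · left
        rw [div_le_iff₀ h0']
        have h4 : ‖z‖⁻¹ * ‖z‖ = 1 := inv_mul_cancel₀ h0.ne'
        have h5 : ‖z'‖⁻¹ * ‖z'‖ = 1 := inv_mul_cancel₀ h0'.ne'
        have h6 : 1 < R * ‖z'‖ := by nlinarith [h1.2]
        have h7 : 2 * R * ‖z‖ < 1 := by nlinarith
        nlinarith
  unfold dd
  refine le_min (by norm_num) ?_
  have h1 := abs_norm_sub_norm_le (z / z') 1
  rw [norm_one] at h1
  refine le_trans ?_ h1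
  rcases key with h2 | h2
  · rw [abs_of_nonpos (by linarith)]
    linarith
  · rw [abs_of_nonneg (by linarith)]
    linarith

/-- **The pointwise inequality.** -/
theorem pt_ineq {q q' : ℝ} (hq : 0 ≤ q) (hqq : q < q') {f : ℂ → ℝ} (hf : ContinuousOn f {0}ᶜ)
    (hg : ∀ z, z ≠ 0 → |f z| ≤ gr q z) {ε : ℝ} (hε : 0 < ε) :
    ∃ C : ℝ, 0 < C ∧ ∀ z z' : ℂ, z ≠ 0 → z' ≠ 0 →
      |f z - f z'| ≤ ε * (gr q' z + gr q' z') + C * dd z z' ^ 2 := by
  have hq' : 0 ≤ q' := hq.trans hqq.le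
  -- the radius
  obtain ⟨R, hR1, hR⟩ : ∃ R : ℝ, 1 ≤ R ∧ ∀ u : ℝ, R ≤ u → 2 * u ^ q ≤ ε * u ^ q' := by
    have h1 : Tendsto (fun u : ℝ => u ^ (q' - q)) atTop atTop :=
      tendsto_rpow_atTop (by linarith)
    obtain ⟨R, hR⟩ := (h1.eventually_ge_atTop (2 / ε)).exists_forall_of_atTop
    refine ⟨max R 1, le_max_right _ _, fun u hu => ?_⟩
    have hu1 : 1 ≤ u := (le_max_right _ _).trans hu
    have hu0 : 0 < u := by linarith
    have h2 := hR u ((le_max_left _ _).trans hu)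
    rw [div_le_iff₀ hε] at h2
    calc 2 * u ^ q ≤ (u ^ (q' - q) * ε) * u ^ q := by gcongr
      _ = ε * (u ^ (q' - q) * u ^ q) := by ring
      _ = ε * u ^ q' := by
          rw [← Real.rpow_add hu0]
          congr 2
          ring
  have hR0 : 0 < R := by linarith
  have hbig : ∀ z : ℂ, z ≠ 0 → R ≤ mx z → |f z| ≤ ε * gr q' z := by
    intro z hz hzR
    calc |f z| ≤ gr q z := hg z hz
      _ ≤ 2 * mx z ^ q := gr_le hq hz
      _ ≤ ε * mx z ^ q' := hR _ hzR
      _ ≤ ε * gr q' z := by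
          gcongr
          exact le_gr hz
  set K : Set ℂ := Metric.closedBall 0 (2 * R) \ Metric.ball 0 (1 / (2 * R)) with hK
  have hKc : IsCompact K := (isCompact_closedBall _ _).diff Metric.isOpen_ball
  have hKmem : ∀ z : ℂ, z ≠ 0 → mx z ≤ 2 * R → z ∈ K := by
    intro z hz h
    have h0 : 0 < ‖z‖ := norm_pos_iff.2 hz
    unfold mx at h
    rw [max_le_iff] at h
    refine ⟨by rw [mem_closedBall_zero_iff]; exact h.1, ?_⟩
    rw [mem_ball_zero_iff, not_lt, one_div]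
    exact inv_le_of_inv_le₀ h0 h.2
  have hK0 : K ⊆ {0}ᶜ := by
    rintro z ⟨_, hz⟩ h
    rw [Set.mem_singleton_iff] at h
    subst h
    exact hz (Metric.mem_ball_self (by positivity))
  have hKn : ∀ z ∈ K, ‖z‖ ≤ 2 * R := fun z hz => by simpa using hz.1
  have huc := hKc.uniformContinuousOn_of_continuous (hf.mono hK0)
  rw [Metric.uniformContinuousOn_iff] at huc
  obtain ⟨δ0, hδ0, hδ⟩ := huc ε hε
  obtain ⟨M, hM⟩ := hKc.exists_bound_of_continuousOn (hf.mono hK0)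
  have hM' : ∀ z ∈ K, |f z| ≤ max M 0 := fun z hz => (hM z hz).trans (le_max_left _ _)
  set M' := max M 0 with hM'd
  have hM0 : 0 ≤ M' := le_max_right _ _
  set δ := min (1 / 2) (δ0 / (2 * R)) with hδd
  have hδpos : 0 < δ := by positivity
  have hδhalf : δ ≤ 1 / 2 := min_le_left _ _
  refine ⟨2 * M' / δ ^ 2 + 1, by positivity, fun z z' hz hz' => ?_⟩
  have hg1 : 1 ≤ gr q' z := one_le_gr hq' hz
  have hg2 : 1 ≤ gr q' z' := one_le_gr hq' hz'
  have hdd := dd_nonneg z z'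
  have hCC : 0 ≤ (2 * M' / δ ^ 2 + 1) * dd z z' ^ 2 := by positivity
  -- pairs at distance at least `δ`
  have hfar : ∀ u v : ℝ, |u| ≤ M' → |v| ≤ M' → δ ≤ dd z z' →
      |u| + |v| ≤ (2 * M' / δ ^ 2 + 1) * dd z z' ^ 2 := by
    intro u v hu hv hd
    have h1 : δ ^ 2 ≤ dd z z' ^ 2 := pow_le_pow_left₀ hδpos.le hd 2
    calc |u| + |v| ≤ 2 * M' := by linarith
      _ = 2 * M' / δ ^ 2 * δ ^ 2 := by field_simp
      _ ≤ 2 * M' / δ ^ 2 * dd z z' ^ 2 := by gcongr
      _ ≤ _ := by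
          have : 0 ≤ dd z z' ^ 2 := by positivity
          nlinarith
  have hKK : z ∈ K → z' ∈ K → |f z - f z'| ≤
      ε * (gr q' z + gr q' z') + (2 * M' / δ ^ 2 + 1) * dd z z' ^ 2 := by
    intro hzK hzK'
    rcases lt_or_ge (dd z z') δ with hd | hd
    · have h1 : ‖z / z' - 1‖ < δ := by
        unfold dd at hd
        rcases min_lt_iff.1 hd with h | h
        · linarith
        · exact h
      have h2 : dist z z' < δ0 := by
        rw [dist_eq_norm]
        have e : z - z' = z' * (z / z' - 1) := by field_simp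
        rw [e, norm_mul]
        have h3 := hKn z' hzK'
        have h4 : 0 < ‖z'‖ := norm_pos_iff.2 hz'
        calc ‖z'‖ * ‖z / z' - 1‖ < ‖z'‖ * δ := by gcongr
          _ ≤ (2 * R) * (δ0 / (2 * R)) := by
              gcongr
              exact min_le_right _ _
          _ = δ0 := by field_simp
      have h3 := hδ z hzK z' hzK' h2
      rw [Real.dist_eq] at h3
      nlinarith
    · refine (abs_sub _ _).trans ?_
      have := hfar _ _ (hM' z hzK) (hM' z' hzK') hd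
      have : 0 ≤ ε * (gr q' z + gr q' z') := by positivity
      linarith
  rcases lt_or_ge (mx z) R with h1 | h1
  · rcases le_or_gt (mx z') (2 * R) with h2 | h2
    · exact hKK (hKmem z hz (by linarith)) (hKmem z' hz' h2)
    · have hd := dd_far hR1 hz hz' (Or.inl ⟨h1, h2⟩)
      have h3 := hfar (f z) 0 (hM' z (hKmem z hz (by linarith))) (by simpa using hM0)
        (hδhalf.trans hd)
      have h4 := hbig z' hz' (by linarith)
      refine (abs_sub _ _).trans ?_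
      rw [abs_zero, add_zero] at h3
      nlinarith
  · rcases lt_or_ge (mx z') R with h2 | h2
    · rcases le_or_gt (mx z) (2 * R) with h3 | h3
      · exact hKK (hKmem z hz h3) (hKmem z' hz' (by linarith))
      · have hd := dd_far hR1 hz hz' (Or.inr ⟨h2, h3⟩)
        have h4 := hfar (f z') 0 (hM' z' (hKmem z' hz' (by linarith))) (by simpa using hM0)
          (hδhalf.trans hd)
        have h5 := hbig z hz h1
        refine (abs_sub _ _).trans ?_
        rw [abs_zero, add_zero] at h4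
        nlinarith
    · have h3 := hbig z hz h1
      have h4 := hbig z' hz' h2
      refine (abs_sub _ _).trans ?_
      linarith

end Pool.Agent.Q255.SG
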