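import Pool.Agent.Q255.SG.AD

/-! # Systems of Euler factors over the rational numbers -/

set_option autoImplicit false

namespace Pool.Agent.Q255.SG

open Finset MeasureTheory Filter Topology Pool.Agent.Q255.SA

/-- the point `w/2 + 1 + iτ` -/
noncomputable def eq0 (w τ : ℝ) : ℂ := ((w / 2 + 1 : ℝ) : ℂ) + (τ : ℂ) * Complex.I

theorem eq0_re (w τ : ℝ) : (eq0 w τ).re = w / 2 + 1 := by
  unfold eq0
  simp

/-- `α q^{-s}` on the edge -/
noncomputable def bq (w : ℝ) (a : ℂ) (q : ℕ) (τ : ℝ) : ℂ := a * (q : ℂ) ^ (-eq0 w τ)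

theorem cpow_eq0 {q : ℕ} (hq : 2 ≤ q) (w τ : ℝ) :
    (q : ℂ) ^ (-eq0 w τ) = (((q : ℝ) ^ (-(w / 2)) : ℝ) : ℂ) * (ee τ q / (q : ℂ)) := by
  have h0 : (0 : ℝ) < q := by exact_mod_cast (by omega : 0 < q)
  have hne : (q : ℂ) ≠ 0 := by exact_mod_cast (by omega : q ≠ 0)
  have hlog : Complex.log (q : ℂ) = ((Real.log q : ℝ) : ℂ) := by
    rw [← Complex.ofReal_natCast, Complex.ofReal_log h0.le]
  have h1 : (q : ℂ) = Complex.exp ((Real.log q : ℝ) : ℂ) := by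
    rw [← Complex.ofReal_exp, Real.exp_log h0, Complex.ofReal_natCast]
  have h2 : ee τ q / (q : ℂ) = ee τ q * Complex.exp (-((Real.log q : ℝ) : ℂ)) := by
    rw [Complex.exp_neg, ← h1, div_eq_mul_inv]
  rw [h2]
  unfold ee eq0
  rw [Complex.cpow_def_of_ne_zero hne, hlog, Real.rpow_def_of_pos h0, Complex.ofReal_exp,
    ← Complex.exp_add, ← Complex.exp_add]
  congr 1
  push_cast
  ring

theorem norm_bq {w : ℝ} {a : ℂ} {q : ℕ} (hq : 2 ≤ q) (ha : ‖a‖ ≤ (q : ℝ) ^ (w / 2)) (τ : ℝ) :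
    ‖bq w a q τ‖ ≤ (q : ℝ) ^ (-1 : ℝ) ∧ ‖bq w a q τ‖ ≤ 1 / 2 := by
  have h0 : (0 : ℝ) < q := by exact_mod_cast (by omega : 0 < q)
  have h2 : (2 : ℝ) ≤ q := by exact_mod_cast hq
  have h1 : ‖bq w a q τ‖ ≤ (q : ℝ) ^ (-1 : ℝ) := by
    unfold bq
    rw [norm_mul, Complex.norm_natCast_cpow_of_pos (by omega), Complex.neg_re, eq0_re]
    calc ‖a‖ * (q : ℝ) ^ (-(w / 2 + 1)) ≤ (q : ℝ) ^ (w / 2) * (q : ℝ) ^ (-(w / 2 + 1)) := by
          gcongr
      _ = _ := by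
          rw [← Real.rpow_add h0]
          congr 1
          ring
  refine ⟨h1, h1.trans ?_⟩
  rw [Real.rpow_neg_one, inv_eq_one_div]
  exact one_div_le_one_div_of_le (by norm_num) h2

/-- the remainder of the logarithm -/
noncomputable def rq (w : ℝ) (a : ℂ) (q : ℕ) (τ : ℝ) : ℂ :=
  -Complex.log (1 - bq w a q τ) - bq w a q τ

theorem norm_rq {w : ℝ} {a : ℂ} {q : ℕ} (hq : 2 ≤ q) (ha : ‖a‖ ≤ (q : ℝ) ^ (w / 2)) (τ : ℝ) :
    ‖rq w a q τ‖ ≤ (q : ℝ) ^ (-2 : ℝ) := by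
  have h0 : (0 : ℝ) < q := by exact_mod_cast (by omega : 0 < q)
  obtain ⟨h1, h2⟩ := norm_bq (w := w) hq ha τ
  have h3 := norm_log_sub (w := bq w a q τ) (by linarith)
  refine h3.trans ?_
  have h4 : (1 - ‖bq w a q τ‖)⁻¹ ≤ 2 := by
    rw [inv_le_comm₀ (by linarith) (by norm_num)]
    linarith
  have h5 : 0 < (1 - ‖bq w a q τ‖)⁻¹ := inv_pos.2 (by linarith)
  have h6 : ‖bq w a q τ‖ ^ 2 ≤ (q : ℝ) ^ (-2 : ℝ) := by
    have h7 := pow_le_pow_left₀ (norm_nonneg _) h1 2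
    rwa [← Real.rpow_natCast ((q : ℝ) ^ (-1 : ℝ)), ← Real.rpow_mul h0.le,
      show (-1 : ℝ) * ((2 : ℕ) : ℝ) = -2 by norm_num] at h7
  have h8 := mul_le_mul h6 h4 h5.le (by positivity)
  linarith

theorem bq_continuous {w : ℝ} {a : ℂ} {q : ℕ} (hq : 2 ≤ q) : Continuous (bq w a q) := by
  unfold bq
  simp_rw [cpow_eq0 hq]
  unfold ee
  fun_prop

theorem rq_continuous {w : ℝ} {a : ℂ} {q : ℕ} (hq : 2 ≤ q) (ha : ‖a‖ ≤ (q : ℝ) ^ (w / 2)) :
    Continuous (rq w a q) := by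
  have h1 := bq_continuous (w := w) (a := a) hq
  unfold rq
  refine (Continuous.neg ?_).sub h1
  refine (continuous_const.sub h1).clog fun τ => Or.inl ?_
  show 0 < (1 - bq w a q τ).re
  have h3 := (norm_bq (w := w) hq ha τ).2
  have h4 := Complex.re_le_norm (bq w a q τ)
  rw [Complex.sub_re, Complex.one_re]
  linarith

theorem factor_exp_q {w : ℝ} {a : ℂ} {q : ℕ} (hq : 2 ≤ q) (ha : ‖a‖ ≤ (q : ℝ) ^ (w / 2)) (τ : ℝ) :
    (1 - bq w a q τ)⁻¹ = Complex.exp (bq w a q τ + rq w a q τ) := by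
  have h1 := (norm_bq (w := w) hq ha τ).2
  have h2 : 1 - bq w a q τ ≠ 0 := one_sub_ne (by linarith)
  rw [rq, add_sub_cancel, Complex.exp_neg, Complex.exp_log h2]

variable {N : ℕ} {w : ℝ}

/-- `‖α_{p,j}‖ ≤ p^{w/2}` -/
def Bd (w : ℝ) (α : ℕ → Fin N → ℂ) : Prop :=
  ∀ p : ℕ, p.Prime → ∀ j, ‖α p j‖ ≤ (p : ℝ) ^ (w / 2)

open Classical in
/-- the small part -/
noncomputable def HQ (w : ℝ) (α : ℕ → Fin N → ℂ) (x : ℕ) (τ : ℝ) : ℂ :=
  ∑ p ∈ range x, if p.Prime then ∑ j, rq w (α p j) p τ else 0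

theorem sum_rq_le {α : ℕ → Fin N → ℂ} (hα : Bd w α) (τ : ℝ) (p : ℕ) :
    ‖if p.Prime then ∑ j, rq w (α p j) p τ else 0‖ ≤ N * (p : ℝ) ^ (-2 : ℝ) := by
  split_ifs with hp
  · refine (norm_sum_le_of_le (n := fun _ => (p : ℝ) ^ (-2 : ℝ)) _ fun j _ =>
      norm_rq hp.two_le (hα p hp j) τ).trans ?_
    rw [Finset.sum_const, Finset.card_univ, Fintype.card_fin, nsmul_eq_mul]
  · rw [norm_zero]
    positivity

theorem sum_sq_le {x z : ℕ} (hx : 1 ≤ x) :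
    ∑ p ∈ Ico x z, (p : ℝ) ^ (-2 : ℝ) ≤ S0 * (x : ℝ) ^ (-(1 / 8) : ℝ) := by
  have hx0 : (0 : ℝ) < x := by exact_mod_cast hx
  have h1 : ∀ p ∈ Ico x z, (p : ℝ) ^ (-2 : ℝ) ≤
      (p : ℝ) ^ (-(7 / 4) : ℝ) * (x : ℝ) ^ (-(1 / 8) : ℝ) := by
    intro p hp
    rw [Finset.mem_Ico] at hp
    have hxp : (x : ℝ) ≤ p := by exact_mod_cast hp.1
    have hp1 : (1 : ℝ) ≤ p := by exact_mod_cast hx.trans hp.1
    have hp0 : (0 : ℝ) < p := by linarith
    calc (p : ℝ) ^ (-2 : ℝ) ≤ (p : ℝ) ^ (-(7 / 4) + -(1 / 8) : ℝ) :=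
          Real.rpow_le_rpow_of_exponent_le hp1 (by norm_num)
      _ = (p : ℝ) ^ (-(7 / 4) : ℝ) * (p : ℝ) ^ (-(1 / 8) : ℝ) := Real.rpow_add hp0 _ _
      _ ≤ _ := by
          refine mul_le_mul_of_nonneg_left ?_ (by positivity)
          exact Real.rpow_le_rpow_of_nonpos hx0 hxp (by norm_num)
  refine (Finset.sum_le_sum h1).trans ?_
  rw [← Finset.sum_mul]
  refine mul_le_mul_of_nonneg_right ?_ (by positivity)
  exact S0_summable.sum_le_tsum _ fun n _ => by positivity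

/-- The data of a system over the rational numbers. -/
noncomputable def qAD (w : ℝ) (α : ℕ → Fin N → ℂ) (hα : Bd w α) : AD (N : ℝ) (N * S0) where
  c p := if p.Prime then ∑ j, α p j * (((p : ℝ) ^ (-(w / 2)) : ℝ) : ℂ) else 0
  H := HQ w α
  hκ := Nat.cast_nonneg N
  hM := mul_nonneg (Nat.cast_nonneg N) S0_nonneg
  hc p hp := by
    have h0 : (0 : ℝ) < p := by exact_mod_cast hp.pos
    rw [if_pos hp]
    refine (norm_sum_le_of_le (n := fun _ => (1 : ℝ)) _ fun j _ => ?_).trans (by simp)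
    rw [norm_mul, Complex.norm_real, Real.norm_of_nonneg (by positivity)]
    calc ‖α p j‖ * (p : ℝ) ^ (-(w / 2)) ≤ (p : ℝ) ^ (w / 2) * (p : ℝ) ^ (-(w / 2)) := by
          gcongr
          exact hα p hp j
      _ = 1 := by
          rw [← Real.rpow_add h0]
          simp
  hc0 p hp := if_neg hp
  hcont x := by
    unfold HQ
    refine continuous_finset_sum _ fun p _ => ?_
    split_ifs with hp
    · exact continuous_finset_sum _ fun j _ => rq_continuous hp.two_le (hα p hp j)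
    · exact continuous_const
  hb x τ := by
    unfold HQ
    refine (norm_sum_le_of_le _ fun p _ => sum_rq_le hα τ p).trans ?_
    rw [← Finset.mul_sum]
    refine mul_le_mul_of_nonneg_left ?_ (Nat.cast_nonneg N)
    have h1 := sum_sq_le (x := 1) (z := x) le_rfl
    rw [Nat.cast_one, Real.one_rpow, mul_one] at h1
    refine le_trans (le_of_eq ?_) h1
    rcases Nat.eq_zero_or_pos x with h | h
    · subst h
      simp
    · rw [Finset.range_eq_Ico, Finset.sum_eq_sum_Ico_succ_bot h]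
      rw [Nat.cast_zero, Real.zero_rpow (by norm_num), zero_add]
  hd x z τ hx hxz := by
    have h1 : HQ w α z τ - HQ w α x τ =
        ∑ p ∈ Ico x z, if p.Prime then ∑ j, rq w (α p j) p τ else 0 := by
      unfold HQ
      rw [Finset.sum_Ico_eq_sub _ hxz]
    rw [h1]
    refine (norm_sum_le_of_le _ fun p _ => sum_rq_le hα τ p).trans ?_
    rw [← Finset.mul_sum, mul_assoc]
    exact mul_le_mul_of_nonneg_left (sum_sq_le hx) (Nat.cast_nonneg N)

theorem q_partial {α : ℕ → Fin N → ℂ} (hα : Bd w α) (x : ℕ) (τ : ℝ) :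
    ∏ p ∈ Nat.primesBelow x, (∏ j, (1 - α p j * (p : ℂ) ^ (-eq0 w τ)))⁻¹ =
      AP (qAD w α hα) x τ := by
  unfold AP AL
  have h1 : CS (qAD w α hα).c 0 x τ + (qAD w α hα).H x τ =
      ∑ p ∈ Nat.primesBelow x, ∑ j, (bq w (α p j) p τ + rq w (α p j) p τ) := by
    have e1 : (qAD w α hα).H x τ = HQ w α x τ := rfl
    rw [e1]
    unfold CS HQ
    rw [← Finset.range_eq_Ico, ← Finset.sum_add_distrib, Nat.primesBelow, Finset.sum_filter]
    refine Finset.sum_congr rfl fun p _ => ?_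
    have e2 : (qAD w α hα).c p = if p.Prime then
        ∑ j, α p j * (((p : ℝ) ^ (-(w / 2)) : ℝ) : ℂ) else 0 := rfl
    rw [e2]
    split_ifs with hp
    · rw [Finset.sum_add_distrib, Finset.sum_mul]
      congr 1
      refine Finset.sum_congr rfl fun j _ => ?_
      unfold bq
      rw [cpow_eq0 hp.two_le, mul_assoc]
    · simp
  rw [h1, Complex.exp_sum]
  refine Finset.prod_congr rfl fun p hp => ?_
  have hp' := Nat.prime_of_mem_primesBelow hp
  rw [Complex.exp_sum, ← Finset.prod_inv_distrib]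
  exact Finset.prod_congr rfl fun j _ => factor_exp_q hp'.two_le (hα p hp' j) τ

end Pool.Agent.Q255.SG
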