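import Pool.Agent.Q255.SG.MerEq
import Pool.Agent.Q255.SG.QSys

/-! # Systems over the rationals as systems over the number field `ℚ` -/

set_option autoImplicit false

namespace Pool.Agent.Q255.SG

open NumberField IsDedekindDomain Finset Pool.Agent.H921R2.TatePole
  Pool.Agent.W350.EdgeEC Pool.Agent.W350.EdgeNF Pool.Agent.W350.EdgeV MeasureTheory Filter Topology
  Pool.Agent.Q255.SA

/-- the prime below -/
noncomputable def pe : HeightOneSpectrum (𝓞 ℚ) ≃ Nat.Primes := Rat.HeightOneSpectrum.primesEquiv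

theorem nm_Q (v : HeightOneSpectrum (𝓞 ℚ)) : nm v = (pe v : ℕ) := by
  have h1 := Rat.HeightOneSpectrum.span_natGenerator v
  unfold nm
  rw [Ideal.absNorm_apply, Submodule.cardQuot_apply]
  have e1 : Nat.card (𝓞 ℚ ⧸ v.asIdeal) =
      Nat.card (ℤ ⧸ v.asIdeal.map (Rat.IsIntegralClosure.intEquiv (𝓞 ℚ))) :=
    Nat.card_congr (Ideal.quotientEquiv v.asIdeal _ (Rat.IsIntegralClosure.intEquiv (𝓞 ℚ))
      rfl).toEquiv
  have e2 : Nat.card (ℤ ⧸ Ideal.span {((pe v : ℕ) : ℤ)}) = (pe v : ℕ) := by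
    rw [← Submodule.cardQuot_apply, ← Ideal.absNorm_apply]
    simp
  rw [e1, ← h1]
  exact e2

variable {N : ℕ} {w : ℝ}

/-- the system over the number field `ℚ` -/
noncomputable def qk (α : ℕ → Fin N → ℂ) : HeightOneSpectrum (𝓞 ℚ) → Fin N → ℂ :=
  fun v => α (pe v)

theorem BdK_qk {α : ℕ → Fin N → ℂ} (hα : Bd w α) : BdK w (qk α) := by
  intro v j
  rw [nm_Q]
  exact hα (pe v) (pe v).2 j

theorem epw_eq0 (w t : ℝ) : epw w t = eq0 w t := rfl

theorem PP_qk {α : ℕ → Fin N → ℂ} (hα : Bd w α) (x : ℕ) (t : ℝ) :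
    PP (sysLD w (qk α) (BdK_qk hα)) x t = AP (qAD w α hα) x t := by
  rw [← sys_PP, ← q_partial]
  refine Finset.prod_bij (fun v _ => (pe v : ℕ)) (fun v hv => ?_) (fun v _ v' _ h => ?_)
    (fun p hp => ?_) fun v _ => ?_
  · rw [Nat.mem_primesBelow]
    refine ⟨?_, (pe v).2⟩
    rw [← nm_Q]
    have : v ∈ {v | nm v < x} := by
      have := hv
      unfold FV at this
      rwa [Set.Finite.mem_toFinset] at this
    exact this
  · exact pe.injective (Subtype.ext h)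
  · rw [Nat.mem_primesBelow] at hp
    refine ⟨pe.symm ⟨p, hp.2⟩, ?_, ?_⟩
    · unfold FV
      rw [Set.Finite.mem_toFinset]
      show nm (pe.symm ⟨p, hp.2⟩) < x
      rw [nm_Q, Equiv.apply_symm_apply]
      exact hp.1
    · rw [Equiv.apply_symm_apply]
  · rw [nm_Q]
    rfl

theorem tprod_qk (α : ℕ → Fin N → ℂ) (s : ℂ) :
    ∏' v : HeightOneSpectrum (𝓞 ℚ), (∏ j, (1 - qk α v j * (nm v : ℂ) ^ (-s)))⁻¹ =
      ∏' p : Nat.Primes, (∏ j, (1 - α p j * ((p : ℕ) : ℂ) ^ (-s)))⁻¹ := by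
  rw [← pe.tprod_eq]
  refine tprod_congr fun v => ?_
  rw [nm_Q]
  rfl

end Pool.Agent.Q255.SG
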