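import Mathlib

/-! # Quadratic characters with prescribed values at the small primes -/

set_option autoImplicit false

namespace Pool.Agent.Q255.SG

open Finset

open scoped NumberTheorySymbols

theorem exists_D (x : ℕ) {s : ℤ} (hs : s = 1 ∨ s = -1) :
    ∃ D : ℕ, D.Prime ∧ x < D ∧ D % 4 = 1 ∧ ∀ p < x, p.Prime → jacobiSym p D = s := by
  classical
  set S := Nat.primesBelow (x + 3) with hS
  set m : ℕ → ℕ := fun p => if p = 2 then 8 else p with hm
  -- residues
  have hr : ∀ p : ℕ, p.Prime → p ≠ 2 → ∃ r : ℕ, r.Coprime p ∧ jacobiSym r p = s := by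
    intro p hp hp2
    have hF : Fact p.Prime := ⟨hp⟩
    rcases hs with h | h
    · refine ⟨1, Nat.coprime_one_left p, ?_⟩
      rw [h]
      simp
    · obtain ⟨a, ha⟩ := FiniteField.exists_nonsquare (F := ZMod p) (by
        rw [ZMod.ringChar_zmod_n]
        exact hp2)
      refine ⟨a.val, ?_, ?_⟩
      · rw [Nat.coprime_comm, hp.coprime_iff_not_dvd]
        intro h1
        have h2 : ((a.val : ℕ) : ZMod p) = 0 := (ZMod.natCast_eq_zero_iff _ _).2 h1
        rw [ZMod.natCast_zmod_val] at h2
        exact ha (h2 ▸ IsSquare.zero)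
      · rw [h, ← jacobiSym.legendreSym.to_jacobiSym, legendreSym.eq_neg_one_iff']
        rwa [ZMod.natCast_zmod_val]
  choose! r hr1 hr2 using hr
  set a : ℕ → ℕ := fun p => if p = 2 then (if s = 1 then 1 else 5) else r p with ha
  have hm0 : ∀ p ∈ S, m p ≠ 0 := by
    intro p hp
    simp only [hm]
    split_ifs
    · norm_num
    · exact (Nat.prime_of_mem_primesBelow hp).ne_zero
  have hcop : Set.Pairwise (S : Set ℕ) (Function.onFun Nat.Coprime m) := by
    intro p hp q hq hpq
    have hp' := Nat.prime_of_mem_primesBelow hp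
    have hq' := Nat.prime_of_mem_primesBelow hq
    have h1 : p.Coprime q := (Nat.coprime_primes hp' hq').2 hpq
    show Nat.Coprime (m p) (m q)
    simp only [hm]
    split_ifs with h2 h3 h3
    · exact absurd (h2.trans h3.symm) hpq
    · subst h2
      exact Nat.Coprime.pow_left 3 h1
    · subst h3
      exact Nat.Coprime.pow_right 3 h1
    · exact h1
  obtain ⟨k, hk⟩ := Nat.chineseRemainderOfFinset a m S hm0 hcop
  have hac : ∀ p ∈ S, (a p).Coprime (m p) := by
    intro p hp
    have hp' := Nat.prime_of_mem_primesBelow hp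
    simp only [ha, hm]
    split_ifs with h2 h3
    · norm_num
    · norm_num
    · exact hr1 p hp' h2
  have hkc : k.Coprime (∏ p ∈ S, m p) := by
    refine Nat.Coprime.prod_right fun p hp => ?_
    have h1 := (hk p hp).gcd_eq
    have h2 : Nat.gcd k (m p) = Nat.gcd (a p) (m p) := h1
    rw [Nat.coprime_iff_gcd_eq_one, h2]
    exact hac p hp
  have hM0 : (∏ p ∈ S, m p) ≠ 0 := Finset.prod_ne_zero_iff.2 hm0
  obtain ⟨D, hD1, hD2, hD3⟩ := Nat.forall_exists_prime_gt_and_modEq x hM0 hkc
  have hDp : ∀ p ∈ S, D ≡ a p [MOD m p] := by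
    intro p hp
    exact (hD3.of_dvd (Finset.dvd_prod_of_mem m hp)).trans (hk p hp)
  have h2S : 2 ∈ S := by
    rw [hS, Nat.mem_primesBelow]
    exact ⟨by omega, Nat.prime_two⟩
  have hD8 : D % 8 = if s = 1 then 1 else 5 := by
    have h1 := hDp 2 h2S
    have h2 : D % 8 = (a 2) % 8 := h1
    rw [h2]
    simp only [ha, if_true]
    split_ifs <;> rfl
  have hD4 : D % 4 = 1 := by
    split_ifs at hD8 <;> omega
  have hDodd : Odd D := by
    rw [Nat.odd_iff]
    omega
  refine ⟨D, hD2, hD1, hD4, fun p hpx hp => ?_⟩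
  have hpS : p ∈ S := by
    rw [hS, Nat.mem_primesBelow]
    exact ⟨by omega, hp⟩
  by_cases hp2 : p = 2
  · subst hp2
    have h1 := jacobiSym.at_two hDodd
    push_cast
    rw [h1, ZMod.χ₈_nat_eq_if_mod_eight]
    rcases hs with h | h
    · rw [if_pos h] at hD8
      rw [h, if_neg (by omega), if_pos (Or.inl hD8)]
    · rw [if_neg (by rw [h]; norm_num)] at hD8
      rw [h, if_neg (by omega), if_neg (by omega)]
  · have hpodd : Odd p := hp.odd_of_ne_two hp2
    rw [← jacobiSym.quadratic_reciprocity_one_mod_four hD4 hpodd]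
    have h1 : D ≡ r p [MOD p] := by
      have h2 := hDp p hpS
      simp only [ha, hm, if_neg hp2] at h2
      exact h2
    have h2 : jacobiSym D p = jacobiSym (r p) p := by
      rw [jacobiSym.mod_left (D : ℤ), jacobiSym.mod_left (r p : ℤ)]
      congr 1
      exact_mod_cast h1
    rw [h2]
    exact hr2 p hp hp2

end Pool.Agent.Q255.SG
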