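import Pool.Agent.Q255.SG.Weyl
import Pool.Agent.Q255.SG.LawDiff
import Pool.Agent.Q255.SG.QSys
import Pool.Agent.Q255.SG.Low
import Pool.Agent.Q255.SG.Mult2

/-! # Random Euler products on the edge -/

set_option autoImplicit false

namespace Pool.Agent.Q255.SG

open Finset MeasureTheory Filter Topology Pool.Agent.Q255.SA Pool.Agent.TH109.CG

/-- independent uniform points of the circle -/
noncomputable def Pr : Measure (ℕ → UnitAddCircle) :=
  Measure.infinitePi fun _ => (AddCircle.haarAddCircle : Measure UnitAddCircle)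

instance : IsProbabilityMeasure Pr := by
  unfold Pr
  infer_instance

/-- the one parameter flow -/
noncomputable def li (t : ℝ) : ℕ → UnitAddCircle := fun p =>
  ((t * (-(Real.log p) / (2 * Real.pi)) : ℝ) : UnitAddCircle)

theorem fourier_li (t : ℝ) (p : ℕ) : fourier 1 (li t p) = ee t p := by
  unfold li ee
  rw [fourier_coe_apply]
  congr 1
  have := Real.pi_ne_zero
  push_cast
  field_simp

/-- extension by zero -/
noncomputable def ext0 (s : Finset ℕ) (θ : s → UnitAddCircle) : ℕ → UnitAddCircle := by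
  classical exact fun p => if h : p ∈ s then θ ⟨p, h⟩ else 0

theorem ext0_continuous (s : Finset ℕ) : Continuous (ext0 s) := by
  unfold ext0
  refine continuous_pi fun p => ?_
  by_cases h : p ∈ s
  · simp only [h, dite_true]
    exact continuous_apply _
  · simp only [h, dite_false]
    exact continuous_const

theorem ext0_apply (s : Finset ℕ) (θ : s → UnitAddCircle) {p : ℕ} (h : p ∈ s) :
    ext0 s θ p = θ ⟨p, h⟩ := by
  unfold ext0
  simp [h]

/-- Weyl's theorem on the infinite torus, uniformly over compact families and windows -/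
theorem weyl_param {K : Type*} [TopologicalSpace K] [CompactSpace K]
    {G : K × (ℕ → UnitAddCircle) → ℝ} (hG : Continuous G) (s : Finset ℕ) (hs : ∀ p ∈ s, p.Prime)
    (hdep : ∀ k θ θ', (∀ p ∈ s, θ p = θ' p) → G (k, θ) = G (k, θ')) {ε : ℝ} (hε : 0 < ε) :
    ∃ T0 : ℝ, 0 < T0 ∧ ∀ k : K, ∀ T : ℝ, T0 ≤ T → ∀ a : ℝ,
      |avg (fun t => G (k, li t)) a T - ∫ θ, G (k, θ) ∂Pr| ≤ ε := by
  obtain ⟨T0, hT0, h⟩ := weyl_real (ι := s)
    (fun i => -(Real.log (i : ℕ)) / (2 * Real.pi)) (freq_indep s hs) (K := K)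
    (Φ := fun x => G (x.1, ext0 s x.2))
    (hG.comp (continuous_fst.prodMk ((ext0_continuous s).comp continuous_snd))) hε
  refine ⟨T0, hT0, fun k T hT a => ?_⟩
  have h1 := h k T hT a
  have e1 : ∀ t, G (k, ext0 s (ln (fun i : s => -(Real.log (i : ℕ)) / (2 * Real.pi)) t)) =
      G (k, li t) := by
    intro t
    refine hdep k _ _ fun p hp => ?_
    rw [ext0_apply s _ hp]
    rfl
  have e2 : ∫ x, G (k, ext0 s x) ∂(tor s) = ∫ θ, G (k, θ) ∂Pr := by
    have h2 := integral_restrict_infinitePi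
      (μ := fun _ : ℕ => (AddCircle.haarAddCircle : Measure UnitAddCircle)) (s := s)
      (f := fun x => G (k, ext0 s x))
      (hG.comp (continuous_const.prodMk (ext0_continuous s))).aestronglyMeasurable
    unfold tor Pr
    rw [← h2]
    refine integral_congr_ae (Eventually.of_forall fun θ => ?_)
    refine hdep k _ _ fun p hp => ?_
    rw [ext0_apply s _ hp]
    rfl
  simp only [e1, e2] at h1
  exact h1

theorem transfer {G : (ℕ → UnitAddCircle) → ℝ} (hG : Continuous G) (s : Finset ℕ)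
    (hs : ∀ p ∈ s, p.Prime) (hdep : ∀ θ θ', (∀ p ∈ s, θ p = θ' p) → G θ = G θ')
    (hcont : Continuous fun t => G (li t)) {B : ℝ}
    (h : ∀ a : ℝ, ∫ t in a..(a + 1), G (li t) ≤ B) : ∫ θ, G θ ∂Pr ≤ B := by
  refine le_of_forall_pos_le_add fun ε hε => ?_
  obtain ⟨T0, hT0, h1⟩ := weyl_param (K := Unit) (G := fun x => G x.2) (hG.comp continuous_snd) s hs
    (fun _ => hdep) hε
  obtain ⟨n, hn⟩ := exists_nat_ge (max T0 1)
  have hnT : T0 ≤ n := (le_max_left _ _).trans hn
  have hn1 : (1 : ℝ) ≤ n := (le_max_right _ _).trans hn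
  have h2 := h1 () n hnT 0
  have h3 : ∫ t in (0 : ℝ)..(0 + n), G (li t) ≤ n * B := by
    have h4 : ∀ m : ℕ, ∫ t in (0 : ℝ)..m, G (li t) ≤ m * B := by
      intro m
      induction m with
      | zero => simp
      | succ m ih =>
        have h5 := intervalIntegral.integral_add_adjacent_intervals
          (hcont.intervalIntegrable (μ := volume) 0 m) (hcont.intervalIntegrable m (m + 1))
        have h6 := h m
        push_cast
        rw [← h5]
        linarith
    rw [zero_add]
    exact h4 n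
  have h4 : avg (fun t => G (li t)) 0 n ≤ B := by
    unfold avg
    rw [smul_eq_mul]
    calc ((n : ℝ))⁻¹ * ∫ t in (0 : ℝ)..(0 + n), G (li t) ≤ (n : ℝ)⁻¹ * (n * B) := by gcongr
      _ = B := by field_simp
  have h5 := (abs_le.1 h2).1
  linarith

variable {N : ℕ} {w : ℝ}

/-- normalised coefficients -/
noncomputable def bt (w : ℝ) (a : ℂ) (p : ℕ) : ℂ := a * (((p : ℝ) ^ (-(w / 2)) : ℝ) : ℂ) / p

theorem norm_bt {a : ℂ} {p : ℕ} (hp : p.Prime) (ha : ‖a‖ ≤ (p : ℝ) ^ (w / 2)) :
    ‖bt w a p‖ ≤ 1 / 2 := by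
  have h0 : (0 : ℝ) < p := by exact_mod_cast hp.pos
  have h2 : (2 : ℝ) ≤ p := by exact_mod_cast hp.two_le
  unfold bt
  rw [norm_div, norm_mul, Complex.norm_real, Real.norm_of_nonneg (by positivity),
    Complex.norm_natCast]
  have h1 : ‖a‖ * (p : ℝ) ^ (-(w / 2)) ≤ 1 := by
    calc ‖a‖ * (p : ℝ) ^ (-(w / 2)) ≤ (p : ℝ) ^ (w / 2) * (p : ℝ) ^ (-(w / 2)) := by
          gcongr
      _ = 1 := by
          rw [← Real.rpow_add h0]
          simp
  rw [div_le_iff₀ h0]
  linarith

theorem bq_eq {a : ℂ} {p : ℕ} (hp : p.Prime) (t : ℝ) :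
    bq w a p t = bt w a p * fourier 1 (li t p) := by
  unfold bq bt
  rw [fourier_li, cpow_eq0 hp.two_le]
  ring

/-- the logarithm of the random partial product -/
noncomputable def RL (w : ℝ) (α : ℕ → Fin N → ℂ) (x : ℕ) (θ : ℕ → UnitAddCircle) : ℂ :=
  ∑ p ∈ Nat.primesBelow x, ∑ j, -Complex.log (1 - bt w (α p j) p * fourier 1 (θ p))

/-- the random partial product -/
noncomputable def RP (w : ℝ) (α : ℕ → Fin N → ℂ) (x : ℕ) (θ : ℕ → UnitAddCircle) : ℂ :=
  Complex.exp (RL w α x θ)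

theorem RL_li {α : ℕ → Fin N → ℂ} (hα : Bd w α) (x : ℕ) (t : ℝ) :
    RL w α x (li t) = AL (qAD w α hα) x t := by
  have e1 : (qAD w α hα).H x t = HQ w α x t := rfl
  unfold AL RL
  rw [e1]
  unfold CS HQ
  rw [← Finset.range_eq_Ico, ← Finset.sum_add_distrib, Nat.primesBelow, Finset.sum_filter]
  refine Finset.sum_congr rfl fun p _ => ?_
  have e2 : (qAD w α hα).c p = if p.Prime then
      ∑ j, α p j * (((p : ℝ) ^ (-(w / 2)) : ℝ) : ℂ) else 0 := rfl
  rw [e2]
  split_ifs with hp
  · rw [Finset.sum_mul, ← Finset.sum_add_distrib]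
    refine Finset.sum_congr rfl fun j _ => ?_
    unfold rq
    rw [← bq_eq hp]
    have e3 : bq w (α p j) p t = α p j * (((p : ℝ) ^ (-(w / 2)) : ℝ) : ℂ) * (ee t p / p) := by
      unfold bq
      rw [cpow_eq0 hp.two_le, mul_assoc]
    rw [← e3]
    ring
  · simp

theorem RP_li {α : ℕ → Fin N → ℂ} (hα : Bd w α) (x : ℕ) (t : ℝ) :
    RP w α x (li t) = AP (qAD w α hα) x t := by
  unfold RP AP
  rw [RL_li hα]

theorem RL_continuous {α : ℕ → Fin N → ℂ} (hα : Bd w α) (x : ℕ) : Continuous (RL w α x) := by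
  unfold RL
  refine continuous_finset_sum _ fun p hp => continuous_finset_sum _ fun j _ => ?_
  have hp' := Nat.prime_of_mem_primesBelow hp
  have h1 : Continuous fun θ : ℕ → UnitAddCircle => bt w (α p j) p * fourier 1 (θ p) :=
    continuous_const.mul ((map_continuous (fourier 1)).comp (continuous_apply p))
  refine (Continuous.clog (continuous_const.sub h1) fun θ => Or.inl ?_).neg
  show 0 < (1 - bt w (α p j) p * fourier 1 (θ p)).re
  have h3 : ‖bt w (α p j) p * fourier 1 (θ p)‖ ≤ 1 / 2 := by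
    rw [norm_mul, fourier_apply, Circle.norm_coe, mul_one]
    exact norm_bt hp' (hα p hp' j)
  have h4 := Complex.re_le_norm (bt w (α p j) p * fourier 1 (θ p))
  rw [Complex.sub_re, Complex.one_re]
  linarith

theorem RP_continuous {α : ℕ → Fin N → ℂ} (hα : Bd w α) (x : ℕ) : Continuous (RP w α x) :=
  Complex.continuous_exp.comp (RL_continuous hα x)

theorem RP_ne (α : ℕ → Fin N → ℂ) (x : ℕ) (θ : ℕ → UnitAddCircle) : RP w α x θ ≠ 0 :=
  Complex.exp_ne_zero _

theorem RL_dep (α : ℕ → Fin N → ℂ) {x y : ℕ} (hxy : x ≤ y) {θ θ' : ℕ → UnitAddCircle}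
    (h : ∀ p ∈ Nat.primesBelow y, θ p = θ' p) : RL w α x θ = RL w α x θ' := by
  unfold RL
  refine Finset.sum_congr rfl fun p hp => Finset.sum_congr rfl fun j _ => ?_
  have hp' : p ∈ Nat.primesBelow y := by
    rw [Nat.mem_primesBelow] at hp ⊢
    exact ⟨hp.1.trans_le hxy, hp.2⟩
  rw [h p hp']

/-- the polydisc of coefficients -/
abbrev Kd (N : ℕ) : Type := ℕ → Fin N → Metric.closedBall (0 : ℂ) (1 / 2)

instance : CompactSpace (Kd N) := by
  haveI : CompactSpace (Metric.closedBall (0 : ℂ) (1 / 2)) :=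
    isCompact_iff_compactSpace.1 (isCompact_closedBall _ _)
  infer_instance

/-- the product as a function of the coefficients -/
noncomputable def GP (x : ℕ) (k : Kd N) (θ : ℕ → UnitAddCircle) : ℂ :=
  ∏ p ∈ Nat.primesBelow x, ∏ j, (1 - (k p j : ℂ) * fourier 1 (θ p))⁻¹

theorem one_sub_ne' {a : ℂ} (h : ‖a‖ ≤ 1 / 2) (θ : UnitAddCircle) : 1 - a * fourier 1 θ ≠ 0 := by
  refine one_sub_ne ?_
  rw [norm_mul, fourier_apply, Circle.norm_coe, mul_one]
  linarith

theorem GP_continuous (x : ℕ) :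
    Continuous fun z : Kd N × (ℕ → UnitAddCircle) => GP x z.1 z.2 := by
  unfold GP
  refine continuous_finset_prod _ fun p _ => continuous_finset_prod _ fun j _ => ?_
  refine Continuous.inv₀ ?_ fun z => ?_
  · refine continuous_const.sub (Continuous.mul ?_ ?_)
    · exact continuous_subtype_val.comp
        ((continuous_apply j).comp ((continuous_apply p).comp continuous_fst))
    · exact (map_continuous (fourier 1)).comp ((continuous_apply p).comp continuous_snd)
  · refine one_sub_ne' ?_ _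
    have := (z.1 p j).2
    rwa [mem_closedBall_zero_iff] at this

theorem GP_ne (x : ℕ) (k : Kd N) (θ : ℕ → UnitAddCircle) : GP x k θ ≠ 0 := by
  unfold GP
  refine Finset.prod_ne_zero_iff.2 fun p _ => Finset.prod_ne_zero_iff.2 fun j _ => ?_
  refine inv_ne_zero (one_sub_ne' ?_ _)
  have := (k p j).2
  rwa [mem_closedBall_zero_iff] at this

open Classical in
/-- the coefficients of a system -/
noncomputable def toK (w : ℝ) (α : ℕ → Fin N → ℂ) (hα : Bd w α) : Kd N := fun p j =>
  if hp : p.Prime then ⟨bt w (α p j) p, by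
    rw [mem_closedBall_zero_iff]
    exact norm_bt hp (hα p hp j)⟩ else ⟨0, by simp⟩

theorem GP_toK {α : ℕ → Fin N → ℂ} (hα : Bd w α) (x : ℕ) (θ : ℕ → UnitAddCircle) :
    GP x (toK w α hα) θ = RP w α x θ := by
  unfold GP RP RL
  rw [Complex.exp_sum]
  refine Finset.prod_congr rfl fun p hp => ?_
  have hp' := Nat.prime_of_mem_primesBelow hp
  rw [Complex.exp_sum]
  refine Finset.prod_congr rfl fun j _ => ?_
  rw [Complex.exp_neg, Complex.exp_log (one_sub_ne' (norm_bt hp' (hα p hp' j)) _)]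
  unfold toK
  simp [hp']

theorem GP_dep {x : ℕ} (k : Kd N) {θ θ' : ℕ → UnitAddCircle}
    (h : ∀ p ∈ Nat.primesBelow x, θ p = θ' p) : GP x k θ = GP x k θ' := by
  unfold GP
  refine Finset.prod_congr rfl fun p hp => ?_
  rw [h p hp]

end Pool.Agent.Q255.SG
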