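import Pool.Agent.Q255.SG.LA

/-! # Sharpness of the window -/

set_option autoImplicit false

namespace Pool.Agent.Q255.SG.Sharp

open MeasureTheory Filter Topology Pool.Agent.Q255.SG

/-- `p^{iλ}` -/
noncomputable def tw (lam : ℝ) (n : ℕ) : ℂ := Complex.exp ((lam * Real.log n : ℝ) * Complex.I)

theorem norm_tw (lam : ℝ) (n : ℕ) : ‖tw lam n‖ = 1 := Complex.norm_exp_ofReal_mul_I _

theorem tw_mul (lam : ℝ) (n : ℕ) : tw lam n * tw (-lam) n = 1 := by
  unfold tw
  rw [← Complex.exp_add, ← add_mul]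
  push_cast
  simp

theorem norm_exp_sub_exp (a b : ℝ) :
    ‖Complex.exp ((a : ℂ) * Complex.I) - Complex.exp ((b : ℂ) * Complex.I)‖ ≤ |a - b| := by
  have h1 : Complex.exp ((a : ℂ) * Complex.I) - Complex.exp ((b : ℂ) * Complex.I) =
      Complex.exp ((b : ℂ) * Complex.I) * (Complex.exp (Complex.I * ((a - b : ℝ) : ℂ)) - 1) := by
    rw [mul_sub, ← Complex.exp_add, mul_one]
    congr 2
    push_cast
    ring
  rw [h1, norm_mul, Complex.norm_exp_ofReal_mul_I, one_mul]
  have := Real.norm_exp_I_mul_ofReal_sub_one_le (x := a - b)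
  simpa using this

theorem tw_succ (lam : ℝ) (hlam : 0 ≤ lam) {n : ℕ} (hn : 1 ≤ n) :
    ‖tw (-lam) (n + 1) - tw (-lam) n‖ ≤ lam / n := by
  unfold tw
  refine (norm_exp_sub_exp _ _).trans ?_
  have hn0 : (0 : ℝ) < n := by exact_mod_cast hn
  rw [← mul_sub, abs_mul, abs_neg, abs_of_nonneg hlam]
  have h1 : 0 ≤ Real.log ((n + 1 : ℕ) : ℝ) - Real.log n := by
    rw [sub_nonneg]
    exact Real.log_le_log hn0 (by push_cast; linarith)
  rw [abs_of_nonneg h1]
  have h2 : Real.log ((n + 1 : ℕ) : ℝ) - Real.log n ≤ 1 / n := by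
    rw [← Real.log_div (by positivity) hn0.ne']
    refine (Real.log_le_sub_one_of_pos (by positivity)).trans (le_of_eq ?_)
    push_cast
    field_simp
    ring
  calc lam * (Real.log ((n + 1 : ℕ) : ℝ) - Real.log n) ≤ lam * (1 / n) :=
        mul_le_mul_of_nonneg_left h2 hlam
    _ = lam / n := by ring

/-- the prime number theorem -/
theorem theta_tendsto : Tendsto (fun x : ℕ => (x : ℝ)⁻¹ * ∑ p ∈ Nat.primesBelow x, Real.log p)
    atTop (𝓝 1) := by
  have h1 := Th_tendsto.comp (Real.tendsto_log_atTop.comp (tendsto_natCast_atTop_atTop (R := ℝ)))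
  refine h1.congr' ?_
  filter_upwards [eventually_ge_atTop 1] with x hx
  have hx0 : (0 : ℝ) < x := by exact_mod_cast hx
  simp only [Function.comp]
  unfold Th tm
  rw [prs_log hx, Real.exp_neg, Real.exp_log hx0]

noncomputable def cc (lam : ℝ) (n : ℕ) : ℂ := if n.Prime then tw lam n * (Real.log n : ℝ) else 0

theorem sum_cc (lam : ℝ) (x : ℕ) : ∑ n ∈ Finset.range x, cc lam n =
    ∑ p ∈ Nat.primesBelow x, tw lam p * (Real.log p : ℝ) := by
  unfold cc
  rw [← Finset.sum_filter]
  rfl

/-- **Sharpness.**  The averages of `p^{iλ}` are not eventually smaller than `1/(1+λ)`. -/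
theorem sharp {lam m : ℝ} (hlam : 0 ≤ lam) (hm : m * (1 + lam) < 1) :
    ¬ ∀ᶠ x : ℕ in atTop,
      ‖(x : ℂ)⁻¹ * ∑ p ∈ Nat.primesBelow x, tw lam p * (Real.log p : ℝ)‖ ≤ m := by
  intro hev
  obtain ⟨x0, hx0⟩ := eventually_atTop.1 hev
  have hm0 : 0 ≤ m := (norm_nonneg _).trans (hx0 x0 le_rfl)
  set Cs : ℕ → ℂ := fun x => ∑ n ∈ Finset.range x, cc lam n with hCs
  set B : ℝ := ∑ x ∈ Finset.range (x0 + 1), ‖Cs x‖ with hB
  have hB0 : 0 ≤ B := Finset.sum_nonneg fun _ _ => norm_nonneg _
  have hC : ∀ x : ℕ, ‖Cs x‖ ≤ m * x + B := by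
    intro x
    rcases le_or_gt x0 x with h | h
    · rcases Nat.eq_zero_or_pos x with h0 | h0
      · subst h0
        simp only [hCs, Finset.range_zero, Finset.sum_empty, norm_zero]
        positivity
      · have hx : (0 : ℝ) < x := by exact_mod_cast h0
        have h1 := hx0 x h
        rw [← sum_cc, norm_mul, norm_inv, Complex.norm_natCast, inv_mul_le_iff₀ hx] at h1
        have : ‖Cs x‖ ≤ x * m := h1
        linarith
    · have h1 : ‖Cs x‖ ≤ B :=
        Finset.single_le_sum (f := fun x => ‖Cs x‖) (fun _ _ => norm_nonneg _)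
          (Finset.mem_range.2 (by omega))
      have : 0 ≤ m * x := by positivity
      linarith
  -- summation by parts
  have hparts : ∀ x : ℕ, 2 ≤ x → ∑ p ∈ Nat.primesBelow x, Real.log p ≤
      (m * x + B) + ∑ n ∈ Finset.Ico 1 x, lam / n * (m * (n + 1) + B) := by
    intro x hx
    have h1 := Finset.sum_range_by_parts (fun n => tw (-lam) n) (fun n => cc lam n) x
    have h2 : ∑ n ∈ Finset.range x, tw (-lam) n • cc lam n =
        ((∑ p ∈ Nat.primesBelow x, Real.log p : ℝ) : ℂ) := by
      have h3 : ∀ n, tw (-lam) n • cc lam n = if n.Prime then ((Real.log n : ℝ) : ℂ) else 0 := by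
        intro n
        unfold cc
        split_ifs
        · rw [smul_eq_mul, ← mul_assoc, mul_comm (tw (-lam) n), tw_mul, one_mul]
        · rw [smul_zero]
      rw [Finset.sum_congr rfl fun n _ => h3 n, ← Finset.sum_filter, Complex.ofReal_sum]
      rfl
    rw [h2] at h1
    have h4 : ∑ p ∈ Nat.primesBelow x, Real.log p =
        ‖((∑ p ∈ Nat.primesBelow x, Real.log p : ℝ) : ℂ)‖ := by
      rw [Complex.norm_real, Real.norm_of_nonneg]
      exact Finset.sum_nonneg fun p hp => Real.log_natCast_nonneg p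
    rw [h4, h1]
    refine (norm_sub_le _ _).trans (add_le_add ?_ ?_)
    · rw [norm_smul, norm_tw, one_mul]
      exact hC x
    · refine (norm_sum_le _ _).trans ?_
      have hx1 : x - 1 = (x - 2) + 1 := by omega
      rw [Finset.range_eq_Ico]
      have h5 : ∀ i ∈ Finset.Ico 0 (x - 1),
          ‖(tw (-lam) (i + 1) - tw (-lam) i) • Cs (i + 1)‖ ≤
            if i = 0 then 0 else lam / i * (m * (i + 1) + B) := by
        intro i _
        rw [norm_smul]
        split_ifs with h
        · subst h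
          have : Cs (0 + 1) = 0 := by
            simp [hCs, cc]
          rw [this]
          simp
        · have hi : 1 ≤ i := Nat.one_le_iff_ne_zero.2 h
          have h6 := hC (i + 1)
          push_cast at h6
          exact mul_le_mul (tw_succ lam hlam hi) h6 (norm_nonneg _) (by positivity)
      refine (Finset.sum_le_sum h5).trans ?_
      have h7 : ∑ i ∈ Finset.Ico 0 (x - 1), (if i = 0 then 0 else
          lam / (i : ℝ) * (m * (i + 1) + B)) ≤ ∑ i ∈ Finset.Ico 0 x, (if i = 0 then 0 else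
          lam / (i : ℝ) * (m * (i + 1) + B)) := by
        refine Finset.sum_le_sum_of_subset_of_nonneg (Finset.Ico_subset_Ico le_rfl (by omega))
          fun i _ _ => ?_
        split_ifs
        · exact le_rfl
        · positivity
      refine h7.trans (le_of_eq ?_)
      rw [Finset.sum_eq_sum_Ico_succ_bot (by omega : 0 < x)]
      simp only [if_true, zero_add]
      refine Finset.sum_congr rfl fun i hi => ?_
      rw [if_neg (by have := (Finset.mem_Ico.1 hi).1; omega)]
  -- the bound
  have hsum : ∀ x : ℕ, 2 ≤ x → ∑ n ∈ Finset.Ico 1 x, lam / n * (m * (n + 1) + B) ≤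
      lam * m * x + lam * (m + B) * (1 + Real.log x) := by
    intro x hx
    have h1 : ∀ n ∈ Finset.Ico 1 x, lam / (n : ℝ) * (m * (n + 1) + B) =
        lam * m + lam * (m + B) * ((n : ℝ)⁻¹) := by
      intro n hn
      have : (n : ℝ) ≠ 0 := by
        have := (Finset.mem_Ico.1 hn).1
        positivity
      field_simp
      ring
    rw [Finset.sum_congr rfl h1, Finset.sum_add_distrib, Finset.sum_const, ← Finset.mul_sum,
      nsmul_eq_mul, Nat.card_Ico]
    have h2 : ∑ n ∈ Finset.Ico 1 x, ((n : ℝ)⁻¹) ≤ 1 + Real.log x := by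
      have h3 := harmonic_le_one_add_log (x - 1)
      have h4 : ∑ n ∈ Finset.Ico 1 x, ((n : ℝ)⁻¹) = ((harmonic (x - 1) : ℚ) : ℝ) := by
        unfold harmonic
        push_cast
        rw [Finset.sum_Ico_eq_sum_range]
        refine Finset.sum_congr rfl fun k _ => ?_
        push_cast
        rw [add_comm]
      rw [h4]
      refine h3.trans ?_
      have h5 : Real.log ((x - 1 : ℕ) : ℝ) ≤ Real.log x := by
        refine Real.log_le_log ?_ ?_
        · have : 0 < x - 1 := by omega
          exact_mod_cast this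
        · exact_mod_cast Nat.sub_le x 1
      linarith
    have h6 : ((x - 1 : ℕ) : ℝ) ≤ x := by exact_mod_cast Nat.sub_le x 1
    have h7 : 0 ≤ lam * m := by positivity
    have h8 : 0 ≤ lam * (m + B) := by positivity
    nlinarith
  have hfin : ∀ x : ℕ, 2 ≤ x → (x : ℝ)⁻¹ * ∑ p ∈ Nat.primesBelow x, Real.log p ≤
      m * (1 + lam) + (B + lam * (m + B)) * (1 / x) + lam * (m + B) * (Real.log x / x) := by
    intro x hx
    have hx0' : (0 : ℝ) < x := by positivity
    have h1 := (hparts x hx).trans (add_le_add le_rfl (hsum x hx))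
    rw [inv_mul_le_iff₀ hx0']
    refine h1.trans (le_of_eq ?_)
    field_simp
    ring
  have hlim : Tendsto (fun x : ℕ => m * (1 + lam) + (B + lam * (m + B)) * (1 / (x : ℝ)) +
      lam * (m + B) * (Real.log x / x)) atTop (𝓝 (m * (1 + lam))) := by
    have h1 : Tendsto (fun x : ℕ => 1 / (x : ℝ)) atTop (𝓝 0) := tendsto_one_div_atTop_nhds_zero_nat
    have h2 : Tendsto (fun x : ℕ => Real.log x / (x : ℝ)) atTop (𝓝 0) :=
      Real.isLittleO_log_id_atTop.tendsto_div_nhds_zero.comp tendsto_natCast_atTop_atTop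
    have h3 := ((h1.const_mul (B + lam * (m + B))).const_add (m * (1 + lam))).add
      (h2.const_mul (lam * (m + B)))
    simpa using h3
  have hle := le_of_tendsto_of_tendsto theta_tendsto hlim (by
    filter_upwards [eventually_ge_atTop 2] with x hx using hfin x hx)
  linarith

end Pool.Agent.Q255.SG.Sharp
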