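import Mathlib

/-! # Fourier transforms of test functions -/

set_option autoImplicit false

namespace Pool.Agent.Q255.SG

open MeasureTheory Filter Topology FourierTransform

/-- `∫ φ(t) e^{iut} dt` -/
noncomputable def FT (φ : ℝ → ℂ) (u : ℝ) : ℂ := ∫ t : ℝ, φ t * Complex.exp (Complex.I * u * t)

theorem FT_eq (φ : ℝ → ℂ) (u : ℝ) : FT φ u = 𝓕 φ (-u / (2 * Real.pi)) := by
  unfold FT
  rw [Real.fourier_real_eq_integral_exp_smul]
  refine integral_congr_ae (Eventually.of_forall fun t => ?_)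
  simp only [smul_eq_mul]
  rw [mul_comm]
  congr 2
  have := Real.pi_ne_zero
  push_cast
  field_simp

/-- a test function: smooth with compact support -/
def Tst (φ : ℝ → ℂ) : Prop := ContDiff ℝ (⊤ : ℕ∞) φ ∧ HasCompactSupport φ

variable {φ : ℝ → ℂ}

theorem Tst.continuous (h : Tst φ) : Continuous φ := h.1.continuous

theorem Tst.integrable (h : Tst φ) : Integrable φ := h.continuous.integrable_of_hasCompactSupport h.2

theorem Tst.mul {ψ : ℝ → ℂ} (h : Tst φ) (hψ : ContDiff ℝ (⊤ : ℕ∞) ψ) :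
    Tst (fun t => ψ t * φ t) :=
  ⟨hψ.mul h.1, h.2.mul_left⟩

theorem Tst.deriv (h : Tst φ) : Tst (fun t => Complex.I * deriv φ t) := by
  have h1 : ContDiff ℝ (⊤ : ℕ∞) (_root_.deriv φ) := by
    have h2 := h.1
    rw [show ((⊤ : ℕ∞) : WithTop ℕ∞) = ((⊤ : ℕ∞) : WithTop ℕ∞) + 1 from rfl] at h2
    exact (contDiff_succ_iff_deriv.1 h2).2.2
  exact ⟨contDiff_const.mul h1, h.2.deriv.mul_left⟩

theorem Tst.neg (h : Tst φ) : Tst (fun t => φ (-t)) :=
  ⟨h.1.comp contDiff_neg, h.2.comp_homeomorph (Homeomorph.neg ℝ)⟩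

theorem FT_neg (φ : ℝ → ℂ) (u : ℝ) : FT (fun t => φ (-t)) u = FT φ (-u) := by
  unfold FT
  rw [← integral_neg_eq_self]
  refine integral_congr_ae (Eventually.of_forall fun t => ?_)
  simp only [neg_neg]
  congr 2
  push_cast
  ring

/-- decay -/
theorem FT_decay (h : Tst φ) (k : ℕ) : ∃ C : ℝ, ∀ u : ℝ, |u| ^ k * ‖FT φ u‖ ≤ C := by
  obtain ⟨C, hC⟩ := (𝓕 (h.2.toSchwartzMap h.1)).decay' k 0
  refine ⟨(2 * Real.pi) ^ k * C, fun u => ?_⟩
  have h1 := hC (-u / (2 * Real.pi))
  have hpi := Real.pi_pos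
  have e1 : (𝓕 (h.2.toSchwartzMap h.1)).toFun (-u / (2 * Real.pi)) = FT φ u := by
    rw [FT_eq]
    rfl
  have e2 : ‖iteratedFDeriv ℝ 0 (𝓕 (h.2.toSchwartzMap h.1)).toFun (-u / (2 * Real.pi))‖ =
      ‖FT φ u‖ := by
    rw [norm_iteratedFDeriv_zero, e1]
  rw [e2, Real.norm_eq_abs, abs_div, abs_neg, abs_of_pos (by positivity : 0 < 2 * Real.pi),
    div_pow, div_mul_eq_mul_div, div_le_iff₀ (by positivity)] at h1
  linarith

theorem FT_bound (h : Tst φ) : ∃ C : ℝ, 0 ≤ C ∧ ∀ u : ℝ, ‖FT φ u‖ ≤ C * (1 + u ^ 2)⁻¹ := by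
  obtain ⟨C, hC⟩ := FT_decay h 0
  obtain ⟨D, hD⟩ := FT_decay h 2
  have hC0 : 0 ≤ C := by
    have := hC 0
    exact le_trans (by positivity) this
  have hD0 : 0 ≤ D := by
    have := hD 0
    exact le_trans (by positivity) this
  refine ⟨C + D, by linarith, fun u => ?_⟩
  rw [← div_eq_mul_inv, le_div_iff₀ (by positivity)]
  have h1 := hC u
  have h2 := hD u
  rw [pow_zero, one_mul] at h1
  rw [sq_abs] at h2
  nlinarith

theorem FT_hasDerivAt (h : Tst φ) (u : ℝ) :
    HasDerivAt (FT φ) (FT (fun t => (Complex.I * t) * φ t) u) u := by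
  have h1 : Integrable (fun x : ℝ => x • φ x) := by
    have h2 := (h.mul (ψ := fun t : ℝ => (t : ℂ)) Complex.ofRealCLM.contDiff).integrable
    refine h2.congr (Eventually.of_forall fun t => ?_)
    simp
  have h2 := Real.hasDerivAt_fourier h.integrable h1 (-u / (2 * Real.pi))
  have h3 : HasDerivAt (fun u : ℝ => -u / (2 * Real.pi)) (-1 / (2 * Real.pi)) u :=
    ((hasDerivAt_id u).neg).div_const _
  have h4 := h2.scomp u h3
  have e1 : FT φ = (𝓕 φ) ∘ fun u : ℝ => -u / (2 * Real.pi) := by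
    funext v
    exact FT_eq φ v
  rw [e1]
  refine h4.congr_deriv ?_
  rw [FT_eq]
  have e2 : (fun t : ℝ => (Complex.I * t) * φ t) = fun t : ℝ =>
      (-1 / (2 * Real.pi) : ℝ) • ((-2 * Real.pi * Complex.I * t : ℂ) • φ t) := by
    funext t
    have := Real.pi_ne_zero
    rw [Complex.real_smul, smul_eq_mul]
    push_cast
    field_simp
  rw [e2, Real.fourier_real_eq_integral_exp_smul, Real.fourier_real_eq_integral_exp_smul,
    ← integral_smul]
  refine integral_congr_ae (Eventually.of_forall fun t => ?_)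
  simp only []
  rw [smul_comm]

theorem FT_continuous (h : Tst φ) : Continuous (FT φ) :=
  continuous_iff_continuousAt.2 fun u => (FT_hasDerivAt h u).continuousAt

theorem FT_integrable (h : Tst φ) : Integrable (FT φ) := by
  obtain ⟨C, hC0, hC⟩ := FT_bound h
  exact Integrable.mono' (integrable_inv_one_add_sq.const_mul C)
    (FT_continuous h).aestronglyMeasurable (Eventually.of_forall hC)

/-- multiplication by the variable -/
theorem FT_mul_var (h : Tst φ) (u : ℝ) :
    (u : ℂ) * FT φ u = FT (fun t => Complex.I * deriv φ t) u := by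
  have hd : Differentiable ℝ φ := h.1.differentiable (by norm_num)
  have hd' : Integrable (_root_.deriv φ) := by
    have h1 := h.deriv.integrable.const_mul (-Complex.I)
    refine h1.congr (Eventually.of_forall fun t => ?_)
    simp only []
    rw [← mul_assoc, neg_mul, Complex.I_mul_I]
    ring
  have h1 := Real.fourier_deriv h.integrable hd hd'
  have h2 := congrFun h1 (-u / (2 * Real.pi))
  have h3 : FT (fun t => Complex.I * _root_.deriv φ t) u = Complex.I * FT (_root_.deriv φ) u := by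
    unfold FT
    rw [← integral_const_mul]
    refine integral_congr_ae (Eventually.of_forall fun t => ?_)
    simp only []
    ring
  rw [h3, FT_eq (_root_.deriv φ), h2, FT_eq, smul_eq_mul]
  have := Real.pi_ne_zero
  push_cast
  field_simp
  rw [Complex.I_sq]
  ring

theorem FT_integral (h : Tst φ) : ∫ u : ℝ, FT φ u = 2 * Real.pi * φ 0 := by
  have h1 := h.continuous.fourierInv_fourier_eq h.integrable (by
    have h2 := (FT_integrable h).comp_mul_left' (R := -(2 * Real.pi)) (by
      have := Real.pi_pos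
      intro h0
      linarith)
    refine h2.congr (Eventually.of_forall fun t => ?_)
    simp only []
    rw [FT_eq]
    congr 1
    have := Real.pi_ne_zero
    field_simp)
  have h2 := congrFun h1 0
  rw [Real.fourierInv_eq'] at h2
  simp only [inner_zero_right, mul_zero, Complex.ofReal_zero, zero_mul, Complex.exp_zero,
    one_smul] at h2
  rw [← h2]
  have h3 := Measure.integral_comp_mul_left (fun u : ℝ => 𝓕 φ u) (-(1 / (2 * Real.pi)))
  have hpi := Real.pi_pos
  rw [show |(-(1 / (2 * Real.pi)))⁻¹| = 2 * Real.pi by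
    rw [abs_inv, abs_neg, abs_of_pos (by positivity), one_div, inv_inv]] at h3
  have e1 : ∀ u : ℝ, FT φ u = 𝓕 φ (-(1 / (2 * Real.pi)) * u) := by
    intro u
    rw [FT_eq]
    congr 1
    ring_nf
  simp only [e1]
  rw [h3, Complex.real_smul]
  push_cast
  rfl

/-- the function `(1 + it) φ(t)` -/
noncomputable def gg1 (φ : ℝ → ℂ) (t : ℝ) : ℂ := (1 + Complex.I * t) * φ t

theorem Tst.gg1 (h : Tst φ) : Tst (gg1 φ) := by
  refine h.mul ?_
  exact contDiff_const.add (contDiff_const.mul Complex.ofRealCLM.contDiff)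

theorem FT_add {ψ : ℝ → ℂ} (h : Tst φ) (hψ : Tst ψ) (u : ℝ) :
    FT (fun t => φ t + ψ t) u = FT φ u + FT ψ u := by
  have key : ∀ χ : ℝ → ℂ, Tst χ → Integrable fun t : ℝ => χ t * Complex.exp (Complex.I * u * t) := by
    intro χ hχ
    refine Continuous.integrable_of_hasCompactSupport ?_ hχ.2.mul_right
    exact hχ.continuous.mul (by fun_prop)
  unfold FT
  rw [← integral_add (key φ h) (key ψ hψ)]
  refine integral_congr_ae (Eventually.of_forall fun t => ?_)
  simp only []
  ring

/-- the representation of `e^{-y} F(x - y)` -/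
theorem rep (h : Tst φ) (x y : ℝ) :
    ((Real.exp (-y) : ℝ) : ℂ) * FT φ (x - y) =
      ∫ u in Set.Ioi y, ((Real.exp (-u) : ℝ) : ℂ) * FT (gg1 φ) (x - u) := by
  have hder : ∀ u : ℝ, HasDerivAt (fun u : ℝ => -(((Real.exp (-u) : ℝ) : ℂ) * FT φ (x - u)))
      (((Real.exp (-u) : ℝ) : ℂ) * FT (gg1 φ) (x - u)) u := by
    intro u
    have h1 : HasDerivAt (fun u : ℝ => ((Real.exp (-u) : ℝ) : ℂ)) (((-Real.exp (-u) : ℝ)) : ℂ) u := by
      have := ((Real.hasDerivAt_exp (-u)).comp u (hasDerivAt_neg u)).ofReal_comp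
      simpa using this
    have h2 : HasDerivAt (fun u : ℝ => FT φ (x - u))
        ((-1 : ℝ) • FT (fun t => (Complex.I * t) * φ t) (x - u)) u :=
      (FT_hasDerivAt h (x - u)).scomp u ((hasDerivAt_id u).const_sub x)
    have h3 := (h1.mul h2).neg
    refine h3.congr_deriv ?_
    have h4 : FT (gg1 φ) (x - u) = FT φ (x - u) + FT (fun t => (Complex.I * t) * φ t) (x - u) := by
      have hT : Tst (fun t : ℝ => (Complex.I * t) * φ t) :=
        h.mul (contDiff_const.mul Complex.ofRealCLM.contDiff)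
      rw [← FT_add h hT]
      congr 1
      funext t
      unfold gg1
      ring
    rw [h4]
    push_cast
    simp only [neg_smul, one_smul]
    ring
  have hint : IntegrableOn (fun u : ℝ => ((Real.exp (-u) : ℝ) : ℂ) * FT (gg1 φ) (x - u))
      (Set.Ioi y) := by
    obtain ⟨C, hC0, hC⟩ := FT_bound h.gg1
    have h1 : IntegrableOn (fun u : ℝ => C * Real.exp (-u)) (Set.Ioi y) :=
      (integrableOn_exp_neg_Ioi y).const_mul C
    refine Integrable.mono' h1 ?_ (Eventually.of_forall fun u => ?_)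
    · exact ((Complex.continuous_ofReal.comp (Real.continuous_exp.comp continuous_neg)).mul
        ((FT_continuous h.gg1).comp (continuous_const.sub continuous_id))).aestronglyMeasurable
    · rw [norm_mul, Complex.norm_real, Real.norm_of_nonneg (Real.exp_pos _).le, mul_comm]
      refine mul_le_mul_of_nonneg_right ((hC _).trans ?_) (Real.exp_pos _).le
      refine mul_le_of_le_one_right hC0 (inv_le_one_of_one_le₀ ?_)
      nlinarith [sq_nonneg (x - u)]
  have hlim : Tendsto (fun u : ℝ => -(((Real.exp (-u) : ℝ) : ℂ) * FT φ (x - u))) atTop (𝓝 0) := by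
    rw [tendsto_zero_iff_norm_tendsto_zero]
    obtain ⟨C, hC0, hC⟩ := FT_bound h
    refine squeeze_zero (fun u => norm_nonneg _) (fun u => ?_)
      ((Real.tendsto_exp_neg_atTop_nhds_zero.mul_const C).trans (by rw [zero_mul]))
    rw [norm_neg, norm_mul, Complex.norm_real, Real.norm_of_nonneg (Real.exp_pos _).le]
    refine mul_le_mul_of_nonneg_left ((hC _).trans ?_) (Real.exp_pos _).le
    refine mul_le_of_le_one_right hC0 (inv_le_one_of_one_le₀ ?_)
    nlinarith [sq_nonneg (x - u)]
  have h5 := integral_Ioi_of_hasDerivAt_of_tendsto' (a := y) (fun u _ => hder u) hint hlim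
  rw [h5]
  ring

end Pool.Agent.Q255.SG
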