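import Pool.Agent.Q255.SG.TA1

/-! # Weighted sums and averages -/

set_option autoImplicit false

namespace Pool.Agent.Q255.SG

open MeasureTheory Filter Topology FourierTransform

/-- the averages of the weights below `X` -/
noncomputable def AvX (d : ℕ → ℂ) (X : ℕ) (u : ℝ) : ℂ :=
  ((Real.exp (-u) : ℝ) : ℂ) * ∑ p ∈ (Finset.range X).filter (fun p : ℕ => Real.log p < u), d p

/-- the averages of the weights -/
noncomputable def Av (d : ℕ → ℂ) (u : ℝ) : ℂ := AvX d (⌊Real.exp u⌋₊ + 1) u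

/-- the smooth sums below `X` -/
noncomputable def SX (d : ℕ → ℂ) (φ : ℝ → ℂ) (X : ℕ) (x : ℝ) : ℂ :=
  ∑ p ∈ Finset.range X, d p / p * FT φ (x - Real.log p)

/-- the smooth averages -/
noncomputable def SA (d : ℕ → ℂ) (ψ : ℝ → ℂ) (x : ℝ) : ℂ := ∫ u : ℝ, Av d u * FT ψ (x - u)

theorem Av_eq (d : ℕ → ℂ) {u : ℝ} {X : ℕ} (hX : ⌊Real.exp u⌋₊ + 1 ≤ X) : AvX d X u = Av d u := by
  unfold Av AvX
  congr 2
  ext p
  simp only [Finset.mem_filter, Finset.mem_range]
  constructor
  · rintro ⟨h1, h2⟩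
    refine ⟨?_, h2⟩
    rcases Nat.eq_zero_or_pos p with h | h
    · omega
    · have hp : (0 : ℝ) < p := by exact_mod_cast h
      have h3 : (p : ℝ) < Real.exp u := (Real.log_lt_iff_lt_exp hp).1 h2
      have := Nat.le_floor h3.le
      omega
  · rintro ⟨h1, h2⟩
    exact ⟨by omega, h2⟩

theorem AvX_tendsto (d : ℕ → ℂ) (u : ℝ) : Tendsto (fun X => AvX d X u) atTop (𝓝 (Av d u)) := by
  refine tendsto_const_nhds.congr' ?_
  filter_upwards [eventually_ge_atTop (⌊Real.exp u⌋₊ + 1)] with X hX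
  exact (Av_eq d hX).symm

theorem AvX_eq_sum (d : ℕ → ℂ) (X : ℕ) (u : ℝ) : AvX d X u = ∑ p ∈ Finset.range X,
    (Set.Ioi (Real.log p)).indicator (fun u => d p * ((Real.exp (-u) : ℝ) : ℂ)) u := by
  unfold AvX
  rw [Finset.sum_filter, Finset.mul_sum]
  refine Finset.sum_congr rfl fun p _ => ?_
  by_cases h : Real.log p < u
  · rw [if_pos h, Set.indicator_of_mem (show u ∈ Set.Ioi (Real.log (p : ℝ)) from h), mul_comm]
  · rw [if_neg h, Set.indicator_of_notMem (show u ∉ Set.Ioi (Real.log (p : ℝ)) from h), mul_zero]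

theorem AvX_measurable (d : ℕ → ℂ) (X : ℕ) : Measurable (AvX d X) := by
  have : AvX d X = fun u => ∑ p ∈ Finset.range X,
      (Set.Ioi (Real.log p)).indicator (fun u => d p * ((Real.exp (-u) : ℝ) : ℂ)) u := by
    funext u
    exact AvX_eq_sum d X u
  rw [this]
  refine Finset.measurable_fun_sum _ fun p _ => ?_
  refine Measurable.indicator ?_ measurableSet_Ioi
  exact ((Complex.continuous_ofReal.comp (Real.continuous_exp.comp continuous_neg)).const_mul
    (d p) |>.measurable)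

theorem Av_measurable (d : ℕ → ℂ) : Measurable (Av d) :=
  measurable_of_tendsto_metrizable (AvX_measurable d) (tendsto_pi_nhds.2 fun u => AvX_tendsto d u)

/-- the averages are bounded -/
def AvB (d : ℕ → ℂ) (D : ℝ) : Prop := ∀ (X : ℕ) (u : ℝ), ‖AvX d X u‖ ≤ D

theorem Av_bound {d : ℕ → ℂ} {D : ℝ} (h : AvB d D) (u : ℝ) : ‖Av d u‖ ≤ D := h _ _

theorem Av_neg {d : ℕ → ℂ} {u : ℝ} (hu : u ≤ 0) : Av d u = 0 := by
  unfold Av AvX
  rw [Finset.sum_eq_zero, mul_zero]
  intro p hp
  rw [Finset.mem_filter] at hp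
  have h1 : 0 ≤ Real.log p := Real.log_natCast_nonneg p
  linarith [hp.2]

variable {φ : ℝ → ℂ} {d : ℕ → ℂ} {D : ℝ}

theorem rep_int (h : Tst φ) (p : ℕ) (x : ℝ) :
    Integrable fun u => (Set.Ioi (Real.log p)).indicator
      (fun u => d p * ((Real.exp (-u) : ℝ) : ℂ)) u * FT (gg1 φ) (x - u) := by
  obtain ⟨C, hC0, hC⟩ := FT_bound h.gg1
  have e1 : (fun u => (Set.Ioi (Real.log p)).indicator
      (fun u => d p * ((Real.exp (-u) : ℝ) : ℂ)) u * FT (gg1 φ) (x - u)) =
      (Set.Ioi (Real.log p)).indicator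
      (fun u => d p * ((Real.exp (-u) : ℝ) : ℂ) * FT (gg1 φ) (x - u)) := by
    funext u
    by_cases hu : u ∈ Set.Ioi (Real.log (p : ℝ))
    · rw [Set.indicator_of_mem hu, Set.indicator_of_mem hu]
    · rw [Set.indicator_of_notMem hu, Set.indicator_of_notMem hu, zero_mul]
  rw [e1, integrable_indicator_iff measurableSet_Ioi]
  have h1 : IntegrableOn (fun u : ℝ => ‖d p‖ * C * Real.exp (-u)) (Set.Ioi (Real.log p)) :=
    (integrableOn_exp_neg_Ioi _).const_mul _
  refine Integrable.mono' h1 ?_ (Eventually.of_forall fun u => ?_)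
  · exact ((continuous_const.mul (Complex.continuous_ofReal.comp
      (Real.continuous_exp.comp continuous_neg))).mul
      ((FT_continuous h.gg1).comp (continuous_const.sub continuous_id))).aestronglyMeasurable
  · rw [norm_mul, norm_mul, Complex.norm_real, Real.norm_of_nonneg (Real.exp_pos _).le, mul_assoc,
      mul_assoc, mul_comm C]
    refine mul_le_mul_of_nonneg_left (mul_le_mul_of_nonneg_left ((hC _).trans ?_)
      (Real.exp_pos _).le) (norm_nonneg _)
    refine mul_le_of_le_one_right hC0 (inv_le_one_of_one_le₀ ?_)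
    nlinarith [sq_nonneg (x - u)]

theorem SX_eq (h : Tst φ) (hd0 : d 0 = 0) (X : ℕ) (x : ℝ) :
    SX d φ X x = ∫ u : ℝ, AvX d X u * FT (gg1 φ) (x - u) := by
  have h1 : ∀ u : ℝ, AvX d X u * FT (gg1 φ) (x - u) = ∑ p ∈ Finset.range X,
      (Set.Ioi (Real.log p)).indicator (fun u => d p * ((Real.exp (-u) : ℝ) : ℂ)) u *
        FT (gg1 φ) (x - u) := by
    intro u
    rw [AvX_eq_sum, Finset.sum_mul]
  simp only [h1]
  rw [integral_finset_sum _ fun p _ => rep_int h p x]
  unfold SX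
  refine Finset.sum_congr rfl fun p _ => ?_
  rcases Nat.eq_zero_or_pos p with hp | hp
  · subst hp
    rw [hd0]
    simp
  have hp0 : (0 : ℝ) < p := by exact_mod_cast hp
  have e1 : (fun u => (Set.Ioi (Real.log p)).indicator
      (fun u => d p * ((Real.exp (-u) : ℝ) : ℂ)) u * FT (gg1 φ) (x - u)) =
      (Set.Ioi (Real.log p)).indicator
      (fun u => d p * (((Real.exp (-u) : ℝ) : ℂ) * FT (gg1 φ) (x - u))) := by
    funext u
    by_cases hu : u ∈ Set.Ioi (Real.log (p : ℝ))
    · rw [Set.indicator_of_mem hu, Set.indicator_of_mem hu, mul_assoc]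
    · rw [Set.indicator_of_notMem hu, Set.indicator_of_notMem hu, zero_mul]
  rw [e1, integral_indicator measurableSet_Ioi, integral_const_mul, ← rep h x (Real.log p),
    Real.exp_neg, Real.exp_log hp0]
  push_cast
  ring

theorem SA_int (hD : AvB d D) {ψ : ℝ → ℂ} (h : Tst ψ) (x : ℝ) :
    Integrable fun u : ℝ => ‖FT ψ (x - u)‖ * D :=
  ((FT_integrable h).comp_sub_left x).norm.mul_const D

/-- (L1) -/
theorem SX_tendsto (h : Tst φ) (hd0 : d 0 = 0) (hD : AvB d D) (x : ℝ) :
    Tendsto (fun X => SX d φ X x) atTop (𝓝 (SA d (gg1 φ) x)) := by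
  simp only [SX_eq h hd0]
  unfold SA
  refine tendsto_integral_of_dominated_convergence (fun u => ‖FT (gg1 φ) (x - u)‖ * D) ?_
    (SA_int hD h.gg1 x) ?_ ?_
  · intro X
    exact ((AvX_measurable d X).mul ((FT_continuous h.gg1).comp
      (continuous_const.sub continuous_id)).measurable).aestronglyMeasurable
  · intro X
    refine Eventually.of_forall fun u => ?_
    rw [norm_mul, mul_comm]
    exact mul_le_mul_of_nonneg_left (hD X u) (norm_nonneg _)
  · refine Eventually.of_forall fun u => ?_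
    exact (AvX_tendsto d u).mul_const _

theorem SA_eq (d : ℕ → ℂ) (ψ : ℝ → ℂ) (x : ℝ) : SA d ψ x = ∫ v : ℝ, Av d (x - v) * FT ψ v := by
  unfold SA
  rw [← integral_sub_left_eq_self _ volume x]
  simp only [sub_sub_cancel]

/-- (L2) and (L3) -/
theorem SA_tendsto (hD : AvB d D) {ψ : ℝ → ℂ} (h : Tst ψ) {l : Filter ℝ} [l.IsCountablyGenerated]
    {ρ : ℂ} (hρ : ∀ v : ℝ, Tendsto (fun x => Av d (x - v)) l (𝓝 ρ)) :
    Tendsto (SA d ψ) l (𝓝 (ρ * (2 * Real.pi * ψ 0))) := by
  have e1 : SA d ψ = fun x => ∫ v : ℝ, Av d (x - v) * FT ψ v := by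
    funext x
    exact SA_eq d ψ x
  rw [e1, ← FT_integral h, ← integral_const_mul]
  refine tendsto_integral_filter_of_dominated_convergence (fun v => ‖FT ψ v‖ * D) ?_ ?_
    ((FT_integrable h).norm.mul_const D) ?_
  · refine Eventually.of_forall fun x => ?_
    exact (((Av_measurable d).comp (measurable_const.sub measurable_id)).mul
      (FT_continuous h).measurable).aestronglyMeasurable
  · refine Eventually.of_forall fun x => Eventually.of_forall fun v => ?_
    rw [norm_mul, mul_comm]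
    exact mul_le_mul_of_nonneg_left (Av_bound hD _) (norm_nonneg _)
  · exact Eventually.of_forall fun v => (hρ v).mul_const _

theorem SA_atTop (hD : AvB d D) {ψ : ℝ → ℂ} (h : Tst ψ) {ρ : ℂ}
    (hρ : Tendsto (Av d) atTop (𝓝 ρ)) : Tendsto (SA d ψ) atTop (𝓝 (ρ * (2 * Real.pi * ψ 0))) :=
  SA_tendsto hD h fun v => hρ.comp (tendsto_atTop_add_const_right _ (-v) tendsto_id)

theorem SA_atBot (hD : AvB d D) {ψ : ℝ → ℂ} (h : Tst ψ) : Tendsto (SA d ψ) atBot (𝓝 0) := by
  have h1 := SA_tendsto (l := atBot) (ρ := 0) hD h fun v => by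
    refine tendsto_const_nhds.congr' ?_
    filter_upwards [eventually_le_atBot v] with x hx
    rw [Av_neg (by linarith)]
  rwa [zero_mul] at h1

end Pool.Agent.Q255.SG
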