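import Pool.Agent.Q255.SG.TA2

/-! # The Tauberian theorem -/

set_option autoImplicit false

namespace Pool.Agent.Q255.SG

open MeasureTheory Filter Topology FourierTransform

/-- a test function with value 1 at 0 -/
theorem exists_bump : ∃ φ : ℝ → ℂ, Tst φ ∧ φ 0 = 1 ∧ ∀ t : ℝ, 1 ≤ |t| → φ t = 0 := by
  set f : ContDiffBump (0 : ℝ) := ⟨1 / 4, 1 / 2, by norm_num, by norm_num⟩ with hf
  refine ⟨fun t => ((f t : ℝ) : ℂ), ⟨Complex.ofRealCLM.contDiff.comp f.contDiff, ?_⟩, ?_, ?_⟩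
  · exact f.hasCompactSupport.comp_left (g := fun x : ℝ => (x : ℂ)) Complex.ofReal_zero
  · have : f 0 = 1 := f.one_of_mem_closedBall (by simp [f.rIn_pos.le])
    simp [this]
  · intro t ht
    have : f t = 0 := by
      refine f.zero_of_le_dist ?_
      rw [Real.dist_eq, sub_zero]
      have : f.rOut = 1 / 2 := rfl
      rw [this]
      linarith
    simp [this]

theorem Tst.dil {φ : ℝ → ℂ} (h : Tst φ) {lam : ℝ} (hl : 0 < lam) : Tst (fun t => φ (lam⁻¹ * t)) := by
  refine ⟨h.1.comp (contDiff_const.mul contDiff_id), ?_⟩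
  have := h.2.comp_homeomorph (Homeomorph.mulLeft₀ lam⁻¹ (inv_pos.2 hl).ne')
  exact this

theorem FT_dil (φ : ℝ → ℂ) {lam : ℝ} (hl : 0 < lam) (u : ℝ) :
    FT (fun t => φ (lam⁻¹ * t)) u = (lam : ℂ) * FT φ (lam * u) := by
  unfold FT
  have h1 := Measure.integral_comp_mul_left
    (fun t : ℝ => φ t * Complex.exp (Complex.I * ((lam * u : ℝ) : ℂ) * t)) lam⁻¹
  rw [inv_inv, abs_of_pos hl] at h1
  rw [Complex.real_smul] at h1
  rw [← h1]
  refine integral_congr_ae (Eventually.of_forall fun t => ?_)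
  simp only []
  congr 2
  have : (lam : ℂ) ≠ 0 := by exact_mod_cast hl.ne'
  push_cast
  field_simp

/-- slow oscillation -/
def Slow (d : ℕ → ℂ) (K : ℝ) : Prop := ∀ ε : ℝ, 0 < ε → ∀ᶠ x : ℝ in atTop,
  ∀ v : ℝ, ‖Av d x - Av d (x - v)‖ ≤ K * |v| + ε

/-- The Tauberian theorem with a window. -/
theorem tauber : ∃ C : ℝ, 0 < C ∧ ∀ (d : ℕ → ℂ) (D K : ℝ), AvB d D → 0 ≤ K → Slow d K →
    ∀ (ρ : ℂ) (lam : ℝ), 0 < lam →
    (∀ ψ : ℝ → ℂ, Tst ψ → (∀ t, lam ≤ |t| → ψ t = 0) →
      Tendsto (SA d ψ) atTop (𝓝 (ρ * (2 * Real.pi * ψ 0)))) →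
    ∀ ε : ℝ, 0 < ε → ∀ᶠ x : ℝ in atTop, ‖Av d x - ρ‖ ≤ C * K / lam + ε := by
  obtain ⟨φ, hφ, hφ0, hφ1⟩ := exists_bump
  set F : ℝ → ℂ := FT φ with hF
  have hFi : Integrable F := FT_integrable hφ
  have hFi1 : Integrable fun w : ℝ => |w| * ‖F w‖ := by
    have h1 := (FT_integrable hφ.deriv).norm
    refine h1.congr (Eventually.of_forall fun w => ?_)
    simp only []
    rw [← FT_mul_var hφ, norm_mul, Complex.norm_real, Real.norm_eq_abs]
  set I0 : ℝ := ∫ w, ‖F w‖ with hI0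
  set I1 : ℝ := ∫ w, |w| * ‖F w‖ with hI1
  have hI00 : 0 ≤ I0 := integral_nonneg fun w => norm_nonneg _
  have hI10 : 0 ≤ I1 := integral_nonneg fun w => by positivity
  have hpi := Real.pi_gt_three
  refine ⟨I1 + 1, by linarith, fun d D K hD hK hs ρ lam hlam h ε hε => ?_⟩
  have hsupp : ∀ t : ℝ, lam ≤ |t| → φ (lam⁻¹ * t) = 0 := by
    intro t ht
    refine hφ1 _ ?_
    rw [abs_mul, abs_of_pos (inv_pos.2 hlam), inv_mul_eq_div, le_div_iff₀ hlam, one_mul]
    exact ht
  have h1 := h _ (hφ.dil hlam) hsupp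
  simp only [mul_zero, hφ0, mul_one] at h1
  have h2 := (Metric.tendsto_nhds.1 h1) ε hε
  have hε' : 0 < ε / (I0 + 1) := by positivity
  filter_upwards [h2, hs (ε / (I0 + 1)) hε'] with x hx hsx
  rw [dist_eq_norm] at hx
  -- the comparison
  have e1 : SA d (fun t => φ (lam⁻¹ * t)) x = ∫ w : ℝ, Av d (x - w / lam) * F w := by
    rw [SA_eq]
    have h3 := Measure.integral_comp_mul_left (fun w : ℝ => Av d (x - w / lam) * F w) lam
    rw [abs_of_pos (inv_pos.2 hlam), Complex.real_smul] at h3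
    have h4 : ∫ w : ℝ, Av d (x - w / lam) * F w =
        (lam : ℂ) * ∫ v : ℝ, Av d (x - (lam * v) / lam) * F (lam * v) := by
      rw [h3, ← mul_assoc]
      have : (lam : ℂ) ≠ 0 := by exact_mod_cast hlam.ne'
      push_cast
      rw [mul_inv_cancel₀ this, one_mul]
    rw [h4, ← integral_const_mul]
    refine integral_congr_ae (Eventually.of_forall fun v => ?_)
    simp only []
    rw [FT_dil φ hlam, mul_div_cancel_left₀ _ hlam.ne', hF]
    ring
  have e2 : (2 * Real.pi : ℂ) * Av d x = ∫ w : ℝ, Av d x * F w := by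
    rw [integral_const_mul, hF, FT_integral hφ, hφ0]
    ring
  have hint1 : Integrable fun w : ℝ => Av d x * F w := hFi.const_mul _
  have hint2 : Integrable fun w : ℝ => Av d (x - w / lam) * F w := by
    refine Integrable.bdd_mul (c := D) hFi ?_ (Eventually.of_forall fun w => Av_bound hD _)
    exact ((Av_measurable d).comp (measurable_const.sub
      (measurable_id.div_const lam))).aestronglyMeasurable
  have e3 : ‖(2 * Real.pi : ℂ) * Av d x - SA d (fun t => φ (lam⁻¹ * t)) x‖ ≤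
      K / lam * I1 + ε := by
    rw [e1, e2, ← integral_sub hint1 hint2]
    have hb : ∀ w : ℝ, ‖Av d x * F w - Av d (x - w / lam) * F w‖ ≤
        K / lam * (|w| * ‖F w‖) + ε / (I0 + 1) * ‖F w‖ := by
      intro w
      rw [← sub_mul, norm_mul]
      have h5 := hsx (w / lam)
      rw [abs_div, abs_of_pos hlam] at h5
      have h6 := mul_le_mul_of_nonneg_right h5 (norm_nonneg (F w))
      refine h6.trans (le_of_eq ?_)
      ring
    have hsum : Integrable fun w : ℝ => K / lam * (|w| * ‖F w‖) + ε / (I0 + 1) * ‖F w‖ :=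
      (hFi1.const_mul _).add (hFi.norm.const_mul _)
    refine (norm_integral_le_of_norm_le hsum (Eventually.of_forall hb)).trans ?_
    rw [integral_add (hFi1.const_mul _) (hFi.norm.const_mul _), integral_const_mul,
      integral_const_mul]
    have g1 : ε / (I0 + 1) * I0 ≤ ε := by
      rw [div_mul_eq_mul_div, div_le_iff₀ (by linarith)]
      nlinarith
    linarith
  have e4 : ‖(2 * Real.pi : ℂ) * (Av d x - ρ)‖ ≤ K / lam * I1 + 2 * ε := by
    have : (2 * Real.pi : ℂ) * (Av d x - ρ) =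
        ((2 * Real.pi : ℂ) * Av d x - SA d (fun t => φ (lam⁻¹ * t)) x) +
          (SA d (fun t => φ (lam⁻¹ * t)) x - ρ * (2 * Real.pi)) := by ring
    rw [this]
    refine (norm_add_le _ _).trans ?_
    linarith
  rw [norm_mul, norm_mul, Complex.norm_real, Real.norm_of_nonneg Real.pi_pos.le,
    Complex.norm_ofNat] at e4
  have h4 := norm_nonneg (Av d x - ρ)
  have h5 : K / lam * I1 ≤ (I1 + 1) * K / lam := by
    rw [div_mul_eq_mul_div, div_le_div_iff_of_pos_right hlam]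
    nlinarith
  have h6 : 0 ≤ K / lam * I1 := by positivity
  nlinarith

end Pool.Agent.Q255.SG
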