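import Pool.Agent.Q255.SG.TA3
import Pool.Agent.Cov.PNT

/-! # Weights on the primes -/

set_option autoImplicit false

namespace Pool.Agent.Q255.SG

open MeasureTheory Filter Topology FourierTransform

/-- the weights `c_k log k` -/
noncomputable def lw (c : ℕ → ℂ) (k : ℕ) : ℂ := c k * (Real.log k : ℝ)

/-- bounded weights on the primes -/
def PB (c : ℕ → ℂ) (κ : ℝ) : Prop := (∀ p : ℕ, p.Prime → ‖c p‖ ≤ κ) ∧ ∀ p : ℕ, ¬ p.Prime → c p = 0

open Classical in
/-- the primes with `log p < u` -/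
noncomputable def prs (u : ℝ) : Finset ℕ :=
  (Finset.range (⌊Real.exp u⌋₊ + 1)).filter (fun p : ℕ => p.Prime ∧ Real.log p < u)

theorem mem_prs {u : ℝ} {p : ℕ} : p ∈ prs u ↔ p.Prime ∧ Real.log p < u := by
  classical
  unfold prs
  rw [Finset.mem_filter, Finset.mem_range]
  constructor
  · rintro ⟨_, h⟩
    exact h
  · rintro ⟨h1, h2⟩
    refine ⟨?_, h1, h2⟩
    have hp : (0 : ℝ) < p := by exact_mod_cast h1.pos
    have h3 : (p : ℝ) < Real.exp u := (Real.log_lt_iff_lt_exp hp).1 h2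
    have := Nat.le_floor h3.le
    omega

theorem mem_prs' {u : ℝ} {p : ℕ} : p ∈ prs u ↔ p.Prime ∧ (p : ℝ) < Real.exp u := by
  rw [mem_prs]
  refine and_congr_right fun h => ?_
  have hp : (0 : ℝ) < p := by exact_mod_cast h.pos
  exact Real.log_lt_iff_lt_exp hp

theorem prs_mono {u v : ℝ} (h : u ≤ v) : prs u ⊆ prs v := by
  intro p hp
  rw [mem_prs] at hp ⊢
  exact ⟨hp.1, hp.2.trans_le h⟩

theorem prs_log {x : ℕ} (hx : 1 ≤ x) : prs (Real.log x) = Nat.primesBelow x := by
  ext p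
  have hx0 : (0 : ℝ) < x := by exact_mod_cast hx
  rw [mem_prs', Nat.mem_primesBelow, Real.exp_log hx0, Nat.cast_lt, and_comm]

theorem prs_card (u : ℝ) : ((prs u).card : ℝ) ≤ Real.exp u := by
  have h1 : (prs u).card ≤ ⌊Real.exp u⌋₊ := by
    have h2 : prs u ⊆ Finset.Icc 1 ⌊Real.exp u⌋₊ := by
      intro p hp
      rw [mem_prs'] at hp
      rw [Finset.mem_Icc]
      exact ⟨hp.1.one_lt.le, Nat.le_floor hp.2.le⟩
    have h3 := Finset.card_le_card h2
    simpa using h3
  have h2 : ((prs u).card : ℝ) ≤ (⌊Real.exp u⌋₊ : ℝ) := by exact_mod_cast h1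
  exact h2.trans (Nat.floor_le (Real.exp_pos u).le)

theorem Av_prs {d : ℕ → ℂ} (hd : ∀ p : ℕ, ¬ p.Prime → d p = 0) (u : ℝ) :
    Av d u = ((Real.exp (-u) : ℝ) : ℂ) * ∑ p ∈ prs u, d p := by
  classical
  unfold Av AvX
  congr 1
  unfold prs
  symm
  refine Finset.sum_subset ?_ ?_
  · intro p hp
    rw [Finset.mem_filter] at hp ⊢
    exact ⟨hp.1, hp.2.2⟩
  · intro p hp hp'
    rw [Finset.mem_filter] at hp hp'
    refine hd p fun h => hp' ⟨hp.1, h, hp.2⟩

theorem norm_AvX_le {d : ℕ → ℂ} (hd : ∀ p : ℕ, ¬ p.Prime → d p = 0) (X : ℕ) (u : ℝ) :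
    ‖AvX d X u‖ ≤ Real.exp (-u) * ∑ p ∈ prs u, ‖d p‖ := by
  classical
  unfold AvX
  rw [norm_mul, Complex.norm_real, Real.norm_of_nonneg (Real.exp_pos _).le]
  refine mul_le_mul_of_nonneg_left ?_ (Real.exp_pos _).le
  refine (norm_sum_le _ _).trans ?_
  refine (Finset.sum_subset_zero_on_sdiff (s₁ := ((Finset.range X).filter
    (fun p : ℕ => Real.log p < u)).filter Nat.Prime) (Finset.filter_subset _ _) (fun p hp => ?_)
    (fun _ _ => rfl)).symm.le.trans ?_
  · rw [Finset.mem_sdiff, Finset.mem_filter (p := Nat.Prime)] at hp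
    rw [hd p (fun h => hp.2 ⟨hp.1, h⟩), norm_zero]
  · refine Finset.sum_le_sum_of_subset_of_nonneg ?_ fun _ _ _ => norm_nonneg _
    intro p hp
    rw [Finset.mem_filter, Finset.mem_filter] at hp
    rw [mem_prs]
    exact ⟨hp.2, hp.1.2⟩

/-- the sum of the logarithms -/
noncomputable def tm (u : ℝ) : ℝ := ∑ p ∈ prs u, Real.log p

theorem tm_le (u : ℝ) : tm u ≤ Chebyshev.theta (Real.exp u) := by
  unfold tm
  rw [Chebyshev.theta_eq_sum_Icc]
  refine Finset.sum_le_sum_of_subset_of_nonneg ?_ fun p _ _ => Real.log_natCast_nonneg p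
  intro p hp
  rw [mem_prs'] at hp
  rw [Finset.mem_filter, Finset.mem_Icc]
  exact ⟨⟨Nat.zero_le _, Nat.le_floor hp.2.le⟩, hp.1⟩

theorem le_tm {u : ℝ} (hu : 0 ≤ u) : Chebyshev.theta (Real.exp u) ≤ tm u + u := by
  classical
  rw [Chebyshev.theta_eq_sum_Icc]
  have h1 : (Finset.Icc 0 ⌊Real.exp u⌋₊).filter Nat.Prime ⊆ prs u ∪
      ({⌊Real.exp u⌋₊} : Finset ℕ) := by
    intro p hp
    rw [Finset.mem_filter, Finset.mem_Icc] at hp
    rw [Finset.mem_union, mem_prs', Finset.mem_singleton]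
    rcases eq_or_lt_of_le hp.1.2 with h | h
    · exact Or.inr h
    · left
      refine ⟨hp.2, ?_⟩
      have h2 : (p : ℝ) < (⌊Real.exp u⌋₊ : ℝ) := by exact_mod_cast h
      exact h2.trans_le (Nat.floor_le (Real.exp_pos u).le)
  refine (Finset.sum_le_sum_of_subset_of_nonneg h1 fun p _ _ =>
    Real.log_natCast_nonneg p).trans ?_
  refine (Finset.sum_union_inter (s₁ := prs u) (s₂ := {⌊Real.exp u⌋₊})
    (f := fun p : ℕ => Real.log p)).le.trans' ?_ |>.trans ?_
  · have : 0 ≤ ∑ p ∈ prs u ∩ ({⌊Real.exp u⌋₊} : Finset ℕ), Real.log (p : ℝ) :=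
      Finset.sum_nonneg fun p _ => Real.log_natCast_nonneg p
    linarith
  · rw [Finset.sum_singleton]
    have h1 : Real.log (⌊Real.exp u⌋₊ : ℝ) ≤ u := by
      have h2 : 1 ≤ Real.exp u := Real.one_le_exp hu
      have h3 : 1 ≤ ⌊Real.exp u⌋₊ := Nat.le_floor (by simpa using h2)
      have h4 : (0 : ℝ) < (⌊Real.exp u⌋₊ : ℝ) := by exact_mod_cast h3
      rw [Real.log_le_iff_le_exp h4]
      exact Nat.floor_le (Real.exp_pos u).le
    unfold tm
    linarith

/-- the normalised sum -/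
noncomputable def Th (u : ℝ) : ℝ := Real.exp (-u) * tm u

theorem Th_nonneg (u : ℝ) : 0 ≤ Th u :=
  mul_nonneg (Real.exp_pos _).le (Finset.sum_nonneg fun p _ => Real.log_natCast_nonneg p)

theorem Th_le (u : ℝ) : Th u ≤ Real.log 4 := by
  have h1 := (tm_le u).trans (Chebyshev.theta_le_log4_mul_x (Real.exp_pos u).le)
  unfold Th
  have h2 := mul_le_mul_of_nonneg_left h1 (Real.exp_pos (-u)).le
  refine h2.trans (le_of_eq ?_)
  rw [mul_comm (Real.log 4), ← mul_assoc, ← Real.exp_add]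
  simp

theorem log_four : Real.log 4 ≤ 3 / 2 := by
  have h1 : Real.log 4 = 2 * Real.log 2 := by
    rw [show (4 : ℝ) = 2 ^ 2 by norm_num, Real.log_pow]
    norm_num
  have := Real.log_two_lt_d9
  linarith

theorem Th_tendsto : Tendsto Th atTop (𝓝 1) := by
  have h1 : Tendsto (fun u : ℝ => Real.exp (-u) * Chebyshev.theta (Real.exp u)) atTop (𝓝 1) := by
    have h2 := Pool.Agent.Cov.PNT.theta_div_tendsto.comp Real.tendsto_exp_atTop
    refine h2.congr fun u => ?_
    simp only [Function.comp]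
    rw [Real.exp_neg, inv_mul_eq_div]
  have h3 : Tendsto (fun u : ℝ => u * Real.exp (-u)) atTop (𝓝 0) := by
    have := Real.tendsto_pow_mul_exp_neg_atTop_nhds_zero 1
    simpa using this
  refine tendsto_of_tendsto_of_tendsto_of_le_of_le' (by simpa using h1.sub h3) h1 ?_ ?_
  · filter_upwards [eventually_ge_atTop 0] with u hu
    have h4 := mul_le_mul_of_nonneg_left (le_tm hu) (Real.exp_pos (-u)).le
    unfold Th
    linarith
  · refine Eventually.of_forall fun u => ?_
    exact mul_le_mul_of_nonneg_left (tm_le u) (Real.exp_pos (-u)).le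

variable {c : ℕ → ℂ} {κ : ℝ}

theorem lw_zero (hc : PB c κ) (p : ℕ) (hp : ¬ p.Prime) : lw c p = 0 := by
  unfold lw
  rw [hc.2 p hp, zero_mul]

theorem norm_lw (hc : PB c κ) {p : ℕ} (hp : p.Prime) : ‖lw c p‖ ≤ κ * Real.log p := by
  unfold lw
  rw [norm_mul, Complex.norm_real, Real.norm_of_nonneg (Real.log_natCast_nonneg p)]
  exact mul_le_mul_of_nonneg_right (hc.1 p hp) (Real.log_natCast_nonneg p)

theorem PB.nonneg (hc : PB c κ) : 0 ≤ κ := (norm_nonneg _).trans (hc.1 2 Nat.prime_two)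

theorem PB.conj (hc : PB c κ) : PB (fun p => (starRingEnd ℂ) (c p)) κ := by
  refine ⟨fun p hp => ?_, fun p hp => ?_⟩
  · simp only [RCLike.norm_conj]
    exact hc.1 p hp
  · simp only [hc.2 p hp, map_zero]

theorem lw_conj (c : ℕ → ℂ) : lw (fun p => (starRingEnd ℂ) (c p)) =
    fun p => (starRingEnd ℂ) (lw c p) := by
  funext p
  unfold lw
  rw [map_mul, Complex.conj_ofReal]

theorem AvB_c (hc : PB c κ) : AvB c κ := by
  intro X u
  refine (norm_AvX_le hc.2 X u).trans ?_
  have h1 : ∑ p ∈ prs u, ‖c p‖ ≤ κ * Real.exp u := by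
    refine (Finset.sum_le_card_nsmul _ _ κ fun p hp => hc.1 p (mem_prs.1 hp).1).trans ?_
    rw [nsmul_eq_mul, mul_comm]
    exact mul_le_mul_of_nonneg_left (prs_card u) hc.nonneg
  have h2 := mul_le_mul_of_nonneg_left h1 (Real.exp_pos (-u)).le
  refine h2.trans (le_of_eq ?_)
  rw [mul_comm κ, ← mul_assoc, ← Real.exp_add]
  simp

theorem sum_lw_le (hc : PB c κ) (s : Finset ℕ) (hs : ∀ p ∈ s, p.Prime) :
    ∑ p ∈ s, ‖lw c p‖ ≤ κ * ∑ p ∈ s, Real.log p := by
  rw [Finset.mul_sum]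
  exact Finset.sum_le_sum fun p hp => norm_lw hc (hs p hp)

theorem AvB_lw (hc : PB c κ) : AvB (lw c) (κ * Real.log 4) := by
  intro X u
  refine (norm_AvX_le (lw_zero hc) X u).trans ?_
  have h1 := sum_lw_le hc (prs u) fun p hp => (mem_prs.1 hp).1
  have h2 := mul_le_mul_of_nonneg_left h1 (Real.exp_pos (-u)).le
  refine h2.trans ?_
  have h3 := mul_le_mul_of_nonneg_left (Th_le u) hc.nonneg
  unfold Th tm at h3
  linarith

theorem pi_div_tendsto : Tendsto (fun u : ℝ => Real.exp (-u) * ((prs u).card : ℝ)) atTop (𝓝 0) := by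
  have h1 := Pool.Agent.Cov.PNT.pi_tendsto.comp Real.tendsto_exp_atTop
  have h2 : Tendsto (fun u : ℝ => u⁻¹) atTop (𝓝 0) := tendsto_inv_atTop_zero
  have h3 := h1.mul h2
  rw [one_mul] at h3
  refine squeeze_zero' (Eventually.of_forall fun u => by positivity) ?_ h3
  filter_upwards [eventually_gt_atTop 0] with u hu
  simp only [Function.comp]
  rw [Real.log_exp, mul_div_assoc, mul_assoc, div_mul_eq_mul_div, mul_inv_cancel₀ hu.ne',
    Real.exp_neg, one_div, mul_comm]
  refine mul_le_mul_of_nonneg_right ?_ (by positivity)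
  have h4 : (prs u).card ≤ Nat.primeCounting ⌊Real.exp u⌋₊ := by
    rw [Nat.primeCounting, Nat.primeCounting', Nat.count_eq_card_filter_range]
    refine Finset.card_le_card ?_
    intro p hp
    rw [mem_prs'] at hp
    rw [Finset.mem_filter, Finset.mem_range]
    exact ⟨Nat.lt_succ_of_le (Nat.le_floor hp.2.le), hp.1⟩
  exact_mod_cast h4

theorem Av_c_tendsto (hc : PB c κ) : Tendsto (Av c) atTop (𝓝 0) := by
  rw [tendsto_zero_iff_norm_tendsto_zero]
  refine squeeze_zero (fun u => norm_nonneg _) (fun u => ?_)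
    ((pi_div_tendsto.const_mul κ).trans (by rw [mul_zero]))
  refine (norm_AvX_le hc.2 _ u).trans ?_
  have h1 : ∑ p ∈ prs u, ‖c p‖ ≤ (prs u).card * κ := by
    refine (Finset.sum_le_card_nsmul _ _ κ fun p hp => hc.1 p (mem_prs.1 hp).1).trans ?_
    rw [nsmul_eq_mul]
  have h2 := mul_le_mul_of_nonneg_left h1 (Real.exp_pos (-u)).le
  linarith

/-- the difference of two averages -/
theorem Av_sub_le (hc : PB c κ) {u v : ℝ} (h : u ≤ v) :
    ‖Av (lw c) v - Av (lw c) u‖ ≤ κ * (Th v + Th u - 2 * Real.exp (-(v - u)) * Th u) := by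
  rw [Av_prs (lw_zero hc), Av_prs (lw_zero hc)]
  have h1 : ∑ p ∈ prs v, lw c p = ∑ p ∈ prs u, lw c p + ∑ p ∈ prs v \ prs u, lw c p := by
    rw [add_comm, Finset.sum_sdiff (prs_mono h)]
  have h1' : tm v = tm u + ∑ p ∈ prs v \ prs u, Real.log (p : ℝ) := by
    unfold tm
    rw [add_comm, Finset.sum_sdiff (prs_mono h)]
  have h2 : ((Real.exp (-v) : ℝ) : ℂ) * ∑ p ∈ prs v, lw c p -
      ((Real.exp (-u) : ℝ) : ℂ) * ∑ p ∈ prs u, lw c p =
      ((Real.exp (-v) : ℝ) : ℂ) * ∑ p ∈ prs v \ prs u, lw c p -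
        ((Real.exp (-u) - Real.exp (-v) : ℝ) : ℂ) * ∑ p ∈ prs u, lw c p := by
    rw [h1]
    push_cast
    ring
  rw [h2]
  refine (norm_sub_le _ _).trans ?_
  have hexp : Real.exp (-v) ≤ Real.exp (-u) := Real.exp_le_exp.2 (by linarith)
  rw [norm_mul, norm_mul, Complex.norm_real, Complex.norm_real,
    Real.norm_of_nonneg (Real.exp_pos _).le, Real.norm_of_nonneg (by linarith)]
  have h3 : ‖∑ p ∈ prs v \ prs u, lw c p‖ ≤ κ * (tm v - tm u) := by
    refine (norm_sum_le _ _).trans ?_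
    have := sum_lw_le hc (prs v \ prs u) fun p hp => (mem_prs.1 (Finset.mem_sdiff.1 hp).1).1
    rw [h1']
    linarith
  have h4 : ‖∑ p ∈ prs u, lw c p‖ ≤ κ * tm u := by
    refine (norm_sum_le _ _).trans ?_
    exact sum_lw_le hc (prs u) fun p hp => (mem_prs.1 hp).1
  have h5 := mul_le_mul_of_nonneg_left h3 (Real.exp_pos (-v)).le
  have h6 := mul_le_mul_of_nonneg_left h4 (show 0 ≤ Real.exp (-u) - Real.exp (-v) by linarith)
  have h7 : Real.exp (-(v - u)) * Th u = Real.exp (-v) * tm u := by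
    unfold Th
    rw [← mul_assoc, ← Real.exp_add]
    congr 2
    ring
  have h8 : Th v = Real.exp (-v) * tm v := rfl
  have h9 : Th u = Real.exp (-u) * tm u := rfl
  have h10 : κ * (Th v + Th u - 2 * Real.exp (-(v - u)) * Th u) =
      Real.exp (-v) * (κ * (tm v - tm u)) + (Real.exp (-u) - Real.exp (-v)) * (κ * tm u) := by
    rw [mul_assoc 2, h7, h8, h9]
    ring
  rw [h10]
  linarith

theorem slow_lw (hc : PB c κ) : Slow (lw c) (3 * κ) := by
  intro ε hε
  have hκ := hc.nonneg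
  set δ : ℝ := ε / (4 * κ + 1) with hδ
  have hδ0 : 0 < δ := by positivity
  have h1 := (Metric.tendsto_nhds.1 Th_tendsto) δ hδ0
  obtain ⟨X, hX⟩ := eventually_atTop.1 h1
  have key : ∀ u v : ℝ, X ≤ u → u ≤ v → ‖Av (lw c) v - Av (lw c) u‖ ≤ 3 * κ * (v - u) + ε := by
    intro u v hu huv
    refine (Av_sub_le hc huv).trans ?_
    have h2 := (abs_lt.1 (hX u hu))
    have h3 := (abs_lt.1 (hX v (hu.trans huv)))
    have h4 : 1 - (v - u) ≤ Real.exp (-(v - u)) := by
      have := Real.add_one_le_exp (-(v - u))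
      linarith
    have h5 : Real.exp (-(v - u)) ≤ 1 := Real.exp_le_one_iff.2 (by linarith)
    have h6 : 0 < Real.exp (-(v - u)) := Real.exp_pos _
    have h7 : Th v + Th u - 2 * Real.exp (-(v - u)) * Th u ≤ 2 * (v - u) + 4 * δ := by
      have e1 : Real.exp (-(v - u)) * (1 - δ) ≤ Real.exp (-(v - u)) * Th u :=
        mul_le_mul_of_nonneg_left (by linarith) h6.le
      have e2 : Real.exp (-(v - u)) * δ ≤ δ := mul_le_of_le_one_left hδ0.le h5
      nlinarith
    have h8 := mul_le_mul_of_nonneg_left h7 hκ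
    have h9 : κ * (4 * δ) ≤ ε := by
      have : δ * (4 * κ + 1) = ε := div_mul_cancel₀ _ (by positivity)
      nlinarith
    nlinarith [mul_nonneg hκ (show 0 ≤ v - u by linarith)]
  filter_upwards [eventually_ge_atTop (X + 1)] with x hx v
  rcases le_or_gt |v| 1 with hv | hv
  · rw [abs_le] at hv
    rcases le_total 0 v with h0 | h0
    · rw [abs_of_nonneg h0]
      have := key (x - v) x (by linarith) (by linarith)
      rwa [sub_sub_cancel] at this
    · rw [abs_of_nonpos h0]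
      have := key x (x - v) (by linarith) (by linarith)
      rw [norm_sub_rev] at this
      rwa [show x - v - x = -v by ring] at this
  · have h2 := Av_bound (AvB_lw hc) x
    have h3 := Av_bound (AvB_lw hc) (x - v)
    have h4 := log_four
    have h5 : κ * Real.log 4 ≤ κ * (3 / 2) := mul_le_mul_of_nonneg_left h4 hκ
    have h6 := norm_sub_le (Av (lw c) x) (Av (lw c) (x - v))
    nlinarith [mul_le_mul_of_nonneg_left hv.le hκ]

/-- the average over the primes below `x` -/
noncomputable def pav (c : ℕ → ℂ) (x : ℕ) : ℂ :=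
  (∑ p ∈ Nat.primesBelow x, c p) / ((Nat.primesBelow x).card : ℂ)

theorem norm_pav (hc : PB c κ) (x : ℕ) : ‖pav c x‖ ≤ κ := by
  unfold pav
  rw [norm_div, Complex.norm_natCast]
  have h1 : ‖∑ p ∈ Nat.primesBelow x, c p‖ ≤ (Nat.primesBelow x).card * κ := by
    refine (norm_sum_le _ _).trans ?_
    refine (Finset.sum_le_card_nsmul _ _ κ fun p hp =>
      hc.1 p (Nat.prime_of_mem_primesBelow hp)).trans ?_
    rw [nsmul_eq_mul]
  rcases Nat.eq_zero_or_pos (Nat.primesBelow x).card with h | h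
  · rw [h]
    simp [hc.nonneg]
  · rw [div_le_iff₀ (by exact_mod_cast h), mul_comm]
    exact h1

theorem card_log_tendsto : Tendsto (fun x : ℕ => ((Nat.primesBelow x).card : ℝ) * Real.log x / x)
    atTop (𝓝 1) := by
  have h1 := Pool.Agent.Cov.PNT.pi_tendsto.comp tendsto_natCast_atTop_atTop (α := ℕ)
  have h2 : Tendsto (fun x : ℕ => Real.log x / x) atTop (𝓝 0) := by
    have h3 : Tendsto (fun x : ℝ => Real.log x / x) atTop (𝓝 0) := by
      have := Real.tendsto_pow_log_div_mul_add_atTop 1 0 1 one_ne_zero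
      simpa using this
    exact h3.comp tendsto_natCast_atTop_atTop
  refine tendsto_of_tendsto_of_tendsto_of_le_of_le (by simpa using h1.sub h2) h1 ?_ ?_
  · intro x
    simp only [Function.comp, Nat.floor_natCast, Pi.sub_apply]
    rw [div_sub_div_same]
    refine div_le_div_of_nonneg_right ?_ (Nat.cast_nonneg x)
    have h4 : (Nat.primeCounting x : ℝ) ≤ (Nat.primesBelow x).card + 1 := by
      have : Nat.primeCounting x ≤ (Nat.primesBelow x).card + 1 := by
        rw [Nat.primeCounting, Nat.primeCounting', Nat.count_succ, Nat.primesBelow,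
          ← Nat.count_eq_card_filter_range]
        split_ifs <;> omega
      exact_mod_cast this
    nlinarith [Real.log_natCast_nonneg x]
  · intro x
    simp only [Function.comp, Nat.floor_natCast]
    refine div_le_div_of_nonneg_right ?_ (Nat.cast_nonneg x)
    refine mul_le_mul_of_nonneg_right ?_ (Real.log_natCast_nonneg x)
    have : (Nat.primesBelow x).card ≤ Nat.primeCounting x := by
      rw [Nat.primeCounting, Nat.primeCounting', Nat.count_succ, Nat.primesBelow,
        ← Nat.count_eq_card_filter_range]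
      omega
    exact_mod_cast this

/-- the two averages along the integers -/
theorem Av_sub_pav (hc : PB c κ) :
    Tendsto (fun x : ℕ => Av (lw c) (Real.log x) - pav c x) atTop (𝓝 0) := by
  rw [tendsto_zero_iff_norm_tendsto_zero]
  have hlog : Tendsto (fun x : ℕ => Real.log (x : ℝ)) atTop atTop :=
    Real.tendsto_log_atTop.comp tendsto_natCast_atTop_atTop
  have h1 := Th_tendsto.comp hlog
  have h2 := card_log_tendsto
  have h3 : Tendsto (fun x : ℕ => κ * (((Nat.primesBelow x).card : ℝ) * Real.log x / x -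
      Th (Real.log x)) + |((Nat.primesBelow x).card : ℝ) * Real.log x / x - 1| * κ) atTop
      (𝓝 0) := by
    have := ((h2.sub h1).const_mul κ).add (((h2.sub_const 1).abs).mul_const κ)
    simpa using this
  refine squeeze_zero' (Eventually.of_forall fun x => norm_nonneg _) ?_ h3
  filter_upwards [eventually_ge_atTop 3] with x hx
  have hx1 : 1 ≤ x := by omega
  have hx0 : (0 : ℝ) < x := by exact_mod_cast (by omega : 0 < x)
  have hcard : 0 < (Nat.primesBelow x).card := Finset.card_pos.2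
    ⟨2, Nat.mem_primesBelow.2 ⟨by omega, Nat.prime_two⟩⟩
  have hcard' : ((Nat.primesBelow x).card : ℂ) ≠ 0 := by exact_mod_cast hcard.ne'
  have hxc : (x : ℂ) ≠ 0 := by exact_mod_cast hx0.ne'
  have hexp : Real.exp (-Real.log x) = (x : ℝ)⁻¹ := by rw [Real.exp_neg, Real.exp_log hx0]
  have e1 : Av (lw c) (Real.log x) - pav c x =
      (x : ℂ)⁻¹ * (∑ p ∈ Nat.primesBelow x, (lw c p - c p * (Real.log x : ℝ))) +
        ((((Nat.primesBelow x).card : ℝ) * Real.log x / x - 1 : ℝ) : ℂ) * pav c x := by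
    rw [Av_prs (lw_zero hc), prs_log hx1, hexp, Finset.sum_sub_distrib, ← Finset.sum_mul]
    unfold pav
    push_cast
    field_simp
    ring
  rw [e1]
  refine (norm_add_le _ _).trans (add_le_add ?_ ?_)
  · rw [norm_mul, norm_inv, Complex.norm_natCast]
    have e2 : ‖∑ p ∈ Nat.primesBelow x, (lw c p - c p * (Real.log x : ℝ))‖ ≤
        κ * (((Nat.primesBelow x).card : ℝ) * Real.log x - tm (Real.log x)) := by
      refine (norm_sum_le_of_le (n := fun p : ℕ => κ * (Real.log x - Real.log p)) _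
        fun p hp => ?_).trans (le_of_eq ?_)
      · rw [Nat.mem_primesBelow] at hp
        have hp0 : (0 : ℝ) < p := by exact_mod_cast hp.2.pos
        have hpx : (p : ℝ) ≤ x := by exact_mod_cast hp.1.le
        have : lw c p - c p * (Real.log x : ℝ) = c p * ((Real.log p - Real.log x : ℝ) : ℂ) := by
          unfold lw
          push_cast
          ring
        rw [this, norm_mul, Complex.norm_real, Real.norm_eq_abs, abs_sub_comm,
          abs_of_nonneg (sub_nonneg.2 (Real.log_le_log hp0 hpx))]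
        exact mul_le_mul_of_nonneg_right (hc.1 p hp.2)
          (sub_nonneg.2 (Real.log_le_log hp0 hpx))
      · unfold tm
        rw [prs_log hx1, ← Finset.mul_sum, Finset.sum_sub_distrib, Finset.sum_const,
          nsmul_eq_mul]
    have e3 := mul_le_mul_of_nonneg_left e2 (inv_pos.2 hx0).le
    refine e3.trans (le_of_eq ?_)
    unfold Th
    rw [hexp]
    field_simp
  · rw [norm_mul, Complex.norm_real, Real.norm_eq_abs]
    exact mul_le_mul_of_nonneg_left (norm_pav hc x) (abs_nonneg _)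

/-- the averages over the reals and the integers -/
theorem Av_ceil {d : ℕ → ℂ} (hd : ∀ p : ℕ, ¬ p.Prime → d p = 0) (u : ℝ) :
    Av d u = (((⌈Real.exp u⌉₊ : ℝ) * Real.exp (-u) : ℝ) : ℂ) *
      Av d (Real.log (⌈Real.exp u⌉₊ : ℝ)) := by
  have h1 : 1 ≤ ⌈Real.exp u⌉₊ := Nat.one_le_ceil_iff.2 (Real.exp_pos u)
  have h0 : (0 : ℝ) < (⌈Real.exp u⌉₊ : ℝ) := by exact_mod_cast h1
  rw [Av_prs hd, Av_prs hd, prs_log h1, Real.exp_neg (Real.log _), Real.exp_log h0]
  have h2 : prs u = Nat.primesBelow ⌈Real.exp u⌉₊ := by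
    ext p
    rw [mem_prs', Nat.mem_primesBelow, Nat.lt_ceil, and_comm]
  rw [h2, ← mul_assoc]
  congr 1
  have h3 : (((⌈Real.exp u⌉₊ : ℝ)) : ℂ) ≠ 0 := by exact_mod_cast h0.ne'
  push_cast
  push_cast at h3
  field_simp

theorem ceil_tendsto : Tendsto (fun u : ℝ => (⌈Real.exp u⌉₊ : ℝ) * Real.exp (-u)) atTop (𝓝 1) := by
  have h1 : Tendsto (fun u : ℝ => 1 + Real.exp (-u)) atTop (𝓝 1) := by
    simpa using Real.tendsto_exp_neg_atTop_nhds_zero.const_add 1
  refine tendsto_of_tendsto_of_tendsto_of_le_of_le tendsto_const_nhds h1 ?_ ?_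
  · intro u
    have h2 : Real.exp u ≤ (⌈Real.exp u⌉₊ : ℝ) := Nat.le_ceil _
    have h3 := mul_le_mul_of_nonneg_right h2 (Real.exp_pos (-u)).le
    rwa [← Real.exp_add, add_neg_cancel, Real.exp_zero] at h3
  · intro u
    have h2 : (⌈Real.exp u⌉₊ : ℝ) ≤ Real.exp u + 1 := (Nat.ceil_lt_add_one (Real.exp_pos u).le).le
    have h3 := mul_le_mul_of_nonneg_right h2 (Real.exp_pos (-u)).le
    rw [add_mul, ← Real.exp_add, add_neg_cancel, Real.exp_zero, one_mul] at h3
    exact h3

theorem Av_real_sub (hc : PB c κ) :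
    Tendsto (fun u : ℝ => Av (lw c) u - pav c ⌈Real.exp u⌉₊) atTop (𝓝 0) := by
  have hceil : Tendsto (fun u : ℝ => ⌈Real.exp u⌉₊) atTop atTop :=
    tendsto_nat_ceil_atTop.comp Real.tendsto_exp_atTop
  have h1 := (Av_sub_pav hc).comp hceil
  have h2 : Tendsto (fun u : ℝ => ((((⌈Real.exp u⌉₊ : ℝ) * Real.exp (-u) - 1 : ℝ)) : ℂ) *
      Av (lw c) (Real.log (⌈Real.exp u⌉₊ : ℝ))) atTop (𝓝 0) := by
    rw [tendsto_zero_iff_norm_tendsto_zero]
    have h3 : Tendsto (fun u : ℝ => |(⌈Real.exp u⌉₊ : ℝ) * Real.exp (-u) - 1| *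
        (κ * Real.log 4)) atTop (𝓝 0) := by
      have := ((ceil_tendsto.sub_const 1).abs).mul_const (κ * Real.log 4)
      simpa using this
    refine squeeze_zero (fun u => norm_nonneg _) (fun u => ?_) h3
    rw [norm_mul, Complex.norm_real, Real.norm_eq_abs]
    exact mul_le_mul_of_nonneg_left (Av_bound (AvB_lw hc) _) (abs_nonneg _)
  have h3 := h1.add h2
  rw [add_zero] at h3
  refine h3.congr fun u => ?_
  simp only [Function.comp]
  rw [Av_ceil (lw_zero hc) u]
  push_cast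
  ring

theorem tendsto_Av_iff (hc : PB c κ) {ρ : ℂ} :
    Tendsto (Av (lw c)) atTop (𝓝 ρ) ↔ Tendsto (pav c) atTop (𝓝 ρ) := by
  constructor
  · intro h
    have hlog : Tendsto (fun x : ℕ => Real.log (x : ℝ)) atTop atTop :=
      Real.tendsto_log_atTop.comp tendsto_natCast_atTop_atTop
    have h1 := (h.comp hlog).sub (Av_sub_pav hc)
    rw [sub_zero] at h1
    refine h1.congr fun x => ?_
    simp
  · intro h
    have hceil : Tendsto (fun u : ℝ => ⌈Real.exp u⌉₊) atTop atTop :=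
      tendsto_nat_ceil_atTop.comp Real.tendsto_exp_atTop
    have h1 := (h.comp hceil).add (Av_real_sub hc)
    rw [add_zero] at h1
    refine h1.congr fun x => ?_
    simp

theorem eventually_pav (hc : PB c κ) {ρ : ℂ} {B : ℝ}
    (h : ∀ ε : ℝ, 0 < ε → ∀ᶠ x : ℝ in atTop, ‖Av (lw c) x - ρ‖ ≤ B + ε) (ε : ℝ) (hε : 0 < ε) :
    ∀ᶠ x : ℕ in atTop, ‖pav c x - ρ‖ ≤ B + ε := by
  have hlog : Tendsto (fun x : ℕ => Real.log (x : ℝ)) atTop atTop :=
    Real.tendsto_log_atTop.comp tendsto_natCast_atTop_atTop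
  have h1 := hlog.eventually (h (ε / 2) (by linarith))
  have h2 := (Metric.tendsto_nhds.1 (Av_sub_pav hc)) (ε / 2) (by linarith)
  filter_upwards [h1, h2] with x hx1 hx2
  rw [dist_zero_right] at hx2
  have : pav c x - ρ = (Av (lw c) (Real.log x) - ρ) - (Av (lw c) (Real.log x) - pav c x) := by
    ring
  rw [this]
  refine (norm_sub_le _ _).trans ?_
  linarith

end Pool.Agent.Q255.SG
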