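import Pool.Agent.Q255.SG.TA4
import Pool.Agent.Q255.SG.Line
import Pool.Agent.Q255.SG.QSys

/-! # The logarithm of the modulus against test functions -/

set_option autoImplicit false

namespace Pool.Agent.Q255.SG

open MeasureTheory Filter Topology FourierTransform Pool.Agent.Q255.SA

theorem w_real {f : ℕ → ℝ → ℝ} {g : ℝ → ℝ} (hf : ∀ x, Continuous (f x))
    (hg : AEMeasurable g volume) {B : ℕ → ℝ} (hB : Tendsto B atTop (𝓝 0)) (hB0 : ∀ x, 0 ≤ B x)
    (h : ∀ x, 3 ≤ x → ∀ a : ℝ, ∫⁻ t in Set.Icc a (a + 1), ENNReal.ofReal ((g t - f x t) ^ 2) ≤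
      ENNReal.ofReal (B x)) {m : ℝ → ℝ} (hm : Continuous m) {C R : ℝ}
    (hmC : ∀ t, |m t| ≤ C) (hR : 0 ≤ R) (hmR : ∀ t, R ≤ |t| → m t = 0) :
    Integrable (fun t => g t * m t) ∧
      Tendsto (fun x => ∫ t, f x t * m t) atTop (𝓝 (∫ t, g t * m t)) := by
  have hC : 0 ≤ C := (abs_nonneg _).trans (hmC 0)
  have key := l1_aux (f := fun x t => f x t * m t) (g := fun t => g t * m t)
    (B := fun x => C ^ 2 * B x) (fun x => (hf x).mul hm) (hg.mul hm.measurable.aemeasurable)
    (by simpa using hB.const_mul (C ^ 2)) (fun x => by have := hB0 x; positivity) (fun x hx a => by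
      calc ∫⁻ t in Set.Icc a (a + 1), ENNReal.ofReal ((g t * m t - f x t * m t) ^ 2)
          ≤ ∫⁻ t in Set.Icc a (a + 1), ENNReal.ofReal (C ^ 2) *
              ENNReal.ofReal ((g t - f x t) ^ 2) := by
            refine lintegral_mono fun t => ?_
            simp only []
            rw [← ENNReal.ofReal_mul (by positivity)]
            refine ENNReal.ofReal_le_ofReal ?_
            rw [← sub_mul, mul_pow, mul_comm]
            refine mul_le_mul_of_nonneg_right ?_ (sq_nonneg _)
            rw [← sq_abs]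
            exact pow_le_pow_left₀ (abs_nonneg _) (hmC t) 2
        _ = ENNReal.ofReal (C ^ 2) * ∫⁻ t in Set.Icc a (a + 1),
              ENNReal.ofReal ((g t - f x t) ^ 2) :=
            lintegral_const_mul' _ _ ENNReal.ofReal_ne_top
        _ ≤ ENNReal.ofReal (C ^ 2) * ENNReal.ofReal (B x) := by
            gcongr
            exact h x hx a
        _ = _ := by rw [← ENNReal.ofReal_mul (by positivity)]) (y := -R) (y' := R) (by linarith)
  have hz : ∀ k : ℝ → ℝ, Function.support (fun t => k t * m t) ⊆ Set.Ioc (-R) R := by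
    intro k t ht
    by_contra hc
    refine ht ?_
    simp only []
    rw [hmR t ?_, mul_zero]
    rw [Set.mem_Ioc, not_and_or, not_lt, not_le] at hc
    rcases hc with hc | hc
    · rw [abs_of_nonpos (by linarith)]
      linarith
    · rw [abs_of_nonneg (by linarith)]
      linarith
  have hi : ∀ k : ℝ → ℝ, ∫ t in (-R)..R, k t * m t = ∫ t, k t * m t := fun k =>
    intervalIntegral.integral_eq_integral_of_support_subset (hz k)
  simp only [hi] at key
  refine ⟨?_, key.2⟩
  have h1 := key.1
  rw [intervalIntegrable_iff_integrableOn_Ioc_of_le (by linarith)] at h1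
  rwa [integrableOn_iff_integrable_of_support_subset (hz g)] at h1

theorem w_tendsto {f : ℕ → ℝ → ℝ} {g : ℝ → ℝ} (hf : ∀ x, Continuous (f x))
    (hg : AEMeasurable g volume) {B : ℕ → ℝ} (hB : Tendsto B atTop (𝓝 0)) (hB0 : ∀ x, 0 ≤ B x)
    (h : ∀ x, 3 ≤ x → ∀ a : ℝ, ∫⁻ t in Set.Icc a (a + 1), ENNReal.ofReal ((g t - f x t) ^ 2) ≤
      ENNReal.ofReal (B x)) {k : ℝ → ℂ} (hk : Continuous k) {C R : ℝ}
    (hkC : ∀ t, ‖k t‖ ≤ C) (hR : 0 ≤ R) (hkR : ∀ t, R ≤ |t| → k t = 0) :
    Integrable (fun t => (g t : ℂ) * k t) ∧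
      Tendsto (fun x => ∫ t, (f x t : ℂ) * k t) atTop (𝓝 (∫ t, (g t : ℂ) * k t)) := by
  have h1 := w_real hf hg hB hB0 h (m := fun t => (k t).re) (Complex.continuous_re.comp hk)
    (fun t => (Complex.abs_re_le_norm _).trans (hkC t)) hR fun t ht => by
      simp only [hkR t ht, Complex.zero_re]
  have h2 := w_real hf hg hB hB0 h (m := fun t => (k t).im) (Complex.continuous_im.comp hk)
    (fun t => (Complex.abs_im_le_norm _).trans (hkC t)) hR fun t ht => by
      simp only [hkR t ht, Complex.zero_im]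
  have hfi : ∀ x, Integrable (fun t => (f x t : ℂ) * k t) := by
    intro x
    refine Continuous.integrable_of_hasCompactSupport
      ((Complex.continuous_ofReal.comp (hf x)).mul hk) ?_
    refine HasCompactSupport.of_support_subset_isCompact (isCompact_Icc (a := -R) (b := R)) ?_
    intro t ht
    by_contra hc
    refine ht ?_
    simp only []
    rw [hkR t ?_, mul_zero]
    rw [Set.mem_Icc, not_and_or, not_le, not_le] at hc
    rcases hc with hc | hc
    · rw [abs_of_nonpos (by linarith)]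
      linarith
    · rw [abs_of_nonneg (by linarith)]
      linarith
  have hgi : Integrable (fun t => (g t : ℂ) * k t) := by
    have h3 := h1.1.ofReal (𝕜 := ℂ) |>.add (h2.1.ofReal (𝕜 := ℂ) |>.mul_const Complex.I)
    refine h3.congr (Eventually.of_forall fun t => ?_)
    simp only [Pi.add_apply]
    conv_rhs => rw [← Complex.re_add_im (k t)]
    simp only [Complex.coe_algebraMap, Complex.ofReal_mul]
    ring
  refine ⟨hgi, ?_⟩
  have key : ∀ q : ℝ → ℝ, Integrable (fun t => (q t : ℂ) * k t) →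
      ∫ t, (q t : ℂ) * k t = ((∫ t, q t * (k t).re : ℝ) : ℂ) +
        ((∫ t, q t * (k t).im : ℝ) : ℂ) * Complex.I := by
    intro q hq
    refine Complex.ext ?_ ?_
    · simp only [Complex.add_re, Complex.ofReal_re, Complex.mul_re, Complex.I_re, mul_zero,
        Complex.ofReal_im, zero_mul, sub_zero, add_zero]
      have := integral_re (𝕜 := ℂ) hq
      simp only [RCLike.re_eq_complex_re] at this
      rw [← this]
      refine integral_congr_ae (Eventually.of_forall fun t => ?_)
      simp
    · simp only [Complex.add_im, Complex.ofReal_im, Complex.mul_im, Complex.I_im, mul_one,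
        Complex.ofReal_re, Complex.I_re, mul_zero, add_zero, zero_add]
      have := integral_im (𝕜 := ℂ) hq
      simp only [RCLike.im_eq_complex_im] at this
      rw [← this]
      refine integral_congr_ae (Eventually.of_forall fun t => ?_)
      simp
  rw [key g hgi]
  simp only [fun x => key (f x) (hfi x)]
  exact ((Complex.continuous_ofReal.tendsto _).comp h1.2).add
    (((Complex.continuous_ofReal.tendsto _).comp h2.2).mul_const _)

/-! ### The prime sum -/

variable {φ : ℝ → ℂ}

theorem Tst.mul_cont (h : Tst φ) {g : ℝ → ℂ} (hg : Continuous g) :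
    Integrable fun t => g t * φ t :=
  (hg.mul h.continuous).integrable_of_hasCompactSupport h.2.mul_left

theorem term_int (h : Tst φ) (a : ℂ) (k : ℕ) (x : ℝ) :
    ∫ t : ℝ, (((a * (ee t k / k)).re : ℝ) : ℂ) * (φ t * Complex.exp (Complex.I * x * t)) =
      1 / 2 * (a / k * FT φ (x - Real.log k)) +
        1 / 2 * ((starRingEnd ℂ) a / k * FT φ (x + Real.log k)) := by
  have e1 : ∀ t : ℝ, (((a * (ee t k / k)).re : ℝ) : ℂ) * (φ t * Complex.exp (Complex.I * x * t)) =
      1 / 2 * (a / k) * (φ t * Complex.exp (Complex.I * ((x - Real.log k : ℝ) : ℂ) * t)) +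
        1 / 2 * ((starRingEnd ℂ) a / k) *
          (φ t * Complex.exp (Complex.I * ((x + Real.log k : ℝ) : ℂ) * t)) := by
    intro t
    have h1 : (((a * (ee t k / k)).re : ℝ) : ℂ) =
        (a * (ee t k / k) + (starRingEnd ℂ) (a * (ee t k / k))) / 2 := by
      rw [Complex.re_eq_add_conj]
    have h2 : Complex.exp (Complex.I * ((x - Real.log k : ℝ) : ℂ) * t) =
        ee t k * Complex.exp (Complex.I * x * t) := by
      unfold ee
      rw [← Complex.exp_add]
      congr 1
      push_cast
      ring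
    have h3 : Complex.exp (Complex.I * ((x + Real.log k : ℝ) : ℂ) * t) =
        (starRingEnd ℂ) (ee t k) * Complex.exp (Complex.I * x * t) := by
      unfold ee
      rw [← Complex.exp_conj, ← Complex.exp_add]
      congr 1
      simp only [map_mul, map_neg, Complex.conj_ofReal, Complex.conj_I]
      push_cast
      ring
    rw [h1, h2, h3, map_mul, map_div₀, Complex.conj_natCast]
    ring
  simp only [e1]
  have hi : ∀ u : ℝ, Integrable fun t : ℝ => φ t * Complex.exp (Complex.I * (u : ℂ) * t) := by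
    intro u
    have := h.mul_cont (g := fun t : ℝ => Complex.exp (Complex.I * (u : ℂ) * t)) (by fun_prop)
    refine this.congr (Eventually.of_forall fun t => ?_)
    simp only []
    ring
  rw [integral_add ((hi _).const_mul _) ((hi _).const_mul _), integral_const_mul,
    integral_const_mul]
  unfold FT
  ring

theorem x_FT (h : Tst φ) (x y : ℝ) : (x : ℂ) * FT φ (x - y) =
    FT (fun t => Complex.I * deriv φ t) (x - y) + (y : ℂ) * FT φ (x - y) := by
  rw [← FT_mul_var h]
  push_cast
  ring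

/-- the prime part of the integral -/
theorem prime_part (h : Tst φ) {c : ℕ → ℂ} {κ : ℝ} (hc : PB c κ) (X : ℕ) (x : ℝ) :
    (x : ℂ) * ∫ t : ℝ, (((CS c 0 X t).re : ℝ) : ℂ) * (φ t * Complex.exp (Complex.I * x * t)) =
      1 / 2 * (SX c (fun t => Complex.I * deriv φ t) X x + SX (lw c) φ X x +
        SX (fun p => (starRingEnd ℂ) (c p)) (fun t => Complex.I * deriv φ (-t)) X (-x) -
        SX (lw fun p => (starRingEnd ℂ) (c p)) (fun t => φ (-t)) X (-x)) := by
  have e1 : ∀ t : ℝ, (((CS c 0 X t).re : ℝ) : ℂ) * (φ t * Complex.exp (Complex.I * x * t)) =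
      ∑ k ∈ Finset.range X, (((c k * (ee t k / k)).re : ℝ) : ℂ) *
        (φ t * Complex.exp (Complex.I * x * t)) := by
    intro t
    unfold CS
    rw [Complex.re_sum, ← Finset.range_eq_Ico]
    push_cast
    rw [Finset.sum_mul]
  simp only [e1]
  have hcont : ∀ k : ℕ, Continuous fun t : ℝ => (((c k * (ee t k / k)).re : ℝ) : ℂ) := by
    intro k
    unfold ee
    fun_prop
  rw [integral_finset_sum]
  · simp only [term_int h]
    unfold SX
    rw [Finset.mul_sum, ← Finset.sum_add_distrib, ← Finset.sum_add_distrib,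
      ← Finset.sum_sub_distrib, Finset.mul_sum]
    refine Finset.sum_congr rfl fun k _ => ?_
    have h1 := x_FT h x (Real.log k)
    have h2 := x_FT h x (-Real.log k)
    rw [sub_neg_eq_add] at h2
    have h3 : FT (fun t => Complex.I * deriv φ (-t)) (-x - Real.log k) =
        FT (fun t => Complex.I * deriv φ t) (x + Real.log k) := by
      rw [FT_neg (fun t => Complex.I * deriv φ t)]
      congr 1
      ring
    have h4 : FT (fun t => φ (-t)) (-x - Real.log k) = FT φ (x + Real.log k) := by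
      rw [FT_neg φ]
      congr 1
      ring
    rw [h3, h4]
    have e2 : (x : ℂ) * (1 / 2 * (c k / k * FT φ (x - Real.log k)) +
        1 / 2 * ((starRingEnd ℂ) (c k) / k * FT φ (x + Real.log k))) =
        1 / 2 * (c k / k * ((x : ℂ) * FT φ (x - Real.log k)) +
          (starRingEnd ℂ) (c k) / k * ((x : ℂ) * FT φ (x + Real.log k))) := by ring
    rw [e2, h1, h2]
    unfold lw
    push_cast
    ring
  · intro k _
    have := h.mul_cont (g := fun t : ℝ => (((c k * (ee t k / k)).re : ℝ) : ℂ) *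
      Complex.exp (Complex.I * x * t)) ((hcont k).mul (by fun_prop))
    refine this.congr (Eventually.of_forall fun t => ?_)
    simp only []
    ring

/-! ### The small part -/

/-- derivative data for the small part -/
structure DD {κ M : ℝ} (D : AD κ M) (H' : ℕ → ℝ → ℂ) (M' : ℝ) : Prop where
  hder : ∀ x t, HasDerivAt (D.H x) (H' x t) t
  hcont : ∀ x, Continuous (H' x)
  hb : ∀ x t, ‖H' x t‖ ≤ M'
  hlim : ∀ t, ∃ z, Tendsto (fun x => H' x t) atTop (𝓝 z)
  hlim0 : ∀ t, ∃ z, Tendsto (fun x => D.H x t) atTop (𝓝 z)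

variable {κ M M' : ℝ} {D : AD κ M} {H' : ℕ → ℝ → ℂ}

/-- the integrand after integration by parts -/
noncomputable def GX (D : AD κ M) (H' : ℕ → ℝ → ℂ) (φ : ℝ → ℂ) (X : ℕ) (t : ℝ) : ℂ :=
  (((H' X t).re : ℝ) : ℂ) * φ t + (((D.H X t).re : ℝ) : ℂ) * deriv φ t

theorem Tst.deriv_cont (h : Tst φ) : Continuous (_root_.deriv φ) := by
  have h1 := h.deriv.continuous
  have h2 : _root_.deriv φ = fun t => -Complex.I * (Complex.I * _root_.deriv φ t) := by
    funext t
    rw [← mul_assoc, neg_mul, Complex.I_mul_I]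
    ring
  rw [h2]
  exact continuous_const.mul h1

theorem by_parts (hD : DD D H' M') (h : Tst φ) (X : ℕ) (x : ℝ) :
    (x : ℂ) * ∫ t : ℝ, (((D.H X t).re : ℝ) : ℂ) * (φ t * Complex.exp (Complex.I * x * t)) =
      Complex.I * FT (GX D H' φ X) x := by
  have hφd : ∀ t, HasDerivAt φ (deriv φ t) t := fun t =>
    (h.1.differentiable (by norm_num)).differentiableAt.hasDerivAt
  set u : ℝ → ℂ := fun t => (((D.H X t).re : ℝ) : ℂ) * φ t with hu
  have hud : ∀ t, HasDerivAt u (GX D H' φ X t) t := by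
    intro t
    have h1 : HasDerivAt (fun t => (((D.H X t).re : ℝ) : ℂ)) (((H' X t).re : ℝ) : ℂ) t := by
      have h2 : HasDerivAt (fun t => (D.H X t).re) ((H' X t).re) t := by
        have := (Complex.reCLM.hasFDerivAt (x := D.H X t)).comp_hasDerivAt t (hD.hder X t)
        exact this
      exact h2.ofReal_comp
    have := h1.mul (hφd t)
    exact this
  set v : ℝ → ℂ := fun t => -Complex.I * Complex.exp (Complex.I * x * t) with hv
  have hvd : ∀ t : ℝ, HasDerivAt v ((x : ℂ) * Complex.exp (Complex.I * x * t)) t := by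
    intro t
    have h1 : HasDerivAt (fun t : ℝ => Complex.I * x * (t : ℂ)) (Complex.I * x) t := by
      simpa using (hasDerivAt_id t).ofReal_comp.const_mul (Complex.I * (x : ℂ))
    have h2 := (h1.cexp).const_mul (-Complex.I)
    refine h2.congr_deriv ?_
    have := Complex.I_mul_I
    linear_combination (-(x : ℂ) * Complex.exp (Complex.I * x * t)) * this
  have hHc : Continuous fun t => (((D.H X t).re : ℝ) : ℂ) :=
    Complex.continuous_ofReal.comp (Complex.continuous_re.comp (D.hcont X))
  have hH'c : Continuous fun t => (((H' X t).re : ℝ) : ℂ) :=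
    Complex.continuous_ofReal.comp (Complex.continuous_re.comp (hD.hcont X))
  have huc : Continuous u := hHc.mul h.continuous
  have hus : HasCompactSupport u := h.2.mul_left
  have hGc : Continuous (GX D H' φ X) :=
    (hH'c.mul h.continuous).add (hHc.mul h.deriv_cont)
  have hGs : HasCompactSupport (GX D H' φ X) := (h.2.mul_left).add (h.2.deriv.mul_left)
  have hvc : Continuous v := by
    rw [hv]
    fun_prop
  have hvc' : Continuous fun t : ℝ => (x : ℂ) * Complex.exp (Complex.I * x * t) := by fun_prop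
  have key := integral_mul_deriv_eq_deriv_mul_of_integrable (u := u) (v := v)
    (fun t _ => hud t) (fun t _ => hvd t)
    ((huc.mul hvc').integrable_of_hasCompactSupport hus.mul_right)
    ((hGc.mul hvc).integrable_of_hasCompactSupport hGs.mul_right)
    ((huc.mul hvc).integrable_of_hasCompactSupport hus.mul_right)
  rw [← integral_const_mul]
  have e1 : ∫ t : ℝ, (x : ℂ) * ((((D.H X t).re : ℝ) : ℂ) *
      (φ t * Complex.exp (Complex.I * x * t))) =
      ∫ t : ℝ, u t * ((x : ℂ) * Complex.exp (Complex.I * x * t)) := by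
    refine integral_congr_ae (Eventually.of_forall fun t => ?_)
    simp only [hu]
    ring
  rw [e1, key]
  unfold FT
  rw [← integral_const_mul, ← integral_neg]
  refine integral_congr_ae (Eventually.of_forall fun t => ?_)
  simp only [hv]
  ring

theorem riemann_lebesgue (G : ℝ → ℂ) : Tendsto (FT G) atTop (𝓝 0) := by
  have h1 := Real.zero_at_infty_fourier G
  have h2 : Tendsto (fun u : ℝ => -u / (2 * Real.pi)) atTop (cocompact ℝ) := by
    have h3 : Tendsto (fun u : ℝ => -u / (2 * Real.pi)) atTop atBot :=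
      tendsto_neg_atTop_atBot.atBot_div_const (by positivity)
    exact h3.mono_right (by rw [cocompact_eq_atBot_atTop]; exact le_sup_left)
  refine (h1.comp h2).congr fun u => ?_
  simp only [Function.comp]
  rw [FT_eq]

/-- the small part in the limit -/
theorem small_part (hD : DD D H' M') (h : Tst φ) : ∃ G : ℝ → ℂ, ∀ x : ℝ,
    Tendsto (fun X => (x : ℂ) * ∫ t : ℝ, (((D.H X t).re : ℝ) : ℂ) *
      (φ t * Complex.exp (Complex.I * x * t))) atTop (𝓝 (Complex.I * FT G x)) := by
  choose H1 hH1 using hD.hlim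
  choose H0 hH0 using hD.hlim0
  refine ⟨fun t => (((H1 t).re : ℝ) : ℂ) * φ t + (((H0 t).re : ℝ) : ℂ) * deriv φ t, fun x => ?_⟩
  simp only [by_parts hD h]
  refine Tendsto.const_mul _ ?_
  unfold FT
  have hM' : 0 ≤ M' := (norm_nonneg _).trans (hD.hb 0 0)
  refine tendsto_integral_of_dominated_convergence (fun t => M' * ‖φ t‖ + M * ‖deriv φ t‖)
    ?_ ?_ ?_ ?_
  · intro X
    have hHc : Continuous fun t => (((D.H X t).re : ℝ) : ℂ) :=
      Complex.continuous_ofReal.comp (Complex.continuous_re.comp (D.hcont X))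
    have hH'c : Continuous fun t => (((H' X t).re : ℝ) : ℂ) :=
      Complex.continuous_ofReal.comp (Complex.continuous_re.comp (hD.hcont X))
    have hGc : Continuous (GX D H' φ X) :=
      (hH'c.mul h.continuous).add (hHc.mul h.deriv_cont)
    exact (hGc.mul (by fun_prop)).aestronglyMeasurable
  · refine (h.integrable.norm.const_mul _).add (Integrable.const_mul ?_ _)
    exact (h.deriv_cont.integrable_of_hasCompactSupport h.2.deriv).norm
  · intro X
    refine Eventually.of_forall fun t => ?_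
    have e1 : ‖Complex.exp (Complex.I * x * t)‖ = 1 := by
      rw [show Complex.I * (x : ℂ) * t = ((x * t : ℝ) : ℂ) * Complex.I by push_cast; ring,
        Complex.norm_exp_ofReal_mul_I]
    rw [norm_mul, e1, mul_one]
    unfold GX
    refine (norm_add_le _ _).trans (add_le_add ?_ ?_)
    · rw [norm_mul, Complex.norm_real, Real.norm_eq_abs]
      exact mul_le_mul_of_nonneg_right ((Complex.abs_re_le_norm _).trans (hD.hb X t))
        (norm_nonneg _)
    · rw [norm_mul, Complex.norm_real, Real.norm_eq_abs]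
      exact mul_le_mul_of_nonneg_right ((Complex.abs_re_le_norm _).trans (D.hb X t))
        (norm_nonneg _)
  · refine Eventually.of_forall fun t => ?_
    refine Tendsto.mul_const _ ?_
    unfold GX
    refine Tendsto.add ?_ ?_
    · exact ((Complex.continuous_ofReal.tendsto _).comp
        ((Complex.continuous_re.tendsto _).comp (hH1 t))).mul_const _
    · exact ((Complex.continuous_ofReal.tendsto _).comp
        ((Complex.continuous_re.tendsto _).comp (hH0 t))).mul_const _

/-! ### The comparison -/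

theorem PB_D (D : AD κ M) : PB D.c κ := ⟨D.hc, D.hc0⟩

/-- the integral of `log |l|` against a test function and a character -/
noncomputable def II (l : ℝ → ℂ) (φ : ℝ → ℂ) (x : ℝ) : ℂ :=
  ∫ t : ℝ, ((Real.log ‖l t‖ : ℝ) : ℂ) * (φ t * Complex.exp (Complex.I * x * t))

theorem exists_R (h : Tst φ) : ∃ R : ℝ, 0 ≤ R ∧ ∀ t, R ≤ |t| → φ t = 0 := by
  obtain ⟨R, hR⟩ := h.2.isCompact.isBounded.subset_closedBall 0
  refine ⟨max R 0 + 1, by positivity, fun t ht => ?_⟩
  by_contra hc
  have h1 := hR (subset_tsupport φ hc)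
  rw [Metric.mem_closedBall, Real.dist_eq, sub_zero] at h1
  have := le_max_left R 0
  linarith

theorem II_tendsto (D : AD κ M) {T : Set ℝ} (hT : volume T = 0) {l : ℝ → ℂ}
    (hl : Lim (AP D) T l) (h : Tst φ) (x : ℝ) :
    Integrable (fun t => ((Real.log ‖l t‖ : ℝ) : ℂ) *
      (φ t * Complex.exp (Complex.I * x * t))) ∧
    Tendsto (fun X => ∫ t : ℝ, (((AL D X t).re : ℝ) : ℂ) *
      (φ t * Complex.exp (Complex.I * x * t))) atTop (𝓝 (II l φ x)) := by
  obtain ⟨C, hC, hlog⟩ := ad_log D.hκ D.hM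
  have h1 := hlog D T hT l hl
  obtain ⟨R, hR, hφR⟩ := exists_R h
  obtain ⟨Cφ, hCφ⟩ := h.2.exists_bound_of_continuous h.continuous
  have hg : AEMeasurable (fun t => Real.log ‖l t‖) volume :=
    (lim_aemeas (AP_continuous D) hT hl).norm.log
  have hf : ∀ X, Continuous fun t => Real.log ‖AP D X t‖ := by
    intro X
    simp_rw [log_AP]
    exact Complex.continuous_re.comp (AL_continuous D X)
  have key := w_tendsto hf hg (B := fun x => |C / Real.log x|)
    (by simpa using (tendsto_C_log C).abs) (fun x => abs_nonneg _)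
    (fun x hx a => (h1 x hx a).trans (ENNReal.ofReal_le_ofReal (le_abs_self _)))
    (k := fun t => φ t * Complex.exp (Complex.I * x * t))
    (h.continuous.mul (by fun_prop)) (C := Cφ) (R := R) (fun t => by
      have e1 : ‖Complex.exp (Complex.I * x * t)‖ = 1 := by
        rw [show Complex.I * (x : ℂ) * t = ((x * t : ℝ) : ℂ) * Complex.I by push_cast; ring,
          Complex.norm_exp_ofReal_mul_I]
      rw [norm_mul, e1, mul_one]
      exact hCφ t) hR (fun t ht => by simp only [hφR t ht, zero_mul])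
  simp only [log_AP] at key
  exact key

/-- (★) -/
theorem star_edge (hD : DD D H' M') {T : Set ℝ} (hT : volume T = 0) {l : ℝ → ℂ}
    (hl : Lim (AP D) T l) (h : Tst φ) :
    Tendsto (fun x : ℝ => (x : ℂ) * II l φ x - 1 / 2 * SA (lw D.c) (gg1 φ) x) atTop (𝓝 0) := by
  obtain ⟨G, hG⟩ := small_part hD h
  set c' : ℕ → ℂ := fun p => (starRingEnd ℂ) (D.c p) with hc'
  have hPB := PB_D D
  have hPB' : PB c' κ := hPB.conj
  have hT1 : Tst (fun t => Complex.I * deriv φ t) := h.deriv
  have hT2 : Tst (fun t => Complex.I * deriv φ (-t)) := h.deriv.neg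
  have hT3 : Tst (fun t => φ (-t)) := h.neg
  have h0 : D.c 0 = 0 := D.hc0 0 Nat.not_prime_zero
  have h0' : c' 0 = 0 := hPB'.2 0 Nat.not_prime_zero
  -- the identity
  have hid : ∀ x : ℝ, (x : ℂ) * II l φ x = 1 / 2 * (SA D.c (gg1 fun t => Complex.I * deriv φ t) x +
      SA (lw D.c) (gg1 φ) x + SA c' (gg1 fun t => Complex.I * deriv φ (-t)) (-x) -
      SA (lw c') (gg1 fun t => φ (-t)) (-x)) + Complex.I * FT G x := by
    intro x
    refine tendsto_nhds_unique (((II_tendsto D hT hl h x).2.const_mul (x : ℂ))) ?_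
    have e1 : ∀ X : ℕ, (x : ℂ) * ∫ t : ℝ, (((AL D X t).re : ℝ) : ℂ) *
        (φ t * Complex.exp (Complex.I * x * t)) =
        1 / 2 * (SX D.c (fun t => Complex.I * deriv φ t) X x + SX (lw D.c) φ X x +
        SX c' (fun t => Complex.I * deriv φ (-t)) X (-x) -
        SX (lw c') (fun t => φ (-t)) X (-x)) +
        (x : ℂ) * ∫ t : ℝ, (((D.H X t).re : ℝ) : ℂ) *
          (φ t * Complex.exp (Complex.I * x * t)) := by
      intro X
      rw [← prime_part h hPB X x, ← mul_add, ← integral_add]
      · congr 1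
        refine integral_congr_ae (Eventually.of_forall fun t => ?_)
        simp only []
        unfold AL
        rw [Complex.add_re]
        push_cast
        ring
      · have := h.mul_cont (g := fun t : ℝ => (((CS D.c 0 X t).re : ℝ) : ℂ) *
          Complex.exp (Complex.I * x * t))
          ((Complex.continuous_ofReal.comp (Complex.continuous_re.comp
            (CS_continuous D.c 0 X))).mul (by fun_prop))
        refine this.congr (Eventually.of_forall fun t => ?_)
        simp only []
        ring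
      · have := h.mul_cont (g := fun t : ℝ => (((D.H X t).re : ℝ) : ℂ) *
          Complex.exp (Complex.I * x * t))
          ((Complex.continuous_ofReal.comp (Complex.continuous_re.comp
            (D.hcont X))).mul (by fun_prop))
        refine this.congr (Eventually.of_forall fun t => ?_)
        simp only []
        ring
    simp only [e1]
    refine Tendsto.add (Tendsto.const_mul _ ?_) (hG x)
    refine ((Tendsto.add (Tendsto.add ?_ ?_) ?_).sub ?_)
    · exact SX_tendsto hT1 h0 (AvB_c hPB) x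
    · exact SX_tendsto h (lw_zero hPB 0 Nat.not_prime_zero) (AvB_lw hPB) x
    · exact SX_tendsto hT2 h0' (AvB_c hPB') (-x)
    · exact SX_tendsto hT3 (lw_zero hPB' 0 Nat.not_prime_zero) (AvB_lw hPB') (-x)
  have e2 : ∀ x : ℝ, (x : ℂ) * II l φ x - 1 / 2 * SA (lw D.c) (gg1 φ) x =
      1 / 2 * (SA D.c (gg1 fun t => Complex.I * deriv φ t) x +
      SA c' (gg1 fun t => Complex.I * deriv φ (-t)) (-x) -
      SA (lw c') (gg1 fun t => φ (-t)) (-x)) + Complex.I * FT G x := by
    intro x
    rw [hid x]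
    ring
  simp only [e2]
  have l1 : Tendsto (SA D.c (gg1 fun t => Complex.I * deriv φ t)) atTop (𝓝 0) := by
    have := SA_atTop (AvB_c hPB) hT1.gg1 (Av_c_tendsto hPB)
    rwa [zero_mul] at this
  have l2 : Tendsto (fun x : ℝ => SA c' (gg1 fun t => Complex.I * deriv φ (-t)) (-x)) atTop
      (𝓝 0) := (SA_atBot (AvB_c hPB') hT2.gg1).comp tendsto_neg_atTop_atBot
  have l3 : Tendsto (fun x : ℝ => SA (lw c') (gg1 fun t => φ (-t)) (-x)) atTop
      (𝓝 0) := (SA_atBot (AvB_lw hPB') hT3.gg1).comp tendsto_neg_atTop_atBot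
  have l4 := (riemann_lebesgue G).const_mul Complex.I
  have := (((l1.add l2).sub l3).const_mul (1 / 2)).add l4
  simpa using this

/-- from the averages to the edge -/
theorem edge_of_av (hD : DD D H' M') {T : Set ℝ} (hT : volume T = 0) {l : ℝ → ℂ}
    (hl : Lim (AP D) T l) {ρ : ℂ} (hρ : Tendsto (pav D.c) atTop (𝓝 ρ)) (h : Tst φ) :
    Tendsto (fun x : ℝ => (x : ℂ) * II l φ x) atTop (𝓝 (Real.pi * ρ * φ 0)) := by
  have h1 := SA_atTop (AvB_lw (PB_D D)) h.gg1 ((tendsto_Av_iff (PB_D D)).2 hρ)
  have h2 := (star_edge hD hT hl h).add (h1.const_mul (1 / 2))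
  have h3 : (0 : ℂ) + 1 / 2 * (ρ * (2 * Real.pi * gg1 φ 0)) = Real.pi * ρ * φ 0 := by
    unfold gg1
    simp
    ring
  rw [h3] at h2
  refine h2.congr fun x => ?_
  ring

/-- dividing by `1 + it` -/
theorem exists_gg1 {ψ : ℝ → ℂ} (h : Tst ψ) : ∃ φ : ℝ → ℂ, Tst φ ∧ gg1 φ = ψ ∧ φ 0 = ψ 0 ∧
    ∀ t, ψ t = 0 → φ t = 0 := by
  have hne : ∀ t : ℝ, (1 + Complex.I * t : ℂ) ≠ 0 := by
    intro t h0
    have := congrArg Complex.re h0
    simp at this
  have hs : ContDiff ℝ (⊤ : ℕ∞) fun t : ℝ => (1 + Complex.I * t : ℂ) :=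
    contDiff_const.add (contDiff_const.mul Complex.ofRealCLM.contDiff)
  refine ⟨fun t => (1 + Complex.I * t)⁻¹ * ψ t, ?_, ?_, ?_, ?_⟩
  · exact h.mul (hs.inv hne)
  · funext t
    unfold gg1
    rw [← mul_assoc, mul_inv_cancel₀ (hne t), one_mul]
  · simp
  · intro t ht
    simp [ht]

/-- from the edge to the averages, with a window -/
theorem av_of_edge : ∃ C : ℝ, 0 < C ∧ ∀ (κ M M' : ℝ) (D : AD κ M) (H' : ℕ → ℝ → ℂ),
    DD D H' M' → ∀ T : Set ℝ, volume T = 0 → ∀ l : ℝ → ℂ, Lim (AP D) T l →
    ∀ (ρ : ℂ) (lam : ℝ), 0 < lam →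
    (∀ φ : ℝ → ℂ, Tst φ → (∀ t, lam ≤ |t| → φ t = 0) →
      Tendsto (fun x : ℝ => (x : ℂ) * II l φ x) atTop (𝓝 (Real.pi * ρ * φ 0))) →
    ∀ ε : ℝ, 0 < ε → ∀ᶠ x : ℕ in atTop, ‖pav D.c x - ρ‖ ≤ C * κ / lam + ε := by
  obtain ⟨C, hC, h⟩ := tauber
  refine ⟨3 * C, by linarith, fun κ M M' D H' hD T hT l hl ρ lam hlam hφ => ?_⟩
  have h1 := h (lw D.c) _ _ (AvB_lw (PB_D D)) (by have := D.hκ; linarith) (slow_lw (PB_D D)) ρ lam
    hlam (fun ψ hψ hψs => by
      obtain ⟨φ, h2, h3, h4, h5⟩ := exists_gg1 hψ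
      have h6 := hφ φ h2 fun t ht => h5 t (hψs t ht)
      have h7 := star_edge hD hT hl h2
      have h8 := (h6.sub h7).const_mul 2
      have h9 : (2 : ℂ) * (Real.pi * ρ * φ 0 - 0) = ρ * (2 * Real.pi * ψ 0) := by
        rw [h4]
        ring
      rw [h9] at h8
      refine h8.congr fun x => ?_
      rw [h3]
      ring)
  have h2 := eventually_pav (PB_D D) h1
  intro ε hε
  filter_upwards [h2 ε hε] with x hx
  refine hx.trans (le_of_eq ?_)
  ring

theorem av_of_edge' (hD : DD D H' M') {T : Set ℝ} (hT : volume T = 0) {l : ℝ → ℂ}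
    (hl : Lim (AP D) T l) {ρ : ℂ} (h : ∀ φ : ℝ → ℂ, Tst φ →
      Tendsto (fun x : ℝ => (x : ℂ) * II l φ x) atTop (𝓝 (Real.pi * ρ * φ 0))) :
    Tendsto (pav D.c) atTop (𝓝 ρ) := by
  obtain ⟨C, hC, h1⟩ := av_of_edge
  rw [Metric.tendsto_nhds]
  intro ε hε
  have hκ := D.hκ
  have h2 := h1 κ M M' D H' hD T hT l hl ρ (2 * C * (κ + 1) / ε) (by positivity)
    (fun φ hφ _ => h φ hφ) (ε / 3) (by linarith)
  filter_upwards [h2] with x hx
  rw [dist_eq_norm]
  refine hx.trans_lt ?_
  have h3 : C * κ / (2 * C * (κ + 1) / ε) ≤ ε / 2 := by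
    rw [div_div_eq_mul_div, div_le_div_iff₀ (by positivity) (by norm_num)]
    nlinarith [mul_pos hC hε]
  linarith

end Pool.Agent.Q255.SG
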