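import Pool.Agent.Q255.SG.TA5

/-! # The theorem for systems over the rational numbers -/

set_option autoImplicit false

namespace Pool.Agent.Q255.SG

open Finset MeasureTheory Filter Topology FourierTransform Pool.Agent.Q255.SA

/-- the derivative of the remainder -/
noncomputable def rq' (w : ℝ) (a : ℂ) (q : ℕ) (τ : ℝ) : ℂ :=
  (-Complex.I * (Real.log q : ℝ)) * (bq w a q τ ^ 2 / (1 - bq w a q τ))

theorem bq_hasDerivAt {w : ℝ} {a : ℂ} {q : ℕ} (hq : 2 ≤ q) (τ : ℝ) :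
    HasDerivAt (bq w a q) ((-Complex.I * (Real.log q : ℝ)) * bq w a q τ) τ := by
  have e1 : bq w a q = fun τ => a * ((((q : ℝ) ^ (-(w / 2)) : ℝ) : ℂ) * (ee τ q / (q : ℂ))) := by
    funext τ
    unfold bq
    rw [cpow_eq0 hq]
  rw [e1]
  have h1 : HasDerivAt (fun τ : ℝ => ee τ q) (-Complex.I * (Real.log q : ℝ) * ee τ q) τ := by
    unfold ee
    have h2 : HasDerivAt (fun τ : ℝ => (-(τ * Real.log q : ℝ) * Complex.I : ℂ))
        (-Complex.I * (Real.log q : ℝ)) τ := by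
      have h3 : HasDerivAt (fun τ : ℝ => -(τ * Real.log q)) (-Real.log q) τ := by
        have h5 := ((hasDerivAt_id τ).mul_const (Real.log q)).neg
        refine h5.congr_deriv ?_
        ring
      have h4 := (h3.ofReal_comp).mul_const Complex.I
      have e2 : (fun τ : ℝ => (-(τ * Real.log q : ℝ) * Complex.I : ℂ)) =
          fun y : ℝ => ((-(y * Real.log q) : ℝ) : ℂ) * Complex.I := by
        funext y
        push_cast
        ring
      rw [e2]
      refine h4.congr_deriv ?_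
      push_cast
      ring
    have h5 := h2.cexp
    refine h5.congr_deriv ?_
    ring
  have h6 := ((h1.div_const (q : ℂ)).const_mul (((q : ℝ) ^ (-(w / 2)) : ℝ) : ℂ)).const_mul a
  refine h6.congr_deriv ?_
  ring

theorem rq_hasDerivAt {w : ℝ} {a : ℂ} {q : ℕ} (hq : 2 ≤ q) (ha : ‖a‖ ≤ (q : ℝ) ^ (w / 2)) (τ : ℝ) :
    HasDerivAt (rq w a q) (rq' w a q τ) τ := by
  have hb := (norm_bq (w := w) hq ha τ).2
  have h1 := bq_hasDerivAt (w := w) (a := a) hq τ
  have hre : 0 < (1 - bq w a q τ).re := by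
    have h4 := Complex.re_le_norm (bq w a q τ)
    rw [Complex.sub_re, Complex.one_re]
    linarith
  have hne : 1 - bq w a q τ ≠ 0 := by
    intro h0
    rw [h0, Complex.zero_re] at hre
    exact lt_irrefl _ hre
  have h2 := (h1.const_sub 1).clog_real (Or.inl hre)
  have h3 := (h2.neg).sub h1
  refine h3.congr_deriv ?_
  unfold rq'
  field_simp
  ring

theorem norm_rq' {w : ℝ} {a : ℂ} {q : ℕ} (hq : 2 ≤ q) (ha : ‖a‖ ≤ (q : ℝ) ^ (w / 2)) (τ : ℝ) :
    ‖rq' w a q τ‖ ≤ 8 * (q : ℝ) ^ (-(7 / 4) : ℝ) := by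
  have h0 : (0 : ℝ) < q := by exact_mod_cast (by omega : 0 < q)
  obtain ⟨h1, h2⟩ := norm_bq (w := w) hq ha τ
  unfold rq'
  rw [norm_mul, norm_mul, norm_neg, Complex.norm_I, one_mul, Complex.norm_real, norm_div, norm_pow,
    Real.norm_of_nonneg (Real.log_natCast_nonneg q)]
  have h3 : 1 / 2 ≤ ‖1 - bq w a q τ‖ := by
    have := norm_sub_norm_le (1 : ℂ) (bq w a q τ)
    rw [norm_one] at this
    linarith
  have h4 : Real.log q ≤ 4 * (q : ℝ) ^ (1 / 4 : ℝ) := by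
    have h5 := Real.log_le_rpow_div h0.le (show (0 : ℝ) < 1 / 4 by norm_num)
    linarith
  have h5 : ‖bq w a q τ‖ ^ 2 ≤ (q : ℝ) ^ (-2 : ℝ) := by
    have h7 := pow_le_pow_left₀ (norm_nonneg _) h1 2
    rwa [← Real.rpow_natCast ((q : ℝ) ^ (-1 : ℝ)), ← Real.rpow_mul h0.le,
      show (-1 : ℝ) * ((2 : ℕ) : ℝ) = -2 by norm_num] at h7
  have h6 : ‖bq w a q τ‖ ^ 2 / ‖1 - bq w a q τ‖ ≤ 2 * (q : ℝ) ^ (-2 : ℝ) := by
    rw [div_le_iff₀ (by linarith)]
    have : 0 < (q : ℝ) ^ (-2 : ℝ) := by positivity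
    nlinarith
  calc Real.log q * (‖bq w a q τ‖ ^ 2 / ‖1 - bq w a q τ‖)
      ≤ (4 * (q : ℝ) ^ (1 / 4 : ℝ)) * (2 * (q : ℝ) ^ (-2 : ℝ)) :=
        mul_le_mul h4 h6 (by positivity) (by positivity)
    _ = 8 * ((q : ℝ) ^ (1 / 4 : ℝ) * (q : ℝ) ^ (-2 : ℝ)) := by ring
    _ = _ := by
        rw [← Real.rpow_add h0]
        norm_num

theorem rq'_continuous {w : ℝ} {a : ℂ} {q : ℕ} (hq : 2 ≤ q) (ha : ‖a‖ ≤ (q : ℝ) ^ (w / 2)) :
    Continuous (rq' w a q) := by
  have h1 := bq_continuous (w := w) (a := a) hq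
  unfold rq'
  refine continuous_const.mul ((h1.pow 2).div (continuous_const.sub h1) fun τ => ?_)
  have h3 := (norm_bq (w := w) hq ha τ).2
  intro h0
  have h4 := congrArg norm (sub_eq_zero.1 h0)
  rw [norm_one] at h4
  linarith

variable {N : ℕ} {w : ℝ}

open Classical in
/-- the derivative of the small part -/
noncomputable def HQ' (w : ℝ) (α : ℕ → Fin N → ℂ) (x : ℕ) (τ : ℝ) : ℂ :=
  ∑ p ∈ range x, if p.Prime then ∑ j, rq' w (α p j) p τ else 0

theorem sum_rq'_le {α : ℕ → Fin N → ℂ} (hα : Bd w α) (τ : ℝ) (p : ℕ) :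
    ‖if p.Prime then ∑ j, rq' w (α p j) p τ else 0‖ ≤ 8 * N * (p : ℝ) ^ (-(7 / 4) : ℝ) := by
  split_ifs with hp
  · refine (norm_sum_le_of_le (n := fun _ => 8 * (p : ℝ) ^ (-(7 / 4) : ℝ)) _ fun j _ =>
      norm_rq' hp.two_le (hα p hp j) τ).trans ?_
    rw [Finset.sum_const, Finset.card_univ, Fintype.card_fin, nsmul_eq_mul]
    linarith
  · rw [norm_zero]
    positivity

theorem lim_sum {f : ℕ → ℂ} {g : ℕ → ℝ} (hg : Summable g) (h : ∀ p, ‖f p‖ ≤ g p) :
    ∃ z, Tendsto (fun x => ∑ p ∈ range x, f p) atTop (𝓝 z) :=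
  ⟨_, (Summable.of_norm_bounded hg h).hasSum.tendsto_sum_nat⟩

theorem qDD {α : ℕ → Fin N → ℂ} (hα : Bd w α) : DD (qAD w α hα) (HQ' w α) (8 * N * S0) where
  hder x t := by
    have e1 : (qAD w α hα).H x = fun τ => ∑ p ∈ range x,
        if p.Prime then ∑ j, rq w (α p j) p τ else 0 := by
      funext τ
      rfl
    rw [e1]
    unfold HQ'
    refine HasDerivAt.fun_sum fun p _ => ?_
    by_cases hp : p.Prime
    · simp only [if_pos hp]
      exact HasDerivAt.fun_sum fun j _ => rq_hasDerivAt hp.two_le (hα p hp j) t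
    · simp only [if_neg hp]
      exact hasDerivAt_const _ _
  hcont x := by
    unfold HQ'
    refine continuous_finset_sum _ fun p _ => ?_
    split_ifs with hp
    · exact continuous_finset_sum _ fun j _ => rq'_continuous hp.two_le (hα p hp j)
    · exact continuous_const
  hb x t := by
    unfold HQ'
    refine (norm_sum_le_of_le _ fun p _ => sum_rq'_le hα t p).trans ?_
    rw [← Finset.mul_sum]
    refine mul_le_mul_of_nonneg_left ?_ (by positivity)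
    exact S0_summable.sum_le_tsum _ fun n _ => by positivity
  hlim t := lim_sum (S0_summable.mul_left (8 * (N : ℝ))) fun p => sum_rq'_le hα t p
  hlim0 t := by
    have h1 : Summable fun p : ℕ => (N : ℝ) * (p : ℝ) ^ (-2 : ℝ) :=
      (Real.summable_nat_rpow.2 (by norm_num)).mul_left _
    exact lim_sum h1 fun p => sum_rq_le hα t p

/-- the normalised trace -/
noncomputable def ntr (w : ℝ) (α : ℕ → Fin N → ℂ) (p : ℕ) : ℂ :=
  ∑ j, α p j * (((p : ℝ) ^ (-(w / 2)) : ℝ) : ℂ)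

theorem pav_ntr {α : ℕ → Fin N → ℂ} (hα : Bd w α) (x : ℕ) :
    pav (qAD w α hα).c x = (∑ p ∈ Nat.primesBelow x, ntr w α p) / (Nat.primesBelow x).card := by
  unfold pav
  congr 1
  refine Finset.sum_congr rfl fun p hp => ?_
  exact if_pos (Nat.prime_of_mem_primesBelow hp)

/-- The theorem for systems over the rational numbers. -/
theorem q_tauber {α : ℕ → Fin N → ℂ} (hα : Bd w α) {T : Set ℝ} (hT : volume T = 0) {l : ℝ → ℂ}
    (hl : Lim (AP (qAD w α hα)) T l) (ρ : ℂ) :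
    Tendsto (fun x : ℕ => (∑ p ∈ Nat.primesBelow x, ntr w α p) / (Nat.primesBelow x).card)
      atTop (𝓝 ρ) ↔ ∀ φ : ℝ → ℂ, Tst φ →
      Tendsto (fun x : ℝ => (x : ℂ) * II l φ x) atTop (𝓝 (Real.pi * ρ * φ 0)) := by
  simp only [← pav_ntr hα]
  exact ⟨fun h φ hφ => edge_of_av (qDD hα) hT hl h hφ, fun h => av_of_edge' (qDD hα) hT hl h⟩

/-- The theorem with a window. -/
theorem q_window : ∃ C : ℝ, 0 < C ∧ ∀ (N : ℕ) (w : ℝ) (α : ℕ → Fin N → ℂ) (hα : Bd w α)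
    (T : Set ℝ), volume T = 0 → ∀ l : ℝ → ℂ, Lim (AP (qAD w α hα)) T l → ∀ (ρ : ℂ) (lam : ℝ),
    0 < lam → (∀ φ : ℝ → ℂ, Tst φ → (∀ t, lam ≤ |t| → φ t = 0) →
      Tendsto (fun x : ℝ => (x : ℂ) * II l φ x) atTop (𝓝 (Real.pi * ρ * φ 0))) →
    ∀ ε : ℝ, 0 < ε → ∀ᶠ x : ℕ in atTop,
      ‖(∑ p ∈ Nat.primesBelow x, ntr w α p) / (Nat.primesBelow x).card - ρ‖ ≤
        C * N / lam + ε := by
  obtain ⟨C, hC, h⟩ := av_of_edge
  refine ⟨C, hC, fun N w α hα T hT l hl ρ lam hlam hφ ε hε => ?_⟩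
  have := h N _ _ _ _ (qDD hα) T hT l hl ρ lam hlam hφ ε hε
  simpa only [pav_ntr hα] using this

end Pool.Agent.Q255.SG
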