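import Pool.Agent.Q255.SG.TA6
import Pool.Agent.Q255.SG.KQ3
import Pool.Agent.H484R2.Pit

/-! # Averages over the primes of a number field -/

set_option autoImplicit false

namespace Pool.Agent.Q255.SG

open NumberField IsDedekindDomain Pool.Agent.H921R2.TatePole MeasureTheory Filter Topology

section
variable {K : Type} [Field K] [NumberField K]

theorem finite_lt (x : ℕ) : {v : HeightOneSpectrum (𝓞 K) | nm v < x}.Finite := by
  refine Set.Finite.of_finite_fibers (fun v : HeightOneSpectrum (𝓞 K) => below v) ?_ ?_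
  · refine Set.Finite.subset (s := {p : Nat.Primes | (p : ℕ) < x}) ?_ ?_
    · exact (Set.finite_Iio x).preimage Subtype.val_injective.injOn
    · rintro p ⟨v, hv, rfl⟩
      exact (below_le_nm v).trans_lt hv
  · intro p _
    have h1 : {v : HeightOneSpectrum (𝓞 K) | below v = p}.Finite := fiber_finite p
    exact h1.subset fun v hv => hv.2

/-- the primes of norm less than `x` -/
noncomputable def VF (K : Type) [Field K] [NumberField K] (x : ℕ) :
    Finset (HeightOneSpectrum (𝓞 K)) := (finite_lt x).toFinset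

theorem mem_VF {x : ℕ} {v : HeightOneSpectrum (𝓞 K)} : v ∈ VF K x ↔ nm v < x := by
  unfold VF
  simp

open Classical in
/-- the sum over the primes of degree one above `p` -/
noncomputable def cp (z : HeightOneSpectrum (𝓞 K) → ℂ) (p : ℕ) : ℂ :=
  if h : p.Prime then ∑ v : {v : HeightOneSpectrum (𝓞 K) // below v = ⟨p, h⟩},
    if deg v.1 = 1 then z v.1 else 0 else 0

variable {z : HeightOneSpectrum (𝓞 K) → ℂ} {B : ℝ}

theorem PB_cp (hB : 0 ≤ B) (hz : ∀ v, ‖z v‖ ≤ B) : PB (cp z) (B * Module.finrank ℚ K) := by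
  refine ⟨fun p hp => ?_, fun p hp => ?_⟩
  · unfold cp
    rw [dif_pos hp]
    refine (norm_sum_le_of_le (n := fun _ => B) _ fun v _ => ?_).trans ?_
    · split_ifs
      · exact hz _
      · rw [norm_zero]
        exact hB
    · rw [Finset.sum_const, Finset.card_univ, nsmul_eq_mul, mul_comm]
      have h1 := fiber_card_le (K := K) ⟨p, hp⟩
      exact mul_le_mul_of_nonneg_left (by exact_mod_cast h1) hB
  · unfold cp
    rw [dif_neg hp]

theorem nm_of_deg {v : HeightOneSpectrum (𝓞 K)} (h : deg v = 1) : nm v = (below v : ℕ) := by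
  rw [(nm_eq v).1, h, pow_one]

theorem sum_deg_one (f : ℕ → ℂ) (x : ℕ) :
    ∑ v ∈ (VF K x).filter (fun v => deg v = 1), z v * f (nm v) =
      ∑ p ∈ Nat.primesBelow x, cp z p * f p := by
  classical
  rw [← Finset.sum_fiberwise_of_maps_to (t := Nat.primesBelow x)
    (g := fun v : HeightOneSpectrum (𝓞 K) => (below v : ℕ))]
  · refine Finset.sum_congr rfl fun p hp => ?_
    rw [Nat.mem_primesBelow] at hp
    unfold cp
    rw [dif_pos hp.2, Finset.sum_mul]
    have h0 : {v : HeightOneSpectrum (𝓞 K) | below v = ⟨p, hp.2⟩}.Finite := fiber_finite _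
    rw [← Finset.sum_subtype (p := fun v : HeightOneSpectrum (𝓞 K) => below v = ⟨p, hp.2⟩)
      h0.toFinset (fun v => by simp) (fun v => (if deg v = 1 then z v else 0) * f p)]
    simp only [ite_mul, zero_mul]
    rw [← Finset.sum_filter]
    refine Finset.sum_congr ?_ fun v hv => ?_
    · ext v
      simp only [Finset.mem_filter, mem_VF, Set.Finite.mem_toFinset, Set.mem_setOf_eq]
      constructor
      · rintro ⟨⟨h1, h2⟩, h3⟩
        exact ⟨Subtype.ext h3, h2⟩
      · rintro ⟨h1, h2⟩
        have h3 : (below v : ℕ) = p := congrArg Subtype.val h1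
        refine ⟨⟨?_, h2⟩, h3⟩
        rw [nm_of_deg h2, h3]
        exact hp.1
    · simp only [Finset.mem_filter, Set.Finite.mem_toFinset, Set.mem_setOf_eq] at hv
      rw [nm_of_deg hv.2, show (below v : ℕ) = p from congrArg Subtype.val hv.1]
  · intro v hv
    rw [Finset.mem_filter, mem_VF] at hv
    rw [Nat.mem_primesBelow]
    exact ⟨(below_le_nm v).trans_lt hv.1, (below v).2⟩

theorem card_deg_ne (x : ℕ) :
    (((VF K x).filter (fun v => ¬ deg v = 1)).card : ℝ) ≤ Module.finrank ℚ K * √x := by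
  classical
  have h1 := Finset.card_le_mul_card_image (f := fun v : HeightOneSpectrum (𝓞 K) => (below v : ℕ))
    (s := (VF K x).filter (fun v => ¬ deg v = 1)) (Module.finrank ℚ K) (fun p hp => by
      rw [Finset.mem_image] at hp
      obtain ⟨v0, _, hv0⟩ := hp
      refine card_above (below v0) _ fun v hv => Subtype.ext ?_
      rw [hv0]
      exact (Finset.mem_filter.1 hv).2)
  have h2 : (((VF K x).filter (fun v => ¬ deg v = 1)).image
      (fun v : HeightOneSpectrum (𝓞 K) => (below v : ℕ))).card ≤ Nat.sqrt x := by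
    have h3 : (((VF K x).filter (fun v => ¬ deg v = 1)).image
        (fun v : HeightOneSpectrum (𝓞 K) => (below v : ℕ))) ⊆
        Finset.Icc 1 (Nat.sqrt x) := by
      intro p hp
      rw [Finset.mem_image] at hp
      obtain ⟨v, hv, rfl⟩ := hp
      rw [Finset.mem_filter, mem_VF] at hv
      have hp := (below v).2
      rw [Finset.mem_Icc]
      refine ⟨hp.one_lt.le, ?_⟩
      rw [Nat.le_sqrt]
      have h4 := (nm_eq v).1
      have h5 := (nm_eq v).2.1
      have h6 : 2 ≤ deg v := by omega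
      have h7 : (below v : ℕ) ^ 2 ≤ (below v : ℕ) ^ deg v := Nat.pow_le_pow_right hp.pos h6
      rw [← h4] at h7
      have := hv.1
      nlinarith
    have h4 := Finset.card_le_card h3
    simpa using h4
  have h3 : ((Nat.sqrt x : ℕ) : ℝ) ≤ √x := Real.nat_sqrt_le_real_sqrt
  calc (((VF K x).filter (fun v => ¬ deg v = 1)).card : ℝ)
      ≤ ((Module.finrank ℚ K * (((VF K x).filter (fun v => ¬ deg v = 1)).image
        (fun v : HeightOneSpectrum (𝓞 K) => (below v : ℕ))).card : ℕ) : ℝ) := by
        exact_mod_cast h1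
    _ ≤ Module.finrank ℚ K * ((Nat.sqrt x : ℕ) : ℝ) := by
        rw [Nat.cast_mul]
        exact mul_le_mul_of_nonneg_left (by exact_mod_cast h2) (Nat.cast_nonneg _)
    _ ≤ _ := mul_le_mul_of_nonneg_left h3 (Nat.cast_nonneg _)

theorem sum_VF_sub (hB : 0 ≤ B) (hz : ∀ v, ‖z v‖ ≤ B) (f : ℕ → ℂ) {x : ℕ} {F : ℝ} (hF : 0 ≤ F)
    (hf : ∀ n < x, ‖f n‖ ≤ F) :
    ‖∑ v ∈ VF K x, z v * f (nm v) - ∑ p ∈ Nat.primesBelow x, cp z p * f p‖ ≤
      B * F * (Module.finrank ℚ K * √x) := by
  classical
  rw [← sum_deg_one, ← Finset.sum_filter_add_sum_filter_not (VF K x) (fun v => deg v = 1),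
    add_sub_cancel_left]
  refine (norm_sum_le_of_le (n := fun _ => B * F) _ fun v hv => ?_).trans ?_
  · rw [norm_mul]
    rw [Finset.mem_filter, mem_VF] at hv
    exact mul_le_mul (hz v) (hf _ hv.1) (norm_nonneg _) hB
  · rw [Finset.sum_const, nsmul_eq_mul, mul_comm]
    exact mul_le_mul_of_nonneg_left (card_deg_ne x) (by positivity)

theorem cp_one (p : Nat.Primes) : cp (fun _ : HeightOneSpectrum (𝓞 K) => (1 : ℂ)) p =
    ((Nat.card (𝓞 K →+* ZMod (p : ℕ)) : ℝ) : ℂ) := by
  classical
  unfold cp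
  rw [dif_pos p.2, Finset.sum_boole]
  have h1 := R_eq_hc (K := K) p
  unfold R hc at h1
  rw [← h1]
  push_cast
  congr 1

theorem pit_tendsto : Tendsto (fun x : ℕ =>
    (∑ p ∈ Nat.primesBelow x, cp (fun _ : HeightOneSpectrum (𝓞 K) => (1 : ℂ)) p) /
      ((Nat.primesBelow x).card : ℂ)) atTop (𝓝 1) := by
  have h1 := Pool.Agent.H484R2.pit K
  have h2 : Tendsto (fun x : ℕ => x - 1) atTop atTop := tendsto_sub_atTop_nat 1
  have h3 := (Complex.continuous_ofReal.tendsto _).comp (h1.comp h2)
  rw [Complex.ofReal_one] at h3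
  refine h3.congr' ?_
  filter_upwards [eventually_ge_atTop 1] with x hx
  simp only [Function.comp]
  rw [Nat.sub_add_cancel hx]
  push_cast
  have e1 : Nat.primeCounting (x - 1) = (Nat.primesBelow x).card := by
    rw [Nat.primeCounting, Nat.primeCounting', Nat.sub_add_cancel hx,
      Nat.primesBelow, Nat.count_eq_card_filter_range]
  rw [e1]
  congr 1
  refine Finset.sum_congr rfl fun p hp => ?_
  have := cp_one (K := K) ⟨p, (Finset.mem_filter.1 hp).2⟩
  rw [← Complex.ofReal_natCast]
  exact this.symm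

end

end Pool.Agent.Q255.SG
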