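import Pool.Agent.Q255.SG.TK

/-! # The theorem over number fields -/

set_option autoImplicit false

namespace Pool.Agent.Q255.SG

open NumberField IsDedekindDomain Pool.Agent.H921R2.TatePole MeasureTheory Filter Topology

theorem card_pos_pb {x : ℕ} (hx : 3 ≤ x) : 0 < (Nat.primesBelow x).card := Finset.card_pos.2
    ⟨2, Nat.mem_primesBelow.2 ⟨by omega, Nat.prime_two⟩⟩

theorem sqrt_div_tendsto : Tendsto (fun x : ℕ => √(x : ℝ) / ((Nat.primesBelow x).card : ℝ)) atTop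
    (𝓝 0) := by
  have h1 : Tendsto (fun x : ℝ => Real.log x / √x) atTop (𝓝 0) := by
    have h2 := (isLittleO_log_rpow_atTop (show (0 : ℝ) < 1 / 2 by norm_num)).tendsto_div_nhds_zero
    refine h2.congr fun x => ?_
    rw [Real.sqrt_eq_rpow]
  have h2 := (h1.comp (tendsto_natCast_atTop_atTop (R := ℝ))).div card_log_tendsto one_ne_zero
  rw [zero_div] at h2
  refine h2.congr' ?_
  filter_upwards [eventually_ge_atTop 3] with x hx
  have hx0 : (0 : ℝ) < x := by exact_mod_cast (by omega : 0 < x)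
  have hlog : 0 < Real.log x := Real.log_pos (by exact_mod_cast (by omega : 1 < x))
  have hc : (0 : ℝ) < (Nat.primesBelow x).card := by exact_mod_cast card_pos_pb hx
  have hs : 0 < √(x : ℝ) := Real.sqrt_pos.2 hx0
  simp only [Function.comp, Pi.div_apply]
  rw [div_div_div_eq, div_eq_div_iff (mul_pos hs (mul_pos hc hlog)).ne' hc.ne',
    show √(x : ℝ) * (√(x : ℝ) * ((Nat.primesBelow x).card * Real.log x)) =
      (√(x : ℝ) * √(x : ℝ)) * ((Nat.primesBelow x).card * Real.log x) by ring,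
    Real.mul_self_sqrt hx0.le]
  ring

section
variable {K : Type} [Field K] [NumberField K] {z : HeightOneSpectrum (𝓞 K) → ℂ} {B : ℝ}

/-- the average over the primes of norm less than `x` -/
noncomputable def kav (z : HeightOneSpectrum (𝓞 K) → ℂ) (x : ℕ) : ℂ :=
  (∑ v ∈ VF K x, z v) / ((VF K x).card : ℂ)

theorem card_ratio : Tendsto (fun x : ℕ => ((VF K x).card : ℂ) / ((Nat.primesBelow x).card : ℂ))
    atTop (𝓝 1) := by
  have h1 := pit_tendsto (K := K)
  have h2 : Tendsto (fun x : ℕ => ((∑ v ∈ VF K x, (1 : ℂ) * 1 -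
      ∑ p ∈ Nat.primesBelow x, cp (fun _ : HeightOneSpectrum (𝓞 K) => (1 : ℂ)) p * 1)) /
        ((Nat.primesBelow x).card : ℂ)) atTop (𝓝 0) := by
    rw [tendsto_zero_iff_norm_tendsto_zero]
    have h3 := sqrt_div_tendsto.const_mul (Module.finrank ℚ K : ℝ)
    rw [mul_zero] at h3
    refine squeeze_zero (fun x => norm_nonneg _) (fun x => ?_) h3
    rw [norm_div, Complex.norm_natCast, ← mul_div_assoc]
    refine div_le_div_of_nonneg_right ?_ (Nat.cast_nonneg _)
    have := sum_VF_sub (K := K) (z := fun _ => 1) (B := 1) zero_le_one (fun v => by simp)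
      (fun _ => 1) (x := x) (F := 1) zero_le_one (fun n _ => by simp)
    simpa using this
  have h3 := h1.add h2
  rw [add_zero] at h3
  refine h3.congr fun x => ?_
  simp only [mul_one, Finset.sum_const, nsmul_eq_mul]
  ring

theorem kav_sub_pav (hB : 0 ≤ B) (hz : ∀ v, ‖z v‖ ≤ B) :
    Tendsto (fun x : ℕ => kav z x - pav (cp z) x) atTop (𝓝 0) := by
  have hP := PB_cp hB hz
  have h1 : Tendsto (fun x : ℕ => ((Nat.primesBelow x).card : ℂ) / ((VF K x).card : ℂ)) atTop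
      (𝓝 1) := by
    have := (card_ratio (K := K)).inv₀ one_ne_zero
    rw [inv_one] at this
    refine this.congr fun x => ?_
    rw [inv_div]
  have h2 : Tendsto (fun x : ℕ => (∑ v ∈ VF K x, z v * 1 -
      ∑ p ∈ Nat.primesBelow x, cp z p * 1) / ((Nat.primesBelow x).card : ℂ)) atTop (𝓝 0) := by
    rw [tendsto_zero_iff_norm_tendsto_zero]
    have h3 := sqrt_div_tendsto.const_mul (B * Module.finrank ℚ K : ℝ)
    rw [mul_zero] at h3
    refine squeeze_zero (fun x => norm_nonneg _) (fun x => ?_) h3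
    rw [norm_div, Complex.norm_natCast, ← mul_div_assoc]
    refine div_le_div_of_nonneg_right ?_ (Nat.cast_nonneg _)
    have := sum_VF_sub (K := K) hB hz (fun _ => 1) (x := x) (F := 1) zero_le_one
      (fun n _ => by simp)
    rw [mul_one] at this
    linarith
  have h3 : Tendsto (fun x : ℕ => pav (cp z) x * (((Nat.primesBelow x).card : ℂ) /
      ((VF K x).card : ℂ) - 1)) atTop (𝓝 0) := by
    rw [tendsto_zero_iff_norm_tendsto_zero]
    have h4 : Tendsto (fun x : ℕ => (B * Module.finrank ℚ K) *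
        ‖((Nat.primesBelow x).card : ℂ) / ((VF K x).card : ℂ) - 1‖) atTop (𝓝 0) := by
      have := ((h1.sub_const 1).norm).const_mul (B * Module.finrank ℚ K)
      simpa using this
    refine squeeze_zero (fun x => norm_nonneg _) (fun x => ?_) h4
    rw [norm_mul]
    exact mul_le_mul_of_nonneg_right (norm_pav hP x) (norm_nonneg _)
  have h4 := (h2.mul h1).add h3
  rw [zero_mul, add_zero] at h4
  have h5 : ∀ᶠ x : ℕ in atTop, ((VF K x).card : ℂ) ≠ 0 := by
    have := (card_ratio (K := K)).eventually_ne one_ne_zero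
    filter_upwards [this] with x hx h0
    rw [h0, zero_div] at hx
    exact hx rfl
  refine h4.congr' ?_
  filter_upwards [eventually_ge_atTop 3, h5] with x hx hv
  have hc : ((Nat.primesBelow x).card : ℂ) ≠ 0 := by exact_mod_cast (card_pos_pb hx).ne'
  unfold kav pav
  simp only [mul_one]
  field_simp
  ring

theorem kav_tendsto_iff (hB : 0 ≤ B) (hz : ∀ v, ‖z v‖ ≤ B) {ρ : ℂ} :
    Tendsto (kav z) atTop (𝓝 ρ) ↔ Tendsto (pav (cp z)) atTop (𝓝 ρ) := by
  have h := kav_sub_pav hB hz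
  constructor
  · intro h1
    have := h1.sub h
    rw [sub_zero] at this
    refine this.congr fun x => ?_
    ring
  · intro h1
    have := h1.add h
    rw [add_zero] at this
    refine this.congr fun x => ?_
    ring

/-- the logarithmically weighted average -/
theorem log_av_tendsto (hB : 0 ≤ B) (hz : ∀ v, ‖z v‖ ≤ B) :
    Tendsto (fun x : ℕ => (x : ℂ)⁻¹ * ∑ v ∈ VF K x, z v * (Real.log (nm v) : ℝ) -
      Av (lw (cp z)) (Real.log x)) atTop (𝓝 0) := by
  have hP := PB_cp hB hz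
  rw [tendsto_zero_iff_norm_tendsto_zero]
  have h1 : Tendsto (fun x : ℝ => Real.log x / √x) atTop (𝓝 0) := by
    have h2 := (isLittleO_log_rpow_atTop (show (0 : ℝ) < 1 / 2 by norm_num)).tendsto_div_nhds_zero
    refine h2.congr fun x => ?_
    rw [Real.sqrt_eq_rpow]
  have h2 := (h1.comp (tendsto_natCast_atTop_atTop (R := ℝ))).const_mul
    (B * Module.finrank ℚ K : ℝ)
  rw [mul_zero] at h2
  refine squeeze_zero' (Eventually.of_forall fun x => norm_nonneg _) ?_ h2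
  filter_upwards [eventually_ge_atTop 3] with x hx
  have hx1 : 1 ≤ x := by omega
  have hx0 : (0 : ℝ) < x := by exact_mod_cast (by omega : 0 < x)
  have hs : 0 < √(x : ℝ) := Real.sqrt_pos.2 hx0
  have hexp : Real.exp (-Real.log x) = (x : ℝ)⁻¹ := by rw [Real.exp_neg, Real.exp_log hx0]
  have e1 : Av (lw (cp z)) (Real.log x) = (x : ℂ)⁻¹ * ∑ p ∈ Nat.primesBelow x,
      cp z p * (Real.log p : ℝ) := by
    rw [Av_prs (lw_zero hP), prs_log hx1, hexp]
    unfold lw
    push_cast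
    rfl
  rw [e1, ← mul_sub, norm_mul, norm_inv, Complex.norm_natCast]
  have h3 := sum_VF_sub (K := K) hB hz (fun n => ((Real.log n : ℝ) : ℂ)) (x := x)
    (F := Real.log x) (Real.log_natCast_nonneg x) (fun n hn => by
      rw [Complex.norm_real, Real.norm_of_nonneg (Real.log_natCast_nonneg n)]
      rcases Nat.eq_zero_or_pos n with h0 | h0
      · subst h0
        simpa using Real.log_natCast_nonneg x
      · exact Real.log_le_log (by exact_mod_cast h0) (by exact_mod_cast hn.le))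
  have h4 := mul_le_mul_of_nonneg_left h3 (inv_pos.2 hx0).le
  refine h4.trans (le_of_eq ?_)
  simp only [Function.comp]
  have e2 : (x : ℝ)⁻¹ * √(x : ℝ) = (√(x : ℝ))⁻¹ := by
    rw [inv_mul_eq_div, Real.sqrt_div_self', one_div]
  calc (x : ℝ)⁻¹ * (B * Real.log x * (Module.finrank ℚ K * √(x : ℝ)))
      = B * Module.finrank ℚ K * Real.log x * ((x : ℝ)⁻¹ * √(x : ℝ)) := by ring
    _ = _ := by
        rw [e2]
        ring

theorem log_av_iff (hB : 0 ≤ B) (hz : ∀ v, ‖z v‖ ≤ B) {ρ : ℂ} :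
    Tendsto (fun x : ℕ => (x : ℂ)⁻¹ * ∑ v ∈ VF K x, z v * (Real.log (nm v) : ℝ)) atTop (𝓝 ρ) ↔
      Tendsto (pav (cp z)) atTop (𝓝 ρ) := by
  have hP := PB_cp hB hz
  have h := (log_av_tendsto hB hz).add (Av_sub_pav hP)
  rw [add_zero] at h
  constructor
  · intro h1
    have := h1.sub h
    rw [sub_zero] at this
    refine this.congr fun x => ?_
    ring
  · intro h1
    have := h1.add h
    rw [add_zero] at this
    refine this.congr fun x => ?_
    ring

end

/-! ### The equivalence -/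

theorem Lim_of_angBd {w : ℝ} {D : ℕ} {β : ℕ → Fin D → ℂ} (hβ : Bd w β) {L : ℂ → ℂ}
    (hL : ∀ s : ℂ, w / 2 + 1 < s.re → L s = LF β 0 s) {l : ℝ → ℂ} (hl : AngBd w L l) :
    ∃ T : Set ℝ, volume T = 0 ∧ Lim (AP (qAD w β hβ)) T l := by
  obtain ⟨T, hT, hl⟩ := hl
  obtain ⟨E, hE, hb⟩ := boundary_q hβ
  refine ⟨T ∪ E, measure_union_null (null_of_dimH0 hT) (null_of_dimH0 hE), fun t ht => ?_⟩
  rw [Set.mem_union, not_or] at ht
  obtain ⟨h0, h1⟩ := hl t ht.1
  obtain ⟨l', hl'0, h2, h3⟩ := hb t ht.2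
  have h4 : Tendsto L (𝓝[{s : ℂ | w / 2 + 1 < s.re ∧
      ‖s - eq0 w t‖ ≤ 1 * (s.re - (w / 2 + 1))}] (eq0 w t)) (𝓝 l') := by
    refine (h3 1).congr' ?_
    filter_upwards [self_mem_nhdsWithin] with s hs
    rw [hL s hs.1, LF_zero]
  have hne : (𝓝[{s : ℂ | w / 2 + 1 < s.re ∧
      ‖s - eq0 w t‖ ≤ 1 * (s.re - (w / 2 + 1))}] (eq0 w t)).NeBot := by
    exact (hor_path w t).neBot
  have h5 := tendsto_nhds_unique (h1 1) h4
  refine ⟨h0, ?_⟩
  rw [h5]
  refine h2.congr fun x => ?_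
  exact q_partial hβ x t

section
variable {K : Type} [Field K] [NumberField K] {N : ℕ} {w : ℝ}

/-- the normalised traces -/
noncomputable def ntrK (w : ℝ) (α : HeightOneSpectrum (𝓞 K) → Fin N → ℂ)
    (v : HeightOneSpectrum (𝓞 K)) : ℂ :=
  ∑ j, α v j * (((nm v : ℝ) ^ (-(w / 2)) : ℝ) : ℂ)

theorem norm_ntrK {α : HeightOneSpectrum (𝓞 K) → Fin N → ℂ} (hα : BdK w α)
    (v : HeightOneSpectrum (𝓞 K)) : ‖ntrK w α v‖ ≤ N := by
  have h0 : (0 : ℝ) < nm v := by
    have := two_le_nm v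
    exact_mod_cast (by omega : 0 < nm v)
  unfold ntrK
  refine (norm_sum_le_of_le (n := fun _ => (1 : ℝ)) _ fun j _ => ?_).trans (by simp)
  rw [norm_mul, Complex.norm_real, Real.norm_of_nonneg (by positivity)]
  calc ‖α v j‖ * (nm v : ℝ) ^ (-(w / 2)) ≤ (nm v : ℝ) ^ (w / 2) * (nm v : ℝ) ^ (-(w / 2)) := by
        gcongr
        exact hα v j
    _ = 1 := by
        rw [← Real.rpow_add h0]
        simp

theorem cp_ntrK {D : ℕ} {α : HeightOneSpectrum (𝓞 K) → Fin N → ℂ} {β : ℕ → Fin D → ℂ}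
    (h : Assoc α β) {p : ℕ} (hp : p.Prime) : cp (ntrK w α) p = ntr w β p := by
  classical
  unfold cp ntr ntrK
  rw [dif_pos hp, ← Finset.sum_mul, trace_kq (p := ⟨p, hp⟩) (fun z => h ⟨p, hp⟩ z), Finset.sum_mul]
  refine Finset.sum_congr rfl fun v _ => ?_
  split_ifs with hd
  · rw [← Finset.sum_mul, nm_of_deg hd]
    have : (below v.1 : ℕ) = p := congrArg Subtype.val v.2
    rw [this]
  · rw [zero_mul]

theorem pav_cp {D : ℕ} {α : HeightOneSpectrum (𝓞 K) → Fin N → ℂ} {β : ℕ → Fin D → ℂ}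
    (h : Assoc α β) (hβ : Bd w β) : pav (cp (ntrK w α)) = pav (qAD w β hβ).c := by
  funext x
  rw [pav_ntr hβ]
  unfold pav
  congr 1
  refine Finset.sum_congr rfl fun p hp => ?_
  exact cp_ntrK h (Nat.prime_of_mem_primesBelow hp)

/-- the condition on the edge -/
def Edge (l : ℝ → ℂ) (ρ : ℂ) : Prop := ∀ φ : ℝ → ℂ, Tst φ →
  Tendsto (fun x : ℝ => (x : ℂ) * II l φ x) atTop (𝓝 (Real.pi * ρ * φ 0))

/-- the condition on the edge, in a window -/
def EdgeW (lam : ℝ) (l : ℝ → ℂ) (ρ : ℂ) : Prop := ∀ φ : ℝ → ℂ, Tst φ →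
  (∀ t, lam ≤ |t| → φ t = 0) →
  Tendsto (fun x : ℝ => (x : ℂ) * II l φ x) atTop (𝓝 (Real.pi * ρ * φ 0))

theorem k_tauber0 {α : HeightOneSpectrum (𝓞 K) → Fin N → ℂ} (hα : BdK w α) {l : ℝ → ℂ}
    (hl : AngBd w (LK α) l) (ρ : ℂ) :
    Tendsto (pav (cp (ntrK w α))) atTop (𝓝 ρ) ↔ Edge l ρ := by
  obtain ⟨β, hβ, hA⟩ := kq hα
  have hA' : Assoc α β := hA
  obtain ⟨T, hT, hLim⟩ := Lim_of_angBd hβ (fun s hs => LK_eq hα hA' s hs) hl
  rw [pav_cp hA' hβ]
  exact ⟨fun h φ hφ => edge_of_av (qDD hβ) hT hLim h hφ, fun h => av_of_edge' (qDD hβ) hT hLim h⟩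

/-- The theorem over number fields, for the averages over the primes. -/
theorem k_tauber {α : HeightOneSpectrum (𝓞 K) → Fin N → ℂ} (hα : BdK w α) {l : ℝ → ℂ}
    (hl : AngBd w (LK α) l) (ρ : ℂ) :
    Tendsto (kav (ntrK w α)) atTop (𝓝 ρ) ↔ Edge l ρ := by
  rw [kav_tendsto_iff (Nat.cast_nonneg N) (norm_ntrK hα), k_tauber0 hα hl]

/-- The theorem over number fields, for the averages with logarithmic weights. -/
theorem k_tauber_log {α : HeightOneSpectrum (𝓞 K) → Fin N → ℂ} (hα : BdK w α) {l : ℝ → ℂ}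
    (hl : AngBd w (LK α) l) (ρ : ℂ) :
    Tendsto (fun x : ℕ => (x : ℂ)⁻¹ * ∑ v ∈ VF K x, ntrK w α v * (Real.log (nm v) : ℝ)) atTop
      (𝓝 ρ) ↔ Edge l ρ := by
  rw [log_av_iff (Nat.cast_nonneg N) (norm_ntrK hα), k_tauber0 hα hl]

end

/-- The theorem with a window. -/
theorem k_window : ∃ C : ℝ, 0 < C ∧ ∀ (K : Type) [Field K] [NumberField K] (N : ℕ) (w : ℝ)
    (α : HeightOneSpectrum (𝓞 K) → Fin N → ℂ), BdK w α → ∀ l : ℝ → ℂ, AngBd w (LK α) l →
    ∀ (ρ : ℂ) (lam : ℝ), 0 < lam → EdgeW lam l ρ → ∀ ε : ℝ, 0 < ε →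
    (∀ᶠ x : ℕ in atTop, ‖kav (ntrK w α) x - ρ‖ ≤ C * (N * Module.finrank ℚ K) / lam + ε) ∧
    ∀ᶠ x : ℕ in atTop, ‖(x : ℂ)⁻¹ * ∑ v ∈ VF K x, ntrK w α v * (Real.log (nm v) : ℝ) - ρ‖ ≤
      C * (N * Module.finrank ℚ K) / lam + ε := by
  obtain ⟨C, hC, h⟩ := av_of_edge
  refine ⟨C, hC, fun K _ _ N w α hα l hl ρ lam hlam hφ ε hε => ?_⟩
  obtain ⟨β, hβ, hA⟩ := kq hα
  have hA' : Assoc α β := hA
  obtain ⟨T, hT, hLim⟩ := Lim_of_angBd hβ (fun s hs => LK_eq hα hA' s hs) hl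
  have h1 := h _ _ _ _ _ (qDD hβ) T hT l hLim ρ lam hlam hφ (ε / 2) (by linarith)
  rw [← pav_cp hA' hβ] at h1
  have e1 : ((N * Module.finrank ℚ K : ℕ) : ℝ) = N * Module.finrank ℚ K := by push_cast; ring
  rw [e1] at h1
  have hP := PB_cp (Nat.cast_nonneg N) (norm_ntrK hα)
  have h2 := kav_sub_pav (Nat.cast_nonneg N) (norm_ntrK hα)
  have h3 := (log_av_tendsto (Nat.cast_nonneg N) (norm_ntrK hα)).add (Av_sub_pav hP)
  rw [add_zero] at h3
  have h2' := (Metric.tendsto_nhds.1 h2) (ε / 2) (by linarith)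
  have h3' := (Metric.tendsto_nhds.1 h3) (ε / 2) (by linarith)
  constructor
  · filter_upwards [h1, h2'] with x a1 a2
    rw [dist_zero_right] at a2
    have : kav (ntrK w α) x - ρ = (kav (ntrK w α) x - pav (cp (ntrK w α)) x) +
        (pav (cp (ntrK w α)) x - ρ) := by ring
    rw [this]
    refine (norm_add_le _ _).trans ?_
    linarith
  · filter_upwards [h1, h3'] with x a1 a2
    rw [dist_zero_right] at a2
    have : (x : ℂ)⁻¹ * ∑ v ∈ VF K x, ntrK w α v * (Real.log (nm v) : ℝ) - ρ =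
        ((x : ℂ)⁻¹ * ∑ v ∈ VF K x, ntrK w α v * (Real.log (nm v) : ℝ) -
          Av (lw (cp (ntrK w α))) (Real.log x) +
          (Av (lw (cp (ntrK w α))) (Real.log x) - pav (cp (ntrK w α)) x)) +
        (pav (cp (ntrK w α)) x - ρ) := by ring
    rw [this]
    refine (norm_add_le _ _).trans ?_
    linarith

end Pool.Agent.Q255.SG
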