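import Pool.Agent.Q255.SG.LA

/-! # Logarithmic weights: the averages of the Tauberian Tate conjecture -/

set_option autoImplicit false

namespace Pool.Agent.Q255.SG.TT

open NumberField IsDedekindDomain Pool.Agent.H921R2.TatePole MeasureTheory Filter Topology
  Pool.Agent.Q255.SG

variable {K : Type} [Field K] [NumberField K] {N : ℕ} {w : ℝ}

/-- the average over the primes of norm smaller than `x` -/
noncomputable def AA (w : ℝ) (α : HeightOneSpectrum (𝓞 K) → Fin N → ℂ) (x : ℕ) : ℂ :=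
  (x : ℂ)⁻¹ * ∑ v ∈ VF K x, ntrK w α v * (Real.log (nm v) : ℝ)

/-- the average over the primes outside `R` of norm at most `T` -/
noncomputable def tm (R : Set (HeightOneSpectrum (𝓞 K))) (w : ℝ)
    (α : HeightOneSpectrum (𝓞 K) → Fin N → ℂ) (T : ℝ) : ℂ :=
  (T : ℂ)⁻¹ * ∑ᶠ v ∈ {v : HeightOneSpectrum (𝓞 K) | (nm v : ℝ) ≤ T ∧ v ∉ R},
    ntrK w α v * (Real.log (nm v) : ℝ)

theorem AA_bound {α : HeightOneSpectrum (𝓞 K) → Fin N → ℂ} (hα : BdK w α) : ∃ B : ℝ, 0 < B ∧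
    ∀ᶠ x : ℕ in atTop, ‖AA w α x‖ ≤ B := by
  have h1 := log_av_tendsto (z := ntrK w α) (Nat.cast_nonneg N) (norm_ntrK hα)
  have hP := PB_cp (z := ntrK w α) (Nat.cast_nonneg N) (norm_ntrK hα)
  have h2 := (Metric.tendsto_nhds.1 h1) 1 one_pos
  have h0 : 0 ≤ (N : ℝ) * Module.finrank ℚ K * Real.log 4 :=
    (norm_nonneg _).trans (Av_bound (AvB_lw hP) 0)
  refine ⟨N * Module.finrank ℚ K * Real.log 4 + 1, by linarith, ?_⟩
  filter_upwards [h2] with x hx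
  rw [dist_zero_right] at hx
  have h3 := Av_bound (AvB_lw hP) (Real.log x)
  have e1 : AA w α x = (AA w α x - Av (lw (cp (ntrK w α))) (Real.log x)) +
      Av (lw (cp (ntrK w α))) (Real.log x) := by ring
  rw [e1]
  refine (norm_add_le _ _).trans ?_
  unfold AA
  linarith

theorem set_finite (R : Set (HeightOneSpectrum (𝓞 K))) (T : ℝ) :
    {v : HeightOneSpectrum (𝓞 K) | (nm v : ℝ) ≤ T ∧ v ∉ R}.Finite := by
  refine (finite_lt (⌊T⌋₊ + 1)).subset fun v hv => ?_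
  exact Nat.lt_succ_of_le (Nat.le_floor hv.1)

theorem sum_split [DecidableEq (HeightOneSpectrum (𝓞 K))] {R : Set (HeightOneSpectrum (𝓞 K))}
    (hR : R.Finite) (f : HeightOneSpectrum (𝓞 K) → ℂ) {T : ℝ} (hT : 0 ≤ T) :
    ∑ᶠ v ∈ {v : HeightOneSpectrum (𝓞 K) | (nm v : ℝ) ≤ T ∧ v ∉ R}, f v =
      ∑ v ∈ VF K (⌊T⌋₊ + 1), f v -
        ∑ v ∈ (VF K (⌊T⌋₊ + 1)).filter (fun v => v ∈ hR.toFinset), f v := by
  classical
  have h1 : {v : HeightOneSpectrum (𝓞 K) | (nm v : ℝ) ≤ T ∧ v ∉ R} =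
      (((VF K (⌊T⌋₊ + 1)).filter (fun v => ¬ v ∈ hR.toFinset) : Finset _) :
        Set (HeightOneSpectrum (𝓞 K))) := by
    ext v
    rw [Finset.coe_filter, Set.mem_ofPred_eq, Set.mem_ofPred_eq, mem_VF, Nat.lt_succ_iff,
      Set.Finite.mem_toFinset, Nat.le_floor_iff hT]
  rw [h1, finsum_mem_coe_finset]
  have h2 := Finset.sum_filter_add_sum_filter_not (VF K (⌊T⌋₊ + 1)) (fun v => v ∈ hR.toFinset) f
  rw [← h2]
  ring

theorem floor_ratio : Tendsto (fun T : ℝ => (((⌊T⌋₊ + 1 : ℕ) : ℝ) / T)) atTop (𝓝 1) := by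
  have h1 := tendsto_nat_floor_div_atTop (R := ℝ)
  have h2 : Tendsto (fun T : ℝ => 1 / T) atTop (𝓝 0) := by
    simpa using tendsto_inv_atTop_zero (𝕜 := ℝ)
  have h3 := h1.add h2
  rw [add_zero] at h3
  refine h3.congr fun T => ?_
  push_cast
  ring

theorem tm_sub {R : Set (HeightOneSpectrum (𝓞 K))} (hR : R.Finite)
    {α : HeightOneSpectrum (𝓞 K) → Fin N → ℂ} (hα : BdK w α) :
    Tendsto (fun T : ℝ => tm R w α T - AA w α (⌊T⌋₊ + 1)) atTop (𝓝 0) := by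
  classical
  obtain ⟨B, hB, hBd⟩ := AA_bound hα
  set f : HeightOneSpectrum (𝓞 K) → ℂ := fun v => ntrK w α v * (Real.log (nm v) : ℝ) with hf
  set D : ℝ := ∑ v ∈ hR.toFinset, ‖f v‖ with hD
  have hD0 : 0 ≤ D := Finset.sum_nonneg fun _ _ => norm_nonneg _
  have hlim : Tendsto (fun T : ℝ => B * |((⌊T⌋₊ + 1 : ℕ) : ℝ) / T - 1| + D / T) atTop (𝓝 0) := by
    have h1 := ((floor_ratio.sub_const 1).abs).const_mul B
    have h2 : Tendsto (fun T : ℝ => D / T) atTop (𝓝 0) := tendsto_const_nhds.div_atTop tendsto_id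
    simpa using h1.add h2
  have hfl : Tendsto (fun T : ℝ => ⌊T⌋₊ + 1) atTop atTop :=
    (tendsto_add_atTop_nat 1).comp tendsto_nat_floor_atTop
  rw [tendsto_zero_iff_norm_tendsto_zero]
  refine squeeze_zero' (Eventually.of_forall fun x => norm_nonneg _) ?_ hlim
  filter_upwards [hfl.eventually hBd, eventually_gt_atTop (0 : ℝ)] with T h1 hT
  have e1 : tm R w α T - AA w α (⌊T⌋₊ + 1) =
      AA w α (⌊T⌋₊ + 1) * ((((⌊T⌋₊ + 1 : ℕ) : ℝ) / T - 1 : ℝ) : ℂ) -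
        (T : ℂ)⁻¹ * ∑ v ∈ (VF K (⌊T⌋₊ + 1)).filter (fun v => v ∈ hR.toFinset), f v := by
    unfold tm
    rw [sum_split hR _ hT.le]
    have hT' : (T : ℂ) ≠ 0 := by exact_mod_cast hT.ne'
    have hn : (((⌊T⌋₊ + 1 : ℕ) : ℂ)) ≠ 0 := by exact_mod_cast Nat.succ_ne_zero ⌊T⌋₊
    unfold AA
    simp only [hf]
    generalize ∑ v ∈ VF K (⌊T⌋₊ + 1), ntrK w α v * ((Real.log (nm v) : ℝ) : ℂ) = s1
    rw [Complex.ofReal_sub, Complex.ofReal_div, Complex.ofReal_natCast, Complex.ofReal_one]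
    field_simp
    ring
  rw [e1]
  refine (norm_sub_le _ _).trans (add_le_add ?_ ?_)
  · rw [norm_mul, Complex.norm_real, Real.norm_eq_abs]
    exact mul_le_mul_of_nonneg_right h1 (abs_nonneg _)
  · rw [norm_mul, norm_inv, Complex.norm_real, Real.norm_of_nonneg hT.le, div_eq_inv_mul]
    refine mul_le_mul_of_nonneg_left ?_ (by positivity)
    refine (norm_sum_le _ _).trans ?_
    refine Finset.sum_le_sum_of_subset_of_nonneg (fun v hv => (Finset.mem_filter.1 hv).2)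
      fun _ _ _ => norm_nonneg _

theorem tendsto_floor_iff {f : ℕ → ℂ} {ρ : ℂ} :
    Tendsto (fun T : ℝ => f (⌊T⌋₊ + 1)) atTop (𝓝 ρ) ↔ Tendsto f atTop (𝓝 ρ) := by
  constructor
  · intro h
    rw [← tendsto_add_atTop_iff_nat 1]
    have := h.comp (tendsto_natCast_atTop_atTop (R := ℝ))
    refine this.congr fun n => ?_
    simp
  · intro h
    have hfl : Tendsto (fun T : ℝ => ⌊T⌋₊ + 1) atTop atTop :=
      (tendsto_add_atTop_nat 1).comp tendsto_nat_floor_atTop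
    exact h.comp hfl

/-- The Tauberian theorem. -/
theorem tm_iff {R : Set (HeightOneSpectrum (𝓞 K))} (hR : R.Finite)
    {α : HeightOneSpectrum (𝓞 K) → Fin N → ℂ} (hα : BdK w α) {l : ℝ → ℂ}
    (hl : AngBd w (LK α) l) (ρ : ℂ) :
    Tendsto (tm R w α) atTop (𝓝 ρ) ↔ Edge l ρ := by
  rw [← k_tauber_log hα hl ρ, ← tendsto_floor_iff (f := fun x : ℕ =>
    (x : ℂ)⁻¹ * ∑ v ∈ VF K x, ntrK w α v * (Real.log (nm v) : ℝ))]
  have h := tm_sub hR hα
  constructor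
  · intro h1
    have := h1.sub h
    rw [sub_zero] at this
    refine this.congr fun x => ?_
    unfold AA
    ring
  · intro h1
    have := h1.add h
    rw [add_zero] at this
    refine this.congr fun x => ?_
    unfold AA
    ring

/-- The theorem with a window. -/
theorem tm_window : ∃ C : ℝ, 0 < C ∧ ∀ (K : Type) [Field K] [NumberField K] (N : ℕ) (w : ℝ)
    (α : HeightOneSpectrum (𝓞 K) → Fin N → ℂ), BdK w α →
    ∀ R : Set (HeightOneSpectrum (𝓞 K)), R.Finite → ∀ l : ℝ → ℂ, AngBd w (LK α) l →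
    ∀ (ρ : ℂ) (lam : ℝ), 0 < lam →
    (∀ φ : ℝ → ℂ, Tst φ → (∀ t ∈ tsupport φ, |t| < lam) →
      Tendsto (fun x : ℝ => (x : ℂ) * II l φ x) atTop (𝓝 (Real.pi * ρ * φ 0))) →
    ∀ ε : ℝ, 0 < ε → ∀ᶠ T : ℝ in atTop,
      ‖tm R w α T - ρ‖ ≤ C * (N * Module.finrank ℚ K) / lam + ε := by
  obtain ⟨C, hC, h⟩ := k_window'
  refine ⟨C, hC, fun K _ _ N w α hα R hR l hl ρ lam hlam hφ ε hε => ?_⟩
  have h1 := (h K N w α hα l hl ρ lam hlam hφ (ε / 2) (by linarith)).2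
  have h2 := (Metric.tendsto_nhds.1 (tm_sub hR hα)) (ε / 2) (by linarith)
  have hfl : Tendsto (fun T : ℝ => ⌊T⌋₊ + 1) atTop atTop :=
    (tendsto_add_atTop_nat 1).comp tendsto_nat_floor_atTop
  filter_upwards [hfl.eventually h1, h2] with T g1 g2
  rw [dist_zero_right] at g2
  have e1 : tm R w α T - ρ = (tm R w α T - AA w α (⌊T⌋₊ + 1)) + (AA w α (⌊T⌋₊ + 1) - ρ) := by
    ring
  rw [e1]
  refine (norm_add_le _ _).trans ?_
  have g3 : ‖AA w α (⌊T⌋₊ + 1) - ρ‖ ≤ C * (N * Module.finrank ℚ K) / lam + ε / 2 := g1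
  linarith

end Pool.Agent.Q255.SG.TT
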