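import Pool.Agent.Q255.SG.QSys

/-! # Testing against one frequency -/

set_option autoImplicit false

namespace Pool.Agent.Q255.SG

open Finset MeasureTheory Filter Topology Pool.Agent.Q255.SA

theorem int_e {lam : ℝ} (h : lam ≠ 0) (a T : ℝ) :
    ‖∫ t in a..(a + T), Complex.exp ((lam * t : ℝ) * Complex.I)‖ ≤ 2 / |lam| := by
  have hne : (lam : ℂ) * Complex.I ≠ 0 :=
    mul_ne_zero (by exact_mod_cast h) Complex.I_ne_zero
  have h1 : ∀ t : ℝ, Complex.exp ((lam * t : ℝ) * Complex.I) =
      Complex.exp ((lam : ℂ) * Complex.I * t) := by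
    intro t
    congr 1
    push_cast
    ring
  simp_rw [h1]
  rw [integral_exp_mul_complex hne, norm_div, norm_mul, Complex.norm_I, mul_one, Complex.norm_real,
    Real.norm_eq_abs]
  refine div_le_div_of_nonneg_right ?_ (abs_nonneg _)
  refine (norm_sub_le _ _).trans ?_
  have h2 : ∀ x : ℝ, ‖Complex.exp ((lam : ℂ) * Complex.I * x)‖ = 1 := by
    intro x
    rw [← h1, Complex.norm_exp_ofReal_mul_I]
  rw [h2, h2]
  norm_num

/-- integrals of `e^{iλt}` against a selector -/
theorem int_sel {lam δ T : ℝ} {e : ℝ} (hδ : 0 < δ) (hT : 0 ≤ T)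
    (h : (e = 1 ∧ lam = 0) ∨ (e = 0 ∧ δ ≤ |lam|)) (a : ℝ) :
    ‖(∫ t in a..(a + T), Complex.exp ((lam * t : ℝ) * Complex.I)) - e * T‖ ≤ 2 / δ := by
  rcases h with ⟨h1, h2⟩ | ⟨h1, h2⟩
  · subst h1 h2
    have h3 : ∀ t : ℝ, Complex.exp (((0 : ℝ) * t : ℝ) * Complex.I) = 1 := by
      intro t
      simp
    simp_rw [h3]
    simp
    positivity
  · subst h1
    have h3 : lam ≠ 0 := by
      intro h
      rw [h, abs_zero] at h2
      linarith
    rw [Complex.ofReal_zero, zero_mul, sub_zero]
    refine (int_e h3 a T).trans ?_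
    gcongr

theorem test_lemma {b : ℕ → ℂ} {lam e : ℕ → ℝ} {g : ℝ → ℂ} (hb : Summable fun m => ‖b m‖)
    (hg : ∀ t, HasSum (fun m => b m * Complex.exp ((-(lam m * t) : ℝ) * Complex.I)) (g t))
    (hgc : Continuous g) {l0 δ T : ℝ} (hδ : 0 < δ) (hT : 0 ≤ T)
    (h1 : ∀ m, (e m = 1 ∧ lam m = l0) ∨ (e m = 0 ∧ δ ≤ |l0 - lam m|))
    (h2 : ∀ m, δ ≤ |l0 + lam m|) (a : ℝ) :
    ‖(∫ t in a..(a + T), ((g t).re : ℂ) * Complex.exp ((l0 * t : ℝ) * Complex.I)) -
      T / 2 * ∑' m, e m * b m‖ ≤ 2 / δ * ∑' m, ‖b m‖ := by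
  -- the two halves
  have hsum1 : HasSum (fun m => ∫ t in a..(a + T),
      b m * Complex.exp (((l0 - lam m) * t : ℝ) * Complex.I))
      (∫ t in a..(a + T), g t * Complex.exp ((l0 * t : ℝ) * Complex.I)) := by
    refine intervalIntegral.hasSum_integral_of_dominated_convergence (fun m _ => ‖b m‖) ?_ ?_ ?_ ?_ ?_
    · intro m
      apply Continuous.aestronglyMeasurable
      fun_prop
    · intro m
      refine Eventually.of_forall fun t _ => ?_
      rw [norm_mul, Complex.norm_exp_ofReal_mul_I, mul_one]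
    · exact Eventually.of_forall fun t _ => hb
    · exact intervalIntegrable_const
    · refine Eventually.of_forall fun t _ => ?_
      have h3 := (hg t).mul_right (Complex.exp ((l0 * t : ℝ) * Complex.I))
      refine h3.congr_fun ?_
      intro m
      rw [mul_assoc, ← Complex.exp_add]
      congr 2
      push_cast
      ring
  have hsum2 : HasSum (fun m => ∫ t in a..(a + T),
      (starRingEnd ℂ) (b m) * Complex.exp (((l0 + lam m) * t : ℝ) * Complex.I))
      (∫ t in a..(a + T), (starRingEnd ℂ) (g t) * Complex.exp ((l0 * t : ℝ) * Complex.I)) := by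
    refine intervalIntegral.hasSum_integral_of_dominated_convergence (fun m _ => ‖b m‖) ?_ ?_ ?_ ?_ ?_
    · intro m
      apply Continuous.aestronglyMeasurable
      fun_prop
    · intro m
      refine Eventually.of_forall fun t _ => ?_
      rw [norm_mul, Complex.norm_exp_ofReal_mul_I, mul_one, RCLike.norm_conj]
    · exact Eventually.of_forall fun t _ => hb
    · exact intervalIntegrable_const
    · refine Eventually.of_forall fun t _ => ?_
      have h4 : HasSum (fun m => (starRingEnd ℂ) (b m *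
          Complex.exp ((-(lam m * t) : ℝ) * Complex.I))) ((starRingEnd ℂ) (g t)) :=
        (Complex.hasSum_conj' (f := fun m => b m *
          Complex.exp ((-(lam m * t) : ℝ) * Complex.I))).2 (hg t)
      have h3 := h4.mul_right (Complex.exp ((l0 * t : ℝ) * Complex.I))
      refine h3.congr_fun ?_
      intro m
      rw [map_mul, mul_assoc, ← Complex.exp_conj, ← Complex.exp_add]
      congr 2
      rw [map_mul, Complex.conj_ofReal, Complex.conj_I]
      push_cast
      ring
  have he : ∀ m, |e m| ≤ 1 := by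
    intro m
    rcases h1 m with h | h <;> rw [h.1] <;> norm_num
  have heb : Summable fun m => (e m : ℂ) * b m := by
    refine Summable.of_norm_bounded hb fun m => ?_
    rw [norm_mul, Complex.norm_real, Real.norm_eq_abs]
    exact mul_le_of_le_one_left (norm_nonneg _) (he m)
  have hA : ‖(∫ t in a..(a + T), g t * Complex.exp ((l0 * t : ℝ) * Complex.I)) -
      T * ∑' m, (e m : ℂ) * b m‖ ≤ 2 / δ * ∑' m, ‖b m‖ := by
    have h3 := hsum1.sub (heb.hasSum.mul_left (T : ℂ))
    rw [← h3.tsum_eq, ← tsum_mul_left]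
    refine tsum_of_norm_bounded (hb.mul_left (2 / δ)).hasSum fun m => ?_
    rw [intervalIntegral.integral_const_mul]
    have h4 : b m * (∫ t in a..(a + T), Complex.exp (((l0 - lam m) * t : ℝ) * Complex.I)) -
        (T : ℂ) * ((e m : ℂ) * b m) =
        b m * ((∫ t in a..(a + T), Complex.exp (((l0 - lam m) * t : ℝ) * Complex.I)) -
          e m * T) := by ring
    rw [h4, norm_mul, mul_comm]
    refine mul_le_mul_of_nonneg_right ?_ (norm_nonneg _)
    refine int_sel hδ hT ?_ a
    rcases h1 m with h | h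
    · exact Or.inl ⟨h.1, by rw [h.2, sub_self]⟩
    · exact Or.inr h
  have hB : ‖∫ t in a..(a + T), (starRingEnd ℂ) (g t) * Complex.exp ((l0 * t : ℝ) * Complex.I)‖ ≤
      2 / δ * ∑' m, ‖b m‖ := by
    rw [← hsum2.tsum_eq, ← tsum_mul_left]
    refine tsum_of_norm_bounded (hb.mul_left (2 / δ)).hasSum fun m => ?_
    rw [intervalIntegral.integral_const_mul, norm_mul, RCLike.norm_conj, mul_comm]
    refine mul_le_mul_of_nonneg_right ?_ (norm_nonneg _)
    have h5 : l0 + lam m ≠ 0 := by
      intro h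
      have := h2 m
      rw [h, abs_zero] at this
      linarith
    refine (int_e h5 a T).trans ?_
    have := h2 m
    gcongr
  have hC : (∫ t in a..(a + T), ((g t).re : ℂ) * Complex.exp ((l0 * t : ℝ) * Complex.I)) =
      1 / 2 * ((∫ t in a..(a + T), g t * Complex.exp ((l0 * t : ℝ) * Complex.I)) +
        ∫ t in a..(a + T), (starRingEnd ℂ) (g t) * Complex.exp ((l0 * t : ℝ) * Complex.I)) := by
    rw [← intervalIntegral.integral_add, ← intervalIntegral.integral_const_mul]
    · refine intervalIntegral.integral_congr fun t _ => ?_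
      rw [Complex.re_eq_add_conj]
      ring
    · apply Continuous.intervalIntegrable
      fun_prop
    · apply Continuous.intervalIntegrable
      fun_prop
  rw [hC]
  set I1 := ∫ t in a..(a + T), g t * Complex.exp ((l0 * t : ℝ) * Complex.I)
  set I2 := ∫ t in a..(a + T), (starRingEnd ℂ) (g t) * Complex.exp ((l0 * t : ℝ) * Complex.I)
  set S := ∑' m, (e m : ℂ) * b m
  have hD : 1 / 2 * (I1 + I2) - T / 2 * S = 1 / 2 * (I1 - T * S) + 1 / 2 * I2 := by ring
  rw [hD]
  refine (norm_add_le _ _).trans ?_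
  rw [norm_mul, norm_mul]
  have h12 : ‖(1 / 2 : ℂ)‖ = 1 / 2 := by norm_num
  rw [h12]
  linarith

end Pool.Agent.Q255.SG
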