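import Mathlib
import Pool.Agent.TH109.CG.Kron
import Pool.Agent.W755.HaightA

/-! # Uniform Kronecker-Weyl theorem -/

set_option autoImplicit false

namespace Pool.Agent.Q255.SG

open MeasureTheory Filter Topology UnitAddTorus Pool.Agent.TH109.CG

variable {ι : Type} [Fintype ι]

/-- normalised Haar measure of the torus -/
noncomputable def tor (ι : Type) [Fintype ι] : Measure (UnitAddTorus ι) :=
  Measure.pi fun _ : ι => (AddCircle.haarAddCircle : Measure UnitAddCircle)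

instance : IsProbabilityMeasure (tor ι) := by
  unfold tor
  infer_instance

/-- mean over `[a,a+T]` -/
noncomputable def avg {E : Type*} [NormedAddCommGroup E] [NormedSpace ℝ E] (f : ℝ → E) (a T : ℝ) :
    E := T⁻¹ • ∫ t in a..(a + T), f t

theorem avg_mFourier (b : ι → ℝ) (n : ι → ℤ) (h : ∑ i, (n i : ℝ) * b i ≠ 0) :
    ∃ C : ℝ, 0 < C ∧ ∀ a T : ℝ, 0 < T → ‖avg (fun t => mFourier n (ln b t)) a T‖ ≤ C / T := by
  set c : ℂ := 2 * Real.pi * Complex.I * ((∑ i, (n i : ℝ) * b i : ℝ) : ℂ) with hc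
  have hc0 : c ≠ 0 := by
    rw [hc]
    have : ((∑ i, (n i : ℝ) * b i : ℝ) : ℂ) ≠ 0 := Complex.ofReal_ne_zero.2 h
    have h2 : (2 * Real.pi : ℂ) ≠ 0 := by
      exact_mod_cast (by positivity : (2 * Real.pi : ℝ) ≠ 0)
    exact mul_ne_zero (mul_ne_zero h2 Complex.I_ne_zero) this
  have hn : 0 < ‖c‖ := norm_pos_iff.2 hc0
  refine ⟨2 / ‖c‖, by positivity, fun a T hT => ?_⟩
  have h1 : ∀ u : ℝ, ‖Complex.exp (c * u)‖ = 1 := by
    intro u
    rw [hc, Complex.norm_exp]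
    have : (2 * (Real.pi : ℂ) * Complex.I * ((∑ i, (n i : ℝ) * b i : ℝ) : ℂ) * (u : ℂ)).re = 0 := by
      have e : (2 * (Real.pi : ℂ) * Complex.I * ((∑ i, (n i : ℝ) * b i : ℝ) : ℂ) * (u : ℂ)) =
          ((2 * Real.pi * (∑ i, (n i : ℝ) * b i) * u : ℝ) : ℂ) * Complex.I := by
        push_cast
        ring
      rw [e, Complex.re_ofReal_mul, Complex.I_re, mul_zero]
    rw [this, Real.exp_zero]
  unfold avg
  simp only [mFourier_ln]
  rw [← hc, integral_exp_mul_complex hc0, norm_smul, norm_div, norm_inv, Real.norm_of_nonneg hT.le]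
  have h2 : ‖Complex.exp (c * ((a + T : ℝ) : ℂ)) - Complex.exp (c * (a : ℂ))‖ ≤ 2 := by
    refine (norm_sub_le _ _).trans ?_
    rw [h1, h1]
    norm_num
  calc T⁻¹ * (‖Complex.exp (c * ((a + T : ℝ) : ℂ)) - Complex.exp (c * (a : ℂ))‖ / ‖c‖) ≤
        T⁻¹ * (2 / ‖c‖) := by gcongr
    _ = 2 / ‖c‖ / T := by ring

theorem integral_mFourier_vol (n : ι → ℤ) (hn : n ≠ 0) : ∫ x, mFourier n x ∂(tor ι) = 0 := by
  obtain ⟨i, hi⟩ := Function.ne_iff.mp hn
  rw [mFourier, ContinuousMap.coe_mk, tor]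
  rw [MeasureTheory.integral_fintype_prod_eq_prod (fun j x => fourier (n j) x)]
  refine Finset.prod_eq_zero (Finset.mem_univ i) ?_
  have h := (orthonormal_iff_ite.mp <| orthonormal_fourier (T := 1)) 0 (n i)
  have hi' : ¬ ((0 : ℤ) = n i) := fun h => hi h.symm
  rw [if_neg hi'] at h
  rw [ContinuousMap.inner_toLp] at h
  simp only [fourier_zero, map_one, one_mul, mul_one] at h
  exact h

/-- Uniform convergence of the means -/
def Good (b : ι → ℝ) (g : C(UnitAddTorus ι, ℂ)) : Prop :=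
  ∀ ε : ℝ, 0 < ε → ∃ T0 : ℝ, 0 < T0 ∧ ∀ T : ℝ, T0 ≤ T → ∀ a : ℝ,
    ‖avg (fun t => g (ln b t)) a T - ∫ x, g x ∂(tor ι)‖ ≤ ε

theorem avg_add (b : ι → ℝ) (f g : C(UnitAddTorus ι, ℂ)) (a T : ℝ) :
    avg (fun t => (f + g) (ln b t)) a T =
      avg (fun t => f (ln b t)) a T + avg (fun t => g (ln b t)) a T := by
  unfold avg
  rw [← smul_add, ← intervalIntegral.integral_add]
  · rfl
  · exact (f.continuous.comp (ln_continuous b)).intervalIntegrable _ _
  · exact (g.continuous.comp (ln_continuous b)).intervalIntegrable _ _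

theorem avg_smul (b : ι → ℝ) (c : ℂ) (f : C(UnitAddTorus ι, ℂ)) (a T : ℝ) :
    avg (fun t => (c • f) (ln b t)) a T = c * avg (fun t => f (ln b t)) a T := by
  unfold avg
  have : (fun t : ℝ => (c • f) (ln b t)) = fun t => c * f (ln b t) := rfl
  rw [this, intervalIntegral.integral_const_mul, Complex.real_smul, Complex.real_smul]
  ring

theorem avg_le {E : Type*} [NormedAddCommGroup E] [NormedSpace ℝ E] {f : ℝ → E} {a T ε : ℝ}
    (hT : 0 < T) (h : ∀ t, ‖f t‖ ≤ ε) : ‖avg f a T‖ ≤ ε := by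
  unfold avg
  have h1 : ‖∫ t in a..(a + T), f t‖ ≤ ε * |a + T - a| :=
    intervalIntegral.norm_integral_le_of_norm_le_const fun t _ => h t
  rw [norm_smul, norm_inv, Real.norm_of_nonneg hT.le]
  rw [add_sub_cancel_left, abs_of_pos hT] at h1
  calc T⁻¹ * ‖∫ t in a..(a + T), f t‖ ≤ T⁻¹ * (ε * T) := by gcongr
    _ = ε := by field_simp

theorem integrable_torus (f : C(UnitAddTorus ι, ℂ)) : Integrable (fun x => f x) (tor ι) :=
  f.continuous.integrable_of_hasCompactSupport (HasCompactSupport.of_compactSpace _)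

theorem good_zero (b : ι → ℝ) : Good b (0 : C(UnitAddTorus ι, ℂ)) := by
  intro ε hε
  refine ⟨1, one_pos, fun T _ a => ?_⟩
  simp [avg, hε.le]

theorem good_add (b : ι → ℝ) {f g : C(UnitAddTorus ι, ℂ)} (hf : Good b f) (hg : Good b g) :
    Good b (f + g) := by
  intro ε hε
  obtain ⟨T1, hT1, h1⟩ := hf (ε / 2) (by positivity)
  obtain ⟨T2, hT2, h2⟩ := hg (ε / 2) (by positivity)
  refine ⟨max T1 T2, by positivity, fun T hT a => ?_⟩
  have e1 : ∫ x, (f + g) x ∂(tor ι) = (∫ x, f x ∂(tor ι)) + ∫ x, g x ∂(tor ι) :=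
    integral_add (integrable_torus f) (integrable_torus g)
  rw [avg_add, e1, add_sub_add_comm]
  refine (norm_add_le _ _).trans ?_
  have := h1 T ((le_max_left _ _).trans hT) a
  have := h2 T ((le_max_right _ _).trans hT) a
  linarith

theorem good_smul (b : ι → ℝ) {f : C(UnitAddTorus ι, ℂ)} (c : ℂ) (hf : Good b f) :
    Good b (c • f) := by
  intro ε hε
  obtain ⟨T1, hT1, h1⟩ := hf (ε / (‖c‖ + 1)) (by positivity)
  refine ⟨T1, hT1, fun T hT a => ?_⟩
  have e1 : ∫ x, (c • f) x ∂(tor ι) = c * ∫ x, f x ∂(tor ι) := integral_const_mul c (fun z => f z)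
  rw [avg_smul, e1, ← mul_sub, norm_mul]
  calc ‖c‖ * ‖avg (fun t => f (ln b t)) a T - ∫ x, f x ∂(tor ι)‖ ≤ (‖c‖ + 1) * (ε / (‖c‖ + 1)) := by
        gcongr
        · linarith
        · exact h1 T hT a
    _ = ε := by field_simp

theorem good_mFourier (b : ι → ℝ) (hb : ∀ n : ι → ℤ, ∑ i, (n i : ℝ) * b i = 0 → n = 0)
    (n : ι → ℤ) : Good b (mFourier n) := by
  by_cases hn : n = 0
  · subst hn
    intro ε hε
    refine ⟨1, one_pos, fun T hT a => ?_⟩
    have hT0 : T ≠ 0 := by linarith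
    have e1 : avg (fun t => (mFourier (0 : ι → ℤ)) (ln b t)) a T = 1 := by
      unfold avg
      simp [mFourier_zero, hT0]
    have e2 : ∫ x : UnitAddTorus ι, mFourier (0 : ι → ℤ) x ∂(tor ι) = 1 := by
      simp [mFourier_zero]
    rw [e1, e2, sub_self, norm_zero]
    exact hε.le
  · intro ε hε
    obtain ⟨C, hC, h⟩ := avg_mFourier b n fun h => hn (hb n h)
    refine ⟨C / ε, by positivity, fun T hT a => ?_⟩
    have hT0 : 0 < T := lt_of_lt_of_le (by positivity) hT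
    rw [integral_mFourier_vol n hn, sub_zero]
    refine (h a T hT0).trans ?_
    rw [div_le_iff₀ hT0]
    rw [div_le_iff₀ hε] at hT
    linarith

theorem good_near (b : ι → ℝ) {f p : C(UnitAddTorus ι, ℂ)} {ε T a : ℝ} (hT : 0 < T)
    (h : ‖f - p‖ ≤ ε) (hp : ‖avg (fun t => p (ln b t)) a T - ∫ x, p x ∂(tor ι)‖ ≤ ε) :
    ‖avg (fun t => f (ln b t)) a T - ∫ x, f x ∂(tor ι)‖ ≤ 3 * ε := by
  have e0 : f = (f - p) + p := by simp
  have e1 : avg (fun t => f (ln b t)) a T = avg (fun t => (f - p) (ln b t)) a T +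
      avg (fun t => p (ln b t)) a T := by
    rw [← avg_add, ← e0]
  have e2 : ∫ x, f x ∂(tor ι) = (∫ x, (f - p) x ∂(tor ι)) + ∫ x, p x ∂(tor ι) := by
    rw [← integral_add (integrable_torus (f - p)) (integrable_torus p)]
    simp
  have h1 : ‖avg (fun t => (f - p) (ln b t)) a T‖ ≤ ε :=
    avg_le hT fun t => ((f - p).norm_coe_le_norm (ln b t)).trans h
  have h2 : ‖∫ x, (f - p) x ∂(tor ι)‖ ≤ ε := by
    have := norm_integral_le_of_norm_le_const (μ := tor ι)
      (f := fun x => (f - p) x) (C := ε)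
      (Filter.Eventually.of_forall fun x => ((f - p).norm_coe_le_norm x).trans h)
    simpa using this
  rw [e1, e2, add_sub_add_comm]
  refine (norm_add_le _ _).trans ?_
  have := norm_sub_le (avg (fun t => (f - p) (ln b t)) a T) (∫ x, (f - p) x ∂(tor ι))
  linarith

/-- Weyl's theorem, uniformly in the position of the window -/
theorem good_all (b : ι → ℝ) (hb : ∀ n : ι → ℤ, ∑ i, (n i : ℝ) * b i = 0 → n = 0)
    (g : C(UnitAddTorus ι, ℂ)) : Good b g := by
  intro ε hε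
  have hcl : g ∈ (Submodule.span ℂ (Set.range (mFourier (d := ι)))).topologicalClosure := by
    rw [span_mFourier_closure_eq_top]; trivial
  obtain ⟨p, hp, hd⟩ := Metric.mem_closure_iff.1 hcl (ε / 3) (by positivity)
  have hd' : ‖g - p‖ ≤ ε / 3 := by rw [dist_eq_norm] at hd; exact hd.le
  have hgood : Good b p := by
    refine Submodule.span_induction (p := fun x _ => Good b x) ?_ (good_zero b)
      (fun x y _ _ => good_add b) (fun c x _ => good_smul b c) hp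
    rintro _ ⟨n, rfl⟩
    exact good_mFourier b hb n
  obtain ⟨T0, hT0, h⟩ := hgood (ε / 3) (by positivity)
  refine ⟨T0, hT0, fun T hT a => ?_⟩
  have := good_near b (hT0.trans_le hT) hd' (h T hT a)
  linarith

/-- Weyl's theorem, uniformly over compact families of functions and all windows -/
theorem weyl_compact (b : ι → ℝ) (hb : ∀ n : ι → ℤ, ∑ i, (n i : ℝ) * b i = 0 → n = 0)
    {K : Type*} [TopologicalSpace K] [CompactSpace K] (Φ : C(K × UnitAddTorus ι, ℂ))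
    {ε : ℝ} (hε : 0 < ε) : ∃ T0 : ℝ, 0 < T0 ∧ ∀ k : K, ∀ T : ℝ, T0 ≤ T → ∀ a : ℝ,
      ‖avg (fun t => Φ (k, ln b t)) a T - ∫ x, Φ (k, x) ∂(tor ι)‖ ≤ ε := by
  have hcomp : IsCompact (Set.range Φ.curry) := isCompact_range Φ.curry.continuous
  obtain ⟨t, hts, htf, htc⟩ := hcomp.finite_cover_balls (e := ε / 3) (by positivity)
  have hg : ∀ g : C(UnitAddTorus ι, ℂ), ∃ T0 : ℝ, 0 < T0 ∧ ∀ T : ℝ, T0 ≤ T → ∀ a : ℝ,
      ‖avg (fun t => g (ln b t)) a T - ∫ x, g x ∂(tor ι)‖ ≤ ε / 3 := fun g =>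
    good_all b hb g (ε / 3) (by positivity)
  choose T0 hT0 hT0' using hg
  obtain ⟨M, hM⟩ := (htf.image T0).bddAbove
  refine ⟨max M 1, by positivity, fun k T hT a => ?_⟩
  obtain ⟨g, hg⟩ := Set.mem_iUnion.1 (htc ⟨k, rfl⟩)
  obtain ⟨hgt, hg⟩ := Set.mem_iUnion.1 hg
  rw [Metric.mem_ball, dist_eq_norm] at hg
  have hTg : T0 g ≤ T := (hM ⟨g, hgt, rfl⟩).trans ((le_max_left _ _).trans hT)
  have hTpos : 0 < T := lt_of_lt_of_le (by positivity) hT
  have := good_near b hTpos hg.le (hT0' g T hTg a)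
  have e : ∀ x, Φ (k, x) = Φ.curry k x := fun x => rfl
  simp only [e]
  linarith

/-- real valued version -/
theorem weyl_real (b : ι → ℝ) (hb : ∀ n : ι → ℤ, ∑ i, (n i : ℝ) * b i = 0 → n = 0)
    {K : Type*} [TopologicalSpace K] [CompactSpace K] {Φ : K × UnitAddTorus ι → ℝ}
    (hΦ : Continuous Φ)
    {ε : ℝ} (hε : 0 < ε) : ∃ T0 : ℝ, 0 < T0 ∧ ∀ k : K, ∀ T : ℝ, T0 ≤ T → ∀ a : ℝ,
      |avg (fun t => Φ (k, ln b t)) a T - ∫ x, Φ (k, x) ∂(tor ι)| ≤ ε := by
  obtain ⟨T0, hT0, h⟩ := weyl_compact b hb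
    (⟨fun x => ((Φ x : ℝ) : ℂ), Complex.continuous_ofReal.comp hΦ⟩ : C(K × UnitAddTorus ι, ℂ)) hε
  refine ⟨T0, hT0, fun k T hT a => ?_⟩
  have h1 := h k T hT a
  simp only [ContinuousMap.coe_mk] at h1
  have e1 : avg (fun t => ((Φ (k, ln b t) : ℝ) : ℂ)) a T =
      ((avg (fun t => Φ (k, ln b t)) a T : ℝ) : ℂ) := by
    unfold avg
    rw [intervalIntegral.integral_ofReal]
    simp
  have e2 : ∫ x, ((Φ (k, x) : ℝ) : ℂ) ∂(tor ι) = ((∫ x, Φ (k, x) ∂(tor ι) : ℝ) : ℂ) :=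
    integral_ofReal
  rw [e1, e2, ← Complex.ofReal_sub, Complex.norm_real, Real.norm_eq_abs] at h1
  exact h1

/-- the frequencies `-(log p)/(2π)` are independent -/
theorem freq_indep (s : Finset ℕ) (hs : ∀ p ∈ s, p.Prime) (n : s → ℤ)
    (h : ∑ i : s, (n i : ℝ) * (-(Real.log (i : ℕ)) / (2 * Real.pi)) = 0) : n = 0 := by
  funext j
  refine Pool.Agent.W755.Haight.log_prime_indep (fun i : s => (i : ℕ)) (fun i => hs i i.2)
    Subtype.val_injective n ?_ j
  have h1 : ∑ i : s, (n i : ℝ) * (-(Real.log (i : ℕ)) / (2 * Real.pi)) =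
      (-(1 / (2 * Real.pi))) * ∑ i : s, (n i : ℝ) * Real.log (i : ℕ) := by
    rw [Finset.mul_sum]
    refine Finset.sum_congr rfl fun i _ => ?_
    ring
  rw [h1] at h
  refine (mul_eq_zero.1 h).resolve_left ?_
  have := Real.pi_pos
  have : 1 / (2 * Real.pi) ≠ 0 := by positivity
  exact neg_ne_zero.2 this

end Pool.Agent.Q255.SG
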